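import Mathlib

/-!
# MP_b0e20b_ag, project R: definitions for the first order level

`A`, `B`, `C` are finite types, `T : A → B → C → ℝ` a real tensor. `c1`, `c2`, `c3` are its
contractions with two complex vectors. `Tup T SA SB SC u v w α β γ`: the vectors are supported in
the masks `SA`, `SB`, `SC` and form a (possibly degenerate) singular tuple of the part of `T` in the
masks, with the multipliers `α`, `β`, `γ`. `FR` (fully real): all nonzero singular tuples are real up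
to scaling, have nonzero multipliers and are nondegenerate.
All limits are taken along the ultrafilter `uf` on `ℕ`.
-/

set_option autoImplicit false

open scoped BigOperators Topology
open Filter

namespace Pool.Agent.MPb0eR

/-- The ultrafilter along which all limits are taken. -/
noncomputable abbrev uf : Filter ℕ := (Filter.hyperfilter ℕ : Filter ℕ)

section

variable {A B C : Type} [Fintype A] [Fintype B] [Fintype C]

/-- Contraction with vectors of the second and third factor. -/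
def c1 (T : A → B → C → ℝ) (v : B → ℂ) (w : C → ℂ) (a : A) : ℂ :=
  ∑ b, ∑ c, (T a b c : ℂ) * (v b * w c)

/-- Contraction with vectors of the first and third factor. -/
def c2 (T : A → B → C → ℝ) (u : A → ℂ) (w : C → ℂ) (b : B) : ℂ :=
  ∑ a, ∑ c, (T a b c : ℂ) * (u a * w c)

/-- Contraction with vectors of the first and second factor. -/
def c3 (T : A → B → C → ℝ) (u : A → ℂ) (v : B → ℂ) (c : C) : ℂ :=
  ∑ a, ∑ b, (T a b c : ℂ) * (u a * v b)

/-- The trilinear form. -/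
def tr (T : A → B → C → ℝ) (u : A → ℂ) (v : B → ℂ) (w : C → ℂ) : ℂ :=
  ∑ a, ∑ b, ∑ c, (T a b c : ℂ) * (u a * v b * w c)

/-- The sum of the squares. -/
def q (u : A → ℂ) : ℂ := ∑ a, u a ^ 2

/-- `u` vanishes outside `S`. -/
def Sup (S : Finset A) (u : A → ℂ) : Prop := ∀ a, a ∉ S → u a = 0

/-- `u` is real up to a nonzero factor. -/
def Rl (u : A → ℂ) : Prop := ∃ r : ℂ, r ≠ 0 ∧ ∀ a, (r * u a).im = 0

/-- All entries are real. -/
def Rea (u : A → ℂ) : Prop := ∀ a, (u a).im = 0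

/-- Normalised at the index `ia`. -/
def Nrm (u : A → ℂ) (ia : A) : Prop := u ia = 1 ∧ ∀ a, ‖u a‖ ≤ 1

/-- The conjugate vector. -/
def cj (u : A → ℂ) : A → ℂ := fun a => starRingEnd ℂ (u a)

/-- Exchange of the first two factors. -/
def s12 (T : A → B → C → ℝ) : B → A → C → ℝ := fun b a c => T a b c

/-- Exchange of the last two factors. -/
def s23 (T : A → B → C → ℝ) : A → C → B → ℝ := fun a c b => T a b c

/-- Singular tuples with supports in the masks. -/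
structure Tup (T : A → B → C → ℝ) (SA : Finset A) (SB : Finset B) (SC : Finset C)
    (u : A → ℂ) (v : B → ℂ) (w : C → ℂ) (α β γ : ℂ) : Prop where
  su : Sup SA u
  sv : Sup SB v
  sw : Sup SC w
  e1 : ∀ a ∈ SA, c1 T v w a = α * u a
  e2 : ∀ b ∈ SB, c2 T u w b = β * v b
  e3 : ∀ c ∈ SC, c3 T u v c = γ * w c

/-- A vector in the kernel of the linearised equations of `Tup`. -/
structure Ker (T : A → B → C → ℝ) (SA : Finset A) (SB : Finset B) (SC : Finset C)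
    (u : A → ℂ) (v : B → ℂ) (w : C → ℂ) (α β γ : ℂ) (du : A → ℂ) (dv : B → ℂ) (dw : C → ℂ)
    (dα dβ dγ : ℂ) : Prop where
  su : Sup SA du
  sv : Sup SB dv
  sw : Sup SC dw
  e1 : ∀ a ∈ SA, c1 T dv w a + c1 T v dw a = α * du a + dα * u a
  e2 : ∀ b ∈ SB, c2 T du w b + c2 T u dw b = β * dv b + dβ * v b
  e3 : ∀ c ∈ SC, c3 T du v c + c3 T u dv c = γ * dw c + dγ * w c

/-- Nondegenerate: the kernel of the linearised equations consists of rescalings. -/
def Nd (T : A → B → C → ℝ) (SA : Finset A) (SB : Finset B) (SC : Finset C)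
    (u : A → ℂ) (v : B → ℂ) (w : C → ℂ) (α β γ : ℂ) : Prop :=
  ∀ du dv dw dα dβ dγ, Ker T SA SB SC u v w α β γ du dv dw dα dβ dγ →
    (∃ r : ℂ, du = r • u) ∧ (∃ r : ℂ, dv = r • v) ∧ ∃ r : ℂ, dw = r • w

/-- The conclusion for one tuple. -/
structure Ok (T : A → B → C → ℝ) (SA : Finset A) (SB : Finset B) (SC : Finset C)
    (u : A → ℂ) (v : B → ℂ) (w : C → ℂ) (α β γ : ℂ) : Prop where
  ru : Rl u
  rv : Rl v
  rw' : Rl w
  hα : α ≠ 0
  hβ : β ≠ 0
  hγ : γ ≠ 0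
  nd : Nd T SA SB SC u v w α β γ

/-- Fully real: all singular tuples of the masked tensor are real, nondegenerate, with nonzero
multipliers. -/
def FR (T : A → B → C → ℝ) (SA : Finset A) (SB : Finset B) (SC : Finset C) : Prop :=
  ∀ u v w α β γ, Tup T SA SB SC u v w α β γ → u ≠ 0 → v ≠ 0 → w ≠ 0 →
    Ok T SA SB SC u v w α β γ

/-- No zeros of the masked contraction `c1`. -/
def VE (T : A → B → C → ℝ) (SA : Finset A) (SB : Finset B) (SC : Finset C) : Prop :=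
  ∀ v w, Sup SB v → Sup SC w → (∀ a ∈ SA, c1 T v w a = 0) → v = 0 ∨ w = 0

/-- All zeros of the masked contraction `c1` are real and nondegenerate. -/
def VR (T : A → B → C → ℝ) (SA : Finset A) (SB : Finset B) (SC : Finset C) : Prop :=
  ∀ v w, Sup SB v → Sup SC w → (∀ a ∈ SA, c1 T v w a = 0) → v ≠ 0 → w ≠ 0 →
    Rl v ∧ Rl w ∧ ∀ dv dw, Sup SB dv → Sup SC dw →
      (∀ a ∈ SA, c1 T dv w a + c1 T v dw a = 0) → (∃ r : ℂ, dv = r • v) ∧ ∃ r : ℂ, dw = r • w

end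

section

variable {A B C : Type} [Fintype A] [Fintype B] [Fintype C] [DecidableEq A] [DecidableEq B]
  [DecidableEq C]

/-- `T` with `y` added at one entry. -/
def ad (T : A → B → C → ℝ) (a0 : A) (b0 : B) (c0 : C) (y : ℝ) : A → B → C → ℝ :=
  fun a b c => T a b c + if a = a0 ∧ b = b0 ∧ c = c0 then y else 0

/-- A sequence of normalised singular tuples of the tensors with a large entry `s * L n`. -/
structure Sq (T : A → B → C → ℝ) (a0 : A) (b0 : B) (c0 : C) (s : ℝ) (SA : Finset A)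
    (SB : Finset B) (SC : Finset C) (L : ℕ → ℝ) (ia : A) (ib : B) (ic : C) (u : ℕ → A → ℂ)
    (v : ℕ → B → ℂ) (w : ℕ → C → ℂ) (α β γ : ℕ → ℂ) : Prop where
  hL : Tendsto L uf atTop
  pos : ∀ n, 0 < L n
  tup : ∀ n, Tup (ad T a0 b0 c0 (s * L n)) SA SB SC (u n) (v n) (w n) (α n) (β n) (γ n)
  nu : ∀ n, Nrm (u n) ia
  nv : ∀ n, Nrm (v n) ib
  nw : ∀ n, Nrm (w n) ic

/-- Limits of the vectors. -/
structure Lv (u : ℕ → A → ℂ) (v : ℕ → B → ℂ) (w : ℕ → C → ℂ) (u0 : A → ℂ) (v0 : B → ℂ)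
    (w0 : C → ℂ) : Prop where
  hu : Tendsto u uf (𝓝 u0)
  hv : Tendsto v uf (𝓝 v0)
  hw : Tendsto w uf (𝓝 w0)

/-- Limits of the multipliers. -/
structure Lc (α β γ : ℕ → ℂ) (α0 β0 γ0 : ℂ) : Prop where
  hα : Tendsto α uf (𝓝 α0)
  hβ : Tendsto β uf (𝓝 β0)
  hγ : Tendsto γ uf (𝓝 γ0)

/-- The conclusion for the tuples of `ad T a0 b0 c0 (s * L)`: `Ok` and nonzero corner
coordinates. -/
def Okc (T : A → B → C → ℝ) (a0 : A) (b0 : B) (c0 : C) (s : ℝ) (SA : Finset A)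
    (SB : Finset B) (SC : Finset C) (L : ℝ) (u : A → ℂ) (v : B → ℂ) (w : C → ℂ) (α β γ : ℂ) :
    Prop :=
  Ok (ad T a0 b0 c0 (s * L)) SA SB SC u v w α β γ ∧ u a0 ≠ 0 ∧ v b0 ≠ 0 ∧ w c0 ≠ 0

/-- Multiplication of the coordinate `a0` by `e`, of the other coordinates by `f`. -/
def scl (a0 : A) (e f : ℝ) (u : A → ℂ) : A → ℂ := fun a => ((if a = a0 then e else f : ℝ) : ℂ) * u a

/-- The space of the unknowns of the local systems: three vectors and three multipliers. -/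
abbrev Pt (A B C : Type) : Type := (A → ℂ) × (B → ℂ) × (C → ℂ) × (Fin 3 → ℂ)

/-- The conjugate point. -/
def cjP {A B C : Type} (p : Pt A B C) : Pt A B C := (cj p.1, cj p.2.1, cj p.2.2.1, cj p.2.2.2)

/-- All entries are real. -/
def ReP {A B C : Type} (p : Pt A B C) : Prop := Rea p.1 ∧ Rea p.2.1 ∧ Rea p.2.2.1 ∧ Rea p.2.2.2

/-- The three bilinear parts of the local system, as functions of the vectors `v`, `w` etc. -/
def lb1 (T : A → B → C → ℝ) (a0 : A) (b0 : B) (c0 : C) (s : ℝ) (SA : Finset A)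
    (z : Fin 3 → Fin 5 → ℝ) (p r : Pt A B C) (a : A) : ℂ :=
  if a = a0 then
    (z 0 2 : ℂ) * c1 T (scl b0 (z 1 0) (z 1 1) p.2.1) (scl c0 (z 2 0) (z 2 1) r.2.2.1) a0
      + (s : ℂ) * (z 0 3 : ℂ) * (p.2.1 b0 * r.2.2.1 c0) - (z 0 4 : ℂ) * (p.2.2.2 0 * r.1 a0)
  else if a ∈ SA then
    c1 T (scl b0 (z 1 0) (z 1 1) p.2.1) (scl c0 (z 2 0) (z 2 1) r.2.2.1) a - p.2.2.2 0 * r.1 a
  else 0

/-- Second component. -/
def lb2 (T : A → B → C → ℝ) (a0 : A) (b0 : B) (c0 : C) (s : ℝ) (SB : Finset B)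
    (z : Fin 3 → Fin 5 → ℝ) (p r : Pt A B C) (b : B) : ℂ :=
  if b = b0 then
    (z 1 2 : ℂ) * c2 T (scl a0 (z 0 0) (z 0 1) p.1) (scl c0 (z 2 0) (z 2 1) r.2.2.1) b0
      + (s : ℂ) * (z 1 3 : ℂ) * (p.1 a0 * r.2.2.1 c0) - (z 1 4 : ℂ) * (p.2.2.2 1 * r.2.1 b0)
  else if b ∈ SB then
    c2 T (scl a0 (z 0 0) (z 0 1) p.1) (scl c0 (z 2 0) (z 2 1) r.2.2.1) b - p.2.2.2 1 * r.2.1 b
  else 0

/-- Third component. -/
def lb3 (T : A → B → C → ℝ) (a0 : A) (b0 : B) (c0 : C) (s : ℝ) (SC : Finset C)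
    (z : Fin 3 → Fin 5 → ℝ) (p r : Pt A B C) (c : C) : ℂ :=
  if c = c0 then
    (z 2 2 : ℂ) * c3 T (scl a0 (z 0 0) (z 0 1) p.1) (scl b0 (z 1 0) (z 1 1) r.2.1) c0
      + (s : ℂ) * (z 2 3 : ℂ) * (p.1 a0 * r.2.1 b0) - (z 2 4 : ℂ) * (p.2.2.2 2 * r.2.2.1 c0)
  else if c ∈ SC then
    c3 T (scl a0 (z 0 0) (z 0 1) p.1) (scl b0 (z 1 0) (z 1 1) r.2.1) c - p.2.2.2 2 * r.2.2.1 c
  else 0

/-- The linear part of the local system: the coordinates outside of the masks, and the normalised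
coordinates. -/
def ll (a0 : A) (b0 : B) (c0 : C) (SA : Finset A) (SB : Finset B) (SC : Finset C) (ia : A) (ib : B)
    (ic : C) (p : Pt A B C) : Pt A B C :=
  (fun a => if a = a0 ∨ a ∈ SA then 0 else p.1 a, fun b => if b = b0 ∨ b ∈ SB then 0 else p.2.1 b,
    fun c => if c = c0 ∨ c ∈ SC then 0 else p.2.2.1 c, ![p.1 ia, p.2.1 ib, p.2.2.1 ic])

/-- The local system. For the parameters `z = ![z0, z1, z2]`, `z i = ![e, f, m, k, g]`, the solutions
of `loc z p = 0` are the tuples of `ad T a0 b0 c0 (s * L)` in the coordinates scaled by `e` (corner)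
and `f` (other coordinates), if `k 0 = m 0 * L * e 1 * e 2` and so on and `g i * f i = m i * e i`
(module `Trn`). -/
def loc (T : A → B → C → ℝ) (a0 : A) (b0 : B) (c0 : C) (s : ℝ) (SA : Finset A) (SB : Finset B)
    (SC : Finset C) (ia : A) (ib : B) (ic : C) (z : Fin 3 → Fin 5 → ℝ) (p : Pt A B C) :
    Pt A B C :=
  (lb1 T a0 b0 c0 s SA z p p, lb2 T a0 b0 c0 s SB z p p, lb3 T a0 b0 c0 s SC z p p, fun _ => -1)
    + ll a0 b0 c0 SA SB SC ia ib ic p

/-- The derivative of the local system at `p` in the direction `h`. -/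
def dloc (T : A → B → C → ℝ) (a0 : A) (b0 : B) (c0 : C) (s : ℝ) (SA : Finset A) (SB : Finset B)
    (SC : Finset C) (ia : A) (ib : B) (ic : C) (z : Fin 3 → Fin 5 → ℝ) (p h : Pt A B C) :
    Pt A B C :=
  (lb1 T a0 b0 c0 s SA z p h + lb1 T a0 b0 c0 s SA z h p,
    lb2 T a0 b0 c0 s SB z p h + lb2 T a0 b0 c0 s SB z h p,
    lb3 T a0 b0 c0 s SC z p h + lb3 T a0 b0 c0 s SC z h p, 0)
    + ll a0 b0 c0 SA SB SC ia ib ic h

/-- The scale parameters fit to the large entry `s * L`. -/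
structure Sc (L : ℝ) (z : Fin 3 → Fin 5 → ℝ) : Prop where
  e : ∀ i, z i 0 ≠ 0
  f : ∀ i, z i 1 ≠ 0
  m : ∀ i, z i 2 ≠ 0
  k0 : z 0 3 = z 0 2 * L * z 1 0 * z 2 0
  k1 : z 1 3 = z 1 2 * L * z 0 0 * z 2 0
  k2 : z 2 3 = z 2 2 * L * z 0 0 * z 1 0
  g : ∀ i, z i 4 * z i 1 = z i 2 * z i 0

/-- The limit parameters for the limits in the mask without the corners of the first two
factors. -/
def z12 : Fin 3 → Fin 5 → ℝ := ![![0, 1, 1, 1, 0], ![0, 1, 1, 1, 0], ![1, 1, 1, 0, 1]]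

/-- The limit parameters for the limits in the mask without the three corners. -/
def z123 : Fin 3 → Fin 5 → ℝ := fun _ => ![0, 1, 1, 1, 0]

/-- The limit parameters for the limits concentrated at the corner. -/
def zM : Fin 3 → Fin 5 → ℝ := fun _ => ![1, 0, 0, 1, 1]

/-- The local system for the zeros of `c1`, corner coordinate of the second factor scaled. -/
def vloc (T : A → B → C → ℝ) (a0 : A) (b0 : B) (c0 : C) (s : ℝ) (SA : Finset A) (SB : Finset B)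
    (SC : Finset C) (ib : B) (ic : C) (ε : ℝ) (p : (B → ℂ) × (C → ℂ)) :
    (A → ℂ) × (B → ℂ) × (C → ℂ) × (Fin 2 → ℂ) :=
  (fun a => if a ∈ SA then c1 T (scl b0 ε 1 p.1) p.2 a +
      (if a = a0 then (s : ℂ) * (p.1 b0 * p.2 c0) else 0) else 0,
    fun b => if b ∈ SB then 0 else p.1 b, fun c => if c ∈ SC then 0 else p.2 c,
    ![p.1 ib - 1, p.2 ic - 1])

/-- The derivative of `vloc` at `p` in the direction `h`. -/
def dvloc (T : A → B → C → ℝ) (a0 : A) (b0 : B) (c0 : C) (s : ℝ) (SA : Finset A) (SB : Finset B)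
    (SC : Finset C) (ib : B) (ic : C) (ε : ℝ) (p h : (B → ℂ) × (C → ℂ)) :
    (A → ℂ) × (B → ℂ) × (C → ℂ) × (Fin 2 → ℂ) :=
  (fun a => if a ∈ SA then c1 T (scl b0 ε 1 h.1) p.2 a + c1 T (scl b0 ε 1 p.1) h.2 a +
      (if a = a0 then (s : ℂ) * (h.1 b0 * p.2 c0 + p.1 b0 * h.2 c0) else 0) else 0,
    fun b => if b ∈ SB then 0 else h.1 b, fun c => if c ∈ SC then 0 else h.2 c,
    ![h.1 ib, h.2 ic])

/-- Rotation of the coordinates `c` and `o` of a vector. -/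
noncomputable def rv (c o : C) (w : C → ℂ) : C → ℂ := fun k =>
  if k = c then (4 * w c - 3 * w o) / 5 else if k = o then (3 * w c + 4 * w o) / 5 else w k

/-- Rotation of the slices `c` and `o` of the last factor. -/
noncomputable def r3 (T : A → B → C → ℝ) (c o : C) : A → B → C → ℝ := fun a b k =>
  if k = c then (4 * T a b c - 3 * T a b o) / 5
  else if k = o then (3 * T a b c + 4 * T a b o) / 5 else T a b k

/-- Rotation of the slices `b` and `o` of the second factor. -/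
noncomputable def r2 (T : A → B → C → ℝ) (b o : B) : A → B → C → ℝ := s23 (r3 (s23 T) b o)

/-- The tensor with one entry replaced. -/
def up (F : A → B → C → ℝ) (a0 : A) (b0 : B) (c0 : C) (x : ℝ) : A → B → C → ℝ :=
  fun a b c => if a = a0 ∧ b = b0 ∧ c = c0 then x else F a b c

end

/-! ### The hierarchical tensor -/

/-- Tensors of the format `(n1, n2 + 1, n3 + 1)`. -/
abbrev FT (n1 n2 n3 : ℕ) : Type := Fin n1 → Fin (n2 + 1) → Fin (n3 + 1) → ℝ

/-- The last index but one. -/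
def pb (n : ℕ) : Fin (n + 1) := ⟨n - 1, by omega⟩

/-- The last index. -/
def po (n : ℕ) : Fin (n + 1) := ⟨n, by omega⟩

/-- The signs. -/
def sg (p q r : ℕ) : ℝ := (-1) ^ ((p + q + r) / 2)

/-- The indices `i` with `p ≤ i < m`. -/
def mk (n p m : ℕ) : Finset (Fin n) := Finset.univ.filter fun i => p ≤ i.val ∧ i.val < m

/-- The tensor in the mode `(m, m')`: `m = 0`: no rotation in the second factor, `m ≥ 1`: rotation
by `r2`; `m'`: the same for the last factor. The mask of the mode `m` is `mk (n + 1) q (n + 1 - m)`: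
the last `m` indices are left out. -/
noncomputable def vt {n1 n2 n3 : ℕ} (m m' : ℕ) (F : FT n1 n2 n3) : FT n1 n2 n3 :=
  if m = 0 then (if m' = 0 then F else r3 F (pb n3) (po n3))
  else (if m' = 0 then r2 F (pb n2) (po n2) else r3 (r2 F (pb n2) (po n2)) (pb n3) (po n3))

/-- The masked tensor with corner `(p, q, r)` is fully real, the corner coordinates of its singular
tuples do not vanish, and the entry `(p, q, r)` dominates the contractions `d1`, `d2`, `d3`. -/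
structure GT {n1 n2 n3 : ℕ} (T : FT n1 n2 n3) (mB mC p q r : ℕ) : Prop where
  fr : FR T (mk n1 p n1) (mk (n2 + 1) q mB) (mk (n3 + 1) r mC)
  cu : ∀ u v w α β γ, Tup T (mk n1 p n1) (mk (n2 + 1) q mB) (mk (n3 + 1) r mC) u v w α β γ →
    u ≠ 0 → v ≠ 0 → w ≠ 0 → (∀ a : Fin n1, a.val = p → u a ≠ 0) ∧
      (∀ b : Fin (n2 + 1), b.val = q → v b ≠ 0) ∧ ∀ c : Fin (n3 + 1), c.val = r → w c ≠ 0
  d1 : ∀ u v w α β γ, Tup T (mk n1 (p + 1) n1) (mk (n2 + 1) q mB) (mk (n3 + 1) r mC) u v w α β γ →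
    u ≠ 0 → v ≠ 0 → w ≠ 0 → ∀ (a : Fin n1) (b : Fin (n2 + 1)) (c : Fin (n3 + 1)), a.val = p →
      b.val = q → c.val = r → ∃ ρ : ℝ, 0 < ρ ∧ c1 T v w a = ρ * sg p q r * (v b * w c)
  d2 : ∀ u v w α β γ, Tup T (mk n1 p n1) (mk (n2 + 1) (q + 1) mB) (mk (n3 + 1) r mC) u v w α β γ →
    u ≠ 0 → v ≠ 0 → w ≠ 0 → ∀ (a : Fin n1) (b : Fin (n2 + 1)) (c : Fin (n3 + 1)), a.val = p →
      b.val = q → c.val = r → ∃ ρ : ℝ, 0 < ρ ∧ c2 T u w b = ρ * sg p q r * (u a * w c)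
  d3 : ∀ u v w α β γ, Tup T (mk n1 p n1) (mk (n2 + 1) q mB) (mk (n3 + 1) (r + 1) mC) u v w α β γ →
    u ≠ 0 → v ≠ 0 → w ≠ 0 → ∀ (a : Fin n1) (b : Fin (n2 + 1)) (c : Fin (n3 + 1)), a.val = p →
      b.val = q → c.val = r → ∃ ρ : ℝ, 0 < ρ ∧ c3 T u v c = ρ * sg p q r * (u a * v b)

/-- Dominance of the slice `pb n3` over the slice `po n3` at one position. -/
def Ee {n1 n2 n3 : ℕ} (F : FT n1 n2 n3) (a : Fin n1) (b : Fin (n2 + 1)) : Prop :=
  ∀ m ≤ 2, b.val < n2 + 1 - m →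
    5 * |vt m 0 F a b (po n3)| < 3 * |vt m 1 F a b (pb n3)|

/-- Dominance of the slice `pb n3` over the slice `po n3` at the singular tuples. -/
def PW {n1 n2 n3 : ℕ} (F : FT n1 n2 n3) (p q r : ℕ) : Prop :=
  ∀ m ≤ 2, ∀ m' ≤ 2, 1 ≤ m' → ∀ u v w α β γ,
    Tup (vt m 1 F) (mk n1 p n1) (mk (n2 + 1) q (n2 + 1 - m)) (mk (n3 + 1) r (n3 + 1 - m'))
      u v w α β γ → u ≠ 0 → v ≠ 0 → w ≠ 0 →
    5 * ‖c3 (vt m 0 F) u v (po n3)‖ < 3 * ‖c3 (vt m 1 F) u v (pb n3)‖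

/-- The rotated coordinate `po n3` does not vanish at the singular tuples of the masks with full last
factor. -/
def ZW {n1 n2 n3 : ℕ} (F : FT n1 n2 n3) (p q r : ℕ) : Prop :=
  ∀ m ≤ 2, ∀ u v w α β γ,
    Tup (vt m 0 F) (mk n1 p n1) (mk (n2 + 1) q (n2 + 1 - m)) (mk (n3 + 1) r (n3 + 1))
      u v w α β γ → u ≠ 0 → v ≠ 0 → w ≠ 0 → 3 * w (pb n3) + 4 * w (po n3) ≠ 0

/-- The zeros of `c1` for the full masks are real and nondegenerate, with nonzero rotated coordinates,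
if their expected number is finite. -/
def VG {n1 n2 n3 : ℕ} (F : FT n1 n2 n3) (p q r : ℕ) : Prop :=
  p + n2 + n3 = n1 + q + r →
    VR F (mk n1 p n1) (mk (n2 + 1) q (n2 + 1)) (mk (n3 + 1) r (n3 + 1)) ∧
    ∀ v w, Sup (mk (n2 + 1) q (n2 + 1)) v → Sup (mk (n3 + 1) r (n3 + 1)) w →
      (∀ a ∈ mk n1 p n1, c1 F v w a = 0) → v ≠ 0 → w ≠ 0 →
      3 * v (pb n2) + 4 * v (po n2) ≠ 0 ∧ 3 * w (pb n3) + 4 * w (po n3) ≠ 0

/-- Everything at the corner `(a, b, c)`. -/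
structure Gd {n1 n2 n3 : ℕ} (F : FT n1 n2 n3) (a : Fin n1) (b : Fin (n2 + 1))
    (c : Fin (n3 + 1)) : Prop where
  gt : ∀ m ≤ 2, ∀ m' ≤ 2, GT (vt m m' F) (n2 + 1 - m) (n3 + 1 - m') a.val b.val c.val
  e3 : c = pb n3 → Ee F a b
  e2 : b = pb n2 → Ee (s23 F) a c
  p3 : PW F a.val b.val c.val
  p2 : PW (s23 F) a.val c.val b.val
  z3 : c.val < n3 → ZW F a.val b.val c.val
  z2 : b.val < n2 → ZW (s23 F) a.val c.val b.val
  vg : VG F a.val b.val c.val

end Pool.Agent.MPb0eR
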