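import Mathlib
import Pool.Agent.Lib.MP_b0e20b_ag_R.Defs

/-!
# MP_b0e20b_ag, project R: the properties of the first order tensor
-/

set_option autoImplicit false

open scoped BigOperators Topology
open Filter

namespace Pool.Agent.MPb0eR

/-- The masks of the second factor: everything, or without `oB`. -/
def MB {B : Type} [Fintype B] [DecidableEq B] (oB : B) (x : Bool) : Finset B :=
  if x then Finset.univ.erase oB else Finset.univ

/-- The masks of the last factor: everything, without `oC`, without `oC` and `c`. -/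
def MC {C : Type} [Fintype C] [DecidableEq C] (c oC : C) (y : Fin 3) : Finset C :=
  if y = 0 then Finset.univ else if y = 1 then Finset.univ.erase oC
  else (Finset.univ.erase oC).erase c

/-- The properties of the tensor of the first order level: all masks are fully real; nonvanishing
coordinates `oB`, `oC` for the full masks, domination of the slices `oB`, `oC` by the slices `b`, `c`
for the other masks; zeros of `c1`. -/
structure FO {A B C : Type} [Fintype A] [Fintype B] [Fintype C] [DecidableEq A] [DecidableEq B]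
    [DecidableEq C] (T : A → B → C → ℝ) (b oB : B) (c oC : C) : Prop where
  hb : b ≠ oB
  hc : c ≠ oC
  fr : ∀ x y, FR T Finset.univ (MB oB x) (MC c oC y)
  vo : ∀ y u v w α β γ, Tup T Finset.univ Finset.univ (MC c oC y) u v w α β γ → u ≠ 0 → v ≠ 0 →
    w ≠ 0 → v oB ≠ 0
  wo : ∀ x u v w α β γ, Tup T Finset.univ (MB oB x) Finset.univ u v w α β γ → u ≠ 0 → v ≠ 0 →
    w ≠ 0 → w oC ≠ 0
  db : ∀ y u v w α β γ, Tup T Finset.univ (Finset.univ.erase oB) (MC c oC y) u v w α β γ →
    u ≠ 0 → v ≠ 0 → w ≠ 0 → c2 T u w b ≠ 0 ∧ ∃ ρ : ℝ, 0 < ρ ∧ c2 T u w oB = ρ * c2 T u w b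
  dc : ∀ x y u v w α β γ, y ≠ 0 → Tup T Finset.univ (MB oB x) (MC c oC y) u v w α β γ →
    u ≠ 0 → v ≠ 0 → w ≠ 0 → c3 T u v c ≠ 0 ∧ ∃ ρ : ℝ, 0 < ρ ∧ c3 T u v oC = ρ * c3 T u v c
  vr : VR T Finset.univ Finset.univ Finset.univ
  vz : ∀ v w, v ≠ 0 → w ≠ 0 → (∀ a, c1 T v w a = 0) → v oB ≠ 0 ∧ w oC ≠ 0
  ve : VE T Finset.univ (Finset.univ.erase oB) Finset.univ

end Pool.Agent.MPb0eR
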