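import Mathlib
import Pool.Agent.Lib.MP_b0e20b_ag_R.FDefs

/-!
# MP_b0e20b_ag, project R: definitions for the affine level

`IsQ b l`: `b` is a bilinear form and `l` a linear form with values in `F`, depending continuously on
parameters; the systems `b z p p + l z p + k = 0` are quadratic in `p`.

`BT`: the system which appears for one large entry, with the additional unknowns `θ`, `ν` (second
level); `AT`: the normalised critical equations of a tensor `L • T + L ^ 2 s • e` (third level);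
`AF`: the critical equations.
-/

set_option autoImplicit false

open scoped BigOperators Topology
open Filter

namespace Pool.Agent.MPb0eR

/-- Bilinear and linear forms which depend continuously on a parameter. -/
structure IsQ {Z E F : Type} [TopologicalSpace Z] [NormedAddCommGroup E] [NormedSpace ℝ E]
    [NormedAddCommGroup F] [NormedSpace ℝ F] (b : Z → E → E → F) (l : Z → E → F) : Prop where
  al : ∀ z p p' r, b z (p + p') r = b z p r + b z p' r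
  ar : ∀ z p r r', b z p (r + r') = b z p r + b z p r'
  sl : ∀ z (t : ℝ) p r, b z (t • p) r = t • b z p r
  sr : ∀ z (t : ℝ) p r, b z p (t • r) = t • b z p r
  la : ∀ z p r, l z (p + r) = l z p + l z r
  ls : ∀ z (t : ℝ) p, l z (t • p) = t • l z p
  cb : Continuous fun x : Z × E × E => b x.1 x.2.1 x.2.2
  cl : Continuous fun x : Z × E => l x.1 x.2

section

variable {A B C : Type} [Fintype A] [Fintype B] [Fintype C]

/-- The linearisation of `q`. -/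
def dq (u du : A → ℂ) : ℂ := 2 * ∑ a, u a * du a

/-- The system of the second level. -/
structure BT [DecidableEq C] (T : A → B → C → ℝ) (SA : Finset A) (SB : Finset B) (c o : C) (s : ℝ)
    (u : A → ℂ) (v : B → ℂ) (w : C → ℂ) (α β γ θ ν : ℂ) : Prop where
  su : Sup SA u
  sv : Sup SB v
  hθ : θ ≠ 0
  e1 : ∀ a ∈ SA, c1 T v w a = α * u a
  e2 : ∀ b ∈ SB, c2 T u w b = β * v b
  e3 : ∀ k, k ≠ o → c3 T u v k + (if k = c then ν else 0) = γ * w k
  e4 : θ * α = q v * q w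
  e5 : θ * β = q u * q w
  e6 : θ * γ = q u * q v
  e7 : w o * ν = s * θ
  e8 : γ * w o ^ 2 = w o * c3 T u v o - ν * w c

/-- The linearised system of the second level. -/
structure KerB [DecidableEq C] (T : A → B → C → ℝ) (SA : Finset A) (SB : Finset B) (c o : C) (s : ℝ)
    (u : A → ℂ) (v : B → ℂ) (w : C → ℂ) (α β γ θ ν : ℂ) (du : A → ℂ) (dv : B → ℂ) (dw : C → ℂ)
    (dα dβ dγ dθ dν : ℂ) : Prop where
  su : Sup SA du
  sv : Sup SB dv
  e1 : ∀ a ∈ SA, c1 T dv w a + c1 T v dw a = α * du a + dα * u a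
  e2 : ∀ b ∈ SB, c2 T du w b + c2 T u dw b = β * dv b + dβ * v b
  e3 : ∀ k, k ≠ o →
    c3 T du v k + c3 T u dv k + (if k = c then dν else 0) = γ * dw k + dγ * w k
  e4 : dθ * α + θ * dα = dq v dv * q w + q v * dq w dw
  e5 : dθ * β + θ * dβ = dq u du * q w + q u * dq w dw
  e6 : dθ * γ + θ * dγ = dq u du * q v + q u * dq v dv
  e7 : dw o * ν + w o * dν = s * dθ
  e8 : dγ * w o ^ 2 + 2 * (γ * w o * dw o) = dw o * c3 T u v o
    + w o * (c3 T du v o + c3 T u dv o) - dν * w c - ν * dw c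

/-- Nondegenerate: the kernel of the linearised equations consists of rescalings. -/
def NdB [DecidableEq C] (T : A → B → C → ℝ) (SA : Finset A) (SB : Finset B) (c o : C) (s : ℝ)
    (u : A → ℂ) (v : B → ℂ) (w : C → ℂ) (α β γ θ ν : ℂ) : Prop :=
  ∀ du dv dw dα dβ dγ dθ dν,
    KerB T SA SB c o s u v w α β γ θ ν du dv dw dα dβ dγ dθ dν →
    (∃ r : ℂ, du = r • u) ∧ (∃ r : ℂ, dv = r • v) ∧ ∃ r : ℂ, dw = r • w

/-- The conclusion for one solution. -/
structure OkB [DecidableEq C] (T : A → B → C → ℝ) (SA : Finset A) (SB : Finset B) (c o : C)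
    (s : ℝ) (u : A → ℂ) (v : B → ℂ) (w : C → ℂ) (α β γ θ ν : ℂ) : Prop where
  ru : Rl u
  rv : Rl v
  rw' : Rl w
  nd : NdB T SA SB c o s u v w α β γ θ ν

/-- Fully real at the second level. -/
def FRB [DecidableEq C] (T : A → B → C → ℝ) (SA : Finset A) (SB : Finset B) (c o : C)
    (s : ℝ) : Prop :=
  ∀ u v w α β γ θ ν, BT T SA SB c o s u v w α β γ θ ν → u ≠ 0 → v ≠ 0 → w ≠ 0 →
    OkB T SA SB c o s u v w α β γ θ ν

/-- The critical equations of the tensor `M`, in affine coordinates: the coordinates `oA`, `oB`, `oC`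
are one. -/
structure AF (M : A → B → C → ℝ) (oA : A) (oB : B) (oC : C) (u : A → ℂ) (v : B → ℂ)
    (w : C → ℂ) : Prop where
  nu : u oA = 1
  nv : v oB = 1
  nw : w oC = 1
  e1 : ∀ a, a ≠ oA → c1 M v w a = q v * q w * u a
  e2 : ∀ b, b ≠ oB → c2 M u w b = q u * q w * v b
  e3 : ∀ k, k ≠ oC → c3 M u v k = q u * q v * w k

/-- The critical equations of `L • T + L ^ 2 s • e`, `e` the unit tensor at `(oA, oB, c)`, in
homogeneous form. -/
structure AT [DecidableEq C] (T : A → B → C → ℝ) (oA : A) (oB : B) (c oC : C) (L s : ℝ)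
    (u : A → ℂ) (v : B → ℂ) (w : C → ℂ) (α β γ θ ν : ℂ) : Prop where
  hθ : θ ≠ 0
  e1 : ∀ a, a ≠ oA → c1 T v w a = α * u a
  e2 : ∀ b, b ≠ oB → c2 T u w b = β * v b
  e3 : ∀ k, k ≠ oC → c3 T u v k + (if k = c then ν else 0) = γ * w k
  e4 : θ * α = q v * q w
  e5 : θ * β = q u * q w
  e6 : θ * γ = q u * q v
  e7 : w oC * ν = s * θ
  e9 : ν = s * L * (u oA * v oB)

end

section

variable {A B C : Type} [Fintype A] [Fintype B] [Fintype C] [DecidableEq A] [DecidableEq B]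
  [DecidableEq C]

/-! ### The local system of the second level -/

/-- The unknowns of the second level: three vectors and
`![α, β, γ, Θ, N, qu, qv, qw, κ, g]`. -/
abbrev PB (A B C : Type) : Type := (A → ℂ) × (B → ℂ) × (C → ℂ) × (Fin 10 → ℂ)

/-- The values of the system of the second level. -/
abbrev QB (A B C : Type) : Type := (A → ℂ) × (B → ℂ) × (C → ℂ) × (Fin 12 → ℂ)

/-- The vector `w` with the coordinate `o` multiplied by `x` and the coordinate `c` by `y`. -/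
def hw (c o : C) (x y : ℝ) (w : C → ℂ) : C → ℂ :=
  fun k => ((if k = o then x else if k = c then y else 1 : ℝ) : ℂ) * w k

/-- The bilinear part; parameters `z = ![ρo, ρc, lam, μ, η]`. -/
def bB (T : A → B → C → ℝ) (SA : Finset A) (SB : Finset B) (c o : C) (z : Fin 5 → ℝ)
    (p r : PB A B C) : QB A B C :=
  (fun a => if a ∈ SA then c1 T p.2.1 (hw c o (z 0) (z 1) r.2.2.1) a
      - (z 3 : ℂ) * (p.2.2.2 0 * r.1 a) else 0,
   fun b => if b ∈ SB then c2 T p.1 (hw c o (z 0) (z 1) r.2.2.1) b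
      - (z 3 : ℂ) * (p.2.2.2 1 * r.2.1 b) else 0,
   fun k => if k = o then c3 T p.1 r.2.1 o
      else if k = c then c3 T p.1 r.2.1 c - (z 3 : ℂ) * (z 1 : ℂ) * (p.2.2.2 2 * r.2.2.1 c)
      else c3 T p.1 r.2.1 k - (z 3 : ℂ) * (p.2.2.2 2 * r.2.2.1 k),
   ![p.2.2.2 3 * r.2.2.2 0 - p.2.2.2 6 * r.2.2.2 7,
     p.2.2.2 3 * r.2.2.2 1 - p.2.2.2 5 * r.2.2.2 7,
     p.2.2.2 3 * r.2.2.2 2 - p.2.2.2 5 * r.2.2.2 6,
     ∑ a, p.1 a * r.1 a,
     ∑ b, p.2.1 b * r.2.1 b,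
     ∑ k, hw c o (z 0) (z 1) p.2.2.1 k * hw c o (z 0) (z 1) r.2.2.1 k,
     p.2.2.2 2 * r.2.2.1 o,
     p.2.2.1 o * r.2.2.2 4,
     (z 3 : ℂ) * (z 0 : ℂ) * (p.2.2.2 8 * r.2.2.1 o) - p.2.2.1 o * r.2.2.2 9
       + (z 4 : ℂ) * (p.2.2.2 4 * r.2.2.1 c),
     0, 0, 0])

/-- The linear part. -/
def lB (SA : Finset A) (SB : Finset B) (c o : C) (ia : A) (ib : B) (ic : C) (z : Fin 5 → ℝ)
    (p : PB A B C) : QB A B C :=
  (fun a => if a ∈ SA then 0 else p.1 a,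
   fun b => if b ∈ SB then 0 else p.2.1 b,
   fun k => if k = o then - p.2.2.2 9 else if k = c then (z 2 : ℂ) * p.2.2.2 4 else 0,
   ![0, 0, 0, - p.2.2.2 5, - p.2.2.2 6, - p.2.2.2 7, - p.2.2.2 8, - p.2.2.2 3, 0,
     p.1 ia, p.2.1 ib, p.2.2.1 ic])

/-- The constant part. -/
def kB : QB A B C := (0, 0, 0, ![0, 0, 0, 0, 0, 0, 0, 0, 0, -1, -1, -1])

/-- The conjugate point. -/
def cjB (p : PB A B C) : PB A B C := (cj p.1, cj p.2.1, cj p.2.2.1, cj p.2.2.2)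

/-- The scale parameters fit to `s`. -/
structure ScB (s : ℝ) (z : Fin 5 → ℝ) : Prop where
  h0 : z 0 ≠ 0
  h1 : z 1 ≠ 0
  h2 : z 2 ≠ 0
  h3 : z 3 ≠ 0
  h4 : z 4 * z 0 = z 2 * z 1
  hs : z 0 * z 2 * z 3 = s

/-- The limit parameters of the second level: `ν → 0`, `w o` does not tend to `0`. -/
def zA1 : Fin 5 → ℝ := ![1, 1, 0, 1, 0]

/-- The limit parameters of the second level: `ν → 0`, `w o → 0`. -/
def zA2 : Fin 5 → ℝ := ![0, 1, 0, 1, 1]

/-- The limit parameters of the second level: `ν` does not tend to `0`, `w o → 0`, `w c → 0`. -/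
def zBp : Fin 5 → ℝ := ![0, 0, 1, 1, 1]

/-- The limit parameters of the second level: `θ → ∞`. -/
def zDt : Fin 5 → ℝ := ![1, 1, 1, 0, 1]

/-- Sequences of normalised solutions of the second level. -/
structure SqB (T : A → B → C → ℝ) (SA : Finset A) (SB : Finset B) (c o : C) (s : ℕ → ℝ) (ia : A)
    (ib : B) (ic : C) (u : ℕ → A → ℂ) (v : ℕ → B → ℂ) (w : ℕ → C → ℂ) (α β γ θ ν : ℕ → ℂ) :
    Prop where
  hs : Tendsto s uf (𝓝 0)
  pos : ∀ n, 0 < s n
  sol : ∀ n, BT T SA SB c o (s n) (u n) (v n) (w n) (α n) (β n) (γ n) (θ n) (ν n)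
  nu : ∀ n, Nrm (u n) ia
  nv : ∀ n, Nrm (v n) ib
  nw : ∀ n, Nrm (w n) ic

/-! ### The local system of the third level -/

/-- The unknowns of the third level: three vectors and
`![α, β, γ, θ, ν, qu, qv, qw, κ1, κ2, κ3, g1, g2, g3]`. -/
abbrev PA (A B C : Type) : Type := (A → ℂ) × (B → ℂ) × (C → ℂ) × (Fin 14 → ℂ)

/-- The values of the system of the third level. -/
abbrev QA (A B C : Type) : Type := (A → ℂ) × (B → ℂ) × (C → ℂ) × (Fin 16 → ℂ)

/-- The vector `w` with the coordinate `o` multiplied by `x`, the coordinate `c` unchanged, the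
other coordinates multiplied by `f`. -/
def ha (c o : C) (x f : ℝ) (w : C → ℂ) : C → ℂ :=
  fun k => ((if k = o then x else if k = c then 1 else f : ℝ) : ℂ) * w k

/-- The bilinear part; parameters: the tensor `z.1` and
`z.2 = ![fu, fv, fw, ρx, ρy, ρo, μ, A1, A2, A3, A4]`. -/
def bA (oA : A) (oB : B) (c oC : C) (s : ℝ) (z : (A → B → C → ℝ) × (Fin 11 → ℝ))
    (p r : PA A B C) : QA A B C :=
  (fun a => c1 z.1 (scl oB (z.2 4) (z.2 1) p.2.1) (ha c oC (z.2 5) (z.2 2) r.2.2.1) a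
      - (if a = oA then 0 else p.2.2.2 0 * r.1 a),
   fun b => c2 z.1 (scl oA (z.2 3) (z.2 0) p.1) (ha c oC (z.2 5) (z.2 2) r.2.2.1) b
      - (if b = oB then 0 else p.2.2.2 1 * r.2.1 b),
   fun k => (if k = c then (z.2 6 : ℂ) else 1)
        * c3 z.1 (scl oA (z.2 3) (z.2 0) p.1) (scl oB (z.2 4) (z.2 1) r.2.1) k
      - (if k = oC then 0 else p.2.2.2 2 * r.2.2.1 k),
   ![p.2.2.2 3 * r.2.2.2 0 - p.2.2.2 6 * r.2.2.2 7,
     p.2.2.2 3 * r.2.2.2 1 - p.2.2.2 5 * r.2.2.2 7,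
     p.2.2.2 3 * r.2.2.2 2 - p.2.2.2 5 * r.2.2.2 6,
     ∑ a, scl oA (z.2 3) (z.2 0) p.1 a * scl oA (z.2 3) (z.2 0) r.1 a,
     ∑ b, scl oB (z.2 4) (z.2 1) p.2.1 b * scl oB (z.2 4) (z.2 1) r.2.1 b,
     ∑ k, ha c oC (z.2 5) (z.2 2) p.2.2.1 k * ha c oC (z.2 5) (z.2 2) r.2.2.1 k,
     p.2.2.2 0 * r.1 oA,
     p.2.2.2 1 * r.2.1 oB,
     p.2.2.2 2 * r.2.2.1 oC,
     p.2.2.1 oC * r.2.2.2 4,
     - (s : ℂ) * (p.1 oA * r.2.1 oB),
     (z.2 7 : ℂ) * (p.2.2.2 8 * r.1 oA) - (z.2 8 : ℂ) * (p.1 oA * r.2.2.2 11)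
       - (z.2 9 : ℂ) * (p.2.2.2 9 * r.2.1 oB) + (z.2 10 : ℂ) * (p.2.1 oB * r.2.2.2 12),
     (z.2 5 : ℂ) ^ 2 * (p.2.2.2 10 * r.2.2.1 oC)
       - (z.2 6 : ℂ) * (z.2 5 : ℂ) * (p.2.2.1 oC * r.2.2.2 13) + p.2.2.2 4 * r.2.2.1 c
       - (z.2 3 : ℂ) ^ 2 * (p.2.2.2 8 * r.1 oA)
       + (z.2 6 : ℂ) * (z.2 3 : ℂ) * (p.1 oA * r.2.2.2 11),
     0, 0, 0])

/-- The linear part. -/
def lA (oA : A) (oB : B) (c oC : C) (s : ℝ) (ia : A) (ib : B) (ic : C)
    (_z : (A → B → C → ℝ) × (Fin 11 → ℝ)) (p : PA A B C) : QA A B C :=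
  (fun a => if a = oA then - p.2.2.2 11 else 0,
   fun b => if b = oB then - p.2.2.2 12 else 0,
   fun k => if k = oC then - p.2.2.2 13 else if k = c then p.2.2.2 4 else 0,
   ![0, 0, 0, - p.2.2.2 5, - p.2.2.2 6, - p.2.2.2 7, - p.2.2.2 8, - p.2.2.2 9, - p.2.2.2 10,
     - (s : ℂ) * p.2.2.2 3, p.2.2.2 4, 0, 0, p.1 ia, p.2.1 ib, p.2.2.1 ic])

/-- The constant part. -/
def kA : QA A B C := (0, 0, 0, ![0, 0, 0, 0, 0, 0, 0, 0, 0, 0, 0, 0, 0, -1, -1, -1])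

/-- The conjugate point. -/
def cjA (p : PA A B C) : PA A B C := (cj p.1, cj p.2.1, cj p.2.2.1, cj p.2.2.2)

/-- The scale parameters fit to `L`; `m` is the factor of the equation eleven. -/
structure ScA (L : ℝ) (z : Fin 11 → ℝ) : Prop where
  h0 : z 0 ≠ 0
  h1 : z 1 ≠ 0
  h2 : z 2 ≠ 0
  h3 : z 3 ≠ 0
  h4 : z 4 ≠ 0
  h6 : z 6 ≠ 0
  f0 : z 0 = z 6
  f1 : z 1 = z 6
  f2 : z 2 = z 6
  f5 : z 5 = z 6 ^ 2
  hL : L * z 6 * z 3 * z 4 = 1
  hm : ∃ m : ℝ, z 7 * z 6 = m * z 3 ^ 2 ∧ z 8 = m * z 3 ∧ z 9 * z 6 = m * z 4 ^ 2 ∧ z 10 = m * z 4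

/-- The limit parameters of the third level: `u oA → 0`, `v oB → 0`. -/
def zS12 : Fin 11 → ℝ := ![1, 1, 1, 0, 0, 1, 1, 0, 1, 0, 1]

/-- The limit parameters of the third level: `v oB → 0` only. -/
def zS2 : Fin 11 → ℝ := ![1, 1, 1, 1, 0, 1, 1, 1, 1, 0, 0]

/-- The limit parameters of the third level: the trivial solution. -/
def zTr : Fin 11 → ℝ := ![0, 0, 0, 1, 1, 0, 0, 1, 0, 1, 0]

/-- Sequences of normalised solutions of the third level. -/
structure SqA (T : ℕ → A → B → C → ℝ) (T0 : A → B → C → ℝ) (oA : A) (oB : B) (c oC : C)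
    (L : ℕ → ℝ) (s : ℝ) (ia : A) (ib : B) (ic : C) (u : ℕ → A → ℂ) (v : ℕ → B → ℂ)
    (w : ℕ → C → ℂ) (α β γ θ ν : ℕ → ℂ) : Prop where
  hT : Tendsto T uf (𝓝 T0)
  hL : Tendsto L uf atTop
  pos : ∀ n, 0 < L n
  sol : ∀ n, AT (T n) oA oB c oC (L n) s (u n) (v n) (w n) (α n) (β n) (γ n) (θ n) (ν n)
  nu : ∀ n, Nrm (u n) ia
  nv : ∀ n, Nrm (v n) ib
  nw : ∀ n, Nrm (w n) ic

/-- The hypotheses of the third level. -/
structure HY (T : A → B → C → ℝ) (oA : A) (oB : B) (c oC : C) (s : ℝ) : Prop where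
  hs : 0 < s
  hc : c ≠ oC
  b12 : FRB T (Finset.univ.erase oA) (Finset.univ.erase oB) c oC s
  b2 : FRB T Finset.univ (Finset.univ.erase oB) c oC s
  b1 : FRB T (Finset.univ.erase oA) Finset.univ c oC s
  f12 : ∀ y, FR T (Finset.univ.erase oA) (Finset.univ.erase oB) (MC c oC y)
  f2 : ∀ y, FR T Finset.univ (Finset.univ.erase oB) (MC c oC y)
  f1 : ∀ y, FR T (Finset.univ.erase oA) Finset.univ (MC c oC y)
  hv : VR T (Finset.univ.erase oA) Finset.univ Finset.univ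
  sg' : ∀ u v w α β γ θ ν,
    BT T (Finset.univ.erase oA) (Finset.univ.erase oB) c oC s u v w α β γ θ ν →
    u ≠ 0 → v ≠ 0 → w ≠ 0 → Rea u → Rea v → Rea w →
    0 < (c1 T v w oA * c2 T u w oB * ν).re

end

/-- The tensor `T` with an additional slice `none` with one nonzero entry `ω` at `(b, o)`. -/
def T2 {A B C : Type} [DecidableEq B] [DecidableEq C] (T : A → B → C → ℝ) (b : B) (o : C) (ω : ℝ) :
    Option A → B → C → ℝ :=
  fun a b' k => a.elim (if b' = b ∧ k = o then ω else 0) fun a' => T a' b' k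

end Pool.Agent.MPb0eR
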