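import Mathlib
import Pool.Agent.Lib.MP_b0e20b_ag_R.Defs

/-!
# MP_b0e20b_ag, project R: algebra of the contractions
-/

set_option autoImplicit false

open scoped BigOperators Topology
open Filter

namespace Pool.Agent.MPb0eR

section

variable {A B C : Type} [Fintype A] [Fintype B] [Fintype C] (T : A → B → C → ℝ)

theorem c1_add_left (v v' : B → ℂ) (w : C → ℂ) (a : A) :
    c1 T (v + v') w a = c1 T v w a + c1 T v' w a := by
  simp only [c1, Pi.add_apply, add_mul, mul_add, Finset.sum_add_distrib]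

theorem c1_add_right (v : B → ℂ) (w w' : C → ℂ) (a : A) :
    c1 T v (w + w') a = c1 T v w a + c1 T v w' a := by
  simp only [c1, Pi.add_apply, mul_add, Finset.sum_add_distrib]

theorem c1_smul_left (r : ℂ) (v : B → ℂ) (w : C → ℂ) (a : A) :
    c1 T (r • v) w a = r * c1 T v w a := by
  simp only [c1, Pi.smul_apply, smul_eq_mul, Finset.mul_sum]
  exact Finset.sum_congr rfl fun _ _ => Finset.sum_congr rfl fun _ _ => by ring

theorem c1_smul_right (r : ℂ) (v : B → ℂ) (w : C → ℂ) (a : A) :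
    c1 T v (r • w) a = r * c1 T v w a := by
  simp only [c1, Pi.smul_apply, smul_eq_mul, Finset.mul_sum]
  exact Finset.sum_congr rfl fun _ _ => Finset.sum_congr rfl fun _ _ => by ring

theorem c2_add_left (u u' : A → ℂ) (w : C → ℂ) (b : B) :
    c2 T (u + u') w b = c2 T u w b + c2 T u' w b := by
  simp only [c2, Pi.add_apply, add_mul, mul_add, Finset.sum_add_distrib]

theorem c2_add_right (u : A → ℂ) (w w' : C → ℂ) (b : B) :
    c2 T u (w + w') b = c2 T u w b + c2 T u w' b := by
  simp only [c2, Pi.add_apply, mul_add, Finset.sum_add_distrib]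

theorem c2_smul_left (r : ℂ) (u : A → ℂ) (w : C → ℂ) (b : B) :
    c2 T (r • u) w b = r * c2 T u w b := by
  simp only [c2, Pi.smul_apply, smul_eq_mul, Finset.mul_sum]
  exact Finset.sum_congr rfl fun _ _ => Finset.sum_congr rfl fun _ _ => by ring

theorem c2_smul_right (r : ℂ) (u : A → ℂ) (w : C → ℂ) (b : B) :
    c2 T u (r • w) b = r * c2 T u w b := by
  simp only [c2, Pi.smul_apply, smul_eq_mul, Finset.mul_sum]
  exact Finset.sum_congr rfl fun _ _ => Finset.sum_congr rfl fun _ _ => by ring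

theorem c3_add_left (u u' : A → ℂ) (v : B → ℂ) (c : C) :
    c3 T (u + u') v c = c3 T u v c + c3 T u' v c := by
  simp only [c3, Pi.add_apply, add_mul, mul_add, Finset.sum_add_distrib]

theorem c3_add_right (u : A → ℂ) (v v' : B → ℂ) (c : C) :
    c3 T u (v + v') c = c3 T u v c + c3 T u v' c := by
  simp only [c3, Pi.add_apply, mul_add, Finset.sum_add_distrib]

theorem c3_smul_left (r : ℂ) (u : A → ℂ) (v : B → ℂ) (c : C) :
    c3 T (r • u) v c = r * c3 T u v c := by
  simp only [c3, Pi.smul_apply, smul_eq_mul, Finset.mul_sum]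
  exact Finset.sum_congr rfl fun _ _ => Finset.sum_congr rfl fun _ _ => by ring

theorem c3_smul_right (r : ℂ) (u : A → ℂ) (v : B → ℂ) (c : C) :
    c3 T u (r • v) c = r * c3 T u v c := by
  simp only [c3, Pi.smul_apply, smul_eq_mul, Finset.mul_sum]
  exact Finset.sum_congr rfl fun _ _ => Finset.sum_congr rfl fun _ _ => by ring

theorem c1_zero_left (w : C → ℂ) (a : A) : c1 T 0 w a = 0 := by
  simp [c1]

theorem c1_zero_right (v : B → ℂ) (a : A) : c1 T v 0 a = 0 := by
  simp [c1]

theorem c2_zero_left (w : C → ℂ) (b : B) : c2 T 0 w b = 0 := by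
  simp [c2]

theorem c2_zero_right (u : A → ℂ) (b : B) : c2 T u 0 b = 0 := by
  simp [c2]

theorem c3_zero_left (v : B → ℂ) (c : C) : c3 T 0 v c = 0 := by
  simp [c3]

theorem c3_zero_right (u : A → ℂ) (c : C) : c3 T u 0 c = 0 := by
  simp [c3]

theorem tr_c1 (u : A → ℂ) (v : B → ℂ) (w : C → ℂ) : tr T u v w = ∑ a, u a * c1 T v w a := by
  simp only [tr, c1, Finset.mul_sum]
  exact Finset.sum_congr rfl fun _ _ => Finset.sum_congr rfl fun _ _ =>
    Finset.sum_congr rfl fun _ _ => by ring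

theorem tr_c2 (u : A → ℂ) (v : B → ℂ) (w : C → ℂ) : tr T u v w = ∑ b, v b * c2 T u w b := by
  simp only [tr, c2, Finset.mul_sum]
  rw [Finset.sum_comm]
  exact Finset.sum_congr rfl fun _ _ => Finset.sum_congr rfl fun _ _ =>
    Finset.sum_congr rfl fun _ _ => by ring

theorem tr_c3 (u : A → ℂ) (v : B → ℂ) (w : C → ℂ) : tr T u v w = ∑ c, w c * c3 T u v c := by
  simp only [tr, c3, Finset.mul_sum]
  rw [Finset.sum_congr rfl fun a _ => Finset.sum_comm, Finset.sum_comm]
  exact Finset.sum_congr rfl fun _ _ => Finset.sum_congr rfl fun _ _ =>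
    Finset.sum_congr rfl fun _ _ => by ring

theorem c1_cj (v : B → ℂ) (w : C → ℂ) (a : A) :
    c1 T (cj v) (cj w) a = starRingEnd ℂ (c1 T v w a) := by
  simp only [c1, cj, map_sum, map_mul, Complex.conj_ofReal]

theorem c2_cj (u : A → ℂ) (w : C → ℂ) (b : B) :
    c2 T (cj u) (cj w) b = starRingEnd ℂ (c2 T u w b) := by
  simp only [c2, cj, map_sum, map_mul, Complex.conj_ofReal]

theorem c3_cj (u : A → ℂ) (v : B → ℂ) (c : C) :
    c3 T (cj u) (cj v) c = starRingEnd ℂ (c3 T u v c) := by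
  simp only [c3, cj, map_sum, map_mul, Complex.conj_ofReal]

theorem cj_cj (u : A → ℂ) : cj (cj u) = u := by
  funext a
  exact Complex.conj_conj _

theorem rea_iff (u : A → ℂ) : Rea u ↔ cj u = u := by
  constructor
  · intro h
    funext a
    exact Complex.conj_eq_iff_im.2 (h a)
  · intro h a
    exact Complex.conj_eq_iff_im.1 (congrFun h a)

theorem c1_re (v : B → ℂ) (w : C → ℂ) (hv : Rea v) (hw : Rea w) (a : A) : (c1 T v w a).im = 0 := by
  rw [← Complex.conj_eq_iff_im, ← c1_cj, (rea_iff v).1 hv, (rea_iff w).1 hw]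

theorem c2_re (u : A → ℂ) (w : C → ℂ) (hu : Rea u) (hw : Rea w) (b : B) : (c2 T u w b).im = 0 := by
  rw [← Complex.conj_eq_iff_im, ← c2_cj, (rea_iff u).1 hu, (rea_iff w).1 hw]

theorem c3_re (u : A → ℂ) (v : B → ℂ) (hu : Rea u) (hv : Rea v) (c : C) : (c3 T u v c).im = 0 := by
  rw [← Complex.conj_eq_iff_im, ← c3_cj, (rea_iff u).1 hu, (rea_iff v).1 hv]

theorem c1_s12 (u : A → ℂ) (w : C → ℂ) (b : B) : c1 (s12 T) u w b = c2 T u w b := by
  rfl

theorem c2_s12 (v : B → ℂ) (w : C → ℂ) (a : A) : c2 (s12 T) v w a = c1 T v w a := by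
  rfl

theorem c3_s12 (u : A → ℂ) (v : B → ℂ) (c : C) : c3 (s12 T) v u c = c3 T u v c := by
  simp only [c3, s12]
  rw [Finset.sum_comm]
  exact Finset.sum_congr rfl fun _ _ => Finset.sum_congr rfl fun _ _ => by ring

theorem c1_s23 (v : B → ℂ) (w : C → ℂ) (a : A) : c1 (s23 T) w v a = c1 T v w a := by
  simp only [c1, s23]
  rw [Finset.sum_comm]
  exact Finset.sum_congr rfl fun _ _ => Finset.sum_congr rfl fun _ _ => by ring

theorem c2_s23 (u : A → ℂ) (v : B → ℂ) (c : C) : c2 (s23 T) u v c = c3 T u v c := by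
  rfl

theorem c3_s23 (u : A → ℂ) (w : C → ℂ) (b : B) : c3 (s23 T) u w b = c2 T u w b := by
  rfl

theorem continuous_c1 : Continuous fun p : (B → ℂ) × (C → ℂ) => c1 T p.1 p.2 := by
  refine continuous_pi fun _ => continuous_finset_sum _ fun _ _ =>
    continuous_finset_sum _ fun _ _ => ?_
  fun_prop

theorem continuous_c2 : Continuous fun p : (A → ℂ) × (C → ℂ) => c2 T p.1 p.2 := by
  refine continuous_pi fun _ => continuous_finset_sum _ fun _ _ =>
    continuous_finset_sum _ fun _ _ => ?_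
  fun_prop

theorem continuous_c3 : Continuous fun p : (A → ℂ) × (B → ℂ) => c3 T p.1 p.2 := by
  refine continuous_pi fun _ => continuous_finset_sum _ fun _ _ =>
    continuous_finset_sum _ fun _ _ => ?_
  fun_prop

/-- Joint continuity in the tensor. -/
theorem continuous_c1T :
    Continuous fun p : (A → B → C → ℝ) × (B → ℂ) × (C → ℂ) => c1 p.1 p.2.1 p.2.2 := by
  refine continuous_pi fun _ => continuous_finset_sum _ fun _ _ =>
    continuous_finset_sum _ fun _ _ => ?_
  fun_prop

theorem continuous_c2T :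
    Continuous fun p : (A → B → C → ℝ) × (A → ℂ) × (C → ℂ) => c2 p.1 p.2.1 p.2.2 := by
  refine continuous_pi fun _ => continuous_finset_sum _ fun _ _ =>
    continuous_finset_sum _ fun _ _ => ?_
  fun_prop

theorem continuous_c3T :
    Continuous fun p : (A → B → C → ℝ) × (A → ℂ) × (B → ℂ) => c3 p.1 p.2.1 p.2.2 := by
  refine continuous_pi fun _ => continuous_finset_sum _ fun _ _ =>
    continuous_finset_sum _ fun _ _ => ?_
  fun_prop

/-- The contraction depends only on the entries in the masks. -/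
theorem c1_congr {T T' : A → B → C → ℝ} {SB : Finset B} {SC : Finset C} {v : B → ℂ} {w : C → ℂ}
    (hv : Sup SB v) (hw : Sup SC w) {a : A} (h : ∀ b ∈ SB, ∀ c ∈ SC, T a b c = T' a b c) :
    c1 T v w a = c1 T' v w a := by
  refine Finset.sum_congr rfl fun b _ => Finset.sum_congr rfl fun c _ => ?_
  by_cases h1 : b ∈ SB
  · by_cases h2 : c ∈ SC
    · rw [h b h1 c h2]
    · rw [hw c h2, mul_zero, mul_zero, mul_zero]
  · rw [hv b h1, zero_mul, mul_zero, mul_zero]

theorem c2_congr {T T' : A → B → C → ℝ} {SA : Finset A} {SC : Finset C} {u : A → ℂ} {w : C → ℂ}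
    (hu : Sup SA u) (hw : Sup SC w) {b : B} (h : ∀ a ∈ SA, ∀ c ∈ SC, T a b c = T' a b c) :
    c2 T u w b = c2 T' u w b := by
  refine Finset.sum_congr rfl fun a _ => Finset.sum_congr rfl fun c _ => ?_
  by_cases h1 : a ∈ SA
  · by_cases h2 : c ∈ SC
    · rw [h a h1 c h2]
    · rw [hw c h2, mul_zero, mul_zero, mul_zero]
  · rw [hu a h1, zero_mul, mul_zero, mul_zero]

theorem c3_congr {T T' : A → B → C → ℝ} {SA : Finset A} {SB : Finset B} {u : A → ℂ} {v : B → ℂ}
    (hu : Sup SA u) (hv : Sup SB v) {c : C} (h : ∀ a ∈ SA, ∀ b ∈ SB, T a b c = T' a b c) :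
    c3 T u v c = c3 T' u v c := by
  refine Finset.sum_congr rfl fun a _ => Finset.sum_congr rfl fun b _ => ?_
  by_cases h1 : a ∈ SA
  · by_cases h2 : b ∈ SB
    · rw [h a h1 b h2]
    · rw [hv b h2, mul_zero, mul_zero, mul_zero]
  · rw [hu a h1, zero_mul, mul_zero, mul_zero]

end

section

variable {A B C : Type} [Fintype A] [Fintype B] [Fintype C] [DecidableEq A] [DecidableEq B]
  [DecidableEq C] (T : A → B → C → ℝ)

theorem c1_ad (a0 : A) (b0 : B) (c0 : C) (y : ℝ) (v : B → ℂ) (w : C → ℂ) (a : A) :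
    c1 (ad T a0 b0 c0 y) v w a = c1 T v w a + if a = a0 then (y : ℂ) * (v b0 * w c0) else 0 := by
  simp only [c1, ad, Complex.ofReal_add, add_mul, Finset.sum_add_distrib]
  congr 1
  by_cases h : a = a0
  · rw [if_pos h, Finset.sum_eq_single b0, Finset.sum_eq_single c0]
    · rw [if_pos ⟨h, rfl, rfl⟩]
    · intro c _ hc
      rw [if_neg fun h' => hc h'.2.2, Complex.ofReal_zero, zero_mul]
    · intro hc
      exact absurd (Finset.mem_univ _) hc
    · intro b _ hb
      refine Finset.sum_eq_zero fun c _ => ?_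
      rw [if_neg fun h' => hb h'.2.1, Complex.ofReal_zero, zero_mul]
    · intro hb
      exact absurd (Finset.mem_univ _) hb
  · rw [if_neg h]
    refine Finset.sum_eq_zero fun b _ => Finset.sum_eq_zero fun c _ => ?_
    rw [if_neg fun h' => h h'.1, Complex.ofReal_zero, zero_mul]

theorem c2_ad (a0 : A) (b0 : B) (c0 : C) (y : ℝ) (u : A → ℂ) (w : C → ℂ) (b : B) :
    c2 (ad T a0 b0 c0 y) u w b = c2 T u w b + if b = b0 then (y : ℂ) * (u a0 * w c0) else 0 := by
  simp only [c2, ad, Complex.ofReal_add, add_mul, Finset.sum_add_distrib]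
  congr 1
  by_cases h : b = b0
  · rw [if_pos h, Finset.sum_eq_single a0, Finset.sum_eq_single c0]
    · rw [if_pos ⟨rfl, h, rfl⟩]
    · intro c _ hc
      rw [if_neg fun h' => hc h'.2.2, Complex.ofReal_zero, zero_mul]
    · intro hc
      exact absurd (Finset.mem_univ _) hc
    · intro a _ ha
      refine Finset.sum_eq_zero fun c _ => ?_
      rw [if_neg fun h' => ha h'.1, Complex.ofReal_zero, zero_mul]
    · intro ha
      exact absurd (Finset.mem_univ _) ha
  · rw [if_neg h]
    refine Finset.sum_eq_zero fun a _ => Finset.sum_eq_zero fun c _ => ?_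
    rw [if_neg fun h' => h h'.2.1, Complex.ofReal_zero, zero_mul]

theorem c3_ad (a0 : A) (b0 : B) (c0 : C) (y : ℝ) (u : A → ℂ) (v : B → ℂ) (c : C) :
    c3 (ad T a0 b0 c0 y) u v c = c3 T u v c + if c = c0 then (y : ℂ) * (u a0 * v b0) else 0 := by
  simp only [c3, ad, Complex.ofReal_add, add_mul, Finset.sum_add_distrib]
  congr 1
  by_cases h : c = c0
  · rw [if_pos h, Finset.sum_eq_single a0, Finset.sum_eq_single b0]
    · rw [if_pos ⟨rfl, rfl, h⟩]
    · intro b _ hb
      rw [if_neg fun h' => hb h'.2.1, Complex.ofReal_zero, zero_mul]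
    · intro hb
      exact absurd (Finset.mem_univ _) hb
    · intro a _ ha
      refine Finset.sum_eq_zero fun b _ => ?_
      rw [if_neg fun h' => ha h'.1, Complex.ofReal_zero, zero_mul]
    · intro ha
      exact absurd (Finset.mem_univ _) ha
  · rw [if_neg h]
    refine Finset.sum_eq_zero fun a _ => Finset.sum_eq_zero fun b _ => ?_
    rw [if_neg fun h' => h h'.2.2, Complex.ofReal_zero, zero_mul]

theorem s12_ad (a0 : A) (b0 : B) (c0 : C) (y : ℝ) :
    s12 (ad T a0 b0 c0 y) = ad (s12 T) b0 a0 c0 y := by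
  funext b a c
  simp only [s12, ad]
  congr 1
  exact if_congr and_left_comm rfl rfl

theorem s23_ad (a0 : A) (b0 : B) (c0 : C) (y : ℝ) :
    s23 (ad T a0 b0 c0 y) = ad (s23 T) a0 c0 b0 y := by
  funext a c b
  simp only [s23, ad]
  congr 1
  exact if_congr (and_congr_right fun _ => and_comm) rfl rfl

/-- Contraction with unit vectors. -/
theorem c1_single (b : B) (c : C) (a : A) :
    c1 T (Pi.single b 1) (Pi.single c 1) a = (T a b c : ℂ) := by
  simp [c1, Pi.single_apply]

theorem c2_single (a : A) (c : C) (b : B) :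
    c2 T (Pi.single a 1) (Pi.single c 1) b = (T a b c : ℂ) := by
  simp [c2, Pi.single_apply]

theorem c3_single (a : A) (b : B) (c : C) :
    c3 T (Pi.single a 1) (Pi.single b 1) c = (T a b c : ℂ) := by
  simp [c3, Pi.single_apply]

end

end Pool.Agent.MPb0eR
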