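import Mathlib
import Pool.Agent.Lib.MP_b0e20b_ag_R.Alg

/-!
# MP_b0e20b_ag, project R: algebra of singular tuples
-/

set_option autoImplicit false

open scoped BigOperators Topology
open Filter

namespace Pool.Agent.MPb0eR

section

variable {A B C : Type} [Fintype A] [Fintype B] [Fintype C] {T T' : A → B → C → ℝ}
  {SA : Finset A} {SB : Finset B} {SC : Finset C} {u : A → ℂ} {v : B → ℂ} {w : C → ℂ} {α β γ : ℂ}

omit [Fintype A] in
private theorem sup_smul (h : Sup SA u) (r : ℂ) : Sup SA (r • u) := by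
  intro a ha
  rw [Pi.smul_apply, h a ha, smul_zero]

omit [Fintype A] in
private theorem sup_sub {u' : A → ℂ} (h : Sup SA u) (h' : Sup SA u') : Sup SA (u - u') := by
  intro a ha
  rw [Pi.sub_apply, h a ha, h' a ha, sub_zero]

/-- Rescaling. -/
theorem Tup.smul (h : Tup T SA SB SC u v w α β γ) {r s t : ℂ} (hr : r ≠ 0) (hs : s ≠ 0)
    (ht : t ≠ 0) :
    Tup T SA SB SC (r • u) (s • v) (t • w) (s * t / r * α) (r * t / s * β) (r * s / t * γ) := by
  refine ⟨sup_smul h.su r, sup_smul h.sv s, sup_smul h.sw t, ?_, ?_, ?_⟩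
  · intro a ha
    rw [c1_smul_left, c1_smul_right, h.e1 a ha, Pi.smul_apply, smul_eq_mul]
    field_simp
  · intro b hb
    rw [c2_smul_left, c2_smul_right, h.e2 b hb, Pi.smul_apply, smul_eq_mul]
    field_simp
  · intro c hc
    rw [c3_smul_left, c3_smul_right, h.e3 c hc, Pi.smul_apply, smul_eq_mul]
    field_simp

/-- Complex conjugation. -/
theorem Tup.conj (h : Tup T SA SB SC u v w α β γ) :
    Tup T SA SB SC (cj u) (cj v) (cj w) (starRingEnd ℂ α) (starRingEnd ℂ β) (starRingEnd ℂ γ) := by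
  refine ⟨?_, ?_, ?_, ?_, ?_, ?_⟩
  · intro a ha
    simp [cj, h.su a ha]
  · intro b hb
    simp [cj, h.sv b hb]
  · intro c hc
    simp [cj, h.sw c hc]
  · intro a ha
    rw [c1_cj, h.e1 a ha, map_mul]
    rfl
  · intro b hb
    rw [c2_cj, h.e2 b hb, map_mul]
    rfl
  · intro c hc
    rw [c3_cj, h.e3 c hc, map_mul]
    rfl

/-- The trilinear form at a tuple. Proof: `tr_c1`; outside of `SA` both `u a` and `u a ^ 2`
vanish. -/
theorem Tup.trace (h : Tup T SA SB SC u v w α β γ) :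
    tr T u v w = α * q u ∧ tr T u v w = β * q v ∧ tr T u v w = γ * q w := by
  refine ⟨?_, ?_, ?_⟩
  · rw [tr_c1, q, Finset.mul_sum]
    refine Finset.sum_congr rfl fun a _ => ?_
    by_cases ha : a ∈ SA
    · rw [h.e1 a ha]
      ring
    · rw [h.su a ha]
      ring
  · rw [tr_c2, q, Finset.mul_sum]
    refine Finset.sum_congr rfl fun b _ => ?_
    by_cases hb : b ∈ SB
    · rw [h.e2 b hb]
      ring
    · rw [h.sv b hb]
      ring
  · rw [tr_c3, q, Finset.mul_sum]
    refine Finset.sum_congr rfl fun c _ => ?_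
    by_cases hc : c ∈ SC
    · rw [h.e3 c hc]
      ring
    · rw [h.sw c hc]
      ring

private theorem tup_congr_aux (hT : ∀ a ∈ SA, ∀ b ∈ SB, ∀ c ∈ SC, T a b c = T' a b c)
    (h : Tup T SA SB SC u v w α β γ) : Tup T' SA SB SC u v w α β γ := by
  refine ⟨h.su, h.sv, h.sw, ?_, ?_, ?_⟩
  · intro a ha
    rw [← h.e1 a ha]
    exact (c1_congr h.sv h.sw fun b hb c hc => hT a ha b hb c hc).symm
  · intro b hb
    rw [← h.e2 b hb]
    exact (c2_congr h.su h.sw fun a ha c hc => hT a ha b hb c hc).symm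
  · intro c hc
    rw [← h.e3 c hc]
    exact (c3_congr h.su h.sv fun a ha b hb => hT a ha b hb c hc).symm

theorem Tup.congr (hT : ∀ a ∈ SA, ∀ b ∈ SB, ∀ c ∈ SC, T a b c = T' a b c) :
    Tup T SA SB SC u v w α β γ ↔ Tup T' SA SB SC u v w α β γ :=
  ⟨tup_congr_aux hT, tup_congr_aux fun a ha b hb c hc => (hT a ha b hb c hc).symm⟩

private theorem ker_congr_aux (hT : ∀ a ∈ SA, ∀ b ∈ SB, ∀ c ∈ SC, T a b c = T' a b c)
    (su : Sup SA u) (sv : Sup SB v) (sw : Sup SC w) {du : A → ℂ} {dv : B → ℂ} {dw : C → ℂ}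
    {dα dβ dγ : ℂ} (h : Ker T SA SB SC u v w α β γ du dv dw dα dβ dγ) :
    Ker T' SA SB SC u v w α β γ du dv dw dα dβ dγ := by
  refine ⟨h.su, h.sv, h.sw, ?_, ?_, ?_⟩
  · intro a ha
    rw [← h.e1 a ha, c1_congr h.sv sw fun b hb c hc => hT a ha b hb c hc,
      c1_congr sv h.sw fun b hb c hc => hT a ha b hb c hc]
  · intro b hb
    rw [← h.e2 b hb, c2_congr h.su sw fun a ha c hc => hT a ha b hb c hc,
      c2_congr su h.sw fun a ha c hc => hT a ha b hb c hc]
  · intro c hc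
    rw [← h.e3 c hc, c3_congr h.su sv fun a ha b hb => hT a ha b hb c hc,
      c3_congr su h.sv fun a ha b hb => hT a ha b hb c hc]

private theorem ok_congr_aux (hT : ∀ a ∈ SA, ∀ b ∈ SB, ∀ c ∈ SC, T a b c = T' a b c)
    (su : Sup SA u) (sv : Sup SB v) (sw : Sup SC w)
    (h : Ok T SA SB SC u v w α β γ) : Ok T' SA SB SC u v w α β γ :=
  ⟨h.ru, h.rv, h.rw', h.hα, h.hβ, h.hγ, fun du dv dw dα dβ dγ hk =>
    h.nd du dv dw dα dβ dγ
      (ker_congr_aux (fun a ha b hb c hc => (hT a ha b hb c hc).symm) su sv sw hk)⟩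

theorem Ok.congr (hT : ∀ a ∈ SA, ∀ b ∈ SB, ∀ c ∈ SC, T a b c = T' a b c)
    (h : Tup T SA SB SC u v w α β γ) :
    Ok T SA SB SC u v w α β γ ↔ Ok T' SA SB SC u v w α β γ :=
  ⟨ok_congr_aux hT h.su h.sv h.sw,
    ok_congr_aux (fun a ha b hb c hc => (hT a ha b hb c hc).symm) h.su h.sv h.sw⟩

private theorem fr_congr_aux (hT : ∀ a ∈ SA, ∀ b ∈ SB, ∀ c ∈ SC, T a b c = T' a b c)
    (h : FR T SA SB SC) : FR T' SA SB SC := by
  intro u v w α β γ ht hu hv hw
  have h1 := (Tup.congr hT).2 ht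
  exact (Ok.congr hT h1).1 (h u v w α β γ h1 hu hv hw)

theorem FR_congr (hT : ∀ a ∈ SA, ∀ b ∈ SB, ∀ c ∈ SC, T a b c = T' a b c) :
    FR T SA SB SC ↔ FR T' SA SB SC :=
  ⟨fr_congr_aux hT, fr_congr_aux fun a ha b hb c hc => (hT a ha b hb c hc).symm⟩

private theorem vr_congr_aux (hT : ∀ a ∈ SA, ∀ b ∈ SB, ∀ c ∈ SC, T a b c = T' a b c)
    (h : VR T SA SB SC) : VR T' SA SB SC := by
  intro v w sv sw he hv hw
  have h1 : ∀ a ∈ SA, c1 T v w a = 0 := by
    intro a ha
    rw [← he a ha]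
    exact c1_congr sv sw fun b hb c hc => hT a ha b hb c hc
  obtain ⟨h2, h3, h4⟩ := h v w sv sw h1 hv hw
  refine ⟨h2, h3, fun dv dw sdv sdw hd => h4 dv dw sdv sdw ?_⟩
  intro a ha
  rw [← hd a ha, c1_congr sdv sw fun b hb c hc => hT a ha b hb c hc,
    c1_congr sv sdw fun b hb c hc => hT a ha b hb c hc]

theorem VR_congr (hT : ∀ a ∈ SA, ∀ b ∈ SB, ∀ c ∈ SC, T a b c = T' a b c) :
    VR T SA SB SC ↔ VR T' SA SB SC :=
  ⟨vr_congr_aux hT, vr_congr_aux fun a ha b hb c hc => (hT a ha b hb c hc).symm⟩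

private theorem ve_congr_aux (hT : ∀ a ∈ SA, ∀ b ∈ SB, ∀ c ∈ SC, T a b c = T' a b c)
    (h : VE T SA SB SC) : VE T' SA SB SC := by
  intro v w sv sw he
  refine h v w sv sw fun a ha => ?_
  rw [← he a ha]
  exact c1_congr sv sw fun b hb c hc => hT a ha b hb c hc

theorem VE_congr (hT : ∀ a ∈ SA, ∀ b ∈ SB, ∀ c ∈ SC, T a b c = T' a b c) :
    VE T SA SB SC ↔ VE T' SA SB SC :=
  ⟨ve_congr_aux hT, ve_congr_aux fun a ha b hb c hc => (hT a ha b hb c hc).symm⟩

omit [Fintype A] in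
private theorem sup_empty (h : Sup (∅ : Finset A) u) : u = 0 := by
  funext a
  exact h a (Finset.notMem_empty a)

/-- Vacuous cases: a nonzero vector cannot be supported in the empty mask. -/
theorem FR_empty (h : SA = ∅ ∨ SB = ∅ ∨ SC = ∅) : FR T SA SB SC := by
  intro u v w α β γ ht hu hv hw
  rcases h with h | h | h
  · subst h
    exact absurd (sup_empty ht.su) hu
  · subst h
    exact absurd (sup_empty ht.sv) hv
  · subst h
    exact absurd (sup_empty ht.sw) hw

theorem VR_empty (h : SB = ∅ ∨ SC = ∅) : VR T SA SB SC := by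
  intro v w sv sw _ hv hw
  rcases h with h | h
  · subst h
    exact absurd (sup_empty sv) hv
  · subst h
    exact absurd (sup_empty sw) hw

theorem VE_empty (h : SB = ∅ ∨ SC = ∅) : VE T SA SB SC := by
  intro v w sv sw _
  rcases h with h | h
  · subst h
    exact Or.inl (sup_empty sv)
  · subst h
    exact Or.inr (sup_empty sw)

/-- `VE` implies `VR` (vacuously). -/
theorem VE.vr (h : VE T SA SB SC) : VR T SA SB SC := by
  intro v w sv sw he hv hw
  rcases h v w sv sw he with h1 | h1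
  · exact absurd h1 hv
  · exact absurd h1 hw

/-- `VE` is monotone: more equations, smaller supports. -/
theorem VE.mono {SA' : Finset A} {SB' : Finset B} {SC' : Finset C} (h : VE T SA SB SC)
    (hA : SA ⊆ SA') (hB : SB' ⊆ SB) (hC : SC' ⊆ SC) : VE T SA' SB' SC' := by
  intro v w sv sw he
  exact h v w (fun b hb => sv b fun h' => hb (hB h')) (fun c hc => sw c fun h' => hc (hC h'))
    fun a ha => he a (hA ha)

/-- Every nonzero vector can be normalised (divide by an entry of maximal absolute value). -/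
theorem exists_nrm (hu : u ≠ 0) : ∃ (r : ℂ) (ia : A), r ≠ 0 ∧ Nrm (r • u) ia := by
  obtain ⟨a₀, ha₀⟩ := Function.ne_iff.1 hu
  obtain ⟨ia, -, hia⟩ := (Finset.univ : Finset A).exists_max_image (fun a => ‖u a‖)
    ⟨a₀, Finset.mem_univ _⟩
  have h0 : u ia ≠ 0 := by
    intro h
    have h1 := hia a₀ (Finset.mem_univ _)
    rw [h, norm_zero] at h1
    exact ha₀ (norm_eq_zero.1 (le_antisymm h1 (norm_nonneg _)))
  have hn : 0 < ‖u ia‖ := norm_pos_iff.2 h0
  refine ⟨(u ia)⁻¹, ia, inv_ne_zero h0, ?_, ?_⟩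
  · rw [Pi.smul_apply, smul_eq_mul, inv_mul_cancel₀ h0]
  · intro a
    rw [Pi.smul_apply, smul_eq_mul, norm_mul, norm_inv, inv_mul_le_iff₀ hn, mul_one]
    exact hia a (Finset.mem_univ _)

theorem Nrm.ne {ia : A} (h : Nrm u ia) : u ≠ 0 := by
  intro h0
  have h1 := h.1
  rw [h0, Pi.zero_apply] at h1
  exact zero_ne_one h1

theorem Nrm.mem {ia : A} (h : Nrm u ia) (hs : Sup SA u) : ia ∈ SA := by
  by_contra hn
  have h1 := h.1
  rw [hs ia hn] at h1
  exact zero_ne_one h1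

/-- A vector which is real up to a factor and has an entry `1` is real. -/
theorem Rl.rea (h : Rl u) {ia : A} (h1 : u ia = 1) : Rea u := by
  obtain ⟨r, hr, h2⟩ := h
  have h3 : r.im = 0 := by
    have h4 := h2 ia
    rwa [h1, mul_one] at h4
  have h5 : r.re ≠ 0 := by
    intro h6
    exact hr (Complex.ext h6 h3)
  intro a
  have h4 := h2 a
  rw [Complex.mul_im, h3, zero_mul, add_zero] at h4
  exact (mul_eq_zero.1 h4).resolve_left h5

theorem Rea.rl (h : Rea u) : Rl u :=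
  ⟨1, one_ne_zero, fun a => by rw [one_mul]; exact h a⟩

/-- `Rl` is invariant under nonzero factors. -/
theorem Rl_smul {r : ℂ} (hr : r ≠ 0) : Rl (r • u) ↔ Rl u := by
  constructor
  · rintro ⟨s, hs, h⟩
    refine ⟨s * r, mul_ne_zero hs hr, fun a => ?_⟩
    have h1 := h a
    rwa [Pi.smul_apply, smul_eq_mul, ← mul_assoc] at h1
  · rintro ⟨s, hs, h⟩
    refine ⟨s / r, div_ne_zero hs hr, fun a => ?_⟩
    rw [Pi.smul_apply, smul_eq_mul, ← mul_assoc, div_mul_cancel₀ _ hr]
    exact h a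

/-- The multipliers of a real normalised tuple are real. Proof: `α = c1 T v w ia`. -/
theorem Tup.re (h : Tup T SA SB SC u v w α β γ) {ia : A} {ib : B} {ic : C} (hu : u ia = 1)
    (hv : v ib = 1) (hw : w ic = 1) (ru : Rea u) (rv : Rea v) (rw' : Rea w) :
    α.im = 0 ∧ β.im = 0 ∧ γ.im = 0 := by
  have ha : ia ∈ SA := by
    by_contra hn
    rw [h.su ia hn] at hu
    exact zero_ne_one hu
  have hb : ib ∈ SB := by
    by_contra hn
    rw [h.sv ib hn] at hv
    exact zero_ne_one hv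
  have hc : ic ∈ SC := by
    by_contra hn
    rw [h.sw ic hn] at hw
    exact zero_ne_one hw
  refine ⟨?_, ?_, ?_⟩
  · have h1 := h.e1 ia ha
    rw [hu, mul_one] at h1
    rw [← h1]
    exact c1_re T v w rv rw' ia
  · have h1 := h.e2 ib hb
    rw [hv, mul_one] at h1
    rw [← h1]
    exact c2_re T u w ru rw' ib
  · have h1 := h.e3 ic hc
    rw [hw, mul_one] at h1
    rw [← h1]
    exact c3_re T u v ru rv ic

omit [Fintype A] in
private theorem smul_cancel_aux {r ρ : ℂ} (hr : r ≠ 0) {du : A → ℂ} (h : r • du = ρ • (r • u)) :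
    du = ρ • u := by
  funext a
  have h1 := congrFun h a
  rw [Pi.smul_apply, Pi.smul_apply, Pi.smul_apply, smul_eq_mul, smul_eq_mul, smul_eq_mul] at h1
  rw [Pi.smul_apply, smul_eq_mul]
  refine mul_left_cancel₀ hr ?_
  rw [h1]
  ring

/-- `Ok` can be checked after rescaling. Proof: `Rl_smul`; if `(du, dv, dw, dα, dβ, dγ)` is in the
kernel for `(u, v, w)`, then `(r du, s dv, t dw, s t / r dα, r t / s dβ, r s / t dγ)` is in the
kernel for the rescaled tuple. -/
theorem Ok.of_smul {r s t : ℂ} (hr : r ≠ 0) (hs : s ≠ 0) (ht : t ≠ 0)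
    (h : Ok T SA SB SC (r • u) (s • v) (t • w) (s * t / r * α) (r * t / s * β) (r * s / t * γ)) :
    Ok T SA SB SC u v w α β γ := by
  refine ⟨(Rl_smul hr).1 h.ru, (Rl_smul hs).1 h.rv, (Rl_smul ht).1 h.rw',
    right_ne_zero_of_mul h.hα, right_ne_zero_of_mul h.hβ, right_ne_zero_of_mul h.hγ, ?_⟩
  intro du dv dw dα dβ dγ hk
  have h1 : Ker T SA SB SC (r • u) (s • v) (t • w) (s * t / r * α) (r * t / s * β)
      (r * s / t * γ) (r • du) (s • dv) (t • dw) (s * t / r * dα) (r * t / s * dβ)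
      (r * s / t * dγ) := by
    refine ⟨sup_smul hk.su r, sup_smul hk.sv s, sup_smul hk.sw t, ?_, ?_, ?_⟩
    · intro a ha
      have h2 := hk.e1 a ha
      rw [c1_smul_left, c1_smul_right, c1_smul_left, c1_smul_right, Pi.smul_apply,
        Pi.smul_apply, smul_eq_mul, smul_eq_mul, ← mul_assoc, ← mul_assoc, ← mul_add, h2]
      field_simp
    · intro b hb
      have h2 := hk.e2 b hb
      rw [c2_smul_left, c2_smul_right, c2_smul_left, c2_smul_right, Pi.smul_apply,
        Pi.smul_apply, smul_eq_mul, smul_eq_mul, ← mul_assoc, ← mul_assoc, ← mul_add, h2]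
      field_simp
    · intro c hc
      have h2 := hk.e3 c hc
      rw [c3_smul_left, c3_smul_right, c3_smul_left, c3_smul_right, Pi.smul_apply,
        Pi.smul_apply, smul_eq_mul, smul_eq_mul, ← mul_assoc, ← mul_assoc, ← mul_add, h2]
      field_simp
  obtain ⟨⟨ρ, h2⟩, ⟨σ, h3⟩, ⟨τ, h4⟩⟩ := h.nd _ _ _ _ _ _ h1
  exact ⟨⟨ρ, smul_cancel_aux hr h2⟩, ⟨σ, smul_cancel_aux hs h3⟩, ⟨τ, smul_cancel_aux ht h4⟩⟩

/-- It suffices to check normalised tuples. -/
theorem FR_of_nrm
    (h : ∀ ia ib ic u v w α β γ, Tup T SA SB SC u v w α β γ → Nrm u ia → Nrm v ib → Nrm w ic →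
      Ok T SA SB SC u v w α β γ) : FR T SA SB SC := by
  intro u v w α β γ ht hu hv hw
  obtain ⟨r, ia, hr, h1⟩ := exists_nrm hu
  obtain ⟨s, ib, hs, h2⟩ := exists_nrm hv
  obtain ⟨t, ic, ht', h3⟩ := exists_nrm hw
  exact Ok.of_smul hr hs ht' (h ia ib ic _ _ _ _ _ _ (ht.smul hr hs ht') h1 h2 h3)

/-- The kernel is a subspace which contains the rescalings; here: subtract a rescaling of `u`. -/
theorem Ker.sub_u (h : Tup T SA SB SC u v w α β γ) {du : A → ℂ} {dv : B → ℂ} {dw : C → ℂ}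
    {dα dβ dγ : ℂ} (hk : Ker T SA SB SC u v w α β γ du dv dw dα dβ dγ) (r s t : ℂ) :
    Ker T SA SB SC u v w α β γ (du - r • u) (dv - s • v) (dw - t • w)
      (dα - (s + t - r) * α) (dβ - (r + t - s) * β) (dγ - (r + s - t) * γ) := by
  refine ⟨sup_sub hk.su (sup_smul h.su r), sup_sub hk.sv (sup_smul h.sv s),
    sup_sub hk.sw (sup_smul h.sw t), ?_, ?_, ?_⟩
  · intro a ha
    have h1 := hk.e1 a ha
    have h2 := h.e1 a ha
    have e1 : dv - s • v = dv + (-s) • v := by rw [neg_smul, sub_eq_add_neg]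
    have e2 : dw - t • w = dw + (-t) • w := by rw [neg_smul, sub_eq_add_neg]
    rw [e1, e2, c1_add_left, c1_add_right, c1_smul_left, c1_smul_right, h2, Pi.sub_apply,
      Pi.smul_apply, smul_eq_mul]
    linear_combination h1
  · intro b hb
    have h1 := hk.e2 b hb
    have h2 := h.e2 b hb
    have e1 : du - r • u = du + (-r) • u := by rw [neg_smul, sub_eq_add_neg]
    have e2 : dw - t • w = dw + (-t) • w := by rw [neg_smul, sub_eq_add_neg]
    rw [e1, e2, c2_add_left, c2_add_right, c2_smul_left, c2_smul_right, h2, Pi.sub_apply,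
      Pi.smul_apply, smul_eq_mul]
    linear_combination h1
  · intro c hc
    have h1 := hk.e3 c hc
    have h2 := h.e3 c hc
    have e1 : du - r • u = du + (-r) • u := by rw [neg_smul, sub_eq_add_neg]
    have e2 : dv - s • v = dv + (-s) • v := by rw [neg_smul, sub_eq_add_neg]
    rw [e1, e2, c3_add_left, c3_add_right, c3_smul_left, c3_smul_right, h2, Pi.sub_apply,
      Pi.smul_apply, smul_eq_mul]
    linear_combination h1

end

end Pool.Agent.MPb0eR
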