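import Mathlib
import Pool.Agent.Lib.MP_b0e20b_ag_R.Alg2

/-!
# MP_b0e20b_ag, project R: limits along the ultrafilter
-/

set_option autoImplicit false

open scoped BigOperators Topology
open Filter

namespace Pool.Agent.MPb0eR

/-- Sequences in a compact set converge along the ultrafilter. -/
private theorem Cpt_lim {X : Type} [TopologicalSpace X] {K : Set X} (hK : IsCompact K) (x : ℕ → X)
    (h : ∀ᶠ n in uf, x n ∈ K) : ∃ x0, Tendsto x uf (𝓝 x0) := by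
  obtain ⟨x0, _, hx0⟩ := hK.ultrafilter_le_nhds ((hyperfilter ℕ).map x)
    (by
      rw [Ultrafilter.coe_map]
      exact le_principal_iff.2 h)
  exact ⟨x0, hx0⟩

/-- Bounded sequences converge along the ultrafilter. Proof: closed balls of `ℂ` are compact;
`Ultrafilter.le_nhds` for the image ultrafilter `(hyperfilter ℕ).map x`
(`IsCompact.ultrafilter_le_nhds`). -/
theorem ulim_c (x : ℕ → ℂ) (M : ℝ) (h : ∀ᶠ n in uf, ‖x n‖ ≤ M) :
    ∃ x0, Tendsto x uf (𝓝 x0) := by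
  refine Cpt_lim (isCompact_closedBall (0 : ℂ) M) x ?_
  filter_upwards [h] with n hn
  rwa [mem_closedBall_zero_iff]

theorem ulim_r (x : ℕ → ℝ) (M : ℝ) (h : ∀ᶠ n in uf, |x n| ≤ M) :
    ∃ x0, Tendsto x uf (𝓝 x0) := by
  refine Cpt_lim (isCompact_closedBall (0 : ℝ) M) x ?_
  filter_upwards [h] with n hn
  rwa [mem_closedBall_zero_iff]

theorem ulim_vec {A : Type} [Fintype A] (u : ℕ → A → ℂ) (M : ℝ) (h : ∀ n a, ‖u n a‖ ≤ M) :
    ∃ u0, Tendsto u uf (𝓝 u0) := by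
  choose u0 hu0 using fun a => ulim_c (fun n => u n a) M (Eventually.of_forall fun n => h n a)
  exact ⟨u0, tendsto_pi_nhds.2 hu0⟩

/-- A sequence converges or its norm tends to infinity. Proof: if the norm does not tend to infinity
along the ultrafilter, then for some `M` the set `{n | ‖x n‖ ≥ M}` is not in the ultrafilter, so its
complement is. -/
theorem ualt (x : ℕ → ℂ) :
    (∃ x0, Tendsto x uf (𝓝 x0)) ∨ Tendsto (fun n => ‖x n‖) uf atTop := by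
  by_cases h : Tendsto (fun n => ‖x n‖) uf atTop
  · exact Or.inr h
  · left
    rw [tendsto_atTop] at h
    push Not at h
    obtain ⟨M, hM⟩ := h
    refine ulim_c x M ?_
    filter_upwards [hM] with n hn
    exact hn.le

/-- Maps to a finite type are constant along the ultrafilter. -/
theorem uconst {I : Type} [Finite I] (f : ℕ → I) : ∃ i, ∀ᶠ n in uf, f n = i := by
  obtain ⟨i, hi⟩ := Ultrafilter.eq_pure_of_finite ((hyperfilter ℕ).map f)
  refine ⟨i, ?_⟩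
  have h1 : {i} ∈ (hyperfilter ℕ).map f := by
    rw [hi]
    exact Ultrafilter.mem_pure.2 rfl
  exact Ultrafilter.mem_map.1 h1

/-- `n ↦ n` tends to infinity along the ultrafilter. Proof: `Nat.hyperfilter_le_atTop`. -/
theorem uf_atTop : Tendsto (fun n : ℕ => (n : ℝ)) uf atTop := by
  exact tendsto_natCast_atTop_atTop.mono_left Nat.hyperfilter_le_atTop

section

variable {A B C : Type} [Fintype A] [Fintype B] [Fintype C] {T : A → B → C → ℝ}

theorem Nrm.lim {u : ℕ → A → ℂ} {u0 : A → ℂ} {ia : A} (h : ∀ n, Nrm (u n) ia)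
    (hu : Tendsto u uf (𝓝 u0)) : Nrm u0 ia := by
  have h1 : ∀ a, Tendsto (fun n => u n a) uf (𝓝 (u0 a)) := tendsto_pi_nhds.1 hu
  refine ⟨?_, fun a => ?_⟩
  · refine tendsto_nhds_unique (h1 ia) ?_
    simp only [fun n => (h n).1]
    exact tendsto_const_nhds
  · exact le_of_tendsto (h1 a).norm (Eventually.of_forall fun n => (h n).2 a)

theorem Sup.lim {u : ℕ → A → ℂ} {u0 : A → ℂ} {SA : Finset A} (h : ∀ n, Sup SA (u n))
    (hu : Tendsto u uf (𝓝 u0)) : Sup SA u0 := by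
  intro a ha
  refine tendsto_nhds_unique ((tendsto_pi_nhds.1 hu) a) ?_
  simp only [fun n => h n a ha]
  exact tendsto_const_nhds

theorem lim_c1 {v : ℕ → B → ℂ} {w : ℕ → C → ℂ} {v0 : B → ℂ} {w0 : C → ℂ}
    (hv : Tendsto v uf (𝓝 v0)) (hw : Tendsto w uf (𝓝 w0)) (a : A) :
    Tendsto (fun n => c1 T (v n) (w n) a) uf (𝓝 (c1 T v0 w0 a)) := by
  exact tendsto_pi_nhds.1 (((continuous_c1 T).tendsto (v0, w0)).comp (hv.prodMk_nhds hw)) a

theorem lim_c2 {u : ℕ → A → ℂ} {w : ℕ → C → ℂ} {u0 : A → ℂ} {w0 : C → ℂ}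
    (hu : Tendsto u uf (𝓝 u0)) (hw : Tendsto w uf (𝓝 w0)) (b : B) :
    Tendsto (fun n => c2 T (u n) (w n) b) uf (𝓝 (c2 T u0 w0 b)) := by
  exact tendsto_pi_nhds.1 (((continuous_c2 T).tendsto (u0, w0)).comp (hu.prodMk_nhds hw)) b

theorem lim_c3 {u : ℕ → A → ℂ} {v : ℕ → B → ℂ} {u0 : A → ℂ} {v0 : B → ℂ}
    (hu : Tendsto u uf (𝓝 u0)) (hv : Tendsto v uf (𝓝 v0)) (c : C) :
    Tendsto (fun n => c3 T (u n) (v n) c) uf (𝓝 (c3 T u0 v0 c)) := by
  exact tendsto_pi_nhds.1 (((continuous_c3 T).tendsto (u0, v0)).comp (hu.prodMk_nhds hv)) c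

theorem lim_q {u : ℕ → A → ℂ} {u0 : A → ℂ} (hu : Tendsto u uf (𝓝 u0)) :
    Tendsto (fun n => q (u n)) uf (𝓝 (q u0)) := by
  unfold q
  exact tendsto_finsetSum _ fun a _ => ((tendsto_pi_nhds.1 hu) a).pow 2

/-- The limit of normalised singular tuples of a fixed tensor with convergent multipliers. -/
theorem Tup.lim {SA : Finset A} {SB : Finset B} {SC : Finset C} {u : ℕ → A → ℂ} {v : ℕ → B → ℂ}
    {w : ℕ → C → ℂ} {α β γ : ℕ → ℂ} {u0 : A → ℂ} {v0 : B → ℂ} {w0 : C → ℂ} {α0 β0 γ0 : ℂ}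
    (h : ∀ n, Tup T SA SB SC (u n) (v n) (w n) (α n) (β n) (γ n)) (lv : Lv u v w u0 v0 w0)
    (lc : Lc α β γ α0 β0 γ0) : Tup T SA SB SC u0 v0 w0 α0 β0 γ0 := by
  refine ⟨Sup.lim (fun n => (h n).su) lv.hu, Sup.lim (fun n => (h n).sv) lv.hv,
    Sup.lim (fun n => (h n).sw) lv.hw, fun a ha => ?_, fun b hb => ?_, fun c hc => ?_⟩
  · refine tendsto_nhds_unique (lim_c1 lv.hv lv.hw a) ?_
    simp only [fun n => (h n).e1 a ha]
    exact lc.hα.mul ((tendsto_pi_nhds.1 lv.hu) a)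
  · refine tendsto_nhds_unique (lim_c2 lv.hu lv.hw b) ?_
    simp only [fun n => (h n).e2 b hb]
    exact lc.hβ.mul ((tendsto_pi_nhds.1 lv.hv) b)
  · refine tendsto_nhds_unique (lim_c3 lv.hu lv.hv c) ?_
    simp only [fun n => (h n).e3 c hc]
    exact lc.hγ.mul ((tendsto_pi_nhds.1 lv.hw) c)

/-- For a fixed tensor normalised tuples have limits, including the multipliers, because
`α n = c1 T (v n) (w n) ia` and so on. -/
theorem Tup.exists_lim {SA : Finset A} {SB : Finset B} {SC : Finset C} {u : ℕ → A → ℂ}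
    {v : ℕ → B → ℂ} {w : ℕ → C → ℂ} {α β γ : ℕ → ℂ} {ia : A} {ib : B} {ic : C}
    (h : ∀ n, Tup T SA SB SC (u n) (v n) (w n) (α n) (β n) (γ n)) (nu : ∀ n, Nrm (u n) ia)
    (nv : ∀ n, Nrm (v n) ib) (nw : ∀ n, Nrm (w n) ic) :
    ∃ u0 v0 w0 α0 β0 γ0, Lv u v w u0 v0 w0 ∧ Lc α β γ α0 β0 γ0 ∧
      Tup T SA SB SC u0 v0 w0 α0 β0 γ0 ∧ Nrm u0 ia ∧ Nrm v0 ib ∧ Nrm w0 ic := by
  obtain ⟨u0, hu0⟩ := ulim_vec u 1 fun n a => (nu n).2 a
  obtain ⟨v0, hv0⟩ := ulim_vec v 1 fun n b => (nv n).2 b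
  obtain ⟨w0, hw0⟩ := ulim_vec w 1 fun n c => (nw n).2 c
  have lv : Lv u v w u0 v0 w0 := ⟨hu0, hv0, hw0⟩
  have hα : ∀ n, α n = c1 T (v n) (w n) ia := by
    intro n
    rw [(h n).e1 ia ((nu n).mem (h n).su), (nu n).1, mul_one]
  have hβ : ∀ n, β n = c2 T (u n) (w n) ib := by
    intro n
    rw [(h n).e2 ib ((nv n).mem (h n).sv), (nv n).1, mul_one]
  have hγ : ∀ n, γ n = c3 T (u n) (v n) ic := by
    intro n
    rw [(h n).e3 ic ((nw n).mem (h n).sw), (nw n).1, mul_one]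
  have lc : Lc α β γ (c1 T v0 w0 ia) (c2 T u0 w0 ib) (c3 T u0 v0 ic) := by
    refine ⟨?_, ?_, ?_⟩
    · rw [funext hα]
      exact lim_c1 hv0 hw0 ia
    · rw [funext hβ]
      exact lim_c2 hu0 hw0 ib
    · rw [funext hγ]
      exact lim_c3 hu0 hv0 ic
  exact ⟨u0, v0, w0, _, _, _, lv, lc, Tup.lim h lv lc, Nrm.lim nu hu0, Nrm.lim nv hv0,
    Nrm.lim nw hw0⟩

end

end Pool.Agent.MPb0eR
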