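import Mathlib
import Pool.Agent.Lib.MP_b0e20b_ag_R.Cpt
import Pool.Agent.Lib.MP_b0e20b_ag_R.ADefs

/-!
# MP_b0e20b_ag, project R: algebra of the second level
-/

set_option autoImplicit false

open scoped BigOperators Topology
open Filter

namespace Pool.Agent.MPb0eR

private theorem balg_pos {A : Type} [Fintype A] {u : A → ℂ} (hr : Rea u) (hu : u ≠ 0) :
    ∃ x : ℝ, 0 < x ∧ q u = x := by
  refine ⟨∑ a, (u a).re ^ 2, ?_, ?_⟩
  · obtain ⟨a, ha⟩ := Function.ne_iff.1 hu
    refine Finset.sum_pos' (fun i _ => sq_nonneg _) ⟨a, Finset.mem_univ a, ?_⟩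
    have h1 : (u a).re ≠ 0 := fun h2 => ha (Complex.ext h2 (hr a))
    positivity
  · rw [q]
    push_cast
    refine Finset.sum_congr rfl fun a _ => ?_
    have h1 : u a = ((u a).re : ℂ) := Complex.ext (by simp) (by simp [hr a])
    rw [← h1]

private theorem balg_sup_smul {A : Type} {SA : Finset A} {u : A → ℂ} (h : Sup SA u) (r : ℂ) :
    Sup SA (r • u) := by
  intro a ha
  rw [Pi.smul_apply, h a ha, smul_zero]

private theorem balg_dq_add {A : Type} [Fintype A] (u x y : A → ℂ) :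
    dq u (x + y) = dq u x + dq u y := by
  simp only [dq, Pi.add_apply, mul_add, Finset.sum_add_distrib]

private theorem balg_dq_smul {A : Type} [Fintype A] (u x : A → ℂ) (r : ℂ) :
    dq (r • u) (r • x) = r ^ 2 * dq u x := by
  simp only [dq, Pi.smul_apply, smul_eq_mul, Finset.mul_sum]
  exact Finset.sum_congr rfl fun _ _ => by ring

private theorem balg_cancel {A : Type} {r ρ : ℂ} (hr : r ≠ 0) {u du : A → ℂ}
    (h : r • du = ρ • (r • u)) : du = ρ • u := by
  funext a
  have h1 := congrFun h a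
  rw [Pi.smul_apply, Pi.smul_apply, Pi.smul_apply, smul_eq_mul, smul_eq_mul, smul_eq_mul] at h1
  rw [Pi.smul_apply, smul_eq_mul]
  refine mul_left_cancel₀ hr ?_
  rw [h1]
  ring

section

variable {A B C : Type} [Fintype A] [Fintype B] [Fintype C] [DecidableEq C] {T : A → B → C → ℝ}
  {SA : Finset A} {SB : Finset B} {c o : C} {s : ℝ} {u : A → ℂ} {v : B → ℂ} {w : C → ℂ}
  {α β γ θ ν : ℂ}

theorem dq_smul (u : A → ℂ) (r : ℂ) (du : A → ℂ) : dq u (r • du) = r * dq u du := by
  simp only [dq, Pi.smul_apply, smul_eq_mul, Finset.mul_sum]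
  exact Finset.sum_congr rfl fun _ _ => by ring

theorem dq_self (u : A → ℂ) : dq u u = 2 * q u := by
  simp only [dq, q]
  congr 1
  exact Finset.sum_congr rfl fun _ _ => by ring

theorem q_smul (u : A → ℂ) (r : ℂ) : q (r • u) = r ^ 2 * q u := by
  simp only [q, Pi.smul_apply, smul_eq_mul, Finset.mul_sum]
  exact Finset.sum_congr rfl fun _ _ => by ring

theorem q_cj (u : A → ℂ) : q (cj u) = starRingEnd ℂ (q u) := by
  simp only [q, cj, map_sum, map_pow]

/-- A real nonzero vector has a nonzero square. -/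
theorem q_ne {u : A → ℂ} (hr : Rl u) (hu : u ≠ 0) : q u ≠ 0 := by
  obtain ⟨r, hr0, hr1⟩ := hr
  have h1 : Rea (r • u) := fun a => hr1 a
  have h2 : r • u ≠ 0 := smul_ne_zero hr0 hu
  obtain ⟨x, hx, hx'⟩ := balg_pos h1 h2
  intro h3
  rw [q_smul, h3, mul_zero] at hx'
  exact hx.ne' (Complex.ofReal_eq_zero.1 hx'.symm)

/-- Positivity for real vectors. -/
theorem q_pos {u : A → ℂ} (hr : Rea u) (hu : u ≠ 0) : ∃ x : ℝ, 0 < x ∧ q u = x := by
  exact balg_pos hr hu

/-- Rescaling. -/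
theorem BT.smul (h : BT T SA SB c o s u v w α β γ θ ν) {r t k : ℂ} (hr : r ≠ 0) (ht : t ≠ 0)
    (hk : k ≠ 0) :
    BT T SA SB c o s (r • u) (t • v) (k • w) (t * k / r * α) (r * k / t * β) (r * t / k * γ)
      (r * t * k * θ) (r * t * ν) := by
  refine ⟨balg_sup_smul h.su r, balg_sup_smul h.sv t,
    mul_ne_zero (mul_ne_zero (mul_ne_zero hr ht) hk) h.hθ, ?_, ?_, ?_, ?_, ?_, ?_, ?_, ?_⟩
  · intro a ha
    rw [c1_smul_left, c1_smul_right, h.e1 a ha, Pi.smul_apply, smul_eq_mul]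
    field_simp
  · intro b hb
    rw [c2_smul_left, c2_smul_right, h.e2 b hb, Pi.smul_apply, smul_eq_mul]
    field_simp
  · intro i hi
    have h1 := h.e3 i hi
    rw [c3_smul_left, c3_smul_right, Pi.smul_apply, smul_eq_mul]
    have h2 : (if i = c then r * t * ν else 0) = r * t * (if i = c then ν else 0) := by
      rw [mul_ite, mul_zero]
    have h3 : r * t / k * γ * (k * w i) = r * t * (γ * w i) := by
      field_simp
    rw [h2, h3, ← h1]
    ring
  · rw [q_smul, q_smul]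
    have h1 := h.e4
    have h3 : r * t * k * θ * (t * k / r * α) = t ^ 2 * k ^ 2 * (θ * α) := by
      field_simp
    rw [h3, h1]
    ring
  · rw [q_smul, q_smul]
    have h1 := h.e5
    have h3 : r * t * k * θ * (r * k / t * β) = r ^ 2 * k ^ 2 * (θ * β) := by
      field_simp
    rw [h3, h1]
    ring
  · rw [q_smul, q_smul]
    have h1 := h.e6
    have h3 : r * t * k * θ * (r * t / k * γ) = r ^ 2 * t ^ 2 * (θ * γ) := by
      field_simp
    rw [h3, h1]
    ring
  · have h1 := h.e7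
    rw [Pi.smul_apply, smul_eq_mul]
    linear_combination (r * t * k) * h1
  · have h1 := h.e8
    rw [c3_smul_left, c3_smul_right, Pi.smul_apply, Pi.smul_apply, smul_eq_mul, smul_eq_mul]
    have h3 : r * t / k * γ * (k * w o) ^ 2 = r * t * k * (γ * w o ^ 2) := by
      field_simp
    rw [h3, h1]
    ring

/-- Complex conjugation. -/
theorem BT.conj (h : BT T SA SB c o s u v w α β γ θ ν) :
    BT T SA SB c o s (cj u) (cj v) (cj w) (starRingEnd ℂ α) (starRingEnd ℂ β) (starRingEnd ℂ γ)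
      (starRingEnd ℂ θ) (starRingEnd ℂ ν) := by
  refine ⟨?_, ?_, ?_, ?_, ?_, ?_, ?_, ?_, ?_, ?_, ?_⟩
  · intro a ha
    simp [cj, h.su a ha]
  · intro b hb
    simp [cj, h.sv b hb]
  · intro h0
    exact h.hθ (by simpa using h0)
  · intro a ha
    rw [c1_cj, h.e1 a ha, map_mul]
    rfl
  · intro b hb
    rw [c2_cj, h.e2 b hb, map_mul]
    rfl
  · intro k hk
    have h1 := congrArg (starRingEnd ℂ) (h.e3 k hk)
    rw [map_add, map_mul] at h1
    rw [c3_cj]
    refine Eq.trans ?_ h1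
    congr 1
    split_ifs
    · rfl
    · rw [map_zero]
  · rw [q_cj, q_cj, ← map_mul, ← map_mul, h.e4]
  · rw [q_cj, q_cj, ← map_mul, ← map_mul, h.e5]
  · rw [q_cj, q_cj, ← map_mul, ← map_mul, h.e6]
  · have h1 := congrArg (starRingEnd ℂ) h.e7
    rw [map_mul, map_mul, Complex.conj_ofReal] at h1
    exact h1
  · have h1 := congrArg (starRingEnd ℂ) h.e8
    rw [map_sub, map_mul, map_mul, map_mul, map_pow, ← c3_cj] at h1
    exact h1

/-- The trilinear form. Proof: contract `e1`, `e2` with `u`, `v`; contract `e3` with `w` and use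
`e8`: `∑ k, w k * c3 T u v k = γ * (q w - w o ^ 2) - ν * w c + w o * c3 T u v o = γ * q w`. -/
theorem BT.trace (hco : c ≠ o) (h : BT T SA SB c o s u v w α β γ θ ν) :
    tr T u v w = α * q u ∧ tr T u v w = β * q v ∧ tr T u v w = γ * q w := by
  refine ⟨?_, ?_, ?_⟩
  · rw [tr_c1, q, Finset.mul_sum]
    refine Finset.sum_congr rfl fun a _ => ?_
    by_cases ha : a ∈ SA
    · rw [h.e1 a ha]
      ring
    · rw [h.su a ha]
      ring
  · rw [tr_c2, q, Finset.mul_sum]
    refine Finset.sum_congr rfl fun b _ => ?_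
    by_cases hb : b ∈ SB
    · rw [h.e2 b hb]
      ring
    · rw [h.sv b hb]
      ring
  · rw [tr_c3, q, ← Finset.add_sum_erase _ _ (Finset.mem_univ o),
      ← Finset.add_sum_erase _ (fun k => w k ^ 2) (Finset.mem_univ o)]
    have h1 : ∑ k ∈ Finset.univ.erase o, w k * c3 T u v k =
        γ * (∑ k ∈ Finset.univ.erase o, w k ^ 2) - ν * w c := by
      have h2 : ∑ k ∈ Finset.univ.erase o, (if k = c then ν * w k else 0) = ν * w c := by
        rw [Finset.sum_ite_eq', if_pos (Finset.mem_erase.2 ⟨hco, Finset.mem_univ c⟩)]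
      rw [← h2, Finset.mul_sum, ← Finset.sum_sub_distrib]
      refine Finset.sum_congr rfl fun k hk => ?_
      have h3 := h.e3 k (Finset.ne_of_mem_erase hk)
      by_cases h4 : k = c
      · rw [if_pos h4] at h3 ⊢
        linear_combination w k * h3
      · rw [if_neg h4] at h3 ⊢
        linear_combination w k * h3
    rw [h1]
    have h8 := h.e8
    linear_combination (-1 : ℂ) * h8

/-- `w o ≠ 0` and `ν ≠ 0`, because `w o * ν = s * θ ≠ 0`. -/
theorem BT.ne (hs : s ≠ 0) (h : BT T SA SB c o s u v w α β γ θ ν) : w o ≠ 0 ∧ ν ≠ 0 := by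
  have h1 : w o * ν ≠ 0 := by
    rw [h.e7]
    exact mul_ne_zero (Complex.ofReal_ne_zero.2 hs) h.hθ
  exact ⟨left_ne_zero_of_mul h1, right_ne_zero_of_mul h1⟩

/-- Subtraction of rescalings. -/
theorem KerB.sub (h : BT T SA SB c o s u v w α β γ θ ν) {du : A → ℂ} {dv : B → ℂ} {dw : C → ℂ}
    {dα dβ dγ dθ dν : ℂ}
    (hk : KerB T SA SB c o s u v w α β γ θ ν du dv dw dα dβ dγ dθ dν) (r t k : ℂ) :
    KerB T SA SB c o s u v w α β γ θ ν (du - r • u) (dv - t • v) (dw - k • w)
      (dα - (t + k - r) * α) (dβ - (r + k - t) * β) (dγ - (r + t - k) * γ)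
      (dθ - (r + t + k) * θ) (dν - (r + t) * ν) := by
  have eu : du - r • u = du + (-r) • u := by rw [neg_smul, sub_eq_add_neg]
  have ev : dv - t • v = dv + (-t) • v := by rw [neg_smul, sub_eq_add_neg]
  have ew : dw - k • w = dw + (-k) • w := by rw [neg_smul, sub_eq_add_neg]
  have qu : dq u (du + (-r) • u) = dq u du - 2 * r * q u := by
    rw [balg_dq_add, dq_smul, dq_self]
    ring
  have qv : dq v (dv + (-t) • v) = dq v dv - 2 * t * q v := by
    rw [balg_dq_add, dq_smul, dq_self]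
    ring
  have qw : dq w (dw + (-k) • w) = dq w dw - 2 * k * q w := by
    rw [balg_dq_add, dq_smul, dq_self]
    ring
  refine ⟨?_, ?_, ?_, ?_, ?_, ?_, ?_, ?_, ?_, ?_⟩
  · intro a ha
    rw [Pi.sub_apply, Pi.smul_apply, hk.su a ha, h.su a ha, smul_zero, sub_zero]
  · intro b hb
    rw [Pi.sub_apply, Pi.smul_apply, hk.sv b hb, h.sv b hb, smul_zero, sub_zero]
  · intro a ha
    have h1 := hk.e1 a ha
    have h2 := h.e1 a ha
    rw [ev, ew, c1_add_left, c1_add_right, c1_smul_left, c1_smul_right, Pi.sub_apply,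
      Pi.smul_apply, smul_eq_mul]
    linear_combination h1 - (t + k) * h2
  · intro b hb
    have h1 := hk.e2 b hb
    have h2 := h.e2 b hb
    rw [eu, ew, c2_add_left, c2_add_right, c2_smul_left, c2_smul_right, Pi.sub_apply,
      Pi.smul_apply, smul_eq_mul]
    linear_combination h1 - (r + k) * h2
  · intro i hi
    have h1 := hk.e3 i hi
    have h2 := h.e3 i hi
    rw [eu, ev, c3_add_left, c3_add_right, c3_smul_left, c3_smul_right, Pi.sub_apply,
      Pi.smul_apply, smul_eq_mul]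
    by_cases h4 : i = c
    · rw [if_pos h4] at h1 h2 ⊢
      linear_combination h1 - (r + t) * h2
    · rw [if_neg h4] at h1 h2 ⊢
      linear_combination h1 - (r + t) * h2
  · have h1 := hk.e4
    have h2 := h.e4
    rw [ev, ew, qv, qw]
    linear_combination h1 - 2 * (t + k) * h2
  · have h1 := hk.e5
    have h2 := h.e5
    rw [eu, ew, qu, qw]
    linear_combination h1 - 2 * (r + k) * h2
  · have h1 := hk.e6
    have h2 := h.e6
    rw [eu, ev, qu, qv]
    linear_combination h1 - 2 * (r + t) * h2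
  · have h1 := hk.e7
    have h2 := h.e7
    rw [Pi.sub_apply, Pi.smul_apply, smul_eq_mul]
    linear_combination h1 - (r + t + k) * h2
  · have h1 := hk.e8
    have h2 := h.e8
    rw [eu, ev, c3_add_left, c3_add_right, c3_smul_left, c3_smul_right, Pi.sub_apply,
      Pi.sub_apply, Pi.smul_apply, Pi.smul_apply, smul_eq_mul, smul_eq_mul]
    linear_combination h1 - (r + t + k) * h2

/-- For a real solution the scalar components of a kernel vector with vanishing vector components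
vanish.

Proof. `q u`, `q v`, `q w` are nonzero (`q_ne`), so `α = q v * q w / θ ≠ 0`. `e1` at an index
`a ∈ SA` with `u a ≠ 0`: `dα = 0`; `e2`: `dβ = 0`; `e4`: `dθ * α = 0`, so `dθ = 0`; `e7`: `dν = 0`
(`w o ≠ 0`); `e8`: `dγ * w o ^ 2 = 0`, so `dγ = 0`. -/
theorem KerB.zero (hs : s ≠ 0) (h : BT T SA SB c o s u v w α β γ θ ν) (hu : u ≠ 0) (hv : v ≠ 0)
    (hw : w ≠ 0) (ru : Rl u) (rv : Rl v) (rw' : Rl w) {dα dβ dγ dθ dν : ℂ}
    (hk : KerB T SA SB c o s u v w α β γ θ ν 0 0 0 dα dβ dγ dθ dν) :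
    dα = 0 ∧ dβ = 0 ∧ dγ = 0 ∧ dθ = 0 ∧ dν = 0 := by
  obtain ⟨hwo, hν⟩ := h.ne hs
  have hqu := q_ne ru hu
  have hqv := q_ne rv hv
  have hqw := q_ne rw' hw
  have hα : α ≠ 0 := by
    have h1 : θ * α ≠ 0 := by
      rw [h.e4]
      exact mul_ne_zero hqv hqw
    exact right_ne_zero_of_mul h1
  obtain ⟨a, ha⟩ := Function.ne_iff.1 hu
  have haS : a ∈ SA := by
    by_contra hn
    exact ha (h.su a hn)
  obtain ⟨b, hb⟩ := Function.ne_iff.1 hv
  have hbS : b ∈ SB := by
    by_contra hn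
    exact hb (h.sv b hn)
  have dα0 : dα = 0 := by
    have h1 := hk.e1 a haS
    rw [c1_zero_left, c1_zero_right, Pi.zero_apply, mul_zero, zero_add, zero_add] at h1
    exact (mul_eq_zero.1 h1.symm).resolve_right ha
  have dβ0 : dβ = 0 := by
    have h1 := hk.e2 b hbS
    rw [c2_zero_left, c2_zero_right, Pi.zero_apply, mul_zero, zero_add, zero_add] at h1
    exact (mul_eq_zero.1 h1.symm).resolve_right hb
  have dq0 : ∀ {D : Type} [Fintype D] (x : D → ℂ), dq x 0 = 0 := by
    intro D _ x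
    simp [dq]
  have dθ0 : dθ = 0 := by
    have h1 := hk.e4
    rw [dα0, dq0, dq0, mul_zero, add_zero, zero_mul, mul_zero, add_zero] at h1
    exact (mul_eq_zero.1 h1).resolve_right hα
  have dν0 : dν = 0 := by
    have h1 := hk.e7
    rw [dθ0, Pi.zero_apply, zero_mul, zero_add, mul_zero] at h1
    exact (mul_eq_zero.1 h1).resolve_left hwo
  have dγ0 : dγ = 0 := by
    have h1 := hk.e8
    rw [dν0, c3_zero_left, c3_zero_right, Pi.zero_apply, Pi.zero_apply] at h1
    simp only [mul_zero, add_zero, zero_mul, sub_zero] at h1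
    exact (mul_eq_zero.1 h1).resolve_right (pow_ne_zero 2 hwo)
  exact ⟨dα0, dβ0, dγ0, dθ0, dν0⟩

/-- For real vectors the multipliers are real.

Proof. The conjugate of a solution is a solution (`BT.conj`) with the same vectors. `α` is determined
by `e1` at `a` with `u a ≠ 0`, `β` by `e2`; `α ≠ 0` (`q_ne`, `e4`), so `θ` is determined by `e4`,
`γ` by `e6`, `ν` by `e7` (`w o ≠ 0`). -/
theorem BT.re (hs : s ≠ 0) (h : BT T SA SB c o s u v w α β γ θ ν) (hu : u ≠ 0) (hv : v ≠ 0)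
    (hw : w ≠ 0) (ru : Rea u) (rv : Rea v) (rw' : Rea w) :
    α.im = 0 ∧ β.im = 0 ∧ γ.im = 0 ∧ θ.im = 0 ∧ ν.im = 0 := by
  obtain ⟨hwo, hν⟩ := h.ne hs
  have hqv := q_ne rv.rl hv
  have hqw := q_ne rw'.rl hw
  have hα : α ≠ 0 := by
    have h1 : θ * α ≠ 0 := by
      rw [h.e4]
      exact mul_ne_zero hqv hqw
    exact right_ne_zero_of_mul h1
  have h' := h.conj
  rw [(rea_iff u).1 ru, (rea_iff v).1 rv, (rea_iff w).1 rw'] at h'
  obtain ⟨a, ha⟩ := Function.ne_iff.1 hu
  have haS : a ∈ SA := by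
    by_contra hn
    exact ha (h.su a hn)
  obtain ⟨b, hb⟩ := Function.ne_iff.1 hv
  have hbS : b ∈ SB := by
    by_contra hn
    exact hb (h.sv b hn)
  have kα : starRingEnd ℂ α = α := mul_right_cancel₀ ha ((h'.e1 a haS).symm.trans (h.e1 a haS))
  have kβ : starRingEnd ℂ β = β := mul_right_cancel₀ hb ((h'.e2 b hbS).symm.trans (h.e2 b hbS))
  have kθ : starRingEnd ℂ θ = θ := by
    have h1 := h'.e4.trans h.e4.symm
    rw [kα] at h1
    exact mul_right_cancel₀ hα h1
  have kγ : starRingEnd ℂ γ = γ := by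
    have h1 := h'.e6.trans h.e6.symm
    rw [kθ] at h1
    exact mul_left_cancel₀ h.hθ h1
  have kν : starRingEnd ℂ ν = ν := by
    have h1 := h'.e7
    rw [kθ] at h1
    exact mul_left_cancel₀ hwo (h1.trans h.e7.symm)
  exact ⟨Complex.conj_eq_iff_im.1 kα, Complex.conj_eq_iff_im.1 kβ, Complex.conj_eq_iff_im.1 kγ,
    Complex.conj_eq_iff_im.1 kθ, Complex.conj_eq_iff_im.1 kν⟩

/-- `OkB` can be checked after rescaling (compare `Ok.of_smul`). -/
theorem OkB.of_smul {r t k : ℂ} (hr : r ≠ 0) (ht : t ≠ 0) (hk : k ≠ 0)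
    (h : OkB T SA SB c o s (r • u) (t • v) (k • w) (t * k / r * α) (r * k / t * β)
      (r * t / k * γ) (r * t * k * θ) (r * t * ν)) :
    OkB T SA SB c o s u v w α β γ θ ν := by
  refine ⟨(Rl_smul hr).1 h.ru, (Rl_smul ht).1 h.rv, (Rl_smul hk).1 h.rw', ?_⟩
  intro du dv dw dα dβ dγ dθ dν hK
  have h1 : KerB T SA SB c o s (r • u) (t • v) (k • w) (t * k / r * α) (r * k / t * β)
      (r * t / k * γ) (r * t * k * θ) (r * t * ν) (r • du) (t • dv) (k • dw) (t * k / r * dα)
      (r * k / t * dβ) (r * t / k * dγ) (r * t * k * dθ) (r * t * dν) := by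
    refine ⟨balg_sup_smul hK.su r, balg_sup_smul hK.sv t, ?_, ?_, ?_, ?_, ?_, ?_, ?_, ?_⟩
    · intro a ha
      have h2 := hK.e1 a ha
      rw [c1_smul_left, c1_smul_right, c1_smul_left, c1_smul_right, Pi.smul_apply,
        Pi.smul_apply, smul_eq_mul, smul_eq_mul, ← mul_assoc, ← mul_assoc, ← mul_add, h2]
      field_simp
    · intro b hb
      have h2 := hK.e2 b hb
      rw [c2_smul_left, c2_smul_right, c2_smul_left, c2_smul_right, Pi.smul_apply,
        Pi.smul_apply, smul_eq_mul, smul_eq_mul, ← mul_assoc, ← mul_assoc, ← mul_add, h2]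
      field_simp
    · intro i hi
      have h2 := hK.e3 i hi
      have h3 : (if i = c then r * t * dν else 0) = r * t * (if i = c then dν else 0) := by
        rw [mul_ite, mul_zero]
      have h4 : r * t / k * γ * (k * dw i) + r * t / k * dγ * (k * w i) =
          r * t * (γ * dw i + dγ * w i) := by
        field_simp
      rw [c3_smul_left, c3_smul_right, c3_smul_left, c3_smul_right, Pi.smul_apply,
        Pi.smul_apply, smul_eq_mul, smul_eq_mul, h3, h4, ← h2]
      ring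
    · rw [balg_dq_smul, balg_dq_smul, q_smul, q_smul]
      have h2 := hK.e4
      have h3 : r * t * k * dθ * (t * k / r * α) + r * t * k * θ * (t * k / r * dα) =
          t ^ 2 * k ^ 2 * (dθ * α + θ * dα) := by
        field_simp
      rw [h3, h2]
      ring
    · rw [balg_dq_smul, balg_dq_smul, q_smul, q_smul]
      have h2 := hK.e5
      have h3 : r * t * k * dθ * (r * k / t * β) + r * t * k * θ * (r * k / t * dβ) =
          r ^ 2 * k ^ 2 * (dθ * β + θ * dβ) := by
        field_simp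
      rw [h3, h2]
      ring
    · rw [balg_dq_smul, balg_dq_smul, q_smul, q_smul]
      have h2 := hK.e6
      have h3 : r * t * k * dθ * (r * t / k * γ) + r * t * k * θ * (r * t / k * dγ) =
          r ^ 2 * t ^ 2 * (dθ * γ + θ * dγ) := by
        field_simp
      rw [h3, h2]
      ring
    · have h2 := hK.e7
      rw [Pi.smul_apply, Pi.smul_apply, smul_eq_mul, smul_eq_mul]
      linear_combination (r * t * k) * h2
    · have h2 := hK.e8
      have h3 : r * t / k * dγ * (k * w o) ^ 2 + 2 * (r * t / k * γ * (k * w o) * (k * dw o)) =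
          r * t * k * (dγ * w o ^ 2 + 2 * (γ * w o * dw o)) := by
        field_simp
      rw [c3_smul_left, c3_smul_right, c3_smul_left, c3_smul_right, c3_smul_left, c3_smul_right,
        Pi.smul_apply, Pi.smul_apply, Pi.smul_apply, Pi.smul_apply, smul_eq_mul, smul_eq_mul,
        smul_eq_mul, smul_eq_mul, h3, h2]
      ring
  obtain ⟨⟨ρ, h2⟩, ⟨σ, h3⟩, ⟨τ, h4⟩⟩ := h.nd _ _ _ _ _ _ _ _ h1
  exact ⟨⟨ρ, balg_cancel hr h2⟩, ⟨σ, balg_cancel ht h3⟩, ⟨τ, balg_cancel hk h4⟩⟩

/-- It suffices to check normalised solutions. -/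
theorem FRB_of_nrm
    (h : ∀ ia ib ic u v w α β γ θ ν, BT T SA SB c o s u v w α β γ θ ν → Nrm u ia → Nrm v ib →
      Nrm w ic → OkB T SA SB c o s u v w α β γ θ ν) : FRB T SA SB c o s := by
  intro u v w α β γ θ ν hB hu hv hw
  obtain ⟨r, ia, hr, h1⟩ := exists_nrm hu
  obtain ⟨t, ib, ht, h2⟩ := exists_nrm hv
  obtain ⟨k, ic, hk, h3⟩ := exists_nrm hw
  exact OkB.of_smul hr ht hk (h ia ib ic _ _ _ _ _ _ _ _ (hB.smul hr ht hk) h1 h2 h3)

end

section

variable {A B C : Type} [Fintype A] [Fintype B] [Fintype C] [DecidableEq A] [DecidableEq B]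
  [DecidableEq C] {T : A → B → C → ℝ} {SA : Finset A} {SB : Finset B} {c o : C}

/-- From sequences to small parameters; proof as `by_seq`. -/
theorem by_seqB (Q : ℝ → (A → ℂ) → (B → ℂ) → (C → ℂ) → ℂ → ℂ → ℂ → ℂ → ℂ → Prop)
    (h : ∀ s ia ib ic u v w α β γ θ ν, SqB T SA SB c o s ia ib ic u v w α β γ θ ν →
      ∀ᶠ n in uf, Q (s n) (u n) (v n) (w n) (α n) (β n) (γ n) (θ n) (ν n)) :
    ∃ s0 : ℝ, 0 < s0 ∧ ∀ s, 0 < s → s < s0 → ∀ ia ib ic u v w α β γ θ ν,
      BT T SA SB c o s u v w α β γ θ ν → Nrm u ia → Nrm v ib → Nrm w ic →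
        Q s u v w α β γ θ ν := by
  by_contra hcon
  push Not at hcon
  have h1 : ∀ n : ℕ, ∃ (s : ℝ) (ia : A) (ib : B) (ic : C) (u : A → ℂ) (v : B → ℂ) (w : C → ℂ)
      (α β γ θ ν : ℂ), (0 < s ∧ s < 1 / ((n : ℝ) + 1)) ∧ BT T SA SB c o s u v w α β γ θ ν ∧
      Nrm u ia ∧ Nrm v ib ∧ Nrm w ic ∧ ¬ Q s u v w α β γ θ ν := by
    intro n
    obtain ⟨s, h2, h3, ia, ib, ic, u, v, w, α, β, γ, θ, ν, h4, h5, h6, h7, h8⟩ :=
      hcon (1 / ((n : ℝ) + 1)) (by positivity)
    exact ⟨s, ia, ib, ic, u, v, w, α, β, γ, θ, ν, ⟨h2, h3⟩, h4, h5, h6, h7, h8⟩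
  choose s ia ib ic u v w α β γ θ ν hs hB hu hv hw hQ using h1
  obtain ⟨i, hi⟩ := uconst fun n => (ia n, ib n, ic n)
  obtain ⟨n0, hn0⟩ := hi.exists
  obtain ⟨g, hg⟩ : ∃ g : ℕ → ℕ, g = fun n => if (ia n, ib n, ic n) = i then n else n0 :=
    ⟨_, rfl⟩
  have hgi : ∀ n, (ia (g n), ib (g n), ic (g n)) = i := by
    intro n
    rw [hg]
    by_cases h2 : (ia n, ib n, ic n) = i
    · simp only [h2, if_true]
    · simp only [h2, if_false]
      exact hn0
  have hgn : ∀ᶠ n in uf, g n = n := by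
    filter_upwards [hi] with n hn
    rw [hg]
    simp only [hn, if_true]
  have hlim : Tendsto s uf (𝓝 0) := by
    have h2 : Tendsto (fun n : ℕ => 1 / ((n : ℝ) + 1)) uf (𝓝 0) :=
      tendsto_one_div_add_atTop_nhds_zero_nat.mono_left Nat.hyperfilter_le_atTop
    exact squeeze_zero (fun n => (hs n).1.le) (fun n => (hs n).2.le) h2
  have hlim' : Tendsto (fun n => s (g n)) uf (𝓝 0) := by
    refine hlim.congr' ?_
    filter_upwards [hgn] with n hn
    rw [hn]
  have h3 := h (fun n => s (g n)) i.1 i.2.1 i.2.2 (fun n => u (g n)) (fun n => v (g n))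
    (fun n => w (g n)) (fun n => α (g n)) (fun n => β (g n)) (fun n => γ (g n))
    (fun n => θ (g n)) (fun n => ν (g n))
    ⟨hlim', fun n => (hs (g n)).1, fun n => hB (g n),
      fun n => by rw [← hgi n]; exact hu (g n), fun n => by rw [← hgi n]; exact hv (g n),
      fun n => by rw [← hgi n]; exact hw (g n)⟩
  obtain ⟨n, hn⟩ := h3.exists
  exact hQ (g n) hn

/-- The masks `MC`. -/
theorem mem_MC (k : C) : (k ∈ MC c o 0) ∧ (k ∈ MC c o 1 ↔ k ≠ o) ∧
    (k ∈ MC c o 2 ↔ k ≠ o ∧ k ≠ c) := by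
  refine ⟨?_, ?_, ?_⟩
  · simp [MC]
  · simp [MC]
  · rw [MC, if_neg (by decide), if_neg (by decide), Finset.mem_erase, Finset.mem_erase]
    constructor
    · rintro ⟨h1, h2, -⟩
      exact ⟨h2, h1⟩
    · rintro ⟨h1, h2⟩
      exact ⟨h2, h1, Finset.mem_univ k⟩

end

end Pool.Agent.MPb0eR
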