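import Mathlib
import Pool.Agent.Lib.MP_b0e20b_ag_R.BAlg

/-!
# MP_b0e20b_ag, project R: algebra of the third level
-/

set_option autoImplicit false

open scoped BigOperators Topology
open Filter

namespace Pool.Agent.MPb0eR

section

variable {A B C : Type} [Fintype A] [Fintype B] [Fintype C]

private theorem aalg_c1_mul (L : ℝ) (T : A → B → C → ℝ) (v : B → ℂ) (w : C → ℂ) (a : A) :
    c1 (fun a b k => L * T a b k) v w a = L * c1 T v w a := by
  simp only [c1, Finset.mul_sum, Complex.ofReal_mul]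
  exact Finset.sum_congr rfl fun _ _ => Finset.sum_congr rfl fun _ _ => by ring

private theorem aalg_c2_mul (L : ℝ) (T : A → B → C → ℝ) (u : A → ℂ) (w : C → ℂ) (b : B) :
    c2 (fun a b k => L * T a b k) u w b = L * c2 T u w b := by
  simp only [c2, Finset.mul_sum, Complex.ofReal_mul]
  exact Finset.sum_congr rfl fun _ _ => Finset.sum_congr rfl fun _ _ => by ring

private theorem aalg_c3_mul (L : ℝ) (T : A → B → C → ℝ) (u : A → ℂ) (v : B → ℂ) (k : C) :
    c3 (fun a b k => L * T a b k) u v k = L * c3 T u v k := by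
  simp only [c3, Finset.mul_sum, Complex.ofReal_mul]
  exact Finset.sum_congr rfl fun _ _ => Finset.sum_congr rfl fun _ _ => by ring

private theorem aalg_ker_swap [DecidableEq C] {T : A → B → C → ℝ} {SA : Finset A} {SB : Finset B}
    {c o : C} {s : ℝ} {u : A → ℂ} {v : B → ℂ} {w : C → ℂ} {α β γ θ ν : ℂ} {du : A → ℂ}
    {dv : B → ℂ} {dw : C → ℂ} {dα dβ dγ dθ dν : ℂ}
    (h : KerB T SA SB c o s u v w α β γ θ ν du dv dw dα dβ dγ dθ dν) :
    KerB (s12 T) SB SA c o s v u w β α γ θ ν dv du dw dβ dα dγ dθ dν := by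
  refine ⟨h.sv, h.su, ?_, ?_, ?_, h.e5, h.e4, ?_, h.e7, ?_⟩
  · intro b hb
    rw [c1_s12, c1_s12]
    exact h.e2 b hb
  · intro a ha
    rw [c2_s12, c2_s12]
    exact h.e1 a ha
  · intro k hk
    rw [c3_s12, c3_s12]
    have h1 := h.e3 k hk
    rw [← h1]
    ring
  · rw [h.e6]
    ring
  · rw [c3_s12, c3_s12, c3_s12, h.e8]
    ring

end

section

variable {A B C : Type} [Fintype A] [Fintype B] [Fintype C] [DecidableEq A] [DecidableEq B]
  [DecidableEq C] {T : A → B → C → ℝ} {oA : A} {oB : B} {c oC : C} {L s : ℝ} {u : A → ℂ}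
  {v : B → ℂ} {w : C → ℂ} {α β γ θ ν : ℂ}

/-- Rescaling. -/
theorem AT.smul (h : AT T oA oB c oC L s u v w α β γ θ ν) {r t k : ℂ} (hr : r ≠ 0) (ht : t ≠ 0)
    (hk : k ≠ 0) :
    AT T oA oB c oC L s (r • u) (t • v) (k • w) (t * k / r * α) (r * k / t * β) (r * t / k * γ)
      (r * t * k * θ) (r * t * ν) := by
  refine ⟨mul_ne_zero (mul_ne_zero (mul_ne_zero hr ht) hk) h.hθ, ?_, ?_, ?_, ?_, ?_, ?_, ?_, ?_⟩
  · intro a ha
    rw [c1_smul_left, c1_smul_right, h.e1 a ha, Pi.smul_apply, smul_eq_mul]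
    field_simp
  · intro b hb
    rw [c2_smul_left, c2_smul_right, h.e2 b hb, Pi.smul_apply, smul_eq_mul]
    field_simp
  · intro i hi
    have h1 := h.e3 i hi
    rw [c3_smul_left, c3_smul_right, Pi.smul_apply, smul_eq_mul]
    have h2 : (if i = c then r * t * ν else 0) = r * t * (if i = c then ν else 0) := by
      rw [mul_ite, mul_zero]
    have h3 : r * t / k * γ * (k * w i) = r * t * (γ * w i) := by
      field_simp
    rw [h2, h3, ← h1]
    ring
  · rw [q_smul, q_smul]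
    have h1 := h.e4
    have h3 : r * t * k * θ * (t * k / r * α) = t ^ 2 * k ^ 2 * (θ * α) := by
      field_simp
    rw [h3, h1]
    ring
  · rw [q_smul, q_smul]
    have h1 := h.e5
    have h3 : r * t * k * θ * (r * k / t * β) = r ^ 2 * k ^ 2 * (θ * β) := by
      field_simp
    rw [h3, h1]
    ring
  · rw [q_smul, q_smul]
    have h1 := h.e6
    have h3 : r * t * k * θ * (r * t / k * γ) = r ^ 2 * t ^ 2 * (θ * γ) := by
      field_simp
    rw [h3, h1]
    ring
  · have h1 := h.e7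
    rw [Pi.smul_apply, smul_eq_mul]
    linear_combination (r * t * k) * h1
  · have h1 := h.e9
    rw [Pi.smul_apply, Pi.smul_apply, smul_eq_mul, smul_eq_mul]
    linear_combination (r * t) * h1

/-- The three forms of the trilinear form. Proof: contract `e1`, `e2`, `e3` with `u`, `v`, `w`; the
missing equations at `oA`, `oB`, `oC` give the correction terms. -/
theorem AT.trace (hco : c ≠ oC) (h : AT T oA oB c oC L s u v w α β γ θ ν) :
    α * q u - α * u oA ^ 2 = tr T u v w - u oA * c1 T v w oA ∧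
      β * q v - β * v oB ^ 2 = tr T u v w - v oB * c2 T u w oB ∧
      γ * q w - γ * w oC ^ 2 = tr T u v w - w oC * c3 T u v oC + ν * w c := by
  refine ⟨?_, ?_, ?_⟩
  · rw [tr_c1, q, ← Finset.add_sum_erase _ _ (Finset.mem_univ oA),
      ← Finset.add_sum_erase _ (fun a => u a * c1 T v w a) (Finset.mem_univ oA)]
    have h1 : ∑ a ∈ Finset.univ.erase oA, u a * c1 T v w a =
        α * ∑ a ∈ Finset.univ.erase oA, u a ^ 2 := by
      rw [Finset.mul_sum]
      refine Finset.sum_congr rfl fun a ha => ?_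
      rw [h.e1 a (Finset.ne_of_mem_erase ha)]
      ring
    rw [h1]
    ring
  · rw [tr_c2, q, ← Finset.add_sum_erase _ _ (Finset.mem_univ oB),
      ← Finset.add_sum_erase _ (fun b => v b * c2 T u w b) (Finset.mem_univ oB)]
    have h1 : ∑ b ∈ Finset.univ.erase oB, v b * c2 T u w b =
        β * ∑ b ∈ Finset.univ.erase oB, v b ^ 2 := by
      rw [Finset.mul_sum]
      refine Finset.sum_congr rfl fun b hb => ?_
      rw [h.e2 b (Finset.ne_of_mem_erase hb)]
      ring
    rw [h1]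
    ring
  · rw [tr_c3, q, ← Finset.add_sum_erase _ _ (Finset.mem_univ oC),
      ← Finset.add_sum_erase _ (fun k => w k * c3 T u v k) (Finset.mem_univ oC)]
    have h1 : ∑ k ∈ Finset.univ.erase oC, w k * c3 T u v k =
        γ * (∑ k ∈ Finset.univ.erase oC, w k ^ 2) - ν * w c := by
      have h2 : ∑ k ∈ Finset.univ.erase oC, (if k = c then ν * w k else 0) = ν * w c := by
        rw [Finset.sum_ite_eq', if_pos (Finset.mem_erase.2 ⟨hco, Finset.mem_univ c⟩)]
      rw [← h2, Finset.mul_sum, ← Finset.sum_sub_distrib]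
      refine Finset.sum_congr rfl fun k hk => ?_
      have h3 := h.e3 k (Finset.ne_of_mem_erase hk)
      by_cases h4 : k = c
      · rw [if_pos h4] at h3 ⊢
        linear_combination w k * h3
      · rw [if_neg h4] at h3 ⊢
        linear_combination w k * h3
    rw [h1]
    ring

/-- Proof: `θ α q u = θ β q v = θ γ q w = q u q v q w`. -/
theorem AT.qq (h : AT T oA oB c oC L s u v w α β γ θ ν) :
    α * q u = β * q v ∧ α * q u = γ * q w := by
  constructor
  · refine mul_left_cancel₀ h.hθ ?_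
    linear_combination q u * h.e4 - q v * h.e5
  · refine mul_left_cancel₀ h.hθ ?_
    linear_combination q u * h.e4 - q w * h.e6

/-- The relations between the missing equations. Proof: `AT.trace`, `AT.qq`. -/
theorem AT.rel (hco : c ≠ oC) (h : AT T oA oB c oC L s u v w α β γ θ ν) :
    α * u oA ^ 2 - u oA * c1 T v w oA = β * v oB ^ 2 - v oB * c2 T u w oB ∧
      γ * w oC ^ 2 - w oC * c3 T u v oC + ν * w c = α * u oA ^ 2 - u oA * c1 T v w oA := by
  obtain ⟨h1, h2, h3⟩ := h.trace hco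
  obtain ⟨h4, h5⟩ := h.qq
  constructor
  · linear_combination h2 - h1 + h4
  · linear_combination h1 - h3 - h5

/-- `θ s = ν w(oC) = s L u(oA) v(oB) w(oC)`, so the coordinates `oA`, `oB`, `oC` and `ν` are not
zero. -/
theorem AT.ne (hs : s ≠ 0) (h : AT T oA oB c oC L s u v w α β γ θ ν) :
    u oA ≠ 0 ∧ v oB ≠ 0 ∧ w oC ≠ 0 ∧ ν ≠ 0 ∧ θ = L * (u oA * v oB * w oC) := by
  have hs' : (s : ℂ) ≠ 0 := Complex.ofReal_ne_zero.2 hs
  have h1 : w oC * ν ≠ 0 := by
    rw [h.e7]
    exact mul_ne_zero hs' h.hθ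
  have hw := left_ne_zero_of_mul h1
  have hν := right_ne_zero_of_mul h1
  have h2 : u oA * v oB ≠ 0 := by
    intro h3
    apply hν
    rw [h.e9, h3, mul_zero]
  refine ⟨left_ne_zero_of_mul h2, right_ne_zero_of_mul h2, hw, hν, ?_⟩
  refine mul_left_cancel₀ hs' ?_
  linear_combination w oC * h.e9 - h.e7

/-- Exchange of the first two factors. -/
theorem AT.swap (h : AT T oA oB c oC L s u v w α β γ θ ν) :
    AT (s12 T) oB oA c oC L s v u w β α γ θ ν := by
  refine ⟨h.hθ, ?_, ?_, ?_, h.e5, h.e4, ?_, h.e7, ?_⟩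
  · intro b hb
    rw [c1_s12]
    exact h.e2 b hb
  · intro a ha
    rw [c2_s12]
    exact h.e1 a ha
  · intro k hk
    rw [c3_s12]
    exact h.e3 k hk
  · rw [h.e6, mul_comm]
  · rw [mul_comm (v oB)]
    exact h.e9

theorem BT.swap {SA : Finset A} {SB : Finset B} {o : C}
    (h : BT T SA SB c o s u v w α β γ θ ν) : BT (s12 T) SB SA c o s v u w β α γ θ ν := by
  refine ⟨h.sv, h.su, h.hθ, ?_, ?_, ?_, h.e5, h.e4, ?_, h.e7, ?_⟩
  · intro b hb
    rw [c1_s12]
    exact h.e2 b hb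
  · intro a ha
    rw [c2_s12]
    exact h.e1 a ha
  · intro k hk
    rw [c3_s12]
    exact h.e3 k hk
  · rw [h.e6, mul_comm]
  · rw [c3_s12]
    exact h.e8

theorem FRB_s12 {SA : Finset A} {SB : Finset B} {o : C} (h : FRB T SA SB c o s) :
    FRB (s12 T) SB SA c o s := by
  intro u v w α β γ θ ν hB hu hv hw
  have h1 := h v u w β α γ θ ν hB.swap hv hu hw
  refine ⟨h1.rv, h1.ru, h1.rw', ?_⟩
  intro du dv dw dα dβ dγ dθ dν hK
  obtain ⟨h2, h3, h4⟩ := h1.nd dv du dw dβ dα dγ dθ dν (aalg_ker_swap hK)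
  exact ⟨h3, h2, h4⟩

/-- From solutions of the critical equations of `M = L • T + L ^ 2 s • e` to `AT`: divide by the
entries of maximal absolute value.

Proof. Let `(u, v, w)` solve `AF M` and let `r, t, k ≠ 0`. Then `(r u, t v, k w)` has the
coordinates `r, t, k` at `oA, oB, oC`. Put `θ = L r t k`, `ν = s L r t`,
`α = q(t v) q(k w) / θ` and so on. For `a ≠ oA`: `c1 M v w a = L c1 T v w a`, so
`L c1 T v w a = q v q w u a`; multiply by `r t² k²`:
`θ c1 T (t v) (k w) a = q(t v) q(k w) (r u) a`. The same for `b ≠ oB`. For `k' ≠ oC`: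
`c3 M u v k' = L c3 T u v k' + L² s u(oA) v(oB) [k' = c]`, where `u oA = v oB = 1`. -/
theorem AF.at (hL : 0 < L) (hs : 0 < s)
    (h : AF (fun a b k => L * T a b k + if a = oA ∧ b = oB ∧ k = c then L ^ 2 * s else 0) oA oB oC
      u v w) {r t k : ℂ} (hr : r ≠ 0) (ht : t ≠ 0) (hk : k ≠ 0) :
    ∃ α β γ θ ν, AT T oA oB c oC L s (r • u) (t • v) (k • w) α β γ θ ν := by
  have hL' : (L : ℂ) ≠ 0 := Complex.ofReal_ne_zero.2 hL.ne'
  obtain ⟨M, hM⟩ : ∃ M : A → B → C → ℝ, M = ad (fun a b k => L * T a b k) oA oB c (L ^ 2 * s) :=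
    ⟨_, rfl⟩
  have h' : AF M oA oB oC u v w := by
    rw [hM]
    exact h
  have hθ : (L : ℂ) * (r * t * k) ≠ 0 := mul_ne_zero hL' (mul_ne_zero (mul_ne_zero hr ht) hk)
  refine ⟨q (t • v) * q (k • w) / (L * (r * t * k)), q (r • u) * q (k • w) / (L * (r * t * k)),
    q (r • u) * q (t • v) / (L * (r * t * k)), L * (r * t * k), s * L * (r * t), hθ,
    ?_, ?_, ?_, ?_, ?_, ?_, ?_, ?_⟩
  · intro a ha
    have h1 := h'.e1 a ha
    rw [hM, c1_ad, if_neg ha, add_zero, aalg_c1_mul] at h1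
    rw [c1_smul_left, c1_smul_right, Pi.smul_apply, smul_eq_mul, q_smul, q_smul,
      div_mul_eq_mul_div, eq_div_iff hθ]
    linear_combination (r * t ^ 2 * k ^ 2) * h1
  · intro b hb
    have h1 := h'.e2 b hb
    rw [hM, c2_ad, if_neg hb, add_zero, aalg_c2_mul] at h1
    rw [c2_smul_left, c2_smul_right, Pi.smul_apply, smul_eq_mul, q_smul, q_smul,
      div_mul_eq_mul_div, eq_div_iff hθ]
    linear_combination (r ^ 2 * t * k ^ 2) * h1
  · intro i hi
    have h1 := h'.e3 i hi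
    rw [hM, c3_ad, aalg_c3_mul, h'.nu, h'.nv] at h1
    rw [c3_smul_left, c3_smul_right, Pi.smul_apply, smul_eq_mul, q_smul, q_smul,
      div_mul_eq_mul_div, eq_div_iff hθ]
    by_cases h2 : i = c
    · rw [if_pos h2] at h1 ⊢
      push_cast at h1
      linear_combination (r ^ 2 * t ^ 2 * k) * h1
    · rw [if_neg h2] at h1 ⊢
      linear_combination (r ^ 2 * t ^ 2 * k) * h1
  · rw [mul_div_cancel₀ _ hθ]
  · rw [mul_div_cancel₀ _ hθ]
  · rw [mul_div_cancel₀ _ hθ]
  · rw [Pi.smul_apply, smul_eq_mul, h'.nw]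
    ring
  · rw [Pi.smul_apply, Pi.smul_apply, smul_eq_mul, smul_eq_mul, h'.nu, h'.nv]
    ring

end

end Pool.Agent.MPb0eR
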