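import Mathlib

/-!
# MP_b0e20b_ag, project R: injectivity is an open condition
-/

set_option autoImplicit false

open scoped Topology

namespace Pool.Agent.MPb0eR

/-- Injectivity is an open condition, for a family `D z m : E → F` of homogeneous maps, jointly
continuous in all arguments.

Proof. Let `S` be the unit sphere of `E` (compact; if `E` is trivial there is nothing to prove). For
all `h ∈ S`, `D z0 m0 h ≠ 0`, hence `D z m h' ≠ 0` for `((z, m), h')` near `((z0, m0), h)`; by
compactness (`IsCompact.eventually_forall_of_forall_eventually`) `D z m h ≠ 0` for all `h ∈ S` and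
all `(z, m)` near `(z0, m0)`. If `D z m h = 0` with `h ≠ 0`, then `D z m ((1/‖h‖) • h) = 0`. -/
theorem rigid {Z E F : Type} [TopologicalSpace Z] [NormedAddCommGroup E] [NormedSpace ℝ E]
    [FiniteDimensional ℝ E] [NormedAddCommGroup F] [NormedSpace ℝ F] (D : Z → E → E → F)
    (hc : Continuous fun x : Z × E × E => D x.1 x.2.1 x.2.2)
    (hh : ∀ z m (r : ℝ) h, D z m (r • h) = r • D z m h) (z0 : Z) (m0 : E)
    (hk : ∀ h, D z0 m0 h = 0 → h = 0) :
    ∀ᶠ x : Z × E in 𝓝 (z0, m0), ∀ h, D x.1 x.2 h = 0 → h = 0 := by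
  have hS : IsCompact (Metric.sphere (0 : E) 1) := isCompact_sphere 0 1
  have key : ∀ᶠ x : Z × E in 𝓝 (z0, m0), ∀ h ∈ Metric.sphere (0 : E) 1, D x.1 x.2 h ≠ 0 := by
    refine hS.eventually_forall_of_forall_eventually ?_
    intro h hh1
    have h0 : h ≠ 0 := by
      intro h0
      rw [h0] at hh1
      simp at hh1
    have hne : D z0 m0 h ≠ 0 := fun e => h0 (hk h e)
    have hc2 : Continuous fun x : (Z × E) × E => D x.1.1 x.1.2 x.2 := by
      have : (fun x : (Z × E) × E => D x.1.1 x.1.2 x.2)
          = (fun x : Z × E × E => D x.1 x.2.1 x.2.2) ∘ fun x : (Z × E) × E =>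
            (x.1.1, x.1.2, x.2) := rfl
      rw [this]
      exact hc.comp (by fun_prop)
    exact hc2.continuousAt.eventually_ne hne
  filter_upwards [key] with x hx h hD
  by_contra h0
  have hn : ‖h‖ ≠ 0 := norm_ne_zero_iff.mpr h0
  refine hx ((1 / ‖h‖) • h) ?_ ?_
  · rw [mem_sphere_zero_iff_norm, norm_smul, norm_div, norm_one, norm_norm]
    exact one_div_mul_cancel hn
  · rw [hh, hD, smul_zero]

end Pool.Agent.MPb0eR
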