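import Mathlib
import Pool.Agent.Lib.MP_b0e20b_ag_R.Rig
import Pool.Agent.Lib.MP_b0e20b_ag_R.ADefs

/-!
# MP_b0e20b_ag, project R: rigidity of quadratic systems
-/

set_option autoImplicit false

open scoped BigOperators Topology
open Filter

namespace Pool.Agent.MPb0eR

/-- Solutions of a quadratic system which converge to a real nondegenerate solution are eventually real
and nondegenerate; `σ` is the complex conjugation.

Proof (compare `loc_fin`). Let `D z m h = b z m h + b z h m + l z h`. `rigid` for `D` at `(z0, p0)`: for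
all `(z, m)` near `(z0, p0)` the kernel of `D z m` is trivial. Now `p n → p0` and
`σ (p n) → σ p0 = p0`, so for most `n` this holds for `(z n, p n)` (second claim) and for
`(z n, m)`, `m = (1 / 2) • (p n + σ (p n))`. By bilinearity
`D (z n) m (p n - σ (p n)) = (b p p + l p) - (b (σ p) (σ p) + l (σ p)) = 0`, so `p n = σ (p n)`. -/
theorem IsQ.fin {Z E F : Type} [TopologicalSpace Z] [NormedAddCommGroup E] [NormedSpace ℝ E]
    [FiniteDimensional ℝ E] [NormedAddCommGroup F] [NormedSpace ℝ F] {b : Z → E → E → F}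
    {l : Z → E → F} (hQ : IsQ b l) (k : F) (σ : E → E) (hσc : Continuous σ)
    (hσ : ∀ z p, b z p p + l z p + k = 0 → b z (σ p) (σ p) + l z (σ p) + k = 0)
    (z : ℕ → Z) (z0 : Z) (p : ℕ → E) (p0 : E) (hz : Tendsto z uf (𝓝 z0))
    (hp : Tendsto p uf (𝓝 p0)) (hs : ∀ᶠ n in uf, b (z n) (p n) (p n) + l (z n) (p n) + k = 0)
    (hr : σ p0 = p0) (hk : ∀ h, b z0 p0 h + b z0 h p0 + l z0 h = 0 → h = 0) :
    ∀ᶠ n in uf, σ (p n) = p n ∧
      ∀ h, b (z n) (p n) h + b (z n) h (p n) + l (z n) h = 0 → h = 0 := by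
  have hrig := rigid (fun z m h => b z m h + b z h m + l z h)
    (by
      have h1 : Continuous fun x : Z × E × E => b x.1 x.2.2 x.2.1 := by
        have e : (fun x : Z × E × E => b x.1 x.2.2 x.2.1)
            = (fun x : Z × E × E => b x.1 x.2.1 x.2.2) ∘ fun x : Z × E × E =>
              (x.1, x.2.2, x.2.1) := rfl
        rw [e]
        exact hQ.cb.comp (by fun_prop)
      have h2 : Continuous fun x : Z × E × E => l x.1 x.2.2 := by
        have e : (fun x : Z × E × E => l x.1 x.2.2)
            = (fun x : Z × E => l x.1 x.2) ∘ fun x : Z × E × E => (x.1, x.2.2) := rfl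
        rw [e]
        exact hQ.cl.comp (by fun_prop)
      exact (hQ.cb.add h1).add h2)
    (fun z m r h => by
      show b z m (r • h) + b z (r • h) m + l z (r • h) = r • (b z m h + b z h m + l z h)
      rw [hQ.sr, hQ.sl, hQ.ls, smul_add, smul_add]) z0 p0 hk
  have hcj : Tendsto (fun n => σ (p n)) uf (𝓝 p0) := by
    have h1 := (hσc.tendsto p0).comp hp
    rw [hr] at h1
    exact h1
  have hm : Tendsto (fun n => (1 / 2 : ℝ) • (p n + σ (p n))) uf (𝓝 p0) := by
    have h1 := (hp.add hcj).const_smul (1 / 2 : ℝ)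
    have h2 : (1 / 2 : ℝ) • (p0 + p0) = p0 := by
      rw [← two_smul ℝ p0, smul_smul]
      norm_num
    rw [h2] at h1
    exact h1
  have e1 := (hz.prodMk_nhds hp).eventually hrig
  have e2 := (hz.prodMk_nhds hm).eventually hrig
  filter_upwards [hs, e1, e2] with n h0 h1 h2
  refine ⟨?_, h1⟩
  have h3 := hσ (z n) (p n) h0
  have h4 : b (z n) (p n) (p n) + l (z n) (p n) =
      b (z n) (σ (p n)) (σ (p n)) + l (z n) (σ (p n)) :=
    add_right_cancel (h0.trans h3.symm)
  have h5 := h2 (p n + (-1 : ℝ) • σ (p n)) (by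
    show b (z n) ((1 / 2 : ℝ) • (p n + σ (p n))) (p n + (-1 : ℝ) • σ (p n))
      + b (z n) (p n + (-1 : ℝ) • σ (p n)) ((1 / 2 : ℝ) • (p n + σ (p n)))
      + l (z n) (p n + (-1 : ℝ) • σ (p n)) = 0
    simp only [hQ.sl, hQ.sr, hQ.al, hQ.ar, hQ.la, hQ.ls, smul_add, smul_smul]
    have h6 : l (z n) (p n) = b (z n) (σ (p n)) (σ (p n)) + l (z n) (σ (p n))
        - b (z n) (p n) (p n) := by
      rw [← h4]
      abel
    rw [h6]
    module)
  have h7 : p n - σ (p n) = 0 := by
    rw [← h5]
    module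
  exact (sub_eq_zero.1 h7).symm

end Pool.Agent.MPb0eR
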