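import Mathlib
import Pool.Agent.Lib.MP_b0e20b_ag_R.AAlg

/-!
# MP_b0e20b_ag, project R: the possible limits of the third level
-/

set_option autoImplicit false

open scoped BigOperators Topology
open Filter

namespace Pool.Agent.MPb0eR

section

variable {A B C : Type} [Fintype A] [Fintype B] [Fintype C] [DecidableEq A] [DecidableEq B]
  [DecidableEq C] {T : ℕ → A → B → C → ℝ} {T0 : A → B → C → ℝ} {oA : A} {oB : B} {c oC : C}
  {L : ℕ → ℝ} {s : ℝ} {ia : A} {ib : B} {ic : C} {u : ℕ → A → ℂ} {v : ℕ → B → ℂ}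
  {w : ℕ → C → ℂ} {α β γ θ ν : ℕ → ℂ}

private theorem clsA_zero {k a b : ℕ → ℂ} {k0 : ℂ} (hk : Tendsto k uf (𝓝 k0))
    (ha : Tendsto (fun n => ‖a n‖) uf atTop) (he : ∀ n, k n = a n * b n) :
    Tendsto b uf (𝓝 0) := by
  rw [tendsto_zero_iff_norm_tendsto_zero]
  have h3 : Tendsto (fun n => ‖k n‖ / ‖a n‖) uf (𝓝 0) := hk.norm.div_atTop ha
  refine h3.congr' ?_
  filter_upwards [ha.eventually_gt_atTop 0] with n hn
  rw [he n, norm_mul, mul_div_cancel_left₀ _ hn.ne']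

private theorem clsA_nc {k : ℕ → ℂ} {k0 : ℂ} (hk : Tendsto k uf (𝓝 k0))
    (h : Tendsto (fun n => ‖k n‖) uf atTop) : False :=
  not_tendsto_nhds_of_tendsto_atTop h _ hk.norm

private theorem clsA_mul {x y : ℕ → ℂ} {x0 : ℂ} (hx : Tendsto x uf (𝓝 x0)) (hx0 : x0 ≠ 0)
    (hy : Tendsto (fun n => ‖y n‖) uf atTop) : Tendsto (fun n => ‖x n * y n‖) uf atTop := by
  simp only [norm_mul]
  exact hx.norm.pos_mul_atTop (norm_pos_iff.2 hx0) hy

omit [Fintype A] [Fintype B] [DecidableEq A] [DecidableEq B] in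
private theorem clsA_MC (c o : C) :
    MC c o 0 = Finset.univ ∧ MC c o 1 = Finset.univ.erase o ∧
      MC c o 2 = (Finset.univ.erase o).erase c := by
  refine ⟨?_, ?_, ?_⟩
  · simp [MC]
  · simp [MC]
  · rw [MC, if_neg (by decide), if_neg (by decide)]

/-- If `α u` is bounded outside of `o` and `‖α‖ → ∞`, then the limit is concentrated at `o`. -/
private theorem clsA_conc {A : Type} [Fintype A] {u : ℕ → A → ℂ} {u0 : A → ℂ}
    (hu : Tendsto u uf (𝓝 u0)) {o ia : A} {k : ℕ → A → ℂ} {k0 : A → ℂ}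
    (hk : ∀ a, a ≠ o → Tendsto (fun n => k n a) uf (𝓝 (k0 a))) {α : ℕ → ℂ}
    (hα : Tendsto (fun n => ‖α n‖) uf atTop) (he : ∀ n, ∀ a, a ≠ o → k n a = α n * u n a)
    (hn : Nrm u0 ia) : (∀ a, a ≠ o → u0 a = 0) ∧ u0 o = 1 ∧ q u0 = 1 := by
  have h0 : ∀ a, a ≠ o → u0 a = 0 := fun a ha =>
    tendsto_nhds_unique ((tendsto_pi_nhds.1 hu) a) (clsA_zero (hk a ha) hα fun n => he n a ha)
  have h1 : ia = o := by
    by_contra hne
    have h2 := h0 ia hne
    rw [hn.1] at h2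
    exact one_ne_zero h2
  have h2 : u0 o = 1 := by
    rw [← h1]
    exact hn.1
  refine ⟨h0, h2, ?_⟩
  rw [q, Finset.sum_eq_single o]
  · rw [h2, one_pow]
  · intro b _ hb
    rw [h0 b hb]
    ring
  · intro h'
    exact absurd (Finset.mem_univ _) h'

private theorem clsA_big {α β x y : ℕ → ℂ} {x0 y0 : ℂ} (hx : Tendsto x uf (𝓝 x0))
    (hx0 : x0 ≠ 0) (hy : Tendsto y uf (𝓝 y0)) (h : ∀ n, α n * x n = β n * y n)
    (hα : Tendsto (fun n => ‖α n‖) uf atTop) : Tendsto (fun n => ‖β n‖) uf atTop := by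
  rcases ualt β with ⟨β0, hβ⟩ | hβ
  · exfalso
    have h1 := clsA_mul hx hx0 hα
    refine clsA_nc ((hβ.mul hy).congr fun n => ?_) h1
    rw [← h n, mul_comm]
  · exact hβ

omit [DecidableEq A] in
private theorem clsA_sup {u0 : A → ℂ} {o : A} [DecidableEq A] (h : u0 o = 0) :
    Sup (Finset.univ.erase o) u0 := by
  intro a ha
  by_cases h1 : a = o
  · rw [h1, h]
  · exact absurd (Finset.mem_erase.2 ⟨h1, Finset.mem_univ a⟩) ha

private theorem clsA_ite {k : C} {ν0 : ℂ} (hν : Tendsto ν uf (𝓝 ν0)) :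
    Tendsto (fun n => if k = c then ν n else 0) uf (𝓝 (if k = c then ν0 else 0)) := by
  by_cases h4 : k = c
  · simp only [if_pos h4]
    exact hν
  · simp only [if_neg h4]
    exact tendsto_const_nhds

/-- The equations of the limit imply `θ0 ≠ 0`. -/
private theorem clsA_bt {SA : Finset A} {SB : Finset B} {u0 : A → ℂ} {v0 : B → ℂ} {w0 : C → ℂ}
    {α0 β0 γ0 θ0 ν0 : ℂ} (hf : ∀ y, FR T0 SA SB (MC c oC y)) (su : Sup SA u0) (sv : Sup SB v0)
    (nu : u0 ≠ 0) (nv : v0 ≠ 0) (nw : w0 ≠ 0)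
    (E1 : ∀ a ∈ SA, c1 T0 v0 w0 a = α0 * u0 a) (E2 : ∀ b ∈ SB, c2 T0 u0 w0 b = β0 * v0 b)
    (E3 : ∀ k, k ≠ oC → c3 T0 u0 v0 k + (if k = c then ν0 else 0) = γ0 * w0 k)
    (E4 : θ0 * α0 = q v0 * q w0) (E5 : θ0 * β0 = q u0 * q w0) (E6 : θ0 * γ0 = q u0 * q v0)
    (E7 : w0 oC * ν0 = s * θ0)
    (E8 : γ0 * w0 oC ^ 2 = w0 oC * c3 T0 u0 v0 oC - ν0 * w0 c) :
    BT T0 SA SB c oC s u0 v0 w0 α0 β0 γ0 θ0 ν0 := by
  refine ⟨su, sv, ?_, E1, E2, E3, E4, E5, E6, E7, E8⟩
  intro h0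
  have key : ∀ y, ¬ Tup T0 SA SB (MC c oC y) u0 v0 w0 α0 β0 γ0 := by
    intro y ht
    have hok := hf y u0 v0 w0 α0 β0 γ0 ht nu nv nw
    rw [h0, zero_mul] at E4
    exact mul_ne_zero (q_ne hok.rv nv) (q_ne hok.rw' nw) E4.symm
  have E7' : w0 oC * ν0 = 0 := by rw [E7, h0, mul_zero]
  by_cases hν0 : ν0 = 0
  · subst hν0
    have E3' : ∀ k, k ≠ oC → c3 T0 u0 v0 k = γ0 * w0 k := by
      intro k hk
      have h1 := E3 k hk
      rwa [ite_self, add_zero] at h1
    by_cases hwo : w0 oC = 0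
    · apply key 1
      rw [(clsA_MC c oC).2.1]
      exact ⟨su, sv, clsA_sup hwo, E1, E2, fun k hk => E3' k (Finset.ne_of_mem_erase hk)⟩
    · apply key 0
      rw [(clsA_MC c oC).1]
      refine ⟨su, sv, fun k hk => absurd (Finset.mem_univ k) hk, E1, E2, fun k _ => ?_⟩
      by_cases h1 : k = oC
      · rw [h1]
        rw [zero_mul, sub_zero, pow_two, ← mul_assoc] at E8
        refine mul_left_cancel₀ hwo ?_
        rw [← E8]
        ring
      · exact E3' k h1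
  · have hwo : w0 oC = 0 := (mul_eq_zero.1 E7').resolve_right hν0
    have hwc : w0 c = 0 := by
      rw [hwo] at E8
      have h1 : ν0 * w0 c = 0 := by linear_combination E8
      exact (mul_eq_zero.1 h1).resolve_left hν0
    apply key 2
    rw [(clsA_MC c oC).2.2]
    refine ⟨su, sv, ?_, E1, E2, fun k hk => ?_⟩
    · intro k hk
      by_cases h1 : k = oC
      · rw [h1, hwo]
      · by_cases h2 : k = c
        · rw [h2, hwc]
        · exact absurd (Finset.mem_erase.2 ⟨h2, Finset.mem_erase.2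
            ⟨h1, Finset.mem_univ k⟩⟩) hk
    · have h1 := E3 k (Finset.ne_of_mem_erase (Finset.mem_of_mem_erase hk))
      rwa [if_neg (Finset.ne_of_mem_erase hk), add_zero] at h1

/-- The possible limits.

Proof. The normalised vectors converge to normalised vectors; the contractions `c1 (T n) ..` etc.
converge (`continuous_c1T`). Let `x = u n oA`, `y = v n oB`, `z = w n oC`, `Q = α q(u) = β q(v) =
γ q(w)` (`AT.qq`), `t = tr (T n) u v w` (it converges). `AT.trace`: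
(T1) `Q - α x² = t - x c1(oA)`, (T2) `Q - β y² = t - y c2(oB)`,
(T3) `Q - γ z² = t - z c3(oC) + ν w(c)`. For `a ≠ oA` `α u(a) = c1(a)` is bounded, for `b ≠ oB`
`β v(b)` is bounded, for `k ≠ oC, c` `γ w(k)` is bounded.

(0) If `‖α‖ → ∞`, then `u0 a = 0` for `a ≠ oA`, so `ia = oA`, `x = 1`, `q(u) → 1` and `‖Q‖ → ∞`, so
`‖β‖ → ∞` (`q(v)` is bounded) and `v0 b = 0` for `b ≠ oB`, `y = 1`. In the same way if
`‖β‖ → ∞`. So either both `‖α‖, ‖β‖ → ∞` or `α`, `β` converge (`ualt`).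

(I) Suppose `‖ν‖ → ∞`. `γ w(c) = c3(c) + ν`, so `‖γ‖ → ∞` and `w0 k = 0` for `k ≠ oC, c`.
(I a) `‖α‖, ‖β‖ → ∞`: `θ γ = q(u) q(v) → 1` (`e6`), so `θ → 0`, and `z = s θ / ν → 0`
(`e7`): `w0` is concentrated at `c`: last case.
(I b) `α`, `β` converge: `Q` is bounded, so `q(w) = Q / γ → 0`: `w0 oC ^ 2 + w0 c ^ 2 = 0`, so
`w0 oC = ± i w0 c ≠ 0`; `θ = ν z / s`, so `‖θ‖ → ∞`; `e4`: `α → 0`, so `c1 T0 v0 w0 a = 0` for
`a ≠ oA`. By `hV` `w0` is real up to a factor, contradiction.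

(II) `ν → ν0`. Then `s L x y = ν` is bounded, so `x y → 0`; so not both `x = y = 1`, and `α`, `β`
converge (0), `Q` is bounded. `θ = ν z / s` converges to `θ0`. If `‖γ‖ → ∞`, then
`γ w(c) = c3(c) + ν` is bounded too, so `w0` is concentrated at `oC`, `q(w) → 1`, `‖Q‖ → ∞`,
contradiction. So `γ` converges. All equations `e1`-`e7` pass to the limit. Let `x0, y0, z0` be the
limits of `x, y, z`; `x0 y0 = 0`. By (T1), (T2), as `x0 = 0` or `y0 = 0`, `Q0 = t0` in the limit. So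
(T1) in the limit is `α0 x0² = x0 c1(oA)`: if `x0 ≠ 0` the equation `e1` holds at `oA`; (T2): if
`y0 ≠ 0` the equation `e2` holds at `oB`; (T3): `γ0 z0² = z0 c3(oC) - ν0 w0(c)`: this is `e8`.

(II a) `θ0 ≠ 0`: the limit is a solution of the second level, for the masks `(univ.erase oA,
univ.erase oB)` if `x0 = y0 = 0`, `(univ, univ.erase oB)` if `x0 ≠ 0`, `(univ.erase oA, univ)` if
`y0 ≠ 0`.
(II b) `θ0 = 0`: by `e7` `z0 ν0 = 0`. If `ν0 = 0`, `z0 ≠ 0`: by (T3) `e3` holds at `oC`, so the limit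
is a singular tuple of the mask with full last factor. If `ν0 = 0`, `z0 = 0`: a singular tuple of
the mask without `oC`. If `ν0 ≠ 0`, `z0 = 0`: by (T3) `w0 c = 0`, a singular tuple of the mask without
`oC`, `c`. (The first two masks as in (II a).) By `f12`, `f2`, `f1` its vectors are real up to
factors, so `q u0, q v0, q w0 ≠ 0` (`q_ne`), but `e4` in the limit says `q v0 * q w0 = θ0 α0 = 0`,
contradiction. -/
theorem clsA (hco : c ≠ oC) (hs : 0 < s)
    (f12 : ∀ y, FR T0 (Finset.univ.erase oA) (Finset.univ.erase oB) (MC c oC y))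
    (f2 : ∀ y, FR T0 Finset.univ (Finset.univ.erase oB) (MC c oC y))
    (f1 : ∀ y, FR T0 (Finset.univ.erase oA) Finset.univ (MC c oC y))
    (hV : VR T0 (Finset.univ.erase oA) Finset.univ Finset.univ)
    (h : SqA T T0 oA oB c oC L s ia ib ic u v w α β γ θ ν) :
    ∃ u0 v0 w0, Lv u v w u0 v0 w0 ∧ Nrm u0 ia ∧ Nrm v0 ib ∧ Nrm w0 ic ∧
      ((∃ α0 β0 γ0 θ0 ν0, Lc α β γ α0 β0 γ0 ∧ Tendsto θ uf (𝓝 θ0) ∧ Tendsto ν uf (𝓝 ν0) ∧
          (BT T0 (Finset.univ.erase oA) (Finset.univ.erase oB) c oC s u0 v0 w0 α0 β0 γ0 θ0 ν0 ∨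
            (BT T0 Finset.univ (Finset.univ.erase oB) c oC s u0 v0 w0 α0 β0 γ0 θ0 ν0 ∧
              u0 oA ≠ 0) ∨
            (BT T0 (Finset.univ.erase oA) Finset.univ c oC s u0 v0 w0 α0 β0 γ0 θ0 ν0 ∧
              v0 oB ≠ 0))) ∨
        ((∀ a, a ≠ oA → u0 a = 0) ∧ (∀ b, b ≠ oB → v0 b = 0) ∧ ∀ k, k ≠ c → w0 k = 0)) := by
  obtain ⟨hT, hL, hpos, hsol, nu, nv, nw⟩ := h
  obtain ⟨u0, hu⟩ := ulim_vec u 1 fun n a => (nu n).2 a
  obtain ⟨v0, hv⟩ := ulim_vec v 1 fun n a => (nv n).2 a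
  obtain ⟨w0, hw⟩ := ulim_vec w 1 fun n a => (nw n).2 a
  have nu0 := Nrm.lim nu hu
  have nv0 := Nrm.lim nv hv
  have nw0 := Nrm.lim nw hw
  refine ⟨u0, v0, w0, ⟨hu, hv, hw⟩, nu0, nv0, nw0, ?_⟩
  have k1 : ∀ a, Tendsto (fun n => c1 (T n) (v n) (w n) a) uf (𝓝 (c1 T0 v0 w0 a)) := fun a =>
    tendsto_pi_nhds.1 ((continuous_c1T.tendsto (T0, v0, w0)).comp
      (hT.prodMk_nhds (hv.prodMk_nhds hw))) a
  have k2 : ∀ b, Tendsto (fun n => c2 (T n) (u n) (w n) b) uf (𝓝 (c2 T0 u0 w0 b)) := fun b =>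
    tendsto_pi_nhds.1 ((continuous_c2T.tendsto (T0, u0, w0)).comp
      (hT.prodMk_nhds (hu.prodMk_nhds hw))) b
  have k3 : ∀ k, Tendsto (fun n => c3 (T n) (u n) (v n) k) uf (𝓝 (c3 T0 u0 v0 k)) := fun k =>
    tendsto_pi_nhds.1 ((continuous_c3T.tendsto (T0, u0, v0)).comp
      (hT.prodMk_nhds (hu.prodMk_nhds hv))) k
  have hu' : ∀ a, Tendsto (fun n => u n a) uf (𝓝 (u0 a)) := tendsto_pi_nhds.1 hu
  have hv' : ∀ b, Tendsto (fun n => v n b) uf (𝓝 (v0 b)) := tendsto_pi_nhds.1 hv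
  have hw' : ∀ k, Tendsto (fun n => w n k) uf (𝓝 (w0 k)) := tendsto_pi_nhds.1 hw
  have lqu := lim_q hu
  have lqv := lim_q hv
  have lqw := lim_q hw
  have qq1 : ∀ n, α n * q (u n) = β n * q (v n) := fun n => (hsol n).qq.1
  have qq2 : ∀ n, α n * q (u n) = γ n * q (w n) := fun n => (hsol n).qq.2
  have bigα : Tendsto (fun n => ‖α n‖) uf atTop →
      (∀ a, a ≠ oA → u0 a = 0) ∧ u0 oA = 1 ∧ q u0 = 1 :=
    fun h => clsA_conc hu (fun a _ => k1 a) h (fun n a ha => (hsol n).e1 a ha) nu0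
  have bigβ : Tendsto (fun n => ‖β n‖) uf atTop →
      (∀ b, b ≠ oB → v0 b = 0) ∧ v0 oB = 1 ∧ q v0 = 1 :=
    fun h => clsA_conc hv (fun b _ => k2 b) h (fun n b hb => (hsol n).e2 b hb) nv0
  have alt : (∃ α0 β0, Tendsto α uf (𝓝 α0) ∧ Tendsto β uf (𝓝 β0)) ∨
      (Tendsto (fun n => ‖α n‖) uf atTop ∧ Tendsto (fun n => ‖β n‖) uf atTop) := by
    rcases ualt α with ⟨α0, hα⟩ | hα
    · rcases ualt β with ⟨β0, hβ⟩ | hβ
      · exact Or.inl ⟨α0, β0, hα, hβ⟩
      · exfalso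
        have h1 : q v0 ≠ 0 := by
          rw [(bigβ hβ).2.2]
          exact one_ne_zero
        exact clsA_nc hα (clsA_big lqv h1 lqu (fun n => (qq1 n).symm) hβ)
    · have h1 : q u0 ≠ 0 := by
        rw [(bigα hα).2.2]
        exact one_ne_zero
      exact Or.inr ⟨hα, clsA_big lqu h1 lqv qq1 hα⟩
  rcases ualt ν with ⟨ν0, hν⟩ | hν
  · left
    have hsL : Tendsto (fun n => ‖(s : ℂ) * (L n : ℂ)‖) uf atTop := by
      refine (hL.const_mul_atTop hs).congr fun n => ?_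
      rw [norm_mul, Complex.norm_real, Complex.norm_real, Real.norm_of_nonneg hs.le,
        Real.norm_of_nonneg (hpos n).le]
    have hxy : u0 oA * v0 oB = 0 :=
      tendsto_nhds_unique ((hu' oA).mul (hv' oB)) (clsA_zero hν hsL fun n => (hsol n).e9)
    obtain ⟨α0, β0, hα, hβ⟩ := alt.resolve_right (by
      rintro ⟨h1, h2⟩
      rw [(bigα h1).2.1, (bigβ h2).2.1, one_mul] at hxy
      exact one_ne_zero hxy)
    have hsC : (s : ℂ) ≠ 0 := Complex.ofReal_ne_zero.2 hs.ne'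
    obtain ⟨θ0, hθ⟩ : ∃ θ0, Tendsto θ uf (𝓝 θ0) := by
      refine ⟨_, (((hw' oC).mul hν).div_const (s : ℂ)).congr fun n => ?_⟩
      rw [(hsol n).e7, mul_div_cancel_left₀ _ hsC]
    obtain ⟨γ0, hγ⟩ : ∃ γ0, Tendsto γ uf (𝓝 γ0) := by
      rcases ualt γ with h1 | hγ
      · exact h1
      · exfalso
        have h1 := clsA_conc (k := fun n k => c3 (T n) (u n) (v n) k + if k = c then ν n else 0)
          hw (fun k _ => (k3 k).add (clsA_ite (c := c) (k := k) hν)) hγ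
          (fun n k hk => (hsol n).e3 k hk) nw0
        have h2 : q w0 ≠ 0 := by
          rw [h1.2.2]
          exact one_ne_zero
        exact clsA_nc hα (clsA_big lqw h2 lqu (fun n => (qq2 n).symm) hγ)
    have E1 : ∀ a, a ≠ oA → c1 T0 v0 w0 a = α0 * u0 a := fun a ha =>
      tendsto_nhds_unique ((k1 a).congr fun n => (hsol n).e1 a ha) (hα.mul (hu' a))
    have E2 : ∀ b, b ≠ oB → c2 T0 u0 w0 b = β0 * v0 b := fun b hb =>
      tendsto_nhds_unique ((k2 b).congr fun n => (hsol n).e2 b hb) (hβ.mul (hv' b))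
    have E3 : ∀ k, k ≠ oC → c3 T0 u0 v0 k + (if k = c then ν0 else 0) = γ0 * w0 k :=
      fun k hk => tendsto_nhds_unique
        (((k3 k).add (clsA_ite (c := c) (k := k) hν)).congr fun n => (hsol n).e3 k hk)
        (hγ.mul (hw' k))
    have E4 : θ0 * α0 = q v0 * q w0 :=
      tendsto_nhds_unique ((hθ.mul hα).congr fun n => (hsol n).e4) (lqv.mul lqw)
    have E5 : θ0 * β0 = q u0 * q w0 :=
      tendsto_nhds_unique ((hθ.mul hβ).congr fun n => (hsol n).e5) (lqu.mul lqw)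
    have E6 : θ0 * γ0 = q u0 * q v0 :=
      tendsto_nhds_unique ((hθ.mul hγ).congr fun n => (hsol n).e6) (lqu.mul lqv)
    have E7 : w0 oC * ν0 = s * θ0 :=
      tendsto_nhds_unique (((hw' oC).mul hν).congr fun n => (hsol n).e7)
        (tendsto_const_nhds.mul hθ)
    have R1 : α0 * u0 oA ^ 2 - u0 oA * c1 T0 v0 w0 oA =
        β0 * v0 oB ^ 2 - v0 oB * c2 T0 u0 w0 oB :=
      tendsto_nhds_unique (((hα.mul ((hu' oA).pow 2)).sub ((hu' oA).mul (k1 oA))).congr
        fun n => ((hsol n).rel hco).1) ((hβ.mul ((hv' oB).pow 2)).sub ((hv' oB).mul (k2 oB)))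
    have R2 : γ0 * w0 oC ^ 2 - w0 oC * c3 T0 u0 v0 oC + ν0 * w0 c =
        α0 * u0 oA ^ 2 - u0 oA * c1 T0 v0 w0 oA :=
      tendsto_nhds_unique ((((hγ.mul ((hw' oC).pow 2)).sub ((hw' oC).mul (k3 oC))).add
        (hν.mul (hw' c))).congr fun n => ((hsol n).rel hco).2)
        ((hα.mul ((hu' oA).pow 2)).sub ((hu' oA).mul (k1 oA)))
    have R0 : α0 * u0 oA ^ 2 - u0 oA * c1 T0 v0 w0 oA = 0 := by
      rcases mul_eq_zero.1 hxy with h1 | h1
      · rw [h1]
        ring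
      · rw [R1, h1]
        ring
    have E8 : γ0 * w0 oC ^ 2 = w0 oC * c3 T0 u0 v0 oC - ν0 * w0 c := by
      linear_combination R2 + R0
    refine ⟨α0, β0, γ0, θ0, ν0, ⟨hα, hβ, hγ⟩, hθ, hν, ?_⟩
    by_cases hx : u0 oA = 0
    · by_cases hy : v0 oB = 0
      · left
        exact clsA_bt f12 (clsA_sup hx) (clsA_sup hy) nu0.ne nv0.ne nw0.ne
          (fun a ha => E1 a (Finset.ne_of_mem_erase ha))
          (fun b hb => E2 b (Finset.ne_of_mem_erase hb)) E3 E4 E5 E6 E7 E8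
      · right
        right
        refine ⟨clsA_bt f1 (clsA_sup hx) (fun b hb => absurd (Finset.mem_univ b) hb) nu0.ne
          nv0.ne nw0.ne (fun a ha => E1 a (Finset.ne_of_mem_erase ha)) (fun b _ => ?_)
          E3 E4 E5 E6 E7 E8, hy⟩
        by_cases h1 : b = oB
        · rw [h1]
          refine mul_left_cancel₀ hy ?_
          linear_combination R1 - R0
        · exact E2 b h1
    · have hy : v0 oB = 0 := (mul_eq_zero.1 hxy).resolve_left hx
      right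
      left
      refine ⟨clsA_bt f2 (fun a ha => absurd (Finset.mem_univ a) ha) (clsA_sup hy) nu0.ne
        nv0.ne nw0.ne (fun a _ => ?_) (fun b hb => E2 b (Finset.ne_of_mem_erase hb))
        E3 E4 E5 E6 E7 E8, hx⟩
      by_cases h1 : a = oA
      · rw [h1]
        refine mul_left_cancel₀ hx ?_
        linear_combination - R0
      · exact E1 a h1
  · have hγ : Tendsto (fun n => ‖γ n‖) uf atTop := by
      rcases ualt γ with ⟨γ0, hγ⟩ | hγ
      · exfalso
        have h1 := (hγ.mul (hw' c)).sub (k3 c)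
        refine clsA_nc (h1.congr fun n => ?_) hν
        have h2 := (hsol n).e3 c hco
        rw [if_pos rfl] at h2
        rw [← h2]
        ring
      · exact hγ
    have hk0 : ∀ k, k ≠ oC → k ≠ c → w0 k = 0 := by
      intro k h1 h2
      refine tendsto_nhds_unique (hw' k) (clsA_zero (k3 k) hγ fun n => ?_)
      have h3 := (hsol n).e3 k h1
      rwa [if_neg h2, add_zero] at h3
    rcases alt with ⟨α0, β0, hα, hβ⟩ | ⟨hα, hβ⟩
    · exfalso
      have hq0 : q w0 = 0 :=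
        tendsto_nhds_unique lqw (clsA_zero (hα.mul lqu) hγ qq2)
      have hwo : w0 oC ≠ 0 := by
        intro h0
        have h1 : q w0 = w0 c ^ 2 := by
          rw [q, Finset.sum_eq_single c]
          · intro k _ hk
            by_cases h2 : k = oC
            · rw [h2, h0]
              ring
            · rw [hk0 k h2 hk]
              ring
          · intro h2
            exact absurd (Finset.mem_univ c) h2
        rw [hq0] at h1
        have h2 : w0 c = 0 := pow_eq_zero_iff (two_ne_zero) |>.1 h1.symm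
        apply nw0.ne
        funext k
        by_cases h3 : k = oC
        · rw [h3, h0]
          rfl
        · by_cases h4 : k = c
          · rw [h4, h2]
            rfl
          · rw [hk0 k h3 h4]
            rfl
      have hθ : Tendsto (fun n => ‖θ n‖) uf atTop := by
        rcases ualt θ with ⟨θ0, hθ⟩ | hθ
        · exfalso
          have h1 : Tendsto (fun n => (s : ℂ) * θ n) uf (𝓝 (s * θ0)) :=
            tendsto_const_nhds.mul hθ
          exact clsA_nc (h1.congr fun n => ((hsol n).e7).symm) (clsA_mul (hw' oC) hwo hν)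
        · exact hθ
      have hα0 : α0 = 0 :=
        tendsto_nhds_unique hα (clsA_zero (lqv.mul lqw) hθ fun n => ((hsol n).e4).symm)
      have hz : ∀ a ∈ Finset.univ.erase oA, c1 T0 v0 w0 a = 0 := by
        intro a ha
        have h1 : c1 T0 v0 w0 a = α0 * u0 a := tendsto_nhds_unique
          ((k1 a).congr fun n => (hsol n).e1 a (Finset.ne_of_mem_erase ha)) (hα.mul (hu' a))
        rw [h1, hα0, zero_mul]
      have hr := (hV v0 w0 (fun b hb => absurd (Finset.mem_univ b) hb)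
        (fun k hk => absurd (Finset.mem_univ k) hk) hz nv0.ne nw0.ne).2.1
      exact q_ne hr nw0.ne hq0
    · right
      refine ⟨(bigα hα).1, (bigβ hβ).1, fun k hk => ?_⟩
      by_cases h1 : k = oC
      · rw [h1]
        have hθ : Tendsto θ uf (𝓝 0) := by
          refine clsA_zero (lqu.mul lqv) hγ fun n => ?_
          rw [← (hsol n).e6, mul_comm]
        have h2 : Tendsto (fun n => (s : ℂ) * θ n) uf (𝓝 (s * 0)) :=
          tendsto_const_nhds.mul hθ
        refine tendsto_nhds_unique (hw' oC) (clsA_zero h2 hν fun n => ?_)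
        rw [← (hsol n).e7, mul_comm]
      · exact hk0 k h1 hk

end

end Pool.Agent.MPb0eR
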