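import Mathlib
import Pool.Agent.Lib.MP_b0e20b_ag_R.AAlg

/-!
# MP_b0e20b_ag, project R: the local system of the third level
-/

set_option autoImplicit false

open scoped BigOperators Topology
open Filter

namespace Pool.Agent.MPb0eR

section

variable {A B C : Type} [Fintype A] [Fintype B] [Fintype C] [DecidableEq A] [DecidableEq B]
  [DecidableEq C] (oA : A) (oB : B) (c oC : C) (s : ℝ) (ia : A) (ib : B) (ic : C)

private theorem aq_real {X : Type} (t : ℝ) (u : X → ℂ) : t • u = (t : ℂ) • u := by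
  funext a
  simp only [Pi.smul_apply, Complex.real_smul, smul_eq_mul]

omit [Fintype A] in
private theorem aq_scl_add (x y : ℝ) (u u' : A → ℂ) :
    scl oA x y (u + u') = scl oA x y u + scl oA x y u' := by
  funext k
  simp only [scl, Pi.add_apply, mul_add]

omit [Fintype A] in
private theorem aq_scl_smul (x y : ℝ) (t : ℂ) (u : A → ℂ) :
    scl oA x y (t • u) = t • scl oA x y u := by
  funext k
  simp only [scl, Pi.smul_apply, smul_eq_mul]
  ring

omit [Fintype A] in
private theorem aq_scl_cj (x y : ℝ) (u : A → ℂ) :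
    scl oA x y (cj u) = cj (scl oA x y u) := by
  funext k
  simp only [scl, cj, map_mul, Complex.conj_ofReal]

omit [Fintype A] in
private theorem aq_scl_cont {Z : Type} [TopologicalSpace Z] {f g : Z → ℝ} {h : Z → A → ℂ}
    (hf : Continuous f) (hg : Continuous g) (hh : Continuous h) :
    Continuous fun x => scl oA (f x) (g x) (h x) := by
  refine continuous_pi fun k => ?_
  have h1 : Continuous fun x => h x k := (continuous_apply k).comp hh
  have h2 : Continuous fun x => (if k = oA then f x else g x : ℝ) := by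
    split_ifs
    · exact hf
    · exact hg
  exact (Complex.continuous_ofReal.comp h2).mul h1

omit [Fintype C] in
private theorem aq_ha_add (x y : ℝ) (w w' : C → ℂ) :
    ha c oC x y (w + w') = ha c oC x y w + ha c oC x y w' := by
  funext k
  simp only [ha, Pi.add_apply, mul_add]

omit [Fintype C] in
private theorem aq_ha_smul (x y : ℝ) (t : ℂ) (w : C → ℂ) :
    ha c oC x y (t • w) = t • ha c oC x y w := by
  funext k
  simp only [ha, Pi.smul_apply, smul_eq_mul]
  ring

omit [Fintype C] in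
private theorem aq_ha_cj (x y : ℝ) (w : C → ℂ) :
    ha c oC x y (cj w) = cj (ha c oC x y w) := by
  funext k
  simp only [ha, cj, map_mul, Complex.conj_ofReal]

omit [Fintype C] in
private theorem aq_ha_cont {Z : Type} [TopologicalSpace Z] {f g : Z → ℝ} {h : Z → C → ℂ}
    (hf : Continuous f) (hg : Continuous g) (hh : Continuous h) :
    Continuous fun x => ha c oC (f x) (g x) (h x) := by
  refine continuous_pi fun k => ?_
  have h1 : Continuous fun x => h x k := (continuous_apply k).comp hh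
  have h2 : Continuous fun x => (if k = oC then f x else if k = c then 1 else g x : ℝ) := by
    split_ifs
    · exact hf
    · exact continuous_const
    · exact hg
  exact (Complex.continuous_ofReal.comp h2).mul h1

private theorem aq_al (z : (A → B → C → ℝ) × (Fin 11 → ℝ)) (p p' r : PA A B C) :
    bA oA oB c oC s z (p + p') r = bA oA oB c oC s z p r + bA oA oB c oC s z p' r := by
  obtain ⟨u, v, w, x⟩ := p
  obtain ⟨u', v', w', x'⟩ := p'
  obtain ⟨a, b, d, y⟩ := r
  refine Prod.ext (funext fun i => ?_) (Prod.ext (funext fun i => ?_) (Prod.ext (funext fun i => ?_)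
    (funext fun i => ?_)))
  · simp only [bA, Prod.mk_add_mk, Pi.add_apply, aq_scl_add, c1_add_left]
    split_ifs <;> ring
  · simp only [bA, Prod.mk_add_mk, Pi.add_apply, aq_scl_add, c2_add_left]
    split_ifs <;> ring
  · simp only [bA, Prod.mk_add_mk, Pi.add_apply, aq_scl_add, c3_add_left]
    split_ifs <;> ring
  · fin_cases i <;>
      simp [bA, aq_scl_add, aq_ha_add, add_mul, Finset.sum_add_distrib] <;> ring

private theorem aq_ar (z : (A → B → C → ℝ) × (Fin 11 → ℝ)) (p r r' : PA A B C) :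
    bA oA oB c oC s z p (r + r') = bA oA oB c oC s z p r + bA oA oB c oC s z p r' := by
  obtain ⟨u, v, w, x⟩ := p
  obtain ⟨u', v', w', x'⟩ := r'
  obtain ⟨a, b, d, y⟩ := r
  refine Prod.ext (funext fun i => ?_) (Prod.ext (funext fun i => ?_) (Prod.ext (funext fun i => ?_)
    (funext fun i => ?_)))
  · simp only [bA, Prod.mk_add_mk, Pi.add_apply, aq_ha_add, c1_add_right]
    split_ifs <;> ring
  · simp only [bA, Prod.mk_add_mk, Pi.add_apply, aq_ha_add, c2_add_right]
    split_ifs <;> ring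
  · simp only [bA, Prod.mk_add_mk, Pi.add_apply, aq_scl_add, c3_add_right]
    split_ifs <;> ring
  · fin_cases i <;>
      simp [bA, aq_scl_add, aq_ha_add, mul_add, Finset.sum_add_distrib] <;> ring

private theorem aq_sl (z : (A → B → C → ℝ) × (Fin 11 → ℝ)) (t : ℝ) (p r : PA A B C) :
    bA oA oB c oC s z (t • p) r = t • bA oA oB c oC s z p r := by
  obtain ⟨u, v, w, x⟩ := p
  obtain ⟨a, b, d, y⟩ := r
  refine Prod.ext (funext fun i => ?_) (Prod.ext (funext fun i => ?_) (Prod.ext (funext fun i => ?_)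
    (funext fun i => ?_)))
  · simp only [bA, Prod.smul_mk, aq_real, Pi.smul_apply, smul_eq_mul, aq_scl_smul, c1_smul_left]
    split_ifs <;> ring
  · simp only [bA, Prod.smul_mk, aq_real, Pi.smul_apply, smul_eq_mul, aq_scl_smul, c2_smul_left]
    split_ifs <;> ring
  · simp only [bA, Prod.smul_mk, aq_real, Pi.smul_apply, smul_eq_mul, aq_scl_smul, c3_smul_left]
    split_ifs <;> ring
  · simp only [bA, Prod.smul_mk, aq_real, Pi.smul_apply, smul_eq_mul, aq_scl_smul, aq_ha_smul]
    fin_cases i <;> simp [mul_assoc, Finset.mul_sum] <;> ring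

private theorem aq_sr (z : (A → B → C → ℝ) × (Fin 11 → ℝ)) (t : ℝ) (p r : PA A B C) :
    bA oA oB c oC s z p (t • r) = t • bA oA oB c oC s z p r := by
  obtain ⟨u, v, w, x⟩ := p
  obtain ⟨a, b, d, y⟩ := r
  refine Prod.ext (funext fun i => ?_) (Prod.ext (funext fun i => ?_) (Prod.ext (funext fun i => ?_)
    (funext fun i => ?_)))
  · simp only [bA, Prod.smul_mk, aq_real, Pi.smul_apply, smul_eq_mul, aq_ha_smul, c1_smul_right]
    split_ifs <;> ring
  · simp only [bA, Prod.smul_mk, aq_real, Pi.smul_apply, smul_eq_mul, aq_ha_smul, c2_smul_right]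
    split_ifs <;> ring
  · simp only [bA, Prod.smul_mk, aq_real, Pi.smul_apply, smul_eq_mul, aq_scl_smul, c3_smul_right]
    split_ifs <;> ring
  · simp only [bA, Prod.smul_mk, aq_real, Pi.smul_apply, smul_eq_mul, aq_scl_smul, aq_ha_smul]
    fin_cases i <;> simp [mul_left_comm, Finset.mul_sum] <;> ring

private theorem aq_la (z : (A → B → C → ℝ) × (Fin 11 → ℝ)) (p r : PA A B C) :
    lA oA oB c oC s ia ib ic z (p + r) =
      lA oA oB c oC s ia ib ic z p + lA oA oB c oC s ia ib ic z r := by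
  obtain ⟨u, v, w, x⟩ := p
  obtain ⟨a, b, d, y⟩ := r
  refine Prod.ext (funext fun i => ?_) (Prod.ext (funext fun i => ?_) (Prod.ext (funext fun i => ?_)
    (funext fun i => ?_)))
  · simp only [lA, Prod.mk_add_mk, Pi.add_apply]
    split_ifs <;> ring
  · simp only [lA, Prod.mk_add_mk, Pi.add_apply]
    split_ifs <;> ring
  · simp only [lA, Prod.mk_add_mk, Pi.add_apply]
    split_ifs <;> ring
  · simp only [lA, Prod.mk_add_mk, Pi.add_apply]
    fin_cases i <;> simp <;> ring

private theorem aq_ls (z : (A → B → C → ℝ) × (Fin 11 → ℝ)) (t : ℝ) (p : PA A B C) :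
    lA oA oB c oC s ia ib ic z (t • p) = t • lA oA oB c oC s ia ib ic z p := by
  obtain ⟨u, v, w, x⟩ := p
  refine Prod.ext (funext fun i => ?_) (Prod.ext (funext fun i => ?_) (Prod.ext (funext fun i => ?_)
    (funext fun i => ?_)))
  · simp only [lA, Prod.smul_mk, aq_real, Pi.smul_apply, smul_eq_mul]
    split_ifs <;> ring
  · simp only [lA, Prod.smul_mk, aq_real, Pi.smul_apply, smul_eq_mul]
    split_ifs <;> ring
  · simp only [lA, Prod.smul_mk, aq_real, Pi.smul_apply, smul_eq_mul]
    split_ifs <;> ring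
  · simp only [lA, Prod.smul_mk, aq_real, Pi.smul_apply, smul_eq_mul]
    fin_cases i <;> simp <;> ring

private theorem aq_cb :
    Continuous fun x : ((A → B → C → ℝ) × (Fin 11 → ℝ)) × PA A B C × PA A B C =>
      bA oA oB c oC s x.1 x.2.1 x.2.2 := by
  have hz : ∀ i, Continuous fun x : ((A → B → C → ℝ) × (Fin 11 → ℝ)) × PA A B C × PA A B C =>
      x.1.2 i := fun i => by
    fun_prop
  have hT : Continuous fun x : ((A → B → C → ℝ) × (Fin 11 → ℝ)) × PA A B C × PA A B C =>
      x.1.1 := by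
    fun_prop
  have hu1 : Continuous fun x : ((A → B → C → ℝ) × (Fin 11 → ℝ)) × PA A B C × PA A B C =>
      scl oA (x.1.2 3) (x.1.2 0) x.2.1.1 := aq_scl_cont oA (hz 3) (hz 0) (by fun_prop)
  have hu2 : Continuous fun x : ((A → B → C → ℝ) × (Fin 11 → ℝ)) × PA A B C × PA A B C =>
      scl oA (x.1.2 3) (x.1.2 0) x.2.2.1 := aq_scl_cont oA (hz 3) (hz 0) (by fun_prop)
  have hv1 : Continuous fun x : ((A → B → C → ℝ) × (Fin 11 → ℝ)) × PA A B C × PA A B C =>
      scl oB (x.1.2 4) (x.1.2 1) x.2.1.2.1 := aq_scl_cont oB (hz 4) (hz 1) (by fun_prop)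
  have hv2 : Continuous fun x : ((A → B → C → ℝ) × (Fin 11 → ℝ)) × PA A B C × PA A B C =>
      scl oB (x.1.2 4) (x.1.2 1) x.2.2.2.1 := aq_scl_cont oB (hz 4) (hz 1) (by fun_prop)
  have hw1 : Continuous fun x : ((A → B → C → ℝ) × (Fin 11 → ℝ)) × PA A B C × PA A B C =>
      ha c oC (x.1.2 5) (x.1.2 2) x.2.1.2.2.1 := aq_ha_cont c oC (hz 5) (hz 2) (by fun_prop)
  have hw2 : Continuous fun x : ((A → B → C → ℝ) × (Fin 11 → ℝ)) × PA A B C × PA A B C =>
      ha c oC (x.1.2 5) (x.1.2 2) x.2.2.2.2.1 := aq_ha_cont c oC (hz 5) (hz 2) (by fun_prop)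
  have h1 : Continuous fun x : ((A → B → C → ℝ) × (Fin 11 → ℝ)) × PA A B C × PA A B C =>
      c1 x.1.1 (scl oB (x.1.2 4) (x.1.2 1) x.2.1.2.1)
        (ha c oC (x.1.2 5) (x.1.2 2) x.2.2.2.2.1) := by
    have h0 := continuous_c1T.comp (hT.prodMk (hv1.prodMk hw2))
    exact h0
  have h2 : Continuous fun x : ((A → B → C → ℝ) × (Fin 11 → ℝ)) × PA A B C × PA A B C =>
      c2 x.1.1 (scl oA (x.1.2 3) (x.1.2 0) x.2.1.1)
        (ha c oC (x.1.2 5) (x.1.2 2) x.2.2.2.2.1) := by
    have h0 := continuous_c2T.comp (hT.prodMk (hu1.prodMk hw2))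
    exact h0
  have h3 : Continuous fun x : ((A → B → C → ℝ) × (Fin 11 → ℝ)) × PA A B C × PA A B C =>
      c3 x.1.1 (scl oA (x.1.2 3) (x.1.2 0) x.2.1.1)
        (scl oB (x.1.2 4) (x.1.2 1) x.2.2.2.1) := by
    have h0 := continuous_c3T.comp (hT.prodMk (hu1.prodMk hv2))
    exact h0
  have g1 := fun a => (continuous_apply a).comp h1
  have g2 := fun a => (continuous_apply a).comp h2
  have g3 := fun a => (continuous_apply a).comp h3
  have k1 := fun a => (continuous_apply a).comp hu1
  have k2 := fun a => (continuous_apply a).comp hu2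
  have k3 := fun a => (continuous_apply a).comp hv1
  have k4 := fun a => (continuous_apply a).comp hv2
  have k5 := fun a => (continuous_apply a).comp hw1
  have k6 := fun a => (continuous_apply a).comp hw2
  simp only [Function.comp_def] at g1 g2 g3 k1 k2 k3 k4 k5 k6
  refine Continuous.prodMk (continuous_pi fun a => ?_) (Continuous.prodMk
    (continuous_pi fun b => ?_) (Continuous.prodMk (continuous_pi fun k => ?_)
    (continuous_pi fun i => ?_)))
  · split_ifs
    · exact (g1 a).sub continuous_const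
    · exact (g1 a).sub (by fun_prop)
  · split_ifs
    · exact (g2 b).sub continuous_const
    · exact (g2 b).sub (by fun_prop)
  · split_ifs
    · exact ((Continuous.mul (by fun_prop) (g3 k)).sub continuous_const)
    · exact ((Continuous.mul (by fun_prop) (g3 k)).sub (by fun_prop))
    · exact ((Continuous.mul (by fun_prop) (g3 k)).sub continuous_const)
    · exact ((Continuous.mul (by fun_prop) (g3 k)).sub (by fun_prop))
  · fin_cases i
    · simp
      fun_prop
    · simp
      fun_prop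
    · simp
      fun_prop
    · simp
      exact continuous_finsetSum _ fun a _ => (k1 a).mul (k2 a)
    · simp
      exact continuous_finsetSum _ fun a _ => (k3 a).mul (k4 a)
    · simp
      exact continuous_finsetSum _ fun a _ => (k5 a).mul (k6 a)
    · simp
      fun_prop
    · simp
      fun_prop
    · simp
      fun_prop
    · simp
      fun_prop
    · simp
      fun_prop
    · simp
      fun_prop
    · simp
      fun_prop
    · simp
      exact continuous_const
    · simp
      exact continuous_const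
    · simp
      exact continuous_const

private theorem aq_cl :
    Continuous fun x : ((A → B → C → ℝ) × (Fin 11 → ℝ)) × PA A B C =>
      lA oA oB c oC s ia ib ic x.1 x.2 := by
  refine Continuous.prodMk (continuous_pi fun a => ?_) (Continuous.prodMk
    (continuous_pi fun b => ?_) (Continuous.prodMk (continuous_pi fun k => ?_)
    (continuous_pi fun i => ?_)))
  · split_ifs
    · fun_prop
    · exact continuous_const
  · split_ifs
    · fun_prop
    · exact continuous_const
  · split_ifs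
    · fun_prop
    · fun_prop
    · exact continuous_const
  · fin_cases i <;> simp <;> fun_prop

theorem isQ_A : IsQ (bA oA oB c oC s) (lA oA oB c oC s ia ib ic) where
  al := aq_al oA oB c oC s
  ar := aq_ar oA oB c oC s
  sl := aq_sl oA oB c oC s
  sr := aq_sr oA oB c oC s
  la := aq_la oA oB c oC s ia ib ic
  ls := aq_ls oA oB c oC s ia ib ic
  cb := aq_cb oA oB c oC s
  cl := aq_cl oA oB c oC s ia ib ic

private theorem aq_cj {X : Type} : Continuous (cj : (X → ℂ) → X → ℂ) :=
  continuous_pi fun a => Complex.continuous_conj.comp (continuous_apply a)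

theorem cjA_continuous : Continuous (cjA : PA A B C → PA A B C) := by
  refine Continuous.prodMk (aq_cj.comp continuous_fst) (Continuous.prodMk
    (aq_cj.comp (continuous_fst.comp continuous_snd)) (Continuous.prodMk
    (aq_cj.comp (continuous_fst.comp (continuous_snd.comp continuous_snd)))
    (aq_cj.comp (continuous_snd.comp (continuous_snd.comp continuous_snd)))))

/-- The conjugate value. -/
private def aqQ (p : QA A B C) : QA A B C := (cj p.1, cj p.2.1, cj p.2.2.1, cj p.2.2.2)

private theorem aq_bcj (z : (A → B → C → ℝ) × (Fin 11 → ℝ)) (p : PA A B C) :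
    bA oA oB c oC s z (cjA p) (cjA p) = aqQ (bA oA oB c oC s z p p) := by
  obtain ⟨u, v, w, x⟩ := p
  refine Prod.ext (funext fun i => ?_) (Prod.ext (funext fun i => ?_) (Prod.ext (funext fun i => ?_)
    (funext fun i => ?_)))
  · simp only [bA, cjA, aqQ, aq_scl_cj, aq_ha_cj, c1_cj]
    simp only [cj]
    split_ifs <;> simp
  · simp only [bA, cjA, aqQ, aq_scl_cj, aq_ha_cj, c2_cj]
    simp only [cj]
    split_ifs <;> simp
  · simp only [bA, cjA, aqQ, aq_scl_cj, c3_cj]
    simp only [cj]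
    split_ifs <;> simp
  · simp only [bA, cjA, aqQ, aq_scl_cj, aq_ha_cj]
    simp only [cj]
    fin_cases i <;> simp

private theorem aq_lcj (z : (A → B → C → ℝ) × (Fin 11 → ℝ)) (p : PA A B C) :
    lA oA oB c oC s ia ib ic z (cjA p) = aqQ (lA oA oB c oC s ia ib ic z p) := by
  obtain ⟨u, v, w, x⟩ := p
  refine Prod.ext (funext fun i => ?_) (Prod.ext (funext fun i => ?_) (Prod.ext (funext fun i => ?_)
    (funext fun i => ?_)))
  · simp only [lA, cjA, aqQ, cj]
    split_ifs <;> simp
  · simp only [lA, cjA, aqQ, cj]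
    split_ifs <;> simp
  · simp only [lA, cjA, aqQ, cj]
    split_ifs <;> simp
  · simp only [lA, cjA, aqQ, cj]
    fin_cases i <;> simp

private theorem aq_kcj : (kA : QA A B C) = aqQ kA := by
  refine Prod.ext (funext fun i => ?_) (Prod.ext (funext fun i => ?_) (Prod.ext (funext fun i => ?_)
    (funext fun i => ?_)))
  · simp [kA, aqQ, cj]
  · simp [kA, aqQ, cj]
  · simp [kA, aqQ, cj]
  · simp only [kA, aqQ, cj]
    fin_cases i <;> simp

private theorem aq_qadd (p r : QA A B C) : aqQ (p + r) = aqQ p + aqQ r := by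
  refine Prod.ext (funext fun i => ?_) (Prod.ext (funext fun i => ?_) (Prod.ext (funext fun i => ?_)
    (funext fun i => ?_))) <;> simp [aqQ, cj]

private theorem aq_qzero : aqQ (0 : QA A B C) = 0 := by
  refine Prod.ext (funext fun i => ?_) (Prod.ext (funext fun i => ?_) (Prod.ext (funext fun i => ?_)
    (funext fun i => ?_))) <;> simp [aqQ, cj]

/-- The system is real. -/
theorem cjA_sol (z : (A → B → C → ℝ) × (Fin 11 → ℝ)) (p : PA A B C)
    (h : bA oA oB c oC s z p p + lA oA oB c oC s ia ib ic z p + kA = 0) :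
    bA oA oB c oC s z (cjA p) (cjA p) + lA oA oB c oC s ia ib ic z (cjA p) + kA = 0 := by
  rw [aq_bcj, aq_lcj, aq_kcj, ← aq_qadd, ← aq_qadd, h, aq_qzero]

end

section

variable {A B C : Type} [Fintype A] [Fintype B] [Fintype C] [DecidableEq A] [DecidableEq B]
  [DecidableEq C] {T : A → B → C → ℝ} {oA : A} {oB : B} {c oC : C} {L s : ℝ} {ia : A} {ib : B}
  {ic : C} {z : Fin 11 → ℝ}

/-- The point of the local system which belongs to a solution, for the scale parameters
`z = ![fu, fv, fw, ρx, ρy, ρo, μ, A1, A2, A3, A4]`: the vectors are divided by the scale factors,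
`α, β, γ, ν` are multiplied by `μ`, `θ` is divided by `μ`. -/
noncomputable def ptA (T : A → B → C → ℝ) (oA : A) (oB : B) (c oC : C) (z : Fin 11 → ℝ)
    (u : A → ℂ) (v : B → ℂ) (w : C → ℂ) (α β γ θ ν : ℂ) : PA A B C :=
  (scl oA (1 / z 3) (1 / z 0) u, scl oB (1 / z 4) (1 / z 1) v, ha c oC (1 / z 5) (1 / z 2) w,
    ![z 6 * α, z 6 * β, z 6 * γ, θ / z 6, z 6 * ν, q u, q v, q w, z 6 * α * (u oA / z 3),
      z 6 * β * (v oB / z 4), z 6 * γ * (w oC / z 5), c1 T v w oA, c2 T u w oB, c3 T u v oC])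

omit [Fintype A] in
private theorem aq_scl_inv {x y : ℝ} (hx : x ≠ 0) (hy : y ≠ 0) (u : A → ℂ) :
    scl oA x y (scl oA (1 / x) (1 / y) u) = u := by
  have hx' : (x : ℂ) ≠ 0 := Complex.ofReal_ne_zero.2 hx
  have hy' : (y : ℂ) ≠ 0 := Complex.ofReal_ne_zero.2 hy
  funext k
  simp only [scl]
  split_ifs
  · push_cast
    field_simp
  · push_cast
    field_simp

omit [Fintype A] in
private theorem aq_scl_o (x y : ℝ) (u : A → ℂ) : scl oA (1 / x) (1 / y) u oA = u oA / x := by
  simp only [scl, if_true]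
  push_cast
  ring

omit [Fintype A] in
private theorem aq_scl_n {a : A} (h : a ≠ oA) (x y : ℝ) (u : A → ℂ) :
    scl oA (1 / x) (1 / y) u a = u a / y := by
  simp only [scl, if_neg h]
  push_cast
  ring

omit [Fintype C] in
private theorem aq_ha_inv {x y : ℝ} (hx : x ≠ 0) (hy : y ≠ 0) (w : C → ℂ) :
    ha c oC x y (ha c oC (1 / x) (1 / y) w) = w := by
  have hx' : (x : ℂ) ≠ 0 := Complex.ofReal_ne_zero.2 hx
  have hy' : (y : ℂ) ≠ 0 := Complex.ofReal_ne_zero.2 hy
  funext k
  simp only [ha]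
  split_ifs
  · push_cast
    field_simp
  · push_cast
    ring
  · push_cast
    field_simp

omit [Fintype C] in
private theorem aq_ha_o (x y : ℝ) (w : C → ℂ) : ha c oC (1 / x) (1 / y) w oC = w oC / x := by
  simp only [ha, if_true]
  push_cast
  ring

omit [Fintype C] in
private theorem aq_ha_c (hco : c ≠ oC) (x y : ℝ) (w : C → ℂ) :
    ha c oC (1 / x) (1 / y) w c = w c := by
  simp only [ha, if_neg hco, if_true]
  push_cast
  ring

omit [Fintype C] in
private theorem aq_ha_n {k : C} (ho : k ≠ oC) (hc : k ≠ c) (x y : ℝ) (w : C → ℂ) :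
    ha c oC (1 / x) (1 / y) w k = w k / y := by
  simp only [ha, if_neg ho, if_neg hc]
  push_cast
  ring

/-- A solution gives a solution of the local system.

Proof. The scaled vectors (`scl oA ρx fu` of the first vector and so on) are `u`, `v`, `w`.
Equations for `a ≠ oA`: `c1 T v w a = α u a = (μ α) (u a / fu)`, as `fu = μ`; the same for `b`,
and for `k ≠ oC, c` (`fw = μ`); for `k = c` multiply `e3` by `μ`. `e4`, `e5`, `e6`:
`(θ / μ) (μ α) = q v q w`. `e7`: `(w oC / ρo) (μ ν) = s θ / μ`, as `ρo = μ ^ 2`. `e9`: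
`μ ν = s (u oA / ρx) (v oB / ρy)`, as `L μ ρx ρy = 1`. The equations eleven and twelve are the
two relations `AT.rel`, the first multiplied by `m` (`hm`), the second by `μ`. Normalisation: the
hypotheses `n1` to `n6` say that the scale factor at `ia`, `ib`, `ic` is `1`. -/
theorem ptA_sol (hco : c ≠ oC) (hs : s ≠ 0) (hz : ScA L z) {u : A → ℂ} {v : B → ℂ} {w : C → ℂ}
    {α β γ θ ν : ℂ} (h : AT T oA oB c oC L s u v w α β γ θ ν) (hu : u ia = 1) (hv : v ib = 1)
    (hw' : w ic = 1) (n1 : ia = oA → z 3 = 1) (n2 : ia ≠ oA → z 0 = 1) (n3 : ib = oB → z 4 = 1)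
    (n4 : ib ≠ oB → z 1 = 1) (n5 : ic = oC → z 5 = 1) (n6 : ic ≠ oC → ic ≠ c → z 2 = 1) :
    bA oA oB c oC s (T, z) (ptA T oA oB c oC z u v w α β γ θ ν)
        (ptA T oA oB c oC z u v w α β γ θ ν)
      + lA oA oB c oC s ia ib ic (T, z) (ptA T oA oB c oC z u v w α β γ θ ν) + kA = 0 := by
  have z0 : ((z 0 : ℝ) : ℂ) ≠ 0 := Complex.ofReal_ne_zero.2 hz.h0
  have z1 : ((z 1 : ℝ) : ℂ) ≠ 0 := Complex.ofReal_ne_zero.2 hz.h1
  have z2 : ((z 2 : ℝ) : ℂ) ≠ 0 := Complex.ofReal_ne_zero.2 hz.h2
  have z3 : ((z 3 : ℝ) : ℂ) ≠ 0 := Complex.ofReal_ne_zero.2 hz.h3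
  have z4 : ((z 4 : ℝ) : ℂ) ≠ 0 := Complex.ofReal_ne_zero.2 hz.h4
  have z6 : ((z 6 : ℝ) : ℂ) ≠ 0 := Complex.ofReal_ne_zero.2 hz.h6
  have hz5 : z 5 ≠ 0 := by
    rw [hz.f5]
    exact pow_ne_zero 2 hz.h6
  have z5 : ((z 5 : ℝ) : ℂ) ≠ 0 := Complex.ofReal_ne_zero.2 hz5
  have f0 : ((z 0 : ℝ) : ℂ) = (z 6 : ℝ) := by rw [hz.f0]
  have f1 : ((z 1 : ℝ) : ℂ) = (z 6 : ℝ) := by rw [hz.f1]
  have f2 : ((z 2 : ℝ) : ℂ) = (z 6 : ℝ) := by rw [hz.f2]
  have f5 : ((z 5 : ℝ) : ℂ) = (z 6 : ℝ) ^ 2 := by
    rw [hz.f5]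
    push_cast
    ring
  have hL : (L : ℂ) * (z 6 : ℝ) * (z 3 : ℝ) * (z 4 : ℝ) = 1 := by
    have h5 := congrArg (fun t : ℝ => (t : ℂ)) hz.hL
    push_cast at h5
    exact h5
  obtain ⟨m, hm1, hm2, hm3, hm4⟩ := hz.hm
  have m1 : ((z 7 : ℝ) : ℂ) * (z 6 : ℝ) = m * (z 3 : ℝ) ^ 2 := by
    have h5 := congrArg (fun t : ℝ => (t : ℂ)) hm1
    push_cast at h5
    exact h5
  have m2 : ((z 8 : ℝ) : ℂ) = m * (z 3 : ℝ) := by
    have h5 := congrArg (fun t : ℝ => (t : ℂ)) hm2
    push_cast at h5
    exact h5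
  have m3 : ((z 9 : ℝ) : ℂ) * (z 6 : ℝ) = m * (z 4 : ℝ) ^ 2 := by
    have h5 := congrArg (fun t : ℝ => (t : ℂ)) hm3
    push_cast at h5
    exact h5
  have m4 : ((z 10 : ℝ) : ℂ) = m * (z 4 : ℝ) := by
    have h5 := congrArg (fun t : ℝ => (t : ℂ)) hm4
    push_cast at h5
    exact h5
  obtain ⟨r1, r2⟩ := h.rel hco
  obtain ⟨U, eU⟩ : ∃ U : A → ℂ, U = scl oA (1 / z 3) (1 / z 0) u := ⟨_, rfl⟩
  obtain ⟨V, eV⟩ : ∃ V : B → ℂ, V = scl oB (1 / z 4) (1 / z 1) v := ⟨_, rfl⟩
  obtain ⟨W, eW⟩ : ∃ W : C → ℂ, W = ha c oC (1 / z 5) (1 / z 2) w := ⟨_, rfl⟩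
  have iU : scl oA (z 3) (z 0) U = u := by
    rw [eU]
    exact aq_scl_inv hz.h3 hz.h0 u
  have iV : scl oB (z 4) (z 1) V = v := by
    rw [eV]
    exact aq_scl_inv hz.h4 hz.h1 v
  have iW : ha c oC (z 5) (z 2) W = w := by
    rw [eW]
    exact aq_ha_inv hz5 hz.h2 w
  have oU : U oA = u oA / (z 3 : ℝ) := by
    rw [eU]
    exact aq_scl_o _ _ u
  have oV : V oB = v oB / (z 4 : ℝ) := by
    rw [eV]
    exact aq_scl_o _ _ v
  have oW : W oC = w oC / (z 5 : ℝ) := by
    rw [eW]
    exact aq_ha_o _ _ w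
  have cW : W c = w c := by
    rw [eW]
    exact aq_ha_c hco _ _ w
  have nU : ∀ a, a ≠ oA → U a = u a / (z 6 : ℝ) := by
    intro a ha'
    rw [eU, aq_scl_n ha', f0]
  have nV : ∀ b, b ≠ oB → V b = v b / (z 6 : ℝ) := by
    intro b hb'
    rw [eV, aq_scl_n hb', f1]
  have nW : ∀ k, k ≠ oC → k ≠ c → W k = w k / (z 6 : ℝ) := by
    intro k hk hk'
    rw [eW, aq_ha_n hk hk', f2]
  obtain ⟨p, ep⟩ : ∃ p : PA A B C, p = ptA T oA oB c oC z u v w α β γ θ ν := ⟨_, rfl⟩
  have ep' : p = (U, V, W,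
      ![(z 6 : ℂ) * α, z 6 * β, z 6 * γ, θ / z 6, z 6 * ν, q u, q v, q w,
        z 6 * α * (u oA / z 3), z 6 * β * (v oB / z 4), z 6 * γ * (w oC / z 5), c1 T v w oA,
        c2 T u w oB, c3 T u v oC]) := by
    rw [ep, eU, eV, eW]
    rfl
  have c1' : ∀ a, (c1 T (scl oB (z 4) (z 1) V) (ha c oC (z 5) (z 2) W) a
      - (if a = oA then 0 else (z 6 : ℂ) * α * U a)) + (if a = oA then - c1 T v w oA else 0)
      + 0 = 0 := by
    intro a
    rw [iV, iW]
    by_cases h5 : a = oA
    · rw [if_pos h5, if_pos h5, h5]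
      ring
    · rw [if_neg h5, if_neg h5, nU a h5, h.e1 a h5]
      field_simp
      ring
  have c2' : ∀ b, (c2 T (scl oA (z 3) (z 0) U) (ha c oC (z 5) (z 2) W) b
      - (if b = oB then 0 else (z 6 : ℂ) * β * V b)) + (if b = oB then - c2 T u w oB else 0)
      + 0 = 0 := by
    intro b
    rw [iU, iW]
    by_cases h5 : b = oB
    · rw [if_pos h5, if_pos h5, h5]
      ring
    · rw [if_neg h5, if_neg h5, nV b h5, h.e2 b h5]
      field_simp
      ring
  have c3' : ∀ k, ((if k = c then (z 6 : ℂ) else 1)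
        * c3 T (scl oA (z 3) (z 0) U) (scl oB (z 4) (z 1) V) k
      - (if k = oC then 0 else (z 6 : ℂ) * γ * W k))
      + (if k = oC then - c3 T u v oC else if k = c then (z 6 : ℂ) * ν else 0)
      + 0 = 0 := by
    intro k
    rw [iU, iV]
    by_cases hko : k = oC
    · have hkc : k ≠ c := by
        rw [hko]
        exact hco.symm
      rw [if_pos hko, if_pos hko, if_neg hkc, hko]
      ring
    · by_cases hkc : k = c
      · have h5 := h.e3 k hko
        rw [if_pos hkc] at h5
        rw [if_neg hko, if_neg hko, if_pos hkc, if_pos hkc, hkc, cW]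
        rw [hkc] at h5
        linear_combination (z 6 : ℂ) * h5
      · have h5 := h.e3 k hko
        rw [if_neg hkc] at h5
        rw [if_neg hko, if_neg hko, if_neg hkc, if_neg hkc, nW k hko hkc]
        field_simp
        linear_combination h5
  have c4' : ∀ i : Fin 16, (bA oA oB c oC s (T, z) p p + lA oA oB c oC s ia ib ic (T, z) p
      + kA).2.2.2 i = 0 := by
    rw [ep']
    intro i
    fin_cases i
    · change θ / (z 6 : ℂ) * (z 6 * α) - q v * q w + 0 + 0 = 0
      rw [← h.e4]
      field_simp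
      ring
    · change θ / (z 6 : ℂ) * (z 6 * β) - q u * q w + 0 + 0 = 0
      rw [← h.e5]
      field_simp
      ring
    · change θ / (z 6 : ℂ) * (z 6 * γ) - q u * q v + 0 + 0 = 0
      rw [← h.e6]
      field_simp
      ring
    · change ∑ a, scl oA (z 3) (z 0) U a * scl oA (z 3) (z 0) U a + - q u + 0 = 0
      rw [iU]
      simp only [q, pow_two]
      ring
    · change ∑ b, scl oB (z 4) (z 1) V b * scl oB (z 4) (z 1) V b + - q v + 0 = 0
      rw [iV]
      simp only [q, pow_two]
      ring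
    · change ∑ k, ha c oC (z 5) (z 2) W k * ha c oC (z 5) (z 2) W k + - q w + 0 = 0
      rw [iW]
      simp only [q, pow_two]
      ring
    · change (z 6 : ℂ) * α * U oA + - (z 6 * α * (u oA / z 3)) + 0 = 0
      rw [oU]
      ring
    · change (z 6 : ℂ) * β * V oB + - (z 6 * β * (v oB / z 4)) + 0 = 0
      rw [oV]
      ring
    · change (z 6 : ℂ) * γ * W oC + - (z 6 * γ * (w oC / z 5)) + 0 = 0
      rw [oW]
      ring
    · change W oC * ((z 6 : ℂ) * ν) + - (s : ℂ) * (θ / z 6) + 0 = 0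
      have h7 := h.e7
      rw [oW, f5]
      field_simp
      linear_combination h7
    · change - (s : ℂ) * (U oA * V oB) + (z 6 : ℂ) * ν + 0 = 0
      have h9 := h.e9
      rw [oU, oV, h9]
      field_simp
      linear_combination (s : ℂ) * u oA * v oB * hL
    · change (z 7 : ℂ) * (z 6 * α * (u oA / z 3) * U oA) - (z 8 : ℂ) * (U oA * c1 T v w oA)
        - (z 9 : ℂ) * (z 6 * β * (v oB / z 4) * V oB) + (z 10 : ℂ) * (V oB * c2 T u w oB)
        + 0 + 0 = 0
      have e1 : (z 7 : ℂ) * (z 6 * α * (u oA / z 3) * U oA) = m * (α * u oA ^ 2) := by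
        rw [oU]
        field_simp
        linear_combination (α * u oA ^ 2) * m1
      have e2 : (z 8 : ℂ) * (U oA * c1 T v w oA) = m * (u oA * c1 T v w oA) := by
        rw [oU, m2]
        field_simp
      have e3 : (z 9 : ℂ) * (z 6 * β * (v oB / z 4) * V oB) = m * (β * v oB ^ 2) := by
        rw [oV]
        field_simp
        linear_combination (β * v oB ^ 2) * m3
      have e4 : (z 10 : ℂ) * (V oB * c2 T u w oB) = m * (v oB * c2 T u w oB) := by
        rw [oV, m4]
        field_simp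
      rw [e1, e2, e3, e4]
      linear_combination (m : ℂ) * r1
    · change (z 5 : ℂ) ^ 2 * (z 6 * γ * (w oC / z 5) * W oC)
        - (z 6 : ℂ) * (z 5 : ℂ) * (W oC * c3 T u v oC) + (z 6 : ℂ) * ν * W c
        - (z 3 : ℂ) ^ 2 * (z 6 * α * (u oA / z 3) * U oA)
        + (z 6 : ℂ) * (z 3 : ℂ) * (U oA * c1 T v w oA) + 0 + 0 = 0
      have e1 : (z 5 : ℂ) ^ 2 * (z 6 * γ * (w oC / z 5) * W oC) = z 6 * (γ * w oC ^ 2) := by
        rw [oW]
        field_simp
      have e2 : (z 6 : ℂ) * (z 5 : ℂ) * (W oC * c3 T u v oC) = z 6 * (w oC * c3 T u v oC) := by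
        rw [oW]
        field_simp
      have e3 : (z 3 : ℂ) ^ 2 * (z 6 * α * (u oA / z 3) * U oA) = z 6 * (α * u oA ^ 2) := by
        rw [oU]
        field_simp
      have e4 : (z 6 : ℂ) * (z 3 : ℂ) * (U oA * c1 T v w oA) = z 6 * (u oA * c1 T v w oA) := by
        rw [oU]
        field_simp
      rw [e1, e2, e3, e4, cW]
      linear_combination (z 6 : ℂ) * r2
    · change 0 + U ia + -1 = 0
      have e : U ia = 1 := by
        by_cases h5 : ia = oA
        · rw [h5, oU, n1 h5, ← h5, hu]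
          norm_num
        · rw [eU, aq_scl_n h5, n2 h5, hu]
          norm_num
      rw [e]
      ring
    · change 0 + V ib + -1 = 0
      have e : V ib = 1 := by
        by_cases h5 : ib = oB
        · rw [h5, oV, n3 h5, ← h5, hv]
          norm_num
        · rw [eV, aq_scl_n h5, n4 h5, hv]
          norm_num
      rw [e]
      ring
    · change 0 + W ic + -1 = 0
      have e : W ic = 1 := by
        by_cases h5 : ic = oC
        · rw [h5, oW, n5 h5, ← h5, hw']
          norm_num
        · by_cases h6 : ic = c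
          · rw [h6, cW, ← h6, hw']
          · rw [eW, aq_ha_n h5 h6, n6 h5 h6, hw']
            norm_num
      rw [e]
      ring
  rw [← ep]
  refine Prod.ext (funext fun a => ?_) (Prod.ext (funext fun b => ?_)
    (Prod.ext (funext fun k => ?_) (funext c4')))
  · rw [ep']
    exact c1' a
  · rw [ep']
    exact c2' b
  · rw [ep']
    exact c3' k

end

end Pool.Agent.MPb0eR
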