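import Mathlib
import Pool.Agent.Lib.MP_b0e20b_ag_R.AAlg

/-!
# MP_b0e20b_ag, project R: the limit kernels of the third level
-/

set_option autoImplicit false

open scoped BigOperators Topology
open Filter

namespace Pool.Agent.MPb0eR

section

variable {A B C : Type} [Fintype A] [Fintype B] [Fintype C] [DecidableEq A] [DecidableEq B]
  [DecidableEq C] {T : A → B → C → ℝ} {oA : A} {oB : B} {c oC : C} {s : ℝ} {ia : A} {ib : B}
  {ic : C} {p : PA A B C}

/-- The equations of the linearised system. -/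
private structure KSL (T : A → B → C → ℝ) (oA : A) (oB : B) (c oC : C) (s : ℝ) (ia : A)
    (ib : B) (ic : C) (z : Fin 11 → ℝ) (u : A → ℂ) (v : B → ℂ) (w : C → ℂ) (l : Fin 14 → ℂ)
    (du : A → ℂ) (dv : B → ℂ) (dw : C → ℂ) (dl : Fin 14 → ℂ) : Prop where
  a1 : ∀ a, a ≠ oA → c1 T (scl oB (z 4) (z 1) v) (ha c oC (z 5) (z 2) dw) a - l 0 * du a +
    (c1 T (scl oB (z 4) (z 1) dv) (ha c oC (z 5) (z 2) w) a - dl 0 * u a) = 0
  a0 : c1 T (scl oB (z 4) (z 1) v) (ha c oC (z 5) (z 2) dw) oA +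
    c1 T (scl oB (z 4) (z 1) dv) (ha c oC (z 5) (z 2) w) oA - dl 11 = 0
  b1 : ∀ b, b ≠ oB → c2 T (scl oA (z 3) (z 0) u) (ha c oC (z 5) (z 2) dw) b - l 1 * dv b +
    (c2 T (scl oA (z 3) (z 0) du) (ha c oC (z 5) (z 2) w) b - dl 1 * v b) = 0
  b0 : c2 T (scl oA (z 3) (z 0) u) (ha c oC (z 5) (z 2) dw) oB +
    c2 T (scl oA (z 3) (z 0) du) (ha c oC (z 5) (z 2) w) oB - dl 12 = 0
  k0 : c3 T (scl oA (z 3) (z 0) u) (scl oB (z 4) (z 1) dv) oC +
    c3 T (scl oA (z 3) (z 0) du) (scl oB (z 4) (z 1) v) oC - dl 13 = 0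
  kc : (z 6 : ℂ) * c3 T (scl oA (z 3) (z 0) u) (scl oB (z 4) (z 1) dv) c - l 2 * dw c +
    ((z 6 : ℂ) * c3 T (scl oA (z 3) (z 0) du) (scl oB (z 4) (z 1) v) c - dl 2 * w c) + dl 4 = 0
  kn : ∀ k, k ≠ oC → k ≠ c →
    c3 T (scl oA (z 3) (z 0) u) (scl oB (z 4) (z 1) dv) k - l 2 * dw k +
    (c3 T (scl oA (z 3) (z 0) du) (scl oB (z 4) (z 1) v) k - dl 2 * w k) = 0
  f0 : l 3 * dl 0 - l 6 * dl 7 + (dl 3 * l 0 - dl 6 * l 7) + 0 = 0
  f1 : l 3 * dl 1 - l 5 * dl 7 + (dl 3 * l 1 - dl 5 * l 7) + 0 = 0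
  f2 : l 3 * dl 2 - l 5 * dl 6 + (dl 3 * l 2 - dl 5 * l 6) + 0 = 0
  f3 : ∑ a, scl oA (z 3) (z 0) u a * scl oA (z 3) (z 0) du a +
    ∑ a, scl oA (z 3) (z 0) du a * scl oA (z 3) (z 0) u a + - dl 5 = 0
  f4 : ∑ b, scl oB (z 4) (z 1) v b * scl oB (z 4) (z 1) dv b +
    ∑ b, scl oB (z 4) (z 1) dv b * scl oB (z 4) (z 1) v b + - dl 6 = 0
  f5 : ∑ k, ha c oC (z 5) (z 2) w k * ha c oC (z 5) (z 2) dw k +
    ∑ k, ha c oC (z 5) (z 2) dw k * ha c oC (z 5) (z 2) w k + - dl 7 = 0
  f6 : l 0 * du oA + dl 0 * u oA + - dl 8 = 0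
  f7 : l 1 * dv oB + dl 1 * v oB + - dl 9 = 0
  f8 : l 2 * dw oC + dl 2 * w oC + - dl 10 = 0
  f9 : w oC * dl 4 + dw oC * l 4 + - (s : ℂ) * dl 3 = 0
  f10 : - (s : ℂ) * (u oA * dv oB) + - (s : ℂ) * (du oA * v oB) + dl 4 = 0
  f11 : (z 7 : ℂ) * (l 8 * du oA) - (z 8 : ℂ) * (u oA * dl 11)
      - (z 9 : ℂ) * (l 9 * dv oB) + (z 10 : ℂ) * (v oB * dl 12)
    + ((z 7 : ℂ) * (dl 8 * u oA) - (z 8 : ℂ) * (du oA * l 11)
      - (z 9 : ℂ) * (dl 9 * v oB) + (z 10 : ℂ) * (dv oB * l 12)) + 0 = 0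
  f12 : (z 5 : ℂ) ^ 2 * (l 10 * dw oC) - (z 6 : ℂ) * (z 5 : ℂ) * (w oC * dl 13) + l 4 * dw c
      - (z 3 : ℂ) ^ 2 * (l 8 * du oA) + (z 6 : ℂ) * (z 3 : ℂ) * (u oA * dl 11)
    + ((z 5 : ℂ) ^ 2 * (dl 10 * w oC) - (z 6 : ℂ) * (z 5 : ℂ) * (dw oC * l 13) + dl 4 * w c
      - (z 3 : ℂ) ^ 2 * (dl 8 * u oA) + (z 6 : ℂ) * (z 3 : ℂ) * (du oA * l 11)) + 0 = 0
  f13 : du ia = 0
  f14 : dv ib = 0
  f15 : dw ic = 0

private theorem KSL_of (hco : c ≠ oC) {z : Fin 11 → ℝ} {u : A → ℂ} {v : B → ℂ} {w : C → ℂ}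
    {l : Fin 14 → ℂ} {du : A → ℂ} {dv : B → ℂ} {dw : C → ℂ} {dl : Fin 14 → ℂ}
    (hk : bA oA oB c oC s (T, z) (u, v, w, l) (du, dv, dw, dl) +
      bA oA oB c oC s (T, z) (du, dv, dw, dl) (u, v, w, l) +
      lA oA oB c oC s ia ib ic (T, z) (du, dv, dw, dl) = 0) :
    KSL T oA oB c oC s ia ib ic z u v w l du dv dw dl := by
  have E1 : ∀ a, (c1 T (scl oB (z 4) (z 1) v) (ha c oC (z 5) (z 2) dw) a
      - (if a = oA then 0 else l 0 * du a)) +
      (c1 T (scl oB (z 4) (z 1) dv) (ha c oC (z 5) (z 2) w) a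
      - (if a = oA then 0 else dl 0 * u a)) + (if a = oA then - dl 11 else 0) = 0 :=
    fun a => congrFun (congrArg (fun x : QA A B C => x.1) hk) a
  have E2 : ∀ b, (c2 T (scl oA (z 3) (z 0) u) (ha c oC (z 5) (z 2) dw) b
      - (if b = oB then 0 else l 1 * dv b)) +
      (c2 T (scl oA (z 3) (z 0) du) (ha c oC (z 5) (z 2) w) b
      - (if b = oB then 0 else dl 1 * v b)) + (if b = oB then - dl 12 else 0) = 0 :=
    fun b => congrFun (congrArg (fun x : QA A B C => x.2.1) hk) b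
  have E3 : ∀ k, ((if k = c then (z 6 : ℂ) else 1)
        * c3 T (scl oA (z 3) (z 0) u) (scl oB (z 4) (z 1) dv) k
      - (if k = oC then 0 else l 2 * dw k)) + ((if k = c then (z 6 : ℂ) else 1)
        * c3 T (scl oA (z 3) (z 0) du) (scl oB (z 4) (z 1) v) k
      - (if k = oC then 0 else dl 2 * w k)) +
      (if k = oC then - dl 13 else if k = c then dl 4 else 0) = 0 :=
    fun k => congrFun (congrArg (fun x : QA A B C => x.2.2.1) hk) k
  have E4 := congrArg (fun x : QA A B C => x.2.2.2) hk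
  refine ⟨fun a h1 => ?_, ?_, fun b h1 => ?_, ?_, ?_, ?_, fun k h1 h2 => ?_, congrFun E4 0,
    congrFun E4 1, congrFun E4 2, congrFun E4 3, congrFun E4 4, congrFun E4 5, congrFun E4 6,
    congrFun E4 7, congrFun E4 8, congrFun E4 9, congrFun E4 10, congrFun E4 11,
    congrFun E4 12, ?_, ?_, ?_⟩
  · have h3 := E1 a
    rw [if_neg h1, if_neg h1, if_neg h1, add_zero] at h3
    exact h3
  · have h3 := E1 oA
    rw [if_pos rfl, if_pos rfl, if_pos rfl] at h3
    linear_combination h3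
  · have h3 := E2 b
    rw [if_neg h1, if_neg h1, if_neg h1, add_zero] at h3
    exact h3
  · have h3 := E2 oB
    rw [if_pos rfl, if_pos rfl, if_pos rfl] at h3
    linear_combination h3
  · have h3 := E3 oC
    rw [if_pos rfl, if_pos rfl, if_pos rfl, if_neg hco.symm] at h3
    linear_combination h3
  · have h3 := E3 c
    rw [if_pos rfl, if_neg hco, if_neg hco, if_neg hco, if_pos rfl] at h3
    exact h3
  · have h3 := E3 k
    rw [if_neg h1, if_neg h1, if_neg h1, if_neg h2, if_neg h2] at h3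
    linear_combination h3
  · have h1 : (0 : ℂ) + 0 + du ia = 0 := congrFun E4 13
    rw [add_zero, zero_add] at h1
    exact h1
  · have h1 : (0 : ℂ) + 0 + dv ib = 0 := congrFun E4 14
    rw [add_zero, zero_add] at h1
    exact h1
  · have h1 : (0 : ℂ) + 0 + dw ic = 0 := congrFun E4 15
    rw [add_zero, zero_add] at h1
    exact h1

/-- The equations of the system. -/
private structure KSS (T : A → B → C → ℝ) (oA : A) (oB : B) (c oC : C) (s : ℝ) (ia : A)
    (ib : B) (ic : C) (z : Fin 11 → ℝ) (u : A → ℂ) (v : B → ℂ) (w : C → ℂ)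
    (l : Fin 14 → ℂ) : Prop where
  k0 : c3 T (scl oA (z 3) (z 0) u) (scl oB (z 4) (z 1) v) oC = l 13
  kc : (z 6 : ℂ) * c3 T (scl oA (z 3) (z 0) u) (scl oB (z 4) (z 1) v) c - l 2 * w c + l 4 = 0
  f0 : l 3 * l 0 - l 6 * l 7 + 0 + 0 = 0
  f1 : l 3 * l 1 - l 5 * l 7 + 0 + 0 = 0
  f2 : l 3 * l 2 - l 5 * l 6 + 0 + 0 = 0
  f3 : ∑ a, scl oA (z 3) (z 0) u a * scl oA (z 3) (z 0) u a + - l 5 + 0 = 0
  f4 : ∑ b, scl oB (z 4) (z 1) v b * scl oB (z 4) (z 1) v b + - l 6 + 0 = 0
  f5 : ∑ k, ha c oC (z 5) (z 2) w k * ha c oC (z 5) (z 2) w k + - l 7 + 0 = 0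
  f6 : l 0 * u oA + - l 8 + 0 = 0
  f7 : l 1 * v oB + - l 9 + 0 = 0
  f8 : l 2 * w oC + - l 10 + 0 = 0
  f9 : w oC * l 4 + - (s : ℂ) * l 3 + 0 = 0
  f10 : - (s : ℂ) * (u oA * v oB) + l 4 + 0 = 0
  f11 : (z 7 : ℂ) * (l 8 * u oA) - (z 8 : ℂ) * (u oA * l 11)
      - (z 9 : ℂ) * (l 9 * v oB) + (z 10 : ℂ) * (v oB * l 12) + 0 + 0 = 0
  f13 : u ia = 1
  f14 : v ib = 1
  f15 : w ic = 1

private theorem KSS_of (hco : c ≠ oC) {z : Fin 11 → ℝ} {u : A → ℂ} {v : B → ℂ} {w : C → ℂ}
    {l : Fin 14 → ℂ}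
    (hk : bA oA oB c oC s (T, z) (u, v, w, l) (u, v, w, l) +
      lA oA oB c oC s ia ib ic (T, z) (u, v, w, l) + kA = 0) :
    KSS T oA oB c oC s ia ib ic z u v w l := by
  have E3 : ∀ k, ((if k = c then (z 6 : ℂ) else 1)
        * c3 T (scl oA (z 3) (z 0) u) (scl oB (z 4) (z 1) v) k
      - (if k = oC then 0 else l 2 * w k)) +
      (if k = oC then - l 13 else if k = c then l 4 else 0) + 0 = 0 :=
    fun k => congrFun (congrArg (fun x : QA A B C => x.2.2.1) hk) k
  have E4 := congrArg (fun x : QA A B C => x.2.2.2) hk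
  refine ⟨?_, ?_, congrFun E4 0,
    congrFun E4 1, congrFun E4 2, congrFun E4 3, congrFun E4 4, congrFun E4 5, congrFun E4 6,
    congrFun E4 7, congrFun E4 8, congrFun E4 9, congrFun E4 10, congrFun E4 11, ?_, ?_, ?_⟩
  · have h3 := E3 oC
    rw [if_pos rfl, if_pos rfl, if_neg hco.symm] at h3
    linear_combination h3
  · have h3 := E3 c
    rw [if_pos rfl, if_neg hco, if_neg hco, if_pos rfl] at h3
    linear_combination h3
  · have h1 : (0 : ℂ) + u ia + -1 = 0 := congrFun E4 13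
    linear_combination h1
  · have h1 : (0 : ℂ) + v ib + -1 = 0 := congrFun E4 14
    linear_combination h1
  · have h1 : (0 : ℂ) + w ic + -1 = 0 := congrFun E4 15
    linear_combination h1

omit [Fintype C] in
private theorem KS_ha11 (x : C → ℂ) : ha c oC 1 1 x = x := by
  funext k
  unfold ha
  by_cases h1 : k = oC
  · rw [if_pos h1, Complex.ofReal_one, one_mul]
  · by_cases h2 : k = c
    · rw [if_neg h1, if_pos h2, Complex.ofReal_one, one_mul]
    · rw [if_neg h1, if_neg h2, Complex.ofReal_one, one_mul]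

omit [Fintype C] in
private theorem KS_ha00 {x : C → ℂ} (hx : x c = 0) : ha c oC 0 0 x = 0 := by
  funext k
  unfold ha
  by_cases h1 : k = oC
  · rw [if_pos h1, Complex.ofReal_zero, zero_mul]
    rfl
  · by_cases h2 : k = c
    · rw [h2, hx, mul_zero]
      rfl
    · rw [if_neg h1, if_neg h2, Complex.ofReal_zero, zero_mul]
      rfl

omit [Fintype A] in
private theorem KS_s11 (x : A → ℂ) : scl oA 1 1 x = x := by
  funext k
  unfold scl
  rw [ite_self, Complex.ofReal_one, one_mul]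

omit [Fintype A] in
private theorem KS_s01 (x : A → ℂ) {a : A} (h : a ≠ oA) : scl oA 0 1 x a = x a := by
  unfold scl
  rw [if_neg h, Complex.ofReal_one, one_mul]

omit [Fintype A] in
private theorem KS_s01o (x : A → ℂ) : scl oA 0 1 x oA = 0 := by
  unfold scl
  rw [if_pos rfl, Complex.ofReal_zero, zero_mul]

omit [Fintype A] in
private theorem KS_s10 {x : A → ℂ} (hx : x oA = 0) : scl oA 1 0 x = 0 := by
  funext a
  unfold scl
  by_cases h : a = oA
  · rw [h, hx, mul_zero]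
    rfl
  · rw [if_neg h, Complex.ofReal_zero, zero_mul]
    rfl

private theorem KS_q (x : A → ℂ) {y : ℂ} (h : ∑ a, x a * x a + - y + 0 = 0) : y = q x := by
  have h1 : q x = ∑ a, x a * x a := Finset.sum_congr rfl fun a _ => pow_two _
  rw [h1]
  linear_combination -h

omit [DecidableEq A] in
private theorem KS_dq (x dx : A → ℂ) {y : ℂ}
    (h : ∑ a, x a * dx a + ∑ a, dx a * x a + - y = 0) : y = dq x dx := by
  have h1 : ∑ a, dx a * x a = ∑ a, x a * dx a := Finset.sum_congr rfl fun a _ => mul_comm _ _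
  unfold dq
  rw [h1] at h
  linear_combination -h

private theorem KS_q10 {x : A → ℂ} (hx : x oA = 1) {y : ℂ}
    (h : ∑ a, scl oA 1 0 x a * scl oA 1 0 x a + - y + 0 = 0) : y = 1 := by
  have h1 : ∑ a, scl oA 1 0 x a * scl oA 1 0 x a = 1 := by
    rw [Finset.sum_eq_single oA]
    · unfold scl
      rw [if_pos rfl, hx, Complex.ofReal_one, one_mul, one_mul]
    · intro b _ hb
      unfold scl
      rw [if_neg hb, Complex.ofReal_zero, zero_mul, zero_mul]
    · intro hb
      exact absurd (Finset.mem_univ _) hb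
  rw [h1] at h
  linear_combination -h

private theorem KS_w10 (hco : c ≠ oC) {x : C → ℂ} (hx : x c = 1) {y : ℂ}
    (h : ∑ k, ha c oC 0 0 x k * ha c oC 0 0 x k + - y + 0 = 0) : y = 1 := by
  have h1 : ∑ k, ha c oC 0 0 x k * ha c oC 0 0 x k = 1 := by
    rw [Finset.sum_eq_single c]
    · unfold ha
      rw [if_neg hco, if_pos rfl, hx, Complex.ofReal_one, one_mul, one_mul]
    · intro b _ hb
      unfold ha
      by_cases h2 : b = oC
      · rw [if_pos h2, Complex.ofReal_zero, zero_mul, zero_mul]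
      · rw [if_neg h2, if_neg hb, Complex.ofReal_zero, zero_mul, zero_mul]
    · intro hb
      exact absurd (Finset.mem_univ _) hb
  rw [h1] at h
  linear_combination -h

private theorem KS_fin {l : Fin 14 → ℂ} (h : ∀ i, l i = 0) : l = 0 := funext h

/-- The kernel at `zS12 = ![1, 1, 1, 0, 0, 1, 1, 0, 1, 0, 1]`.

Proof. Let `U = scl oA 0 1 p.1`, `V = scl oB 0 1 p.2.1` (coordinates `oA`, `oB` replaced by `0`) and
`W = p.2.2.1` (`ha c oC 1 1` is the identity), `X = p.1 oA`, `Y = p.2.1 oB`. Let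
`h = (du, dv, dw, dl)` be in the kernel and `dU = scl oA 0 1 du`, `dV = scl oB 0 1 dv`. The
equations say that `(dU, dV, dw, dα, dβ, dγ, dθ, dν)` is in `KerB` for the masks `univ.erase oA`,
`univ.erase oB` (`e8`: equation twelve is `κ3 Z - Z g3 + ν W c = 0`, with `κ3 = γ Z`, `g3 = c3 T U V oC`;
linearise). By `ob` and the normalisation (`ia ≠ oA`, `ib ≠ oB`) `dU = dV = dw = 0`, and by
`KerB.zero` the scalars `dα, .., dν` vanish; so do `dqu, dqv, dqw, dg1, dg2, dg3, dκ3`. Equation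
ten: `s (dX Y + X dY) = dν = 0`. Equation eleven: `- X g1 + Y g2 = 0`, linearised
`dX g1 = dY g2`. So `dX Y g2 = - X dY g2 = - X dX g1 = - Y g2 dX`, `dX = 0` (`Y g2 ≠ 0`), `dY = 0`.
Then `dκ1 = dκ2 = 0`. -/
theorem KS12 (hco : c ≠ oC) (hs : s ≠ 0)
    (hsol : bA oA oB c oC s (T, zS12) p p + lA oA oB c oC s ia ib ic (T, zS12) p + kA = 0)
    (hb : BT T (Finset.univ.erase oA) (Finset.univ.erase oB) c oC s (scl oA 0 1 p.1)
      (scl oB 0 1 p.2.1) p.2.2.1 (p.2.2.2 0) (p.2.2.2 1) (p.2.2.2 2) (p.2.2.2 3) (p.2.2.2 4))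
    (ob : OkB T (Finset.univ.erase oA) (Finset.univ.erase oB) c oC s (scl oA 0 1 p.1)
      (scl oB 0 1 p.2.1) p.2.2.1 (p.2.2.2 0) (p.2.2.2 1) (p.2.2.2 2) (p.2.2.2 3) (p.2.2.2 4))
    (hia : ia ≠ oA) (hib : ib ≠ oB) (hX : p.1 oA ≠ 0) (hY : p.2.1 oB ≠ 0)
    (hg : p.2.2.2 12 ≠ 0) (h : PA A B C)
    (hk : bA oA oB c oC s (T, zS12) p h + bA oA oB c oC s (T, zS12) h p
      + lA oA oB c oC s ia ib ic (T, zS12) h = 0) : h = 0 := by
  obtain ⟨u, v, w, l⟩ := p
  obtain ⟨du, dv, dw, dl⟩ := h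
  simp only at hb ob hX hY hg
  have S := KSS_of hco hsol
  have K := KSL_of hco hk
  obtain ⟨sk0, -, -, -, -, s3, s4, s5, s6, s7, s8, s9, s10, s11, s13, s14, s15⟩ := S
  obtain ⟨a1, a0, b1, b0, k0, kc, kn, f0, f1, f2, f3, f4, f5, f6, f7, f8, f9, f10, f11, f12, f13,
    f14, f15⟩ := K
  have z0 : zS12 0 = 1 := rfl
  have z1 : zS12 1 = 1 := rfl
  have z2 : zS12 2 = 1 := rfl
  have z3 : zS12 3 = 0 := rfl
  have z4 : zS12 4 = 0 := rfl
  have z5 : zS12 5 = 1 := rfl
  have z6 : zS12 6 = 1 := rfl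
  have z7 : zS12 7 = 0 := rfl
  have z8 : zS12 8 = 1 := rfl
  have z9 : zS12 9 = 0 := rfl
  have z10 : zS12 10 = 1 := rfl
  simp only [z0, z1, z2, z3, z4, z5, z6, z7, z8, z9, z10, KS_ha11, Complex.ofReal_one,
    Complex.ofReal_zero, one_mul, zero_mul, one_pow]
    at sk0 s3 s4 s5 s11 a1 a0 b1 b0 k0 kc kn f3 f4 f5 f11 f12
  have q5 := KS_q _ s3
  have q6 := KS_q _ s4
  have q7 := KS_q _ s5
  have d5 := KS_dq _ _ f3
  have d6 := KS_dq _ _ f4
  have d7 := KS_dq _ _ f5
  have hker : KerB T (Finset.univ.erase oA) (Finset.univ.erase oB) c oC s (scl oA 0 1 u)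
      (scl oB 0 1 v) w (l 0) (l 1) (l 2) (l 3) (l 4) (scl oA 0 1 du) (scl oB 0 1 dv) dw (dl 0)
      (dl 1) (dl 2) (dl 3) (dl 4) := by
    refine ⟨fun a ha => ?_, fun b hb => ?_, fun a ha => ?_, fun b hb => ?_, fun k hk => ?_,
      ?_, ?_, ?_, ?_, ?_⟩
    · have h1 : a = oA := by
        by_contra h
        exact ha (Finset.mem_erase.2 ⟨h, Finset.mem_univ _⟩)
      rw [h1, KS_s01o]
    · have h1 : b = oB := by
        by_contra h
        exact hb (Finset.mem_erase.2 ⟨h, Finset.mem_univ _⟩)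
      rw [h1, KS_s01o]
    · have h1 : a ≠ oA := (Finset.mem_erase.1 ha).1
      rw [KS_s01 u h1, KS_s01 du h1]
      linear_combination a1 a h1
    · have h1 : b ≠ oB := (Finset.mem_erase.1 hb).1
      rw [KS_s01 v h1, KS_s01 dv h1]
      linear_combination b1 b h1
    · by_cases h2 : k = c
      · rw [h2, if_pos rfl]
        linear_combination kc
      · rw [if_neg h2]
        linear_combination kn k hk h2
    · rw [← q6, ← q7, ← d6, ← d7]
      linear_combination f0
    · rw [← q5, ← q7, ← d5, ← d7]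
      linear_combination f1
    · rw [← q5, ← q6, ← d5, ← d6]
      linear_combination f2
    · linear_combination f9
    · rw [sk0]
      linear_combination f12 + dw oC * s8 + w oC * f8 - w oC * k0
  obtain ⟨⟨r1, h1⟩, ⟨r2, h2⟩, ⟨r3, h3⟩⟩ := ob.nd _ _ _ _ _ _ _ _ hker
  have g1 : scl oA 0 1 du = 0 := by
    have h := congrFun h1 ia
    rw [Pi.smul_apply, KS_s01 _ hia, KS_s01 _ hia, f13, s13, smul_eq_mul, mul_one] at h
    rw [h1, ← h, zero_smul]
  have g2 : scl oB 0 1 dv = 0 := by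
    have h := congrFun h2 ib
    rw [Pi.smul_apply, KS_s01 _ hib, KS_s01 _ hib, f14, s14, smul_eq_mul, mul_one] at h
    rw [h2, ← h, zero_smul]
  have g3 : dw = 0 := by
    have h := congrFun h3 ic
    rw [Pi.smul_apply, f15, s15, smul_eq_mul, mul_one] at h
    rw [h3, ← h, zero_smul]
  subst g3
  rw [g1, g2] at hker
  have hU : scl oA 0 1 u ≠ 0 := by
    intro h
    have h4 := congrFun h ia
    rw [KS_s01 _ hia, s13] at h4
    exact one_ne_zero h4
  have hV : scl oB 0 1 v ≠ 0 := by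
    intro h
    have h4 := congrFun h ib
    rw [KS_s01 _ hib, s14] at h4
    exact one_ne_zero h4
  have hW : w ≠ 0 := by
    intro h
    have h4 := congrFun h ic
    rw [s15] at h4
    exact one_ne_zero h4
  obtain ⟨n0, n1, n2, n3, n4⟩ := KerB.zero hs hb hU hV hW ob.ru ob.rv ob.rw' hker
  have n11 : dl 11 = 0 := by
    rw [g2, c1_zero_left, c1_zero_right] at a0
    linear_combination -a0
  have n12 : dl 12 = 0 := by
    rw [g1, c2_zero_left, c2_zero_right] at b0
    linear_combination -b0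
  have n13 : dl 13 = 0 := by
    rw [g1, g2, c3_zero_left, c3_zero_right] at k0
    linear_combination -k0
  have hs' : (s : ℂ) ≠ 0 := Complex.ofReal_ne_zero.2 hs
  have e10 : u oA * dv oB + du oA * v oB = 0 := by
    have h : (s : ℂ) * (u oA * dv oB + du oA * v oB) = 0 := by
      linear_combination n4 - f10
    exact (mul_eq_zero.1 h).resolve_left hs'
  have mX : du oA = 0 := by
    rw [n11, n12] at f11
    have h : 2 * (du oA * (v oB * l 12)) = 0 := by
      linear_combination l 12 * e10 - u oA * f11 + du oA * s11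
    have h' := (mul_eq_zero.1 h).resolve_left two_ne_zero
    exact (mul_eq_zero.1 h').resolve_right (mul_ne_zero hY hg)
  have mY : dv oB = 0 := by
    rw [mX] at e10
    have h : u oA * dv oB = 0 := by linear_combination e10
    exact (mul_eq_zero.1 h).resolve_left hX
  have gu : du = 0 := by
    funext a
    by_cases h : a = oA
    · rw [h, mX]
      rfl
    · rw [← KS_s01 (oA := oA) du h, g1]
  have gv : dv = 0 := by
    funext b
    by_cases h : b = oB
    · rw [h, mY]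
      rfl
    · rw [← KS_s01 (oA := oB) dv h, g2]
  have n5 : dl 5 = 0 := by
    rw [d5, g1]
    simp [dq]
  have n6 : dl 6 = 0 := by
    rw [d6, g2]
    simp [dq]
  have n7 : dl 7 = 0 := by
    rw [d7]
    simp [dq]
  have n8 : dl 8 = 0 := by
    rw [mX, n0] at f6
    linear_combination -f6
  have n9 : dl 9 = 0 := by
    rw [mY, n1] at f7
    linear_combination -f7
  have n10 : dl 10 = 0 := by
    rw [n2, Pi.zero_apply] at f8
    linear_combination -f8
  have n : dl = 0 := by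
    refine KS_fin fun i => ?_
    fin_cases i
    · exact n0
    · exact n1
    · exact n2
    · exact n3
    · exact n4
    · exact n5
    · exact n6
    · exact n7
    · exact n8
    · exact n9
    · exact n10
    · exact n11
    · exact n12
    · exact n13
  rw [n, gu, gv]
  rfl

/-- The kernel at `zS2 = ![1, 1, 1, 1, 0, 1, 1, 1, 1, 0, 0]`.

Proof. Let `U = p.1` (`scl oA 1 1` is the identity), `V = scl oB 0 1 p.2.1`, `W = p.2.2.1`,
`X = p.1 oA ≠ 0`, `Y = p.2.1 oB`. Let `h = (du, dv, dw, dl)` be in the kernel and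
`dV = scl oB 0 1 dv`. Equation eleven is `κ1 X - X g1 = 0`, so `κ1 = g1`; linearised (with
`κ1 = g1`) `X (dκ1 - dg1) = 0`, so `dg1 = dκ1 = dα X + α dX`: the linearised equation `e1` at `oA`.
Equation twelve is `κ3 Z - Z g3 + ν W c - κ1 X + X g1 = 0`, so with eleven
`κ3 Z - Z g3 + ν W c = 0`: `e8`, and the same for the linearised equations. So
`(du, dV, dw, dα, dβ, dγ, dθ, dν)` is in `KerB` for the masks `univ`, `univ.erase oB`. By `ob` and
the normalisation (`ib ≠ oB`) `du = dV = dw = 0`, and by `KerB.zero` the scalars vanish. Equation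
ten: `s (dX Y + X dY) = dν = 0` with `dX = 0`, so `dY = 0`; all other scalars vanish. -/
theorem KS2 (hco : c ≠ oC) (hs : s ≠ 0)
    (hsol : bA oA oB c oC s (T, zS2) p p + lA oA oB c oC s ia ib ic (T, zS2) p + kA = 0)
    (hb : BT T Finset.univ (Finset.univ.erase oB) c oC s p.1 (scl oB 0 1 p.2.1) p.2.2.1
      (p.2.2.2 0) (p.2.2.2 1) (p.2.2.2 2) (p.2.2.2 3) (p.2.2.2 4))
    (ob : OkB T Finset.univ (Finset.univ.erase oB) c oC s p.1 (scl oB 0 1 p.2.1) p.2.2.1
      (p.2.2.2 0) (p.2.2.2 1) (p.2.2.2 2) (p.2.2.2 3) (p.2.2.2 4))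
    (hib : ib ≠ oB) (hX : p.1 oA ≠ 0) (h : PA A B C)
    (hk : bA oA oB c oC s (T, zS2) p h + bA oA oB c oC s (T, zS2) h p
      + lA oA oB c oC s ia ib ic (T, zS2) h = 0) : h = 0 := by
  obtain ⟨u, v, w, l⟩ := p
  obtain ⟨du, dv, dw, dl⟩ := h
  simp only at hb ob hX
  have S := KSS_of hco hsol
  have K := KSL_of hco hk
  obtain ⟨sk0, -, -, -, -, s3, s4, s5, s6, s7, s8, s9, s10, s11, s13, s14, s15⟩ := S
  obtain ⟨a1, a0, b1, b0, k0, kc, kn, f0, f1, f2, f3, f4, f5, f6, f7, f8, f9, f10, f11, f12, f13,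
    f14, f15⟩ := K
  have z0 : zS2 0 = 1 := rfl
  have z1 : zS2 1 = 1 := rfl
  have z2 : zS2 2 = 1 := rfl
  have z3 : zS2 3 = 1 := rfl
  have z4 : zS2 4 = 0 := rfl
  have z5 : zS2 5 = 1 := rfl
  have z6 : zS2 6 = 1 := rfl
  have z7 : zS2 7 = 1 := rfl
  have z8 : zS2 8 = 1 := rfl
  have z9 : zS2 9 = 0 := rfl
  have z10 : zS2 10 = 0 := rfl
  simp only [z0, z1, z2, z3, z4, z5, z6, z7, z8, z9, z10, KS_ha11, KS_s11, Complex.ofReal_one,
    Complex.ofReal_zero, one_mul, zero_mul, one_pow]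
    at sk0 s3 s4 s5 s11 a1 a0 b1 b0 k0 kc kn f3 f4 f5 f11 f12
  have q5 := KS_q _ s3
  have q6 := KS_q _ s4
  have q7 := KS_q _ s5
  have d5 := KS_dq _ _ f3
  have d6 := KS_dq _ _ f4
  have d7 := KS_dq _ _ f5
  have t1 : l 11 = l 8 := by
    have h : u oA * (l 8 - l 11) = 0 := by linear_combination s11
    have h' := (mul_eq_zero.1 h).resolve_left hX
    linear_combination -h'
  have t2 : dl 11 = dl 8 := by
    rw [t1] at f11
    have h : u oA * (dl 8 - dl 11) = 0 := by linear_combination f11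
    have h' := (mul_eq_zero.1 h).resolve_left hX
    linear_combination -h'
  have hker : KerB T Finset.univ (Finset.univ.erase oB) c oC s u
      (scl oB 0 1 v) w (l 0) (l 1) (l 2) (l 3) (l 4) du (scl oB 0 1 dv) dw (dl 0)
      (dl 1) (dl 2) (dl 3) (dl 4) := by
    refine ⟨fun a ha => absurd (Finset.mem_univ a) ha, fun b hb => ?_, fun a _ => ?_,
      fun b hb => ?_, fun k hk => ?_, ?_, ?_, ?_, ?_, ?_⟩
    · have h1 : b = oB := by
        by_contra h
        exact hb (Finset.mem_erase.2 ⟨h, Finset.mem_univ _⟩)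
      rw [h1, KS_s01o]
    · by_cases h1 : a = oA
      · rw [h1]
        linear_combination a0 + t2 - f6
      · linear_combination a1 a h1
    · have h1 : b ≠ oB := (Finset.mem_erase.1 hb).1
      rw [KS_s01 v h1, KS_s01 dv h1]
      linear_combination b1 b h1
    · by_cases h2 : k = c
      · rw [h2, if_pos rfl]
        linear_combination kc
      · rw [if_neg h2]
        linear_combination kn k hk h2
    · rw [← q6, ← q7, ← d6, ← d7]
      linear_combination f0
    · rw [← q5, ← q7, ← d5, ← d7]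
      linear_combination f1
    · rw [← q5, ← q6, ← d5, ← d6]
      linear_combination f2
    · linear_combination f9
    · rw [sk0]
      linear_combination f12 + f11 + dw oC * s8 + w oC * f8 - w oC * k0
  obtain ⟨⟨r1, h1⟩, ⟨r2, h2⟩, ⟨r3, h3⟩⟩ := ob.nd _ _ _ _ _ _ _ _ hker
  have g1 : du = 0 := by
    have h := congrFun h1 ia
    rw [Pi.smul_apply, f13, s13, smul_eq_mul, mul_one] at h
    rw [h1, ← h, zero_smul]
  have g2 : scl oB 0 1 dv = 0 := by
    have h := congrFun h2 ib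
    rw [Pi.smul_apply, KS_s01 _ hib, KS_s01 _ hib, f14, s14, smul_eq_mul, mul_one] at h
    rw [h2, ← h, zero_smul]
  have g3 : dw = 0 := by
    have h := congrFun h3 ic
    rw [Pi.smul_apply, f15, s15, smul_eq_mul, mul_one] at h
    rw [h3, ← h, zero_smul]
  subst g1 g3
  rw [g2] at hker
  have hU : u ≠ 0 := by
    intro h
    have h4 := congrFun h ia
    rw [s13] at h4
    exact one_ne_zero h4
  have hV : scl oB 0 1 v ≠ 0 := by
    intro h
    have h4 := congrFun h ib
    rw [KS_s01 _ hib, s14] at h4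
    exact one_ne_zero h4
  have hW : w ≠ 0 := by
    intro h
    have h4 := congrFun h ic
    rw [s15] at h4
    exact one_ne_zero h4
  obtain ⟨n0, n1, n2, n3, n4⟩ := KerB.zero hs hb hU hV hW ob.ru ob.rv ob.rw' hker
  have n11 : dl 11 = 0 := by
    rw [g2, c1_zero_left, c1_zero_right] at a0
    linear_combination -a0
  have n12 : dl 12 = 0 := by
    rw [c2_zero_left, c2_zero_right] at b0
    linear_combination -b0
  have n13 : dl 13 = 0 := by
    rw [g2, c3_zero_left, c3_zero_right] at k0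
    linear_combination -k0
  have hs' : (s : ℂ) ≠ 0 := Complex.ofReal_ne_zero.2 hs
  have mY : dv oB = 0 := by
    have h : (s : ℂ) * (u oA * dv oB) = 0 := by
      rw [Pi.zero_apply] at f10
      linear_combination n4 - f10
    exact (mul_eq_zero.1 ((mul_eq_zero.1 h).resolve_left hs')).resolve_left hX
  have gv : dv = 0 := by
    funext b
    by_cases h : b = oB
    · rw [h, mY]
      rfl
    · rw [← KS_s01 (oA := oB) dv h, g2]
  have n5 : dl 5 = 0 := by
    rw [d5]
    simp [dq]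
  have n6 : dl 6 = 0 := by
    rw [d6, g2]
    simp [dq]
  have n7 : dl 7 = 0 := by
    rw [d7]
    simp [dq]
  have n8 : dl 8 = 0 := by rw [← t2, n11]
  have n9 : dl 9 = 0 := by
    rw [mY, n1] at f7
    linear_combination -f7
  have n10 : dl 10 = 0 := by
    rw [n2, Pi.zero_apply] at f8
    linear_combination -f8
  have n : dl = 0 := by
    refine KS_fin fun i => ?_
    fin_cases i
    · exact n0
    · exact n1
    · exact n2
    · exact n3
    · exact n4
    · exact n5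
    · exact n6
    · exact n7
    · exact n8
    · exact n9
    · exact n10
    · exact n11
    · exact n12
    · exact n13
  rw [n, gv]
  rfl

/-- The kernel at `zTr = ![0, 0, 0, 1, 1, 0, 0, 1, 0, 1, 0]`, normalised at `oA`, `oB`, `c`.

Proof. The scaled vectors are `X`, `Y`, `W c` times unit vectors, with `X = Y = W c = 1`
(normalisation). The equations for `p`: ten: `ν = s`; third component at `c`: `ν - γ = 0` (`μ = 0`), so
`γ = s`; `qu = qv = qw = 1`; `θ γ = 1`, so `θ = 1 / s`, and `θ α = 1`, `θ β = 1`: `α = β = s`. Let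
`h = (du, dv, dw, dl)` be in the kernel: `dX = dY = dw c = 0`, `dν = 0`, `dγ = 0`, `dqu = dqv = dqw = 0`
(their linearisations are multiples of `dX`, `dY`, `dw c`), `dθ = 0`, `dα = dβ = 0`. For `a ≠ oA`:
`0 = α du a` (the contraction is linear in `dY`, `dw c`), so `du = 0`; `dv = 0`; for
`k ≠ c, oC`: `dw k = 0`. `Z ν = s θ`: `dZ ν = 0`, so `dw oC = 0`. The remaining scalars vanish. -/
theorem KTr (hco : c ≠ oC) (hs : s ≠ 0)
    (hsol : bA oA oB c oC s (T, zTr) p p + lA oA oB c oC s oA oB c (T, zTr) p + kA = 0)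
    (h : PA A B C)
    (hk : bA oA oB c oC s (T, zTr) p h + bA oA oB c oC s (T, zTr) h p
      + lA oA oB c oC s oA oB c (T, zTr) h = 0) : h = 0 := by
  obtain ⟨u, v, w, l⟩ := p
  obtain ⟨du, dv, dw, dl⟩ := h
  have S := KSS_of hco hsol
  have K := KSL_of hco hk
  obtain ⟨-, skc, s0, s1, s2, s3, s4, s5, s6, s7, s8, s9, s10, s11, s13, s14, s15⟩ := S
  obtain ⟨a1, a0, b1, b0, k0, kc, kn, f0, f1, f2, f3, f4, f5, f6, f7, f8, f9, f10, f11, f12, f13,
    f14, f15⟩ := K
  have z0 : zTr 0 = 0 := rfl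
  have z1 : zTr 1 = 0 := rfl
  have z2 : zTr 2 = 0 := rfl
  have z3 : zTr 3 = 1 := rfl
  have z4 : zTr 4 = 1 := rfl
  have z5 : zTr 5 = 0 := rfl
  have z6 : zTr 6 = 0 := rfl
  have hw0 : ha c oC 0 0 dw = 0 := KS_ha00 f15
  have hu0 : scl oA 1 0 du = 0 := KS_s10 f13
  have hv0 : scl oB 1 0 dv = 0 := KS_s10 f14
  simp only [z0, z1, z2, z3, z4, z5, z6, hw0, hu0, hv0, c1_zero_left, c1_zero_right,
    c2_zero_left, c2_zero_right, c3_zero_left, c3_zero_right, Complex.ofReal_zero, zero_mul]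
    at skc s3 s4 s5 a1 a0 b1 b0 k0 kc kn f3 f4 f5
  have hs' : (s : ℂ) ≠ 0 := Complex.ofReal_ne_zero.2 hs
  have l4 : l 4 = s := by
    rw [s13, s14] at s10
    linear_combination s10
  have l2 : l 2 = s := by
    rw [s15, l4] at skc
    linear_combination -skc
  have l5 : l 5 = 1 := KS_q10 s13 s3
  have l6 : l 6 = 1 := KS_q10 s14 s4
  have l7 : l 7 = 1 := KS_w10 hco s15 s5
  have l3 : l 3 * s = 1 := by
    rw [l2, l5, l6] at s2
    linear_combination s2
  have l30 : l 3 ≠ 0 := by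
    intro h
    rw [h, zero_mul] at l3
    exact zero_ne_one l3
  have l00 : l 0 ≠ 0 := by
    intro h
    rw [h, l6, l7] at s0
    exact one_ne_zero (by linear_combination -s0 : (1 : ℂ) = 0)
  have l10 : l 1 ≠ 0 := by
    intro h
    rw [h, l5, l7] at s1
    exact one_ne_zero (by linear_combination -s1 : (1 : ℂ) = 0)
  have l20 : l 2 ≠ 0 := by rwa [l2]
  have n4 : dl 4 = 0 := by
    rw [f13, f14] at f10
    linear_combination f10
  have n2 : dl 2 = 0 := by
    rw [f15, s15, n4] at kc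
    linear_combination -kc
  have n5 : dl 5 = 0 := by simpa using f3
  have n6 : dl 6 = 0 := by simpa using f4
  have n7 : dl 7 = 0 := by simpa using f5
  have n3 : dl 3 = 0 := by
    rw [n2, n5, n6] at f2
    have h : dl 3 * l 2 = 0 := by linear_combination f2
    exact (mul_eq_zero.1 h).resolve_right l20
  have n0 : dl 0 = 0 := by
    rw [n3, n6, n7] at f0
    have h : l 3 * dl 0 = 0 := by linear_combination f0
    exact (mul_eq_zero.1 h).resolve_left l30
  have n1 : dl 1 = 0 := by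
    rw [n3, n5, n7] at f1
    have h : l 3 * dl 1 = 0 := by linear_combination f1
    exact (mul_eq_zero.1 h).resolve_left l30
  have gu : du = 0 := by
    funext a
    by_cases h : a = oA
    · rw [h, f13]
      rfl
    · have h1 := a1 a h
      rw [n0] at h1
      have h2 : l 0 * du a = 0 := by linear_combination -h1
      exact (mul_eq_zero.1 h2).resolve_left l00
  have gv : dv = 0 := by
    funext b
    by_cases h : b = oB
    · rw [h, f14]
      rfl
    · have h1 := b1 b h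
      rw [n1] at h1
      have h2 : l 1 * dv b = 0 := by linear_combination -h1
      exact (mul_eq_zero.1 h2).resolve_left l10
  have mw : dw oC = 0 := by
    rw [n3, n4, l4] at f9
    have h : dw oC * (s : ℂ) = 0 := by linear_combination f9
    exact (mul_eq_zero.1 h).resolve_right hs'
  have gw : dw = 0 := by
    funext k
    by_cases h : k = oC
    · rw [h, mw]
      rfl
    · by_cases h' : k = c
      · rw [h', f15]
        rfl
      · have h1 := kn k h h'
        rw [n2] at h1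
        have h2 : l 2 * dw k = 0 := by linear_combination -h1
        exact (mul_eq_zero.1 h2).resolve_left l20
  have n8 : dl 8 = 0 := by
    rw [f13, n0] at f6
    linear_combination -f6
  have n9 : dl 9 = 0 := by
    rw [f14, n1] at f7
    linear_combination -f7
  have n10 : dl 10 = 0 := by
    rw [mw, n2] at f8
    linear_combination -f8
  have n11 : dl 11 = 0 := by linear_combination -a0
  have n12 : dl 12 = 0 := by linear_combination -b0
  have n13 : dl 13 = 0 := by linear_combination -k0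
  have n : dl = 0 := by
    refine KS_fin fun i => ?_
    fin_cases i
    · exact n0
    · exact n1
    · exact n2
    · exact n3
    · exact n4
    · exact n5
    · exact n6
    · exact n7
    · exact n8
    · exact n9
    · exact n10
    · exact n11
    · exact n12
    · exact n13
  rw [n, gu, gv, gw]
  rfl

end

end Pool.Agent.MPb0eR
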