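import Mathlib
import Pool.Agent.Lib.MP_b0e20b_ag_R.QFin
import Pool.Agent.Lib.MP_b0e20b_ag_R.AQ
import Pool.Agent.Lib.MP_b0e20b_ag_R.KS

/-!
# MP_b0e20b_ag, project R: limits of the third level
-/

set_option autoImplicit false

open scoped BigOperators Topology
open Filter

namespace Pool.Agent.MPb0eR

section

variable {A B C : Type} [Fintype A] [Fintype B] [Fintype C] [DecidableEq A] [DecidableEq B]
  [DecidableEq C] {T : ℕ → A → B → C → ℝ} {T0 : A → B → C → ℝ} {oA : A} {oB : B} {c oC : C}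
  {L : ℕ → ℝ} {s : ℝ} {ia : A} {ib : B} {ic : C} {u : ℕ → A → ℂ} {v : ℕ → B → ℂ}
  {w : ℕ → C → ℂ} {α β γ θ ν : ℕ → ℂ} {u0 : A → ℂ} {v0 : B → ℂ} {w0 : C → ℂ}
  {α0 β0 γ0 θ0 ν0 : ℂ}

private theorem RS_mul {x y : ℂ} (hx : x.im = 0) (hy : y.im = 0) : (x * y).im = 0 := by
  rw [Complex.mul_im, hx, hy, mul_zero, zero_mul, add_zero]

private theorem RS_div {x y : ℂ} (hx : x.im = 0) (hy : y.im = 0) : (x / y).im = 0 := by
  have h1 : x = ((x.re : ℝ) : ℂ) := Complex.ext (Complex.ofReal_re _).symm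
    (by rw [Complex.ofReal_im]; exact hx)
  have h2 : y = ((y.re : ℝ) : ℂ) := Complex.ext (Complex.ofReal_re _).symm
    (by rw [Complex.ofReal_im]; exact hy)
  rw [h1, h2, ← Complex.ofReal_div, Complex.ofReal_im]

private theorem RS_re {x : ℂ} (hx : x.im = 0) : x = ((x.re : ℝ) : ℂ) :=
  Complex.ext (Complex.ofReal_re _).symm (by rw [Complex.ofReal_im]; exact hx)

private theorem RS_q {A : Type} [Fintype A] {u : A → ℂ} (h : Rea u) : (q u).im = 0 := by
  rw [← Complex.conj_eq_iff_im, ← q_cj, (rea_iff u).1 h]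

/-- A complex number with positive real square is real and not zero. -/
private theorem RS_real {x : ℂ} {r : ℝ} (hr : 0 < r) (h : x ^ 2 = (r : ℂ)) :
    x.im = 0 ∧ x ≠ 0 := by
  have h1 : x.re * x.re - x.im * x.im = r := by
    have h2 := congrArg Complex.re h
    rwa [pow_two, Complex.mul_re, Complex.ofReal_re] at h2
  have h3 : x.re * x.im + x.im * x.re = 0 := by
    have h2 := congrArg Complex.im h
    rwa [pow_two, Complex.mul_im, Complex.ofReal_im] at h2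
  have h4 : x.im = 0 := by
    by_contra h5
    have h6 : x.re * x.im = 0 := by linarith
    have h7 : x.re = 0 := (mul_eq_zero.1 h6).resolve_right h5
    rw [h7] at h1
    nlinarith [mul_self_nonneg x.im]
  refine ⟨h4, fun h5 => ?_⟩
  rw [h5, Complex.zero_re, Complex.zero_im] at h1
  linarith

private theorem RS_scl {A : Type} [DecidableEq A] {a0 : A} {e f : ℝ} (he : e ≠ 0) (hf : f ≠ 0)
    {u : A → ℂ} (h : Rea (scl a0 e f u)) : Rea u := by
  intro a
  have h1 := h a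
  rw [scl, Complex.im_ofReal_mul] at h1
  refine (mul_eq_zero.1 h1).resolve_left ?_
  split_ifs
  · exact he
  · exact hf

private theorem RS_ha {C : Type} [DecidableEq C] {c o : C} {e f : ℝ} (he : e ≠ 0) (hf : f ≠ 0)
    {w : C → ℂ} (h : Rea (ha c o e f w)) : Rea w := by
  intro k
  have h1 := h k
  rw [ha, Complex.im_ofReal_mul] at h1
  refine (mul_eq_zero.1 h1).resolve_left ?_
  split_ifs
  · exact he
  · exact one_ne_zero
  · exact hf

private theorem RS_scl1 {A : Type} [DecidableEq A] {a0 : A} (u : A → ℂ) :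
    scl a0 (1 / (1 : ℝ)) (1 / (1 : ℝ)) u = u := by
  funext a
  simp [scl]

private theorem RS_ha1 {C : Type} [DecidableEq C] {c o : C} (w : C → ℂ) :
    ha c o (1 / (1 : ℝ)) (1 / (1 : ℝ)) w = w := by
  funext a
  simp [ha]

private theorem RS_sclu {A : Type} [DecidableEq A] {a0 : A} (x : ℝ) (u : A → ℂ) :
    scl a0 (1 / x) (1 / (1 : ℝ)) u = Function.update u a0 (u a0 / (x : ℂ)) := by
  funext a
  by_cases h : a = a0
  · subst h
    rw [Function.update_self, scl, if_pos rfl, Complex.ofReal_div, Complex.ofReal_one,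
      div_mul_eq_mul_div, one_mul]
  · rw [Function.update_of_ne h, scl, if_neg h, div_one, Complex.ofReal_one, one_mul]

private theorem RS_upd {A : Type} [DecidableEq A] {a0 : A} {u : ℕ → A → ℂ} {u0 : A → ℂ}
    {x : ℕ → ℂ} {x0 : ℂ} (hu : Tendsto u uf (𝓝 u0)) (hx : Tendsto x uf (𝓝 x0)) :
    Tendsto (fun n => Function.update (u n) a0 (x n)) uf (𝓝 (Function.update u0 a0 x0)) := by
  refine tendsto_pi_nhds.2 fun k => ?_
  by_cases hk : k = a0
  · subst hk
    simpa only [Function.update_self] using hx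
  · simpa only [Function.update_of_ne hk] using tendsto_pi_nhds.1 hu k

private theorem RS_updr {A : Type} [DecidableEq A] {a0 : A} {u0 : A → ℂ} {x0 : ℂ} (hu : Rea u0)
    (hx : x0.im = 0) : Rea (Function.update u0 a0 x0) := by
  intro k
  by_cases hk : k = a0
  · subst hk
    rw [Function.update_self]
    exact hx
  · rw [Function.update_of_ne hk]
    exact hu k

private theorem RS_upd0 {A : Type} [DecidableEq A] {a0 : A} {u0 : A → ℂ} {x0 : ℂ}
    (hu : u0 a0 = 0) : scl a0 0 1 (Function.update u0 a0 x0) = u0 := by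
  funext k
  by_cases hk : k = a0
  · subst hk
    rw [scl, if_pos rfl, Complex.ofReal_zero, zero_mul, hu]
  · rw [scl, if_neg hk, Complex.ofReal_one, one_mul, Function.update_of_ne hk]

omit [DecidableEq A] [DecidableEq B] [DecidableEq C] in
private theorem RS_c1 (hT : Tendsto T uf (𝓝 T0)) (lv : Lv u v w u0 v0 w0) (a : A) :
    Tendsto (fun n => c1 (T n) (v n) (w n) a) uf (𝓝 (c1 T0 v0 w0 a)) :=
  tendsto_pi_nhds.1 ((continuous_c1T.tendsto (T0, v0, w0)).comp
    (hT.prodMk_nhds (lv.hv.prodMk_nhds lv.hw))) a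

omit [DecidableEq A] [DecidableEq B] [DecidableEq C] in
private theorem RS_c2 (hT : Tendsto T uf (𝓝 T0)) (lv : Lv u v w u0 v0 w0) (b : B) :
    Tendsto (fun n => c2 (T n) (u n) (w n) b) uf (𝓝 (c2 T0 u0 w0 b)) :=
  tendsto_pi_nhds.1 ((continuous_c2T.tendsto (T0, u0, w0)).comp
    (hT.prodMk_nhds (lv.hu.prodMk_nhds lv.hw))) b

omit [DecidableEq A] [DecidableEq B] [DecidableEq C] in
private theorem RS_c3 (hT : Tendsto T uf (𝓝 T0)) (lv : Lv u v w u0 v0 w0) (k : C) :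
    Tendsto (fun n => c3 (T n) (u n) (v n) k) uf (𝓝 (c3 T0 u0 v0 k)) :=
  tendsto_pi_nhds.1 ((continuous_c3T.tendsto (T0, u0, v0)).comp
    (hT.prodMk_nhds (lv.hu.prodMk_nhds lv.hv))) k

/-- The limit point. -/
private def RS_p (T : A → B → C → ℝ) (oA : A) (oB : B) (oC : C) (U : A → ℂ) (V : B → ℂ)
    (W : C → ℂ) (a b g t m : ℂ) (u : A → ℂ) (v : B → ℂ) (w : C → ℂ) : PA A B C :=
  (U, V, W, ![a, b, g, t, m, q u, q v, q w, a * U oA, b * V oB, g * W oC, c1 T v w oA,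
    c2 T u w oB, c3 T u v oC])

/-- The common end of the proofs. -/
private theorem RS_main (hco : c ≠ oC) (hs : 0 < s)
    (h : SqA T T0 oA oB c oC L s ia ib ic u v w α β γ θ ν) (lv : Lv u v w u0 v0 w0)
    {z : ℕ → Fin 11 → ℝ} {z0 : Fin 11 → ℝ} {U : A → ℂ} {V : B → ℂ} {W : C → ℂ}
    {a b g t m : ℂ} (hz : ∀ n, ScA (L n) (z n)) (hzl : Tendsto z uf (𝓝 z0))
    (hU : Tendsto (fun n => scl oA (1 / z n 3) (1 / z n 0) (u n)) uf (𝓝 U))
    (hV : Tendsto (fun n => scl oB (1 / z n 4) (1 / z n 1) (v n)) uf (𝓝 V))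
    (hW : Tendsto (fun n => ha c oC (1 / z n 5) (1 / z n 2) (w n)) uf (𝓝 W))
    (ta : Tendsto (fun n => (z n 6 : ℂ) * α n) uf (𝓝 a))
    (tb : Tendsto (fun n => (z n 6 : ℂ) * β n) uf (𝓝 b))
    (tg : Tendsto (fun n => (z n 6 : ℂ) * γ n) uf (𝓝 g))
    (tt : Tendsto (fun n => θ n / (z n 6 : ℂ)) uf (𝓝 t))
    (tm : Tendsto (fun n => (z n 6 : ℂ) * ν n) uf (𝓝 m))
    (rU : Rea U) (rV : Rea V) (rW : Rea W) (ra : a.im = 0) (rb : b.im = 0) (rg : g.im = 0)
    (rt : t.im = 0) (rm : m.im = 0) (ru : Rea u0) (rv : Rea v0) (rw' : Rea w0)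
    (n1 : ∀ n, ia = oA → z n 3 = 1) (n2 : ∀ n, ia ≠ oA → z n 0 = 1)
    (n3 : ∀ n, ib = oB → z n 4 = 1) (n4 : ∀ n, ib ≠ oB → z n 1 = 1)
    (n5 : ∀ n, ic = oC → z n 5 = 1) (n6 : ∀ n, ic ≠ oC → ic ≠ c → z n 2 = 1)
    (hk : bA oA oB c oC s (T0, z0) (RS_p T0 oA oB oC U V W a b g t m u0 v0 w0)
        (RS_p T0 oA oB oC U V W a b g t m u0 v0 w0)
      + lA oA oB c oC s ia ib ic (T0, z0) (RS_p T0 oA oB oC U V W a b g t m u0 v0 w0)
      + kA = 0 → ∀ h',
      bA oA oB c oC s (T0, z0) (RS_p T0 oA oB oC U V W a b g t m u0 v0 w0) h'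
      + bA oA oB c oC s (T0, z0) h' (RS_p T0 oA oB oC U V W a b g t m u0 v0 w0)
      + lA oA oB c oC s ia ib ic (T0, z0) h' = 0 → h' = 0) :
    ∀ᶠ n in uf, Rea (u n) ∧ Rea (v n) ∧ Rea (w n) := by
  have hQ := isQ_A oA oB c oC s ia ib ic
  obtain ⟨p0, hp0⟩ : ∃ p0, p0 = RS_p T0 oA oB oC U V W a b g t m u0 v0 w0 := ⟨_, rfl⟩
  rw [← hp0] at hk
  have hsol := fun n => ptA_sol hco hs.ne' (hz n) (h.sol n) (h.nu n).1 (h.nv n).1 (h.nw n).1
    (n1 n) (n2 n) (n3 n) (n4 n) (n5 n) (n6 n)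
  have hzz : Tendsto (fun n => (T n, z n)) uf (𝓝 (T0, z0)) := h.hT.prodMk_nhds hzl
  have hX : Tendsto (fun n => u n oA / (z n 3 : ℂ)) uf (𝓝 (U oA)) := by
    refine (tendsto_pi_nhds.1 hU oA).congr fun n => ?_
    rw [scl, if_pos rfl, Complex.ofReal_div, Complex.ofReal_one, div_mul_eq_mul_div, one_mul]
  have hY : Tendsto (fun n => v n oB / (z n 4 : ℂ)) uf (𝓝 (V oB)) := by
    refine (tendsto_pi_nhds.1 hV oB).congr fun n => ?_
    rw [scl, if_pos rfl, Complex.ofReal_div, Complex.ofReal_one, div_mul_eq_mul_div, one_mul]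
  have hZ : Tendsto (fun n => w n oC / (z n 5 : ℂ)) uf (𝓝 (W oC)) := by
    refine (tendsto_pi_nhds.1 hW oC).congr fun n => ?_
    rw [ha, if_pos rfl, Complex.ofReal_div, Complex.ofReal_one, div_mul_eq_mul_div, one_mul]
  have hp : Tendsto (fun n => ptA (T n) oA oB c oC (z n) (u n) (v n) (w n) (α n) (β n) (γ n)
      (θ n) (ν n)) uf (𝓝 p0) := by
    rw [hp0]
    refine hU.prodMk_nhds (hV.prodMk_nhds (hW.prodMk_nhds ?_))
    refine tendsto_pi_nhds.2 fun i => ?_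
    fin_cases i
    · exact ta
    · exact tb
    · exact tg
    · exact tt
    · exact tm
    · exact lim_q lv.hu
    · exact lim_q lv.hv
    · exact lim_q lv.hw
    · exact ta.mul hX
    · exact tb.mul hY
    · exact tg.mul hZ
    · exact RS_c1 h.hT lv oA
    · exact RS_c2 h.hT lv oB
    · exact RS_c3 h.hT lv oC
  have hlim : bA oA oB c oC s (T0, z0) p0 p0 + lA oA oB c oC s ia ib ic (T0, z0) p0 + kA = 0 := by
    have e1 := (hQ.cb.tendsto ((T0, z0), p0, p0)).comp (hzz.prodMk_nhds (hp.prodMk_nhds hp))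
    have e2 := (hQ.cl.tendsto ((T0, z0), p0)).comp (hzz.prodMk_nhds hp)
    have e3 := (e1.add e2).add_const kA
    refine tendsto_nhds_unique e3 ?_
    exact tendsto_const_nhds.congr fun n => (hsol n).symm
  have hr : cjA p0 = p0 := by
    have h1 : Rea ![a, b, g, t, m, q u0, q v0, q w0, a * U oA, b * V oB, g * W oC,
        c1 T0 v0 w0 oA, c2 T0 u0 w0 oB, c3 T0 u0 v0 oC] := by
      intro i
      fin_cases i
      · exact ra
      · exact rb
      · exact rg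
      · exact rt
      · exact rm
      · exact RS_q ru
      · exact RS_q rv
      · exact RS_q rw'
      · exact RS_mul ra (rU oA)
      · exact RS_mul rb (rV oB)
      · exact RS_mul rg (rW oC)
      · exact c1_re T0 v0 w0 rv rw' oA
      · exact c2_re T0 u0 w0 ru rw' oB
      · exact c3_re T0 u0 v0 ru rv oC
    rw [hp0, cjA]
    exact Prod.ext ((rea_iff _).1 rU) (Prod.ext ((rea_iff _).1 rV) (Prod.ext ((rea_iff _).1 rW)
      ((rea_iff _).1 h1)))
  have hfin := IsQ.fin hQ kA cjA cjA_continuous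
    (fun z p hp => cjA_sol oA oB c oC s ia ib ic z p hp) (fun n => (T n, z n)) (T0, z0) _ p0 hzz hp
    (Eventually.of_forall hsol) hr (hk hlim)
  filter_upwards [hfin] with n hn
  obtain ⟨hc, -⟩ := hn
  have e1 : Rea (scl oA (1 / z n 3) (1 / z n 0) (u n)) :=
    (rea_iff _).2 (congrArg (fun p : PA A B C => p.1) hc)
  have e2 : Rea (scl oB (1 / z n 4) (1 / z n 1) (v n)) :=
    (rea_iff _).2 (congrArg (fun p : PA A B C => p.2.1) hc)
  have e3 : Rea (ha c oC (1 / z n 5) (1 / z n 2) (w n)) :=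
    (rea_iff _).2 (congrArg (fun p : PA A B C => p.2.2.1) hc)
  have h5 : z n 5 ≠ 0 := by
    rw [(hz n).f5]
    exact pow_ne_zero 2 (hz n).h6
  exact ⟨RS_scl (one_div_ne_zero (hz n).h3) (one_div_ne_zero (hz n).h0) e1,
    RS_scl (one_div_ne_zero (hz n).h4) (one_div_ne_zero (hz n).h1) e2,
    RS_ha (one_div_ne_zero h5) (one_div_ne_zero (hz n).h2) e3⟩

/-- Solutions of the third level which converge to a solution of the second level for the masks
without `oA` and `oB`.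

Proof. `u0 oA = 0`, `v0 oB = 0`, so `ia ≠ oA`, `ib ≠ oB`. Let `δ n = (L n)^(-1/2)` and
`z n = ![1, 1, 1, δ, δ, 1, 1, δ, 1, δ, 1]`, so `ScA (L n) (z n)` (`m = 1 / δ`) and `z n → zS12`. Let
`X n = u n oA / δ n`, `Y n = v n oB / δ n`; `X Y = ν / s` (`e9`) converges to `ν0 / s`. The first
relation of `AT.rel` divided by `δ`: `α X u(oA) - X c1(oA) = β Y v(oB) - Y c2(oB)`, i.e.
`X * (c1 T v w oA - α u(oA)) = Y * (c2 T u w oB - β v(oB))`. Multiply by `X`:
`X ^ 2 * (c1 .. - ..) = (ν / s) * (c2 .. - ..)`, so with `g1 = c1 T0 v0 w0 oA`,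
`g2 = c2 T0 u0 w0 oB`: `X n ^ 2 → ν0 g2 / (s g1)`. By `FRB` and `Rl.rea` the limit vectors are real,
so `ν0` (`BT.re`), `g1`, `g2` are real, and `hg` gives `g1 g2 ν0 > 0`, so the limit is positive. So
`X n` is bounded and converges (`ulim_c`) to a real nonzero number, and `Y = (ν / s) / X` too. So
`p n = ptA (T n) .. (z n) ..` converges to a solution `p0` for `(T0, zS12)` (`ptA_sol`,
continuity from `isQ_A`), which is real (`BT.re`). `KS12` and `IsQ.fin` (`cjA`; parameters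
`(T n, z n) → (T0, zS12)`): eventually `p n` is real, so the vectors are real. -/
theorem RS12 (hco : c ≠ oC) (hs : 0 < s)
    (h : SqA T T0 oA oB c oC L s ia ib ic u v w α β γ θ ν) (lv : Lv u v w u0 v0 w0)
    (lc : Lc α β γ α0 β0 γ0) (hθ : Tendsto θ uf (𝓝 θ0)) (hν : Tendsto ν uf (𝓝 ν0))
    (ht : BT T0 (Finset.univ.erase oA) (Finset.univ.erase oB) c oC s u0 v0 w0 α0 β0 γ0 θ0 ν0)
    (hf : FRB T0 (Finset.univ.erase oA) (Finset.univ.erase oB) c oC s)
    (hg : Rea u0 → Rea v0 → Rea w0 → 0 < (c1 T0 v0 w0 oA * c2 T0 u0 w0 oB * ν0).re) :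
    ∀ᶠ n in uf, Rea (u n) ∧ Rea (v n) ∧ Rea (w n) := by
  have nu0 := Nrm.lim h.nu lv.hu
  have nv0 := Nrm.lim h.nv lv.hv
  have nw0 := Nrm.lim h.nw lv.hw
  have ok := hf u0 v0 w0 α0 β0 γ0 θ0 ν0 ht nu0.ne nv0.ne nw0.ne
  have ru := ok.ru.rea nu0.1
  have rv := ok.rv.rea nv0.1
  have rw' := ok.rw'.rea nw0.1
  obtain ⟨rα, rβ, rγ, rθ, rν⟩ := ht.re hs.ne' nu0.ne nv0.ne nw0.ne ru rv rw'
  have hsc : (s : ℂ) ≠ 0 := Complex.ofReal_ne_zero.2 hs.ne'
  have u0o : u0 oA = 0 := ht.su oA (Finset.notMem_erase oA Finset.univ)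
  have v0o : v0 oB = 0 := ht.sv oB (Finset.notMem_erase oB Finset.univ)
  have hia : ia ≠ oA := by
    rintro rfl
    exact zero_ne_one (u0o.symm.trans nu0.1)
  have hib : ib ≠ oB := by
    rintro rfl
    exact zero_ne_one (v0o.symm.trans nv0.1)
  -- the scale
  obtain ⟨δ, hδ⟩ : ∃ δ : ℕ → ℝ, δ = fun n => (Real.sqrt (L n))⁻¹ := ⟨_, rfl⟩
  have hδ0 : ∀ n, δ n ≠ 0 := fun n => by
    rw [hδ]
    exact inv_ne_zero (Real.sqrt_pos.2 (h.pos n)).ne'
  have hδL : ∀ n, L n * (δ n * δ n) = 1 := fun n => by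
    rw [hδ]
    show L n * ((Real.sqrt (L n))⁻¹ * (Real.sqrt (L n))⁻¹) = 1
    rw [← mul_inv, Real.mul_self_sqrt (h.pos n).le, mul_inv_cancel₀ (h.pos n).ne']
  have hδl : Tendsto δ uf (𝓝 0) := by
    rw [hδ]
    exact tendsto_inv_atTop_zero.comp (Real.tendsto_sqrt_atTop.comp h.hL)
  have hδc : ∀ n, ((δ n : ℝ) : ℂ) ≠ 0 := fun n => Complex.ofReal_ne_zero.2 (hδ0 n)
  have hδLc : ∀ n, (L n : ℂ) * ((δ n : ℂ) * (δ n : ℂ)) = 1 := fun n => by
    rw [← Complex.ofReal_mul, ← Complex.ofReal_mul, hδL n, Complex.ofReal_one]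
  -- limits
  have hg' := hg ru rv rw'
  have rg1 := c1_re T0 v0 w0 rv rw' oA
  have rg2 := c2_re T0 u0 w0 ru rw' oB
  have t1 : Tendsto (fun n => c1 (T n) (v n) (w n) oA - α n * u n oA) uf
      (𝓝 (c1 T0 v0 w0 oA)) := by
    have e1 := (RS_c1 h.hT lv oA).sub (lc.hα.mul (tendsto_pi_nhds.1 lv.hu oA))
    rwa [u0o, mul_zero, sub_zero] at e1
  have t2 : Tendsto (fun n => c2 (T n) (u n) (w n) oB - β n * v n oB) uf
      (𝓝 (c2 T0 u0 w0 oB)) := by
    have e1 := (RS_c2 h.hT lv oB).sub (lc.hβ.mul (tendsto_pi_nhds.1 lv.hv oB))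
    rwa [v0o, mul_zero, sub_zero] at e1
  have hXY : ∀ n, (u n oA / (δ n : ℂ)) * (v n oB / (δ n : ℂ)) = ν n / s := by
    intro n
    rw [(h.sol n).e9, div_mul_div_comm, div_eq_div_iff (mul_ne_zero (hδc n) (hδc n)) hsc]
    linear_combination (-(u n oA * v n oB * s)) * hδLc n
  have hX2 : ∀ n, (u n oA / (δ n : ℂ)) ^ 2 * (c1 (T n) (v n) (w n) oA - α n * u n oA)
      = ν n / s * (c2 (T n) (u n) (w n) oB - β n * v n oB) := by
    intro n
    have e1 := ((h.sol n).rel hco).1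
    have e2 : (u n oA / (δ n : ℂ)) * (c1 (T n) (v n) (w n) oA - α n * u n oA)
        = (v n oB / (δ n : ℂ)) * (c2 (T n) (u n) (w n) oB - β n * v n oB) := by
      rw [div_mul_eq_mul_div, div_mul_eq_mul_div, div_left_inj' (hδc n)]
      linear_combination -e1
    rw [← hXY n]
    linear_combination (u n oA / (δ n : ℂ)) * e2
  have e0 : c1 T0 v0 w0 oA * c2 T0 u0 w0 oB * ν0 =
      (((c1 T0 v0 w0 oA).re * (c2 T0 u0 w0 oB).re * ν0.re : ℝ) : ℂ) := by
    rw [Complex.ofReal_mul, Complex.ofReal_mul, ← RS_re rg1, ← RS_re rg2, ← RS_re rν]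
  rw [e0, Complex.ofReal_re] at hg'
  have hr1 : (c1 T0 v0 w0 oA).re ≠ 0 := by
    intro h0
    rw [h0, zero_mul, zero_mul] at hg'
    exact lt_irrefl _ hg'
  have hr2 : (c2 T0 u0 w0 oB).re ≠ 0 := by
    intro h0
    rw [h0, mul_zero, zero_mul] at hg'
    exact lt_irrefl _ hg'
  have hr3 : ν0 ≠ 0 := by
    intro h0
    rw [h0, Complex.zero_re, mul_zero] at hg'
    exact lt_irrefl _ hg'
  have hn1 : c1 T0 v0 w0 oA ≠ 0 := fun h0 => hr1 (by rw [h0, Complex.zero_re])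
  have hn2 : c2 T0 u0 w0 oB ≠ 0 := fun h0 => hr2 (by rw [h0, Complex.zero_re])
  obtain ⟨P, hPdef⟩ : ∃ P : ℝ, P = ν0.re / s * (c2 T0 u0 w0 oB).re / (c1 T0 v0 w0 oA).re :=
    ⟨_, rfl⟩
  have hP : 0 < P := by
    have e1 : P = (c1 T0 v0 w0 oA).re * (c2 T0 u0 w0 oB).re * ν0.re /
        (s * ((c1 T0 v0 w0 oA).re * (c1 T0 v0 w0 oA).re)) := by
      rw [hPdef]
      field_simp
    rw [e1]
    exact div_pos hg' (mul_pos hs (mul_self_pos.2 hr1))
  have hPe : ν0 / s * c2 T0 u0 w0 oB / c1 T0 v0 w0 oA = (P : ℂ) := by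
    rw [hPdef, Complex.ofReal_div, Complex.ofReal_mul, Complex.ofReal_div, ← RS_re rg1,
      ← RS_re rg2, ← RS_re rν]
  have hXl : Tendsto (fun n => (u n oA / (δ n : ℂ)) ^ 2) uf (𝓝 (P : ℂ)) := by
    rw [← hPe]
    refine (((hν.div_const (s : ℂ)).mul t2).div t1 hn1).congr' ?_
    filter_upwards [t1.eventually_ne hn1] with n hn
    change ν n / s * (c2 (T n) (u n) (w n) oB - β n * v n oB) /
      (c1 (T n) (v n) (w n) oA - α n * u n oA) = _
    rw [div_eq_iff hn, hX2 n]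
  obtain ⟨X0, hX0⟩ := ulim_c (fun n => u n oA / (δ n : ℂ)) (P + 2) (by
    have e1 := hXl.norm
    rw [Complex.norm_real, Real.norm_eq_abs, abs_of_pos hP] at e1
    filter_upwards [e1.eventually (gt_mem_nhds (lt_add_one _))] with n hn
    rw [norm_pow] at hn
    nlinarith [sq_nonneg (‖u n oA / (δ n : ℂ)‖ - 1), norm_nonneg (u n oA / (δ n : ℂ))])
  have hXP : X0 ^ 2 = (P : ℂ) := tendsto_nhds_unique (hX0.pow 2) hXl
  obtain ⟨hXi, hXn⟩ := RS_real hP hXP
  have hY0 : Tendsto (fun n => v n oB / (δ n : ℂ)) uf (𝓝 (ν0 / s / X0)) := by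
    refine ((hν.div_const (s : ℂ)).div hX0 hXn).congr fun n => ?_
    have e1 : u n oA / (δ n : ℂ) ≠ 0 := div_ne_zero ((h.sol n).ne hs.ne').1 (hδc n)
    change ν n / s / (u n oA / (δ n : ℂ)) = _
    rw [div_eq_iff e1, mul_comm (v n oB / (δ n : ℂ)), hXY n]
  have hYn : ν0 / s / X0 ≠ 0 := div_ne_zero (div_ne_zero hr3 hsc) hXn
  have hYi : (ν0 / s / X0).im = 0 := RS_div (RS_div rν (Complex.ofReal_im s)) hXi
  have hone : ∀ x : ℕ → ℂ, ∀ x0 : ℂ, Tendsto x uf (𝓝 x0) →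
      Tendsto (fun n => ((1 : ℝ) : ℂ) * x n) uf (𝓝 x0) := by
    intro x x0 hx
    simpa only [Complex.ofReal_one, one_mul] using hx
  refine RS_main (z := fun n => ![1, 1, 1, δ n, δ n, 1, 1, δ n, 1, δ n, 1]) (z0 := zS12)
    (U := Function.update u0 oA X0) (V := Function.update v0 oB (ν0 / s / X0)) (W := w0)
    (a := α0) (b := β0) (g := γ0) (t := θ0) (m := ν0) hco hs h lv ?_ ?_ ?_ ?_ ?_ (hone _ _ lc.hα)
    (hone _ _ lc.hβ) (hone _ _ lc.hγ) ?_ (hone _ _ hν) (RS_updr ru hXi) (RS_updr rv hYi) rw' rα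
    rβ rγ rθ rν ru rv rw' (fun _ h1 => absurd h1 hia) (fun _ _ => rfl)
    (fun _ h1 => absurd h1 hib) (fun _ _ => rfl) (fun _ _ => rfl) (fun _ _ _ => rfl) ?_
  · intro n
    refine ⟨one_ne_zero, one_ne_zero, one_ne_zero, hδ0 n, hδ0 n, one_ne_zero, rfl, rfl, rfl,
      (one_pow 2).symm, ?_, (δ n)⁻¹, ?_, ?_, ?_, ?_⟩
    · change L n * 1 * δ n * δ n = 1
      rw [mul_one, mul_assoc]
      exact hδL n
    · change δ n * 1 = (δ n)⁻¹ * δ n ^ 2
      rw [pow_two, ← mul_assoc, inv_mul_cancel₀ (hδ0 n), one_mul, mul_one]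
    · exact (inv_mul_cancel₀ (hδ0 n)).symm
    · change δ n * 1 = (δ n)⁻¹ * δ n ^ 2
      rw [pow_two, ← mul_assoc, inv_mul_cancel₀ (hδ0 n), one_mul, mul_one]
    · exact (inv_mul_cancel₀ (hδ0 n)).symm
  · refine tendsto_pi_nhds.2 fun i => ?_
    fin_cases i
    · exact tendsto_const_nhds
    · exact tendsto_const_nhds
    · exact tendsto_const_nhds
    · exact hδl
    · exact hδl
    · exact tendsto_const_nhds
    · exact tendsto_const_nhds
    · exact hδl
    · exact tendsto_const_nhds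
    · exact hδl
    · exact tendsto_const_nhds
  · refine (RS_upd lv.hu hX0).congr fun n => ?_
    exact (RS_sclu (δ n) (u n)).symm
  · refine (RS_upd lv.hv hY0).congr fun n => ?_
    exact (RS_sclu (δ n) (v n)).symm
  · refine lv.hw.congr fun n => ?_
    exact (RS_ha1 (w n)).symm
  · change Tendsto (fun n => θ n / ((1 : ℝ) : ℂ)) uf (𝓝 θ0)
    simpa only [Complex.ofReal_one, div_one] using hθ
  · intro hsol
    refine KS12 hco hs.ne' hsol ?_ ?_ hia hib ?_ ?_ hn2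
    · change BT T0 (Finset.univ.erase oA) (Finset.univ.erase oB) c oC s
        (scl oA 0 1 (Function.update u0 oA X0)) (scl oB 0 1 (Function.update v0 oB (ν0 / s / X0)))
        w0 α0 β0 γ0 θ0 ν0
      rw [RS_upd0 u0o, RS_upd0 v0o]
      exact ht
    · change OkB T0 (Finset.univ.erase oA) (Finset.univ.erase oB) c oC s
        (scl oA 0 1 (Function.update u0 oA X0)) (scl oB 0 1 (Function.update v0 oB (ν0 / s / X0)))
        w0 α0 β0 γ0 θ0 ν0
      rw [RS_upd0 u0o, RS_upd0 v0o]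
      exact ok
    · change Function.update u0 oA X0 oA ≠ 0
      rw [Function.update_self]
      exact hXn
    · change Function.update v0 oB (ν0 / s / X0) oB ≠ 0
      rw [Function.update_self]
      exact hYn

/-- Solutions of the third level which converge to a solution of the second level for the mask
without `oB`, with `u0 oA ≠ 0`.

Proof. `ib ≠ oB`. Let `ε n = 1 / L n` and `z n = ![1, 1, 1, 1, ε, 1, 1, 1, 1, ε ^ 2, ε]`, so
`ScA (L n) (z n)` (`m = 1`) and `z n → zS2`. `Y n = L n * v n oB = ν n / (s u n oA)` converges to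
`ν0 / (s u0 oA)`. So `p n = ptA (T n) .. (z n) ..` converges to a solution `p0` for
`(T0, zS2)`, real by `FRB`, `Rl.rea`, `BT.re`. `KS2` and `IsQ.fin` as in `RS12`. -/
theorem RS2 (hco : c ≠ oC) (hs : 0 < s)
    (h : SqA T T0 oA oB c oC L s ia ib ic u v w α β γ θ ν) (lv : Lv u v w u0 v0 w0)
    (lc : Lc α β γ α0 β0 γ0) (hθ : Tendsto θ uf (𝓝 θ0)) (hν : Tendsto ν uf (𝓝 ν0))
    (ht : BT T0 Finset.univ (Finset.univ.erase oB) c oC s u0 v0 w0 α0 β0 γ0 θ0 ν0)
    (hf : FRB T0 Finset.univ (Finset.univ.erase oB) c oC s) (hX : u0 oA ≠ 0) :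
    ∀ᶠ n in uf, Rea (u n) ∧ Rea (v n) ∧ Rea (w n) := by
  have nu0 := Nrm.lim h.nu lv.hu
  have nv0 := Nrm.lim h.nv lv.hv
  have nw0 := Nrm.lim h.nw lv.hw
  have ok := hf u0 v0 w0 α0 β0 γ0 θ0 ν0 ht nu0.ne nv0.ne nw0.ne
  have ru := ok.ru.rea nu0.1
  have rv := ok.rv.rea nv0.1
  have rw' := ok.rw'.rea nw0.1
  obtain ⟨rα, rβ, rγ, rθ, rν⟩ := ht.re hs.ne' nu0.ne nv0.ne nw0.ne ru rv rw'
  have hsc : (s : ℂ) ≠ 0 := Complex.ofReal_ne_zero.2 hs.ne'
  have v0o : v0 oB = 0 := ht.sv oB (Finset.notMem_erase oB Finset.univ)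
  have hib : ib ≠ oB := by
    rintro rfl
    exact zero_ne_one (v0o.symm.trans nv0.1)
  obtain ⟨δ, hδ⟩ : ∃ δ : ℕ → ℝ, δ = fun n => (L n)⁻¹ := ⟨_, rfl⟩
  have hδ0 : ∀ n, δ n ≠ 0 := fun n => by
    rw [hδ]
    exact inv_ne_zero (h.pos n).ne'
  have hδL : ∀ n, L n * δ n = 1 := fun n => by
    rw [hδ]
    exact mul_inv_cancel₀ (h.pos n).ne'
  have hδl : Tendsto δ uf (𝓝 0) := by
    rw [hδ]
    exact tendsto_inv_atTop_zero.comp h.hL
  have hδc : ∀ n, ((δ n : ℝ) : ℂ) ≠ 0 := fun n => Complex.ofReal_ne_zero.2 (hδ0 n)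
  have hδLc : ∀ n, (L n : ℂ) * (δ n : ℂ) = 1 := fun n => by
    rw [← Complex.ofReal_mul, hδL n, Complex.ofReal_one]
  have hY0 : Tendsto (fun n => v n oB / (δ n : ℂ)) uf (𝓝 (ν0 / (s * u0 oA))) := by
    have e0 := (tendsto_const_nhds (x := (s : ℂ))).mul (tendsto_pi_nhds.1 lv.hu oA)
    refine (hν.div e0 (mul_ne_zero hsc hX)).congr fun n => ?_
    have e1 := ((h.sol n).ne hs.ne').1
    change ν n / (s * u n oA) = v n oB / (δ n : ℂ)
    rw [div_eq_div_iff (mul_ne_zero hsc e1) (hδc n), (h.sol n).e9]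
    linear_combination (s * (u n oA * v n oB)) * hδLc n
  have hYi : (ν0 / (s * u0 oA)).im = 0 :=
    RS_div rν (RS_mul (Complex.ofReal_im s) (ru oA))
  have hone : ∀ x : ℕ → ℂ, ∀ x0 : ℂ, Tendsto x uf (𝓝 x0) →
      Tendsto (fun n => ((1 : ℝ) : ℂ) * x n) uf (𝓝 x0) := by
    intro x x0 hx
    simpa only [Complex.ofReal_one, one_mul] using hx
  refine RS_main (z := fun n => ![1, 1, 1, 1, δ n, 1, 1, 1, 1, δ n ^ 2, δ n]) (z0 := zS2)
    (U := u0) (V := Function.update v0 oB (ν0 / (s * u0 oA))) (W := w0)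
    (a := α0) (b := β0) (g := γ0) (t := θ0) (m := ν0) hco hs h lv ?_ ?_ ?_ ?_ ?_ (hone _ _ lc.hα)
    (hone _ _ lc.hβ) (hone _ _ lc.hγ) ?_ (hone _ _ hν) ru (RS_updr rv hYi) rw' rα
    rβ rγ rθ rν ru rv rw' (fun _ _ => rfl) (fun _ _ => rfl)
    (fun _ h1 => absurd h1 hib) (fun _ _ => rfl) (fun _ _ => rfl) (fun _ _ _ => rfl) ?_
  · intro n
    refine ⟨one_ne_zero, one_ne_zero, one_ne_zero, one_ne_zero, hδ0 n, one_ne_zero, rfl, rfl,
      rfl, (one_pow 2).symm, ?_, 1, ?_, ?_, ?_, ?_⟩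
    · change L n * 1 * 1 * δ n = 1
      rw [mul_one, mul_one]
      exact hδL n
    · change (1 : ℝ) * 1 = 1 * 1 ^ 2
      norm_num
    · change (1 : ℝ) = 1 * 1
      norm_num
    · change δ n ^ 2 * 1 = 1 * δ n ^ 2
      ring
    · change δ n = 1 * δ n
      ring
  · refine tendsto_pi_nhds.2 fun i => ?_
    fin_cases i
    · exact tendsto_const_nhds
    · exact tendsto_const_nhds
    · exact tendsto_const_nhds
    · exact tendsto_const_nhds
    · exact hδl
    · exact tendsto_const_nhds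
    · exact tendsto_const_nhds
    · exact tendsto_const_nhds
    · exact tendsto_const_nhds
    · change Tendsto (fun n => δ n ^ 2) uf (𝓝 0)
      have e1 := hδl.pow 2
      rwa [zero_pow two_ne_zero] at e1
    · exact hδl
  · refine lv.hu.congr fun n => ?_
    exact (RS_scl1 (u n)).symm
  · refine (RS_upd lv.hv hY0).congr fun n => ?_
    exact (RS_sclu (δ n) (v n)).symm
  · refine lv.hw.congr fun n => ?_
    exact (RS_ha1 (w n)).symm
  · change Tendsto (fun n => θ n / ((1 : ℝ) : ℂ)) uf (𝓝 θ0)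
    simpa only [Complex.ofReal_one, div_one] using hθ
  · intro hsol
    refine KS2 hco hs.ne' hsol ?_ ?_ hib hX
    · change BT T0 Finset.univ (Finset.univ.erase oB) c oC s u0
        (scl oB 0 1 (Function.update v0 oB (ν0 / (s * u0 oA)))) w0 α0 β0 γ0 θ0 ν0
      rw [RS_upd0 v0o]
      exact ht
    · change OkB T0 Finset.univ (Finset.univ.erase oB) c oC s u0
        (scl oB 0 1 (Function.update v0 oB (ν0 / (s * u0 oA)))) w0 α0 β0 γ0 θ0 ν0
      rw [RS_upd0 v0o]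
      exact ok

/-- Solutions of the third level whose vectors converge to the unit vectors at `oA`, `oB`, `c`.

Proof. `ia = oA`, `ib = oB`, `ic = c` (the limits are normalised there), so `u n oA = v n oB =
w n c = 1`. Let `ε n = 1 / L n` and `z n = ![ε, ε, ε, 1, 1, ε ^ 2, ε, 1, ε, 1, ε]`, so
`ScA (L n) (z n)` (`m = ε`) and `z n → zTr`. `ε ν = s` (`e9`); `e3` at `c`: `ε γ = ε c3 + s → s`;
`q u, q v, q w → 1`, so by `e6` `θ / ε = q u q v / (ε γ) → 1 / s` and by `e4`, `e5`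
`ε α → s`, `ε β → s`. For `a ≠ oA`: `u a / ε = c1 T v w a / (ε α)` converges, similarly
`v b / ε` and `w k / ε` for `k ≠ c, oC`; `w oC / ε ^ 2 = s (θ / ε) / (ε ν)` (`e7`) converges. So
`p n = ptA (T n) .. (z n) ..` converges to a solution `p0` for `(T0, zTr)`; its entries are limits
expressed by the real numbers `s`, `T0`, so it is real. `KTr` and `IsQ.fin` as in `RS12`. -/
theorem RTr (hco : c ≠ oC) (hs : 0 < s)
    (h : SqA T T0 oA oB c oC L s ia ib ic u v w α β γ θ ν) (lv : Lv u v w u0 v0 w0)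
    (hu : ∀ a, a ≠ oA → u0 a = 0) (hv : ∀ b, b ≠ oB → v0 b = 0) (hw : ∀ k, k ≠ c → w0 k = 0) :
    ∀ᶠ n in uf, Rea (u n) ∧ Rea (v n) ∧ Rea (w n) := by
  have nu0 := Nrm.lim h.nu lv.hu
  have nv0 := Nrm.lim h.nv lv.hv
  have nw0 := Nrm.lim h.nw lv.hw
  have hsc : (s : ℂ) ≠ 0 := Complex.ofReal_ne_zero.2 hs.ne'
  have eia : ia = oA := by
    by_contra h0
    exact zero_ne_one ((hu ia h0).symm.trans nu0.1)
  have eib : ib = oB := by
    by_contra h0
    exact zero_ne_one ((hv ib h0).symm.trans nv0.1)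
  have eic : ic = c := by
    by_contra h0
    exact zero_ne_one ((hw ic h0).symm.trans nw0.1)
  subst eia
  subst eib
  subst eic
  have ru : Rea u0 := by
    intro a
    by_cases h0 : a = ia
    · rw [h0, nu0.1, Complex.one_im]
    · rw [hu a h0, Complex.zero_im]
  have rv : Rea v0 := by
    intro a
    by_cases h0 : a = ib
    · rw [h0, nv0.1, Complex.one_im]
    · rw [hv a h0, Complex.zero_im]
  have rw' : Rea w0 := by
    intro a
    by_cases h0 : a = ic
    · rw [h0, nw0.1, Complex.one_im]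
    · rw [hw a h0, Complex.zero_im]
  have qu : q u0 = 1 := by
    rw [q, Finset.sum_eq_single ia, nu0.1, one_pow]
    · intro a _ h0
      rw [hu a h0, zero_pow two_ne_zero]
    · intro h0
      exact absurd (Finset.mem_univ ia) h0
  have qv : q v0 = 1 := by
    rw [q, Finset.sum_eq_single ib, nv0.1, one_pow]
    · intro a _ h0
      rw [hv a h0, zero_pow two_ne_zero]
    · intro h0
      exact absurd (Finset.mem_univ ib) h0
  have qw : q w0 = 1 := by
    rw [q, Finset.sum_eq_single ic, nw0.1, one_pow]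
    · intro a _ h0
      rw [hw a h0, zero_pow two_ne_zero]
    · intro h0
      exact absurd (Finset.mem_univ ic) h0
  have tqu := lim_q lv.hu
  have tqv := lim_q lv.hv
  have tqw := lim_q lv.hw
  rw [qu] at tqu
  rw [qv] at tqv
  rw [qw] at tqw
  obtain ⟨δ, hδ⟩ : ∃ δ : ℕ → ℝ, δ = fun n => (L n)⁻¹ := ⟨_, rfl⟩
  have hδ0 : ∀ n, δ n ≠ 0 := fun n => by
    rw [hδ]
    exact inv_ne_zero (h.pos n).ne'
  have hδL : ∀ n, L n * δ n = 1 := fun n => by
    rw [hδ]
    exact mul_inv_cancel₀ (h.pos n).ne'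
  have hδl : Tendsto δ uf (𝓝 0) := by
    rw [hδ]
    exact tendsto_inv_atTop_zero.comp h.hL
  have hδc : ∀ n, ((δ n : ℝ) : ℂ) ≠ 0 := fun n => Complex.ofReal_ne_zero.2 (hδ0 n)
  have hδLc : ∀ n, (L n : ℂ) * (δ n : ℂ) = 1 := fun n => by
    rw [← Complex.ofReal_mul, hδL n, Complex.ofReal_one]
  have hδlc : Tendsto (fun n => (δ n : ℂ)) uf (𝓝 0) := by
    have e1 := (Complex.continuous_ofReal.tendsto 0).comp hδl
    rwa [Complex.ofReal_zero] at e1
  have eν : ∀ n, (δ n : ℂ) * ν n = s := by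
    intro n
    rw [(h.sol n).e9, (h.nu n).1, (h.nv n).1]
    linear_combination (s : ℂ) * hδLc n
  have eγ : ∀ n, (δ n : ℂ) * γ n = (δ n : ℂ) * c3 (T n) (u n) (v n) ic + s := by
    intro n
    have e1 := (h.sol n).e3 ic hco
    rw [if_pos rfl, (h.nw n).1, mul_one] at e1
    rw [← eν n, ← e1]
    ring
  have tν : Tendsto (fun n => (δ n : ℂ) * ν n) uf (𝓝 (s : ℂ)) := by
    refine tendsto_const_nhds.congr fun n => ?_
    exact (eν n).symm
  have tγ : Tendsto (fun n => (δ n : ℂ) * γ n) uf (𝓝 (s : ℂ)) := by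
    have e1 := (hδlc.mul (RS_c3 h.hT lv ic)).add_const (s : ℂ)
    rw [zero_mul, zero_add] at e1
    refine e1.congr fun n => ?_
    exact (eγ n).symm
  have hγn : ∀ᶠ n in uf, (δ n : ℂ) * γ n ≠ 0 := tγ.eventually_ne hsc
  have tθ : Tendsto (fun n => θ n / (δ n : ℂ)) uf (𝓝 (1 / (s : ℂ))) := by
    have e1 := (tqu.mul tqv).div tγ hsc
    rw [mul_one] at e1
    refine e1.congr' ?_
    filter_upwards [hγn] with n hn
    change q (u n) * q (v n) / ((δ n : ℂ) * γ n) = θ n / (δ n : ℂ)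
    rw [div_eq_div_iff hn (hδc n), ← (h.sol n).e6]
    ring
  have hs1 : (1 : ℂ) / (s : ℂ) ≠ 0 := one_div_ne_zero hsc
  have hss : (1 : ℂ) / (1 / (s : ℂ)) = s := by rw [one_div_one_div]
  have hθn : ∀ n, θ n / (δ n : ℂ) ≠ 0 := fun n => div_ne_zero (h.sol n).hθ (hδc n)
  have tα : Tendsto (fun n => (δ n : ℂ) * α n) uf (𝓝 (s : ℂ)) := by
    have e1 := (tqv.mul tqw).div tθ hs1
    rw [mul_one, hss] at e1
    refine e1.congr fun n => ?_
    change q (v n) * q (w n) / (θ n / (δ n : ℂ)) = (δ n : ℂ) * α n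
    rw [div_eq_iff (hθn n), ← (h.sol n).e4]
    field_simp [hδc n]
  have tβ : Tendsto (fun n => (δ n : ℂ) * β n) uf (𝓝 (s : ℂ)) := by
    have e1 := (tqu.mul tqw).div tθ hs1
    rw [mul_one, hss] at e1
    refine e1.congr fun n => ?_
    change q (u n) * q (w n) / (θ n / (δ n : ℂ)) = (δ n : ℂ) * β n
    rw [div_eq_iff (hθn n), ← (h.sol n).e5]
    field_simp [hδc n]
  -- the vectors
  have tu : ∀ a, a ≠ ia → Tendsto (fun n => u n a / (δ n : ℂ)) uf (𝓝 (c1 T0 v0 w0 a / s)) := by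
    intro a h0
    refine ((RS_c1 h.hT lv a).div tα hsc).congr' ?_
    filter_upwards [tα.eventually_ne hsc] with n hn
    change c1 (T n) (v n) (w n) a / ((δ n : ℂ) * α n) = u n a / (δ n : ℂ)
    rw [div_eq_div_iff hn (hδc n), (h.sol n).e1 a h0]
    ring
  have tv : ∀ b, b ≠ ib → Tendsto (fun n => v n b / (δ n : ℂ)) uf (𝓝 (c2 T0 u0 w0 b / s)) := by
    intro b h0
    refine ((RS_c2 h.hT lv b).div tβ hsc).congr' ?_
    filter_upwards [tβ.eventually_ne hsc] with n hn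
    change c2 (T n) (u n) (w n) b / ((δ n : ℂ) * β n) = v n b / (δ n : ℂ)
    rw [div_eq_div_iff hn (hδc n), (h.sol n).e2 b h0]
    ring
  have tw : ∀ k, k ≠ ic → k ≠ oC →
      Tendsto (fun n => w n k / (δ n : ℂ)) uf (𝓝 (c3 T0 u0 v0 k / s)) := by
    intro k h0 h1
    refine ((RS_c3 h.hT lv k).div tγ hsc).congr' ?_
    filter_upwards [hγn] with n hn
    have e1 := (h.sol n).e3 k h1
    rw [if_neg h0, add_zero] at e1
    change c3 (T n) (u n) (v n) k / ((δ n : ℂ) * γ n) = w n k / (δ n : ℂ)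
    rw [div_eq_div_iff hn (hδc n), e1]
    ring
  have tw' : Tendsto (fun n => w n oC / (δ n : ℂ) ^ 2) uf (𝓝 (1 / (s : ℂ))) := by
    refine tθ.congr fun n => ?_
    have e1 := (h.sol n).e7
    have e2 := eν n
    rw [div_eq_div_iff (hδc n) (pow_ne_zero 2 (hδc n))]
    have e3 : (s : ℂ) * (θ n * (δ n : ℂ) ^ 2) = s * (w n oC * (δ n : ℂ)) := by
      linear_combination (-(δ n : ℂ) ^ 2) * e1 + (w n oC * (δ n : ℂ)) * e2
    exact mul_left_cancel₀ hsc e3
  have hsi : ((s : ℝ) : ℂ).im = 0 := Complex.ofReal_im s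
  have h1i : ((1 : ℂ) / (s : ℂ)).im = 0 := RS_div Complex.one_im hsi
  refine RS_main (z := fun n => ![δ n, δ n, δ n, 1, 1, δ n ^ 2, δ n, 1, δ n, 1, δ n]) (z0 := zTr)
    (U := fun a => if a = ia then 1 else c1 T0 v0 w0 a / s)
    (V := fun b => if b = ib then 1 else c2 T0 u0 w0 b / s)
    (W := fun k => if k = oC then 1 / (s : ℂ) else if k = ic then 1 else c3 T0 u0 v0 k / s)
    (a := s) (b := s) (g := s) (t := 1 / (s : ℂ)) (m := s) hco hs h lv ?_ ?_ ?_ ?_ ?_ tα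
    tβ tγ tθ tν ?_ ?_ ?_ hsi hsi hsi h1i hsi ru rv rw' (fun _ _ => rfl)
    (fun _ h1 => absurd rfl h1) (fun _ _ => rfl) (fun _ h1 => absurd rfl h1)
    (fun _ h1 => absurd h1 hco) (fun _ _ h1 => absurd rfl h1) ?_
  · intro n
    refine ⟨hδ0 n, hδ0 n, hδ0 n, one_ne_zero, one_ne_zero, hδ0 n, rfl, rfl,
      rfl, rfl, ?_, δ n, ?_, ?_, ?_, ?_⟩
    · change L n * δ n * 1 * 1 = 1
      rw [mul_one, mul_one]
      exact hδL n
    · change (1 : ℝ) * δ n = δ n * 1 ^ 2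
      ring
    · change δ n = δ n * 1
      ring
    · change (1 : ℝ) * δ n = δ n * 1 ^ 2
      ring
    · change δ n = δ n * 1
      ring
  · refine tendsto_pi_nhds.2 fun i => ?_
    fin_cases i
    · exact hδl
    · exact hδl
    · exact hδl
    · exact tendsto_const_nhds
    · exact tendsto_const_nhds
    · change Tendsto (fun n => δ n ^ 2) uf (𝓝 0)
      have e1 := hδl.pow 2
      rwa [zero_pow two_ne_zero] at e1
    · exact hδl
    · exact tendsto_const_nhds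
    · exact hδl
    · exact tendsto_const_nhds
    · exact hδl
  · refine tendsto_pi_nhds.2 fun a => ?_
    change Tendsto (fun n => scl ia (1 / (1 : ℝ)) (1 / δ n) (u n) a) uf
      (𝓝 (if a = ia then 1 else c1 T0 v0 w0 a / s))
    by_cases h0 : a = ia
    · rw [if_pos h0]
      refine tendsto_const_nhds.congr fun n => ?_
      rw [scl, if_pos h0, h0, (h.nu n).1, div_one, Complex.ofReal_one, one_mul]
    · rw [if_neg h0]
      refine (tu a h0).congr fun n => ?_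
      rw [scl, if_neg h0, Complex.ofReal_div, Complex.ofReal_one, div_mul_eq_mul_div, one_mul]
  · refine tendsto_pi_nhds.2 fun b => ?_
    change Tendsto (fun n => scl ib (1 / (1 : ℝ)) (1 / δ n) (v n) b) uf
      (𝓝 (if b = ib then 1 else c2 T0 u0 w0 b / s))
    by_cases h0 : b = ib
    · rw [if_pos h0]
      refine tendsto_const_nhds.congr fun n => ?_
      rw [scl, if_pos h0, h0, (h.nv n).1, div_one, Complex.ofReal_one, one_mul]
    · rw [if_neg h0]
      refine (tv b h0).congr fun n => ?_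
      rw [scl, if_neg h0, Complex.ofReal_div, Complex.ofReal_one, div_mul_eq_mul_div, one_mul]
  · refine tendsto_pi_nhds.2 fun k => ?_
    change Tendsto (fun n => ha ic oC (1 / δ n ^ 2) (1 / δ n) (w n) k) uf
      (𝓝 (if k = oC then 1 / (s : ℂ) else if k = ic then 1 else c3 T0 u0 v0 k / s))
    by_cases h0 : k = oC
    · rw [if_pos h0]
      refine tw'.congr fun n => ?_
      rw [ha, if_pos h0, h0, Complex.ofReal_div, Complex.ofReal_one, Complex.ofReal_pow,
        div_mul_eq_mul_div, one_mul]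
    · rw [if_neg h0]
      by_cases h1 : k = ic
      · rw [if_pos h1]
        refine tendsto_const_nhds.congr fun n => ?_
        rw [ha, if_neg h0, if_pos h1, h1, (h.nw n).1, Complex.ofReal_one, one_mul]
      · rw [if_neg h1]
        refine (tw k h1 h0).congr fun n => ?_
        rw [ha, if_neg h0, if_neg h1, Complex.ofReal_div, Complex.ofReal_one,
          div_mul_eq_mul_div, one_mul]
  · intro a
    change (if a = ia then (1 : ℂ) else c1 T0 v0 w0 a / s).im = 0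
    split_ifs
    · exact Complex.one_im
    · exact RS_div (c1_re T0 v0 w0 rv rw' a) hsi
  · intro b
    change (if b = ib then (1 : ℂ) else c2 T0 u0 w0 b / s).im = 0
    split_ifs
    · exact Complex.one_im
    · exact RS_div (c2_re T0 u0 w0 ru rw' b) hsi
  · intro k
    change (if k = oC then 1 / (s : ℂ) else if k = ic then 1 else c3 T0 u0 v0 k / s).im = 0
    split_ifs
    · exact h1i
    · exact Complex.one_im
    · exact RS_div (c3_re T0 u0 v0 ru rv k) hsi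
  · intro hsol
    exact KTr hco hs.ne' hsol

end

end Pool.Agent.MPb0eR
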