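import Mathlib
import Pool.Agent.Lib.MP_b0e20b_ag_R.Cpt

/-!
# MP_b0e20b_ag, project R: from sequences to large parameters
-/

set_option autoImplicit false

open scoped BigOperators Topology
open Filter

namespace Pool.Agent.MPb0eR

section

variable {A B C : Type} [Fintype A] [Fintype B] [Fintype C] [DecidableEq A] [DecidableEq B]
  [DecidableEq C] {T : A → B → C → ℝ} {a0 : A} {b0 : B} {c0 : C} {s : ℝ} {SA : Finset A}
  {SB : Finset B} {SC : Finset C}

/-- A property of normalised singular tuples holds for large `L`, if it holds eventually for all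
sequences of such tuples.

Proof. Suppose not. Then for every `n` there are `L n ≥ n + 1`, `ia n, ib n, ic n` and a normalised
tuple which violates `Q`. By `uconst` for `n ↦ (ia n, ib n, ic n)` there are `ia, ib, ic` and a set
`S` in the ultrafilter on which the indices are constant. Replace the data for `n ∉ S` by the data of
one fixed element of `S` (except that nothing changes along the ultrafilter): this is a `Sq`, and `Q`
fails for all `n`, contradiction (`uf` is `NeBot`). -/
theorem by_seq (Q : ℝ → (A → ℂ) → (B → ℂ) → (C → ℂ) → ℂ → ℂ → ℂ → Prop)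
    (h : ∀ L ia ib ic u v w α β γ, Sq T a0 b0 c0 s SA SB SC L ia ib ic u v w α β γ →
      ∀ᶠ n in uf, Q (L n) (u n) (v n) (w n) (α n) (β n) (γ n)) :
    ∃ L0 : ℝ, ∀ L ≥ L0, ∀ ia ib ic u v w α β γ,
      Tup (ad T a0 b0 c0 (s * L)) SA SB SC u v w α β γ → Nrm u ia → Nrm v ib → Nrm w ic →
        Q L u v w α β γ := by
  by_contra hcon
  push Not at hcon
  have key : ∃ (ia : A) (ib : B) (ic : C), ∀ n : ℕ, ∃ (L : ℝ) (u : A → ℂ) (v : B → ℂ)
      (w : C → ℂ) (α β γ : ℂ), (n : ℝ) + 1 ≤ L ∧
        Tup (ad T a0 b0 c0 (s * L)) SA SB SC u v w α β γ ∧ Nrm u ia ∧ Nrm v ib ∧ Nrm w ic ∧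
        ¬ Q L u v w α β γ := by
    by_contra hno
    push Not at hno
    choose N hN using hno
    obtain ⟨L, hL, ia, ib, ic, u, v, w, α, β, γ, ht, h1, h2, h3, h4⟩ :=
      hcon (((Finset.univ.sup fun p : A × B × C => N p.1 p.2.1 p.2.2 : ℕ) : ℝ) + 1)
    have h6 : N ia ib ic ≤ Finset.univ.sup fun p : A × B × C => N p.1 p.2.1 p.2.2 :=
      Finset.le_sup (f := fun p : A × B × C => N p.1 p.2.1 p.2.2) (Finset.mem_univ (ia, ib, ic))
    have h7 : (N ia ib ic : ℝ) ≤
        ((Finset.univ.sup fun p : A × B × C => N p.1 p.2.1 p.2.2 : ℕ) : ℝ) := by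
      exact_mod_cast h6
    exact h4 (hN ia ib ic L u v w α β γ (by linarith) ht h1 h2 h3)
  obtain ⟨ia, ib, ic, hk⟩ := key
  choose L u v w α β γ hL ht h1 h2 h3 h4 using hk
  have hlim : Tendsto L uf atTop := by
    refine tendsto_atTop_mono (fun n => ?_) uf_atTop
    have := hL n
    linarith
  have hpos : ∀ n, 0 < L n := by
    intro n
    have h5 := hL n
    have h6 : (0 : ℝ) ≤ n := Nat.cast_nonneg n
    linarith
  obtain ⟨n, hn⟩ := (h L ia ib ic u v w α β γ ⟨hlim, hpos, ht, h1, h2, h3⟩).exists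
  exact h4 n hn

end

end Pool.Agent.MPb0eR
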