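import Mathlib
import Pool.Agent.Lib.MP_b0e20b_ag_R.RS
import Pool.Agent.Lib.MP_b0e20b_ag_R.ClsA
import Pool.Agent.Lib.MP_b0e20b_ag_R.Seq

/-!
# MP_b0e20b_ag, project R: the third level
-/

set_option autoImplicit false

open scoped BigOperators Topology
open Filter

namespace Pool.Agent.MPb0eR

section

variable {A B C : Type} [Fintype A] [Fintype B] [Fintype C] [DecidableEq A] [DecidableEq B]
  [DecidableEq C] {T0 : A → B → C → ℝ} {oA : A} {oB : B} {c oC : C} {s : ℝ}

/-- Sequences of solutions of the third level are eventually real.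

Proof. `clsA` with the fields of `HY`; then `RS12` (`sg'`), `RS2`, and for the third case `RS2` for
`s12` (`AT.swap`, `BT.swap`, `FRB_s12`; `s12` is continuous), or `RTr`. -/
theorem seqA (hY : HY T0 oA oB c oC s) {T : ℕ → A → B → C → ℝ} {L : ℕ → ℝ} {ia : A} {ib : B}
    {ic : C} {u : ℕ → A → ℂ} {v : ℕ → B → ℂ} {w : ℕ → C → ℂ} {α β γ θ ν : ℕ → ℂ}
    (h : SqA T T0 oA oB c oC L s ia ib ic u v w α β γ θ ν) :
    ∀ᶠ n in uf, Rea (u n) ∧ Rea (v n) ∧ Rea (w n) := by
  obtain ⟨u0, v0, w0, lv, nu, nv, nw, hcase⟩ := clsA hY.hc hY.hs hY.f12 hY.f2 hY.f1 hY.hv h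
  rcases hcase with ⟨α0, β0, γ0, θ0, ν0, lc, hθ, hν, hcase⟩ | ⟨hu, hv, hw⟩
  · rcases hcase with ht | ⟨ht, hx⟩ | ⟨ht, hx⟩
    · exact RS12 hY.hc hY.hs h lv lc hθ hν ht hY.b12 fun ru rv rw =>
        hY.sg' _ _ _ _ _ _ _ _ ht nu.ne nv.ne nw.ne ru rv rw
    · exact RS2 hY.hc hY.hs h lv lc hθ hν ht hY.b2 hx
    · have hT : Tendsto (fun n => s12 (T n)) uf (𝓝 (s12 T0)) := by
        rw [tendsto_pi_nhds]
        intro b
        rw [tendsto_pi_nhds]
        intro a
        exact (tendsto_pi_nhds.1 h.hT) a |>.apply_nhds b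
      have h2 : SqA (fun n => s12 (T n)) (s12 T0) oB oA c oC L s ib ia ic v u w β α γ θ ν :=
        ⟨hT, h.hL, h.pos, fun n => (h.sol n).swap, h.nv, h.nu, h.nw⟩
      have h3 := RS2 hY.hc hY.hs h2 ⟨lv.hv, lv.hu, lv.hw⟩ ⟨lc.hβ, lc.hα, lc.hγ⟩ hθ hν ht.swap
        (FRB_s12 hY.b1) hx
      filter_upwards [h3] with n hn
      exact ⟨hn.2.1, hn.1, hn.2.2⟩
  · exact RTr hY.hc hY.hs h lv hu hv hw

/-- If `r • u` and the entry `r` are real, then so is `u`. -/
private theorem StepA_re {X : Type} {u : X → ℂ} {r : ℂ} {o : X} (hr : r ≠ 0) (hu : u o = 1)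
    (h : Rea (r • u)) : Rea u := by
  have h1 : r.im = 0 := by
    have := h o
    rwa [Pi.smul_apply, hu, smul_eq_mul, mul_one] at this
  intro a
  have h2 := h a
  rw [Pi.smul_apply, smul_eq_mul, Complex.mul_im, h1, zero_mul, add_zero] at h2
  rcases mul_eq_zero.1 h2 with h3 | h3
  · exact absurd (Complex.ext h3 h1) hr
  · exact h3

/-- One term of the sequence. -/
private theorem StepA_one (hs : 0 < s) {n : ℕ}
    (h : ∃ᶠ T in 𝓝 T0, ∃ u v w,
      AF (fun a b k => ((n : ℝ) + 1) * T a b k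
        + if a = oA ∧ b = oB ∧ k = c then ((n : ℝ) + 1) ^ 2 * s else 0) oA oB oC u v w ∧
      (Rea u → Rea v → ¬ Rea w)) :
    ∃ (T : A → B → C → ℝ) (i : A × B × C) (u : A → ℂ) (v : B → ℂ)
        (w : C → ℂ) (x : Fin 5 → ℂ), dist T T0 < 1 / ((n : ℝ) + 1) ∧
          AT T oA oB c oC ((n : ℝ) + 1) s u v w (x 0) (x 1) (x 2) (x 3) (x 4) ∧ Nrm u i.1 ∧
          Nrm v i.2.1 ∧ Nrm w i.2.2 ∧ ¬ (Rea u ∧ Rea v ∧ Rea w) := by
  have hn : (0 : ℝ) < (n : ℝ) + 1 := by positivity
  obtain ⟨T, ⟨u, v, w, hAF, hre⟩, hT⟩ :=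
    (h.and_eventually (Metric.ball_mem_nhds T0 (show (0 : ℝ) < 1 / ((n : ℝ) + 1) by
      positivity))).exists
  have hu : u ≠ 0 := fun h0 => by
    have := hAF.nu
    rw [h0] at this
    exact zero_ne_one this
  have hv : v ≠ 0 := fun h0 => by
    have := hAF.nv
    rw [h0] at this
    exact zero_ne_one this
  have hw : w ≠ 0 := fun h0 => by
    have := hAF.nw
    rw [h0] at this
    exact zero_ne_one this
  obtain ⟨r, ia, hr, nu⟩ := exists_nrm hu
  obtain ⟨t, ib, ht, nv⟩ := exists_nrm hv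
  obtain ⟨k, ic, hk, nw⟩ := exists_nrm hw
  obtain ⟨α, β, γ, θ, ν, hat⟩ := hAF.at hn hs hr ht hk
  refine ⟨T, (ia, ib, ic), r • u, t • v, k • w, ![α, β, γ, θ, ν], hT, hat, nu, nv, nw, ?_⟩
  rintro ⟨h1, h2, h3⟩
  exact hre (StepA_re hr hAF.nu h1) (StepA_re ht hAF.nv h2) (StepA_re hk hAF.nw h3)

/-- There is an open set of tensors all of whose critical points are real.

Proof. Claim: there is `L > 0` such that for all `T` near `T0` all solutions of `AF` for
`L • T + L ^ 2 s • e` are real. Otherwise for every `n` with `L n = n + 1` there are `T n` with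
`‖T n - T0‖ < 1 / (n + 1)` and a solution of `AF` which is not real. Normalise its vectors
(`exists_nrm`, factors `r, t, k`); by `AF.at` the normalised vectors are a solution of `AT`. They are not
all real: the entry of `r • u` at `oA` is `r`, so if `r • u` is real then `r` is real and
`u` is real, and so on. Restrict to constant indices `ia, ib, ic` (`uconst`; replace the data of the
other `n` by those of one fixed `n`, as in `by_seq`): a `SqA`, contradiction to `seqA`. Finally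
`M ↦ (M - L ^ 2 s • e) / L` is continuous and maps `M0 = L • T0 + L ^ 2 s • e` to `T0`. -/
theorem stepA (hY : HY T0 oA oB c oC s) :
    ∃ M0 : A → B → C → ℝ, ∀ᶠ M in 𝓝 M0, ∀ u v w, AF M oA oB oC u v w →
      Rea u ∧ Rea v ∧ Rea w := by
  obtain ⟨n, hn⟩ : ∃ n : ℕ, ∀ᶠ T in 𝓝 T0, ∀ u v w,
      AF (fun a b k => ((n : ℝ) + 1) * T a b k
        + if a = oA ∧ b = oB ∧ k = c then ((n : ℝ) + 1) ^ 2 * s else 0) oA oB oC u v w →
      Rea u ∧ Rea v ∧ Rea w := by
    by_contra hcon
    push Not at hcon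
    have hcon' : ∀ n : ℕ, ∃ (T : A → B → C → ℝ) (i : A × B × C) (u : A → ℂ) (v : B → ℂ)
        (w : C → ℂ) (x : Fin 5 → ℂ), dist T T0 < 1 / ((n : ℝ) + 1) ∧
          AT T oA oB c oC ((n : ℝ) + 1) s u v w (x 0) (x 1) (x 2) (x 3) (x 4) ∧ Nrm u i.1 ∧
          Nrm v i.2.1 ∧ Nrm w i.2.2 ∧ ¬ (Rea u ∧ Rea v ∧ Rea w) := fun n =>
      StepA_one hY.hs (hcon n)
    choose T i u v w x hd hat nu nv nw hre using hcon'
    obtain ⟨j, hj⟩ := uconst i
    obtain ⟨m, hm⟩ := hj.exists
    let g : ℕ → ℕ := fun n => if i n = j then n else m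
    have hg : ∀ᶠ n in uf, g n = n := by
      filter_upwards [hj] with n hn
      exact if_pos hn
    have hgi : ∀ n, i (g n) = j := by
      intro n
      by_cases h : i n = j
      · rw [show g n = n from if_pos h, h]
      · rw [show g n = m from if_neg h, hm]
    have hT : Tendsto T uf (𝓝 T0) := by
      rw [tendsto_iff_dist_tendsto_zero]
      exact squeeze_zero (fun _ => dist_nonneg) (fun n => (hd n).le)
        (tendsto_one_div_add_atTop_nhds_zero_nat.mono_left Nat.hyperfilter_le_atTop)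
    have hsq : SqA (fun n => T (g n)) T0 oA oB c oC (fun n => (g n : ℝ) + 1) s j.1 j.2.1 j.2.2
        (fun n => u (g n)) (fun n => v (g n)) (fun n => w (g n)) (fun n => x (g n) 0)
        (fun n => x (g n) 1) (fun n => x (g n) 2) (fun n => x (g n) 3) (fun n => x (g n) 4) := by
      refine ⟨?_, ?_, fun n => by positivity, fun n => hat (g n), fun n => ?_, fun n => ?_,
        fun n => ?_⟩
      · refine hT.congr' ?_
        filter_upwards [hg] with n hn
        rw [hn]
      · refine (tendsto_atTop_add_const_right _ (1 : ℝ) uf_atTop).congr' ?_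
        filter_upwards [hg] with n hn
        rw [hn]
      · rw [← hgi n]
        exact nu (g n)
      · rw [← hgi n]
        exact nv (g n)
      · rw [← hgi n]
        exact nw (g n)
    obtain ⟨n, hn⟩ := (seqA hY hsq).exists
    exact hre (g n) hn
  have hL : ((n : ℝ) + 1) ≠ 0 := by positivity
  refine ⟨fun a b k => ((n : ℝ) + 1) * T0 a b k
    + if a = oA ∧ b = oB ∧ k = c then ((n : ℝ) + 1) ^ 2 * s else 0, ?_⟩
  have hφ : Tendsto (fun (M : A → B → C → ℝ) a b k => (M a b k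
      - if a = oA ∧ b = oB ∧ k = c then ((n : ℝ) + 1) ^ 2 * s else 0) / ((n : ℝ) + 1))
      (𝓝 (fun a b k => ((n : ℝ) + 1) * T0 a b k
        + if a = oA ∧ b = oB ∧ k = c then ((n : ℝ) + 1) ^ 2 * s else 0)) (𝓝 T0) := by
    have h1 : Continuous (fun (M : A → B → C → ℝ) a b k => (M a b k
      - if a = oA ∧ b = oB ∧ k = c then ((n : ℝ) + 1) ^ 2 * s else 0) / ((n : ℝ) + 1)) := by
      refine continuous_pi fun a => continuous_pi fun b => continuous_pi fun k => ?_
      fun_prop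
    refine (h1.tendsto _).mono_right (le_of_eq ?_)
    congr 1
    funext a b k
    rw [add_sub_cancel_right, mul_div_cancel_left₀ _ hL]
  filter_upwards [hφ.eventually hn] with M hM u v w h
  refine hM u v w ?_
  convert h using 1
  funext a b k
  rw [mul_div_cancel₀ _ hL, sub_add_cancel]

end

end Pool.Agent.MPb0eR
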