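import Mathlib
import Pool.Agent.Lib.MP_b0e20b_ag_R.Defs

/-!
# MP_b0e20b_ag, project R: choice of the entries from the top down
-/

set_option autoImplicit false

open scoped BigOperators Topology
open Filter

namespace Pool.Agent.MPb0eR

/-- The induction for `sel`. -/
private theorem sel_aux {n1 n2 n3 : ℕ}
    (Good : FT n1 n2 n3 → Fin n1 → Fin (n2 + 1) → Fin (n3 + 1) → Prop)
    (hl : ∀ F F' a b c, (∀ a' b' c', a ≤ a' → b ≤ b' → c ≤ c' → F a' b' c' = F' a' b' c') →
      Good F a b c → Good F' a b c)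
    (hs : ∀ F a b c, (∀ a' b' c', a ≤ a' → b ≤ b' → c ≤ c' → (a', b', c') ≠ (a, b, c) →
      Good F a' b' c') →
      ∃ X0 : ℝ, ∀ x ≥ X0, Good (up F a b c (sg a.val b.val c.val * x)) a b c) :
    ∀ (k : ℕ) (U : Finset (Fin n1 × Fin (n2 + 1) × Fin (n3 + 1))), U.card = k →
      (∀ i ∈ U, ∀ j, i ≤ j → j ∈ U) →
      ∃ F : FT n1 n2 n3, ∀ i ∈ U, Good F i.1 i.2.1 i.2.2 := by
  intro k
  induction k with
  | zero =>
    intro U hU _
    refine ⟨fun _ _ _ => 0, fun i hi => ?_⟩
    rw [Finset.card_eq_zero] at hU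
    rw [hU] at hi
    exact absurd hi (Finset.notMem_empty i)
  | succ k ih =>
    intro U hU hup
    have hne : U.Nonempty := by
      rw [← Finset.card_pos]
      omega
    obtain ⟨i, hiU, hmin⟩ := U.exists_minimal hne
    have hcard : (U.erase i).card = k := by
      rw [Finset.card_erase_of_mem hiU, hU]
      rfl
    have hup' : ∀ l ∈ U.erase i, ∀ j, l ≤ j → j ∈ U.erase i := by
      intro l hl' j hlj
      rw [Finset.mem_erase] at hl' ⊢
      refine ⟨?_, hup l hl'.2 j hlj⟩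
      rintro rfl
      exact hl'.1 (le_antisymm hlj (hmin hl'.2 hlj))
    obtain ⟨F, hF⟩ := ih (U.erase i) hcard hup'
    obtain ⟨a, b, c⟩ := i
    obtain ⟨X0, hX0⟩ := hs F a b c (by
      intro a' b' c' ha hb hc hn
      have hle : ((a, b, c) : Fin n1 × Fin (n2 + 1) × Fin (n3 + 1)) ≤ (a', b', c') :=
        ⟨ha, hb, hc⟩
      exact hF (a', b', c') (Finset.mem_erase.2 ⟨hn, hup _ hiU _ hle⟩))
    refine ⟨up F a b c (sg a.val b.val c.val * X0), ?_⟩
    rintro ⟨a1, b1, c1⟩ hj
    by_cases he : ((a1, b1, c1) : Fin n1 × Fin (n2 + 1) × Fin (n3 + 1)) = (a, b, c)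
    · simp only [Prod.mk.injEq] at he
      obtain ⟨rfl, rfl, rfl⟩ := he
      exact hX0 X0 le_rfl
    · refine hl F _ a1 b1 c1 ?_ (hF (a1, b1, c1) (Finset.mem_erase.2 ⟨he, hj⟩))
      intro a' b' c' ha hb hc
      unfold up
      rw [if_neg]
      rintro ⟨rfl, rfl, rfl⟩
      have hle : ((a1, b1, c1) : Fin n1 × Fin (n2 + 1) × Fin (n3 + 1)) ≤ (a', b', c') :=
        ⟨ha, hb, hc⟩
      exact he (le_antisymm hle (hmin hj hle))

/-- Choice of the entries of a hierarchical tensor.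

Proof. Let `P = Fin n1 × Fin (n2 + 1) × Fin (n3 + 1)` with the product order. Claim: for every upper
set `U : Finset P` there is `F` with `Good F i` for all `i ∈ U`; induction on the number of
elements.
If `U` is not empty let `i` be a minimal element; `U \ {i}` is an upper set; take its `F`. All
`j > i` are in `U \ {i}`, so `hs` gives `X0`; put `F' = up F i (sg i * X0)`. Then `Good F' i`; for
`j ∈ U`, `j ≠ i`, the entries above `j` are unchanged (`i ≥ j` is impossible, because `i` is minimal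
in `U`), so `Good F' j` by `hl`. -/
theorem sel {n1 n2 n3 : ℕ}
    (Good : FT n1 n2 n3 → Fin n1 → Fin (n2 + 1) → Fin (n3 + 1) → Prop)
    (hl : ∀ F F' a b c, (∀ a' b' c', a ≤ a' → b ≤ b' → c ≤ c' → F a' b' c' = F' a' b' c') →
      Good F a b c → Good F' a b c)
    (hs : ∀ F a b c, (∀ a' b' c', a ≤ a' → b ≤ b' → c ≤ c' → (a', b', c') ≠ (a, b, c) →
      Good F a' b' c') →
      ∃ X0 : ℝ, ∀ x ≥ X0, Good (up F a b c (sg a.val b.val c.val * x)) a b c) :
    ∃ F, ∀ a b c, Good F a b c := by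
  obtain ⟨F, hF⟩ := sel_aux Good hl hs _ Finset.univ rfl (fun _ _ j _ => Finset.mem_univ j)
  exact ⟨F, fun a b c => hF (a, b, c) (Finset.mem_univ _)⟩

end Pool.Agent.MPb0eR
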