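import Mathlib
import Pool.Agent.Lib.MP_b0e20b_ag_R.Cpt

/-!
# MP_b0e20b_ag, project R: the possible limits of the singular tuples with a large corner entry
-/

set_option autoImplicit false

open scoped BigOperators Topology
open Filter

namespace Pool.Agent.MPb0eR

section

variable {A B C : Type} [Fintype A] [Fintype B] [Fintype C] [DecidableEq A] [DecidableEq B]
  [DecidableEq C] {T : A → B → C → ℝ} {a0 : A} {b0 : B} {c0 : C} {s : ℝ} {SA : Finset A}
  {SB : Finset B} {SC : Finset C} {L : ℕ → ℝ} {ia : A} {ib : B} {ic : C} {u : ℕ → A → ℂ}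
  {v : ℕ → B → ℂ} {w : ℕ → C → ℂ} {α β γ : ℕ → ℂ}

private theorem cls_unb {A : Type} [Fintype A] {u : ℕ → A → ℂ} {u0 : A → ℂ}
    (hu : Tendsto u uf (𝓝 u0)) {SA : Finset A} (hs : ∀ n, Sup SA (u n)) (a0 : A)
    {k : ℕ → A → ℂ} {k0 : A → ℂ} (hk : ∀ a, Tendsto (fun n => k n a) uf (𝓝 (k0 a)))
    {α : ℕ → ℂ} (hα : Tendsto (fun n => ‖α n‖) uf atTop)
    (he : ∀ n, ∀ a ∈ SA, a ≠ a0 → k n a = α n * u n a) : ∀ a, a ≠ a0 → u0 a = 0 := by
  intro a ha
  by_cases hm : a ∈ SA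
  · have h1 : Tendsto (fun n => u n a) uf (𝓝 (u0 a)) := (tendsto_pi_nhds.1 hu) a
    have h2 : Tendsto (fun n => ‖u n a‖) uf (𝓝 0) := by
      have h3 : Tendsto (fun n => ‖k n a‖ / ‖α n‖) uf (𝓝 0) := (hk a).norm.div_atTop hα
      refine h3.congr' ?_
      filter_upwards [hα.eventually_gt_atTop 0] with n hn
      rw [he n a hm ha, norm_mul, mul_div_cancel_left₀ _ hn.ne']
    exact tendsto_nhds_unique h1 (tendsto_zero_iff_norm_tendsto_zero.2 h2)
  · exact Sup.lim hs hu a hm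

private theorem cls_one {A : Type} [Fintype A] {u0 : A → ℂ} {a0 ia : A}
    (h : ∀ a, a ≠ a0 → u0 a = 0) (hn : Nrm u0 ia) : ia = a0 ∧ q u0 = 1 := by
  have h1 : ia = a0 := by
    by_contra hne
    have h2 := h ia hne
    rw [hn.1] at h2
    exact one_ne_zero h2
  subst h1
  refine ⟨rfl, ?_⟩
  rw [q, Finset.sum_eq_single ia]
  · rw [hn.1, one_pow]
  · intro b _ hb
    rw [h b hb]
    ring
  · intro h'
    exact absurd (Finset.mem_univ _) h'

private theorem cls_big {α β x y : ℕ → ℂ} {y0 : ℂ} (hx : Tendsto x uf (𝓝 1))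
    (hy : Tendsto y uf (𝓝 y0)) (h : ∀ n, α n * x n = β n * y n)
    (hα : Tendsto (fun n => ‖α n‖) uf atTop) : Tendsto (fun n => ‖β n‖) uf atTop := by
  rcases ualt β with ⟨β0, hβ⟩ | hβ
  · exfalso
    have h1 : Tendsto (fun n => ‖α n * x n‖) uf atTop := by
      simp only [norm_mul]
      have h3 : Tendsto (fun n => ‖x n‖) uf (𝓝 1) := by simpa using hx.norm
      exact hα.atTop_mul_pos one_pos h3
    have h2 : Tendsto (fun n => ‖β n * y n‖) uf (𝓝 ‖β0 * y0‖) := (hβ.mul hy).norm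
    simp only [← h] at h2
    exact not_tendsto_nhds_of_tendsto_atTop h1 _ h2
  · exact hβ

private theorem cls_corner {Λ x y z : ℕ → ℂ} {x0 y0 z0 P Q R : ℂ} (h0 : ∀ n, Λ n ≠ 0)
    (hΛ : Tendsto (fun n => (Λ n)⁻¹) uf (𝓝 0)) (hx : Tendsto x uf (𝓝 x0))
    (hy : Tendsto y uf (𝓝 y0)) (hz : Tendsto z uf (𝓝 z0))
    (hyz : Tendsto (fun n => Λ n * (y n * z n)) uf (𝓝 P))
    (hxz : Tendsto (fun n => Λ n * (x n * z n)) uf (𝓝 Q))
    (hxy : Tendsto (fun n => Λ n * (x n * y n)) uf (𝓝 R)) (hz0 : z0 ≠ 0) :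
    x0 = 0 ∧ y0 = 0 ∧ R = 0 := by
  have key : ∀ (a b : ℕ → ℂ) (a1 b1 S : ℂ), Tendsto a uf (𝓝 a1) → Tendsto b uf (𝓝 b1) →
      Tendsto (fun n => Λ n * (a n * b n)) uf (𝓝 S) → a1 * b1 = 0 := by
    intro a b a1 b1 S ha hb hab
    have h1 := hΛ.mul hab
    rw [zero_mul] at h1
    have h2 : (fun n => (Λ n)⁻¹ * (Λ n * (a n * b n))) = fun n => a n * b n := by
      funext n
      rw [inv_mul_cancel_left₀ (h0 n)]
    rw [h2] at h1
    exact tendsto_nhds_unique (ha.mul hb) h1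
  have e1 := key y z y0 z0 P hy hz hyz
  have e2 := key x z x0 z0 Q hx hz hxz
  refine ⟨(mul_eq_zero.1 e2).resolve_right hz0, (mul_eq_zero.1 e1).resolve_right hz0, ?_⟩
  have h1 := hxy.mul (hz.mul hz)
  have h2 := hΛ.mul (hxz.mul hyz)
  rw [zero_mul] at h2
  have h3 : (fun n => (Λ n)⁻¹ * (Λ n * (x n * z n) * (Λ n * (y n * z n)))) =
      fun n => Λ n * (x n * y n) * (z n * z n) := by
    funext n
    have := h0 n
    field_simp
  rw [h3] at h2
  have h4 := tendsto_nhds_unique h1 h2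
  exact (mul_eq_zero.1 h4).resolve_right (mul_ne_zero hz0 hz0)

private theorem cls_lim {A : Type} [Fintype A] {u : ℕ → A → ℂ} {u0 : A → ℂ}
    (hu : Tendsto u uf (𝓝 u0)) {SA : Finset A} {a0 : A}
    {k : ℕ → A → ℂ} {k0 : A → ℂ} (hk : ∀ a, Tendsto (fun n => k n a) uf (𝓝 (k0 a)))
    {α : ℕ → ℂ} {α0 : ℂ} (hα : Tendsto α uf (𝓝 α0))
    (he : ∀ n, ∀ a ∈ SA, a ≠ a0 → k n a = α n * u n a) :
    ∀ a ∈ SA, a ≠ a0 → k0 a = α0 * u0 a := by
  intro a hm ha
  have h1 : Tendsto (fun n => u n a) uf (𝓝 (u0 a)) := (tendsto_pi_nhds.1 hu) a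
  have h2 := hk a
  have h3 : (fun n => k n a) = fun n => α n * u n a := by
    funext n
    exact he n a hm ha
  rw [h3] at h2
  exact tendsto_nhds_unique h2 (hα.mul h1)

private theorem cls_sup {A : Type} [DecidableEq A] {u0 : A → ℂ} {SA : Finset A} {a0 : A}
    (h : Sup SA u0) (h0 : u0 a0 = 0) : Sup (SA.erase a0) u0 := by
  intro a ha
  by_cases h1 : a = a0
  · rw [h1, h0]
  · exact h a fun h2 => ha (Finset.mem_erase.2 ⟨h1, h2⟩)

/-- The possible limits.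

Proof. The normalised vectors converge (`ulim_vec`), the limits are normalised. Let `x = u n a0`,
`y = v n b0`, `z = w n c0`, `t n = T_n(u, v, w)`, so `t = α q(u) = β q(v) = γ q(w)` (`Tup.trace`).
The contractions `c1 T v w a` and so on are bounded (they converge).

Suppose `‖α‖ → ∞` (`ualt`). For `a ∈ SA`, `a ≠ a0`: `α u(a) = c1 T v w a` is bounded, so
`u0 a = 0`. So `u0` is concentrated at `a0`, `ia = a0`, `u0 a0 = 1`, `q(u) → 1`, so
`‖α q(u)‖ → ∞`, and as `q(v)`, `q(w)` are bounded, `‖β‖ → ∞` and `‖γ‖ → ∞`; the same argument gives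
that `v0`, `w0` are concentrated at the corners: first case. The same if `‖β‖ → ∞` or `‖γ‖ → ∞`.

Otherwise `α`, `β`, `γ` converge. The equations at the corners (`c1_ad` etc.) say that `s L y z`,
`s L x z`, `s L x y` are bounded, so `x y`, `x z`, `y z` tend to `0` (`L → ∞`): at least two of
`x0 = u0 a0`, `y0`, `z0` vanish. The equations at the noncorner indices pass to the limit (`lim_c1`
etc.). If `z0 ≠ 0`, then `x0 = y0 = 0`, so `u0`, `v0` are supported in the smaller masks, and at `c0`: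
`c3 T u v c0 + s L x y = γ z` with `L x y = (L x z)(L y z)/(L z²) → 0` (bounded over infinite), so the
equation at `c0` holds in the limit: a tuple of the mask `(SA.erase a0, SB.erase b0, SC)`. Similarly if
`y0 ≠ 0` or `x0 ≠ 0`; if `x0 = y0 = z0 = 0` the limit is a tuple of the mask without the three
corners. -/
theorem cls (hs : s = 1 ∨ s = -1) (ha : a0 ∈ SA) (hb : b0 ∈ SB) (hc : c0 ∈ SC)
    (h : Sq T a0 b0 c0 s SA SB SC L ia ib ic u v w α β γ) :
    ∃ u0 v0 w0, Lv u v w u0 v0 w0 ∧ Nrm u0 ia ∧ Nrm v0 ib ∧ Nrm w0 ic ∧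
      (((∀ a, a ≠ a0 → u0 a = 0) ∧ (∀ b, b ≠ b0 → v0 b = 0) ∧ (∀ c, c ≠ c0 → w0 c = 0) ∧
          ia = a0 ∧ ib = b0 ∧ ic = c0 ∧ Tendsto (fun n => ‖α n‖) uf atTop ∧
          Tendsto (fun n => ‖β n‖) uf atTop ∧ Tendsto (fun n => ‖γ n‖) uf atTop) ∨
        ∃ α0 β0 γ0, Lc α β γ α0 β0 γ0 ∧
          ((Tup T (SA.erase a0) (SB.erase b0) SC u0 v0 w0 α0 β0 γ0 ∧ w0 c0 ≠ 0) ∨
            (Tup T (SA.erase a0) SB (SC.erase c0) u0 v0 w0 α0 β0 γ0 ∧ v0 b0 ≠ 0) ∨
            (Tup T SA (SB.erase b0) (SC.erase c0) u0 v0 w0 α0 β0 γ0 ∧ u0 a0 ≠ 0) ∨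
            Tup T (SA.erase a0) (SB.erase b0) (SC.erase c0) u0 v0 w0 α0 β0 γ0)) := by
  obtain ⟨hL, hpos, htup, nu, nv, nw⟩ := h
  obtain ⟨u0, hu⟩ := ulim_vec u 1 fun n a => (nu n).2 a
  obtain ⟨v0, hv⟩ := ulim_vec v 1 fun n a => (nv n).2 a
  obtain ⟨w0, hw⟩ := ulim_vec w 1 fun n a => (nw n).2 a
  have nu0 := Nrm.lim nu hu
  have nv0 := Nrm.lim nv hv
  have nw0 := Nrm.lim nw hw
  have su : Sup SA u0 := Sup.lim (fun n => (htup n).su) hu
  have sv : Sup SB v0 := Sup.lim (fun n => (htup n).sv) hv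
  have sw : Sup SC w0 := Sup.lim (fun n => (htup n).sw) hw
  refine ⟨u0, v0, w0, ⟨hu, hv, hw⟩, nu0, nv0, nw0, ?_⟩
  have k1 : ∀ a, Tendsto (fun n => c1 T (v n) (w n) a) uf (𝓝 (c1 T v0 w0 a)) :=
    fun a => lim_c1 hv hw a
  have k2 : ∀ b, Tendsto (fun n => c2 T (u n) (w n) b) uf (𝓝 (c2 T u0 w0 b)) :=
    fun b => lim_c2 hu hw b
  have k3 : ∀ c, Tendsto (fun n => c3 T (u n) (v n) c) uf (𝓝 (c3 T u0 v0 c)) :=
    fun c => lim_c3 hu hv c
  have e1 : ∀ n, ∀ a ∈ SA, a ≠ a0 → c1 T (v n) (w n) a = α n * u n a := by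
    intro n a h1 h2
    rw [← (htup n).e1 a h1, c1_ad, if_neg h2, add_zero]
  have e2 : ∀ n, ∀ b ∈ SB, b ≠ b0 → c2 T (u n) (w n) b = β n * v n b := by
    intro n b h1 h2
    rw [← (htup n).e2 b h1, c2_ad, if_neg h2, add_zero]
  have e3 : ∀ n, ∀ c ∈ SC, c ≠ c0 → c3 T (u n) (v n) c = γ n * w n c := by
    intro n c h1 h2
    rw [← (htup n).e3 c h1, c3_ad, if_neg h2, add_zero]
  have qu := lim_q hu
  have qv := lim_q hv
  have qw := lim_q hw
  have t12 : ∀ n, α n * q (u n) = β n * q (v n) := fun n =>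
    (htup n).trace.1.symm.trans (htup n).trace.2.1
  have t13 : ∀ n, α n * q (u n) = γ n * q (w n) := fun n =>
    (htup n).trace.1.symm.trans (htup n).trace.2.2
  have t23 : ∀ n, β n * q (v n) = γ n * q (w n) := fun n =>
    (htup n).trace.2.1.symm.trans (htup n).trace.2.2
  have con1 : Tendsto (fun n => ‖α n‖) uf atTop → ∀ a, a ≠ a0 → u0 a = 0 := fun h1 =>
    cls_unb hu (fun n => (htup n).su) a0 k1 h1 e1
  have con2 : Tendsto (fun n => ‖β n‖) uf atTop → ∀ b, b ≠ b0 → v0 b = 0 := fun h1 =>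
    cls_unb hv (fun n => (htup n).sv) b0 k2 h1 e2
  have con3 : Tendsto (fun n => ‖γ n‖) uf atTop → ∀ c, c ≠ c0 → w0 c = 0 := fun h1 =>
    cls_unb hw (fun n => (htup n).sw) c0 k3 h1 e3
  by_cases hbig : Tendsto (fun n => ‖α n‖) uf atTop ∨ Tendsto (fun n => ‖β n‖) uf atTop ∨
      Tendsto (fun n => ‖γ n‖) uf atTop
  · left
    have hall : Tendsto (fun n => ‖α n‖) uf atTop ∧ Tendsto (fun n => ‖β n‖) uf atTop ∧
        Tendsto (fun n => ‖γ n‖) uf atTop := by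
      rcases hbig with h1 | h1 | h1
      · have h2 := (cls_one (con1 h1) nu0).2
        rw [h2] at qu
        exact ⟨h1, cls_big qu qv t12 h1, cls_big qu qw t13 h1⟩
      · have h2 := (cls_one (con2 h1) nv0).2
        rw [h2] at qv
        exact ⟨cls_big qv qu (fun n => (t12 n).symm) h1, h1, cls_big qv qw t23 h1⟩
      · have h2 := (cls_one (con3 h1) nw0).2
        rw [h2] at qw
        exact ⟨cls_big qw qu (fun n => (t13 n).symm) h1,
          cls_big qw qv (fun n => (t23 n).symm) h1, h1⟩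
    obtain ⟨h1, h2, h3⟩ := hall
    exact ⟨con1 h1, con2 h2, con3 h3, (cls_one (con1 h1) nu0).1, (cls_one (con2 h2) nv0).1,
      (cls_one (con3 h3) nw0).1, h1, h2, h3⟩
  · right
    have hc1 : ∃ α0, Tendsto α uf (𝓝 α0) :=
      (ualt α).resolve_right fun h1 => hbig (Or.inl h1)
    have hc2 : ∃ β0, Tendsto β uf (𝓝 β0) :=
      (ualt β).resolve_right fun h1 => hbig (Or.inr (Or.inl h1))
    have hc3 : ∃ γ0, Tendsto γ uf (𝓝 γ0) :=
      (ualt γ).resolve_right fun h1 => hbig (Or.inr (Or.inr h1))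
    obtain ⟨α0, hα⟩ := hc1
    obtain ⟨β0, hβ⟩ := hc2
    obtain ⟨γ0, hγ⟩ := hc3
    refine ⟨α0, β0, γ0, ⟨hα, hβ, hγ⟩, ?_⟩
    have hu' : Tendsto (fun n => u n a0) uf (𝓝 (u0 a0)) := (tendsto_pi_nhds.1 hu) a0
    have hv' : Tendsto (fun n => v n b0) uf (𝓝 (v0 b0)) := (tendsto_pi_nhds.1 hv) b0
    have hw' : Tendsto (fun n => w n c0) uf (𝓝 (w0 c0)) := (tendsto_pi_nhds.1 hw) c0
    have hs0 : s ≠ 0 := by
      rcases hs with h1 | h1 <;> rw [h1] <;> norm_num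
    have hΛ0 : ∀ n, ((s * L n : ℝ) : ℂ) ≠ 0 := fun n =>
      Complex.ofReal_ne_zero.2 (mul_ne_zero hs0 (hpos n).ne')
    have hΛ : Tendsto (fun n => ((s * L n : ℝ) : ℂ)⁻¹) uf (𝓝 0) := by
      have h1 : Tendsto (fun n => (L n)⁻¹) uf (𝓝 0) := tendsto_inv_atTop_zero.comp hL
      have h2 : Tendsto (fun n => s⁻¹ * (L n)⁻¹) uf (𝓝 0) := by
        have := h1.const_mul s⁻¹
        rwa [mul_zero] at this
      have h3 := (Complex.continuous_ofReal.tendsto 0).comp h2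
      rw [Complex.ofReal_zero] at h3
      refine h3.congr fun n => ?_
      simp [mul_comm]
    have P1 : Tendsto (fun n => ((s * L n : ℝ) : ℂ) * (v n b0 * w n c0)) uf
        (𝓝 (α0 * u0 a0 - c1 T v0 w0 a0)) := by
      refine ((hα.mul hu').sub (k1 a0)).congr fun n => ?_
      have h1 := (htup n).e1 a0 ha
      rw [c1_ad, if_pos rfl] at h1
      rw [← h1]
      ring
    have P2 : Tendsto (fun n => ((s * L n : ℝ) : ℂ) * (u n a0 * w n c0)) uf
        (𝓝 (β0 * v0 b0 - c2 T u0 w0 b0)) := by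
      refine ((hβ.mul hv').sub (k2 b0)).congr fun n => ?_
      have h1 := (htup n).e2 b0 hb
      rw [c2_ad, if_pos rfl] at h1
      rw [← h1]
      ring
    have P3 : Tendsto (fun n => ((s * L n : ℝ) : ℂ) * (u n a0 * v n b0)) uf
        (𝓝 (γ0 * w0 c0 - c3 T u0 v0 c0)) := by
      refine ((hγ.mul hw').sub (k3 c0)).congr fun n => ?_
      have h1 := (htup n).e3 c0 hc
      rw [c3_ad, if_pos rfl] at h1
      rw [← h1]
      ring
    have E1 := cls_lim hu k1 hα e1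
    have E2 := cls_lim hv k2 hβ e2
    have E3 := cls_lim hw k3 hγ e3
    have F1 : ∀ a ∈ SA.erase a0, c1 T v0 w0 a = α0 * u0 a := fun a h1 =>
      E1 a (Finset.mem_of_mem_erase h1) (Finset.ne_of_mem_erase h1)
    have F2 : ∀ b ∈ SB.erase b0, c2 T u0 w0 b = β0 * v0 b := fun b h1 =>
      E2 b (Finset.mem_of_mem_erase h1) (Finset.ne_of_mem_erase h1)
    have F3 : ∀ c ∈ SC.erase c0, c3 T u0 v0 c = γ0 * w0 c := fun c h1 =>
      E3 c (Finset.mem_of_mem_erase h1) (Finset.ne_of_mem_erase h1)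
    by_cases hz : w0 c0 ≠ 0
    · left
      obtain ⟨hx0, hy0, hR⟩ := cls_corner hΛ0 hΛ hu' hv' hw' P1 P2 P3 hz
      refine ⟨⟨cls_sup su hx0, cls_sup sv hy0, sw, F1, F2, ?_⟩, hz⟩
      intro c h1
      by_cases h2 : c = c0
      · rw [h2]
        exact (sub_eq_zero.1 hR).symm
      · exact E3 c h1 h2
    · right
      rw [not_not] at hz
      by_cases hy : v0 b0 ≠ 0
      · left
        have P1' : Tendsto (fun n => ((s * L n : ℝ) : ℂ) * (w n c0 * v n b0)) uf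
            (𝓝 (α0 * u0 a0 - c1 T v0 w0 a0)) := P1.congr fun n => by ring
        obtain ⟨hx0, hz0, hR⟩ := cls_corner hΛ0 hΛ hu' hw' hv' P1' P3 P2 hy
        refine ⟨⟨cls_sup su hx0, sv, cls_sup sw hz0, F1, ?_, F3⟩, hy⟩
        intro b h1
        by_cases h2 : b = b0
        · rw [h2]
          exact (sub_eq_zero.1 hR).symm
        · exact E2 b h1 h2
      · right
        rw [not_not] at hy
        by_cases hx : u0 a0 ≠ 0
        · left
          have P2' : Tendsto (fun n => ((s * L n : ℝ) : ℂ) * (w n c0 * u n a0)) uf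
              (𝓝 (β0 * v0 b0 - c2 T u0 w0 b0)) := P2.congr fun n => by ring
          have P3' : Tendsto (fun n => ((s * L n : ℝ) : ℂ) * (v n b0 * u n a0)) uf
              (𝓝 (γ0 * w0 c0 - c3 T u0 v0 c0)) := P3.congr fun n => by ring
          obtain ⟨hy0, hz0, hR⟩ := cls_corner hΛ0 hΛ hv' hw' hu' P2' P3' P1 hx
          refine ⟨⟨su, cls_sup sv hy0, cls_sup sw hz0, ?_, F2, F3⟩, hx⟩
          intro a h1
          by_cases h2 : a = a0
          · rw [h2]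
            exact (sub_eq_zero.1 hR).symm
          · exact E1 a h1 h2
        · right
          rw [not_not] at hx
          exact ⟨cls_sup su hx, cls_sup sv hy, cls_sup sw hz, F1, F2, F3⟩

end

end Pool.Agent.MPb0eR
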