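import Mathlib
import Pool.Agent.Lib.MP_b0e20b_ag_R.Alg2

/-!
# MP_b0e20b_ag, project R: permutations of the factors
-/

set_option autoImplicit false

open scoped BigOperators Topology
open Filter

namespace Pool.Agent.MPb0eR

section

variable {A B C : Type} [Fintype A] [Fintype B] [Fintype C] {T : A → B → C → ℝ} {SA : Finset A}
  {SB : Finset B} {SC : Finset C} {u : A → ℂ} {v : B → ℂ} {w : C → ℂ} {α β γ : ℂ}

private theorem Ps12 (h : Tup T SA SB SC u v w α β γ) : Tup (s12 T) SB SA SC v u w β α γ :=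
  ⟨h.sv, h.su, h.sw, fun b hb => by rw [c1_s12]; exact h.e2 b hb,
    fun a ha => by rw [c2_s12]; exact h.e1 a ha, fun c hc => by rw [c3_s12]; exact h.e3 c hc⟩

private theorem Ps23 (h : Tup T SA SB SC u v w α β γ) : Tup (s23 T) SA SC SB u w v α γ β :=
  ⟨h.su, h.sw, h.sv, fun a ha => by rw [c1_s23]; exact h.e1 a ha,
    fun c hc => by rw [c2_s23]; exact h.e3 c hc, fun b hb => by rw [c3_s23]; exact h.e2 b hb⟩

private theorem Pk12 {du : A → ℂ} {dv : B → ℂ} {dw : C → ℂ} {dα dβ dγ : ℂ}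
    (h : Ker T SA SB SC u v w α β γ du dv dw dα dβ dγ) :
    Ker (s12 T) SB SA SC v u w β α γ dv du dw dβ dα dγ :=
  ⟨h.sv, h.su, h.sw, fun b hb => by rw [c1_s12, c1_s12]; exact h.e2 b hb,
    fun a ha => by rw [c2_s12, c2_s12]; exact h.e1 a ha,
    fun c hc => by rw [c3_s12, c3_s12, add_comm]; exact h.e3 c hc⟩

private theorem Pk23 {du : A → ℂ} {dv : B → ℂ} {dw : C → ℂ} {dα dβ dγ : ℂ}
    (h : Ker T SA SB SC u v w α β γ du dv dw dα dβ dγ) :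
    Ker (s23 T) SA SC SB u w v α γ β du dw dv dα dγ dβ :=
  ⟨h.su, h.sw, h.sv, fun a ha => by rw [c1_s23, c1_s23, add_comm]; exact h.e1 a ha,
    fun c hc => by rw [c2_s23, c2_s23]; exact h.e3 c hc,
    fun b hb => by rw [c3_s23, c3_s23]; exact h.e2 b hb⟩

private theorem Pn12 (h : Nd T SA SB SC u v w α β γ) : Nd (s12 T) SB SA SC v u w β α γ := by
  intro dv du dw dβ dα dγ hk
  obtain ⟨h1, h2, h3⟩ := h du dv dw dα dβ dγ (Pk12 hk)
  exact ⟨h2, h1, h3⟩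

private theorem Pn23 (h : Nd T SA SB SC u v w α β γ) : Nd (s23 T) SA SC SB u w v α γ β := by
  intro du dw dv dα dγ dβ hk
  obtain ⟨h1, h2, h3⟩ := h du dv dw dα dβ dγ (Pk23 hk)
  exact ⟨h1, h3, h2⟩

private theorem Po12 (h : Ok T SA SB SC u v w α β γ) : Ok (s12 T) SB SA SC v u w β α γ :=
  ⟨h.rv, h.ru, h.rw', h.hβ, h.hα, h.hγ, Pn12 h.nd⟩

private theorem Po23 (h : Ok T SA SB SC u v w α β γ) : Ok (s23 T) SA SC SB u w v α γ β :=
  ⟨h.ru, h.rw', h.rv, h.hα, h.hγ, h.hβ, Pn23 h.nd⟩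

private theorem Pf12 (h : FR T SA SB SC) : FR (s12 T) SB SA SC := by
  intro v u w β α γ ht hv hu hw
  exact Po12 (h u v w α β γ (Ps12 ht) hu hv hw)

private theorem Pf23 (h : FR T SA SB SC) : FR (s23 T) SA SC SB := by
  intro u w v α γ β ht hu hw hv
  exact Po23 (h u v w α β γ (Ps23 ht) hu hv hw)

private theorem Pr23 (h : VR T SA SB SC) : VR (s23 T) SA SC SB := by
  intro w v hw hv h0 nw nv
  obtain ⟨h1, h2, h3⟩ := h v w hv hw (fun a ha => by rw [← c1_s23]; exact h0 a ha) nv nw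
  refine ⟨h2, h1, fun dw dv sw sv hd => ?_⟩
  obtain ⟨h4, h5⟩ := h3 dv dw sv sw (fun a ha => by
    have h6 := hd a ha
    rw [c1_s23, c1_s23, add_comm] at h6
    exact h6)
  exact ⟨h5, h4⟩

private theorem Pe23 (h : VE T SA SB SC) : VE (s23 T) SA SC SB := by
  intro w v hw hv h0
  exact (h v w hv hw (fun a ha => by rw [← c1_s23]; exact h0 a ha)).symm

theorem Tup_s12 : Tup (s12 T) SB SA SC v u w β α γ ↔ Tup T SA SB SC u v w α β γ := by
  exact ⟨fun h => Ps12 h, fun h => Ps12 h⟩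

theorem Tup_s23 : Tup (s23 T) SA SC SB u w v α γ β ↔ Tup T SA SB SC u v w α β γ := by
  exact ⟨fun h => Ps23 h, fun h => Ps23 h⟩

theorem Nd_s12 : Nd (s12 T) SB SA SC v u w β α γ ↔ Nd T SA SB SC u v w α β γ := by
  exact ⟨fun h => Pn12 h, fun h => Pn12 h⟩

theorem Nd_s23 : Nd (s23 T) SA SC SB u w v α γ β ↔ Nd T SA SB SC u v w α β γ := by
  exact ⟨fun h => Pn23 h, fun h => Pn23 h⟩

theorem Ok_s12 : Ok (s12 T) SB SA SC v u w β α γ ↔ Ok T SA SB SC u v w α β γ := by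
  exact ⟨fun h => Po12 h, fun h => Po12 h⟩

theorem Ok_s23 : Ok (s23 T) SA SC SB u w v α γ β ↔ Ok T SA SB SC u v w α β γ := by
  exact ⟨fun h => Po23 h, fun h => Po23 h⟩

theorem FR_s12 : FR (s12 T) SB SA SC ↔ FR T SA SB SC := by
  exact ⟨fun h => Pf12 h, fun h => Pf12 h⟩

theorem FR_s23 : FR (s23 T) SA SC SB ↔ FR T SA SB SC := by
  exact ⟨fun h => Pf23 h, fun h => Pf23 h⟩

theorem VR_s23 : VR (s23 T) SA SC SB ↔ VR T SA SB SC := by
  exact ⟨fun h => Pr23 h, fun h => Pr23 h⟩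

theorem VE_s23 : VE (s23 T) SA SC SB ↔ VE T SA SB SC := by
  exact ⟨fun h => Pe23 h, fun h => Pe23 h⟩

end

section

variable {A B C : Type} [Fintype A] [Fintype B] [Fintype C] [DecidableEq A] [DecidableEq B]
  [DecidableEq C] {T : A → B → C → ℝ} {a0 : A} {b0 : B} {c0 : C} {s : ℝ} {SA : Finset A}
  {SB : Finset B} {SC : Finset C}

theorem Okc_s12 {L : ℝ} {u : A → ℂ} {v : B → ℂ} {w : C → ℂ} {α β γ : ℂ} :
    Okc (s12 T) b0 a0 c0 s SB SA SC L v u w β α γ ↔ Okc T a0 b0 c0 s SA SB SC L u v w α β γ := by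
  rw [Okc, Okc, ← s12_ad, Ok_s12]
  exact and_congr_right fun _ => and_left_comm

theorem Okc_s23 {L : ℝ} {u : A → ℂ} {v : B → ℂ} {w : C → ℂ} {α β γ : ℂ} :
    Okc (s23 T) a0 c0 b0 s SA SC SB L u w v α γ β ↔ Okc T a0 b0 c0 s SA SB SC L u v w α β γ := by
  rw [Okc, Okc, ← s23_ad, Ok_s23]
  exact and_congr_right fun _ => and_congr_right fun _ => and_comm

theorem Sq_s12 {L : ℕ → ℝ} {ia : A} {ib : B} {ic : C} {u : ℕ → A → ℂ} {v : ℕ → B → ℂ}
    {w : ℕ → C → ℂ} {α β γ : ℕ → ℂ} (h : Sq T a0 b0 c0 s SA SB SC L ia ib ic u v w α β γ) :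
    Sq (s12 T) b0 a0 c0 s SB SA SC L ib ia ic v u w β α γ := by
  refine ⟨h.hL, h.pos, fun n => ?_, h.nv, h.nu, h.nw⟩
  rw [← s12_ad]
  exact Tup_s12.2 (h.tup n)

theorem Sq_s23 {L : ℕ → ℝ} {ia : A} {ib : B} {ic : C} {u : ℕ → A → ℂ} {v : ℕ → B → ℂ}
    {w : ℕ → C → ℂ} {α β γ : ℕ → ℂ} (h : Sq T a0 b0 c0 s SA SB SC L ia ib ic u v w α β γ) :
    Sq (s23 T) a0 c0 b0 s SA SC SB L ia ic ib u w v α γ β := by
  refine ⟨h.hL, h.pos, fun n => ?_, h.nu, h.nw, h.nv⟩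
  rw [← s23_ad]
  exact Tup_s23.2 (h.tup n)

end

end Pool.Agent.MPb0eR
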