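import Mathlib
import Pool.Agent.Lib.MP_b0e20b_ag_R.Alg2

/-!
# MP_b0e20b_ag, project R: the limit kernels
-/

set_option autoImplicit false

open scoped BigOperators Topology
open Filter

namespace Pool.Agent.MPb0eR

section

variable {A B C : Type} [Fintype A] [Fintype B] [Fintype C] [DecidableEq A] [DecidableEq B]
  [DecidableEq C] {T : A → B → C → ℝ} {a0 : A} {b0 : B} {c0 : C} {s : ℝ} {SA : Finset A}
  {SB : Finset B} {SC : Finset C} {ia : A} {ib : B} {ic : C} {p : Pt A B C}

/-- The kernel at the limit parameters `z12`: the corner coordinates of the first two factors are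
scaled by `0`.

Proof. Let `dloc z12 p h = 0`, `h = (du, dv, dw, dl)`. The components of `ll` say that `du`, `dv`,
`dw` vanish outside of the masks and at `ia`, `ib`, `ic`. The components of `lb1` for `a ≠ a0`, of
`lb2` for `b ≠ b0` and of `lb3` for all `c` (for `c = c0`: `m = 1`, `k = 0`, `g = 1`, and
`scl c0 1 1 w = w`) say that
`(scl a0 0 1 du, scl b0 0 1 dv, dw, dl 0, dl 1, dl 2)` is in `Ker` for the tuple `ht`. By `nd` these
vectors are multiples of `scl a0 0 1 p.1` (which is `1` at `ia ≠ a0`) and so on, and they vanish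
at `ia`, `ib`, `ic`, so they are zero: `du a = 0` for `a ≠ a0`, `dv b = 0` for `b ≠ b0`, `dw = 0`.
The equations at `ia`, `ib`, `ic` now give `dl = 0` (`ia ∈ SA`: otherwise `p.1 ia = 0`). The
equations at `a0` and `b0` are `s dv(b0) w(c0) = 0` and `s du(a0) w(c0) = 0`. -/
theorem K12 (hs : s ≠ 0) (hb : b0 ∈ SB) (ha : a0 ∈ SA) (hc : c0 ∈ SC)
    (ht : Tup T (SA.erase a0) (SB.erase b0) SC (scl a0 0 1 p.1) (scl b0 0 1 p.2.1) p.2.2.1
      (p.2.2.2 0) (p.2.2.2 1) (p.2.2.2 2))
    (nd : Nd T (SA.erase a0) (SB.erase b0) SC (scl a0 0 1 p.1) (scl b0 0 1 p.2.1) p.2.2.1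
      (p.2.2.2 0) (p.2.2.2 1) (p.2.2.2 2))
    (hia : ia ≠ a0) (hib : ib ≠ b0) (hu : p.1 ia = 1) (hv : p.2.1 ib = 1) (hw : p.2.2.1 ic = 1)
    (hw0 : p.2.2.1 c0 ≠ 0) (h : Pt A B C)
    (hk : dloc T a0 b0 c0 s SA SB SC ia ib ic z12 p h = 0) : h = 0 := by
  obtain ⟨u, v, w, l⟩ := p
  obtain ⟨du, dv, dw, dl⟩ := h
  simp only at ht nd hu hv hw hw0
  -- the components
  have hc11 : ∀ x : C → ℂ, scl c0 1 1 x = x := by
    intro x
    funext c
    simp [scl]
  have E1 : ∀ a, lb1 T a0 b0 c0 s SA z12 (u, v, w, l) (du, dv, dw, dl) a +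
      lb1 T a0 b0 c0 s SA z12 (du, dv, dw, dl) (u, v, w, l) a +
      (if a = a0 ∨ a ∈ SA then 0 else du a) = 0 :=
    fun a => congrFun (congrArg (fun x : Pt A B C => x.1) hk) a
  have E2 : ∀ b, lb2 T a0 b0 c0 s SB z12 (u, v, w, l) (du, dv, dw, dl) b +
      lb2 T a0 b0 c0 s SB z12 (du, dv, dw, dl) (u, v, w, l) b +
      (if b = b0 ∨ b ∈ SB then 0 else dv b) = 0 :=
    fun b => congrFun (congrArg (fun x : Pt A B C => x.2.1) hk) b
  have E3 : ∀ c, lb3 T a0 b0 c0 s SC z12 (u, v, w, l) (du, dv, dw, dl) c +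
      lb3 T a0 b0 c0 s SC z12 (du, dv, dw, dl) (u, v, w, l) c +
      (if c = c0 ∨ c ∈ SC then 0 else dw c) = 0 :=
    fun c => congrFun (congrArg (fun x : Pt A B C => x.2.2.1) hk) c
  have E4 : ∀ i, (0 : Fin 3 → ℂ) i + (![du ia, dv ib, dw ic] : Fin 3 → ℂ) i = 0 :=
    fun i => congrFun (congrArg (fun x : Pt A B C => x.2.2.2) hk) i
  have hdu0 : du ia = 0 := by simpa using E4 0
  have hdv0 : dv ib = 0 := by simpa using E4 1
  have hdw0 : dw ic = 0 := by simpa using E4 2
  -- the entries of the parameters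
  have z00 : z12 0 0 = 0 := rfl
  have z01 : z12 0 1 = 1 := rfl
  have z02 : z12 0 2 = 1 := rfl
  have z03 : z12 0 3 = 1 := rfl
  have z04 : z12 0 4 = 0 := rfl
  have z10 : z12 1 0 = 0 := rfl
  have z11 : z12 1 1 = 1 := rfl
  have z1' : z12 1 2 = 1 := rfl
  have z13 : z12 1 3 = 1 := rfl
  have z14 : z12 1 4 = 0 := rfl
  have z20 : z12 2 0 = 1 := rfl
  have z21 : z12 2 1 = 1 := rfl
  have z22 : z12 2 2 = 1 := rfl
  have z23 : z12 2 3 = 0 := rfl
  have z24 : z12 2 4 = 1 := rfl
  -- the equations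
  have F1 : ∀ a ∈ SA, a ≠ a0 → c1 T (scl b0 0 1 v) dw a - l 0 * du a +
      (c1 T (scl b0 0 1 dv) w a - dl 0 * u a) = 0 := by
    intro a ha1 ha2
    have := E1 a
    simpa [lb1, ha1, ha2, z10, z11, z20, z21, hc11] using this
  have F1' : ∀ a ∉ SA, du a = 0 := by
    intro a ha1
    have ha2 : a ≠ a0 := fun h => ha1 (h ▸ ha)
    have := E1 a
    simpa [lb1, ha1, ha2] using this
  have F10 : c1 T (scl b0 0 1 v) dw a0 + (s : ℂ) * (v b0 * dw c0) +
      (c1 T (scl b0 0 1 dv) w a0 + (s : ℂ) * (dv b0 * w c0)) = 0 := by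
    have := E1 a0
    simpa [lb1, z10, z11, z20, z21, z02, z03, z04, hc11] using this
  have F2 : ∀ b ∈ SB, b ≠ b0 → c2 T (scl a0 0 1 u) dw b - l 1 * dv b +
      (c2 T (scl a0 0 1 du) w b - dl 1 * v b) = 0 := by
    intro b hb1 hb2
    have := E2 b
    simpa [lb2, hb1, hb2, z00, z01, z20, z21, hc11] using this
  have F2' : ∀ b ∉ SB, dv b = 0 := by
    intro b hb1
    have hb2 : b ≠ b0 := fun h => hb1 (h ▸ hb)
    have := E2 b
    simpa [lb2, hb1, hb2] using this
  have F20 : c2 T (scl a0 0 1 u) dw b0 + (s : ℂ) * (u a0 * dw c0) +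
      (c2 T (scl a0 0 1 du) w b0 + (s : ℂ) * (du a0 * w c0)) = 0 := by
    have := E2 b0
    simpa [lb2, z00, z01, z20, z21, z1', z13, z14, hc11] using this
  have F3 : ∀ c ∈ SC, c3 T (scl a0 0 1 u) (scl b0 0 1 dv) c - l 2 * dw c +
      (c3 T (scl a0 0 1 du) (scl b0 0 1 v) c - dl 2 * w c) = 0 := by
    intro c hc1
    have := E3 c
    by_cases hc2 : c = c0
    · subst hc2
      simpa [lb3, z00, z01, z10, z11, z22, z23, z24] using this
    · simpa [lb3, hc1, hc2, z00, z01, z10, z11] using this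
  have F3' : ∀ c ∉ SC, dw c = 0 := by
    intro c hc1
    have hc2 : c ≠ c0 := fun h => hc1 (h ▸ hc)
    have := E3 c
    simpa [lb3, hc1, hc2] using this
  -- the vectors are in the kernel
  have scA : ∀ (x : A → ℂ) (a : A), a ≠ a0 → scl a0 0 1 x a = x a := by
    intro x a h
    simp [scl, h]
  have scA0 : ∀ x : A → ℂ, scl a0 0 1 x a0 = 0 := by
    intro x
    simp [scl]
  have scB : ∀ (x : B → ℂ) (b : B), b ≠ b0 → scl b0 0 1 x b = x b := by
    intro x b h
    simp [scl, h]
  have scB0 : ∀ x : B → ℂ, scl b0 0 1 x b0 = 0 := by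
    intro x
    simp [scl]
  have hker : Ker T (SA.erase a0) (SB.erase b0) SC (scl a0 0 1 u) (scl b0 0 1 v) w
      (l 0) (l 1) (l 2) (scl a0 0 1 du) (scl b0 0 1 dv) dw (dl 0) (dl 1) (dl 2) := by
    refine ⟨?_, ?_, F3', ?_, ?_, ?_⟩
    · intro a ha1
      by_cases h : a = a0
      · rw [h, scA0]
      · rw [scA du a h]
        exact F1' a fun h2 => ha1 (Finset.mem_erase.2 ⟨h, h2⟩)
    · intro b hb1
      by_cases h : b = b0
      · rw [h, scB0]
      · rw [scB dv b h]
        exact F2' b fun h2 => hb1 (Finset.mem_erase.2 ⟨h, h2⟩)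
    · intro a ha1
      rw [Finset.mem_erase] at ha1
      have := F1 a ha1.2 ha1.1
      rw [scA du a ha1.1, scA u a ha1.1]
      linear_combination this
    · intro b hb1
      rw [Finset.mem_erase] at hb1
      have := F2 b hb1.2 hb1.1
      rw [scB dv b hb1.1, scB v b hb1.1]
      linear_combination this
    · intro c hc1
      have := F3 c hc1
      linear_combination this
  obtain ⟨⟨r1, h1⟩, ⟨r2, h2⟩, ⟨r3, h3⟩⟩ := nd _ _ _ _ _ _ hker
  have g1 : scl a0 0 1 du = 0 := by
    have h := congrFun h1 ia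
    rw [Pi.smul_apply, scA du ia hia, scA u ia hia, hdu0, hu, smul_eq_mul, mul_one] at h
    rw [h1, ← h, zero_smul]
  have g2 : scl b0 0 1 dv = 0 := by
    have h := congrFun h2 ib
    rw [Pi.smul_apply, scB dv ib hib, scB v ib hib, hdv0, hv, smul_eq_mul, mul_one] at h
    rw [h2, ← h, zero_smul]
  have g3 : dw = 0 := by
    have h := congrFun h3 ic
    rw [Pi.smul_apply, hdw0, hw, smul_eq_mul, mul_one] at h
    rw [h3, ← h, zero_smul]
  have hsC : (s : ℂ) ≠ 0 := by exact_mod_cast hs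
  have k1 : dv b0 = 0 := by
    have := F10
    rw [g3, g2, c1_zero_right, c1_zero_left] at this
    simpa [hsC, hw0] using this
  have k2 : du a0 = 0 := by
    have := F20
    rw [g3, g1, c2_zero_right, c2_zero_left] at this
    simpa [hsC, hw0] using this
  have m1 : du = 0 := by
    funext a
    by_cases h : a = a0
    · rw [h, k2]
      rfl
    · rw [← scA du a h, g1]
  have m2 : dv = 0 := by
    funext b
    by_cases h : b = b0
    · rw [h, k1]
      rfl
    · rw [← scB dv b h, g2]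
  have n0 : dl 0 = 0 := by
    have hmem : ia ∈ SA := by
      by_contra h
      have := ht.su ia fun h2 => h (Finset.mem_of_mem_erase h2)
      rw [scA u ia hia, hu] at this
      exact one_ne_zero this
    have := F1 ia hmem hia
    rw [g3, g2, c1_zero_right, c1_zero_left, hdu0, hu] at this
    simpa using this
  have n1 : dl 1 = 0 := by
    have hmem : ib ∈ SB := by
      by_contra h
      have := ht.sv ib fun h2 => h (Finset.mem_of_mem_erase h2)
      rw [scB v ib hib, hv] at this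
      exact one_ne_zero this
    have := F2 ib hmem hib
    rw [g3, g1, c2_zero_right, c2_zero_left, hdv0, hv] at this
    simpa using this
  have n2 : dl 2 = 0 := by
    have hmem : ic ∈ SC := by
      by_contra h
      have := ht.sw ic h
      rw [hw] at this
      exact one_ne_zero this
    have := F3 ic hmem
    rw [g2, g1, c3_zero_right, c3_zero_left, hdw0, hw] at this
    simpa using this
  have n : dl = 0 := by
    funext i
    fin_cases i
    · exact n0
    · exact n1
    · exact n2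
  rw [m1, m2, g3, n]
  rfl

end

end Pool.Agent.MPb0eR
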