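import Mathlib
import Pool.Agent.Lib.MP_b0e20b_ag_R.Alg2

/-!
# MP_b0e20b_ag, project R: properties of the local system
-/

set_option autoImplicit false

open scoped BigOperators Topology
open Filter

namespace Pool.Agent.MPb0eR

section

variable {A B C : Type} [Fintype A] [Fintype B] [Fintype C] [DecidableEq A] [DecidableEq B]
  [DecidableEq C] (T : A → B → C → ℝ) (a0 : A) (b0 : B) (c0 : C) (s : ℝ) (SA : Finset A)
  (SB : Finset B) (SC : Finset C) (ia : A) (ib : B) (ic : C)

/-! ### Auxiliary lemmas -/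

private theorem scl_add (b0 : B) (e f : ℝ) (u v : B → ℂ) :
    scl b0 e f (u + v) = scl b0 e f u + scl b0 e f v := by
  funext b
  simp only [scl, Pi.add_apply, mul_add]

private theorem scl_smul (b0 : B) (e f r : ℝ) (u : B → ℂ) :
    scl b0 e f (r • u) = (r : ℂ) • scl b0 e f u := by
  funext b
  simp only [scl, Pi.smul_apply, smul_eq_mul, Complex.real_smul]
  ring

private theorem scl_cj (b0 : B) (e f : ℝ) (u : B → ℂ) :
    scl b0 e f (cj u) = cj (scl b0 e f u) := by
  funext b
  simp only [scl, cj, map_mul, Complex.conj_ofReal]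

private theorem scl_cont {X : Type} [TopologicalSpace X] (b0 : B) {e f : X → ℝ} {u : X → B → ℂ}
    (he : Continuous e) (hf : Continuous f) (hu : Continuous u) :
    Continuous fun x => scl b0 (e x) (f x) (u x) := by
  refine continuous_pi fun b => ?_
  have hb : Continuous fun x => u x b := (continuous_apply b).comp hu
  by_cases h : b = b0
  · simp only [scl, h, if_true]
    rw [h] at hb
    exact (Complex.continuous_ofReal.comp he).mul hb
  · simp only [scl, h, if_false]
    exact (Complex.continuous_ofReal.comp hf).mul hb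

private theorem lb1_add_left (z : Fin 3 → Fin 5 → ℝ) (p p' r : Pt A B C) :
    lb1 T a0 b0 c0 s SA z (p + p') r
      = lb1 T a0 b0 c0 s SA z p r + lb1 T a0 b0 c0 s SA z p' r := by
  funext a
  simp only [lb1, Pi.add_apply, Prod.fst_add, Prod.snd_add, scl_add, c1_add_left]
  split_ifs <;> ring

private theorem lb1_add_right (z : Fin 3 → Fin 5 → ℝ) (p r r' : Pt A B C) :
    lb1 T a0 b0 c0 s SA z p (r + r')
      = lb1 T a0 b0 c0 s SA z p r + lb1 T a0 b0 c0 s SA z p r' := by
  funext a
  simp only [lb1, Pi.add_apply, Prod.fst_add, Prod.snd_add, scl_add, c1_add_right]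
  split_ifs <;> ring

private theorem lb1_smul_left (z : Fin 3 → Fin 5 → ℝ) (t : ℝ) (p r : Pt A B C) :
    lb1 T a0 b0 c0 s SA z (t • p) r = t • lb1 T a0 b0 c0 s SA z p r := by
  funext a
  simp only [lb1, Pi.smul_apply, Prod.smul_fst, Prod.smul_snd, scl_smul, c1_smul_left,
    Complex.real_smul]
  split_ifs <;> ring

private theorem lb1_smul_right (z : Fin 3 → Fin 5 → ℝ) (t : ℝ) (p r : Pt A B C) :
    lb1 T a0 b0 c0 s SA z p (t • r) = t • lb1 T a0 b0 c0 s SA z p r := by
  funext a
  simp only [lb1, Pi.smul_apply, Prod.smul_fst, Prod.smul_snd, scl_smul, c1_smul_right,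
    Complex.real_smul]
  split_ifs <;> ring

private theorem lb2_add_left (z : Fin 3 → Fin 5 → ℝ) (p p' r : Pt A B C) :
    lb2 T a0 b0 c0 s SB z (p + p') r
      = lb2 T a0 b0 c0 s SB z p r + lb2 T a0 b0 c0 s SB z p' r := by
  funext a
  simp only [lb2, Pi.add_apply, Prod.fst_add, Prod.snd_add, scl_add, c2_add_left]
  split_ifs <;> ring

private theorem lb2_add_right (z : Fin 3 → Fin 5 → ℝ) (p r r' : Pt A B C) :
    lb2 T a0 b0 c0 s SB z p (r + r')
      = lb2 T a0 b0 c0 s SB z p r + lb2 T a0 b0 c0 s SB z p r' := by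
  funext a
  simp only [lb2, Pi.add_apply, Prod.fst_add, Prod.snd_add, scl_add, c2_add_right]
  split_ifs <;> ring

private theorem lb2_smul_left (z : Fin 3 → Fin 5 → ℝ) (t : ℝ) (p r : Pt A B C) :
    lb2 T a0 b0 c0 s SB z (t • p) r = t • lb2 T a0 b0 c0 s SB z p r := by
  funext a
  simp only [lb2, Pi.smul_apply, Prod.smul_fst, Prod.smul_snd, scl_smul, c2_smul_left,
    Complex.real_smul]
  split_ifs <;> ring

private theorem lb2_smul_right (z : Fin 3 → Fin 5 → ℝ) (t : ℝ) (p r : Pt A B C) :
    lb2 T a0 b0 c0 s SB z p (t • r) = t • lb2 T a0 b0 c0 s SB z p r := by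
  funext a
  simp only [lb2, Pi.smul_apply, Prod.smul_fst, Prod.smul_snd, scl_smul, c2_smul_right,
    Complex.real_smul]
  split_ifs <;> ring

private theorem lb3_add_left (z : Fin 3 → Fin 5 → ℝ) (p p' r : Pt A B C) :
    lb3 T a0 b0 c0 s SC z (p + p') r
      = lb3 T a0 b0 c0 s SC z p r + lb3 T a0 b0 c0 s SC z p' r := by
  funext a
  simp only [lb3, Pi.add_apply, Prod.fst_add, Prod.snd_add, scl_add, c3_add_left]
  split_ifs <;> ring

private theorem lb3_add_right (z : Fin 3 → Fin 5 → ℝ) (p r r' : Pt A B C) :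
    lb3 T a0 b0 c0 s SC z p (r + r')
      = lb3 T a0 b0 c0 s SC z p r + lb3 T a0 b0 c0 s SC z p r' := by
  funext a
  simp only [lb3, Pi.add_apply, Prod.fst_add, Prod.snd_add, scl_add, c3_add_right]
  split_ifs <;> ring

private theorem lb3_smul_left (z : Fin 3 → Fin 5 → ℝ) (t : ℝ) (p r : Pt A B C) :
    lb3 T a0 b0 c0 s SC z (t • p) r = t • lb3 T a0 b0 c0 s SC z p r := by
  funext a
  simp only [lb3, Pi.smul_apply, Prod.smul_fst, Prod.smul_snd, scl_smul, c3_smul_left,
    Complex.real_smul]
  split_ifs <;> ring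

private theorem lb3_smul_right (z : Fin 3 → Fin 5 → ℝ) (t : ℝ) (p r : Pt A B C) :
    lb3 T a0 b0 c0 s SC z p (t • r) = t • lb3 T a0 b0 c0 s SC z p r := by
  funext a
  simp only [lb3, Pi.smul_apply, Prod.smul_fst, Prod.smul_snd, scl_smul, c3_smul_right,
    Complex.real_smul]
  split_ifs <;> ring

private theorem bil_mid {V W : Type} [AddCommGroup V] [Module ℝ V] [AddCommGroup W]
    [Module ℝ W] (b : V → V → W) (hal : ∀ x y z, b (x + y) z = b x z + b y z)
    (har : ∀ x y z, b x (y + z) = b x y + b x z) (hsl : ∀ (r : ℝ) x y, b (r • x) y = r • b x y)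
    (hsr : ∀ (r : ℝ) x y, b x (r • y) = r • b x y) (p p' : V) :
    b p p - b p' p'
      = b ((1 / 2 : ℝ) • (p + p')) (p - p') + b (p - p') ((1 / 2 : ℝ) • (p + p')) := by
  have e : p - p' = p + (-1 : ℝ) • p' := by rw [neg_one_smul, sub_eq_add_neg]
  rw [e]
  simp only [hal, har, hsl, hsr]
  module

private theorem ll_add (p p' : Pt A B C) :
    ll a0 b0 c0 SA SB SC ia ib ic (p + p')
      = ll a0 b0 c0 SA SB SC ia ib ic p + ll a0 b0 c0 SA SB SC ia ib ic p' := by
  refine Prod.ext ?_ (Prod.ext ?_ (Prod.ext ?_ ?_))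
  · funext a
    simp only [ll, Pi.add_apply, Prod.fst_add]
    split_ifs
    · rw [add_zero]
    · rfl
  · funext a
    simp only [ll, Pi.add_apply, Prod.fst_add, Prod.snd_add]
    split_ifs
    · rw [add_zero]
    · rfl
  · funext a
    simp only [ll, Pi.add_apply, Prod.fst_add, Prod.snd_add]
    split_ifs
    · rw [add_zero]
    · rfl
  · funext i
    fin_cases i <;> simp [ll]

private theorem ll_smul (t : ℝ) (p : Pt A B C) :
    ll a0 b0 c0 SA SB SC ia ib ic (t • p) = t • ll a0 b0 c0 SA SB SC ia ib ic p := by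
  refine Prod.ext ?_ (Prod.ext ?_ (Prod.ext ?_ ?_))
  · funext a
    simp only [ll, Pi.smul_apply, Prod.smul_fst, Prod.smul_snd]
    split_ifs
    · rw [smul_zero]
    · rfl
  · funext a
    simp only [ll, Pi.smul_apply, Prod.smul_fst, Prod.smul_snd]
    split_ifs
    · rw [smul_zero]
    · rfl
  · funext a
    simp only [ll, Pi.smul_apply, Prod.smul_fst, Prod.smul_snd]
    split_ifs
    · rw [smul_zero]
    · rfl
  · funext i
    fin_cases i <;> simp [ll]

private theorem ll_sub (p p' : Pt A B C) :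
    ll a0 b0 c0 SA SB SC ia ib ic (p - p')
      = ll a0 b0 c0 SA SB SC ia ib ic p - ll a0 b0 c0 SA SB SC ia ib ic p' := by
  have e : p - p' = p + (-1 : ℝ) • p' := by rw [neg_one_smul, sub_eq_add_neg]
  rw [e, ll_add, ll_smul, neg_one_smul, ← sub_eq_add_neg]

private theorem lb1_cj (z : Fin 3 → Fin 5 → ℝ) (p r : Pt A B C) :
    lb1 T a0 b0 c0 s SA z (cjP p) (cjP r) = cj (lb1 T a0 b0 c0 s SA z p r) := by
  funext a
  simp only [lb1, cjP, scl_cj, c1_cj]
  show _ = starRingEnd ℂ (ite _ _ _)
  split_ifs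
  · simp only [map_sub, map_add, map_mul, Complex.conj_ofReal, cj]
  · simp only [map_sub, map_mul, cj]
  · rw [map_zero]

private theorem lb2_cj (z : Fin 3 → Fin 5 → ℝ) (p r : Pt A B C) :
    lb2 T a0 b0 c0 s SB z (cjP p) (cjP r) = cj (lb2 T a0 b0 c0 s SB z p r) := by
  funext a
  simp only [lb2, cjP, scl_cj, c2_cj]
  show _ = starRingEnd ℂ (ite _ _ _)
  split_ifs
  · simp only [map_sub, map_add, map_mul, Complex.conj_ofReal, cj]
  · simp only [map_sub, map_mul, cj]
  · rw [map_zero]

private theorem lb3_cj (z : Fin 3 → Fin 5 → ℝ) (p r : Pt A B C) :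
    lb3 T a0 b0 c0 s SC z (cjP p) (cjP r) = cj (lb3 T a0 b0 c0 s SC z p r) := by
  funext a
  simp only [lb3, cjP, scl_cj, c3_cj]
  show _ = starRingEnd ℂ (ite _ _ _)
  split_ifs
  · simp only [map_sub, map_add, map_mul, Complex.conj_ofReal, cj]
  · simp only [map_sub, map_mul, cj]
  · rw [map_zero]

private theorem ll_cj (p : Pt A B C) :
    ll a0 b0 c0 SA SB SC ia ib ic (cjP p) = cjP (ll a0 b0 c0 SA SB SC ia ib ic p) := by
  refine Prod.ext ?_ (Prod.ext ?_ (Prod.ext ?_ ?_))
  · funext a
    simp only [ll, cjP]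
    show _ = starRingEnd ℂ (ite _ _ _)
    split_ifs
    · rw [map_zero]
    · rfl
  · funext a
    simp only [ll, cjP]
    show _ = starRingEnd ℂ (ite _ _ _)
    split_ifs
    · rw [map_zero]
    · rfl
  · funext a
    simp only [ll, cjP]
    show _ = starRingEnd ℂ (ite _ _ _)
    split_ifs
    · rw [map_zero]
    · rfl
  · funext i
    fin_cases i <;> simp [ll, cjP, cj]

private theorem lb1_cont :
    Continuous fun x : (Fin 3 → Fin 5 → ℝ) × Pt A B C × Pt A B C =>
      lb1 T a0 b0 c0 s SA x.1 x.2.1 x.2.2 := by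
  have hz : ∀ i j, Continuous fun x : (Fin 3 → Fin 5 → ℝ) × Pt A B C × Pt A B C => x.1 i j := by
    intro i j
    fun_prop
  have hp : Continuous fun x : (Fin 3 → Fin 5 → ℝ) × Pt A B C × Pt A B C => x.2.1.2.1 := by
    fun_prop
  have hr : Continuous fun x : (Fin 3 → Fin 5 → ℝ) × Pt A B C × Pt A B C => x.2.2.2.2.1 := by
    fun_prop
  have hc := (continuous_c1 T).comp ((scl_cont b0 (hz 1 0) (hz 1 1) hp).prodMk
    (scl_cont c0 (hz 2 0) (hz 2 1) hr))
  simp only [Function.comp_def] at hc
  refine continuous_pi fun a => ?_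
  simp only [lb1]
  split_ifs
  · have h1 := (continuous_apply a0).comp hc
    have h2 := Complex.continuous_ofReal.comp (hz 0 2)
    have h3 := Complex.continuous_ofReal.comp (hz 0 3)
    have h4 := Complex.continuous_ofReal.comp (hz 0 4)
    simp only [Function.comp_def] at h1 h2 h3 h4
    exact ((h2.mul h1).add ((continuous_const.mul h3).mul (by fun_prop))).sub
      (h4.mul (by fun_prop))
  · have h1 := (continuous_apply a).comp hc
    simp only [Function.comp_def] at h1
    exact h1.sub (by fun_prop)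
  · exact continuous_const

private theorem lb2_cont :
    Continuous fun x : (Fin 3 → Fin 5 → ℝ) × Pt A B C × Pt A B C =>
      lb2 T a0 b0 c0 s SB x.1 x.2.1 x.2.2 := by
  have hz : ∀ i j, Continuous fun x : (Fin 3 → Fin 5 → ℝ) × Pt A B C × Pt A B C => x.1 i j := by
    intro i j
    fun_prop
  have hp : Continuous fun x : (Fin 3 → Fin 5 → ℝ) × Pt A B C × Pt A B C => x.2.1.1 := by
    fun_prop
  have hr : Continuous fun x : (Fin 3 → Fin 5 → ℝ) × Pt A B C × Pt A B C => x.2.2.2.2.1 := by
    fun_prop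
  have hc := (continuous_c2 T).comp ((scl_cont a0 (hz 0 0) (hz 0 1) hp).prodMk
    (scl_cont c0 (hz 2 0) (hz 2 1) hr))
  simp only [Function.comp_def] at hc
  refine continuous_pi fun a => ?_
  simp only [lb2]
  split_ifs
  · have h1 := (continuous_apply b0).comp hc
    have h2 := Complex.continuous_ofReal.comp (hz 1 2)
    have h3 := Complex.continuous_ofReal.comp (hz 1 3)
    have h4 := Complex.continuous_ofReal.comp (hz 1 4)
    simp only [Function.comp_def] at h1 h2 h3 h4
    exact ((h2.mul h1).add ((continuous_const.mul h3).mul (by fun_prop))).sub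
      (h4.mul (by fun_prop))
  · have h1 := (continuous_apply a).comp hc
    simp only [Function.comp_def] at h1
    exact h1.sub (by fun_prop)
  · exact continuous_const

private theorem lb3_cont :
    Continuous fun x : (Fin 3 → Fin 5 → ℝ) × Pt A B C × Pt A B C =>
      lb3 T a0 b0 c0 s SC x.1 x.2.1 x.2.2 := by
  have hz : ∀ i j, Continuous fun x : (Fin 3 → Fin 5 → ℝ) × Pt A B C × Pt A B C => x.1 i j := by
    intro i j
    fun_prop
  have hp : Continuous fun x : (Fin 3 → Fin 5 → ℝ) × Pt A B C × Pt A B C => x.2.1.1 := by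
    fun_prop
  have hr : Continuous fun x : (Fin 3 → Fin 5 → ℝ) × Pt A B C × Pt A B C => x.2.2.2.1 := by
    fun_prop
  have hc := (continuous_c3 T).comp ((scl_cont a0 (hz 0 0) (hz 0 1) hp).prodMk
    (scl_cont b0 (hz 1 0) (hz 1 1) hr))
  simp only [Function.comp_def] at hc
  refine continuous_pi fun a => ?_
  simp only [lb3]
  split_ifs
  · have h1 := (continuous_apply c0).comp hc
    have h2 := Complex.continuous_ofReal.comp (hz 2 2)
    have h3 := Complex.continuous_ofReal.comp (hz 2 3)
    have h4 := Complex.continuous_ofReal.comp (hz 2 4)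
    simp only [Function.comp_def] at h1 h2 h3 h4
    exact ((h2.mul h1).add ((continuous_const.mul h3).mul (by fun_prop))).sub
      (h4.mul (by fun_prop))
  · have h1 := (continuous_apply a).comp hc
    simp only [Function.comp_def] at h1
    exact h1.sub (by fun_prop)
  · exact continuous_const

private theorem ll_cont :
    Continuous fun p : Pt A B C => ll a0 b0 c0 SA SB SC ia ib ic p := by
  refine Continuous.prodMk ?_ (Continuous.prodMk ?_ (Continuous.prodMk ?_ ?_))
  · refine continuous_pi fun a => ?_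
    split_ifs
    · exact continuous_const
    · fun_prop
  · refine continuous_pi fun a => ?_
    split_ifs
    · exact continuous_const
    · fun_prop
  · refine continuous_pi fun a => ?_
    split_ifs
    · exact continuous_const
    · fun_prop
  · refine continuous_pi fun i => ?_
    fin_cases i
    · show Continuous fun p : Pt A B C => p.1 ia
      fun_prop
    · show Continuous fun p : Pt A B C => p.2.1 ib
      fun_prop
    · show Continuous fun p : Pt A B C => p.2.2.1 ic
      fun_prop

/-- Joint continuity of the derivative in the parameters, the point and the direction. -/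
theorem dloc_continuous :
    Continuous fun x : (Fin 3 → Fin 5 → ℝ) × Pt A B C × Pt A B C =>
      dloc T a0 b0 c0 s SA SB SC ia ib ic x.1 x.2.1 x.2.2 := by
  have hs : Continuous fun x : (Fin 3 → Fin 5 → ℝ) × Pt A B C × Pt A B C =>
      (x.1, x.2.2, x.2.1) := by fun_prop
  have h1 := (lb1_cont T a0 b0 c0 s SA).add ((lb1_cont T a0 b0 c0 s SA).comp hs)
  have h2 := (lb2_cont T a0 b0 c0 s SB).add ((lb2_cont T a0 b0 c0 s SB).comp hs)
  have h3 := (lb3_cont T a0 b0 c0 s SC).add ((lb3_cont T a0 b0 c0 s SC).comp hs)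
  have h4 : Continuous fun x : (Fin 3 → Fin 5 → ℝ) × Pt A B C × Pt A B C =>
      ll a0 b0 c0 SA SB SC ia ib ic x.2.2 :=
    (ll_cont a0 b0 c0 SA SB SC ia ib ic).comp (by fun_prop)
  exact (h1.prodMk (h2.prodMk (h3.prodMk continuous_const))).add h4

/-- The derivative is homogeneous in the direction. -/
theorem dloc_smul (z : Fin 3 → Fin 5 → ℝ) (p h : Pt A B C) (r : ℝ) :
    dloc T a0 b0 c0 s SA SB SC ia ib ic z p (r • h)
      = r • dloc T a0 b0 c0 s SA SB SC ia ib ic z p h := by
  simp only [dloc, lb1_smul_left, lb1_smul_right, lb2_smul_left, lb2_smul_right, lb3_smul_left,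
    lb3_smul_right, ll_smul, smul_add, Prod.smul_mk, smul_zero]

/-- The difference of two values is the derivative at the midpoint, because the local system is
quadratic (`b (p, p) - b (p', p') = b (m, p - p') + b (p - p', m)` for `m = (p + p') / 2` and
bilinear `b`). -/
theorem loc_sub (z : Fin 3 → Fin 5 → ℝ) (p p' : Pt A B C) :
    loc T a0 b0 c0 s SA SB SC ia ib ic z p - loc T a0 b0 c0 s SA SB SC ia ib ic z p'
      = dloc T a0 b0 c0 s SA SB SC ia ib ic z ((1 / 2 : ℝ) • (p + p')) (p - p') := by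
  have h1 := bil_mid (fun x y => lb1 T a0 b0 c0 s SA z x y)
    (fun x y w => lb1_add_left T a0 b0 c0 s SA z x y w)
    (fun x y w => lb1_add_right T a0 b0 c0 s SA z x y w)
    (fun r x y => lb1_smul_left T a0 b0 c0 s SA z r x y)
    (fun r x y => lb1_smul_right T a0 b0 c0 s SA z r x y) p p'
  have h2 := bil_mid (fun x y => lb2 T a0 b0 c0 s SB z x y)
    (fun x y w => lb2_add_left T a0 b0 c0 s SB z x y w)
    (fun x y w => lb2_add_right T a0 b0 c0 s SB z x y w)
    (fun r x y => lb2_smul_left T a0 b0 c0 s SB z r x y)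
    (fun r x y => lb2_smul_right T a0 b0 c0 s SB z r x y) p p'
  have h3 := bil_mid (fun x y => lb3 T a0 b0 c0 s SC z x y)
    (fun x y w => lb3_add_left T a0 b0 c0 s SC z x y w)
    (fun x y w => lb3_add_right T a0 b0 c0 s SC z x y w)
    (fun r x y => lb3_smul_left T a0 b0 c0 s SC z r x y)
    (fun r x y => lb3_smul_right T a0 b0 c0 s SC z r x y) p p'
  simp only [loc, dloc]
  rw [← h1, ← h2, ← h3, ll_sub, add_sub_add_comm]
  congr 1
  refine Prod.ext rfl (Prod.ext rfl (Prod.ext rfl ?_))
  exact sub_self _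

/-- The local system is real. -/
theorem loc_cj (z : Fin 3 → Fin 5 → ℝ) (p : Pt A B C) :
    loc T a0 b0 c0 s SA SB SC ia ib ic z (cjP p)
      = cjP (loc T a0 b0 c0 s SA SB SC ia ib ic z p) := by
  have e : ∀ x y : Pt A B C, cjP (x + y) = cjP x + cjP y := by
    intro x y
    refine Prod.ext ?_ (Prod.ext ?_ (Prod.ext ?_ ?_)) <;> funext i <;>
      exact map_add (starRingEnd ℂ) _ _
  simp only [loc]
  rw [e, ll_cj, lb1_cj, lb2_cj, lb3_cj]
  congr 1
  refine Prod.ext rfl (Prod.ext rfl (Prod.ext rfl ?_))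
  funext i
  show (-1 : ℂ) = starRingEnd ℂ (-1)
  rw [map_neg, map_one]

theorem reP_iff (p : Pt A B C) : ReP p ↔ cjP p = p := by
  simp only [ReP, cjP, rea_iff, Prod.ext_iff]

theorem cjP_continuous : Continuous (cjP : Pt A B C → Pt A B C) := by
  have h : ∀ {D : Type}, Continuous (cj : (D → ℂ) → D → ℂ) := fun {D} =>
    continuous_pi fun d => Complex.continuous_conj.comp (continuous_apply d)
  exact (h.comp (by fun_prop)).prodMk ((h.comp (by fun_prop)).prodMk
    ((h.comp (by fun_prop)).prodMk (h.comp (by fun_prop))))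

end

end Pool.Agent.MPb0eR
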