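import Mathlib
import Pool.Agent.Lib.MP_b0e20b_ag_R.Rig
import Pool.Agent.Lib.MP_b0e20b_ag_R.DDs
import Pool.Agent.Lib.MP_b0e20b_ag_R.Cpt

/-!
# MP_b0e20b_ag, project R: rigidity of the local system
-/

set_option autoImplicit false

open scoped BigOperators Topology
open Filter

namespace Pool.Agent.MPb0eR

section

variable {A B C : Type} [Fintype A] [Fintype B] [Fintype C] [DecidableEq A] [DecidableEq B]
  [DecidableEq C] (T : A → B → C → ℝ) (a0 : A) (b0 : B) (c0 : C) (s : ℝ) (SA : Finset A)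
  (SB : Finset B) (SC : Finset C) (ia : A) (ib : B) (ic : C)

/-- Solutions of the local system which converge to a real nondegenerate solution are eventually real
and nondegenerate.

Proof. `rigid` for `dloc` (`dloc_continuous`, `dloc_smul`) at `(z0, p0)`: for all `(z, m)` near
`(z0, p0)` the kernel of `dloc z m` is trivial. Now `p n → p0` and `cjP (p n) → cjP p0 = p0`, so for
most `n` this holds for `(z n, p n)` (second claim) and for `(z n, m)`, where
`m = (p n + cjP (p n)) / 2`. As `loc (z n) (cjP (p n)) = cjP 0 = 0` (`loc_cj`), `loc_sub` gives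
`dloc (z n) m (p n - cjP (p n)) = 0`, so `p n = cjP (p n)` (`reP_iff`). -/
theorem loc_fin (z : ℕ → Fin 3 → Fin 5 → ℝ) (z0 : Fin 3 → Fin 5 → ℝ) (p : ℕ → Pt A B C)
    (p0 : Pt A B C) (hz : Tendsto z uf (𝓝 z0)) (hp : Tendsto p uf (𝓝 p0))
    (hs : ∀ᶠ n in uf, loc T a0 b0 c0 s SA SB SC ia ib ic (z n) (p n) = 0) (hr : ReP p0)
    (hk : ∀ h, dloc T a0 b0 c0 s SA SB SC ia ib ic z0 p0 h = 0 → h = 0) :
    ∀ᶠ n in uf, ReP (p n) ∧
      ∀ h, dloc T a0 b0 c0 s SA SB SC ia ib ic (z n) (p n) h = 0 → h = 0 := by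
  have hrig := rigid (fun z m h => dloc T a0 b0 c0 s SA SB SC ia ib ic z m h)
    (dloc_continuous T a0 b0 c0 s SA SB SC ia ib ic)
    (fun z m r h => dloc_smul T a0 b0 c0 s SA SB SC ia ib ic z m h r) z0 p0 hk
  have hcp : cjP p0 = p0 := (reP_iff p0).1 hr
  have hcj : Tendsto (fun n => cjP (p n)) uf (𝓝 p0) := by
    have h1 := ((cjP_continuous (A := A) (B := B) (C := C)).tendsto p0).comp hp
    rw [hcp] at h1
    exact h1
  have hm : Tendsto (fun n => (1 / 2 : ℝ) • (p n + cjP (p n))) uf (𝓝 p0) := by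
    have h1 := (hp.add hcj).const_smul (1 / 2 : ℝ)
    have h2 : (1 / 2 : ℝ) • (p0 + p0) = p0 := by
      rw [← two_smul ℝ p0, smul_smul]
      norm_num
    rw [h2] at h1
    exact h1
  have e1 := (hz.prodMk_nhds hp).eventually hrig
  have e2 := (hz.prodMk_nhds hm).eventually hrig
  filter_upwards [hs, e1, e2] with n h0 h1 h2
  refine ⟨?_, h1⟩
  rw [reP_iff]
  have h3 : loc T a0 b0 c0 s SA SB SC ia ib ic (z n) (cjP (p n)) = 0 := by
    rw [loc_cj, h0]
    ext <;> simp [cjP, cj]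
  have h4 := loc_sub T a0 b0 c0 s SA SB SC ia ib ic (z n) (p n) (cjP (p n))
  rw [h0, h3, sub_zero] at h4
  exact (sub_eq_zero.1 (h2 _ h4.symm)).symm

end

end Pool.Agent.MPb0eR
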