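import Mathlib
import Pool.Agent.Lib.MP_b0e20b_ag_R.Alg2

/-!
# MP_b0e20b_ag, project R: singular tuples and the local system
-/

set_option autoImplicit false

open scoped BigOperators Topology
open Filter

namespace Pool.Agent.MPb0eR

section

variable {A B C : Type} [Fintype A] [Fintype B] [Fintype C] [DecidableEq A] [DecidableEq B]
  [DecidableEq C] {T : A → B → C → ℝ} {a0 : A} {b0 : B} {c0 : C} {s L : ℝ} {SA : Finset A}
  {SB : Finset B} {SC : Finset C} {ia : A} {ib : B} {ic : C} {z : Fin 3 → Fin 5 → ℝ}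
  {p : Pt A B C}

omit [Fintype A] in
private theorem trn_scl_eq (e f : ℝ) (u : A → ℂ) : scl a0 e f u a0 = (e : ℂ) * u a0 := by
  simp only [scl, if_true]

omit [Fintype A] in
private theorem trn_scl_ne (e f : ℝ) (u : A → ℂ) {a : A} (h : a ≠ a0) :
    scl a0 e f u a = (f : ℂ) * u a := by
  simp only [scl, if_neg h]

omit [Fintype A] in
private theorem trn_scl_inv {e f : ℝ} (he : e ≠ 0) (hf : f ≠ 0) (u : A → ℂ) :
    scl a0 e f (scl a0 e⁻¹ f⁻¹ u) = u := by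
  have he' : (e : ℂ) ≠ 0 := Complex.ofReal_ne_zero.2 he
  have hf' : (f : ℂ) ≠ 0 := Complex.ofReal_ne_zero.2 hf
  funext a
  by_cases h : a = a0
  · subst h
    rw [trn_scl_eq, trn_scl_eq, Complex.ofReal_inv, ← mul_assoc, mul_inv_cancel₀ he', one_mul]
  · rw [trn_scl_ne _ _ _ h, trn_scl_ne _ _ _ h, Complex.ofReal_inv, ← mul_assoc,
      mul_inv_cancel₀ hf', one_mul]

omit [Fintype A] in
private theorem trn_scl_ne_zero {e f : ℝ} (he : e ≠ 0) (hf : f ≠ 0) (u : A → ℂ) {a : A}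
    (h : u a ≠ 0) : scl a0 e f u a ≠ 0 := by
  by_cases h1 : a = a0
  · subst h1
    rw [trn_scl_eq]
    exact mul_ne_zero (Complex.ofReal_ne_zero.2 he) h
  · rw [trn_scl_ne _ _ _ h1]
    exact mul_ne_zero (Complex.ofReal_ne_zero.2 hf) h

omit [Fintype A] in
private theorem trn_scl_eq_zero {e f : ℝ} (he : e ≠ 0) (hf : f ≠ 0) {u : A → ℂ} {a : A}
    (h : scl a0 e f u a = 0) : u a = 0 := by
  by_contra h1
  exact trn_scl_ne_zero he hf u h1 h

omit [Fintype A] in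
private theorem trn_scl_zero {e f : ℝ} {u : A → ℂ} {a : A}
    (h : u a = 0) : scl a0 e f u a = 0 := by
  simp only [scl, h, mul_zero]

/-- The scalar identity at the corner. -/
private theorem trn_corner {X V W l u e f m k g s L x y : ℂ} (hf : f ≠ 0)
    (h : X + s * L * (x * V * (y * W)) = l / f * (e * u)) (hk : k = m * L * x * y)
    (hg : g * f = m * e) : m * X + s * k * (V * W) - g * (l * u) + 0 = 0 := by
  have h1 : m * X = m * (l / f * (e * u)) - m * (s * L * (x * V * (y * W))) := by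
    rw [← h]
    ring
  have h2 : m * (l / f * (e * u)) = g * (l * u) := by
    have h3 : m * (l / f * (e * u)) = (m * e) * (l * u) / f := by
      field_simp
    rw [h3, ← hg]
    field_simp
  rw [h1, h2, hk]
  ring

/-- The scalar identity at the corner, linearised. -/
private theorem trn_corner' {X X' V W V' W' l l' u u' e f m k g s L x y : ℂ} (hf : f ≠ 0)
    (h : X + s * L * (x * V' * (y * W)) + (X' + s * L * (x * V * (y * W'))) =
      l / f * (e * u') + l' * (e * u)) (hk : k = m * L * x * y) (hg : g * f = m * e) :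
    m * X' + s * k * (V * W') - g * (l * u') +
      (m * X + s * k * (V' * W) - g * (f * l' * u)) + 0 = 0 := by
  have h1 : m * X + m * X' = m * (l / f * (e * u')) + m * (l' * (e * u))
      - m * (s * L * (x * V' * (y * W))) - m * (s * L * (x * V * (y * W'))) := by
    linear_combination m * h
  have h2 : m * (l / f * (e * u')) = g * (l * u') := by
    have h3 : m * (l / f * (e * u')) = (m * e) * (l * u') / f := by
      field_simp
    rw [h3, ← hg]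
    field_simp
  have h4 : m * (l' * (e * u)) = g * (f * l' * u) := by
    linear_combination (-(l' * u)) * hg
  rw [h2, h4] at h1
  rw [hk]
  linear_combination h1

/-- A singular tuple of `ad T a0 b0 c0 (s * L)` gives a solution of the local system.

Proof. For `a ∈ SA`, `a ≠ a0` the equation `c1 T v w a = α * u a` (`c1_ad`) for the scaled vectors is
`c1 T .. a = (l 0 / f) * (f * p.1 a)`. For `a = a0`:
`c1 T .. a0 + s L e1 e2 (v b0 w c0) = (l 0 / f) * (e * u a0)`; multiply by `m = z 0 2` and use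
`k0 : z 0 3 = m L e1 e2` and `g : z 0 4 * f = m * e`. Outside of `SA`, `f * p.1 a = 0`, so
`p.1 a = 0`. The last components are `-1 + 1 = 0`. -/
theorem trn_loc (hz : Sc L z) (ha : a0 ∈ SA) (hb : b0 ∈ SB) (hc : c0 ∈ SC)
    (h : Tup (ad T a0 b0 c0 (s * L)) SA SB SC (scl a0 (z 0 0) (z 0 1) p.1)
      (scl b0 (z 1 0) (z 1 1) p.2.1) (scl c0 (z 2 0) (z 2 1) p.2.2.1) (p.2.2.2 0 / (z 0 1 : ℂ))
      (p.2.2.2 1 / (z 1 1 : ℂ)) (p.2.2.2 2 / (z 2 1 : ℂ)))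
    (hu : p.1 ia = 1) (hv : p.2.1 ib = 1) (hw : p.2.2.1 ic = 1) :
    loc T a0 b0 c0 s SA SB SC ia ib ic z p = 0 := by
  have h0 := h
  have hf0 : ((z 0 1 : ℝ) : ℂ) ≠ 0 := Complex.ofReal_ne_zero.2 (hz.f 0)
  have hf1 : ((z 1 1 : ℝ) : ℂ) ≠ 0 := Complex.ofReal_ne_zero.2 (hz.f 1)
  have hf2 : ((z 2 1 : ℝ) : ℂ) ≠ 0 := Complex.ofReal_ne_zero.2 (hz.f 2)
  have hk0 : ((z 0 3 : ℝ) : ℂ) = z 0 2 * L * z 1 0 * z 2 0 := by
    rw [hz.k0]
    push_cast
    ring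
  have hk1 : ((z 1 3 : ℝ) : ℂ) = z 1 2 * L * z 0 0 * z 2 0 := by
    rw [hz.k1]
    push_cast
    ring
  have hk2 : ((z 2 3 : ℝ) : ℂ) = z 2 2 * L * z 0 0 * z 1 0 := by
    rw [hz.k2]
    push_cast
    ring
  have hg : ∀ i, ((z i 4 : ℝ) : ℂ) * z i 1 = z i 2 * z i 0 := fun i => by
    rw [← Complex.ofReal_mul, hz.g i, Complex.ofReal_mul]
  have h1 : ∀ a, lb1 T a0 b0 c0 s SA z p p a + (if a = a0 ∨ a ∈ SA then 0 else p.1 a) = 0 := by
    intro a
    by_cases h : a = a0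
    · subst h
      have h2 := h0.e1 a ha
      rw [c1_ad, if_pos rfl, trn_scl_eq, trn_scl_eq, trn_scl_eq, Complex.ofReal_mul] at h2
      rw [lb1, if_pos rfl, if_pos (Or.inl rfl)]
      exact trn_corner hf0 h2 hk0 (hg 0)
    · by_cases h3 : a ∈ SA
      · have h2 := h0.e1 a h3
        rw [c1_ad, if_neg h, add_zero, trn_scl_ne _ _ _ h, ← mul_assoc,
          div_mul_cancel₀ _ hf0] at h2
        rw [lb1, if_neg h, if_pos h3, if_pos (Or.inr h3), h2, sub_self, add_zero]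
      · rw [lb1, if_neg h, if_neg h3, if_neg (not_or.2 ⟨h, h3⟩), zero_add]
        exact trn_scl_eq_zero (hz.e 0) (hz.f 0) (h0.su a h3)
  have h2 : ∀ b, lb2 T a0 b0 c0 s SB z p p b + (if b = b0 ∨ b ∈ SB then 0 else p.2.1 b) = 0 := by
    intro b
    by_cases h : b = b0
    · subst h
      have h2 := h0.e2 b hb
      rw [c2_ad, if_pos rfl, trn_scl_eq, trn_scl_eq, trn_scl_eq, Complex.ofReal_mul] at h2
      rw [lb2, if_pos rfl, if_pos (Or.inl rfl)]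
      exact trn_corner hf1 h2 hk1 (hg 1)
    · by_cases h3 : b ∈ SB
      · have h2 := h0.e2 b h3
        rw [c2_ad, if_neg h, add_zero, trn_scl_ne _ _ _ h, ← mul_assoc,
          div_mul_cancel₀ _ hf1] at h2
        rw [lb2, if_neg h, if_pos h3, if_pos (Or.inr h3), h2, sub_self, add_zero]
      · rw [lb2, if_neg h, if_neg h3, if_neg (not_or.2 ⟨h, h3⟩), zero_add]
        exact trn_scl_eq_zero (hz.e 1) (hz.f 1) (h0.sv b h3)
  have h3 : ∀ c, lb3 T a0 b0 c0 s SC z p p c +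
      (if c = c0 ∨ c ∈ SC then 0 else p.2.2.1 c) = 0 := by
    intro c
    by_cases h : c = c0
    · subst h
      have h2 := h0.e3 c hc
      rw [c3_ad, if_pos rfl, trn_scl_eq, trn_scl_eq, trn_scl_eq, Complex.ofReal_mul] at h2
      rw [lb3, if_pos rfl, if_pos (Or.inl rfl)]
      exact trn_corner hf2 h2 hk2 (hg 2)
    · by_cases h3 : c ∈ SC
      · have h2 := h0.e3 c h3
        rw [c3_ad, if_neg h, add_zero, trn_scl_ne _ _ _ h, ← mul_assoc,
          div_mul_cancel₀ _ hf2] at h2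
        rw [lb3, if_neg h, if_pos h3, if_pos (Or.inr h3), h2, sub_self, add_zero]
      · rw [lb3, if_neg h, if_neg h3, if_neg (not_or.2 ⟨h, h3⟩), zero_add]
        exact trn_scl_eq_zero (hz.e 2) (hz.f 2) (h0.sw c h3)
  have h4 : ∀ i : Fin 3, (-1 : ℂ) + (![p.1 ia, p.2.1 ib, p.2.2.1 ic] : Fin 3 → ℂ) i = 0 := by
    intro i
    fin_cases i
    · change -1 + p.1 ia = 0
      rw [hu]
      ring
    · change -1 + p.2.1 ib = 0
      rw [hv]
      ring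
    · change -1 + p.2.2.1 ic = 0
      rw [hw]
      ring
  exact Prod.ext (funext h1) (Prod.ext (funext h2) (Prod.ext (funext h3) (funext h4)))

/-- The kernel elements with vanishing normalised coordinates are trivial. -/
private theorem trn_ker (hz : Sc L z) (ha : a0 ∈ SA) (hb : b0 ∈ SB) (hc : c0 ∈ SC)
    (hk : ∀ h, dloc T a0 b0 c0 s SA SB SC ia ib ic z p h = 0 → h = 0)
    (hf0 : ((z 0 1 : ℝ) : ℂ) ≠ 0) (hf1 : ((z 1 1 : ℝ) : ℂ) ≠ 0) (hf2 : ((z 2 1 : ℝ) : ℂ) ≠ 0)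
    (hk0 : ((z 0 3 : ℝ) : ℂ) = z 0 2 * L * z 1 0 * z 2 0)
    (hk1 : ((z 1 3 : ℝ) : ℂ) = z 1 2 * L * z 0 0 * z 2 0)
    (hk2 : ((z 2 3 : ℝ) : ℂ) = z 2 2 * L * z 0 0 * z 1 0)
    (hg : ∀ i, ((z i 4 : ℝ) : ℂ) * z i 1 = z i 2 * z i 0)
    {du : A → ℂ} {dv : B → ℂ} {dw : C → ℂ} {dα dβ dγ : ℂ}
    (hker : Ker (ad T a0 b0 c0 (s * L)) SA SB SC (scl a0 (z 0 0) (z 0 1) p.1)
      (scl b0 (z 1 0) (z 1 1) p.2.1) (scl c0 (z 2 0) (z 2 1) p.2.2.1) (p.2.2.2 0 / (z 0 1 : ℂ))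
      (p.2.2.2 1 / (z 1 1 : ℂ)) (p.2.2.2 2 / (z 2 1 : ℂ)) du dv dw dα dβ dγ)
    (hui : du ia = 0) (hvi : dv ib = 0) (hwi : dw ic = 0) : du = 0 ∧ dv = 0 ∧ dw = 0 := by
  obtain ⟨hu, ehu⟩ : ∃ hu, hu = scl a0 (z 0 0)⁻¹ (z 0 1)⁻¹ du := ⟨_, rfl⟩
  obtain ⟨hv, ehv⟩ : ∃ hv, hv = scl b0 (z 1 0)⁻¹ (z 1 1)⁻¹ dv := ⟨_, rfl⟩
  obtain ⟨hw, ehw⟩ : ∃ hw, hw = scl c0 (z 2 0)⁻¹ (z 2 1)⁻¹ dw := ⟨_, rfl⟩
  have fu : scl a0 (z 0 0) (z 0 1) hu = du := by
    rw [ehu, trn_scl_inv (hz.e 0) (hz.f 0)]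
  have fv : scl b0 (z 1 0) (z 1 1) hv = dv := by
    rw [ehv, trn_scl_inv (hz.e 1) (hz.f 1)]
  have fw : scl c0 (z 2 0) (z 2 1) hw = dw := by
    rw [ehw, trn_scl_inv (hz.e 2) (hz.f 2)]
  have h1 : ∀ a, lb1 T a0 b0 c0 s SA z p (hu, hv, hw, ![z 0 1 * dα, z 1 1 * dβ, z 2 1 * dγ]) a
      + lb1 T a0 b0 c0 s SA z (hu, hv, hw, ![z 0 1 * dα, z 1 1 * dβ, z 2 1 * dγ]) p a
      + (if a = a0 ∨ a ∈ SA then 0 else hu a) = 0 := by
    intro a
    by_cases h : a = a0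
    · subst h
      have h2 := hker.e1 a ha
      rw [c1_ad, c1_ad, if_pos rfl, if_pos rfl, ← fu, ← fv, ← fw, trn_scl_eq, trn_scl_eq,
        trn_scl_eq, trn_scl_eq, trn_scl_eq, trn_scl_eq, Complex.ofReal_mul] at h2
      rw [lb1, lb1, if_pos rfl, if_pos rfl, if_pos (Or.inl rfl)]
      exact trn_corner' hf0 h2 hk0 (hg 0)
    · by_cases h3 : a ∈ SA
      · have h2 := hker.e1 a h3
        rw [c1_ad, c1_ad, if_neg h, if_neg h, add_zero, add_zero, ← fu, ← fv, ← fw,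
          trn_scl_ne _ _ _ h, trn_scl_ne _ _ _ h, ← mul_assoc, div_mul_cancel₀ _ hf0] at h2
        rw [lb1, lb1, if_neg h, if_neg h, if_pos h3, if_pos h3, if_pos (Or.inr h3)]
        change c1 T (scl b0 (z 1 0) (z 1 1) p.2.1) (scl c0 (z 2 0) (z 2 1) hw) a
          - p.2.2.2 0 * hu a + (c1 T (scl b0 (z 1 0) (z 1 1) hv) (scl c0 (z 2 0) (z 2 1)
          p.2.2.1) a - z 0 1 * dα * p.1 a) + 0 = 0
        linear_combination h2
      · rw [lb1, lb1, if_neg h, if_neg h, if_neg h3, if_neg h3, if_neg (not_or.2 ⟨h, h3⟩),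
          zero_add, zero_add]
        rw [ehu]
        exact trn_scl_zero (hker.su a h3)
  have h2 : ∀ b, lb2 T a0 b0 c0 s SB z p (hu, hv, hw, ![z 0 1 * dα, z 1 1 * dβ, z 2 1 * dγ]) b
      + lb2 T a0 b0 c0 s SB z (hu, hv, hw, ![z 0 1 * dα, z 1 1 * dβ, z 2 1 * dγ]) p b
      + (if b = b0 ∨ b ∈ SB then 0 else hv b) = 0 := by
    intro b
    by_cases h : b = b0
    · subst h
      have h2 := hker.e2 b hb
      rw [c2_ad, c2_ad, if_pos rfl, if_pos rfl, ← fu, ← fv, ← fw, trn_scl_eq, trn_scl_eq,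
        trn_scl_eq, trn_scl_eq, trn_scl_eq, trn_scl_eq, Complex.ofReal_mul] at h2
      rw [lb2, lb2, if_pos rfl, if_pos rfl, if_pos (Or.inl rfl)]
      exact trn_corner' hf1 h2 hk1 (hg 1)
    · by_cases h3 : b ∈ SB
      · have h2 := hker.e2 b h3
        rw [c2_ad, c2_ad, if_neg h, if_neg h, add_zero, add_zero, ← fu, ← fv, ← fw,
          trn_scl_ne _ _ _ h, trn_scl_ne _ _ _ h, ← mul_assoc, div_mul_cancel₀ _ hf1] at h2
        rw [lb2, lb2, if_neg h, if_neg h, if_pos h3, if_pos h3, if_pos (Or.inr h3)]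
        change c2 T (scl a0 (z 0 0) (z 0 1) p.1) (scl c0 (z 2 0) (z 2 1) hw) b
          - p.2.2.2 1 * hv b + (c2 T (scl a0 (z 0 0) (z 0 1) hu) (scl c0 (z 2 0) (z 2 1)
          p.2.2.1) b - z 1 1 * dβ * p.2.1 b) + 0 = 0
        linear_combination h2
      · rw [lb2, lb2, if_neg h, if_neg h, if_neg h3, if_neg h3, if_neg (not_or.2 ⟨h, h3⟩),
          zero_add, zero_add]
        rw [ehv]
        exact trn_scl_zero (hker.sv b h3)
  have h3 : ∀ c, lb3 T a0 b0 c0 s SC z p (hu, hv, hw, ![z 0 1 * dα, z 1 1 * dβ, z 2 1 * dγ]) c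
      + lb3 T a0 b0 c0 s SC z (hu, hv, hw, ![z 0 1 * dα, z 1 1 * dβ, z 2 1 * dγ]) p c
      + (if c = c0 ∨ c ∈ SC then 0 else hw c) = 0 := by
    intro c
    by_cases h : c = c0
    · subst h
      have h2 := hker.e3 c hc
      rw [c3_ad, c3_ad, if_pos rfl, if_pos rfl, ← fu, ← fv, ← fw, trn_scl_eq, trn_scl_eq,
        trn_scl_eq, trn_scl_eq, trn_scl_eq, trn_scl_eq, Complex.ofReal_mul] at h2
      rw [lb3, lb3, if_pos rfl, if_pos rfl, if_pos (Or.inl rfl)]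
      exact trn_corner' hf2 h2 hk2 (hg 2)
    · by_cases h3 : c ∈ SC
      · have h2 := hker.e3 c h3
        rw [c3_ad, c3_ad, if_neg h, if_neg h, add_zero, add_zero, ← fu, ← fv, ← fw,
          trn_scl_ne _ _ _ h, trn_scl_ne _ _ _ h, ← mul_assoc, div_mul_cancel₀ _ hf2] at h2
        rw [lb3, lb3, if_neg h, if_neg h, if_pos h3, if_pos h3, if_pos (Or.inr h3)]
        change c3 T (scl a0 (z 0 0) (z 0 1) p.1) (scl b0 (z 1 0) (z 1 1) hv) c
          - p.2.2.2 2 * hw c + (c3 T (scl a0 (z 0 0) (z 0 1) hu) (scl b0 (z 1 0) (z 1 1)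
          p.2.1) c - z 2 1 * dγ * p.2.2.1 c) + 0 = 0
        linear_combination h2
      · rw [lb3, lb3, if_neg h, if_neg h, if_neg h3, if_neg h3, if_neg (not_or.2 ⟨h, h3⟩),
          zero_add, zero_add]
        rw [ehw]
        exact trn_scl_zero (hker.sw c h3)
  have h4 : ∀ i : Fin 3, (0 : ℂ) + (![hu ia, hv ib, hw ic] : Fin 3 → ℂ) i = 0 := by
    intro i
    fin_cases i
    · change 0 + hu ia = 0
      rw [zero_add, ehu]
      exact trn_scl_zero hui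
    · change 0 + hv ib = 0
      rw [zero_add, ehv]
      exact trn_scl_zero hvi
    · change 0 + hw ic = 0
      rw [zero_add, ehw]
      exact trn_scl_zero hwi
  have h5 := hk (hu, hv, hw, ![z 0 1 * dα, z 1 1 * dβ, z 2 1 * dγ])
    (Prod.ext (funext h1) (Prod.ext (funext h2) (Prod.ext (funext h3) (funext h4))))
  have eu : hu = 0 := congrArg (fun t : Pt A B C => t.1) h5
  have ev : hv = 0 := congrArg (fun t : Pt A B C => t.2.1) h5
  have ew : hw = 0 := congrArg (fun t : Pt A B C => t.2.2.1) h5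
  refine ⟨?_, ?_, ?_⟩
  · rw [← fu, eu]
    funext a
    exact trn_scl_zero rfl
  · rw [← fv, ev]
    funext b
    exact trn_scl_zero rfl
  · rw [← fw, ew]
    funext c
    exact trn_scl_zero rfl

/-- If the kernel of the derivative of the local system is trivial, then the singular tuple is
nondegenerate.

Proof. Let `(du, dv, dw, dα, dβ, dγ)` be in the kernel (`Ker`) for the tuple of
`ad T a0 b0 c0 (s * L)`, with the vectors `U = scl a0 e f p.1` and so on. By `Ker.sub_u` we may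
subtract the multiple `du ia / U ia` of `U` (`U ia ≠ 0`), so we may assume `du ia = 0`,
`dv ib = 0`, `dw ic = 0`. Then `h = (scl a0 (1/e) (1/f) du, .., ![f dα, ..])` satisfies
`dloc z p h = 0` (computation as in `trn_loc`), so `h = 0` and `du = 0`, `dv = 0`, `dw = 0`. -/
theorem trn_nd (hz : Sc L z) (ha : a0 ∈ SA) (hb : b0 ∈ SB) (hc : c0 ∈ SC)
    (h : Tup (ad T a0 b0 c0 (s * L)) SA SB SC (scl a0 (z 0 0) (z 0 1) p.1)
      (scl b0 (z 1 0) (z 1 1) p.2.1) (scl c0 (z 2 0) (z 2 1) p.2.2.1) (p.2.2.2 0 / (z 0 1 : ℂ))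
      (p.2.2.2 1 / (z 1 1 : ℂ)) (p.2.2.2 2 / (z 2 1 : ℂ)))
    (hu : p.1 ia = 1) (hv : p.2.1 ib = 1) (hw : p.2.2.1 ic = 1)
    (hk : ∀ h, dloc T a0 b0 c0 s SA SB SC ia ib ic z p h = 0 → h = 0) :
    Nd (ad T a0 b0 c0 (s * L)) SA SB SC (scl a0 (z 0 0) (z 0 1) p.1)
      (scl b0 (z 1 0) (z 1 1) p.2.1) (scl c0 (z 2 0) (z 2 1) p.2.2.1) (p.2.2.2 0 / (z 0 1 : ℂ))
      (p.2.2.2 1 / (z 1 1 : ℂ)) (p.2.2.2 2 / (z 2 1 : ℂ)) := by
  have h0 := h
  intro du dv dw dα dβ dγ hker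
  have hf0 : ((z 0 1 : ℝ) : ℂ) ≠ 0 := Complex.ofReal_ne_zero.2 (hz.f 0)
  have hf1 : ((z 1 1 : ℝ) : ℂ) ≠ 0 := Complex.ofReal_ne_zero.2 (hz.f 1)
  have hf2 : ((z 2 1 : ℝ) : ℂ) ≠ 0 := Complex.ofReal_ne_zero.2 (hz.f 2)
  have hk0 : ((z 0 3 : ℝ) : ℂ) = z 0 2 * L * z 1 0 * z 2 0 := by
    rw [hz.k0]
    push_cast
    ring
  have hk1 : ((z 1 3 : ℝ) : ℂ) = z 1 2 * L * z 0 0 * z 2 0 := by
    rw [hz.k1]
    push_cast
    ring
  have hk2 : ((z 2 3 : ℝ) : ℂ) = z 2 2 * L * z 0 0 * z 1 0 := by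
    rw [hz.k2]
    push_cast
    ring
  have hg : ∀ i, ((z i 4 : ℝ) : ℂ) * z i 1 = z i 2 * z i 0 := fun i => by
    rw [← Complex.ofReal_mul, hz.g i, Complex.ofReal_mul]
  have hUi : scl a0 (z 0 0) (z 0 1) p.1 ia ≠ 0 :=
    trn_scl_ne_zero (hz.e 0) (hz.f 0) _ (by rw [hu]; exact one_ne_zero)
  have hVi : scl b0 (z 1 0) (z 1 1) p.2.1 ib ≠ 0 :=
    trn_scl_ne_zero (hz.e 1) (hz.f 1) _ (by rw [hv]; exact one_ne_zero)
  have hWi : scl c0 (z 2 0) (z 2 1) p.2.2.1 ic ≠ 0 :=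
    trn_scl_ne_zero (hz.e 2) (hz.f 2) _ (by rw [hw]; exact one_ne_zero)
  have hker2 := Ker.sub_u h0 hker (du ia / scl a0 (z 0 0) (z 0 1) p.1 ia)
    (dv ib / scl b0 (z 1 0) (z 1 1) p.2.1 ib) (dw ic / scl c0 (z 2 0) (z 2 1) p.2.2.1 ic)
  have hui : (du - (du ia / scl a0 (z 0 0) (z 0 1) p.1 ia) • scl a0 (z 0 0) (z 0 1) p.1) ia
      = 0 := by
    rw [Pi.sub_apply, Pi.smul_apply, smul_eq_mul, div_mul_cancel₀ _ hUi, sub_self]
  have hvi : (dv - (dv ib / scl b0 (z 1 0) (z 1 1) p.2.1 ib) • scl b0 (z 1 0) (z 1 1) p.2.1) ib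
      = 0 := by
    rw [Pi.sub_apply, Pi.smul_apply, smul_eq_mul, div_mul_cancel₀ _ hVi, sub_self]
  have hwi : (dw - (dw ic / scl c0 (z 2 0) (z 2 1) p.2.2.1 ic) • scl c0 (z 2 0) (z 2 1)
      p.2.2.1) ic = 0 := by
    rw [Pi.sub_apply, Pi.smul_apply, smul_eq_mul, div_mul_cancel₀ _ hWi, sub_self]
  have hfin := trn_ker hz ha hb hc hk hf0 hf1 hf2 hk0 hk1 hk2 hg hker2 hui hvi hwi
  exact ⟨⟨_, sub_eq_zero.1 hfin.1⟩, ⟨_, sub_eq_zero.1 hfin.2.1⟩, ⟨_, sub_eq_zero.1 hfin.2.2⟩⟩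

end

end Pool.Agent.MPb0eR
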