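import Mathlib
import Pool.Agent.Lib.MP_b0e20b_ag_R.LFin
import Pool.Agent.Lib.MP_b0e20b_ag_R.Trn
import Pool.Agent.Lib.MP_b0e20b_ag_R.K12

/-!
# MP_b0e20b_ag, project R: tuples converging to a tuple without two corners
-/

set_option autoImplicit false

open scoped BigOperators Topology
open Filter

namespace Pool.Agent.MPb0eR

section

variable {A B C : Type} [Fintype A] [Fintype B] [Fintype C] [DecidableEq A] [DecidableEq B]
  [DecidableEq C] {T : A → B → C → ℝ} {a0 : A} {b0 : B} {c0 : C} {s : ℝ} {SA : Finset A}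
  {SB : Finset B} {SC : Finset C} {L : ℕ → ℝ} {ia : A} {ib : B} {ic : C} {u : ℕ → A → ℂ}
  {v : ℕ → B → ℂ} {w : ℕ → C → ℂ} {α β γ : ℕ → ℂ} {u0 : A → ℂ} {v0 : B → ℂ} {w0 : C → ℂ}
  {α0 β0 γ0 : ℂ}

omit [Fintype A] in
private theorem R12_scl {a0 : A} {δ R : ℝ} (h : δ * R = 1) (u : A → ℂ) :
    scl a0 δ 1 (Function.update u a0 ((R : ℂ) * u a0)) = u := by
  funext a
  by_cases h1 : a = a0
  · subst h1
    rw [scl, if_pos rfl, Function.update_self, ← mul_assoc, ← Complex.ofReal_mul, h,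
      Complex.ofReal_one, one_mul]
  · rw [scl, if_neg h1, Function.update_of_ne h1, Complex.ofReal_one, one_mul]

omit [Fintype A] in
private theorem R12_scl1 {a0 : A} (u : A → ℂ) : scl a0 1 1 u = u := by
  funext a
  rw [scl, ite_self, Complex.ofReal_one, one_mul]

omit [Fintype A] in
private theorem R12_scl0 {a0 : A} {X : ℂ} {u : A → ℂ} (h : u a0 = 0) :
    scl a0 0 1 (Function.update u a0 X) = u := by
  funext a
  by_cases h1 : a = a0
  · subst h1
    rw [scl, if_pos rfl, Complex.ofReal_zero, zero_mul, h]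
  · rw [scl, if_neg h1, Function.update_of_ne h1, Complex.ofReal_one, one_mul]

omit [Fintype A] in
private theorem R12_rea {a0 : A} {X : ℂ} {u : A → ℂ} (h : Rea u) (hX : X.im = 0) :
    Rea (Function.update u a0 X) := by
  intro a
  by_cases h1 : a = a0
  · subst h1
    rw [Function.update_self]
    exact hX
  · rw [Function.update_of_ne h1]
    exact h a

omit [Fintype A] in
private theorem R12_rscl {a0 : A} {e f : ℝ} {u : A → ℂ} (h : Rea u) : Rea (scl a0 e f u) := by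
  intro a
  rw [scl, Complex.im_ofReal_mul, h a, mul_zero]

/-- The scaled corner coordinate. -/
private theorem R12_cor {L s : ℝ} (hs : s * s = 1) {c m x y z : ℂ} (hz : z ≠ 0)
    (h : c + ((s * L : ℝ) : ℂ) * (y * z) = m * x) :
    (s : ℂ) * (m * x - c) / z = (L : ℂ) * y := by
  have h1 : ((s : ℂ)) * s = 1 := by
    rw [← Complex.ofReal_mul, hs, Complex.ofReal_one]
  rw [div_eq_iff hz, ← h, Complex.ofReal_mul]
  linear_combination ((L : ℂ) * (y * z)) * h1

/-- The limit of the scaled corner coordinate. -/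
private theorem R12_lim {s r t : ℝ} {L : ℕ → ℝ} (hs : s * s = 1) {y z m x g : ℕ → ℂ}
    {m0 g0 z0 : ℂ} (h : ∀ n, g n + ((s * L n : ℝ) : ℂ) * (y n * z n) = m n * x n)
    (hm : Tendsto m uf (𝓝 m0)) (hx : Tendsto x uf (𝓝 0)) (hg : Tendsto g uf (𝓝 g0))
    (hz : Tendsto z uf (𝓝 z0)) (hr : g0 = (r : ℂ)) (ht : z0 = (t : ℂ)) (hz0 : z0 ≠ 0) :
    Tendsto (fun n => ((L n : ℝ) : ℂ) * y n) uf (𝓝 ((-(s * r) / t : ℝ) : ℂ)) := by
  have h1 := (((hm.mul hx).sub hg).const_mul (s : ℂ)).div hz hz0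
  have h2 : (s : ℂ) * (m0 * 0 - g0) / z0 = ((-(s * r) / t : ℝ) : ℂ) := by
    rw [hr, ht, mul_zero, zero_sub, Complex.ofReal_div, Complex.ofReal_neg, Complex.ofReal_mul]
    ring
  rw [h2] at h1
  refine h1.congr' ?_
  filter_upwards [hz.eventually_ne hz0] with n hn
  exact R12_cor hs hn (h n)

/-- Singular tuples of the tensors with the large corner entry `s * L n` which converge to a
singular tuple of the mask without the corners `a0`, `b0` are eventually real and nondegenerate,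
with nonzero corner coordinates.

Proof. Put `ε n = 1 / L n`, `X n = L n * u n a0`, `Y n = L n * v n b0`. The equations at `b0` and
`a0` (`c2_ad`, `c1_ad`) are `c2 T u w b0 + s (X n) (w n c0) = β n * v n b0`,
`c1 T v w a0 + s (Y n) (w n c0) = α n * u n a0`; the right-hand sides tend to `0` (`u0 a0 = 0` and
`v0 b0 = 0`, because the limit is supported in the smaller masks), so (`s⁻¹ = s`)
`X n → X0 = - s * c2 T u0 w0 b0 / w0 c0 ≠ 0` and `Y n → Y0 = - s * c1 T v0 w0 a0 / w0 c0 ≠ 0`.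
Let `p n` have the vectors `u n` with `a0`-coordinate replaced by `X n`, `v n` with `b0`-coordinate
`Y n`, `w n`, and the multipliers `![α n, β n, γ n]`, and
`z n = ![![ε, 1, 1, 1, ε], ![ε, 1, 1, 1, ε], ![1, 1, 1, ε, 1]]`, so `Sc (L n) (z n)` and the scaled
vectors are `u n`, `v n`, `w n`. (`ia ≠ a0` and `ib ≠ b0`, because `u0 ia = 1`, `v0 ib = 1`.) So
`loc (z n) (p n) = 0` (`trn_loc`), `z n → z12`, `p n → p0`. By `FR` the limit vectors are real up to
a factor, so real (`Rl.rea`, normalised), so `α0 = c1 T v0 w0 ia` and so on are real (`Tup.re`), and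
`X0`, `Y0` are real: `ReP p0`. `K12` and `loc_fin`: eventually `p n` is real and the kernel of
`dloc (z n) (p n)` is trivial, so `Nd` by `trn_nd`; `α n ≠ 0` because `α0 ≠ 0` (`FR`), and
`X n ≠ 0`, `Y n ≠ 0`, `w n c0 ≠ 0` eventually. -/
theorem R12 (hs : s = 1 ∨ s = -1) (ha : a0 ∈ SA) (hb : b0 ∈ SB) (hc : c0 ∈ SC)
    (h : Sq T a0 b0 c0 s SA SB SC L ia ib ic u v w α β γ) (lv : Lv u v w u0 v0 w0)
    (lc : Lc α β γ α0 β0 γ0)
    (ht : Tup T (SA.erase a0) (SB.erase b0) SC u0 v0 w0 α0 β0 γ0)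
    (hf : FR T (SA.erase a0) (SB.erase b0) SC) (hw : w0 c0 ≠ 0) (h1 : c1 T v0 w0 a0 ≠ 0)
    (h2 : c2 T u0 w0 b0 ≠ 0) :
    ∀ᶠ n in uf, Okc T a0 b0 c0 s SA SB SC (L n) (u n) (v n) (w n) (α n) (β n) (γ n) := by
  have hs0 : s ≠ 0 := by rcases hs with rfl | rfl <;> norm_num
  have hss : s * s = 1 := by rcases hs with rfl | rfl <;> norm_num
  have nu0 := Nrm.lim h.nu lv.hu
  have nv0 := Nrm.lim h.nv lv.hv
  have nw0 := Nrm.lim h.nw lv.hw
  have ok := hf u0 v0 w0 α0 β0 γ0 ht nu0.ne nv0.ne nw0.ne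
  have ru := ok.ru.rea nu0.1
  have rv := ok.rv.rea nv0.1
  have rw' := ok.rw'.rea nw0.1
  have ua : u0 a0 = 0 := ht.su a0 (Finset.notMem_erase a0 SA)
  have vb : v0 b0 = 0 := ht.sv b0 (Finset.notMem_erase b0 SB)
  have hia : ia ≠ a0 := by
    rintro rfl
    exact zero_ne_one (ua.symm.trans nu0.1)
  have hib : ib ≠ b0 := by
    rintro rfl
    exact zero_ne_one (vb.symm.trans nv0.1)
  obtain ⟨rα, rβ, rγ⟩ := ht.re nu0.1 nv0.1 nw0.1 ru rv rw'
  have g1 := c1_re T v0 w0 rv rw' a0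
  have g2 := c2_re T u0 w0 ru rw' b0
  have q1 : c1 T v0 w0 a0 = (((c1 T v0 w0 a0).re : ℝ) : ℂ) :=
    Complex.ext (Complex.ofReal_re _).symm (by rw [Complex.ofReal_im]; exact g1)
  have q2 : c2 T u0 w0 b0 = (((c2 T u0 w0 b0).re : ℝ) : ℂ) :=
    Complex.ext (Complex.ofReal_re _).symm (by rw [Complex.ofReal_im]; exact g2)
  have qw : w0 c0 = (((w0 c0).re : ℝ) : ℂ) :=
    Complex.ext (Complex.ofReal_re _).symm (by rw [Complex.ofReal_im]; exact rw' c0)
  have m1 : (c1 T v0 w0 a0).re ≠ 0 := by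
    intro e1
    rw [e1, Complex.ofReal_zero] at q1
    exact h1 q1
  have m2 : (c2 T u0 w0 b0).re ≠ 0 := by
    intro e1
    rw [e1, Complex.ofReal_zero] at q2
    exact h2 q2
  have mw : (w0 c0).re ≠ 0 := by
    intro e1
    rw [e1, Complex.ofReal_zero] at qw
    exact hw qw
  have lu : Tendsto (fun n => u n a0) uf (𝓝 0) := by
    have e1 := (tendsto_pi_nhds.1 lv.hu) a0
    rwa [ua] at e1
  have lvb : Tendsto (fun n => v n b0) uf (𝓝 0) := by
    have e1 := (tendsto_pi_nhds.1 lv.hv) b0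
    rwa [vb] at e1
  have lw : Tendsto (fun n => w n c0) uf (𝓝 (w0 c0)) := (tendsto_pi_nhds.1 lv.hw) c0
  have hY := R12_lim (L := L) (y := fun n => v n b0) (z := fun n => w n c0) (m := α)
    (x := fun n => u n a0) (g := fun n => c1 T (v n) (w n) a0) hss (fun n => by
      have e1 := (h.tup n).e1 a0 ha
      rwa [c1_ad, if_pos rfl] at e1) lc.hα lu (lim_c1 lv.hv lv.hw a0) lw q1 qw hw
  have hX := R12_lim (L := L) (y := fun n => u n a0) (z := fun n => w n c0) (m := β)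
    (x := fun n => v n b0) (g := fun n => c2 T (u n) (w n) b0) hss (fun n => by
      have e1 := (h.tup n).e2 b0 hb
      rwa [c2_ad, if_pos rfl] at e1) lc.hβ lvb (lim_c2 lv.hu lv.hw b0) lw q2 qw hw
  obtain ⟨X0, hX0⟩ : ∃ X0 : ℂ, X0 = ((-(s * (c2 T u0 w0 b0).re) / (w0 c0).re : ℝ) : ℂ) :=
    ⟨_, rfl⟩
  obtain ⟨Y0, hY0⟩ : ∃ Y0 : ℂ, Y0 = ((-(s * (c1 T v0 w0 a0).re) / (w0 c0).re : ℝ) : ℂ) :=
    ⟨_, rfl⟩
  rw [← hX0] at hX
  rw [← hY0] at hY
  have iX : X0.im = 0 := by rw [hX0, Complex.ofReal_im]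
  have iY : Y0.im = 0 := by rw [hY0, Complex.ofReal_im]
  have nX : X0 ≠ 0 := by
    rw [hX0]
    exact Complex.ofReal_ne_zero.2 (div_ne_zero (neg_ne_zero.2 (mul_ne_zero hs0 m2)) mw)
  have nY : Y0 ≠ 0 := by
    rw [hY0]
    exact Complex.ofReal_ne_zero.2 (div_ne_zero (neg_ne_zero.2 (mul_ne_zero hs0 m1)) mw)
  -- the scaled points
  set z : ℕ → Fin 3 → Fin 5 → ℝ := fun n =>
    ![![(L n)⁻¹, 1, 1, 1, (L n)⁻¹], ![(L n)⁻¹, 1, 1, 1, (L n)⁻¹], ![1, 1, 1, (L n)⁻¹, 1]] with hz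
  set p : ℕ → Pt A B C := fun n =>
    (Function.update (u n) a0 (((L n : ℝ) : ℂ) * u n a0),
      Function.update (v n) b0 (((L n : ℝ) : ℂ) * v n b0), w n, ![α n, β n, γ n]) with hp
  have hL0 : ∀ n, L n ≠ 0 := fun n => (h.pos n).ne'
  have hδ : ∀ n, (L n)⁻¹ * L n = 1 := fun n => inv_mul_cancel₀ (hL0 n)
  have hSc : ∀ n, Sc (L n) (z n) := by
    intro n
    have e0 : (L n)⁻¹ ≠ 0 := inv_ne_zero (hL0 n)
    refine ⟨fun i => ?_, fun i => ?_, fun i => ?_, ?_, ?_, ?_, fun i => ?_⟩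
    · fin_cases i
      · exact e0
      · exact e0
      · exact one_ne_zero
    · fin_cases i <;> exact one_ne_zero
    · fin_cases i <;> exact one_ne_zero
    · change (1 : ℝ) = 1 * L n * (L n)⁻¹ * 1
      rw [one_mul, mul_one, mul_comm, hδ]
    · change (1 : ℝ) = 1 * L n * (L n)⁻¹ * 1
      rw [one_mul, mul_one, mul_comm, hδ]
    · change (L n)⁻¹ = 1 * L n * (L n)⁻¹ * (L n)⁻¹
      rw [one_mul, mul_comm (L n), hδ, one_mul]
    · fin_cases i
      · change (L n)⁻¹ * 1 = 1 * (L n)⁻¹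
        rw [one_mul, mul_one]
      · change (L n)⁻¹ * 1 = 1 * (L n)⁻¹
        rw [one_mul, mul_one]
      · rfl
  have s1 : ∀ n, scl a0 (z n 0 0) (z n 0 1) (p n).1 = u n := fun n => R12_scl (hδ n) (u n)
  have s2 : ∀ n, scl b0 (z n 1 0) (z n 1 1) (p n).2.1 = v n := fun n => R12_scl (hδ n) (v n)
  have s3 : ∀ n, scl c0 (z n 2 0) (z n 2 1) (p n).2.2.1 = w n := fun n => R12_scl1 (w n)
  have t1 : ∀ n, (p n).2.2.2 0 / (z n 0 1 : ℂ) = α n := by
    intro n
    change α n / ((1 : ℝ) : ℂ) = α n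
    rw [Complex.ofReal_one, div_one]
  have t2 : ∀ n, (p n).2.2.2 1 / (z n 1 1 : ℂ) = β n := by
    intro n
    change β n / ((1 : ℝ) : ℂ) = β n
    rw [Complex.ofReal_one, div_one]
  have t3 : ∀ n, (p n).2.2.2 2 / (z n 2 1 : ℂ) = γ n := by
    intro n
    change γ n / ((1 : ℝ) : ℂ) = γ n
    rw [Complex.ofReal_one, div_one]
  have hT : ∀ n, Tup (ad T a0 b0 c0 (s * L n)) SA SB SC (scl a0 (z n 0 0) (z n 0 1) (p n).1)
      (scl b0 (z n 1 0) (z n 1 1) (p n).2.1) (scl c0 (z n 2 0) (z n 2 1) (p n).2.2.1)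
      ((p n).2.2.2 0 / (z n 0 1 : ℂ)) ((p n).2.2.2 1 / (z n 1 1 : ℂ))
      ((p n).2.2.2 2 / (z n 2 1 : ℂ)) := by
    intro n
    rw [s1, s2, s3, t1, t2, t3]
    exact h.tup n
  have v1 : ∀ n, (p n).1 ia = 1 := by
    intro n
    change Function.update (u n) a0 _ ia = 1
    rw [Function.update_of_ne hia]
    exact (h.nu n).1
  have v2 : ∀ n, (p n).2.1 ib = 1 := by
    intro n
    change Function.update (v n) b0 _ ib = 1
    rw [Function.update_of_ne hib]
    exact (h.nv n).1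
  have v3 : ∀ n, (p n).2.2.1 ic = 1 := fun n => (h.nw n).1
  have hloc : ∀ n, loc T a0 b0 c0 s SA SB SC ia ib ic (z n) (p n) = 0 := fun n =>
    trn_loc (hSc n) ha hb hc (hT n) (v1 n) (v2 n) (v3 n)
  -- the limits
  have lδ : Tendsto (fun n => (L n)⁻¹) uf (𝓝 0) := tendsto_inv_atTop_zero.comp h.hL
  have lz : Tendsto z uf (𝓝 z12) := by
    refine tendsto_pi_nhds.2 fun i => tendsto_pi_nhds.2 fun j => ?_
    fin_cases i <;> fin_cases j
    · exact lδ
    · exact tendsto_const_nhds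
    · exact tendsto_const_nhds
    · exact tendsto_const_nhds
    · exact lδ
    · exact lδ
    · exact tendsto_const_nhds
    · exact tendsto_const_nhds
    · exact tendsto_const_nhds
    · exact lδ
    · exact tendsto_const_nhds
    · exact tendsto_const_nhds
    · exact tendsto_const_nhds
    · exact lδ
    · exact tendsto_const_nhds
  have lp : Tendsto p uf (𝓝 (Function.update u0 a0 X0, Function.update v0 b0 Y0, w0,
      ![α0, β0, γ0])) := by
    refine (lv.hu.update a0 hX).prodMk_nhds ((lv.hv.update b0 hY).prodMk_nhds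
      (lv.hw.prodMk_nhds ?_))
    refine tendsto_pi_nhds.2 fun i => ?_
    fin_cases i
    · exact lc.hα
    · exact lc.hβ
    · exact lc.hγ
  have hre : ReP ((Function.update u0 a0 X0, Function.update v0 b0 Y0, w0,
      ![α0, β0, γ0]) : Pt A B C) := by
    refine ⟨R12_rea ru iX, R12_rea rv iY, rw', fun i => ?_⟩
    fin_cases i
    · exact rα
    · exact rβ
    · exact rγ
  have hk : ∀ k, dloc T a0 b0 c0 s SA SB SC ia ib ic z12 (Function.update u0 a0 X0,
      Function.update v0 b0 Y0, w0, ![α0, β0, γ0]) k = 0 → k = 0 := by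
    intro k hk
    have r1 : scl a0 0 1 (Function.update u0 a0 X0) = u0 := R12_scl0 ua
    have r2 : scl b0 0 1 (Function.update v0 b0 Y0) = v0 := R12_scl0 vb
    refine K12 hs0 hb ha hc (p := (Function.update u0 a0 X0, Function.update v0 b0 Y0,
      w0, ![α0, β0, γ0])) ?_ ?_ hia hib ?_ ?_ ?_ ?_ k hk
    · change Tup T _ _ _ (scl a0 0 1 (Function.update u0 a0 X0))
        (scl b0 0 1 (Function.update v0 b0 Y0)) w0 α0 β0 γ0
      rw [r1, r2]
      exact ht
    · change Nd T _ _ _ (scl a0 0 1 (Function.update u0 a0 X0))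
        (scl b0 0 1 (Function.update v0 b0 Y0)) w0 α0 β0 γ0
      rw [r1, r2]
      exact ok.nd
    · change Function.update u0 a0 X0 ia = 1
      rw [Function.update_of_ne hia]
      exact nu0.1
    · change Function.update v0 b0 Y0 ib = 1
      rw [Function.update_of_ne hib]
      exact nv0.1
    · exact nw0.1
    · exact hw
  have hfin := loc_fin T a0 b0 c0 s SA SB SC ia ib ic z z12 p _ lz lp
    (Eventually.of_forall hloc) hre hk
  filter_upwards [hfin, lc.hα.eventually_ne ok.hα, lc.hβ.eventually_ne ok.hβ,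
    lc.hγ.eventually_ne ok.hγ, hX.eventually_ne nX, hY.eventually_ne nY, lw.eventually_ne hw]
    with n hn aα aβ aγ aX aY aZ
  obtain ⟨⟨d1, d2, d3, -⟩, hkn⟩ := hn
  have hnd := trn_nd (hSc n) ha hb hc (hT n) (v1 n) (v2 n) (v3 n) hkn
  rw [s1, s2, s3, t1, t2, t3] at hnd
  have f1 : Rea (u n) := by
    rw [← s1 n]
    exact R12_rscl d1
  have f2 : Rea (v n) := by
    rw [← s2 n]
    exact R12_rscl d2
  have f3 : Rea (w n) := d3
  exact ⟨⟨f1.rl, f2.rl, f3.rl, aα, aβ, aγ, hnd⟩, right_ne_zero_of_mul aX,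
    right_ne_zero_of_mul aY, aZ⟩

end

end Pool.Agent.MPb0eR
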