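import Mathlib
import Pool.Agent.Lib.MP_b0e20b_ag_R.Alg2

/-!
# MP_b0e20b_ag, project R: the limit kernels
-/

set_option autoImplicit false
set_option linter.unusedSimpArgs false

open scoped BigOperators Topology
open Filter

namespace Pool.Agent.MPb0eR

section

variable {A B C : Type} [Fintype A] [Fintype B] [Fintype C] [DecidableEq A] [DecidableEq B]
  [DecidableEq C] {T : A → B → C → ℝ} {a0 : A} {b0 : B} {c0 : C} {s : ℝ} {SA : Finset A}
  {SB : Finset B} {SC : Finset C} {ia : A} {ib : B} {ic : C} {p : Pt A B C}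

/-- The components of the equation `dloc z p h = 0`. -/
private theorem K123_ex {z : Fin 3 → Fin 5 → ℝ} {h : Pt A B C}
    (hk : dloc T a0 b0 c0 s SA SB SC ia ib ic z p h = 0) :
    (∀ a, lb1 T a0 b0 c0 s SA z p h a + lb1 T a0 b0 c0 s SA z h p a +
      (if a = a0 ∨ a ∈ SA then 0 else h.1 a) = 0) ∧
    (∀ b, lb2 T a0 b0 c0 s SB z p h b + lb2 T a0 b0 c0 s SB z h p b +
      (if b = b0 ∨ b ∈ SB then 0 else h.2.1 b) = 0) ∧
    (∀ c, lb3 T a0 b0 c0 s SC z p h c + lb3 T a0 b0 c0 s SC z h p c +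
      (if c = c0 ∨ c ∈ SC then 0 else h.2.2.1 c) = 0) ∧
    h.1 ia = 0 ∧ h.2.1 ib = 0 ∧ h.2.2.1 ic = 0 := by
  refine ⟨fun a => congrFun (congrArg Prod.fst hk) a,
    fun b => congrFun (congrArg (fun x => x.2.1) hk) b,
    fun c => congrFun (congrArg (fun x => x.2.2.1) hk) c, ?_, ?_, ?_⟩
  · simpa [dloc, ll] using congrFun (congrArg (fun x => x.2.2.2) hk) 0
  · simpa [dloc, ll] using congrFun (congrArg (fun x => x.2.2.2) hk) 1
  · simpa [dloc, ll] using congrFun (congrArg (fun x => x.2.2.2) hk) 2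

private theorem K123_scl_ne {a0 a : A} (h : a ≠ a0) (u : A → ℂ) : scl a0 0 1 u a = u a := by
  simp [scl, h]

private theorem K123_scl_self (a0 : A) (u : A → ℂ) : scl a0 0 1 u a0 = 0 := by
  simp [scl]

/-- Vectors `du` with `scl a0 0 1 du` a multiple of `scl a0 0 1 u`, zero at `ia`. -/
private theorem K123_zero {a0 ia : A} {u du : A → ℂ} (hi : ia ≠ a0) (hu : u ia = 1)
    (hd : du ia = 0) (h : ∃ r : ℂ, scl a0 0 1 du = r • scl a0 0 1 u) :
    scl a0 0 1 du = 0 := by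
  obtain ⟨r, hr⟩ := h
  have h1 := congrFun hr ia
  rw [K123_scl_ne hi, hd, Pi.smul_apply, K123_scl_ne hi, hu, smul_eq_mul, mul_one] at h1
  rw [hr, ← h1, zero_smul]

/-- The corner equations. -/
private theorem K123_cor {x y z dx dy dz : ℂ} (hx : x ≠ 0) (hy : y ≠ 0) (hz : z ≠ 0)
    (h1 : y * dz + dy * z = 0) (h2 : x * dz + dx * z = 0) (h3 : x * dy + dx * y = 0) :
    dx = 0 ∧ dy = 0 ∧ dz = 0 := by
  have h4 : y * z * dx = 0 := by linear_combination (-x / 2) * h1 + (y / 2) * h2 + (z / 2) * h3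
  have h5 : dx = 0 := by
    rcases mul_eq_zero.1 h4 with h | h
    · exact absurd h (mul_ne_zero hy hz)
    · exact h
  subst h5
  refine ⟨rfl, ?_, ?_⟩
  · rw [zero_mul, add_zero] at h3
    exact (mul_eq_zero.1 h3).resolve_left hx
  · rw [zero_mul, add_zero] at h2
    exact (mul_eq_zero.1 h2).resolve_left hx

/-- The kernel at the limit parameters `z123`: all three corner coordinates are scaled by `0`.

Proof. Let `dloc z123 p h = 0`, `h = (du, dv, dw, dl)`. The components of `ll` say that `du`, `dv`,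
`dw` vanish outside of the masks and at `ia`, `ib`, `ic`. The components of `lb1` for `a ≠ a0` and so
on say that `(scl a0 0 1 du, scl b0 0 1 dv, scl c0 0 1 dw, dl 0, dl 1, dl 2)` is in `Ker` for the
tuple `ht`. By `nd` these vectors are multiples of `scl a0 0 1 p.1` (which is `1` at `ia ≠ a0`) and so
on, and they vanish at `ia`, `ib`, `ic`, so they are zero. The equations at `ia`, `ib`, `ic` now give
`dl = 0` (`ia ∈ SA`: otherwise `p.1 ia = 0`). With `x = u a0`, `y = v b0`, `z = w c0` the equations at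
the corners are `s (dy z + y dz) = 0`, `s (dx z + x dz) = 0`, `s (dx y + x dy) = 0`; hence
`x dy = - y dx`, `x dz = - z dx`, `0 = x (dy z + y dz) = - 2 y z dx`, so `dx = dy = dz = 0`. -/
theorem K123 (hs : s ≠ 0) (ha : a0 ∈ SA) (hb : b0 ∈ SB) (hc : c0 ∈ SC)
    (ht : Tup T (SA.erase a0) (SB.erase b0) (SC.erase c0) (scl a0 0 1 p.1) (scl b0 0 1 p.2.1)
      (scl c0 0 1 p.2.2.1) (p.2.2.2 0) (p.2.2.2 1) (p.2.2.2 2))
    (nd : Nd T (SA.erase a0) (SB.erase b0) (SC.erase c0) (scl a0 0 1 p.1) (scl b0 0 1 p.2.1)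
      (scl c0 0 1 p.2.2.1) (p.2.2.2 0) (p.2.2.2 1) (p.2.2.2 2))
    (hia : ia ≠ a0) (hib : ib ≠ b0) (hic : ic ≠ c0) (hu : p.1 ia = 1) (hv : p.2.1 ib = 1)
    (hw : p.2.2.1 ic = 1) (hu0 : p.1 a0 ≠ 0) (hv0 : p.2.1 b0 ≠ 0) (hw0 : p.2.2.1 c0 ≠ 0)
    (h : Pt A B C) (hk : dloc T a0 b0 c0 s SA SB SC ia ib ic z123 p h = 0) : h = 0 := by
  obtain ⟨x1, x2, x3, y1, y2, y3⟩ := K123_ex hk
  have hK : Ker T (SA.erase a0) (SB.erase b0) (SC.erase c0) (scl a0 0 1 p.1) (scl b0 0 1 p.2.1)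
      (scl c0 0 1 p.2.2.1) (p.2.2.2 0) (p.2.2.2 1) (p.2.2.2 2) (scl a0 0 1 h.1)
      (scl b0 0 1 h.2.1) (scl c0 0 1 h.2.2.1) (h.2.2.2 0) (h.2.2.2 1) (h.2.2.2 2) := by
    refine ⟨?_, ?_, ?_, ?_, ?_, ?_⟩
    · intro a ha'
      by_cases h1 : a = a0
      · subst h1
        exact K123_scl_self _ _
      · have h2 : a ∉ SA := fun h3 => ha' (Finset.mem_erase.2 ⟨h1, h3⟩)
        have h3 := x1 a
        simp only [lb1, if_neg h1, if_neg h2, h1, h2, or_self, if_false, add_zero, zero_add] at h3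
        rw [K123_scl_ne h1, h3]
    · intro b hb'
      by_cases h1 : b = b0
      · subst h1
        exact K123_scl_self _ _
      · have h2 : b ∉ SB := fun h3 => hb' (Finset.mem_erase.2 ⟨h1, h3⟩)
        have h3 := x2 b
        simp only [lb2, if_neg h1, if_neg h2, h1, h2, or_self, if_false, add_zero, zero_add] at h3
        rw [K123_scl_ne h1, h3]
    · intro c hc'
      by_cases h1 : c = c0
      · subst h1
        exact K123_scl_self _ _
      · have h2 : c ∉ SC := fun h3 => hc' (Finset.mem_erase.2 ⟨h1, h3⟩)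
        have h3 := x3 c
        simp only [lb3, if_neg h1, if_neg h2, h1, h2, or_self, if_false, add_zero, zero_add] at h3
        rw [K123_scl_ne h1, h3]
    · intro a ha'
      obtain ⟨h1, h2⟩ := Finset.mem_erase.1 ha'
      have h3 := x1 a
      simp only [lb1, if_neg h1, if_pos h2, h2, or_true, if_true, add_zero] at h3
      rw [K123_scl_ne h1, K123_scl_ne h1]
      change c1 T (scl b0 0 1 p.2.1) (scl c0 0 1 h.2.2.1) a - p.2.2.2 0 * h.1 a +
        (c1 T (scl b0 0 1 h.2.1) (scl c0 0 1 p.2.2.1) a - h.2.2.2 0 * p.1 a) = 0 at h3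
      linear_combination h3
    · intro b hb'
      obtain ⟨h1, h2⟩ := Finset.mem_erase.1 hb'
      have h3 := x2 b
      simp only [lb2, if_neg h1, if_pos h2, h2, or_true, if_true, add_zero] at h3
      rw [K123_scl_ne h1, K123_scl_ne h1]
      change c2 T (scl a0 0 1 p.1) (scl c0 0 1 h.2.2.1) b - p.2.2.2 1 * h.2.1 b +
        (c2 T (scl a0 0 1 h.1) (scl c0 0 1 p.2.2.1) b - h.2.2.2 1 * p.2.1 b) = 0 at h3
      linear_combination h3
    · intro c hc'
      obtain ⟨h1, h2⟩ := Finset.mem_erase.1 hc'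
      have h3 := x3 c
      simp only [lb3, if_neg h1, if_pos h2, h2, or_true, if_true, add_zero] at h3
      rw [K123_scl_ne h1, K123_scl_ne h1]
      change c3 T (scl a0 0 1 p.1) (scl b0 0 1 h.2.1) c - p.2.2.2 2 * h.2.2.1 c +
        (c3 T (scl a0 0 1 h.1) (scl b0 0 1 p.2.1) c - h.2.2.2 2 * p.2.2.1 c) = 0 at h3
      linear_combination h3
  obtain ⟨n1, n2, n3⟩ := nd _ _ _ _ _ _ hK
  have d1 := K123_zero hia hu y1 n1
  have d2 := K123_zero hib hv y2 n2
  have d3 := K123_zero hic hw y3 n3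
  have ma : ia ∈ SA.erase a0 := by
    by_contra hn
    have h1 := ht.su ia hn
    rw [K123_scl_ne hia, hu] at h1
    exact one_ne_zero h1
  have mb : ib ∈ SB.erase b0 := by
    by_contra hn
    have h1 := ht.sv ib hn
    rw [K123_scl_ne hib, hv] at h1
    exact one_ne_zero h1
  have mc : ic ∈ SC.erase c0 := by
    by_contra hn
    have h1 := ht.sw ic hn
    rw [K123_scl_ne hic, hw] at h1
    exact one_ne_zero h1
  have l0 : h.2.2.2 0 = 0 := by
    have h1 := hK.e1 ia ma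
    rw [d1, d2, d3, c1_zero_left, c1_zero_right, K123_scl_ne hia, hu] at h1
    simpa using h1.symm
  have l1 : h.2.2.2 1 = 0 := by
    have h1 := hK.e2 ib mb
    rw [d1, d2, d3, c2_zero_left, c2_zero_right, K123_scl_ne hib, hv] at h1
    simpa using h1.symm
  have l2 : h.2.2.2 2 = 0 := by
    have h1 := hK.e3 ic mc
    rw [d1, d2, d3, c3_zero_left, c3_zero_right, K123_scl_ne hic, hw] at h1
    simpa using h1.symm
  have hs' : (s : ℂ) ≠ 0 := by exact_mod_cast hs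
  have g1 : p.2.1 b0 * h.2.2.1 c0 + h.2.1 b0 * p.2.2.1 c0 = 0 := by
    have h1 := x1 a0
    simp only [lb1, if_true, true_or, add_zero] at h1
    change ((1 : ℝ) : ℂ) * c1 T (scl b0 0 1 p.2.1) (scl c0 0 1 h.2.2.1) a0
      + (s : ℂ) * ((1 : ℝ) : ℂ) * (p.2.1 b0 * h.2.2.1 c0)
      - ((0 : ℝ) : ℂ) * (p.2.2.2 0 * h.1 a0) +
      (((1 : ℝ) : ℂ) * c1 T (scl b0 0 1 h.2.1) (scl c0 0 1 p.2.2.1) a0
      + (s : ℂ) * ((1 : ℝ) : ℂ) * (h.2.1 b0 * p.2.2.1 c0)
      - ((0 : ℝ) : ℂ) * (h.2.2.2 0 * p.1 a0)) = 0 at h1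
    rw [d2, d3, c1_zero_left, c1_zero_right] at h1
    push_cast at h1
    have h2 : (s : ℂ) * (p.2.1 b0 * h.2.2.1 c0 + h.2.1 b0 * p.2.2.1 c0) = 0 := by
      linear_combination h1
    exact (mul_eq_zero.1 h2).resolve_left hs'
  have g2 : p.1 a0 * h.2.2.1 c0 + h.1 a0 * p.2.2.1 c0 = 0 := by
    have h1 := x2 b0
    simp only [lb2, if_true, true_or, add_zero] at h1
    change ((1 : ℝ) : ℂ) * c2 T (scl a0 0 1 p.1) (scl c0 0 1 h.2.2.1) b0
      + (s : ℂ) * ((1 : ℝ) : ℂ) * (p.1 a0 * h.2.2.1 c0)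
      - ((0 : ℝ) : ℂ) * (p.2.2.2 1 * h.2.1 b0) +
      (((1 : ℝ) : ℂ) * c2 T (scl a0 0 1 h.1) (scl c0 0 1 p.2.2.1) b0
      + (s : ℂ) * ((1 : ℝ) : ℂ) * (h.1 a0 * p.2.2.1 c0)
      - ((0 : ℝ) : ℂ) * (h.2.2.2 1 * p.2.1 b0)) = 0 at h1
    rw [d1, d3, c2_zero_left, c2_zero_right] at h1
    push_cast at h1
    have h2 : (s : ℂ) * (p.1 a0 * h.2.2.1 c0 + h.1 a0 * p.2.2.1 c0) = 0 := by
      linear_combination h1
    exact (mul_eq_zero.1 h2).resolve_left hs'
  have g3 : p.1 a0 * h.2.1 b0 + h.1 a0 * p.2.1 b0 = 0 := by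
    have h1 := x3 c0
    simp only [lb3, if_true, true_or, add_zero] at h1
    change ((1 : ℝ) : ℂ) * c3 T (scl a0 0 1 p.1) (scl b0 0 1 h.2.1) c0
      + (s : ℂ) * ((1 : ℝ) : ℂ) * (p.1 a0 * h.2.1 b0)
      - ((0 : ℝ) : ℂ) * (p.2.2.2 2 * h.2.2.1 c0) +
      (((1 : ℝ) : ℂ) * c3 T (scl a0 0 1 h.1) (scl b0 0 1 p.2.1) c0
      + (s : ℂ) * ((1 : ℝ) : ℂ) * (h.1 a0 * p.2.1 b0)
      - ((0 : ℝ) : ℂ) * (h.2.2.2 2 * p.2.2.1 c0)) = 0 at h1
    rw [d1, d2, c3_zero_left, c3_zero_right] at h1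
    push_cast at h1
    have h2 : (s : ℂ) * (p.1 a0 * h.2.1 b0 + h.1 a0 * p.2.1 b0) = 0 := by
      linear_combination h1
    exact (mul_eq_zero.1 h2).resolve_left hs'
  obtain ⟨q1, q2, q3⟩ := K123_cor hu0 hv0 hw0 g1 g2 g3
  have r1 : h.1 = 0 := by
    funext a
    by_cases h1 : a = a0
    · rw [h1]
      exact q1
    · have h2 := congrFun d1 a
      rwa [K123_scl_ne h1] at h2
  have r2 : h.2.1 = 0 := by
    funext b
    by_cases h1 : b = b0
    · rw [h1]
      exact q2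
    · have h2 := congrFun d2 b
      rwa [K123_scl_ne h1] at h2
  have r3 : h.2.2.1 = 0 := by
    funext c
    by_cases h1 : c = c0
    · rw [h1]
      exact q3
    · have h2 := congrFun d3 c
      rwa [K123_scl_ne h1] at h2
  have r4 : h.2.2.2 = 0 := by
    funext i
    fin_cases i
    · exact l0
    · exact l1
    · exact l2
  exact Prod.ext r1 (Prod.ext r2 (Prod.ext r3 r4))

/-- The kernel at the limit parameters `zM`.

Proof. Let `dloc zM p h = 0`, `h = (du, dv, dw, dl)`. The last components of `ll` say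
`du a0 = dv b0 = dw c0 = 0`. The components of `lb1`, `lb2`, `lb3` at the corners (`m = 0`, `k = 1`,
`g = 1`) are then `- dl i * 1 = 0`. For `a ≠ a0`, `a ∈ SA` the first component of `dloc` is
`c1 T (scl b0 1 0 dv) .. a + c1 T .. (scl c0 1 0 dw) a - l 0 * du a - dl 0 * u a`, where
`scl b0 1 0 dv = 0` and `scl c0 1 0 dw = 0`, and `l 0 = s ≠ 0`, so `du a = 0`; outside of `SA` use
`ll`. -/
theorem KM (hs : s ≠ 0) (ha : a0 ∈ SA) (hb : b0 ∈ SB) (hc : c0 ∈ SC)
    (hu : p.1 a0 = 1) (hv : p.2.1 b0 = 1) (hw : p.2.2.1 c0 = 1)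
    (hl : ∀ i, p.2.2.2 i = (s : ℂ)) (h : Pt A B C)
    (hk : dloc T a0 b0 c0 s SA SB SC a0 b0 c0 zM p h = 0) : h = 0 := by
  obtain ⟨x1, x2, x3, y1, y2, y3⟩ := K123_ex hk
  have hs' : (s : ℂ) ≠ 0 := by exact_mod_cast hs
  have d1 : scl a0 1 0 h.1 = 0 := by
    funext a
    by_cases h1 : a = a0
    · subst h1
      simp [scl, y1]
    · simp [scl, h1]
  have d2 : scl b0 1 0 h.2.1 = 0 := by
    funext b
    by_cases h1 : b = b0
    · subst h1
      simp [scl, y2]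
    · simp [scl, h1]
  have d3 : scl c0 1 0 h.2.2.1 = 0 := by
    funext c
    by_cases h1 : c = c0
    · subst h1
      simp [scl, y3]
    · simp [scl, h1]
  have l0 : h.2.2.2 0 = 0 := by
    have h1 := x1 a0
    simp only [lb1, if_true, true_or, add_zero] at h1
    change ((0 : ℝ) : ℂ) * c1 T (scl b0 1 0 p.2.1) (scl c0 1 0 h.2.2.1) a0
      + (s : ℂ) * ((1 : ℝ) : ℂ) * (p.2.1 b0 * h.2.2.1 c0)
      - ((1 : ℝ) : ℂ) * (p.2.2.2 0 * h.1 a0) +
      (((0 : ℝ) : ℂ) * c1 T (scl b0 1 0 h.2.1) (scl c0 1 0 p.2.2.1) a0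
      + (s : ℂ) * ((1 : ℝ) : ℂ) * (h.2.1 b0 * p.2.2.1 c0)
      - ((1 : ℝ) : ℂ) * (h.2.2.2 0 * p.1 a0)) = 0 at h1
    rw [y1, y2, y3, hu] at h1
    push_cast at h1
    linear_combination -h1
  have l1 : h.2.2.2 1 = 0 := by
    have h1 := x2 b0
    simp only [lb2, if_true, true_or, add_zero] at h1
    change ((0 : ℝ) : ℂ) * c2 T (scl a0 1 0 p.1) (scl c0 1 0 h.2.2.1) b0
      + (s : ℂ) * ((1 : ℝ) : ℂ) * (p.1 a0 * h.2.2.1 c0)
      - ((1 : ℝ) : ℂ) * (p.2.2.2 1 * h.2.1 b0) +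
      (((0 : ℝ) : ℂ) * c2 T (scl a0 1 0 h.1) (scl c0 1 0 p.2.2.1) b0
      + (s : ℂ) * ((1 : ℝ) : ℂ) * (h.1 a0 * p.2.2.1 c0)
      - ((1 : ℝ) : ℂ) * (h.2.2.2 1 * p.2.1 b0)) = 0 at h1
    rw [y1, y2, y3, hv] at h1
    push_cast at h1
    linear_combination -h1
  have l2 : h.2.2.2 2 = 0 := by
    have h1 := x3 c0
    simp only [lb3, if_true, true_or, add_zero] at h1
    change ((0 : ℝ) : ℂ) * c3 T (scl a0 1 0 p.1) (scl b0 1 0 h.2.1) c0
      + (s : ℂ) * ((1 : ℝ) : ℂ) * (p.1 a0 * h.2.1 b0)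
      - ((1 : ℝ) : ℂ) * (p.2.2.2 2 * h.2.2.1 c0) +
      (((0 : ℝ) : ℂ) * c3 T (scl a0 1 0 h.1) (scl b0 1 0 p.2.1) c0
      + (s : ℂ) * ((1 : ℝ) : ℂ) * (h.1 a0 * p.2.1 b0)
      - ((1 : ℝ) : ℂ) * (h.2.2.2 2 * p.2.2.1 c0)) = 0 at h1
    rw [y1, y2, y3, hw] at h1
    push_cast at h1
    linear_combination -h1
  have r1 : h.1 = 0 := by
    funext a
    by_cases h1 : a = a0
    · rw [h1]
      exact y1
    · by_cases h2 : a ∈ SA
      · have h3 := x1 a
        simp only [lb1, if_neg h1, if_pos h2, h2, or_true, if_true, add_zero] at h3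
        change c1 T (scl b0 1 0 p.2.1) (scl c0 1 0 h.2.2.1) a - p.2.2.2 0 * h.1 a +
          (c1 T (scl b0 1 0 h.2.1) (scl c0 1 0 p.2.2.1) a - h.2.2.2 0 * p.1 a) = 0 at h3
        rw [d2, d3, c1_zero_left, c1_zero_right, l0, hl 0] at h3
        have h4 : (s : ℂ) * h.1 a = 0 := by linear_combination -h3
        exact (mul_eq_zero.1 h4).resolve_left hs'
      · have h3 := x1 a
        simp only [lb1, if_neg h1, if_neg h2, h1, h2, or_self, if_false, add_zero, zero_add] at h3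
        exact h3
  have r2 : h.2.1 = 0 := by
    funext b
    by_cases h1 : b = b0
    · rw [h1]
      exact y2
    · by_cases h2 : b ∈ SB
      · have h3 := x2 b
        simp only [lb2, if_neg h1, if_pos h2, h2, or_true, if_true, add_zero] at h3
        change c2 T (scl a0 1 0 p.1) (scl c0 1 0 h.2.2.1) b - p.2.2.2 1 * h.2.1 b +
          (c2 T (scl a0 1 0 h.1) (scl c0 1 0 p.2.2.1) b - h.2.2.2 1 * p.2.1 b) = 0 at h3
        rw [d1, d3, c2_zero_left, c2_zero_right, l1, hl 1] at h3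
        have h4 : (s : ℂ) * h.2.1 b = 0 := by linear_combination -h3
        exact (mul_eq_zero.1 h4).resolve_left hs'
      · have h3 := x2 b
        simp only [lb2, if_neg h1, if_neg h2, h1, h2, or_self, if_false, add_zero, zero_add] at h3
        exact h3
  have r3 : h.2.2.1 = 0 := by
    funext c
    by_cases h1 : c = c0
    · rw [h1]
      exact y3
    · by_cases h2 : c ∈ SC
      · have h3 := x3 c
        simp only [lb3, if_neg h1, if_pos h2, h2, or_true, if_true, add_zero] at h3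
        change c3 T (scl a0 1 0 p.1) (scl b0 1 0 h.2.1) c - p.2.2.2 2 * h.2.2.1 c +
          (c3 T (scl a0 1 0 h.1) (scl b0 1 0 p.2.1) c - h.2.2.2 2 * p.2.2.1 c) = 0 at h3
        rw [d1, d2, c3_zero_left, c3_zero_right, l2, hl 2] at h3
        have h4 : (s : ℂ) * h.2.2.1 c = 0 := by linear_combination -h3
        exact (mul_eq_zero.1 h4).resolve_left hs'
      · have h3 := x3 c
        simp only [lb3, if_neg h1, if_neg h2, h1, h2, or_self, if_false, add_zero, zero_add] at h3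
        exact h3
  have r4 : h.2.2.2 = 0 := by
    funext i
    fin_cases i
    · exact l0
    · exact l1
    · exact l2
  exact Prod.ext r1 (Prod.ext r2 (Prod.ext r3 r4))

end

end Pool.Agent.MPb0eR
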