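import Mathlib
import Pool.Agent.Lib.MP_b0e20b_ag_R.LFin
import Pool.Agent.Lib.MP_b0e20b_ag_R.Trn
import Pool.Agent.Lib.MP_b0e20b_ag_R.K123

/-!
# MP_b0e20b_ag, project R: tuples converging to a tuple without the three corners
-/

set_option autoImplicit false

open scoped BigOperators Topology
open Filter

namespace Pool.Agent.MPb0eR

section

variable {A B C : Type} [Fintype A] [Fintype B] [Fintype C] [DecidableEq A] [DecidableEq B]
  [DecidableEq C] {T : A → B → C → ℝ} {a0 : A} {b0 : B} {c0 : C} {s : ℝ} {SA : Finset A}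
  {SB : Finset B} {SC : Finset C} {L : ℕ → ℝ} {ia : A} {ib : B} {ic : C} {u : ℕ → A → ℂ}
  {v : ℕ → B → ℂ} {w : ℕ → C → ℂ} {α β γ : ℕ → ℂ} {u0 : A → ℂ} {v0 : B → ℂ} {w0 : C → ℂ}
  {α0 β0 γ0 : ℂ}

/-- A complex number with positive real square is real and not zero. -/
private theorem R123_real {x : ℂ} {r : ℝ} (hr : 0 < r) (h : x ^ 2 = (r : ℂ)) :
    x.im = 0 ∧ x ≠ 0 := by
  have h1 : x.re * x.re - x.im * x.im = r := by
    have h2 := congrArg Complex.re h
    rwa [pow_two, Complex.mul_re, Complex.ofReal_re] at h2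
  have h3 : x.re * x.im + x.im * x.re = 0 := by
    have h2 := congrArg Complex.im h
    rwa [pow_two, Complex.mul_im, Complex.ofReal_im] at h2
  have h4 : x.im = 0 := by
    by_contra h5
    have h6 : x.re * x.im = 0 := by linarith
    have h7 : x.re = 0 := (mul_eq_zero.1 h6).resolve_right h5
    rw [h7] at h1
    nlinarith [mul_self_nonneg x.im]
  refine ⟨h4, fun h5 => ?_⟩
  rw [h5, Complex.zero_re, Complex.zero_im] at h1
  linarith

/-- The limits of the scaled corner coordinates. -/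
private theorem R123_lim {X Y Z : ℕ → ℂ} {r1 r2 r3 s : ℝ} (hs : s = 1 ∨ s = -1)
    (h1 : Tendsto (fun n => Y n * Z n) uf (𝓝 ((-(s * r1) : ℝ) : ℂ)))
    (h2 : Tendsto (fun n => X n * Z n) uf (𝓝 ((-(s * r2) : ℝ) : ℂ)))
    (h3 : Tendsto (fun n => X n * Y n) uf (𝓝 ((-(s * r3) : ℝ) : ℂ)))
    (hg : s * (r1 * r2 * r3) < 0) :
    ∃ X0 Y0 Z0 : ℂ, Tendsto X uf (𝓝 X0) ∧ Tendsto Y uf (𝓝 Y0) ∧ Tendsto Z uf (𝓝 Z0) ∧
      X0.im = 0 ∧ Y0.im = 0 ∧ Z0.im = 0 ∧ X0 ≠ 0 ∧ Y0 ≠ 0 ∧ Z0 ≠ 0 := by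
  have hr : r1 ≠ 0 ∧ r2 ≠ 0 ∧ r3 ≠ 0 := by
    refine ⟨?_, ?_, ?_⟩ <;> rintro rfl <;> simp at hg
  obtain ⟨n1, n2, n3⟩ := hr
  have hs0 : s ≠ 0 := by rcases hs with rfl | rfl <;> norm_num
  have hss : s * s = 1 := by rcases hs with rfl | rfl <;> norm_num
  have m1 : (-(s * r1) : ℝ) ≠ 0 := neg_ne_zero.2 (mul_ne_zero hs0 n1)
  have m2 : (-(s * r2) : ℝ) ≠ 0 := neg_ne_zero.2 (mul_ne_zero hs0 n2)
  have m3 : (-(s * r3) : ℝ) ≠ 0 := neg_ne_zero.2 (mul_ne_zero hs0 n3)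
  have k1 : ((-(s * r1) : ℝ) : ℂ) ≠ 0 := Complex.ofReal_ne_zero.2 m1
  have k2 : ((-(s * r2) : ℝ) : ℂ) ≠ 0 := Complex.ofReal_ne_zero.2 m2
  have k3 : ((-(s * r3) : ℝ) : ℂ) ≠ 0 := Complex.ofReal_ne_zero.2 m3
  have hne := h1.eventually_ne k1
  have hP : 0 < (-(s * r3)) * (-(s * r2)) / (-(s * r1)) := by
    have e1 : (-(s * r3)) * (-(s * r2)) / (-(s * r1)) = -(s * (r1 * r2 * r3)) / (r1 * r1) := by
      rw [div_eq_div_iff m1 (mul_ne_zero n1 n1)]
      ring
    rw [e1]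
    exact div_pos (neg_pos.2 hg) (mul_self_pos.2 n1)
  have hX2 : Tendsto (fun n => X n ^ 2) uf
      (𝓝 (((-(s * r3)) * (-(s * r2)) / (-(s * r1)) : ℝ) : ℂ)) := by
    have e1 := (h3.mul h2).div h1 k1
    rw [Complex.ofReal_div, Complex.ofReal_mul]
    refine e1.congr' ?_
    filter_upwards [hne] with n hn
    change X n * Y n * (X n * Z n) / (Y n * Z n) = X n ^ 2
    rw [div_eq_iff hn]
    ring
  obtain ⟨X0, hX0⟩ := ulim_c X ((-(s * r3)) * (-(s * r2)) / (-(s * r1)) + 2) (by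
    have e1 := hX2.norm
    rw [Complex.norm_real, Real.norm_eq_abs, abs_of_pos hP] at e1
    filter_upwards [e1.eventually (gt_mem_nhds (lt_add_one _))] with n hn
    rw [norm_pow] at hn
    nlinarith [sq_nonneg (‖X n‖ - 1), norm_nonneg (X n)])
  have hXP : X0 ^ 2 = (((-(s * r3)) * (-(s * r2)) / (-(s * r1)) : ℝ) : ℂ) :=
    tendsto_nhds_unique (hX0.pow 2) hX2
  obtain ⟨hXi, hXn⟩ := R123_real hP hXP
  have hXr : X0 = ((X0.re : ℝ) : ℂ) := Complex.ext (Complex.ofReal_re _).symm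
    (by rw [Complex.ofReal_im]; exact hXi)
  have hXe := hX0.eventually_ne hXn
  refine ⟨X0, ((-(s * r3) : ℝ) : ℂ) / X0, ((-(s * r2) : ℝ) : ℂ) / X0, hX0, ?_, ?_, hXi, ?_, ?_,
    hXn, div_ne_zero k3 hXn, div_ne_zero k2 hXn⟩
  · refine (h3.div hX0 hXn).congr' ?_
    filter_upwards [hXe] with n hn
    exact mul_div_cancel_left₀ _ hn
  · refine (h2.div hX0 hXn).congr' ?_
    filter_upwards [hXe] with n hn
    exact mul_div_cancel_left₀ _ hn
  · rw [hXr, ← Complex.ofReal_div, Complex.ofReal_im]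
  · rw [hXr, ← Complex.ofReal_div, Complex.ofReal_im]

omit [Fintype A] in
private theorem R123_scl {a0 : A} {δ R : ℝ} (h : δ * R = 1) (u : A → ℂ) :
    scl a0 δ 1 (Function.update u a0 ((R : ℂ) * u a0)) = u := by
  funext a
  by_cases h1 : a = a0
  · subst h1
    rw [scl, if_pos rfl, Function.update_self, ← mul_assoc, ← Complex.ofReal_mul, h,
      Complex.ofReal_one, one_mul]
  · rw [scl, if_neg h1, Function.update_of_ne h1, Complex.ofReal_one, one_mul]

omit [Fintype A] in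
private theorem R123_scl0 {a0 : A} {X : ℂ} {u : A → ℂ} (h : u a0 = 0) :
    scl a0 0 1 (Function.update u a0 X) = u := by
  funext a
  by_cases h1 : a = a0
  · subst h1
    rw [scl, if_pos rfl, Complex.ofReal_zero, zero_mul, h]
  · rw [scl, if_neg h1, Function.update_of_ne h1, Complex.ofReal_one, one_mul]

omit [Fintype A] in
private theorem R123_rea {a0 : A} {X : ℂ} {u : A → ℂ} (h : Rea u) (hX : X.im = 0) :
    Rea (Function.update u a0 X) := by
  intro a
  by_cases h1 : a = a0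
  · subst h1
    rw [Function.update_self]
    exact hX
  · rw [Function.update_of_ne h1]
    exact h a

omit [Fintype A] in
private theorem R123_rscl {a0 : A} {e f : ℝ} {u : A → ℂ} (h : Rea u) : Rea (scl a0 e f u) := by
  intro a
  rw [scl, Complex.im_ofReal_mul, h a, mul_zero]

/-- The product of the two other scaled corner coordinates. -/
private theorem R123_prod {R L s : ℝ} (hR : R * R = L) (hs : s * s = 1) {c m x y z : ℂ}
    (h : c + ((s * L : ℝ) : ℂ) * (y * z) = m * x) :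
    (R : ℂ) * y * ((R : ℂ) * z) = (s : ℂ) * (m * x - c) := by
  have h1 : ((s : ℂ)) * s = 1 := by
    rw [← Complex.ofReal_mul, hs, Complex.ofReal_one]
  have h2 : (R : ℂ) * R = (L : ℂ) := by
    rw [← Complex.ofReal_mul, hR]
  rw [← h, Complex.ofReal_mul]
  linear_combination (y * z) * h2 - ((L : ℂ) * (y * z)) * h1

private theorem R123_plim {s r : ℝ} {P g : ℕ → ℂ} {m x : ℕ → ℂ} {m0 : ℂ} {g0 : ℂ}
    (hP : ∀ n, P n = (s : ℂ) * (m n * x n - g n)) (hm : Tendsto m uf (𝓝 m0))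
    (hx : Tendsto x uf (𝓝 0)) (hg : Tendsto g uf (𝓝 g0)) (hr : g0 = (r : ℂ)) :
    Tendsto P uf (𝓝 ((-(s * r) : ℝ) : ℂ)) := by
  have h1 := ((hm.mul hx).sub hg).const_mul (s : ℂ)
  have h2 : (s : ℂ) * (m0 * 0 - g0) = ((-(s * r) : ℝ) : ℂ) := by
    rw [hr, mul_zero, zero_sub, Complex.ofReal_neg, Complex.ofReal_mul]
    ring
  rw [h2] at h1
  exact h1.congr fun n => (hP n).symm

/-- Singular tuples of the tensors with the large corner entry `s * L n` which converge to a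
singular tuple of the mask without the three corners are eventually real and nondegenerate, with
nonzero corner coordinates, if the sign condition `hg` holds.

Proof. Put `δ n = (L n)^(-1/2)`, `X n = u n a0 / δ n`, `Y n = v n b0 / δ n`, `Z n = w n c0 / δ n`.
The equations at the corners (`c1_ad` etc.) are `c1 T v w a0 + s Y Z = α u(a0)`,
`c2 T u w b0 + s X Z = β v(b0)`, `c3 T u v c0 + s X Y = γ w(c0)`, with right-hand sides tending to
`0`. With `g1 = c1 T v0 w0 a0`, `g2 = c2 T u0 w0 b0`, `g3 = c3 T u0 v0 c0` (real by `FR`, `Rl.rea`,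
and nonzero by `hg`) we get `Y Z → - s g1`, `X Z → - s g2`, `X Y → - s g3`, so
`X² = (X Y)(X Z)/(Y Z) → - s g2 g3 / g1`, a positive real number by `hg`
(`s g1 g2 g3 < 0`). So `X n` is bounded, converges along `uf` to `X0` (`ulim_c`), `X0² > 0`, so `X0`
is real and nonzero; `Y n = (X Y)/X` and `Z n` converge to real nonzero numbers. Let `p n` have the
vectors `u n`, `v n`, `w n` with the corner coordinates replaced by `X n`, `Y n`, `Z n` and the
multipliers `![α n, β n, γ n]`, and `z n = fun _ => ![δ, 1, 1, 1, δ]`; `Sc (L n) (z n)` as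
`L δ² = 1`. (`ia ≠ a0` and so on.) So `loc (z n) (p n) = 0` (`trn_loc`), `z n → z123`,
`p n → p0` with `ReP p0` (`Tup.re`). `K123` and `loc_fin`: eventually `p n` is real and the kernel
of `dloc (z n) (p n)` is trivial, so `Nd` by `trn_nd`; `α n ≠ 0` because `α0 ≠ 0` (`FR`), and
the corner coordinates are nonzero eventually. -/
theorem R123 (hs : s = 1 ∨ s = -1) (ha : a0 ∈ SA) (hb : b0 ∈ SB) (hc : c0 ∈ SC)
    (h : Sq T a0 b0 c0 s SA SB SC L ia ib ic u v w α β γ) (lv : Lv u v w u0 v0 w0)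
    (lc : Lc α β γ α0 β0 γ0)
    (ht : Tup T (SA.erase a0) (SB.erase b0) (SC.erase c0) u0 v0 w0 α0 β0 γ0)
    (hf : FR T (SA.erase a0) (SB.erase b0) (SC.erase c0))
    (hg : (s * (c1 T v0 w0 a0 * c2 T u0 w0 b0 * c3 T u0 v0 c0)).re < 0) :
    ∀ᶠ n in uf, Okc T a0 b0 c0 s SA SB SC (L n) (u n) (v n) (w n) (α n) (β n) (γ n) := by
  have hs0 : s ≠ 0 := by rcases hs with rfl | rfl <;> norm_num
  have hss : s * s = 1 := by rcases hs with rfl | rfl <;> norm_num
  have nu0 := Nrm.lim h.nu lv.hu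
  have nv0 := Nrm.lim h.nv lv.hv
  have nw0 := Nrm.lim h.nw lv.hw
  have ok := hf u0 v0 w0 α0 β0 γ0 ht nu0.ne nv0.ne nw0.ne
  have ru := ok.ru.rea nu0.1
  have rv := ok.rv.rea nv0.1
  have rw' := ok.rw'.rea nw0.1
  have ua : u0 a0 = 0 := ht.su a0 (Finset.notMem_erase a0 SA)
  have vb : v0 b0 = 0 := ht.sv b0 (Finset.notMem_erase b0 SB)
  have wc : w0 c0 = 0 := ht.sw c0 (Finset.notMem_erase c0 SC)
  have hia : ia ≠ a0 := by
    rintro rfl
    exact zero_ne_one (ua.symm.trans nu0.1)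
  have hib : ib ≠ b0 := by
    rintro rfl
    exact zero_ne_one (vb.symm.trans nv0.1)
  have hic : ic ≠ c0 := by
    rintro rfl
    exact zero_ne_one (wc.symm.trans nw0.1)
  obtain ⟨rα, rβ, rγ⟩ := ht.re nu0.1 nv0.1 nw0.1 ru rv rw'
  have g1 := c1_re T v0 w0 rv rw' a0
  have g2 := c2_re T u0 w0 ru rw' b0
  have g3 := c3_re T u0 v0 ru rv c0
  have q1 : c1 T v0 w0 a0 = (((c1 T v0 w0 a0).re : ℝ) : ℂ) :=
    Complex.ext (Complex.ofReal_re _).symm (by rw [Complex.ofReal_im]; exact g1)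
  have q2 : c2 T u0 w0 b0 = (((c2 T u0 w0 b0).re : ℝ) : ℂ) :=
    Complex.ext (Complex.ofReal_re _).symm (by rw [Complex.ofReal_im]; exact g2)
  have q3 : c3 T u0 v0 c0 = (((c3 T u0 v0 c0).re : ℝ) : ℂ) :=
    Complex.ext (Complex.ofReal_re _).symm (by rw [Complex.ofReal_im]; exact g3)
  have hg' : s * ((c1 T v0 w0 a0).re * (c2 T u0 w0 b0).re * (c3 T u0 v0 c0).re) < 0 := by
    rw [q1, q2, q3, ← Complex.ofReal_mul, ← Complex.ofReal_mul, ← Complex.ofReal_mul,
      Complex.ofReal_re] at hg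
    exact hg
  have hRR : ∀ n, Real.sqrt (L n) * Real.sqrt (L n) = L n := fun n =>
    Real.mul_self_sqrt (h.pos n).le
  have hR0 : ∀ n, 0 < Real.sqrt (L n) := fun n => Real.sqrt_pos.2 (h.pos n)
  have lu : Tendsto (fun n => u n a0) uf (𝓝 0) := by
    have e1 := (tendsto_pi_nhds.1 lv.hu) a0
    rwa [ua] at e1
  have lvb : Tendsto (fun n => v n b0) uf (𝓝 0) := by
    have e1 := (tendsto_pi_nhds.1 lv.hv) b0
    rwa [vb] at e1
  have lw : Tendsto (fun n => w n c0) uf (𝓝 0) := by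
    have e1 := (tendsto_pi_nhds.1 lv.hw) c0
    rwa [wc] at e1
  have p1 : Tendsto (fun n => ((Real.sqrt (L n) : ℝ) : ℂ) * v n b0 *
      (((Real.sqrt (L n) : ℝ) : ℂ) * w n c0)) uf
      (𝓝 ((-(s * (c1 T v0 w0 a0).re) : ℝ) : ℂ)) := by
    refine R123_plim (g := fun n => c1 T (v n) (w n) a0) (m := α) (x := fun n => u n a0)
      (fun n => ?_) lc.hα lu (lim_c1 lv.hv lv.hw a0) q1
    refine R123_prod (hRR n) hss ?_
    have e1 := (h.tup n).e1 a0 ha
    rwa [c1_ad, if_pos rfl] at e1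
  have p2 : Tendsto (fun n => ((Real.sqrt (L n) : ℝ) : ℂ) * u n a0 *
      (((Real.sqrt (L n) : ℝ) : ℂ) * w n c0)) uf
      (𝓝 ((-(s * (c2 T u0 w0 b0).re) : ℝ) : ℂ)) := by
    refine R123_plim (g := fun n => c2 T (u n) (w n) b0) (m := β) (x := fun n => v n b0)
      (fun n => ?_) lc.hβ lvb (lim_c2 lv.hu lv.hw b0) q2
    refine R123_prod (hRR n) hss ?_
    have e1 := (h.tup n).e2 b0 hb
    rwa [c2_ad, if_pos rfl] at e1
  have p3 : Tendsto (fun n => ((Real.sqrt (L n) : ℝ) : ℂ) * u n a0 *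
      (((Real.sqrt (L n) : ℝ) : ℂ) * v n b0)) uf
      (𝓝 ((-(s * (c3 T u0 v0 c0).re) : ℝ) : ℂ)) := by
    refine R123_plim (g := fun n => c3 T (u n) (v n) c0) (m := γ) (x := fun n => w n c0)
      (fun n => ?_) lc.hγ lw (lim_c3 lv.hu lv.hv c0) q3
    refine R123_prod (hRR n) hss ?_
    have e1 := (h.tup n).e3 c0 hc
    rwa [c3_ad, if_pos rfl] at e1
  obtain ⟨X0, Y0, Z0, hX, hY, hZ, iX, iY, iZ, nX, nY, nZ⟩ := R123_lim hs p1 p2 p3 hg'
  -- the scaled points
  set z : ℕ → Fin 3 → Fin 5 → ℝ := fun n _ =>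
    ![(Real.sqrt (L n))⁻¹, 1, 1, 1, (Real.sqrt (L n))⁻¹] with hz
  set p : ℕ → Pt A B C := fun n =>
    (Function.update (u n) a0 (((Real.sqrt (L n) : ℝ) : ℂ) * u n a0),
      Function.update (v n) b0 (((Real.sqrt (L n) : ℝ) : ℂ) * v n b0),
      Function.update (w n) c0 (((Real.sqrt (L n) : ℝ) : ℂ) * w n c0),
      ![α n, β n, γ n]) with hp
  have hδ : ∀ n, (Real.sqrt (L n))⁻¹ * Real.sqrt (L n) = 1 := fun n =>
    inv_mul_cancel₀ (hR0 n).ne'
  have hδδ : ∀ n, L n * (Real.sqrt (L n))⁻¹ * (Real.sqrt (L n))⁻¹ = 1 := by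
    intro n
    have e1 := hδ n
    have e2 := hRR n
    calc L n * (Real.sqrt (L n))⁻¹ * (Real.sqrt (L n))⁻¹
        = (Real.sqrt (L n) * Real.sqrt (L n)) * (Real.sqrt (L n))⁻¹ *
          (Real.sqrt (L n))⁻¹ := by rw [e2]
      _ = ((Real.sqrt (L n))⁻¹ * Real.sqrt (L n)) * ((Real.sqrt (L n))⁻¹ *
          Real.sqrt (L n)) := by ring
      _ = 1 := by rw [e1, mul_one]
  have hSc : ∀ n, Sc (L n) (z n) := by
    intro n
    have e0 : (Real.sqrt (L n))⁻¹ ≠ 0 := inv_ne_zero (hR0 n).ne'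
    refine ⟨fun _ => e0, fun _ => one_ne_zero, fun _ => one_ne_zero, ?_, ?_, ?_, fun _ => ?_⟩
    · change (1 : ℝ) = 1 * L n * (Real.sqrt (L n))⁻¹ * (Real.sqrt (L n))⁻¹
      rw [one_mul, hδδ]
    · change (1 : ℝ) = 1 * L n * (Real.sqrt (L n))⁻¹ * (Real.sqrt (L n))⁻¹
      rw [one_mul, hδδ]
    · change (1 : ℝ) = 1 * L n * (Real.sqrt (L n))⁻¹ * (Real.sqrt (L n))⁻¹
      rw [one_mul, hδδ]
    · change (Real.sqrt (L n))⁻¹ * 1 = 1 * (Real.sqrt (L n))⁻¹
      rw [one_mul, mul_one]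
  have s1 : ∀ n, scl a0 (z n 0 0) (z n 0 1) (p n).1 = u n := fun n => R123_scl (hδ n) (u n)
  have s2 : ∀ n, scl b0 (z n 1 0) (z n 1 1) (p n).2.1 = v n := fun n => R123_scl (hδ n) (v n)
  have s3 : ∀ n, scl c0 (z n 2 0) (z n 2 1) (p n).2.2.1 = w n := fun n => R123_scl (hδ n) (w n)
  have t1 : ∀ n, (p n).2.2.2 0 / (z n 0 1 : ℂ) = α n := by
    intro n
    change α n / ((1 : ℝ) : ℂ) = α n
    rw [Complex.ofReal_one, div_one]
  have t2 : ∀ n, (p n).2.2.2 1 / (z n 1 1 : ℂ) = β n := by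
    intro n
    change β n / ((1 : ℝ) : ℂ) = β n
    rw [Complex.ofReal_one, div_one]
  have t3 : ∀ n, (p n).2.2.2 2 / (z n 2 1 : ℂ) = γ n := by
    intro n
    change γ n / ((1 : ℝ) : ℂ) = γ n
    rw [Complex.ofReal_one, div_one]
  have hT : ∀ n, Tup (ad T a0 b0 c0 (s * L n)) SA SB SC (scl a0 (z n 0 0) (z n 0 1) (p n).1)
      (scl b0 (z n 1 0) (z n 1 1) (p n).2.1) (scl c0 (z n 2 0) (z n 2 1) (p n).2.2.1)
      ((p n).2.2.2 0 / (z n 0 1 : ℂ)) ((p n).2.2.2 1 / (z n 1 1 : ℂ))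
      ((p n).2.2.2 2 / (z n 2 1 : ℂ)) := by
    intro n
    rw [s1, s2, s3, t1, t2, t3]
    exact h.tup n
  have v1 : ∀ n, (p n).1 ia = 1 := by
    intro n
    change Function.update (u n) a0 _ ia = 1
    rw [Function.update_of_ne hia]
    exact (h.nu n).1
  have v2 : ∀ n, (p n).2.1 ib = 1 := by
    intro n
    change Function.update (v n) b0 _ ib = 1
    rw [Function.update_of_ne hib]
    exact (h.nv n).1
  have v3 : ∀ n, (p n).2.2.1 ic = 1 := by
    intro n
    change Function.update (w n) c0 _ ic = 1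
    rw [Function.update_of_ne hic]
    exact (h.nw n).1
  have hloc : ∀ n, loc T a0 b0 c0 s SA SB SC ia ib ic (z n) (p n) = 0 := fun n =>
    trn_loc (hSc n) ha hb hc (hT n) (v1 n) (v2 n) (v3 n)
  -- the limits
  have lδ : Tendsto (fun n => (Real.sqrt (L n))⁻¹) uf (𝓝 0) :=
    tendsto_inv_atTop_zero.comp (Real.tendsto_sqrt_atTop.comp h.hL)
  have lz : Tendsto z uf (𝓝 z123) := by
    refine tendsto_pi_nhds.2 fun i => tendsto_pi_nhds.2 fun j => ?_
    fin_cases j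
    · exact lδ
    · exact tendsto_const_nhds
    · exact tendsto_const_nhds
    · exact tendsto_const_nhds
    · exact lδ
  have lp : Tendsto p uf (𝓝 (Function.update u0 a0 X0, Function.update v0 b0 Y0,
      Function.update w0 c0 Z0, ![α0, β0, γ0])) := by
    refine (lv.hu.update a0 hX).prodMk_nhds ((lv.hv.update b0 hY).prodMk_nhds
      ((lv.hw.update c0 hZ).prodMk_nhds ?_))
    refine tendsto_pi_nhds.2 fun i => ?_
    fin_cases i
    · exact lc.hα
    · exact lc.hβ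
    · exact lc.hγ
  have hre : ReP ((Function.update u0 a0 X0, Function.update v0 b0 Y0,
      Function.update w0 c0 Z0, ![α0, β0, γ0]) : Pt A B C) := by
    refine ⟨R123_rea ru iX, R123_rea rv iY, R123_rea rw' iZ, fun i => ?_⟩
    fin_cases i
    · exact rα
    · exact rβ
    · exact rγ
  have hk : ∀ k, dloc T a0 b0 c0 s SA SB SC ia ib ic z123 (Function.update u0 a0 X0,
      Function.update v0 b0 Y0, Function.update w0 c0 Z0, ![α0, β0, γ0]) k = 0 → k = 0 := by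
    intro k hk
    have r1 : scl a0 0 1 (Function.update u0 a0 X0) = u0 := R123_scl0 ua
    have r2 : scl b0 0 1 (Function.update v0 b0 Y0) = v0 := R123_scl0 vb
    have r3 : scl c0 0 1 (Function.update w0 c0 Z0) = w0 := R123_scl0 wc
    refine K123 hs0 ha hb hc (p := (Function.update u0 a0 X0, Function.update v0 b0 Y0,
      Function.update w0 c0 Z0, ![α0, β0, γ0])) ?_ ?_ hia hib hic ?_ ?_ ?_ ?_ ?_ ?_ k hk
    · change Tup T _ _ _ (scl a0 0 1 (Function.update u0 a0 X0))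
        (scl b0 0 1 (Function.update v0 b0 Y0)) (scl c0 0 1 (Function.update w0 c0 Z0)) α0 β0 γ0
      rw [r1, r2, r3]
      exact ht
    · change Nd T _ _ _ (scl a0 0 1 (Function.update u0 a0 X0))
        (scl b0 0 1 (Function.update v0 b0 Y0)) (scl c0 0 1 (Function.update w0 c0 Z0)) α0 β0 γ0
      rw [r1, r2, r3]
      exact ok.nd
    · change Function.update u0 a0 X0 ia = 1
      rw [Function.update_of_ne hia]
      exact nu0.1
    · change Function.update v0 b0 Y0 ib = 1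
      rw [Function.update_of_ne hib]
      exact nv0.1
    · change Function.update w0 c0 Z0 ic = 1
      rw [Function.update_of_ne hic]
      exact nw0.1
    · change Function.update u0 a0 X0 a0 ≠ 0
      rw [Function.update_self]
      exact nX
    · change Function.update v0 b0 Y0 b0 ≠ 0
      rw [Function.update_self]
      exact nY
    · change Function.update w0 c0 Z0 c0 ≠ 0
      rw [Function.update_self]
      exact nZ
  have hfin := loc_fin T a0 b0 c0 s SA SB SC ia ib ic z z123 p _ lz lp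
    (Eventually.of_forall hloc) hre hk
  filter_upwards [hfin, lc.hα.eventually_ne ok.hα, lc.hβ.eventually_ne ok.hβ,
    lc.hγ.eventually_ne ok.hγ, hX.eventually_ne nX, hY.eventually_ne nY, hZ.eventually_ne nZ]
    with n hn aα aβ aγ aX aY aZ
  obtain ⟨⟨d1, d2, d3, -⟩, hkn⟩ := hn
  have hnd := trn_nd (hSc n) ha hb hc (hT n) (v1 n) (v2 n) (v3 n) hkn
  rw [s1, s2, s3, t1, t2, t3] at hnd
  have f1 : Rea (u n) := by
    rw [← s1 n]
    exact R123_rscl d1
  have f2 : Rea (v n) := by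
    rw [← s2 n]
    exact R123_rscl d2
  have f3 : Rea (w n) := by
    rw [← s3 n]
    exact R123_rscl d3
  exact ⟨⟨f1.rl, f2.rl, f3.rl, aα, aβ, aγ, hnd⟩, right_ne_zero_of_mul aX,
    right_ne_zero_of_mul aY, right_ne_zero_of_mul aZ⟩

end

end Pool.Agent.MPb0eR
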