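import Mathlib
import Pool.Agent.Lib.MP_b0e20b_ag_R.LFin
import Pool.Agent.Lib.MP_b0e20b_ag_R.Trn
import Pool.Agent.Lib.MP_b0e20b_ag_R.K123

/-!
# MP_b0e20b_ag, project R: tuples converging to the corner
-/

set_option autoImplicit false

open scoped BigOperators Topology
open Filter

namespace Pool.Agent.MPb0eR

section

variable {A B C : Type} [Fintype A] [Fintype B] [Fintype C] [DecidableEq A] [DecidableEq B]
  [DecidableEq C] {T : A → B → C → ℝ} {a0 : A} {b0 : B} {c0 : C} {s : ℝ} {SA : Finset A}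
  {SB : Finset B} {SC : Finset C} {L : ℕ → ℝ} {ia : A} {ib : B} {ic : C} {u : ℕ → A → ℂ}
  {v : ℕ → B → ℂ} {w : ℕ → C → ℂ} {α β γ : ℕ → ℂ} {u0 : A → ℂ} {v0 : B → ℂ} {w0 : C → ℂ}

/-- The multiplier divided by `L n` tends to `s`. -/
private theorem RM_mul {x : ℕ → ℂ} {x0 : ℂ} {r : ℕ → ℂ} (hL : Tendsto L uf atTop)
    (pos : ∀ n, 0 < L n) (hx : Tendsto x uf (𝓝 x0))
    (he : ∀ n, r n = x n + ((s * L n : ℝ) : ℂ)) :
    Tendsto (fun n => r n / (L n : ℂ)) uf (𝓝 (s : ℂ)) := by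
  have h1 : Tendsto (fun n => ((L n)⁻¹ : ℝ)) uf (𝓝 0) := tendsto_inv_atTop_zero.comp hL
  have h2 : Tendsto (fun n => (((L n)⁻¹ : ℝ) : ℂ)) uf (𝓝 ((0 : ℝ) : ℂ)) :=
    (Complex.continuous_ofReal.tendsto 0).comp h1
  have h3 : Tendsto (fun n => x n * (((L n)⁻¹ : ℝ) : ℂ) + (s : ℂ)) uf
      (𝓝 (x0 * ((0 : ℝ) : ℂ) + (s : ℂ))) := (hx.mul h2).add tendsto_const_nhds
  rw [Complex.ofReal_zero, mul_zero, zero_add] at h3
  refine h3.congr fun n => ?_
  have h4 : (L n : ℂ) ≠ 0 := by exact_mod_cast (pos n).ne'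
  rw [he n]
  push_cast
  field_simp

/-- The coordinates multiplied by `L n` converge. -/
private theorem RM_vec {D : Type} [Fintype D] [DecidableEq D] {d0 : D} {S : Finset D}
    {x : ℕ → D → ℂ} {r : ℕ → ℂ} {y : ℕ → D → ℂ} {y0 : D → ℝ} (hs : s ≠ 0)
    (pos : ∀ n, 0 < L n) (hr : Tendsto (fun n => r n / (L n : ℂ)) uf (𝓝 (s : ℂ)))
    (h1 : ∀ n, x n d0 = 1) (hS : ∀ n, Sup S (x n))
    (he : ∀ n, ∀ a ∈ S, a ≠ d0 → y n a = r n * x n a)
    (hy : ∀ a, Tendsto (fun n => y n a) uf (𝓝 (y0 a : ℂ))) :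
    Tendsto (fun n => scl d0 1 (L n) (x n)) uf
      (𝓝 (fun a => if a = d0 then 1 else if a ∈ S then ((y0 a / s : ℝ) : ℂ) else 0)) := by
  have hs' : (s : ℂ) ≠ 0 := by exact_mod_cast hs
  rw [tendsto_pi_nhds]
  intro a
  by_cases ha : a = d0
  · rw [if_pos ha]
    refine tendsto_const_nhds.congr fun n => ?_
    rw [scl, if_pos ha, ha, h1 n]
    simp
  · rw [if_neg ha]
    by_cases hS' : a ∈ S
    · rw [if_pos hS']
      have h2 := (hy a).div hr hs'
      rw [← Complex.ofReal_div] at h2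
      refine h2.congr' ?_
      filter_upwards [hr.eventually_ne hs'] with n hn
      have h4 : (L n : ℂ) ≠ 0 := by exact_mod_cast (pos n).ne'
      have h5 : r n ≠ 0 := fun h => hn (by rw [h, zero_div])
      rw [scl, if_neg ha, Pi.div_apply, he n a hS' ha]
      field_simp
    · rw [if_neg hS']
      refine tendsto_const_nhds.congr fun n => ?_
      rw [scl, hS n a hS', mul_zero]

private theorem RM_scl {D : Type} [DecidableEq D] (d0 : D) {l : ℝ} (hl : l ≠ 0) (x : D → ℂ) :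
    scl d0 1 l⁻¹ (scl d0 1 l x) = x := by
  funext a
  by_cases ha : a = d0
  · simp [scl, ha]
  · have h1 : (l : ℂ) ≠ 0 := by exact_mod_cast hl
    simp [scl, ha, h1]

private theorem RM_rea {D : Type} [DecidableEq D] {d0 : D} {l : ℝ} (hl : l ≠ 0) {x : D → ℂ}
    (h : Rea (scl d0 1 l x)) : Rea x := by
  intro a
  have h1 := h a
  by_cases ha : a = d0
  · simpa [scl, ha] using h1
  · rw [scl, if_neg ha, Complex.im_ofReal_mul] at h1
    exact (mul_eq_zero.1 h1).resolve_left hl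

private theorem RM_sin {D : Type} [DecidableEq D] {d0 : D} {x : D → ℂ} (h1 : x d0 = 1)
    (h : ∀ a, a ≠ d0 → x a = 0) : x = Pi.single d0 1 := by
  funext a
  by_cases ha : a = d0
  · rw [ha, h1, Pi.single_eq_same]
  · rw [h a ha, Pi.single_eq_of_ne ha]

private theorem RM_z (hL : Tendsto L uf atTop) :
    Tendsto (fun n => (fun _ => ![1, (L n)⁻¹, (L n)⁻¹, 1, 1] : Fin 3 → Fin 5 → ℝ)) uf (𝓝 zM) := by
  have h1 : Tendsto (fun n => ((L n)⁻¹ : ℝ)) uf (𝓝 0) := tendsto_inv_atTop_zero.comp hL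
  rw [tendsto_pi_nhds]
  intro i
  rw [tendsto_pi_nhds]
  intro j
  fin_cases j
  · exact tendsto_const_nhds
  · exact h1
  · exact h1
  · exact tendsto_const_nhds
  · exact tendsto_const_nhds

private theorem RM_Sc {l : ℝ} (hl : l ≠ 0) :
    Sc l (fun _ => ![1, l⁻¹, l⁻¹, 1, 1] : Fin 3 → Fin 5 → ℝ) := by
  refine ⟨fun i => ?_, fun i => ?_, fun i => ?_, ?_, ?_, ?_, fun i => ?_⟩
  · exact one_ne_zero
  · exact inv_ne_zero hl
  · exact inv_ne_zero hl
  · change (1 : ℝ) = l⁻¹ * l * 1 * 1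
    rw [inv_mul_cancel₀ hl]
    norm_num
  · change (1 : ℝ) = l⁻¹ * l * 1 * 1
    rw [inv_mul_cancel₀ hl]
    norm_num
  · change (1 : ℝ) = l⁻¹ * l * 1 * 1
    rw [inv_mul_cancel₀ hl]
    norm_num
  · change (1 : ℝ) * l⁻¹ = l⁻¹ * 1
    ring

/-- Singular tuples of the tensors with the large corner entry `s * L n` which converge to the
corner
are eventually real and nondegenerate, with nonzero corner coordinates.

Proof. `u0 ia = 1` (limit of `Nrm`), so `ia = a0`, similarly `ib = b0`, `ic = c0`, and the corner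
coordinates of `u n`, `v n`, `w n` are `1`. So `u0 = Pi.single a0 1` and so on. The equation at `a0`
is `c1 T v w a0 + s L = α`, so `α / L → s` (the contraction is bounded), similarly
`β / L → s`, `γ / L → s`; in particular they are nonzero eventually. For `a ∈ SA`, `a ≠ a0`:
`u n a = c1 T v w a / α`, so `L n * u n a → T a b0 c0 / s` (`c1_single`). Let `p n` have the
vectors `u n` with the coordinates `a ≠ a0` multiplied by `L n` and so on, and the multipliers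
`![α n / L n, β n / L n, γ n / L n]`, and `z n = fun _ => ![1, ε, ε, 1, 1]` with `ε = 1 / L n`;
`Sc (L n) (z n)`. So `loc (z n) (p n) = 0` (`trn_loc`), `z n → zM`, `p n → p0` with `ReP p0` and
multipliers `s`. `KM` and `loc_fin`: eventually `p n` is real and the kernel of `dloc (z n) (p n)`
is
trivial, so `Nd` by `trn_nd`. -/
theorem RM (hs : s = 1 ∨ s = -1) (ha : a0 ∈ SA) (hb : b0 ∈ SB) (hc : c0 ∈ SC)
    (h : Sq T a0 b0 c0 s SA SB SC L ia ib ic u v w α β γ) (lv : Lv u v w u0 v0 w0)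
    (hu : ∀ a, a ≠ a0 → u0 a = 0) (hv : ∀ b, b ≠ b0 → v0 b = 0) (hw : ∀ c, c ≠ c0 → w0 c = 0) :
    ∀ᶠ n in uf, Okc T a0 b0 c0 s SA SB SC (L n) (u n) (v n) (w n) (α n) (β n) (γ n) := by
  have hs0 : s ≠ 0 := by
    rcases hs with h1 | h1 <;> rw [h1] <;> norm_num
  have hs' : (s : ℂ) ≠ 0 := by exact_mod_cast hs0
  obtain rfl : ia = a0 := by
    by_contra hn
    have h1 := (Nrm.lim h.nu lv.hu).1
    rw [hu ia hn] at h1
    exact zero_ne_one h1
  obtain rfl : ib = b0 := by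
    by_contra hn
    have h1 := (Nrm.lim h.nv lv.hv).1
    rw [hv ib hn] at h1
    exact zero_ne_one h1
  obtain rfl : ic = c0 := by
    by_contra hn
    have h1 := (Nrm.lim h.nw lv.hw).1
    rw [hw ic hn] at h1
    exact zero_ne_one h1
  have eu := RM_sin (Nrm.lim h.nu lv.hu).1 hu
  have ev := RM_sin (Nrm.lim h.nv lv.hv).1 hv
  have ew := RM_sin (Nrm.lim h.nw lv.hw).1 hw
  have l1 : ∀ a, Tendsto (fun n => c1 T (v n) (w n) a) uf (𝓝 ((T a ib ic : ℝ) : ℂ)) := by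
    intro a
    have h1 := lim_c1 (T := T) lv.hv lv.hw a
    rwa [ev, ew, c1_single] at h1
  have l2 : ∀ b, Tendsto (fun n => c2 T (u n) (w n) b) uf (𝓝 ((T ia b ic : ℝ) : ℂ)) := by
    intro b
    have h1 := lim_c2 (T := T) lv.hu lv.hw b
    rwa [eu, ew, c2_single] at h1
  have l3 : ∀ c, Tendsto (fun n => c3 T (u n) (v n) c) uf (𝓝 ((T ia ib c : ℝ) : ℂ)) := by
    intro c
    have h1 := lim_c3 (T := T) lv.hu lv.hv c
    rwa [eu, ev, c3_single] at h1
  have m1 : Tendsto (fun n => α n / (L n : ℂ)) uf (𝓝 (s : ℂ)) := by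
    refine RM_mul h.hL h.pos (l1 ia) fun n => ?_
    have h1 := (h.tup n).e1 ia ha
    rw [c1_ad, if_pos rfl, (h.nu n).1, (h.nv n).1, (h.nw n).1, mul_one, mul_one, mul_one] at h1
    exact h1.symm
  have m2 : Tendsto (fun n => β n / (L n : ℂ)) uf (𝓝 (s : ℂ)) := by
    refine RM_mul h.hL h.pos (l2 ib) fun n => ?_
    have h1 := (h.tup n).e2 ib hb
    rw [c2_ad, if_pos rfl, (h.nu n).1, (h.nv n).1, (h.nw n).1, mul_one, mul_one, mul_one] at h1
    exact h1.symm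
  have m3 : Tendsto (fun n => γ n / (L n : ℂ)) uf (𝓝 (s : ℂ)) := by
    refine RM_mul h.hL h.pos (l3 ic) fun n => ?_
    have h1 := (h.tup n).e3 ic hc
    rw [c3_ad, if_pos rfl, (h.nu n).1, (h.nv n).1, (h.nw n).1, mul_one, mul_one, mul_one] at h1
    exact h1.symm
  have t1 := RM_vec (S := SA) (y := fun n => c1 T (v n) (w n)) (y0 := fun a => T a ib ic) hs0
    h.pos m1 (fun n => (h.nu n).1) (fun n => (h.tup n).su) (by
      intro n a hS hne
      have h1 := (h.tup n).e1 a hS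
      rwa [c1_ad, if_neg hne, add_zero] at h1) l1
  have t2 := RM_vec (S := SB) (y := fun n => c2 T (u n) (w n)) (y0 := fun b => T ia b ic) hs0
    h.pos m2 (fun n => (h.nv n).1) (fun n => (h.tup n).sv) (by
      intro n a hS hne
      have h1 := (h.tup n).e2 a hS
      rwa [c2_ad, if_neg hne, add_zero] at h1) l2
  have t3 := RM_vec (S := SC) (y := fun n => c3 T (u n) (v n)) (y0 := fun c => T ia ib c) hs0
    h.pos m3 (fun n => (h.nw n).1) (fun n => (h.tup n).sw) (by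
      intro n a hS hne
      have h1 := (h.tup n).e3 a hS
      rwa [c3_ad, if_neg hne, add_zero] at h1) l3
  have t4 : Tendsto (fun n => (![α n / (L n : ℂ), β n / (L n : ℂ), γ n / (L n : ℂ)] : Fin 3 → ℂ))
      uf (𝓝 (fun _ => (s : ℂ))) := by
    rw [tendsto_pi_nhds]
    intro i
    fin_cases i
    · exact m1
    · exact m2
    · exact m3
  have hp := t1.prodMk_nhds (t2.prodMk_nhds (t3.prodMk_nhds t4))
  have key : ∀ n, Tup (ad T ia ib ic (s * L n)) SA SB SC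
      (scl ia 1 (L n)⁻¹ (scl ia 1 (L n) (u n))) (scl ib 1 (L n)⁻¹ (scl ib 1 (L n) (v n)))
      (scl ic 1 (L n)⁻¹ (scl ic 1 (L n) (w n))) (α n / (L n : ℂ) / (((L n)⁻¹ : ℝ) : ℂ))
      (β n / (L n : ℂ) / (((L n)⁻¹ : ℝ) : ℂ)) (γ n / (L n : ℂ) / (((L n)⁻¹ : ℝ) : ℂ)) := by
    intro n
    have h0 := (h.pos n).ne'
    have h4 : (L n : ℂ) ≠ 0 := by exact_mod_cast h0
    have h5 : ∀ x : ℂ, x / (L n : ℂ) / (((L n)⁻¹ : ℝ) : ℂ) = x := by
      intro x
      push_cast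
      field_simp
    rw [RM_scl ia h0, RM_scl ib h0, RM_scl ic h0, h5, h5, h5]
    exact h.tup n
  have c1' : ∀ n, scl ia 1 (L n) (u n) ia = 1 := by
    intro n
    simp [scl, (h.nu n).1]
  have c2' : ∀ n, scl ib 1 (L n) (v n) ib = 1 := by
    intro n
    simp [scl, (h.nv n).1]
  have c3' : ∀ n, scl ic 1 (L n) (w n) ic = 1 := by
    intro n
    simp [scl, (h.nw n).1]
  have fin := loc_fin T ia ib ic s SA SB SC ia ib ic _ _ _ _ (RM_z h.hL) hp
    (Eventually.of_forall fun n => trn_loc (z := fun _ => ![1, (L n)⁻¹, (L n)⁻¹, 1, 1])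
      (p := (scl ia 1 (L n) (u n), scl ib 1 (L n) (v n), scl ic 1 (L n) (w n),
        ![α n / (L n : ℂ), β n / (L n : ℂ), γ n / (L n : ℂ)]))
      (RM_Sc (h.pos n).ne') ha hb hc (key n) (c1' n) (c2' n) (c3' n)) (by
      refine ⟨fun a => ?_, fun b => ?_, fun c => ?_, fun i => ?_⟩
      · dsimp only
        split_ifs <;> simp
      · dsimp only
        split_ifs <;> simp
      · dsimp only
        split_ifs <;> simp
      · simp) (KM hs0 ha hb hc (by simp) (by simp) (by simp) (fun i => rfl))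
  filter_upwards [fin, m1.eventually_ne hs', m2.eventually_ne hs', m3.eventually_ne hs']
    with n hn n1 n2 n3
  obtain ⟨⟨r1, r2, r3, -⟩, hk⟩ := hn
  have h0 := (h.pos n).ne'
  have h4 : (L n : ℂ) ≠ 0 := by exact_mod_cast h0
  have h5 : ∀ x : ℂ, x / (L n : ℂ) / (((L n)⁻¹ : ℝ) : ℂ) = x := by
    intro x
    push_cast
    field_simp
  have hnd := trn_nd (z := fun _ => ![1, (L n)⁻¹, (L n)⁻¹, 1, 1])
      (p := (scl ia 1 (L n) (u n), scl ib 1 (L n) (v n), scl ic 1 (L n) (w n),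
        ![α n / (L n : ℂ), β n / (L n : ℂ), γ n / (L n : ℂ)]))
      (RM_Sc h0) ha hb hc (key n) (c1' n) (c2' n) (c3' n) hk
  change Nd (ad T ia ib ic (s * L n)) SA SB SC
      (scl ia 1 (L n)⁻¹ (scl ia 1 (L n) (u n))) (scl ib 1 (L n)⁻¹ (scl ib 1 (L n) (v n)))
      (scl ic 1 (L n)⁻¹ (scl ic 1 (L n) (w n))) (α n / (L n : ℂ) / (((L n)⁻¹ : ℝ) : ℂ))
      (β n / (L n : ℂ) / (((L n)⁻¹ : ℝ) : ℂ)) (γ n / (L n : ℂ) / (((L n)⁻¹ : ℝ) : ℂ)) at hnd
  rw [RM_scl ia h0, RM_scl ib h0, RM_scl ic h0, h5, h5, h5] at hnd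
  refine ⟨⟨(RM_rea h0 r1).rl, (RM_rea h0 r2).rl, (RM_rea h0 r3).rl, ?_, ?_, ?_, hnd⟩, ?_, ?_, ?_⟩
  · exact fun h6 => n1 (by rw [h6, zero_div])
  · exact fun h6 => n2 (by rw [h6, zero_div])
  · exact fun h6 => n3 (by rw [h6, zero_div])
  · rw [(h.nu n).1]
    exact one_ne_zero
  · rw [(h.nv n).1]
    exact one_ne_zero
  · rw [(h.nw n).1]
    exact one_ne_zero

end

end Pool.Agent.MPb0eR
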