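import Mathlib
import Pool.Agent.Lib.MP_b0e20b_ag_R.R12
import Pool.Agent.Lib.MP_b0e20b_ag_R.R123
import Pool.Agent.Lib.MP_b0e20b_ag_R.RM
import Pool.Agent.Lib.MP_b0e20b_ag_R.Perm
import Pool.Agent.Lib.MP_b0e20b_ag_R.Cls
import Pool.Agent.Lib.MP_b0e20b_ag_R.Seq

/-!
# MP_b0e20b_ag, project R: the big corner theorem
-/

set_option autoImplicit false

open scoped BigOperators Topology
open Filter

namespace Pool.Agent.MPb0eR

section

variable {A B C : Type} [Fintype A] [Fintype B] [Fintype C] [DecidableEq A] [DecidableEq B]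
  [DecidableEq C] {T : A → B → C → ℝ} {a0 : A} {b0 : B} {c0 : C} {s : ℝ} {SA : Finset A}
  {SB : Finset B} {SC : Finset C}

/-- A large corner entry.

Proof. `by_seq` with `Q L = Okc T a0 b0 c0 s SA SB SC L`: let a `Sq` be given and take the limits of
`cls`. First case: `RM`. Second case: `R12` with `n12`. Third case: `R12` for `s23 T` (corner
`a0, c0, b0`), `Perm`. Fourth case: `R12` for `s23 (s12 T)` (corner `b0, c0, a0`). Last case: `R123`; by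
`f123` and `Rl.rea` the limit vectors are real, so `n123` applies. For general (not normalised) tuples
use `exists_nrm`, `Tup.smul` and `Ok.of_smul`, as in `FR_of_nrm`. -/
theorem bc (hs : s = 1 ∨ s = -1) (ha : a0 ∈ SA) (hb : b0 ∈ SB) (hc : c0 ∈ SC)
    (f12 : FR T (SA.erase a0) (SB.erase b0) SC) (f13 : FR T (SA.erase a0) SB (SC.erase c0))
    (f23 : FR T SA (SB.erase b0) (SC.erase c0))
    (f123 : FR T (SA.erase a0) (SB.erase b0) (SC.erase c0))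
    (n12 : ∀ u v w α β γ, Tup T (SA.erase a0) (SB.erase b0) SC u v w α β γ → u ≠ 0 → v ≠ 0 →
      w ≠ 0 → w c0 ≠ 0 ∧ c1 T v w a0 ≠ 0 ∧ c2 T u w b0 ≠ 0)
    (n13 : ∀ u v w α β γ, Tup T (SA.erase a0) SB (SC.erase c0) u v w α β γ → u ≠ 0 → v ≠ 0 →
      w ≠ 0 → v b0 ≠ 0 ∧ c1 T v w a0 ≠ 0 ∧ c3 T u v c0 ≠ 0)
    (n23 : ∀ u v w α β γ, Tup T SA (SB.erase b0) (SC.erase c0) u v w α β γ → u ≠ 0 → v ≠ 0 →
      w ≠ 0 → u a0 ≠ 0 ∧ c2 T u w b0 ≠ 0 ∧ c3 T u v c0 ≠ 0)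
    (n123 : ∀ u v w α β γ, Tup T (SA.erase a0) (SB.erase b0) (SC.erase c0) u v w α β γ → u ≠ 0 →
      v ≠ 0 → w ≠ 0 → Rea u → Rea v → Rea w →
      (s * (c1 T v w a0 * c2 T u w b0 * c3 T u v c0)).re < 0) :
    ∃ L0 : ℝ, ∀ L ≥ L0, FR (ad T a0 b0 c0 (s * L)) SA SB SC ∧
      ∀ u v w α β γ, Tup (ad T a0 b0 c0 (s * L)) SA SB SC u v w α β γ → u ≠ 0 → v ≠ 0 → w ≠ 0 →
        u a0 ≠ 0 ∧ v b0 ≠ 0 ∧ w c0 ≠ 0 := by
  obtain ⟨L0, hL0⟩ := by_seq (T := T) (a0 := a0) (b0 := b0) (c0 := c0) (s := s) (SA := SA)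
    (SB := SB) (SC := SC) (fun L u v w α β γ => Okc T a0 b0 c0 s SA SB SC L u v w α β γ)
    (by
      intro L ia ib ic u v w α β γ h
      obtain ⟨u0, v0, w0, lv, nu, nv, nw, hM | ⟨α0, β0, γ0, lc, h12 | h13 | h23 | h123⟩⟩ :=
        cls hs ha hb hc h
      · exact RM hs ha hb hc h lv hM.1 hM.2.1 hM.2.2.1
      · obtain ⟨ht, hw⟩ := h12
        obtain ⟨-, h1, h2⟩ := n12 u0 v0 w0 α0 β0 γ0 ht nu.ne nv.ne nw.ne
        exact R12 hs ha hb hc h lv lc ht f12 hw h1 h2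
      · obtain ⟨ht, hv⟩ := h13
        obtain ⟨-, h1, h2⟩ := n13 u0 v0 w0 α0 β0 γ0 ht nu.ne nv.ne nw.ne
        have h3 := R12 hs ha hc hb (Sq_s23 h) ⟨lv.hu, lv.hw, lv.hv⟩ ⟨lc.hα, lc.hγ, lc.hβ⟩
          (Tup_s23.2 ht) (FR_s23.2 f13) hv (by rw [c1_s23]; exact h1) (by rw [c2_s23]; exact h2)
        exact h3.mono fun n hn => Okc_s23.1 hn
      · obtain ⟨ht, hu⟩ := h23
        obtain ⟨-, h1, h2⟩ := n23 u0 v0 w0 α0 β0 γ0 ht nu.ne nv.ne nw.ne
        have h3 := R12 hs hb hc ha (Sq_s23 (Sq_s12 h)) ⟨lv.hv, lv.hw, lv.hu⟩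
          ⟨lc.hβ, lc.hγ, lc.hα⟩ (Tup_s23.2 (Tup_s12.2 ht)) (FR_s23.2 (FR_s12.2 f23)) hu
          (by rw [c1_s23, c1_s12]; exact h1) (by rw [c2_s23, c3_s12]; exact h2)
        exact h3.mono fun n hn => Okc_s12.1 (Okc_s23.1 hn)
      · have hok := f123 u0 v0 w0 α0 β0 γ0 h123 nu.ne nv.ne nw.ne
        exact R123 hs ha hb hc h lv lc h123 f123
          (n123 u0 v0 w0 α0 β0 γ0 h123 nu.ne nv.ne nw.ne (hok.ru.rea nu.1) (hok.rv.rea nv.1)
            (hok.rw'.rea nw.1)))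
  refine ⟨L0, fun L hL => ⟨FR_of_nrm fun ia ib ic u v w α β γ ht h1 h2 h3 =>
    (hL0 L hL ia ib ic u v w α β γ ht h1 h2 h3).1, ?_⟩⟩
  intro u v w α β γ ht hu hv hw
  obtain ⟨r, ia, hr, h1⟩ := exists_nrm hu
  obtain ⟨t, ib, ht', h2⟩ := exists_nrm hv
  obtain ⟨x, ic, hx, h3⟩ := exists_nrm hw
  obtain ⟨-, g1, g2, g3⟩ := hL0 L hL ia ib ic _ _ _ _ _ _ (ht.smul hr ht' hx) h1 h2 h3
  rw [Pi.smul_apply, smul_eq_mul] at g1 g2 g3
  exact ⟨right_ne_zero_of_mul g1, right_ne_zero_of_mul g2, right_ne_zero_of_mul g3⟩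

/-- Closed conditions which are not satisfied by the limits are not satisfied for large `L`.

Proof. `by_seq` and `cls`: if the conclusion fails eventually (`Ultrafilter`: a property or its
negation holds eventually) along a sequence, then the limit is in `K`, because `K` is closed
(`IsClosed.mem_of_tendsto`). In the first case of `cls` the limits are `Pi.single a0 1` and so on. -/
theorem bcp (hs : s = 1 ∨ s = -1) (ha : a0 ∈ SA) (hb : b0 ∈ SB) (hc : c0 ∈ SC)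
    (K : Set ((A → ℂ) × (B → ℂ) × (C → ℂ))) (hK : IsClosed K)
    (hM : ((Pi.single a0 1, Pi.single b0 1, Pi.single c0 1) : (A → ℂ) × (B → ℂ) × (C → ℂ)) ∉ K)
    (hL : ∀ u v w α β γ, u ≠ 0 → v ≠ 0 → w ≠ 0 →
      (Tup T (SA.erase a0) (SB.erase b0) SC u v w α β γ ∨
        Tup T (SA.erase a0) SB (SC.erase c0) u v w α β γ ∨
        Tup T SA (SB.erase b0) (SC.erase c0) u v w α β γ ∨
        Tup T (SA.erase a0) (SB.erase b0) (SC.erase c0) u v w α β γ) → (u, v, w) ∉ K) :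
    ∃ L0 : ℝ, ∀ L ≥ L0, ∀ ia ib ic u v w α β γ,
      Tup (ad T a0 b0 c0 (s * L)) SA SB SC u v w α β γ → Nrm u ia → Nrm v ib → Nrm w ic →
        (u, v, w) ∉ K := by
  refine by_seq (T := T) (a0 := a0) (b0 := b0) (c0 := c0) (s := s) (SA := SA)
    (SB := SB) (SC := SC) (fun _ u v w _ _ _ => (u, v, w) ∉ K) ?_
  intro L ia ib ic u v w α β γ h
  by_contra hcon
  have hfr : ∃ᶠ n in uf, (u n, v n, w n) ∈ K := by
    intro h'
    exact hcon h'
  obtain ⟨u0, v0, w0, lv, nu, nv, nw, hcase⟩ := cls hs ha hb hc h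
  have hlim : Tendsto (fun n => (u n, v n, w n)) uf (𝓝 (u0, v0, w0)) :=
    lv.hu.prodMk_nhds (lv.hv.prodMk_nhds lv.hw)
  have hmem : (u0, v0, w0) ∈ K := hK.mem_of_frequently_of_tendsto hfr hlim
  rcases hcase with hM' | ⟨α0, β0, γ0, -, hc'⟩
  · obtain ⟨h1, h2, h3, h4, h5, h6, -⟩ := hM'
    subst h4 h5 h6
    have e1 : u0 = Pi.single ia 1 := by
      funext a
      by_cases hh : a = ia
      · rw [hh, Pi.single_eq_same]
        exact nu.1
      · rw [Pi.single_eq_of_ne hh]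
        exact h1 a hh
    have e2 : v0 = Pi.single ib 1 := by
      funext b
      by_cases hh : b = ib
      · rw [hh, Pi.single_eq_same]
        exact nv.1
      · rw [Pi.single_eq_of_ne hh]
        exact h2 b hh
    have e3 : w0 = Pi.single ic 1 := by
      funext c
      by_cases hh : c = ic
      · rw [hh, Pi.single_eq_same]
        exact nw.1
      · rw [Pi.single_eq_of_ne hh]
        exact h3 c hh
    rw [e1, e2, e3] at hmem
    exact hM hmem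
  · refine hL u0 v0 w0 α0 β0 γ0 nu.ne nv.ne nw.ne ?_ hmem
    rcases hc' with h1 | h1 | h1 | h1
    · exact Or.inl h1.1
    · exact Or.inr (Or.inl h1.1)
    · exact Or.inr (Or.inr (Or.inl h1.1))
    · exact Or.inr (Or.inr (Or.inr h1))

end

end Pool.Agent.MPb0eR
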