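import Mathlib
import Pool.Agent.Lib.MP_b0e20b_ag_R.Perm

/-!
# MP_b0e20b_ag, project R: rotations
-/

set_option autoImplicit false
set_option linter.unusedSectionVars false

open scoped BigOperators Topology
open Filter

namespace Pool.Agent.MPb0eR

section

variable {A B C : Type} [Fintype A] [Fintype B] [Fintype C] [DecidableEq A] [DecidableEq B]
  [DecidableEq C] {T : A → B → C → ℝ} {SA : Finset A} {SB : Finset B} {SC : Finset C}
  {u : A → ℂ} {v : B → ℂ} {w : C → ℂ} {α β γ : ℂ} {c o : C} {b p : B}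

private theorem rv_c (w : C → ℂ) : rv c o w c = (4 * w c - 3 * w o) / 5 := by
  simp [rv]

private theorem rv_o (hco : c ≠ o) (w : C → ℂ) : rv c o w o = (3 * w c + 4 * w o) / 5 := by
  simp [rv, hco.symm]

private theorem rv_k {k : C} (hk : k ≠ c) (hk' : k ≠ o) (w : C → ℂ) : rv c o w k = w k := by
  simp [rv, hk, hk']

/-- The rotation `rv o c` is the inverse of `rv c o`. -/
theorem rv_rv (hco : c ≠ o) (w : C → ℂ) : rv o c (rv c o w) = w := by
  funext k
  by_cases hk : k = c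
  · subst hk
    rw [rv_o hco.symm, rv_o hco, rv_c]
    ring
  · by_cases hk' : k = o
    · subst hk'
      rw [rv_c, rv_o hco, rv_c]
      ring
    · rw [rv_k hk' hk, rv_k hk hk']

private theorem rv_surj (hco : c ≠ o) : Function.Surjective (rv c o : (C → ℂ) → C → ℂ) :=
  fun w => ⟨rv o c w, rv_rv hco.symm w⟩

private theorem rv_inj (hco : c ≠ o) : Function.Injective (rv c o : (C → ℂ) → C → ℂ) :=
  fun w w' h => by rw [← rv_rv hco w, h, rv_rv hco w']

private theorem rv_smul (r : ℂ) (w : C → ℂ) : rv c o (r • w) = r • rv c o w := by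
  funext k
  simp only [rv, Pi.smul_apply, smul_eq_mul]
  split_ifs <;> ring

private theorem rv_add (w w' : C → ℂ) : rv c o (w + w') = rv c o w + rv c o w' := by
  funext k
  simp only [rv, Pi.add_apply]
  split_ifs <;> ring

private theorem rv_zero : rv c o (0 : C → ℂ) = 0 := by
  funext k
  simp [rv]

private theorem rv_ne (hco : c ≠ o) (w : C → ℂ) : rv c o w ≠ 0 ↔ w ≠ 0 := by
  rw [not_iff_not]
  constructor
  · intro h
    refine rv_inj hco ?_
    rw [h, rv_zero]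
  · intro h
    rw [h, rv_zero]

private theorem rv_on (hc : c ∈ SC) (ho : o ∈ SC) {f g : C → ℂ} (h : ∀ k ∈ SC, f k = g k) :
    ∀ k ∈ SC, rv c o f k = rv c o g k := by
  intro k hk
  simp only [rv]
  rw [h c hc, h o ho, h k hk]

private theorem rv_on_iff (hco : c ≠ o) (hc : c ∈ SC) (ho : o ∈ SC) (f g : C → ℂ) :
    (∀ k ∈ SC, rv c o f k = rv c o g k) ↔ ∀ k ∈ SC, f k = g k := by
  constructor
  · intro h k hk
    have h1 := rv_on ho hc h k hk
    rwa [rv_rv hco, rv_rv hco] at h1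
  · exact rv_on hc ho

private theorem sup_rv (hc : c ∈ SC) (ho : o ∈ SC) (w : C → ℂ) :
    Sup SC (rv c o w) ↔ Sup SC w := by
  refine forall₂_congr fun k hk => ?_
  have h1 : k ≠ c := fun h => hk (by rw [h]; exact hc)
  have h2 : k ≠ o := fun h => hk (by rw [h]; exact ho)
  rw [rv_k h1 h2]

private theorem rl_rv_aux (w : C → ℂ) (h : Rl w) : Rl (rv c o w) := by
  obtain ⟨r, hr, h⟩ := h
  refine ⟨r, hr, fun k => ?_⟩
  have h1 : r * rv c o w k = rv c o (fun j => r * w j) k := by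
    have := congrFun (rv_smul (c := c) (o := o) r w) k
    simp only [Pi.smul_apply, smul_eq_mul] at this
    rw [← this]
    rfl
  rw [h1]
  have hd : ∀ z : ℂ, z.im = 0 → ∃ x : ℝ, z = x := fun z hz => ⟨z.re, by
    apply Complex.ext <;> simp [hz]⟩
  obtain ⟨x, hx⟩ := hd _ (h c)
  obtain ⟨y, hy⟩ := hd _ (h o)
  by_cases hk : k = c
  · subst hk
    rw [rv_c, hx, hy]
    have : ((4 * (x : ℂ) - 3 * (y : ℂ)) / 5) = (((4 * x - 3 * y) / 5 : ℝ) : ℂ) := by
      push_cast; ring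
    rw [this, Complex.ofReal_im]
  · by_cases hk' : k = o
    · subst hk'
      rw [rv_o (Ne.symm hk), hx, hy]
      have : ((3 * (x : ℂ) + 4 * (y : ℂ)) / 5) = (((3 * x + 4 * y) / 5 : ℝ) : ℂ) := by
        push_cast; ring
      rw [this, Complex.ofReal_im]
    · rw [rv_k hk hk']
      exact h k

private theorem rl_rv (hco : c ≠ o) (w : C → ℂ) : Rl (rv c o w) ↔ Rl w := by
  constructor
  · intro h
    have h1 := rl_rv_aux (c := o) (o := c) _ h
    rwa [rv_rv hco] at h1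
  · exact rl_rv_aux w

private theorem sum_rv (hco : c ≠ o) (f g : C → ℂ) :
    ∑ k, rv c o f k * rv c o g k = ∑ k, f k * g k := by
  rw [← sub_eq_zero, ← Finset.sum_sub_distrib, Fintype.sum_eq_add c o hco]
  · rw [rv_c, rv_c, rv_o hco, rv_o hco]
    ring
  · rintro k ⟨h1, h2⟩
    rw [rv_k h1 h2, rv_k h1 h2, sub_self]

omit [Fintype A] [Fintype B] [Fintype C] [DecidableEq A] [DecidableEq B] in
private theorem r3_rv (a : A) (b : B) (k : C) :
    ((r3 T c o a b k : ℝ) : ℂ) = rv c o (fun j => ((T a b j : ℝ) : ℂ)) k := by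
  simp only [r3, rv]
  split_ifs <;> push_cast <;> ring

theorem r3_c1 (hco : c ≠ o) (v : B → ℂ) (w : C → ℂ) (a : A) :
    c1 (r3 T c o) v (rv c o w) a = c1 T v w a := by
  simp only [c1]
  refine Finset.sum_congr rfl fun b _ => ?_
  have h1 := sum_rv hco (fun k => ((T a b k : ℝ) : ℂ)) w
  calc ∑ k, ((r3 T c o a b k : ℝ) : ℂ) * (v b * rv c o w k)
      = v b * ∑ k, rv c o (fun k => ((T a b k : ℝ) : ℂ)) k * rv c o w k := by
        rw [Finset.mul_sum]
        refine Finset.sum_congr rfl fun k _ => ?_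
        rw [r3_rv]
        ring
    _ = v b * ∑ k, ((T a b k : ℝ) : ℂ) * w k := by rw [h1]
    _ = _ := by
        rw [Finset.mul_sum]
        exact Finset.sum_congr rfl fun k _ => by ring

theorem r3_c2 (hco : c ≠ o) (u : A → ℂ) (w : C → ℂ) (b : B) :
    c2 (r3 T c o) u (rv c o w) b = c2 T u w b := by
  simp only [c2]
  refine Finset.sum_congr rfl fun a _ => ?_
  have h1 := sum_rv hco (fun k => ((T a b k : ℝ) : ℂ)) w
  calc ∑ k, ((r3 T c o a b k : ℝ) : ℂ) * (u a * rv c o w k)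
      = u a * ∑ k, rv c o (fun k => ((T a b k : ℝ) : ℂ)) k * rv c o w k := by
        rw [Finset.mul_sum]
        refine Finset.sum_congr rfl fun k _ => ?_
        rw [r3_rv]
        ring
    _ = u a * ∑ k, ((T a b k : ℝ) : ℂ) * w k := by rw [h1]
    _ = _ := by
        rw [Finset.mul_sum]
        exact Finset.sum_congr rfl fun k _ => by ring

theorem r3_c3 (u : A → ℂ) (v : B → ℂ) : c3 (r3 T c o) u v = rv c o (c3 T u v) := by
  funext k
  simp only [c3, r3_rv, rv]
  split_ifs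
  · simp only [Finset.mul_sum, ← Finset.sum_sub_distrib, Finset.sum_div]
    exact Finset.sum_congr rfl fun _ _ => Finset.sum_congr rfl fun _ _ => by ring
  · simp only [Finset.mul_sum, ← Finset.sum_add_distrib, Finset.sum_div]
    exact Finset.sum_congr rfl fun _ _ => Finset.sum_congr rfl fun _ _ => by ring
  · rfl

theorem Tup_r3 (hco : c ≠ o) (hc : c ∈ SC) (ho : o ∈ SC) :
    Tup (r3 T c o) SA SB SC u v (rv c o w) α β γ ↔ Tup T SA SB SC u v w α β γ := by
  have h3 : (∀ k ∈ SC, c3 (r3 T c o) u v k = γ * rv c o w k) ↔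
      ∀ k ∈ SC, c3 T u v k = γ * w k := by
    rw [r3_c3]
    have h4 : ∀ k, γ * rv c o w k = rv c o (fun j => γ * w j) k := fun k =>
      (congrFun (rv_smul (c := c) (o := o) γ w) k).symm
    simp only [h4]
    exact rv_on_iff hco hc ho _ _
  constructor
  · intro h
    refine ⟨h.su, h.sv, (sup_rv hc ho w).1 h.sw, fun a ha => ?_, fun b hb => ?_, h3.1 h.e3⟩
    · rw [← r3_c1 hco]
      exact h.e1 a ha
    · rw [← r3_c2 hco]
      exact h.e2 b hb
  · intro h
    refine ⟨h.su, h.sv, (sup_rv hc ho w).2 h.sw, fun a ha => ?_, fun b hb => ?_, h3.2 h.e3⟩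
    · rw [r3_c1 hco]
      exact h.e1 a ha
    · rw [r3_c2 hco]
      exact h.e2 b hb

private theorem ker_r3 (hco : c ≠ o) (hc : c ∈ SC) (ho : o ∈ SC) {du : A → ℂ} {dv : B → ℂ}
    {dw : C → ℂ} {dα dβ dγ : ℂ} :
    Ker (r3 T c o) SA SB SC u v (rv c o w) α β γ du dv (rv c o dw) dα dβ dγ ↔
      Ker T SA SB SC u v w α β γ du dv dw dα dβ dγ := by
  have h3 : (∀ k ∈ SC, c3 (r3 T c o) du v k + c3 (r3 T c o) u dv k =
      γ * rv c o dw k + dγ * rv c o w k) ↔
      ∀ k ∈ SC, c3 T du v k + c3 T u dv k = γ * dw k + dγ * w k := by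
    rw [r3_c3, r3_c3]
    have h4 : ∀ k, γ * rv c o dw k + dγ * rv c o w k =
        rv c o (fun j => γ * dw j + dγ * w j) k := fun k => by
      have h5 := congrFun (rv_add (c := c) (o := o) (γ • dw) (dγ • w)) k
      rw [rv_smul, rv_smul] at h5
      exact h5.symm
    have h6 : ∀ k, rv c o (c3 T du v) k + rv c o (c3 T u dv) k =
        rv c o (fun j => c3 T du v j + c3 T u dv j) k := fun k =>
      (congrFun (rv_add (c := c) (o := o) (c3 T du v) (c3 T u dv)) k).symm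
    simp only [h4, h6]
    exact rv_on_iff hco hc ho _ _
  constructor
  · intro h
    refine ⟨h.su, h.sv, (sup_rv hc ho dw).1 h.sw, fun a ha => ?_, fun b hb => ?_, h3.1 h.e3⟩
    · rw [← r3_c1 hco, ← r3_c1 hco v dw]
      exact h.e1 a ha
    · rw [← r3_c2 hco, ← r3_c2 hco u dw]
      exact h.e2 b hb
  · intro h
    refine ⟨h.su, h.sv, (sup_rv hc ho dw).2 h.sw, fun a ha => ?_, fun b hb => ?_, h3.2 h.e3⟩
    · rw [r3_c1 hco, r3_c1 hco]
      exact h.e1 a ha
    · rw [r3_c2 hco, r3_c2 hco]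
      exact h.e2 b hb

private theorem rv_ex (hco : c ≠ o) (dw w : C → ℂ) :
    (∃ r : ℂ, rv c o dw = r • rv c o w) ↔ ∃ r : ℂ, dw = r • w := by
  refine exists_congr fun r => ?_
  rw [← rv_smul]
  exact (rv_inj hco).eq_iff

theorem Nd_r3 (hco : c ≠ o) (hc : c ∈ SC) (ho : o ∈ SC) :
    Nd (r3 T c o) SA SB SC u v (rv c o w) α β γ ↔ Nd T SA SB SC u v w α β γ := by
  simp only [Nd]
  refine forall₂_congr fun du dv => ?_
  rw [(rv_surj hco).forall]
  refine forall₄_congr fun dw dα dβ dγ => ?_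
  rw [ker_r3 hco hc ho, rv_ex hco]

private theorem ok_r3 (hco : c ≠ o) (hc : c ∈ SC) (ho : o ∈ SC) :
    Ok (r3 T c o) SA SB SC u v (rv c o w) α β γ ↔ Ok T SA SB SC u v w α β γ := by
  constructor
  · intro h
    exact ⟨h.ru, h.rv, (rl_rv hco w).1 h.rw', h.hα, h.hβ, h.hγ, (Nd_r3 hco hc ho).1 h.nd⟩
  · intro h
    exact ⟨h.ru, h.rv, (rl_rv hco w).2 h.rw', h.hα, h.hβ, h.hγ, (Nd_r3 hco hc ho).2 h.nd⟩

theorem FR_r3 (hco : c ≠ o) (hc : c ∈ SC) (ho : o ∈ SC) :
    FR (r3 T c o) SA SB SC ↔ FR T SA SB SC := by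
  simp only [FR]
  refine forall₂_congr fun u v => ?_
  rw [(rv_surj hco).forall]
  refine forall₄_congr fun w α β γ => ?_
  rw [Tup_r3 hco hc ho, ok_r3 hco hc ho, rv_ne hco]

theorem VR_r3 (hco : c ≠ o) (hc : c ∈ SC) (ho : o ∈ SC) :
    VR (r3 T c o) SA SB SC ↔ VR T SA SB SC := by
  simp only [VR]
  refine forall_congr' fun v => ?_
  rw [(rv_surj hco).forall]
  refine forall_congr' fun w => ?_
  rw [sup_rv hc ho, rv_ne hco, rl_rv hco]
  simp only [r3_c1 hco]
  refine forall₅_congr fun _ _ _ _ _ => ?_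
  refine and_congr_right fun _ => and_congr_right fun _ => ?_
  refine forall_congr' fun dv => ?_
  rw [(rv_surj hco).forall]
  refine forall_congr' fun dw => ?_
  rw [sup_rv hc ho, rv_ex hco]
  simp only [r3_c1 hco]

theorem VE_r3 (hco : c ≠ o) (hc : c ∈ SC) (ho : o ∈ SC) :
    VE (r3 T c o) SA SB SC ↔ VE T SA SB SC := by
  simp only [VE]
  refine forall_congr' fun v => ?_
  rw [(rv_surj hco).forall]
  refine forall_congr' fun w => ?_
  rw [sup_rv hc ho]
  simp only [r3_c1 hco]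
  refine forall₃_congr fun _ _ _ => or_congr_right ?_
  exact not_iff_not.1 (rv_ne hco w)

theorem s23_r2 : s23 (r2 T b p) = r3 (s23 T) b p := by
  rfl

theorem s23_r3 : s23 (r3 T c o) = r2 (s23 T) c o := by
  rfl

theorem r2_c1 (hbp : b ≠ p) (v : B → ℂ) (w : C → ℂ) (a : A) :
    c1 (r2 T b p) (rv b p v) w a = c1 T v w a := by
  rw [r2, c1_s23, r3_c1 hbp, c1_s23]

theorem r2_c2 (u : A → ℂ) (w : C → ℂ) : c2 (r2 T b p) u w = rv b p (c2 T u w) := by
  exact r3_c3 (T := s23 T) u w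

theorem r2_c3 (hbp : b ≠ p) (u : A → ℂ) (v : B → ℂ) (c : C) :
    c3 (r2 T b p) u (rv b p v) c = c3 T u v c := by
  exact r3_c2 (T := s23 T) hbp u v c

theorem Tup_r2 (hbp : b ≠ p) (hb : b ∈ SB) (hp : p ∈ SB) :
    Tup (r2 T b p) SA SB SC u (rv b p v) w α β γ ↔ Tup T SA SB SC u v w α β γ := by
  rw [r2, Tup_s23, Tup_r3 hbp hb hp, Tup_s23]

theorem FR_r2 (hbp : b ≠ p) (hb : b ∈ SB) (hp : p ∈ SB) :
    FR (r2 T b p) SA SB SC ↔ FR T SA SB SC := by
  rw [r2, FR_s23, FR_r3 hbp hb hp, FR_s23]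

theorem VR_r2 (hbp : b ≠ p) (hb : b ∈ SB) (hp : p ∈ SB) :
    VR (r2 T b p) SA SB SC ↔ VR T SA SB SC := by
  rw [r2, VR_s23, VR_r3 hbp hb hp, VR_s23]

theorem VE_r2 (hbp : b ≠ p) (hb : b ∈ SB) (hp : p ∈ SB) :
    VE (r2 T b p) SA SB SC ↔ VE T SA SB SC := by
  rw [r2, VE_s23, VE_r3 hbp hb hp, VE_s23]

/-- The rotations of the two factors commute. -/
theorem r2_r3 : r2 (r3 T c o) b p = r3 (r2 T b p) c o := by
  funext i j k
  simp only [r2, s23, r3]
  split_ifs <;> ring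

end

end Pool.Agent.MPb0eR
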