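import Mathlib
import Pool.Agent.Lib.MP_b0e20b_ag_R.Rot

/-!
# MP_b0e20b_ag, project R: signs, masks, and the modes of a tensor with one entry replaced
-/

set_option autoImplicit false

open scoped BigOperators Topology
open Filter

namespace Pool.Agent.MPb0eR

theorem sg_cases (p q r : ℕ) : sg p q r = 1 ∨ sg p q r = -1 := by
  unfold sg
  exact neg_one_pow_eq_or ℝ _

/-- Proof: with `k = p + q + r` the exponents are `k / 2` and three times `(k + 2) / 2 = k / 2 + 1`;
the sum `4 * (k / 2) + 3` is odd. -/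
theorem sg_rec (p q r : ℕ) :
    sg p q r * (sg p (q + 1) (r + 1) * sg (p + 1) q (r + 1) * sg (p + 1) (q + 1) r) = -1 := by
  have e1 : (p + (q + 1) + (r + 1)) / 2 = (p + q + r) / 2 + 1 := by omega
  have e2 : (p + 1 + q + (r + 1)) / 2 = (p + q + r) / 2 + 1 := by omega
  have e3 : (p + 1 + (q + 1) + r) / 2 = (p + q + r) / 2 + 1 := by omega
  unfold sg
  rw [e1, e2, e3]
  rcases neg_one_pow_eq_or ℝ ((p + q + r) / 2) with h | h
  · rw [pow_succ, h]; norm_num
  · rw [pow_succ, h]; norm_num

theorem sg_swap (p q r : ℕ) : sg p r q = sg p q r := by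
  unfold sg
  rw [show p + r + q = p + q + r by omega]

theorem mem_mk {n p m : ℕ} {i : Fin n} : i ∈ mk n p m ↔ p ≤ i.val ∧ i.val < m := by
  simp [mk]

theorem mk_erase {n p m : ℕ} {i : Fin n} (h : i.val = p) : (mk n p m).erase i = mk n (p + 1) m := by
  ext j
  rw [Finset.mem_erase, mem_mk, mem_mk, Ne, Fin.ext_iff]
  omega

theorem mk_empty {n p m : ℕ} (h : n ≤ p ∨ m ≤ p) : mk n p m = ∅ := by
  ext j
  rw [mem_mk]
  have hj := j.isLt
  constructor
  · intro h'
    exfalso
    omega
  · intro h'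
    exact absurd h' (Finset.notMem_empty j)

theorem mk_zero {n m : ℕ} (h : n ≤ m) : mk n 0 m = Finset.univ := by
  ext j
  rw [mem_mk]
  have hj := j.isLt
  constructor
  · intro _
    exact Finset.mem_univ j
  · intro _
    omega

/-- The number of elements. -/
theorem mk_card {n p m : ℕ} (h : m ≤ n) : (mk n p m).card = m - p := by
  have e : (mk n p m).map Fin.valEmbedding = Finset.Ico p m := by
    ext k
    rw [Finset.mem_map, Finset.mem_Ico]
    constructor
    · rintro ⟨i, hi, rfl⟩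
      exact mem_mk.1 hi
    · intro hk
      exact ⟨⟨k, by omega⟩, mem_mk.2 hk, rfl⟩
  rw [← Finset.card_map Fin.valEmbedding, e, Nat.card_Ico]

theorem pb_ne_po {n : ℕ} (h : 1 ≤ n) : pb n ≠ po n := by
  intro h'
  have h2 : n - 1 = n := congrArg Fin.val h'
  omega

variable {n1 n2 n3 : ℕ}

/-- The rotation of the last two coordinates in the mode `m`. -/
private noncomputable def Updop {n : ℕ} (m : ℕ) (g : Fin (n + 1) → ℝ) (k : Fin (n + 1)) : ℝ :=
  if m = 0 then g k else if k = pb n then (4 * g (pb n) - 3 * g (po n)) / 5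
  else if k = po n then (3 * g (pb n) + 4 * g (po n)) / 5 else g k

private theorem Updvt (m m' : ℕ) (F : FT n1 n2 n3) (a : Fin n1) (b : Fin (n2 + 1))
    (c : Fin (n3 + 1)) :
    vt m m' F a b c = Updop m' (fun c' => Updop m (fun b' => F a b' c') b) c := by
  by_cases h : m = 0
  · by_cases h' : m' = 0
    · simp [vt, Updop, h, h']
    · simp [vt, Updop, h, h', r3]
  · by_cases h' : m' = 0
    · simp [vt, Updop, h, h', r3, r2, s23]
    · simp [vt, Updop, h, h', r3, r2, s23]

private theorem Updop_up {n : ℕ} (hn : 1 ≤ n) (m : ℕ) (k0 : Fin (n + 1))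
    (hk : k0.val < n + 1 - m) :
    ∃ κ : ℝ, 0 < κ ∧ ∀ (g : Fin (n + 1) → ℝ) (x : ℝ) (k : Fin (n + 1)), k.val < n + 1 - m →
      Updop m (fun k' => g k' + if k' = k0 then x else 0) k
        = Updop m g k + if k = k0 then κ * x else 0 := by
  by_cases hm : m = 0
  · refine ⟨1, one_pos, ?_⟩
    intro g x k _
    unfold Updop
    rw [if_pos hm, if_pos hm, one_mul]
  · have hne : po n ≠ k0 := by
      intro h
      have h2 : n = k0.val := congrArg Fin.val h
      omega
    by_cases hp : k0 = pb n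
    · refine ⟨4 / 5, by norm_num, ?_⟩
      intro g x k hk'
      have hk2 : k ≠ po n := by
        intro h
        have h2 : k.val = n := congrArg Fin.val h
        omega
      unfold Updop
      rw [if_neg hm, if_neg hm]
      by_cases q : k = pb n
      · rw [if_pos q, if_pos q, if_pos (q.trans hp.symm)]
        dsimp only
        rw [if_pos hp.symm, if_neg hne]
        ring
      · rw [if_neg q, if_neg q, if_neg hk2, if_neg hk2]
        have q2 : k ≠ k0 := fun h => q (h.trans hp)
        dsimp only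
        rw [if_neg q2, if_neg q2]
    · refine ⟨1, one_pos, ?_⟩
      intro g x k hk'
      have hk2 : k ≠ po n := by
        intro h
        have h2 : k.val = n := congrArg Fin.val h
        omega
      unfold Updop
      rw [if_neg hm, if_neg hm]
      have hp' : pb n ≠ k0 := fun h => hp h.symm
      by_cases q : k = pb n
      · have q2 : k ≠ k0 := fun h => hp (h.symm.trans q)
        rw [if_pos q, if_pos q, if_neg q2]
        dsimp only
        rw [if_neg hp', if_neg hne]
        ring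
      · rw [if_neg q, if_neg q, if_neg hk2, if_neg hk2, one_mul]

private theorem Updop_congr {n : ℕ} (m : ℕ) (g g' : Fin (n + 1) → ℝ) (q : ℕ)
    (h : ∀ k : Fin (n + 1), q ≤ k.val → g k = g' k) (k : Fin (n + 1)) (hk : q ≤ k.val)
    (hk' : k.val < n + 1 - m) : Updop m g k = Updop m g' k := by
  unfold Updop
  by_cases hm : m = 0
  · rw [if_pos hm, if_pos hm, h k hk]
  · rw [if_neg hm, if_neg hm]
    by_cases hp : k = pb n
    · have h1 : q ≤ (pb n).val := hp ▸ hk
      have h2 : (pb n).val ≤ (po n).val := Nat.sub_le n 1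
      rw [if_pos hp, if_pos hp, h _ h1, h _ (h1.trans h2)]
    · have hk2 : k ≠ po n := by
        intro h
        have h2 : k.val = n := congrArg Fin.val h
        omega
      rw [if_neg hp, if_neg hp, if_neg hk2, if_neg hk2, h k hk]

private theorem Updop_one {n : ℕ} {g g' : Fin (n + 1) → ℝ} {k : Fin (n + 1)}
    (h1 : g (pb n) = g' (pb n)) (h2 : g (po n) = g' (po n)) (h3 : g k = g' k) :
    Updop 1 g k = Updop 1 g' k := by
  unfold Updop
  rw [h1, h2, h3]

/-- The modes `1` and `2` have the same rotation. -/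
theorem vt_mode (m m' : ℕ) (h : 1 ≤ m') (F : FT n1 n2 n3) : vt m m' F = vt m 1 F := by
  have h0 : m' ≠ 0 := by omega
  unfold vt
  rw [if_neg h0, if_neg h0, if_neg one_ne_zero, if_neg one_ne_zero]

theorem vt_mode' (m m' : ℕ) (h : 1 ≤ m) (F : FT n1 n2 n3) : vt m m' F = vt 1 m' F := by
  have h0 : m ≠ 0 := by omega
  unfold vt
  rw [if_neg h0, if_neg one_ne_zero]

theorem vt_s23 (m m' : ℕ) (F : FT n1 n2 n3) : vt m' m (s23 F) = s23 (vt m m' F) := by
  by_cases h : m = 0
  · by_cases h' : m' = 0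
    · unfold vt
      rw [if_pos h', if_pos h, if_pos h, if_pos h']
    · unfold vt
      rw [if_neg h', if_pos h, if_pos h, if_neg h', s23_r3]
  · by_cases h' : m' = 0
    · unfold vt
      rw [if_pos h', if_neg h, if_neg h, if_pos h', s23_r2]
    · unfold vt
      rw [if_neg h', if_neg h, if_neg h, if_neg h', s23_r3, s23_r2, r2_r3]

theorem vt_r3 (m : ℕ) (F : FT n1 n2 n3) : vt m 1 F = r3 (vt m 0 F) (pb n3) (po n3) := by
  by_cases h : m = 0
  · unfold vt
    rw [if_pos h, if_neg one_ne_zero, if_pos h, if_pos rfl]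
  · unfold vt
    rw [if_neg h, if_neg one_ne_zero, if_neg h, if_pos rfl]

theorem up_s23 (F : FT n1 n2 n3) (a : Fin n1) (b : Fin (n2 + 1)) (c : Fin (n3 + 1)) (x : ℝ) :
    s23 (up F a b c x) = up (s23 F) a c b x := by
  funext a' c' b'
  have e : (a' = a ∧ b' = b ∧ c' = c) ↔ (a' = a ∧ c' = c ∧ b' = b) :=
    ⟨fun h => ⟨h.1, h.2.2, h.2.1⟩, fun h => ⟨h.1, h.2.2, h.2.1⟩⟩
  show (if a' = a ∧ b' = b ∧ c' = c then x else F a' b' c')
    = if a' = a ∧ c' = c ∧ b' = b then x else F a' b' c'
  exact if_congr e rfl rfl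

/-- Replacing one entry of `F` changes exactly one entry of the part of `vt m m' F` in the mask, by a
positive multiple.

Proof. `vt` is linear in `F`, and `up F a0 b0 c0 x = up F a0 b0 c0 0 + x • (unit tensor at (a0, b0,
c0))`. If `m = 0` the second factor is not rotated. If `m ≥ 1` and `b0 < pb n2` the rotation does not
touch the index `b0`; if `b0 = pb n2`, the rotated unit tensor is `4 / 5` times the unit tensor at
`pb n2` plus `3 / 5` times the unit tensor at `po n2`, which is not in the mask (`n2 + 1 - m ≤ n2`);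
`b0 = po n2` is excluded by `hb`. The same in the last factor. So `κ` is `1`, `4 / 5` or `16 / 25`. -/
theorem vt_up (h2 : 1 ≤ n2) (h3 : 1 ≤ n3) (m m' : ℕ) (F : FT n1 n2 n3) (a0 : Fin n1)
    (b0 : Fin (n2 + 1)) (c0 : Fin (n3 + 1)) (hb : b0.val < n2 + 1 - m)
    (hc : c0.val < n3 + 1 - m') :
    ∃ κ : ℝ, 0 < κ ∧ ∀ (x : ℝ) (a : Fin n1) (b : Fin (n2 + 1)) (c : Fin (n3 + 1)),
      b.val < n2 + 1 - m → c.val < n3 + 1 - m' →
      vt m m' (up F a0 b0 c0 x) a b c
        = ad (vt m m' (up F a0 b0 c0 0)) a0 b0 c0 (κ * x) a b c := by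
  obtain ⟨κ1, h1, H1⟩ := Updop_up h2 m b0 hb
  obtain ⟨κ2, h2', H2⟩ := Updop_up h3 m' c0 hc
  refine ⟨κ2 * κ1, mul_pos h2' h1, ?_⟩
  intro x a b c hb' hc'
  have e1 : ∀ c' : Fin (n3 + 1), Updop m (fun b' => up F a0 b0 c0 x a b' c') b
      = Updop m (fun b' => up F a0 b0 c0 0 a b' c') b
        + if c' = c0 then (if a = a0 ∧ b = b0 then κ1 * x else 0) else 0 := by
    intro c'
    have e2 : (fun b' => up F a0 b0 c0 x a b' c')
        = fun b' => up F a0 b0 c0 0 a b' c'
          + if b' = b0 then (if a = a0 ∧ c' = c0 then x else 0) else 0 := by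
      funext b'
      unfold up
      by_cases q1 : a = a0 <;> by_cases q2 : b' = b0 <;> by_cases q3 : c' = c0 <;>
        simp [q1, q2, q3]
    rw [e2, H1 _ _ b hb']
    by_cases q1 : a = a0 <;> by_cases q2 : b = b0 <;> by_cases q3 : c' = c0 <;>
        simp [q1, q2, q3]
  rw [Updvt, funext e1, H2 _ _ c hc']
  unfold ad
  rw [Updvt]
  by_cases q1 : a = a0 <;> by_cases q2 : b = b0 <;> by_cases q3 : c = c0 <;>
        simp [q1, q2, q3, mul_assoc]

/-- The entries of `vt m m' F` in the mask with corner `(p, q, r)` depend only on the entries of `F`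
above `(p, q, r)`. Proof: in the mode `m ≥ 1` the entry at `b = pb n2` depends on the entries at
`pb n2` and `po n2`, and `q ≤ pb n2 ≤ po n2`; `b = po n2` is not in the mask (if `n2 = 0` the mask is
empty). -/
theorem vt_congr (m m' : ℕ) (F F' : FT n1 n2 n3) (p q r : ℕ)
    (h : ∀ (a : Fin n1) (b : Fin (n2 + 1)) (c : Fin (n3 + 1)), p ≤ a.val → q ≤ b.val →
      r ≤ c.val → F a b c = F' a b c)
    (a : Fin n1) (b : Fin (n2 + 1)) (c : Fin (n3 + 1)) (ha : p ≤ a.val) (hb : q ≤ b.val)
    (hb' : b.val < n2 + 1 - m) (hc : r ≤ c.val) (hc' : c.val < n3 + 1 - m') :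
    vt m m' F a b c = vt m m' F' a b c := by
  rw [Updvt, Updvt]
  refine Updop_congr m' _ _ r (fun c' hc'' => ?_) c hc hc'
  exact Updop_congr m _ _ q (fun b' hb'' => h a b' c' ha hb'' hc'') b hb hb'

/-- Replacing the entry `(a0, b0, c0)` does not change the entries of `vt m 0 F` and `vt m 1 F` in the
slice `c`, if `c0` is different from `c` and the index `c` is not mixed with `c0`. Proof: `vt m 0`
mixes only entries with the same last index, `vt m 1` mixes only `pb n3` and `po n3`. -/
theorem vt_up_slice (m : ℕ) (F : FT n1 n2 n3) (a0 : Fin n1) (b0 : Fin (n2 + 1)) (c0 : Fin (n3 + 1))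
    (x : ℝ) (a : Fin n1) (b : Fin (n2 + 1)) (c : Fin (n3 + 1)) :
    (c ≠ c0 → vt m 0 (up F a0 b0 c0 x) a b c = vt m 0 (up F a0 b0 c0 0) a b c) ∧
    (c0 ≠ pb n3 → c0 ≠ po n3 → c ≠ c0 →
      vt m 1 (up F a0 b0 c0 x) a b c = vt m 1 (up F a0 b0 c0 0) a b c) := by
  have e : ∀ (c' : Fin (n3 + 1)), c' ≠ c0 →
      Updop m (fun b' => up F a0 b0 c0 x a b' c') b
        = Updop m (fun b' => up F a0 b0 c0 0 a b' c') b := by
    intro c' hc'
    have e2 : (fun b' => up F a0 b0 c0 x a b' c') = fun b' => up F a0 b0 c0 0 a b' c' := by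
      funext b'
      unfold up
      rw [if_neg (fun h => hc' h.2.2), if_neg (fun h => hc' h.2.2)]
    rw [e2]
  constructor
  · intro hc
    rw [Updvt, Updvt]
    unfold Updop
    rw [if_pos rfl, if_pos rfl]
    exact e c hc
  · intro h1 h2 hc
    rw [Updvt, Updvt]
    exact Updop_one (e _ h1.symm) (e _ h2.symm) (e _ hc)

end Pool.Agent.MPb0eR
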