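import Mathlib
import Pool.Agent.Lib.MP_b0e20b_ag_R.Upd

/-!
# MP_b0e20b_ag, project R: simple properties of `GT` and `Gd`
-/

set_option autoImplicit false

open scoped BigOperators Topology
open Filter

namespace Pool.Agent.MPb0eR

variable {n1 n2 n3 : ℕ}

/-- A nonzero vector cannot be supported in an empty mask. -/
private theorem GTcne {n p m : ℕ} {u : Fin n → ℂ} (h : Sup (mk n p m) u) (hu : u ≠ 0)
    (hp : n ≤ p ∨ m ≤ p) : False := by
  refine hu ?_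
  funext i
  refine h i ?_
  rw [mk_empty hp]
  exact Finset.notMem_empty i

/-- `GT` depends only on the entries in the masks. Proof: `FR_congr`, `Tup.congr`, `c1_congr`
etc. -/
theorem GT_congr {T T' : FT n1 n2 n3} {mB mC p q r : ℕ}
    (h : ∀ (a : Fin n1) (b : Fin (n2 + 1)) (c : Fin (n3 + 1)), p ≤ a.val → q ≤ b.val →
      b.val < mB → r ≤ c.val → c.val < mC → T a b c = T' a b c)
    (hq : q < mB) (hr : r < mC) (hT : GT T mB mC p q r) : GT T' mB mC p q r := by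
  have k0 : ∀ a ∈ mk n1 p n1, ∀ b ∈ mk (n2 + 1) q mB, ∀ c ∈ mk (n3 + 1) r mC,
      T a b c = T' a b c := by
    intro a ha b hb c hc
    rw [mem_mk] at ha hb hc
    exact h a b c ha.1 hb.1 hb.2 hc.1 hc.2
  refine ⟨(FR_congr k0).1 hT.fr, ?_, ?_, ?_, ?_⟩
  · intro u v w α β γ ht hu hv hw
    exact hT.cu u v w α β γ ((Tup.congr k0).2 ht) hu hv hw
  · intro u v w α β γ ht hu hv hw a b c ha hb hc
    have k1 : ∀ a ∈ mk n1 (p + 1) n1, ∀ b ∈ mk (n2 + 1) q mB, ∀ c ∈ mk (n3 + 1) r mC,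
        T a b c = T' a b c := by
      intro a ha b hb c hc
      rw [mem_mk] at ha hb hc
      exact h a b c (by omega) hb.1 hb.2 hc.1 hc.2
    obtain ⟨ρ, h1, h2⟩ := hT.d1 u v w α β γ ((Tup.congr k1).2 ht) hu hv hw a b c ha hb hc
    refine ⟨ρ, h1, ?_⟩
    rw [← h2]
    refine (c1_congr ht.sv ht.sw fun b' hb' c' hc' => ?_).symm
    rw [mem_mk] at hb' hc'
    exact h a b' c' ha.ge hb'.1 hb'.2 hc'.1 hc'.2
  · intro u v w α β γ ht hu hv hw a b c ha hb hc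
    have k1 : ∀ a ∈ mk n1 p n1, ∀ b ∈ mk (n2 + 1) (q + 1) mB, ∀ c ∈ mk (n3 + 1) r mC,
        T a b c = T' a b c := by
      intro a ha b hb c hc
      rw [mem_mk] at ha hb hc
      exact h a b c ha.1 (by omega) hb.2 hc.1 hc.2
    obtain ⟨ρ, h1, h2⟩ := hT.d2 u v w α β γ ((Tup.congr k1).2 ht) hu hv hw a b c ha hb hc
    refine ⟨ρ, h1, ?_⟩
    rw [← h2]
    refine (c2_congr ht.su ht.sw fun a' ha' c' hc' => ?_).symm
    rw [mem_mk] at ha' hc'
    exact h a' b c' ha'.1 hb.ge (by omega) hc'.1 hc'.2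
  · intro u v w α β γ ht hu hv hw a b c ha hb hc
    have k1 : ∀ a ∈ mk n1 p n1, ∀ b ∈ mk (n2 + 1) q mB, ∀ c ∈ mk (n3 + 1) (r + 1) mC,
        T a b c = T' a b c := by
      intro a ha b hb c hc
      rw [mem_mk] at ha hb hc
      exact h a b c ha.1 hb.1 hb.2 (by omega) hc.2
    obtain ⟨ρ, h1, h2⟩ := hT.d3 u v w α β γ ((Tup.congr k1).2 ht) hu hv hw a b c ha hb hc
    refine ⟨ρ, h1, ?_⟩
    rw [← h2]
    refine (c3_congr ht.su ht.sv fun a' ha' b' hb' => ?_).symm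
    rw [mem_mk] at ha' hb'
    exact h a' b' c ha'.1 hb'.1 hb'.2 hc.ge (by omega)

/-- Outside of the range `GT` holds trivially: there are no nonzero vectors supported in the empty
mask. -/
theorem GT_triv {T : FT n1 n2 n3} {mB mC p q r : ℕ}
    (h : n1 ≤ p ∨ n2 + 1 ≤ q ∨ mB ≤ q ∨ n3 + 1 ≤ r ∨ mC ≤ r) : GT T mB mC p q r := by
  have key : ∀ (p' q' r' : ℕ) (u : Fin n1 → ℂ) (v : Fin (n2 + 1) → ℂ) (w : Fin (n3 + 1) → ℂ)
      (α β γ : ℂ), p ≤ p' → q ≤ q' → r ≤ r' →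
      Tup T (mk n1 p' n1) (mk (n2 + 1) q' mB) (mk (n3 + 1) r' mC) u v w α β γ →
      u ≠ 0 → v ≠ 0 → w ≠ 0 → False := by
    intro p' q' r' u v w α β γ hp hq hr ht hu hv hw
    rcases h with h | h | h | h | h
    · exact GTcne ht.su hu (Or.inl (h.trans hp))
    · exact GTcne ht.sv hv (Or.inl (h.trans hq))
    · exact GTcne ht.sv hv (Or.inr (h.trans hq))
    · exact GTcne ht.sw hw (Or.inl (h.trans hr))
    · exact GTcne ht.sw hw (Or.inr (h.trans hr))
  refine ⟨?_, ?_, ?_, ?_, ?_⟩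
  · intro u v w α β γ ht hu hv hw
    exact (key p q r u v w α β γ le_rfl le_rfl le_rfl ht hu hv hw).elim
  · intro u v w α β γ ht hu hv hw
    exact (key p q r u v w α β γ le_rfl le_rfl le_rfl ht hu hv hw).elim
  · intro u v w α β γ ht hu hv hw
    exact (key _ q r u v w α β γ (Nat.le_succ p) le_rfl le_rfl ht hu hv hw).elim
  · intro u v w α β γ ht hu hv hw
    exact (key p _ r u v w α β γ le_rfl (Nat.le_succ q) le_rfl ht hu hv hw).elim
  · intro u v w α β γ ht hu hv hw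
    exact (key p q _ u v w α β γ le_rfl le_rfl (Nat.le_succ r) ht hu hv hw).elim

theorem GT_s23 {T : FT n1 n2 n3} {mB mC p q r : ℕ} (h : GT T mB mC p q r) :
    GT (s23 T) mC mB p r q := by
  refine ⟨FR_s23.2 h.fr, ?_, ?_, ?_, ?_⟩
  · intro u w v α γ β ht hu hw hv
    obtain ⟨h1, h2, h3⟩ := h.cu u v w α β γ (Tup_s23.1 ht) hu hv hw
    exact ⟨h1, h3, h2⟩
  · intro u w v α γ β ht hu hw hv a c b ha hc hb
    obtain ⟨ρ, h1, h2⟩ := h.d1 u v w α β γ (Tup_s23.1 ht) hu hv hw a b c ha hb hc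
    refine ⟨ρ, h1, ?_⟩
    rw [c1_s23, h2, sg_swap]
    ring
  · intro u w v α γ β ht hu hw hv a c b ha hc hb
    obtain ⟨ρ, h1, h2⟩ := h.d3 u v w α β γ (Tup_s23.1 ht) hu hv hw a b c ha hb hc
    refine ⟨ρ, h1, ?_⟩
    rw [c2_s23, h2, sg_swap]
  · intro u w v α γ β ht hu hw hv a c b ha hc hb
    obtain ⟨ρ, h1, h2⟩ := h.d2 u v w α β γ (Tup_s23.1 ht) hu hv hw a b c ha hb hc
    refine ⟨ρ, h1, ?_⟩
    rw [c3_s23, h2, sg_swap]

/-- Outside of the range the conditions `PW`, `ZW` hold trivially. -/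
theorem PW_triv {F : FT n1 n2 n3} {p q r : ℕ} (h : n1 ≤ p ∨ n2 + 1 ≤ q ∨ n3 ≤ r) : PW F p q r := by
  intro m _ m' _ hm' u v w α β γ ht hu hv hw
  exfalso
  rcases h with h | h | h
  · exact GTcne ht.su hu (Or.inl h)
  · exact GTcne ht.sv hv (Or.inl h)
  · exact GTcne ht.sw hw (Or.inr (by omega))

/-- A vector supported in the last index. -/
private theorem GTclast {n p : ℕ} {w : Fin (n + 1) → ℂ} (hp : n ≤ p)
    (h : Sup (mk (n + 1) p (n + 1)) w) : ∀ i, i ≠ po n → w i = 0 := by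
  intro i hi
  refine h i ?_
  rw [mem_mk]
  rintro ⟨h1, h2⟩
  refine hi (Fin.ext ?_)
  show i.val = n
  omega

private theorem GTclast_ne {n p : ℕ} {w : Fin (n + 1) → ℂ} (hp : n ≤ p)
    (h : Sup (mk (n + 1) p (n + 1)) w) (hw : w ≠ 0) : w (po n) ≠ 0 := by
  intro h0
  refine hw ?_
  funext i
  by_cases hi : i = po n
  · rw [hi, h0]
    rfl
  · rw [GTclast hp h i hi]
    rfl

private theorem GTclast_nz {n p : ℕ} (hn : 1 ≤ n) {w : Fin (n + 1) → ℂ} (hp : n ≤ p)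
    (h : Sup (mk (n + 1) p (n + 1)) w) (hw : w ≠ 0) : 3 * w (pb n) + 4 * w (po n) ≠ 0 := by
  rw [GTclast hp h (pb n) (pb_ne_po hn), mul_zero, zero_add]
  exact mul_ne_zero (by norm_num) (GTclast_ne hp h hw)

private theorem GTclast_rl {n p : ℕ} {w : Fin (n + 1) → ℂ} (hp : n ≤ p)
    (h : Sup (mk (n + 1) p (n + 1)) w) (hw : w ≠ 0) : Rl w := by
  have h1 := GTclast_ne hp h hw
  refine ⟨(w (po n))⁻¹, inv_ne_zero h1, fun i => ?_⟩
  by_cases hi : i = po n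
  · rw [hi, inv_mul_cancel₀ h1, Complex.one_im]
  · rw [GTclast hp h i hi, mul_zero, Complex.zero_im]

private theorem GTclast_sm {n p : ℕ} {w dw : Fin (n + 1) → ℂ} (hp : n ≤ p)
    (h : Sup (mk (n + 1) p (n + 1)) w) (hw : w ≠ 0) (hd : Sup (mk (n + 1) p (n + 1)) dw) :
    ∃ r : ℂ, dw = r • w := by
  have h1 := GTclast_ne hp h hw
  refine ⟨dw (po n) / w (po n), ?_⟩
  funext i
  rw [Pi.smul_apply, smul_eq_mul]
  by_cases hi : i = po n
  · rw [hi, div_mul_cancel₀ _ h1]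
  · rw [GTclast hp h i hi, GTclast hp hd i hi, mul_zero]

/-- The condition `ZW` outside of the range: `r = n3` means that the last vector is supported at
`po n3`. -/
theorem ZW_triv (h3 : 1 ≤ n3) {F : FT n1 n2 n3} {p q r : ℕ} (h : n1 ≤ p ∨ n2 + 1 ≤ q ∨ n3 ≤ r) :
    ZW F p q r := by
  intro m _ u v w α β γ ht hu hv hw
  rcases h with h | h | h
  · exact (GTcne ht.su hu (Or.inl h)).elim
  · exact (GTcne ht.sv hv (Or.inl h)).elim
  · exact GTclast_nz h3 h ht.sw hw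

private theorem GTcvt {F : FT n1 n2 n3} {p q r : ℕ} (h : n2 + 1 ≤ q ∨ n3 + 1 ≤ r) : VG F p q r := by
  intro _
  refine ⟨VR_empty ?_, ?_⟩
  · rcases h with h | h
    · exact Or.inl (mk_empty (Or.inl h))
    · exact Or.inr (mk_empty (Or.inl h))
  · intro v w sv sw _ hv hw
    rcases h with h | h
    · exact (GTcne sv hv (Or.inl h)).elim
    · exact (GTcne sw hw (Or.inl h)).elim

/-- `VG` for `p = n1`: then `q = n2` and `r = n3`, the first mask is empty and the other two consist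
of the last index, so the vectors are multiples of unit vectors. If `q = n2 + 1` or `r = n3 + 1` a
mask is empty. -/
theorem VG_base (h2 : 1 ≤ n2) (h3 : 1 ≤ n3) {F : FT n1 n2 n3} {p q r : ℕ} (hp : n1 ≤ p)
    (hp' : p ≤ n1) (hq : q ≤ n2 + 1) (hr : r ≤ n3 + 1) : VG F p q r := by
  rcases hq.eq_or_lt with e | hq1
  · exact GTcvt (Or.inl e.ge)
  · rcases hr.eq_or_lt with e | hr1
    · exact GTcvt (Or.inr e.ge)
    intro he
    have hq' : n2 ≤ q := by omega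
    have hr' : n3 ≤ r := by omega
    refine ⟨?_, ?_⟩
    · intro v w sv sw _ hv hw
      refine ⟨GTclast_rl hq' sv hv, GTclast_rl hr' sw hw, ?_⟩
      intro dv dw sdv sdw _
      exact ⟨GTclast_sm hq' sv hv sdv, GTclast_sm hr' sw hw sdw⟩
    · intro v w sv sw _ hv hw
      exact ⟨GTclast_nz h2 hq' sv hv, GTclast_nz h3 hr' sw hw⟩

theorem VG_triv {F : FT n1 n2 n3} {p q r : ℕ} (h : n2 + 1 ≤ q ∨ n3 + 1 ≤ r) : VG F p q r := by
  exact GTcvt h

theorem VG_s23 {F : FT n1 n2 n3} {p q r : ℕ} (h : VG F p q r) : VG (s23 F) p r q := by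
  intro he
  obtain ⟨h1, h2⟩ := h (by omega)
  refine ⟨VR_s23.2 h1, ?_⟩
  intro w v sw sv hc hw hv
  have h3 := h2 v w sv sw (fun a ha => by rw [← c1_s23]; exact hc a ha) hv hw
  exact ⟨h3.2, h3.1⟩

theorem Gd_s23 {F : FT n1 n2 n3} {a : Fin n1} {b : Fin (n2 + 1)} {c : Fin (n3 + 1)}
    (h : Gd F a b c) : Gd (s23 F) a c b := by
  refine ⟨?_, h.e2, h.e3, h.p2, h.p3, h.z2, h.z3, VG_s23 h.vg⟩
  intro m' hm' m hm
  rw [vt_s23]
  exact GT_s23 (h.gt m hm m' hm')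

/-- Locality of `Ee`. -/
private theorem GTcEe {F F' : FT n1 n2 n3} (h3 : 1 ≤ n3) (a : Fin n1) (b : Fin (n2 + 1))
    (h : ∀ (a' : Fin n1) (b' : Fin (n2 + 1)) (c' : Fin (n3 + 1)), a.val ≤ a'.val →
      b.val ≤ b'.val → (pb n3).val ≤ c'.val → F a' b' c' = F' a' b' c')
    (hF : Ee F a b) : Ee F' a b := by
  have hle : (pb n3).val ≤ (po n3).val := Nat.sub_le n3 1
  have e1 : (pb n3).val = n3 - 1 := rfl
  have e2 : (po n3).val = n3 := rfl
  intro m hm hb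
  have h1 := hF m hm hb
  rw [vt_congr m 0 F F' a.val b.val (pb n3).val h a b (po n3) le_rfl le_rfl hb hle (by omega),
    vt_congr m 1 F F' a.val b.val (pb n3).val h a b (pb n3) le_rfl le_rfl hb le_rfl
      (by omega)] at h1
  exact h1

/-- Locality of `PW`. -/
private theorem GTcPW {F F' : FT n1 n2 n3} {p q r : ℕ}
    (h : ∀ (a' : Fin n1) (b' : Fin (n2 + 1)) (c' : Fin (n3 + 1)), p ≤ a'.val →
      q ≤ b'.val → r ≤ c'.val → F a' b' c' = F' a' b' c')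
    (hF : PW F p q r) : PW F' p q r := by
  have e1 : (pb n3).val = n3 - 1 := rfl
  have e2 : (po n3).val = n3 := rfl
  by_cases hr : n3 ≤ r
  · exact PW_triv (Or.inr (Or.inr hr))
  · intro m hm m' hm' hm1 u v w α β γ ht hu hv hw
    have k1 : ∀ a ∈ mk n1 p n1, ∀ b ∈ mk (n2 + 1) q (n2 + 1 - m),
        ∀ c ∈ mk (n3 + 1) r (n3 + 1 - m'), vt m 1 F a b c = vt m 1 F' a b c := by
      intro a ha b hb c hc
      rw [mem_mk] at ha hb hc
      exact vt_congr m 1 F F' p q r h a b c ha.1 hb.1 hb.2 hc.1 (by omega)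
    have k2 := hF m hm m' hm' hm1 u v w α β γ ((Tup.congr k1).2 ht) hu hv hw
    have k3 : c3 (vt m 0 F) u v (po n3) = c3 (vt m 0 F') u v (po n3) := by
      refine c3_congr ht.su ht.sv fun a ha b hb => ?_
      rw [mem_mk] at ha hb
      exact vt_congr m 0 F F' p q r h a b _ ha.1 hb.1 hb.2 (by omega) (by omega)
    have k4 : c3 (vt m 1 F) u v (pb n3) = c3 (vt m 1 F') u v (pb n3) := by
      refine c3_congr ht.su ht.sv fun a ha b hb => ?_
      rw [mem_mk] at ha hb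
      exact vt_congr m 1 F F' p q r h a b _ ha.1 hb.1 hb.2 (by omega) (by omega)
    rw [k3, k4] at k2
    exact k2

/-- Locality of `ZW`. -/
private theorem GTcZW {F F' : FT n1 n2 n3} {p q r : ℕ}
    (h : ∀ (a' : Fin n1) (b' : Fin (n2 + 1)) (c' : Fin (n3 + 1)), p ≤ a'.val →
      q ≤ b'.val → r ≤ c'.val → F a' b' c' = F' a' b' c')
    (hF : ZW F p q r) : ZW F' p q r := by
  intro m hm u v w α β γ ht hu hv hw
  have k1 : ∀ a ∈ mk n1 p n1, ∀ b ∈ mk (n2 + 1) q (n2 + 1 - m),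
      ∀ c ∈ mk (n3 + 1) r (n3 + 1), vt m 0 F a b c = vt m 0 F' a b c := by
    intro a ha b hb c hc
    rw [mem_mk] at ha hb hc
    exact vt_congr m 0 F F' p q r h a b c ha.1 hb.1 hb.2 hc.1 (by omega)
  exact hF m hm u v w α β γ ((Tup.congr k1).2 ht) hu hv hw

/-- Locality of `VG`. -/
private theorem GTcVG {F F' : FT n1 n2 n3} {p q r : ℕ}
    (h : ∀ (a' : Fin n1) (b' : Fin (n2 + 1)) (c' : Fin (n3 + 1)), p ≤ a'.val →
      q ≤ b'.val → r ≤ c'.val → F a' b' c' = F' a' b' c')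
    (hF : VG F p q r) : VG F' p q r := by
  intro he
  obtain ⟨h1, h2⟩ := hF he
  have k1 : ∀ a ∈ mk n1 p n1, ∀ b ∈ mk (n2 + 1) q (n2 + 1), ∀ c ∈ mk (n3 + 1) r (n3 + 1),
      F a b c = F' a b c := by
    intro a ha b hb c hc
    rw [mem_mk] at ha hb hc
    exact h a b c ha.1 hb.1 hc.1
  refine ⟨(VR_congr k1).1 h1, ?_⟩
  intro v w sv sw hc hv hw
  refine h2 v w sv sw (fun a ha => ?_) hv hw
  rw [← hc a ha]
  exact c1_congr sv sw fun b hb c hc' => k1 a ha b hb c hc'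

/-- Locality: `Gd F a b c` depends only on the entries of `F` above `(a, b, c)`.

Proof. `GT_congr` with `vt_congr`; `Ee`: entries of `vt m 0 F`, `vt m 1 F` at `(a, b, pb n3)` and
`(a, b, po n3)` with `c = pb n3`; `PW`, `ZW`: `Tup.congr` and `c3_congr` (if `c.val > pb n3` then
the mask of `PW` is empty and in `ZW` nothing else is needed); `VG`: `VR_congr` and `c1_congr`. -/
theorem Gd_loc (h2 : 1 ≤ n2) (h3 : 1 ≤ n3) (F F' : FT n1 n2 n3) (a : Fin n1) (b : Fin (n2 + 1))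
    (c : Fin (n3 + 1)) (h : ∀ a' b' c', a ≤ a' → b ≤ b' → c ≤ c' → F a' b' c' = F' a' b' c')
    (hF : Gd F a b c) : Gd F' a b c := by
  have h' : ∀ (a' : Fin n1) (b' : Fin (n2 + 1)) (c' : Fin (n3 + 1)), a.val ≤ a'.val →
      b.val ≤ b'.val → c.val ≤ c'.val → F a' b' c' = F' a' b' c' := by
    intro a' b' c' ha hb hc
    exact h a' b' c' (Fin.le_def.2 ha) (Fin.le_def.2 hb) (Fin.le_def.2 hc)
  have h'' : ∀ (a' : Fin n1) (c' : Fin (n3 + 1)) (b' : Fin (n2 + 1)), a.val ≤ a'.val →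
      c.val ≤ c'.val → b.val ≤ b'.val → s23 F a' c' b' = s23 F' a' c' b' :=
    fun a' c' b' ha hc hb => h' a' b' c' ha hb hc
  refine ⟨?_, ?_, ?_, ?_, ?_, ?_, ?_, ?_⟩
  · intro m hm m' hm'
    by_cases hb : b.val < n2 + 1 - m
    · by_cases hc : c.val < n3 + 1 - m'
      · refine GT_congr ?_ hb hc (hF.gt m hm m' hm')
        intro a' b' c' ha hb' hb'' hc' hc''
        exact vt_congr m m' F F' a.val b.val c.val h' a' b' c' ha hb' hb'' hc' hc''
      · exact GT_triv (Or.inr (Or.inr (Or.inr (Or.inr (not_lt.1 hc)))))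
    · exact GT_triv (Or.inr (Or.inr (Or.inl (not_lt.1 hb))))
  · intro hc
    refine GTcEe h3 a b ?_ (hF.e3 hc)
    rw [← hc]
    exact h'
  · intro hb
    refine GTcEe h2 a c ?_ (hF.e2 hb)
    rw [← hb]
    exact h''
  · exact GTcPW h' hF.p3
  · exact GTcPW h'' hF.p2
  · intro hc
    exact GTcZW h' (hF.z3 hc)
  · intro hb
    exact GTcZW h'' (hF.z2 hb)
  · exact GTcVG h' hF.vg

end Pool.Agent.MPb0eR
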