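import Mathlib
import Pool.Agent.Lib.MP_b0e20b_ag_R.BC
import Pool.Agent.Lib.MP_b0e20b_ag_R.GTc

/-!
# MP_b0e20b_ag, project R: the steps for `Ee` and `PW`
-/

set_option autoImplicit false

open scoped BigOperators Topology
open Filter

namespace Pool.Agent.MPb0eR

variable {n1 n2 n3 : ℕ}

private theorem StP_fin {P : ℕ → ℝ → Prop} (h : ∀ m ≤ 2, ∃ X0 : ℝ, ∀ x ≥ X0, P m x) :
    ∃ X0 : ℝ, ∀ x ≥ X0, ∀ m ≤ 2, P m x := by
  obtain ⟨x0, h0⟩ := h 0 (by norm_num)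
  obtain ⟨x1, h1⟩ := h 1 (by norm_num)
  obtain ⟨x2, h2⟩ := h 2 le_rfl
  refine ⟨max x0 (max x1 x2), fun x hx m hm => ?_⟩
  have hx0 : x0 ≤ x := le_trans (le_max_left _ _) hx
  have hx1 : x1 ≤ x := le_trans (le_trans (le_max_left _ _) (le_max_right _ _)) hx
  have hx2 : x2 ≤ x := le_trans (le_trans (le_max_right _ _) (le_max_right _ _)) hx
  interval_cases m
  · exact h0 x hx0
  · exact h1 x hx1
  · exact h2 x hx2

/-- The step for `Ee`. Proof: fix `m ≤ 2` with `b0.val < n2 + 1 - m`. The number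
`vt m 0 (up F ..) a0 b0 (po n3)` does not depend on `x` (`vt_up_slice`), and by `vt_up` with `m' =
1`
`vt m 1 (up F ..) a0 b0 (pb n3) = const + κ * (sg * x)` with `κ > 0`. -/
theorem st_e (h2 : 1 ≤ n2) (h3 : 1 ≤ n3) (F : FT n1 n2 n3) (a0 : Fin n1) (b0 : Fin (n2 + 1)) :
    ∃ X0 : ℝ, ∀ x ≥ X0,
      Ee (up F a0 b0 (pb n3) (sg a0.val b0.val (pb n3).val * x)) a0 b0 := by
  have key : ∀ m ≤ 2, ∃ X0 : ℝ, ∀ x ≥ X0, b0.val < n2 + 1 - m →
      5 * |vt m 0 (up F a0 b0 (pb n3) (sg a0.val b0.val (pb n3).val * x)) a0 b0 (po n3)| <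
        3 * |vt m 1 (up F a0 b0 (pb n3) (sg a0.val b0.val (pb n3).val * x)) a0 b0 (pb n3)| := by
    intro m _
    by_cases hb : b0.val < n2 + 1 - m
    · have hc : (pb n3).val < n3 + 1 - 1 := by
        show n3 - 1 < n3 + 1 - 1
        omega
      obtain ⟨κ, hκ, hv⟩ := vt_up h2 h3 m 1 F a0 b0 (pb n3) hb hc
      have hs' : |sg a0.val b0.val (pb n3).val| = 1 := by
        rcases sg_cases a0.val b0.val (pb n3).val with h | h <;> rw [h] <;> norm_num
      generalize hd : vt m 0 (up F a0 b0 (pb n3) 0) a0 b0 (po n3) = d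
      generalize hcc : vt m 1 (up F a0 b0 (pb n3) 0) a0 b0 (pb n3) = c
      refine ⟨(5 * |d| + 3 * |c|) / (3 * κ) + 1, fun x hx _ => ?_⟩
      have h3κ : 0 < 3 * κ := by linarith
      have hq : 0 ≤ (5 * |d| + 3 * |c|) / (3 * κ) := by positivity
      have hx0 : 0 ≤ x := by linarith
      have hx' : 5 * |d| + 3 * |c| < 3 * κ * x := by
        have h1 : (5 * |d| + 3 * |c|) / (3 * κ) < x := by linarith
        rw [div_lt_iff₀ h3κ] at h1
        linarith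
      rw [(vt_up_slice m F a0 b0 (pb n3) _ a0 b0 (po n3)).1 (pb_ne_po h3).symm, hd,
        hv _ a0 b0 (pb n3) hb hc]
      have e : ad (vt m 1 (up F a0 b0 (pb n3) 0)) a0 b0 (pb n3)
          (κ * (sg a0.val b0.val (pb n3).val * x)) a0 b0 (pb n3)
          = c + κ * (sg a0.val b0.val (pb n3).val * x) := by
        rw [ad, hcc, if_pos ⟨rfl, rfl, rfl⟩]
      rw [e]
      have h1 : |κ * (sg a0.val b0.val (pb n3).val * x)| = κ * x := by
        rw [abs_mul, abs_mul, hs', abs_of_pos hκ, abs_of_nonneg hx0, one_mul]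
      have h4 := abs_sub_abs_le_abs_sub (κ * (sg a0.val b0.val (pb n3).val * x)) (-c)
      rw [h1, abs_neg, sub_neg_eq_add, add_comm _ c] at h4
      linarith
    · exact ⟨0, fun x _ h => absurd h hb⟩
  obtain ⟨X0, hX⟩ := StP_fin key
  exact ⟨X0, fun x hx m hm => hX x hx m hm⟩

private theorem StP_congr {F F' : FT n1 n2 n3} {p q r : ℕ}
    (h : ∀ (a : Fin n1) (b : Fin (n2 + 1)) (c : Fin (n3 + 1)), p ≤ a.val → q ≤ b.val →
      r ≤ c.val → F a b c = F' a b c) (hF : PW F p q r) : PW F' p q r := by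
  by_cases hr : n3 ≤ r
  · exact PW_triv (Or.inr (Or.inr hr))
  intro m hm m' hm' h1 u v w α β γ ht hu hv hw
  have ht' : Tup (vt m 1 F) (mk n1 p n1) (mk (n2 + 1) q (n2 + 1 - m))
      (mk (n3 + 1) r (n3 + 1 - m')) u v w α β γ := by
    refine (Tup.congr fun a ha b hb c hc => ?_).2 ht
    rw [mem_mk] at ha hb hc
    exact vt_congr m 1 F F' p q r h a b c ha.1 hb.1 hb.2 hc.1 (by omega)
  have h2 := hF m hm m' hm' h1 u v w α β γ ht' hu hv hw
  have e1 : c3 (vt m 0 F') u v (po n3) = c3 (vt m 0 F) u v (po n3) := by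
    refine c3_congr ht.su ht.sv fun a ha b hb => ?_
    rw [mem_mk] at ha hb
    exact (vt_congr m 0 F F' p q r h a b (po n3) ha.1 hb.1 hb.2 (by show r ≤ n3; omega)
      (by show n3 < n3 + 1 - 0; omega)).symm
  have e2 : c3 (vt m 1 F') u v (pb n3) = c3 (vt m 1 F) u v (pb n3) := by
    refine c3_congr ht.su ht.sv fun a ha b hb => ?_
    rw [mem_mk] at ha hb
    exact (vt_congr m 1 F F' p q r h a b (pb n3) ha.1 hb.1 hb.2 (by show r ≤ n3 - 1; omega)
      (by show n3 - 1 < n3 + 1 - 1; omega)).symm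
  rw [e1, e2]
  exact h2

private theorem StP_up {F : FT n1 n2 n3} {a0 : Fin n1} {b0 : Fin (n2 + 1)}
    {c0 : Fin (n3 + 1)} (hG : ∀ a' b' c', a0 ≤ a' → b0 ≤ b' → c0 ≤ c' →
      (a', b', c') ≠ (a0, b0, c0) → Gd F a' b' c') (x : ℝ) {p q r : ℕ} (hp : a0.val ≤ p)
    (hq : b0.val ≤ q) (hr : c0.val ≤ r) (hne : a0.val < p ∨ b0.val < q ∨ c0.val < r) :
    PW (up F a0 b0 c0 x) p q r := by
  by_cases h1 : n1 ≤ p ∨ n2 + 1 ≤ q ∨ n3 ≤ r
  · exact PW_triv h1
  push Not at h1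
  obtain ⟨h1, h2, h3⟩ := h1
  have hg := (hG ⟨p, h1⟩ ⟨q, h2⟩ ⟨r, by omega⟩ (Fin.le_def.2 hp) (Fin.le_def.2 hq)
    (Fin.le_def.2 hr) (by
      intro he
      rw [Prod.mk.injEq, Prod.mk.injEq] at he
      obtain ⟨ea, eb, ec⟩ := he
      have ea' := congrArg Fin.val ea
      have eb' := congrArg Fin.val eb
      have ec' := congrArg Fin.val ec
      simp only at ea' eb' ec'
      omega)).p3
  refine StP_congr (fun a b c ha hb hc => ?_) hg
  rw [up, if_neg]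
  rintro ⟨e1, e2, e3⟩
  rw [e1] at ha
  rw [e2] at hb
  rw [e3] at hc
  omega

private theorem StP_hom {S T : FT n1 n2 n3} {u : Fin n1 → ℂ} {v : Fin (n2 + 1) → ℂ} {r t : ℂ}
    {b c : Fin (n3 + 1)} (hr : r ≠ 0) (ht : t ≠ 0)
    (h : 5 * ‖c3 S (r • u) (t • v) b‖ < 3 * ‖c3 T (r • u) (t • v) c‖) :
    5 * ‖c3 S u v b‖ < 3 * ‖c3 T u v c‖ := by
  rw [c3_smul_left, c3_smul_right, c3_smul_left, c3_smul_right, norm_mul, norm_mul, norm_mul,
    norm_mul] at h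
  have h1 : 0 < ‖r‖ * ‖t‖ := mul_pos (norm_pos_iff.2 hr) (norm_pos_iff.2 ht)
  refine lt_of_mul_lt_mul_left ?_ h1.le
  linarith

/-- The case of a corner below `pb n3`. -/
private theorem StP_a (h3 : 1 ≤ n3) (F : FT n1 n2 n3) (a0 : Fin n1) (b0 : Fin (n2 + 1))
    (c0 : Fin (n3 + 1)) (hG : ∀ a' b' c', a0 ≤ a' → b0 ≤ b' → c0 ≤ c' →
      (a', b', c') ≠ (a0, b0, c0) → Gd F a' b' c') {m m' : ℕ} (hm : m ≤ 2) (hm' : m' ≤ 2)
    (h1 : 1 ≤ m') (hb : b0.val < n2 + 1 - m) (hc : c0.val < n3 + 1 - m')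
    (hcp : c0.val < n3 - 1) {s : ℝ} (hs : s = 1 ∨ s = -1) :
    ∃ L0 : ℝ, ∀ L ≥ L0, ∀ u v w α β γ,
      Tup (ad (vt m 1 (up F a0 b0 c0 0)) a0 b0 c0 (s * L)) (mk n1 a0.val n1)
        (mk (n2 + 1) b0.val (n2 + 1 - m)) (mk (n3 + 1) c0.val (n3 + 1 - m')) u v w α β γ →
      u ≠ 0 → v ≠ 0 → w ≠ 0 →
      5 * ‖c3 (vt m 0 (up F a0 b0 c0 0)) u v (po n3)‖ <
        3 * ‖c3 (vt m 1 (up F a0 b0 c0 0)) u v (pb n3)‖ := by
  have hSA : a0 ∈ mk n1 a0.val n1 := mem_mk.2 ⟨le_rfl, a0.isLt⟩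
  have hSB : b0 ∈ mk (n2 + 1) b0.val (n2 + 1 - m) := mem_mk.2 ⟨le_rfl, hb⟩
  have hSC : c0 ∈ mk (n3 + 1) c0.val (n3 + 1 - m') := mem_mk.2 ⟨le_rfl, hc⟩
  have hc3 : ∀ (S : FT n1 n2 n3) (c : Fin (n3 + 1)), Continuous
      fun z : (Fin n1 → ℂ) × (Fin (n2 + 1) → ℂ) × (Fin (n3 + 1) → ℂ) => c3 S z.1 z.2.1 c := by
    intro S c
    have h2 := (continuous_c3 S).comp
      (continuous_fst.prodMk (continuous_fst.comp continuous_snd) :
        Continuous fun z : (Fin n1 → ℂ) × (Fin (n2 + 1) → ℂ) × (Fin (n3 + 1) → ℂ) =>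
          (z.1, z.2.1))
    exact (continuous_apply c).comp h2
  have hK : IsClosed {z : (Fin n1 → ℂ) × (Fin (n2 + 1) → ℂ) × (Fin (n3 + 1) → ℂ) |
      3 * ‖c3 (vt m 1 (up F a0 b0 c0 0)) z.1 z.2.1 (pb n3)‖ ≤
        5 * ‖c3 (vt m 0 (up F a0 b0 c0 0)) z.1 z.2.1 (po n3)‖} :=
    isClosed_le (continuous_const.mul (hc3 _ _).norm) (continuous_const.mul (hc3 _ _).norm)
  obtain ⟨L0, hL⟩ := bcp (T := vt m 1 (up F a0 b0 c0 0)) hs hSA hSB hSC _ hK (by
    rw [Set.mem_ofPred_eq, not_le, c3_single, c3_single]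
    have hlt : c0 < pb n3 := Fin.lt_def.2 hcp
    have he := (hG a0 b0 (pb n3) le_rfl le_rfl hlt.le (by
      intro he
      rw [Prod.mk.injEq, Prod.mk.injEq] at he
      exact hlt.ne' he.2.2)).e3 rfl m hm hb
    have hag : ∀ (a : Fin n1) (b : Fin (n2 + 1)) (c : Fin (n3 + 1)), a0.val ≤ a.val →
        b0.val ≤ b.val → n3 - 1 ≤ c.val → F a b c = up F a0 b0 c0 0 a b c := by
      intro a b c _ _ h6
      rw [up, if_neg]
      rintro ⟨-, -, e3⟩
      rw [e3] at h6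
      omega
    rw [Complex.norm_real, Complex.norm_real, Real.norm_eq_abs, Real.norm_eq_abs,
      ← vt_congr m 0 F (up F a0 b0 c0 0) a0.val b0.val (n3 - 1) hag a0 b0 (po n3) le_rfl le_rfl hb
        (by show n3 - 1 ≤ n3; omega) (by show n3 < n3 + 1 - 0; omega),
      ← vt_congr m 1 F (up F a0 b0 c0 0) a0.val b0.val (n3 - 1) hag a0 b0 (pb n3) le_rfl le_rfl hb
        (by show n3 - 1 ≤ n3 - 1; omega) (by show n3 - 1 < n3 + 1 - 1; omega)]
    exact he) (by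
    intro u v w α β γ hu hv hw ht
    rw [Set.mem_ofPred_eq, not_le]
    rw [mk_erase rfl, mk_erase rfl, mk_erase rfl] at ht
    rcases ht with ht | ht | ht | ht
    · exact StP_up hG 0 (Nat.le_succ _) (Nat.le_succ _) le_rfl (Or.inl (Nat.lt_succ_self _)) m hm
        m' hm' h1 u v w α β γ ht hu hv hw
    · exact StP_up hG 0 (Nat.le_succ _) le_rfl (Nat.le_succ _) (Or.inl (Nat.lt_succ_self _)) m hm
        m' hm' h1 u v w α β γ ht hu hv hw
    · exact StP_up hG 0 le_rfl (Nat.le_succ _) (Nat.le_succ _)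
        (Or.inr (Or.inl (Nat.lt_succ_self _))) m hm m' hm' h1 u v w α β γ ht hu hv hw
    · exact StP_up hG 0 (Nat.le_succ _) (Nat.le_succ _) (Nat.le_succ _)
        (Or.inl (Nat.lt_succ_self _)) m hm m' hm' h1 u v w α β γ ht hu hv hw)
  refine ⟨L0, fun L hL0 u v w α β γ ht hu hv hw => ?_⟩
  obtain ⟨r, ia, hr, n1'⟩ := exists_nrm hu
  obtain ⟨t, ib, ht', n2'⟩ := exists_nrm hv
  obtain ⟨x, ic, hx, n3'⟩ := exists_nrm hw
  have hh := hL L hL0 ia ib ic _ _ _ _ _ _ (ht.smul hr ht' hx) n1' n2' n3'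
  rw [Set.mem_ofPred_eq, not_le] at hh
  exact StP_hom hr ht' hh

/-- The case of the corner `pb n3`. -/
private theorem StP_b (h3 : 1 ≤ n3) (F : FT n1 n2 n3) (a0 : Fin n1) (b0 : Fin (n2 + 1))
    (hG : ∀ a' b' c', a0 ≤ a' → b0 ≤ b' → pb n3 ≤ c' →
      (a', b', c') ≠ (a0, b0, pb n3) → Gd F a' b' c') {m m' : ℕ} (hm : m ≤ 2) (hm' : m' ≤ 2)
    (h1 : 1 ≤ m') (hb : b0.val < n2 + 1 - m) (hc : (pb n3).val < n3 + 1 - m') {s : ℝ}
    (hs : s = 1 ∨ s = -1) :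
    ∃ L0 : ℝ, ∀ L ≥ L0, ∀ u v w α β γ,
      Tup (ad (vt m 1 (up F a0 b0 (pb n3) 0)) a0 b0 (pb n3) (s * L)) (mk n1 a0.val n1)
        (mk (n2 + 1) b0.val (n2 + 1 - m)) (mk (n3 + 1) (pb n3).val (n3 + 1 - m')) u v w α β γ →
      u ≠ 0 → v ≠ 0 → w ≠ 0 →
      5 * ‖c3 (vt m 0 (up F a0 b0 (pb n3) 0)) u v (po n3)‖ < 3 * ‖γ * w (pb n3)‖ := by
  have hSA : a0 ∈ mk n1 a0.val n1 := mem_mk.2 ⟨le_rfl, a0.isLt⟩
  have hSB : b0 ∈ mk (n2 + 1) b0.val (n2 + 1 - m) := mem_mk.2 ⟨le_rfl, hb⟩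
  have hSC : pb n3 ∈ mk (n3 + 1) (pb n3).val (n3 + 1 - m') := mem_mk.2 ⟨le_rfl, hc⟩
  have hem : (mk (n3 + 1) (pb n3).val (n3 + 1 - m')).erase (pb n3) = ∅ := by
    rw [mk_erase rfl]
    refine mk_empty (Or.inr ?_)
    show n3 + 1 - m' ≤ n3 - 1 + 1
    omega
  obtain ⟨L0, hL⟩ := by_seq (T := vt m 1 (up F a0 b0 (pb n3) 0)) (a0 := a0) (b0 := b0)
    (c0 := pb n3) (s := s) (SA := mk n1 a0.val n1) (SB := mk (n2 + 1) b0.val (n2 + 1 - m))
    (SC := mk (n3 + 1) (pb n3).val (n3 + 1 - m'))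
    (fun _ u v w _ _ γ => 5 * ‖c3 (vt m 0 (up F a0 b0 (pb n3) 0)) u v (po n3)‖ <
      3 * ‖γ * w (pb n3)‖) (by
    intro L ia ib ic u v w α β γ h
    obtain ⟨u0, v0, w0, lv, nu, nv, nw, hcase⟩ := cls hs hSA hSB hSC h
    have hl : Tendsto (fun n => 5 * ‖c3 (vt m 0 (up F a0 b0 (pb n3) 0)) (u n) (v n) (po n3)‖) uf
        (𝓝 (5 * ‖c3 (vt m 0 (up F a0 b0 (pb n3) 0)) u0 v0 (po n3)‖)) :=
      (lim_c3 lv.hu lv.hv (po n3)).norm.const_mul 5
    have hww : Tendsto (fun n => w n (pb n3)) uf (𝓝 (w0 (pb n3))) :=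
      (tendsto_pi_nhds.1 lv.hw) (pb n3)
    have hbad : ∀ {SA' : Finset (Fin n1)} {SB' : Finset (Fin (n2 + 1))} {α0 β0 γ0 : ℂ},
        ¬ Tup (vt m 1 (up F a0 b0 (pb n3) 0)) SA' SB'
          ((mk (n3 + 1) (pb n3).val (n3 + 1 - m')).erase (pb n3)) u0 v0 w0 α0 β0 γ0 := by
      intro SA' SB' α0 β0 γ0 ht
      apply nw.ne
      funext c
      refine ht.sw c ?_
      rw [hem]
      exact Finset.notMem_empty c
    rcases hcase with hM | ⟨α0, β0, γ0, lc, h12 | h13 | h23 | h123⟩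
    · obtain ⟨-, -, -, -, -, hic, -, -, hγ⟩ := hM
      have h4 : Tendsto (fun n => 3 * ‖γ n‖) uf atTop := hγ.const_mul_atTop (by norm_num)
      filter_upwards [hl.eventually (gt_mem_nhds (lt_add_one _)),
        h4.eventually_gt_atTop (5 * ‖c3 (vt m 0 (up F a0 b0 (pb n3) 0)) u0 v0 (po n3)‖ + 1)]
        with n hn hn'
      have h5 : w n (pb n3) = 1 := by
        rw [← hic]
        exact (h.nw n).1
      rw [h5, mul_one]
      exact hn.trans hn'
    · obtain ⟨ht, -⟩ := h12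
      have hr : Tendsto (fun n => 3 * ‖γ n * w n (pb n3)‖) uf (𝓝 (3 * ‖γ0 * w0 (pb n3)‖)) :=
        (lc.hγ.mul hww).norm.const_mul 3
      refine hl.eventually_lt hr ?_
      rw [← ht.e3 (pb n3) hSC]
      rw [mk_erase rfl, mk_erase rfl] at ht
      exact StP_up hG 0 (Nat.le_succ _) (Nat.le_succ _) le_rfl (Or.inl (Nat.lt_succ_self _)) m hm
        m' hm' h1 u0 v0 w0 α0 β0 γ0 ht nu.ne nv.ne nw.ne
    · exact absurd h13.1 hbad
    · exact absurd h23.1 hbad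
    · exact absurd h123 hbad)
  refine ⟨L0, fun L hL0 u v w α β γ ht hu hv hw => ?_⟩
  obtain ⟨r, ia, hr, n1'⟩ := exists_nrm hu
  obtain ⟨t, ib, ht', n2'⟩ := exists_nrm hv
  obtain ⟨x, ic, hx, n3'⟩ := exists_nrm hw
  have hh := hL L hL0 ia ib ic _ _ _ _ _ _ (ht.smul hr ht' hx) n1' n2' n3'
  have e1 : r * t / x * γ * (x • w) (pb n3) = r * t * (γ * w (pb n3)) := by
    rw [Pi.smul_apply, smul_eq_mul]
    field_simp
  rw [e1, c3_smul_left, c3_smul_right, norm_mul, norm_mul, norm_mul (r * t), norm_mul r t] at hh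
  have h4 : 0 < ‖r‖ * ‖t‖ := mul_pos (norm_pos_iff.2 hr) (norm_pos_iff.2 ht')
  refine lt_of_mul_lt_mul_left ?_ h4.le
  linarith

/-- The step for `PW`.

Proof. Fix `m ≤ 2`, `1 ≤ m' ≤ 2` (finitely many cases; take the maximum of the bounds). If
`b0.val ≥ n2 + 1 - m` or `c0.val ≥ n3 + 1 - m'` a mask is empty. Otherwise let `F0 = up F a0 b0 c0
0`,
`F_x = up F a0 b0 c0 (sg * x)`, `T = vt m 1 F0`; the masks are `SA = mk n1 p n1`,
`SB = mk (n2 + 1) q (n2 + 1 - m)`, `SC = mk (n3 + 1) r (n3 + 1 - m')` (`p, q, r` the values of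
`a0, b0, c0`); in the masks `vt m 1 F_x = ad T a0 b0 c0 (sg * (κ * x))` (`vt_mode`, `vt_up`), so the
tuples of `vt m 1 F_x` are those of this tensor (`Tup.congr`).

Case `c0 < pb n3`: the slices `po n3` of `vt m 0 F_x` and `pb n3` of `vt m 1 F_x` do not depend on
`x`
(`vt_up_slice`). Apply `bcp` to
`K = {5 ‖c3 (vt m 0 F0) u v (po n3)‖ ≥ 3 ‖c3 T u v (pb n3)‖}`, closed. `hM`: this is `Ee` at
`(a0, b0)` for `F0`, which follows from `(hG a0 b0 (pb n3)).e3` (`c3_single`; the slices `pb n3` and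
`po n3` of `F` and `F0` agree). `hL`: a tuple of one of the four smaller masks is excluded by `PW F`
at
the corner `(p+1, q+1, r)`, `(p+1, q, r+1)`, `(p, q+1, r+1)`, `(p+1, q+1, r+1)` respectively (`hG`
if
the corner is in the range, `PW_triv` or an empty mask otherwise; `F` and `F0` agree above these
corners, `vt_congr`, `Tup.congr`, `c3_congr`; `mk_erase`). The conclusion of `bcp` is for normalised
tuples; both sides of the inequality are homogeneous, so it holds for all nonzero tuples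
(`exists_nrm`, `Tup.smul`).

Case `c0 = pb n3`: then `m' = 1` and `SC = {pb n3}`. Apply `by_seq` to
`Q = (5 ‖c3 (vt m 0 F0) u v (po n3)‖ < 3 ‖γ * w (pb n3)‖)`; note `γ * w (pb n3) =
c3 (vt m 1 F_x) u v (pb n3)` for the tuples of `vt m 1 F_x`, and that the slice `po n3` of
`vt m 0 F_x` does not depend on `x`. For a `Sq` use `cls`: in the first case `‖γ n‖ → ∞` and
`w n (pb n3) = 1`, the left-hand side is bounded. In the second case the left-hand side converges to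
`5 ‖c3 (vt m 0 F0) u0 v0 (po n3)‖` and the right-hand side to `3 ‖γ0 * w0 (pb n3)‖ =
3 ‖c3 T u0 v0 (pb n3)‖`, which is larger by `PW F` at the corner `(p+1, q+1, r)`. In the other cases
`w0` is supported in `SC.erase (pb n3) = ∅`, but `w0 ≠ 0`. -/
theorem st_pw (h2 : 1 ≤ n2) (h3 : 1 ≤ n3) (F : FT n1 n2 n3) (a0 : Fin n1) (b0 : Fin (n2 + 1))
    (c0 : Fin (n3 + 1)) (hG : ∀ a' b' c', a0 ≤ a' → b0 ≤ b' → c0 ≤ c' →
      (a', b', c') ≠ (a0, b0, c0) → Gd F a' b' c') :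
    ∃ X0 : ℝ, ∀ x ≥ X0, PW (up F a0 b0 c0 (sg a0.val b0.val c0.val * x))
      a0.val b0.val c0.val := by
  have key : ∀ m ≤ 2, ∃ X0 : ℝ, ∀ x ≥ X0, ∀ m' ≤ 2, 1 ≤ m' → ∀ u v w α β γ,
      Tup (vt m 1 (up F a0 b0 c0 (sg a0.val b0.val c0.val * x))) (mk n1 a0.val n1)
        (mk (n2 + 1) b0.val (n2 + 1 - m)) (mk (n3 + 1) c0.val (n3 + 1 - m'))
        u v w α β γ → u ≠ 0 → v ≠ 0 → w ≠ 0 →
      5 * ‖c3 (vt m 0 (up F a0 b0 c0 (sg a0.val b0.val c0.val * x))) u v (po n3)‖ <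
        3 * ‖c3 (vt m 1 (up F a0 b0 c0 (sg a0.val b0.val c0.val * x))) u v (pb n3)‖ := by
    intro m hm
    refine StP_fin fun m' hm' => ?_
    by_cases h0 : 1 ≤ m' ∧ b0.val < n2 + 1 - m ∧ c0.val < n3 + 1 - m'
    · obtain ⟨h1, hb, hc⟩ := h0
      have hs := sg_cases a0.val b0.val c0.val
      obtain ⟨κ, hκ, hvt⟩ := vt_up h2 h3 m 1 F a0 b0 c0 hb (by omega)
      have hpo : po n3 ≠ c0 := by
        intro he
        have he' := congrArg Fin.val he
        have h5 : (po n3).val = n3 := rfl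
        omega
      have hT : ∀ (x : ℝ) u v w α β γ,
          Tup (vt m 1 (up F a0 b0 c0 (sg a0.val b0.val c0.val * x))) (mk n1 a0.val n1)
            (mk (n2 + 1) b0.val (n2 + 1 - m)) (mk (n3 + 1) c0.val (n3 + 1 - m'))
            u v w α β γ →
          Tup (ad (vt m 1 (up F a0 b0 c0 0)) a0 b0 c0 (sg a0.val b0.val c0.val * (κ * x)))
            (mk n1 a0.val n1) (mk (n2 + 1) b0.val (n2 + 1 - m))
            (mk (n3 + 1) c0.val (n3 + 1 - m')) u v w α β γ := by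
        intro x u v w α β γ ht
        refine (Tup.congr fun a ha b hb' c hc' => ?_).1 ht
        rw [mem_mk] at ha hb' hc'
        rw [hvt _ a b c hb'.2 (by omega), mul_left_comm]
      have e0 : ∀ (x : ℝ) (u : Fin n1 → ℂ) (v : Fin (n2 + 1) → ℂ),
          c3 (vt m 0 (up F a0 b0 c0 (sg a0.val b0.val c0.val * x))) u v (po n3) =
            c3 (vt m 0 (up F a0 b0 c0 0)) u v (po n3) := by
        intro x u v
        exact Finset.sum_congr rfl fun a _ => Finset.sum_congr rfl fun b _ => by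
          rw [(vt_up_slice m F a0 b0 c0 _ a b (po n3)).1 hpo]
      by_cases hcp : c0.val < n3 - 1
      · obtain ⟨L0, hL⟩ := StP_a h3 F a0 b0 c0 hG hm hm' h1 hb hc hcp hs
        have hpb : pb n3 ≠ c0 := by
          intro he
          have he' := congrArg Fin.val he
          have h5 : (pb n3).val = n3 - 1 := rfl
          omega
        have e1 : ∀ (x : ℝ) (u : Fin n1 → ℂ) (v : Fin (n2 + 1) → ℂ),
            c3 (vt m 1 (up F a0 b0 c0 (sg a0.val b0.val c0.val * x))) u v (pb n3) =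
              c3 (vt m 1 (up F a0 b0 c0 0)) u v (pb n3) := by
          intro x u v
          exact Finset.sum_congr rfl fun a _ => Finset.sum_congr rfl fun b _ => by
            rw [(vt_up_slice m F a0 b0 c0 _ a b (pb n3)).2 hpb.symm hpo.symm hpb]
        refine ⟨L0 / κ, fun x hx _ u v w α β γ ht hu hv hw => ?_⟩
        rw [e0, e1]
        exact hL (κ * x) (by rw [ge_iff_le, div_le_iff₀ hκ] at hx; linarith) u v w α β γ
          (hT x u v w α β γ ht) hu hv hw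
      · have hce : c0 = pb n3 := by
          apply Fin.ext
          show c0.val = n3 - 1
          omega
        subst hce
        obtain ⟨L0, hL⟩ := StP_b h3 F a0 b0 hG hm hm' h1 hb hc hs
        refine ⟨L0 / κ, fun x hx _ u v w α β γ ht hu hv hw => ?_⟩
        rw [e0, ht.e3 (pb n3) (mem_mk.2 ⟨le_rfl, hc⟩)]
        exact hL (κ * x) (by rw [ge_iff_le, div_le_iff₀ hκ] at hx; linarith) u v w α β γ
          (hT x u v w α β γ ht) hu hv hw
    · refine ⟨0, fun x _ h1 u v w α β γ ht hu hv hw => ?_⟩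
      exfalso
      by_cases hb : b0.val < n2 + 1 - m
      · have hc : n3 + 1 - m' ≤ c0.val := by
          by_contra hcon
          exact h0 ⟨h1, hb, by omega⟩
        apply hw
        funext c
        refine ht.sw c ?_
        rw [mk_empty (Or.inr hc)]
        exact Finset.notMem_empty c
      · apply hv
        funext b
        refine ht.sv b ?_
        rw [mk_empty (Or.inr (by omega))]
        exact Finset.notMem_empty b
  obtain ⟨X0, hX⟩ := StP_fin key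
  exact ⟨X0, fun x hx m hm => hX x hx m hm⟩

end Pool.Agent.MPb0eR
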