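import Mathlib
import Pool.Agent.Lib.MP_b0e20b_ag_R.Perm
import Pool.Agent.Lib.MP_b0e20b_ag_R.Cpt

/-!
# MP_b0e20b_ag, project R: dominance of a large entry
-/

set_option autoImplicit false

open scoped BigOperators Topology
open Filter

namespace Pool.Agent.MPb0eR

section

variable {A B C : Type} [Fintype A] [Fintype B] [Fintype C] [DecidableEq A] [DecidableEq B]
  [DecidableEq C] {T : A → B → C → ℝ} {s : ℝ} {SA : Finset A} {SB : Finset B} {SC : Finset C}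

private theorem dom_pigeon (a0 : A) (b0 : B) (c0 : C)
    (h : ∀ n : ℕ, ∃ (ia : A) (ib : B) (ic : C) (u : A → ℂ) (v : B → ℂ) (w : C → ℂ) (α β γ : ℂ),
      Tup T SA SB SC u v w α β γ ∧ Nrm u ia ∧ Nrm v ib ∧ Nrm w ic ∧
        (n : ℝ) * ‖v b0 * w c0‖ < ‖c1 T v w a0‖) :
    ∃ (ia : A) (ib : B) (ic : C), ∀ n : ℕ, ∃ (u : A → ℂ) (v : B → ℂ) (w : C → ℂ) (α β γ : ℂ),
      Tup T SA SB SC u v w α β γ ∧ Nrm u ia ∧ Nrm v ib ∧ Nrm w ic ∧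
        (n : ℝ) * ‖v b0 * w c0‖ < ‖c1 T v w a0‖ := by
  by_contra hcon
  push Not at hcon
  choose N hN using hcon
  obtain ⟨ia, ib, ic, u, v, w, α, β, γ, ht, h1, h2, h3, h4⟩ :=
    h (Finset.univ.sup fun p : A × B × C => N p.1 p.2.1 p.2.2)
  have h5 := hN ia ib ic u v w α β γ ht h1 h2 h3
  have h6 : N ia ib ic ≤ Finset.univ.sup fun p : A × B × C => N p.1 p.2.1 p.2.2 :=
    Finset.le_sup (f := fun p : A × B × C => N p.1 p.2.1 p.2.2) (Finset.mem_univ (ia, ib, ic))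
  have h7 : (N ia ib ic : ℝ) ≤
      ((Finset.univ.sup fun p : A × B × C => N p.1 p.2.1 p.2.2 : ℕ) : ℝ) := by
    exact_mod_cast h6
  have h8 := mul_le_mul_of_nonneg_right h7 (norm_nonneg (v b0 * w c0))
  linarith

private theorem dom_bdd (a0 : A) (b0 : B) (c0 : C)
    (hc : ∀ u v w α β γ, Tup T SA SB SC u v w α β γ → u ≠ 0 → v ≠ 0 → w ≠ 0 →
      v b0 ≠ 0 ∧ w c0 ≠ 0) :
    ∃ M : ℝ, ∀ u v w α β γ, Tup T SA SB SC u v w α β γ → u ≠ 0 → v ≠ 0 → w ≠ 0 →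
      ‖c1 T v w a0‖ ≤ M * ‖v b0 * w c0‖ := by
  by_contra hcon
  push Not at hcon
  have hn : ∀ n : ℕ, ∃ (ia : A) (ib : B) (ic : C) (u : A → ℂ) (v : B → ℂ) (w : C → ℂ)
      (α β γ : ℂ), Tup T SA SB SC u v w α β γ ∧ Nrm u ia ∧ Nrm v ib ∧ Nrm w ic ∧
        (n : ℝ) * ‖v b0 * w c0‖ < ‖c1 T v w a0‖ := by
    intro n
    obtain ⟨u, v, w, α, β, γ, ht, hu, hv, hw, hlt⟩ := hcon n
    obtain ⟨r, ia, hr, h1⟩ := exists_nrm hu
    obtain ⟨t, ib, ht', h2⟩ := exists_nrm hv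
    obtain ⟨x, ic, hx, h3⟩ := exists_nrm hw
    refine ⟨ia, ib, ic, r • u, t • v, x • w, _, _, _, ht.smul hr ht' hx, h1, h2, h3, ?_⟩
    rw [c1_smul_left, c1_smul_right, Pi.smul_apply, Pi.smul_apply, smul_eq_mul, smul_eq_mul]
    have e1 : t * v b0 * (x * w c0) = t * x * (v b0 * w c0) := by ring
    have e2 : t * (x * c1 T v w a0) = t * x * c1 T v w a0 := by ring
    have h4 : 0 < ‖t * x‖ := norm_pos_iff.2 (mul_ne_zero ht' hx)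
    rw [e1, e2, norm_mul (t * x), norm_mul (t * x)]
    calc (n : ℝ) * (‖t * x‖ * ‖v b0 * w c0‖) = ‖t * x‖ * ((n : ℝ) * ‖v b0 * w c0‖) := by ring
      _ < ‖t * x‖ * ‖c1 T v w a0‖ := mul_lt_mul_of_pos_left hlt h4
  obtain ⟨ia, ib, ic, hn'⟩ := dom_pigeon a0 b0 c0 hn
  choose u v w α β γ ht h1 h2 h3 h4 using hn'
  obtain ⟨u0, v0, w0, α0, β0, γ0, lv, -, ht0, n1, n2, n3⟩ := Tup.exists_lim ht h1 h2 h3
  obtain ⟨g1, g2⟩ := hc u0 v0 w0 α0 β0 γ0 ht0 n1.ne n2.ne n3.ne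
  have e1 : Tendsto (fun n => ‖v n b0 * w n c0‖) uf (𝓝 ‖v0 b0 * w0 c0‖) :=
    (((tendsto_pi_nhds.1 lv.hv) b0).mul ((tendsto_pi_nhds.1 lv.hw) c0)).norm
  have e2 : Tendsto (fun n : ℕ => (n : ℝ) * ‖v n b0 * w n c0‖) uf atTop :=
    uf_atTop.atTop_mul_pos (norm_pos_iff.2 (mul_ne_zero g1 g2)) e1
  have e3 : Tendsto (fun n => ‖c1 T (v n) (w n) a0‖) uf (𝓝 ‖c1 T v0 w0 a0‖) :=
    (lim_c1 lv.hv lv.hw a0).norm
  have e4 : ∀ᶠ n in uf, ‖c1 T (v n) (w n) a0‖ < ‖c1 T v0 w0 a0‖ + 1 :=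
    e3.eventually_lt_const (lt_add_one _)
  have e5 : ∀ᶠ n : ℕ in uf, ‖c1 T v0 w0 a0‖ + 1 ≤ (n : ℝ) * ‖v n b0 * w n c0‖ :=
    e2.eventually_ge_atTop _
  obtain ⟨n, h5, h6⟩ := (e4.and e5).exists
  have h7 := h4 n
  linarith

private theorem dom_real {a0 : A} {b0 : B} {c0 : C} {v : B → ℂ} {w : C → ℂ} (rv : Rl v)
    (rw' : Rl w) (hv : v b0 ≠ 0) (hw : w c0 ≠ 0) :
    ∃ κ : ℝ, c1 T v w a0 = κ * (v b0 * w c0) := by
  obtain ⟨r, hr, h1⟩ := rv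
  obtain ⟨t, ht, h2⟩ := rw'
  have h3 : (c1 T (r • v) (t • w) a0).im = 0 := c1_re T (r • v) (t • w) h1 h2 a0
  have h4 : (r * v b0 * (t * w c0)).im = 0 := by
    rw [Complex.mul_im, h1 b0, h2 c0]
    ring
  have h5 : r * v b0 * (t * w c0) ≠ 0 := mul_ne_zero (mul_ne_zero hr hv) (mul_ne_zero ht hw)
  obtain ⟨x, hx⟩ : ∃ x : ℝ, c1 T (r • v) (t • w) a0 = x := ⟨_, (Complex.ext rfl h3)⟩
  obtain ⟨y, hy⟩ : ∃ y : ℝ, r * v b0 * (t * w c0) = y := ⟨_, (Complex.ext rfl h4)⟩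
  have hy0 : (y : ℂ) ≠ 0 := by
    rw [← hy]
    exact h5
  refine ⟨x / y, ?_⟩
  rw [c1_smul_left, c1_smul_right] at hx
  have h6 : c1 T v w a0 * (r * t) = x := by
    rw [← hx]
    ring
  have h7 : v b0 * w c0 * (r * t) = y := by
    rw [← hy]
    ring
  refine mul_right_cancel₀ (mul_ne_zero hr ht) ?_
  rw [h6, mul_assoc, h7, Complex.ofReal_div, div_mul_cancel₀ _ hy0]

/-- If the coordinates `v b0`, `w c0` of the singular tuples (of the fixed tensor `T`) do not vanish,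
then a large entry `(a0, b0, c0)` dominates the contraction at `a0`.

Proof. Let `κ(v, w) = c1 T v w a0 / (v b0 * w c0)`, invariant under rescaling and real, because the
tuples are real up to factors (`FR`: `r v`, `r' w` real, `c1 T (r v) (r' w) a0` real). Claim: it is
bounded on all nonzero tuples. It suffices to consider normalised tuples (`exists_nrm`,
`Tup.smul`). If it is unbounded, then there is a sequence of normalised tuples (with fixed indices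
`ia, ib, ic`, `uconst`) along which `|κ| → ∞`; by `Tup.exists_lim` there is a limit tuple, at which
`v b0 * w c0 ≠ 0` by `hc`, so `κ` converges, contradiction. If `|κ| ≤ M` and `L > M`, then by
`c1_ad` the contraction is `κ v(b0) w(c0) + s L v(b0) w(c0) = (L + s κ) s v(b0) w(c0)`, as `s² = 1`,
with `L + s κ > 0`. -/
theorem dom1 (hs : s = 1 ∨ s = -1) (a0 : A) (b0 : B) (c0 : C) (hf : FR T SA SB SC)
    (hc : ∀ u v w α β γ, Tup T SA SB SC u v w α β γ → u ≠ 0 → v ≠ 0 → w ≠ 0 →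
      v b0 ≠ 0 ∧ w c0 ≠ 0) :
    ∃ L0 : ℝ, ∀ L ≥ L0, ∀ u v w α β γ, Tup T SA SB SC u v w α β γ → u ≠ 0 → v ≠ 0 → w ≠ 0 →
      ∃ ρ : ℝ, 0 < ρ ∧ c1 (ad T a0 b0 c0 (s * L)) v w a0 = ρ * s * (v b0 * w c0) := by
  obtain ⟨M, hM⟩ := dom_bdd a0 b0 c0 hc
  refine ⟨M + 1, ?_⟩
  intro L hL u v w α β γ ht hu hv hw
  obtain ⟨g1, g2⟩ := hc u v w α β γ ht hu hv hw
  have hok := hf u v w α β γ ht hu hv hw
  obtain ⟨κ, hκ⟩ := dom_real (T := T) (a0 := a0) hok.rv hok.rw' g1 g2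
  have h1 := hM u v w α β γ ht hu hv hw
  have h2 : 0 < ‖v b0 * w c0‖ := norm_pos_iff.2 (mul_ne_zero g1 g2)
  have h3 : |κ| ≤ M := by
    rw [hκ, norm_mul, Complex.norm_real, Real.norm_eq_abs] at h1
    exact le_of_mul_le_mul_right h1 h2
  have h4 : |s * κ| ≤ M := by
    rcases hs with h | h
    · rw [h, one_mul]
      exact h3
    · rw [h, neg_one_mul, abs_neg]
      exact h3
  have h5 : s * s = 1 := by
    rcases hs with h | h <;> rw [h] <;> norm_num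
  refine ⟨L + s * κ, ?_, ?_⟩
  · have h6 := neg_abs_le (s * κ)
    linarith
  · have h6 : (s : ℂ) * s = 1 := by
      exact_mod_cast congrArg (fun x : ℝ => (x : ℂ)) h5
    rw [c1_ad, if_pos rfl, hκ]
    push_cast
    linear_combination (- (κ : ℂ) * (v b0 * w c0)) * h6

/-- Proof: `dom1` for `s12 T`. -/
theorem dom2 (hs : s = 1 ∨ s = -1) (a0 : A) (b0 : B) (c0 : C) (hf : FR T SA SB SC)
    (hc : ∀ u v w α β γ, Tup T SA SB SC u v w α β γ → u ≠ 0 → v ≠ 0 → w ≠ 0 →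
      u a0 ≠ 0 ∧ w c0 ≠ 0) :
    ∃ L0 : ℝ, ∀ L ≥ L0, ∀ u v w α β γ, Tup T SA SB SC u v w α β γ → u ≠ 0 → v ≠ 0 → w ≠ 0 →
      ∃ ρ : ℝ, 0 < ρ ∧ c2 (ad T a0 b0 c0 (s * L)) u w b0 = ρ * s * (u a0 * w c0) := by
  obtain ⟨L0, h⟩ := dom1 (T := s12 T) hs b0 a0 c0 (FR_s12.2 hf)
    (fun v u w β α γ ht hv hu hw => hc u v w α β γ (Tup_s12.1 ht) hu hv hw)
  refine ⟨L0, ?_⟩
  intro L hL u v w α β γ ht hu hv hw
  obtain ⟨ρ, h1, h2⟩ := h L hL v u w β α γ (Tup_s12.2 ht) hv hu hw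
  refine ⟨ρ, h1, ?_⟩
  rw [← h2, ← s12_ad, c1_s12]

/-- Proof: `dom2` for `s23 T`. -/
theorem dom3 (hs : s = 1 ∨ s = -1) (a0 : A) (b0 : B) (c0 : C) (hf : FR T SA SB SC)
    (hc : ∀ u v w α β γ, Tup T SA SB SC u v w α β γ → u ≠ 0 → v ≠ 0 → w ≠ 0 →
      u a0 ≠ 0 ∧ v b0 ≠ 0) :
    ∃ L0 : ℝ, ∀ L ≥ L0, ∀ u v w α β γ, Tup T SA SB SC u v w α β γ → u ≠ 0 → v ≠ 0 → w ≠ 0 →
      ∃ ρ : ℝ, 0 < ρ ∧ c3 (ad T a0 b0 c0 (s * L)) u v c0 = ρ * s * (u a0 * v b0) := by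
  obtain ⟨L0, h⟩ := dom2 (T := s23 T) hs a0 c0 b0 (FR_s23.2 hf)
    (fun u w v α γ β ht hu hw hv => hc u v w α β γ (Tup_s23.1 ht) hu hv hw)
  refine ⟨L0, ?_⟩
  intro L hL u v w α β γ ht hu hv hw
  obtain ⟨ρ, h1, h2⟩ := h L hL u w v α γ β (Tup_s23.2 ht) hu hw hv
  refine ⟨ρ, h1, ?_⟩
  rw [← h2, ← s23_ad, c2_s23]

end

end Pool.Agent.MPb0eR
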