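import Mathlib
import Pool.Agent.Lib.MP_b0e20b_ag_R.BC
import Pool.Agent.Lib.MP_b0e20b_ag_R.Dom
import Pool.Agent.Lib.MP_b0e20b_ag_R.GTc

/-!
# MP_b0e20b_ag, project R: the step for `GT`
-/

set_option autoImplicit false

open scoped BigOperators Topology
open Filter

namespace Pool.Agent.MPb0eR

variable {n1 n2 n3 : ℕ}

/-- The first index of a nonempty mask. -/
private theorem StTidx {n p m : ℕ} {u : Fin n → ℂ} (h : Sup (mk n p m) u) (hu : u ≠ 0) :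
    ∃ i : Fin n, i.val = p := by
  by_contra hcon
  push Not at hcon
  refine hu ?_
  funext i
  refine h i ?_
  intro hi
  rw [mem_mk] at hi
  have hlt := i.isLt
  exact hcon ⟨p, by omega⟩ rfl

private theorem StTsg (p q r : ℕ) : (sg p q r : ℂ) ≠ 0 := by
  rcases sg_cases p q r with h | h
  · rw [h]
    simp
  · rw [h]
    simp

private theorem StTne {z x y : ℂ} {ρ s : ℝ} (hρ : 0 < ρ) (hs : (s : ℂ) ≠ 0)
    (h : z = ρ * s * (x * y)) (hx : x ≠ 0) (hy : y ≠ 0) : z ≠ 0 := by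
  rw [h]
  have h1 : (ρ : ℂ) ≠ 0 := by
    exact_mod_cast hρ.ne'
  exact mul_ne_zero (mul_ne_zero h1 hs) (mul_ne_zero hx hy)

private theorem StTneg {z1 z2 z3 x y w : ℂ} {ρ1 ρ2 ρ3 s s1 s2 s3 : ℝ} (h1 : 0 < ρ1) (h2 : 0 < ρ2)
    (h3 : 0 < ρ3) (hs : s * (s1 * s2 * s3) = -1) (e1 : z1 = ρ1 * s1 * (y * w))
    (e2 : z2 = ρ2 * s2 * (x * w)) (e3 : z3 = ρ3 * s3 * (x * y)) (hx : x ≠ 0) (hy : y ≠ 0)
    (hw : w ≠ 0) (rx : x.im = 0) (ry : y.im = 0) (rw' : w.im = 0) :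
    ((s : ℂ) * (z1 * z2 * z3)).re < 0 := by
  obtain ⟨x', rfl⟩ : ∃ x' : ℝ, x = x' := ⟨x.re, Complex.ext rfl rx⟩
  obtain ⟨y', rfl⟩ : ∃ y' : ℝ, y = y' := ⟨y.re, Complex.ext rfl ry⟩
  obtain ⟨w', rfl⟩ : ∃ w' : ℝ, w = w' := ⟨w.re, Complex.ext rfl rw'⟩
  have e : (s : ℂ) * (z1 * z2 * z3) = ((s * (s1 * s2 * s3) * (ρ1 * ρ2 * ρ3 * (x' * y' * w') ^ 2) :
      ℝ) : ℂ) := by
    rw [e1, e2, e3]
    push_cast
    ring
  rw [e, Complex.ofReal_re, hs]
  have hx' : x' ≠ 0 := fun h => hx (by rw [h]; rfl)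
  have hy' : y' ≠ 0 := fun h => hy (by rw [h]; rfl)
  have hw' : w' ≠ 0 := fun h => hw (by rw [h]; rfl)
  have h4 : 0 < (x' * y' * w') ^ 2 := by positivity
  have h5 : 0 < ρ1 * ρ2 * ρ3 * (x' * y' * w') ^ 2 := by positivity
  linarith

/-- The step for a fixed tensor.

Proof. Let `s = sg p q r`, `SA = mk n1 p n1`, `SB = mk (n2 + 1) q mB`, `SC = mk (n3 + 1) r mC`, so
the masks with the corners erased are `mk n1 (p + 1) n1` and so on (`mk_erase`). `bc`: the four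
`FR` are `g110.fr`, `g101.fr`, `g011.fr`, `g111.fr`. `n12`: for a nonzero tuple of the mask
`(p + 1, q + 1, r)`:
`w c0 ≠ 0` by `g110.cu`; the first vector is nonzero, so its mask is nonempty and there are `a1`,
`b1` with values `p + 1`, `q + 1` (as `q + 1 < mB`), `u a1 ≠ 0` and `v b1 ≠ 0` by `g110.cu`;
`c1 T v w a0 = ρ sg (v b1 * w c0) ≠ 0` by `g010.d1` and `c2 T u w b0 = ρ' sg (u a1 * w c0) ≠ 0`
by `g100.d2`. `n13`, `n23` similarly (`g101`, `g001.d1`, `g100.d3`; `g011`, `g001.d2`, `g010.d3`).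
`n123`: by `g011.d1`, `g101.d2`, `g110.d3` the product of the three contractions is
`ρ1 ρ2 ρ3 * (product of the three signs) * (u a1 * v b1 * w c1)²`, times `s`: by `sg_rec` it is
`- ρ1 ρ2 ρ3 (u a1 v b1 w c1)²`, negative for real vectors, as the coordinates are nonzero
(`g111.cu`). So `bc` gives `fr` and `cu` for large `L`. `d1`: `dom1` for the mask `(p + 1, q, r)`,
`g100` (for tuples of this mask the entry `(a0, b0, c0)` does not matter, `Tup.congr`); `d2`, `d3`: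
`dom2` with `g010`, `dom3` with `g001`. -/
theorem stT (T : FT n1 n2 n3) {mB mC p q r : ℕ} (hmB : mB ≤ n2 + 1) (hmC : mC ≤ n3 + 1)
    (hq : q < mB) (hr : r < mC) (a0 : Fin n1) (b0 : Fin (n2 + 1)) (c0 : Fin (n3 + 1))
    (ha : a0.val = p) (hb : b0.val = q) (hc : c0.val = r)
    (g100 : GT T mB mC (p + 1) q r) (g010 : GT T mB mC p (q + 1) r)
    (g001 : GT T mB mC p q (r + 1)) (g110 : GT T mB mC (p + 1) (q + 1) r)
    (g101 : GT T mB mC (p + 1) q (r + 1)) (g011 : GT T mB mC p (q + 1) (r + 1))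
    (g111 : GT T mB mC (p + 1) (q + 1) (r + 1)) :
    ∃ L0 : ℝ, ∀ L ≥ L0, GT (ad T a0 b0 c0 (sg p q r * L)) mB mC p q r := by
  have _ := hmB
  have _ := hmC
  have hs := sg_cases p q r
  have ia : a0 ∈ mk n1 p n1 := mem_mk.2 ⟨ha.ge, a0.isLt⟩
  have ib : b0 ∈ mk (n2 + 1) q mB := mem_mk.2 ⟨hb.ge, hb ▸ hq⟩
  have ic : c0 ∈ mk (n3 + 1) r mC := mem_mk.2 ⟨hc.ge, hc ▸ hr⟩
  have ea := mk_erase (n := n1) (m := n1) ha
  have eb := mk_erase (n := n2 + 1) (m := mB) hb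
  have ec := mk_erase (n := n3 + 1) (m := mC) hc
  obtain ⟨L0, hL0⟩ := bc (T := T) (a0 := a0) (b0 := b0) (c0 := c0) (s := sg p q r)
    (SA := mk n1 p n1) (SB := mk (n2 + 1) q mB) (SC := mk (n3 + 1) r mC) hs ia ib ic
    (by rw [ea, eb]; exact g110.fr) (by rw [ea, ec]; exact g101.fr)
    (by rw [eb, ec]; exact g011.fr) (by rw [ea, eb, ec]; exact g111.fr)
    (by
      rw [ea, eb]
      intro u v w α β γ ht hu hv hw
      obtain ⟨k1, k2, k3⟩ := g110.cu u v w α β γ ht hu hv hw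
      obtain ⟨a1, ha1⟩ := StTidx ht.su hu
      obtain ⟨b1, hb1⟩ := StTidx ht.sv hv
      obtain ⟨ρ, hρ, e⟩ := g010.d1 u v w α β γ ht hu hv hw a0 b1 c0 ha hb1 hc
      obtain ⟨ρ', hρ', e'⟩ := g100.d2 u v w α β γ ht hu hv hw a1 b0 c0 ha1 hb hc
      exact ⟨k3 c0 hc, StTne hρ (StTsg _ _ _) e (k2 b1 hb1) (k3 c0 hc),
        StTne hρ' (StTsg _ _ _) e' (k1 a1 ha1) (k3 c0 hc)⟩)
    (by
      rw [ea, ec]
      intro u v w α β γ ht hu hv hw
      obtain ⟨k1, k2, k3⟩ := g101.cu u v w α β γ ht hu hv hw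
      obtain ⟨a1, ha1⟩ := StTidx ht.su hu
      obtain ⟨c1, hc1⟩ := StTidx ht.sw hw
      obtain ⟨ρ, hρ, e⟩ := g001.d1 u v w α β γ ht hu hv hw a0 b0 c1 ha hb hc1
      obtain ⟨ρ', hρ', e'⟩ := g100.d3 u v w α β γ ht hu hv hw a1 b0 c0 ha1 hb hc
      exact ⟨k2 b0 hb, StTne hρ (StTsg _ _ _) e (k2 b0 hb) (k3 c1 hc1),
        StTne hρ' (StTsg _ _ _) e' (k1 a1 ha1) (k2 b0 hb)⟩)
    (by
      rw [eb, ec]
      intro u v w α β γ ht hu hv hw
      obtain ⟨k1, k2, k3⟩ := g011.cu u v w α β γ ht hu hv hw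
      obtain ⟨b1, hb1⟩ := StTidx ht.sv hv
      obtain ⟨c1, hc1⟩ := StTidx ht.sw hw
      obtain ⟨ρ, hρ, e⟩ := g001.d2 u v w α β γ ht hu hv hw a0 b0 c1 ha hb hc1
      obtain ⟨ρ', hρ', e'⟩ := g010.d3 u v w α β γ ht hu hv hw a0 b1 c0 ha hb1 hc
      exact ⟨k1 a0 ha, StTne hρ (StTsg _ _ _) e (k1 a0 ha) (k3 c1 hc1),
        StTne hρ' (StTsg _ _ _) e' (k1 a0 ha) (k2 b1 hb1)⟩)
    (by
      rw [ea, eb, ec]
      intro u v w α β γ ht hu hv hw ru rv' rw'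
      obtain ⟨k1, k2, k3⟩ := g111.cu u v w α β γ ht hu hv hw
      obtain ⟨a1, ha1⟩ := StTidx ht.su hu
      obtain ⟨b1, hb1⟩ := StTidx ht.sv hv
      obtain ⟨c1, hc1⟩ := StTidx ht.sw hw
      obtain ⟨ρ1, h1, e1⟩ := g011.d1 u v w α β γ ht hu hv hw a0 b1 c1 ha hb1 hc1
      obtain ⟨ρ2, h2, e2⟩ := g101.d2 u v w α β γ ht hu hv hw a1 b0 c1 ha1 hb hc1
      obtain ⟨ρ3, h3, e3⟩ := g110.d3 u v w α β γ ht hu hv hw a1 b1 c0 ha1 hb1 hc
      exact StTneg h1 h2 h3 (sg_rec p q r) e1 e2 e3 (k1 a1 ha1) (k2 b1 hb1) (k3 c1 hc1)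
        (ru a1) (rv' b1) (rw' c1))
  obtain ⟨L1, hL1⟩ := dom1 (T := T) (s := sg p q r) hs a0 b0 c0 g100.fr
    (fun u v w α β γ ht hu hv hw => by
      obtain ⟨-, k2, k3⟩ := g100.cu u v w α β γ ht hu hv hw
      exact ⟨k2 b0 hb, k3 c0 hc⟩)
  obtain ⟨L2, hL2⟩ := dom2 (T := T) (s := sg p q r) hs a0 b0 c0 g010.fr
    (fun u v w α β γ ht hu hv hw => by
      obtain ⟨k1, -, k3⟩ := g010.cu u v w α β γ ht hu hv hw
      exact ⟨k1 a0 ha, k3 c0 hc⟩)
  obtain ⟨L3, hL3⟩ := dom3 (T := T) (s := sg p q r) hs a0 b0 c0 g001.fr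
    (fun u v w α β γ ht hu hv hw => by
      obtain ⟨k1, k2, -⟩ := g001.cu u v w α β γ ht hu hv hw
      exact ⟨k1 a0 ha, k2 b0 hb⟩)
  refine ⟨max (max L0 L1) (max L2 L3), ?_⟩
  intro L hL
  have l0 : L ≥ L0 := ((le_max_left L0 L1).trans (le_max_left _ _)).trans hL
  have l1 : L ≥ L1 := ((le_max_right L0 L1).trans (le_max_left _ _)).trans hL
  have l2 : L ≥ L2 := ((le_max_left L2 L3).trans (le_max_right _ _)).trans hL
  have l3 : L ≥ L3 := ((le_max_right L2 L3).trans (le_max_right _ _)).trans hL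
  have ua : ∀ a : Fin n1, a.val = p → a = a0 := fun a h => Fin.ext (h.trans ha.symm)
  have ub : ∀ b : Fin (n2 + 1), b.val = q → b = b0 := fun b h => Fin.ext (h.trans hb.symm)
  have uc : ∀ c : Fin (n3 + 1), c.val = r → c = c0 := fun c h => Fin.ext (h.trans hc.symm)
  obtain ⟨hf, hcu⟩ := hL0 L l0
  refine ⟨hf, ?_, ?_, ?_, ?_⟩
  · intro u v w α β γ ht hu hv hw
    obtain ⟨k1, k2, k3⟩ := hcu u v w α β γ ht hu hv hw
    exact ⟨fun a h => ua a h ▸ k1, fun b h => ub b h ▸ k2, fun c h => uc c h ▸ k3⟩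
  · intro u v w α β γ ht hu hv hw a b c h1 h2 h3
    rw [ua a h1, ub b h2, uc c h3]
    refine hL1 L l1 u v w α β γ ((Tup.congr ?_).1 ht) hu hv hw
    intro a' ha' b' _ c' _
    rw [mem_mk] at ha'
    unfold ad
    rw [if_neg, add_zero]
    rintro ⟨h, -, -⟩
    rw [h] at ha'
    omega
  · intro u v w α β γ ht hu hv hw a b c h1 h2 h3
    rw [ua a h1, ub b h2, uc c h3]
    refine hL2 L l2 u v w α β γ ((Tup.congr ?_).1 ht) hu hv hw
    intro a' _ b' hb' c' _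
    rw [mem_mk] at hb'
    unfold ad
    rw [if_neg, add_zero]
    rintro ⟨-, h, -⟩
    rw [h] at hb'
    omega
  · intro u v w α β γ ht hu hv hw a b c h1 h2 h3
    rw [ua a h1, ub b h2, uc c h3]
    refine hL3 L l3 u v w α β γ ((Tup.congr ?_).1 ht) hu hv hw
    intro a' _ b' _ c' hc'
    rw [mem_mk] at hc'
    unfold ad
    rw [if_neg, add_zero]
    rintro ⟨-, -, h⟩
    rw [h] at hc'
    omega

/-- The hypotheses of `stT` for the modes. -/
private theorem StTaux (F : FT n1 n2 n3) (a0 : Fin n1) (b0 : Fin (n2 + 1))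
    (c0 : Fin (n3 + 1)) (hG : ∀ a' b' c', a0 ≤ a' → b0 ≤ b' → c0 ≤ c' →
      (a', b', c') ≠ (a0, b0, c0) → Gd F a' b' c') (m m' : ℕ) (hm : m ≤ 2) (hm' : m' ≤ 2)
    (i j k : ℕ) (hijk : i + j + k ≠ 0) :
    GT (vt m m' (up F a0 b0 c0 0)) (n2 + 1 - m) (n3 + 1 - m') (a0.val + i) (b0.val + j)
      (c0.val + k) := by
  by_cases h1 : a0.val + i < n1
  · by_cases h2 : b0.val + j < n2 + 1 - m
    · by_cases h3 : c0.val + k < n3 + 1 - m'
      · have hg : Gd F ⟨a0.val + i, h1⟩ ⟨b0.val + j, by omega⟩ ⟨c0.val + k, by omega⟩ := by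
          refine hG _ _ _ ?_ ?_ ?_ ?_
          · rw [Fin.le_def]
            exact Nat.le_add_right _ _
          · rw [Fin.le_def]
            exact Nat.le_add_right _ _
          · rw [Fin.le_def]
            exact Nat.le_add_right _ _
          · intro h
            rw [Prod.mk.injEq, Prod.mk.injEq] at h
            have e1 : a0.val + i = a0.val := congrArg Fin.val h.1
            have e2 : b0.val + j = b0.val := congrArg Fin.val h.2.1
            have e3 : c0.val + k = c0.val := congrArg Fin.val h.2.2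
            omega
        refine GT_congr ?_ h2 h3 (hg.gt m hm m' hm')
        intro a b c ha hb hb' hc hc'
        refine vt_congr m m' F (up F a0 b0 c0 0) (a0.val + i) (b0.val + j) (c0.val + k) ?_ a b c
          ha hb hb' hc hc'
        intro a2 b2 c2 ha2 hb2 hc2
        unfold up
        rw [if_neg]
        rintro ⟨e1, e2, e3⟩
        rw [e1] at ha2
        rw [e2] at hb2
        rw [e3] at hc2
        omega
      · exact GT_triv (Or.inr (Or.inr (Or.inr (Or.inr (not_lt.1 h3)))))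
    · exact GT_triv (Or.inr (Or.inr (Or.inl (not_lt.1 h2))))
  · exact GT_triv (Or.inl (not_lt.1 h1))

/-- The step for `gt`.

Proof. If `b0.val ≥ n2 + 1 - m` or `c0.val ≥ n3 + 1 - m'` use `GT_triv`. Otherwise `stT` for
`T = vt m m' (up F a0 b0 c0 0)`: the seven hypotheses are `Gd.gt` of `F` at the corners above
`(a0, b0, c0)` if they are in the range (transferred by `GT_congr`, `vt_congr`, because `F` and
`up F a0 b0 c0 0` agree above these corners), and `GT_triv` otherwise. For large `L` the conclusion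
for `ad T a0 b0 c0 (sg * L)` is transferred by `GT_congr` and `vt_up` to
`vt m m' (up F a0 b0 c0 (sg * x))`, `L = κ * x`. -/
theorem st_gt (h2 : 1 ≤ n2) (h3 : 1 ≤ n3) (F : FT n1 n2 n3) (a0 : Fin n1) (b0 : Fin (n2 + 1))
    (c0 : Fin (n3 + 1)) (hG : ∀ a' b' c', a0 ≤ a' → b0 ≤ b' → c0 ≤ c' →
      (a', b', c') ≠ (a0, b0, c0) → Gd F a' b' c') (m m' : ℕ) (hm : m ≤ 2) (hm' : m' ≤ 2) :
    ∃ X0 : ℝ, ∀ x ≥ X0, GT (vt m m' (up F a0 b0 c0 (sg a0.val b0.val c0.val * x)))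
      (n2 + 1 - m) (n3 + 1 - m') a0.val b0.val c0.val := by
  by_cases hb : b0.val < n2 + 1 - m
  · by_cases hc : c0.val < n3 + 1 - m'
    · have H := StTaux F a0 b0 c0 hG m m' hm hm'
      obtain ⟨L0, hL0⟩ := stT (vt m m' (up F a0 b0 c0 0)) (Nat.sub_le _ _) (Nat.sub_le _ _) hb hc
        a0 b0 c0 rfl rfl rfl (H 1 0 0 (by omega)) (H 0 1 0 (by omega)) (H 0 0 1 (by omega))
        (H 1 1 0 (by omega)) (H 1 0 1 (by omega)) (H 0 1 1 (by omega)) (H 1 1 1 (by omega))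
      obtain ⟨κ, hκ, hv⟩ := vt_up h2 h3 m m' F a0 b0 c0 hb hc
      refine ⟨L0 / κ, ?_⟩
      intro x hx
      have h1 : κ * x ≥ L0 := by
        have h4 := (div_le_iff₀ hκ).1 hx
        linarith
      refine GT_congr ?_ hb hc (hL0 (κ * x) h1)
      intro a b c _ _ hb' _ hc'
      rw [hv _ a b c hb' hc', mul_left_comm]
    · exact ⟨0, fun x _ => GT_triv (Or.inr (Or.inr (Or.inr (Or.inr (not_lt.1 hc)))))⟩
  · exact ⟨0, fun x _ => GT_triv (Or.inr (Or.inr (Or.inl (not_lt.1 hb))))⟩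

end Pool.Agent.MPb0eR
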