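import Mathlib
import Pool.Agent.Lib.MP_b0e20b_ag_R.Rig
import Pool.Agent.Lib.MP_b0e20b_ag_R.Cpt

/-!
# MP_b0e20b_ag, project R: the local system for the zeros of `c1`
-/

set_option autoImplicit false

open scoped BigOperators Topology
open Filter

namespace Pool.Agent.MPb0eR

private theorem vld_zero {A B C : Type} [Fintype A] [Fintype B] [Fintype C] [DecidableEq A]
    [DecidableEq B] [DecidableEq C] {T : A → B → C → ℝ} {a0 : A} {b0 : B} {c0 : C} {s : ℝ}
    {SA : Finset A} {SB : Finset B} {SC : Finset C} {ib : B} {ic : C} {ε : ℝ}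
    {p : (B → ℂ) × (C → ℂ)} :
    vloc T a0 b0 c0 s SA SB SC ib ic ε p = 0 ↔
      (∀ a ∈ SA, c1 T (scl b0 ε 1 p.1) p.2 a +
        (if a = a0 then (s : ℂ) * (p.1 b0 * p.2 c0) else 0) = 0) ∧
      (∀ b, b ∉ SB → p.1 b = 0) ∧ (∀ c, c ∉ SC → p.2 c = 0) ∧ p.1 ib = 1 ∧ p.2 ic = 1 := by
  constructor
  · intro h
    have h1 := congrArg Prod.fst h
    have h2 := congrArg (fun x => x.2.1) h
    have h3 := congrArg (fun x => x.2.2.1) h
    have h4 := congrArg (fun x => x.2.2.2) h
    refine ⟨fun a ha => ?_, fun b hb => ?_, fun c hc => ?_, ?_, ?_⟩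
    · have := congrFun h1 a
      simpa [vloc, ha] using this
    · have := congrFun h2 b
      simpa [vloc, hb] using this
    · have := congrFun h3 c
      simpa [vloc, hc] using this
    · have := congrFun h4 0
      exact sub_eq_zero.1 (by simpa [vloc] using this)
    · have := congrFun h4 1
      exact sub_eq_zero.1 (by simpa [vloc] using this)
  · rintro ⟨h1, h2, h3, h4, h5⟩
    refine Prod.ext (funext fun a => ?_) (Prod.ext (funext fun b => ?_)
      (Prod.ext (funext fun c => ?_) (funext fun i => ?_)))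
    · by_cases ha : a ∈ SA
      · simpa [vloc, ha] using h1 a ha
      · simp [vloc, ha]
    · by_cases hb : b ∈ SB
      · simp [vloc, hb]
      · simpa [vloc, hb] using h2 b hb
    · by_cases hc : c ∈ SC
      · simp [vloc, hc]
      · simpa [vloc, hc] using h3 c hc
    · fin_cases i
      · simp [vloc, h4]
      · simp [vloc, h5]

private theorem vld_cj {B : Type} [DecidableEq B] (b0 : B) (e f : ℝ) (u : B → ℂ) :
    scl b0 e f (cj u) = cj (scl b0 e f u) := by
  funext b
  simp only [scl, cj, map_mul, Complex.conj_ofReal]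

private theorem vld_rea {B C : Type} [Fintype B] [Fintype C] {p : (B → ℂ) × (C → ℂ)}
    (h : (cj p.1, cj p.2) = p) : Rea p.1 ∧ Rea p.2 :=
  ⟨(rea_iff _).2 (congrArg Prod.fst h), (rea_iff _).2 (congrArg Prod.snd h)⟩

private theorem vld_cj_cont {B C : Type} :
    Continuous fun p : (B → ℂ) × (C → ℂ) => (cj p.1, cj p.2) := by
  refine Continuous.prodMk (continuous_pi fun b => ?_) (continuous_pi fun c => ?_)
  · exact Complex.continuous_conj.comp ((continuous_apply b).comp continuous_fst)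
  · exact Complex.continuous_conj.comp ((continuous_apply c).comp continuous_snd)

section

variable {A B C : Type} [Fintype A] [Fintype B] [Fintype C] [DecidableEq A] [DecidableEq B]
  [DecidableEq C] (T : A → B → C → ℝ) (a0 : A) (b0 : B) (c0 : C) (s : ℝ) (SA : Finset A)
  (SB : Finset B) (SC : Finset C) (ib : B) (ic : C)

theorem dvloc_continuous :
    Continuous fun x : ℝ × ((B → ℂ) × (C → ℂ)) × ((B → ℂ) × (C → ℂ)) =>
      dvloc T a0 b0 c0 s SA SB SC ib ic x.1 x.2.1 x.2.2 := by
  refine Continuous.prodMk (continuous_pi fun a => ?_) (Continuous.prodMk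
    (continuous_pi fun b => ?_) (Continuous.prodMk (continuous_pi fun c => ?_)
      (continuous_pi fun i => ?_)))
  · by_cases ha : a ∈ SA
    · simp only [ha, if_true]
      refine Continuous.add (Continuous.add ?_ ?_) ?_
      · refine continuous_finsetSum _ fun b _ => continuous_finsetSum _ fun c _ => ?_
        simp only [scl]
        by_cases hb : b = b0
        · simp only [hb, if_true]
          fun_prop
        · simp only [hb, if_false]
          fun_prop
      · refine continuous_finsetSum _ fun b _ => continuous_finsetSum _ fun c _ => ?_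
        simp only [scl]
        by_cases hb : b = b0
        · simp only [hb, if_true]
          fun_prop
        · simp only [hb, if_false]
          fun_prop
      · by_cases h0 : a = a0
        · simp only [h0, if_true]
          fun_prop
        · simp only [h0, if_false]
          fun_prop
    · simp only [ha, if_false]
      fun_prop
  · by_cases hb : b ∈ SB
    · simp only [hb, if_true]
      fun_prop
    · simp only [hb, if_false]
      fun_prop
  · by_cases hc : c ∈ SC
    · simp only [hc, if_true]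
      fun_prop
    · simp only [hc, if_false]
      fun_prop
  · fin_cases i
    · exact (continuous_apply ib).comp (continuous_fst.comp (continuous_snd.comp continuous_snd))
    · exact (continuous_apply ic).comp (continuous_snd.comp (continuous_snd.comp continuous_snd))

theorem dvloc_smul (ε : ℝ) (p h : (B → ℂ) × (C → ℂ)) (r : ℝ) :
    dvloc T a0 b0 c0 s SA SB SC ib ic ε p (r • h)
      = r • dvloc T a0 b0 c0 s SA SB SC ib ic ε p h := by
  have e1 : ∀ (v : B → ℂ), scl b0 ε 1 (r • v) = (r : ℂ) • scl b0 ε 1 v := by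
    intro v
    funext b
    simp only [scl, Pi.smul_apply, Complex.real_smul, smul_eq_mul]
    ring
  have e2 : (r • h.2 : C → ℂ) = (r : ℂ) • h.2 := by
    funext c
    simp only [Pi.smul_apply, Complex.real_smul, smul_eq_mul]
  refine Prod.ext (funext fun a => ?_) (Prod.ext (funext fun b => ?_)
    (Prod.ext (funext fun c => ?_) (funext fun i => ?_)))
  · show (if a ∈ SA then _ else _ : ℂ) = r • (if a ∈ SA then _ else _ : ℂ)
    by_cases ha : a ∈ SA
    · rw [if_pos ha, if_pos ha]
      simp only [Prod.smul_fst, Prod.smul_snd]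
      rw [e1, e2, c1_smul_left, c1_smul_right, Complex.real_smul]
      by_cases h0 : a = a0
      · rw [if_pos h0, if_pos h0]
        simp only [Pi.smul_apply, Complex.real_smul, smul_eq_mul]
        ring
      · rw [if_neg h0, if_neg h0]
        ring
    · rw [if_neg ha, if_neg ha, smul_zero]
  · show (if b ∈ SB then _ else _ : ℂ) = r • (if b ∈ SB then _ else _ : ℂ)
    by_cases hb : b ∈ SB
    · rw [if_pos hb, if_pos hb, smul_zero]
    · rw [if_neg hb, if_neg hb]
      rfl
  · show (if c ∈ SC then _ else _ : ℂ) = r • (if c ∈ SC then _ else _ : ℂ)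
    by_cases hc : c ∈ SC
    · rw [if_pos hc, if_pos hc, smul_zero]
    · rw [if_neg hc, if_neg hc]
      rfl
  · fin_cases i
    · rfl
    · rfl

/-- The difference of two values is the derivative at the midpoint, because the system is
quadratic. -/
theorem vloc_sub (ε : ℝ) (p p' : (B → ℂ) × (C → ℂ)) :
    vloc T a0 b0 c0 s SA SB SC ib ic ε p - vloc T a0 b0 c0 s SA SB SC ib ic ε p'
      = dvloc T a0 b0 c0 s SA SB SC ib ic ε ((1 / 2 : ℝ) • (p + p')) (p - p') := by
  have e1 : ∀ a, c1 T (scl b0 ε 1 p.1) p.2 a - c1 T (scl b0 ε 1 p'.1) p'.2 a =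
      c1 T (scl b0 ε 1 (p - p').1) ((1 / 2 : ℝ) • (p + p')).2 a +
      c1 T (scl b0 ε 1 ((1 / 2 : ℝ) • (p + p')).1) (p - p').2 a := by
    intro a
    simp only [c1, scl, Prod.fst_sub, Prod.snd_sub, Prod.smul_fst, Prod.smul_snd, Prod.fst_add,
      Prod.snd_add, Pi.sub_apply, Pi.smul_apply, Pi.add_apply, Complex.real_smul]
    rw [← Finset.sum_sub_distrib, ← Finset.sum_add_distrib]
    refine Finset.sum_congr rfl fun b _ => ?_
    rw [← Finset.sum_sub_distrib, ← Finset.sum_add_distrib]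
    refine Finset.sum_congr rfl fun c _ => ?_
    push_cast
    ring
  refine Prod.ext (funext fun a => ?_) (Prod.ext (funext fun b => ?_)
    (Prod.ext (funext fun c => ?_) (funext fun i => ?_)))
  · show (if a ∈ SA then _ else _ : ℂ) - (if a ∈ SA then _ else _ : ℂ) =
      (if a ∈ SA then _ else _ : ℂ)
    by_cases ha : a ∈ SA
    · rw [if_pos ha, if_pos ha, if_pos ha, ← e1 a]
      by_cases h0 : a = a0
      · rw [if_pos h0, if_pos h0, if_pos h0]
        simp only [Prod.fst_sub, Prod.snd_sub, Prod.smul_fst, Prod.smul_snd, Prod.fst_add,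
          Prod.snd_add, Pi.sub_apply, Pi.smul_apply, Pi.add_apply, Complex.real_smul]
        push_cast
        ring
      · rw [if_neg h0, if_neg h0, if_neg h0]
        ring
    · rw [if_neg ha, if_neg ha, if_neg ha, sub_zero]
  · show (if b ∈ SB then _ else _ : ℂ) - (if b ∈ SB then _ else _ : ℂ) =
      (if b ∈ SB then _ else _ : ℂ)
    by_cases hb : b ∈ SB
    · rw [if_pos hb, if_pos hb, if_pos hb, sub_zero]
    · rw [if_neg hb, if_neg hb, if_neg hb]
      rfl
  · show (if c ∈ SC then _ else _ : ℂ) - (if c ∈ SC then _ else _ : ℂ) =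
      (if c ∈ SC then _ else _ : ℂ)
    by_cases hc : c ∈ SC
    · rw [if_pos hc, if_pos hc, if_pos hc, sub_zero]
    · rw [if_neg hc, if_neg hc, if_neg hc]
      rfl
  · fin_cases i
    · show (p.1 ib - 1) - (p'.1 ib - 1) = p.1 ib - p'.1 ib
      ring
    · show (p.2 ic - 1) - (p'.2 ic - 1) = p.2 ic - p'.2 ic
      ring

/-- Solutions are mapped to solutions by complex conjugation. -/
theorem vloc_cj (ε : ℝ) (p : (B → ℂ) × (C → ℂ))
    (h : vloc T a0 b0 c0 s SA SB SC ib ic ε p = 0) :
    vloc T a0 b0 c0 s SA SB SC ib ic ε (cj p.1, cj p.2) = 0 := by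
  rw [vld_zero] at h ⊢
  obtain ⟨h1, h2, h3, h4, h5⟩ := h
  refine ⟨fun a ha => ?_, fun b hb => ?_, fun c hc => ?_, ?_, ?_⟩
  · have h6 := congrArg (starRingEnd ℂ) (h1 a ha)
    rw [map_add, map_zero, ← c1_cj, ← vld_cj] at h6
    refine Eq.trans ?_ h6
    by_cases h0 : a = a0
    · rw [if_pos h0, if_pos h0]
      simp only [map_mul, Complex.conj_ofReal, cj]
    · rw [if_neg h0, if_neg h0, map_zero]
  · show starRingEnd ℂ (p.1 b) = 0
    rw [h2 b hb, map_zero]
  · show starRingEnd ℂ (p.2 c) = 0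
    rw [h3 c hc, map_zero]
  · show starRingEnd ℂ (p.1 ib) = 1
    rw [h4, map_one]
  · show starRingEnd ℂ (p.2 ic) = 1
    rw [h5, map_one]

/-- Solutions of the local system which converge to a real nondegenerate solution are eventually real
and nondegenerate. Proof: as `loc_fin`: `rigid` for `dvloc` at `(0, p0)`, applied to
`(ε n, p n)` and to `(ε n, (p n + conjugate of p n) / 2)`. -/
theorem vloc_fin (ε : ℕ → ℝ) (p : ℕ → (B → ℂ) × (C → ℂ)) (p0 : (B → ℂ) × (C → ℂ))
    (hz : Tendsto ε uf (𝓝 0)) (hp : Tendsto p uf (𝓝 p0))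
    (hs : ∀ᶠ n in uf, vloc T a0 b0 c0 s SA SB SC ib ic (ε n) (p n) = 0)
    (hr : Rea p0.1 ∧ Rea p0.2)
    (hk : ∀ h, dvloc T a0 b0 c0 s SA SB SC ib ic 0 p0 h = 0 → h = 0) :
    ∀ᶠ n in uf, (Rea (p n).1 ∧ Rea (p n).2) ∧
      ∀ h, dvloc T a0 b0 c0 s SA SB SC ib ic (ε n) (p n) h = 0 → h = 0 := by
  have hrig := rigid (fun (z : ℝ) (m h : (B → ℂ) × (C → ℂ)) =>
      dvloc T a0 b0 c0 s SA SB SC ib ic z m h)
    (dvloc_continuous T a0 b0 c0 s SA SB SC ib ic)
    (fun z m r h => dvloc_smul T a0 b0 c0 s SA SB SC ib ic z m h r) 0 p0 hk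
  have hcp : (cj p0.1, cj p0.2) = p0 :=
    Prod.ext ((rea_iff _).1 hr.1) ((rea_iff _).1 hr.2)
  have hcj : Tendsto (fun n => (cj (p n).1, cj (p n).2)) uf (𝓝 p0) := by
    have h1 := ((vld_cj_cont (B := B) (C := C)).tendsto p0).comp hp
    rw [hcp] at h1
    exact h1
  have hm : Tendsto (fun n => (1 / 2 : ℝ) • (p n + (cj (p n).1, cj (p n).2))) uf (𝓝 p0) := by
    have h1 := (hp.add hcj).const_smul (1 / 2 : ℝ)
    have h2 : (1 / 2 : ℝ) • (p0 + p0) = p0 := by
      rw [← two_smul ℝ p0, smul_smul]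
      norm_num
    rw [h2] at h1
    exact h1
  have e1 := (hz.prodMk_nhds hp).eventually hrig
  have e2 := (hz.prodMk_nhds hm).eventually hrig
  filter_upwards [hs, e1, e2] with n h0 h1 h2
  refine ⟨vld_rea ?_, h1⟩
  have h3 := vloc_cj T a0 b0 c0 s SA SB SC ib ic (ε n) (p n) h0
  have h4 := vloc_sub T a0 b0 c0 s SA SB SC ib ic (ε n) (p n) (cj (p n).1, cj (p n).2)
  rw [h0, h3, sub_zero] at h4
  exact (sub_eq_zero.1 (h2 _ h4.symm)).symm

end

section

variable {A B C : Type} [Fintype A] [Fintype B] [Fintype C] [DecidableEq A] [DecidableEq B]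
  [DecidableEq C] {T : A → B → C → ℝ} {a0 : A} {b0 : B} {c0 : C} {s : ℝ} {SA : Finset A}
  {SB : Finset B} {SC : Finset C} {ib : B} {ic : C}

/-- The kernel at the limit `ε = 0`.

Proof. Let `dvloc 0 p h = 0`. The last components say that `h.1`, `h.2` vanish outside of the masks
and at `ib`, `ic`. For `a ∈ SA`, `a ≠ a0`:
`c1 T (scl b0 0 1 h.1) p.2 a + c1 T (scl b0 0 1 p.1) h.2 a = 0`. So by `VR` (for the zero
`(scl b0 0 1 p.1, p.2)`) `scl b0 0 1 h.1` and `h.2` are multiples of `scl b0 0 1 p.1`, `p.2`; they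
vanish at `ib ≠ b0` and `ic`, where `p.1 ib = 1`, `p.2 ic = 1`, so they are zero. The component at `a0`
is then `s * (h.1 b0 * p.2 c0) = 0`, so `h.1 b0 = 0`. -/
theorem vker (hs : s ≠ 0) (ha : a0 ∈ SA) (hb : b0 ∈ SB) (hc : c0 ∈ SC)
    (hv : VR T (SA.erase a0) (SB.erase b0) SC) {p : (B → ℂ) × (C → ℂ)}
    (h1 : Sup (SB.erase b0) (scl b0 0 1 p.1)) (h2 : Sup SC p.2)
    (h3 : ∀ a ∈ SA.erase a0, c1 T (scl b0 0 1 p.1) p.2 a = 0) (hib : ib ≠ b0) (hb1 : p.1 ib = 1)
    (hc1 : p.2 ic = 1) (hc0 : p.2 c0 ≠ 0) (h : (B → ℂ) × (C → ℂ))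
    (hk : dvloc T a0 b0 c0 s SA SB SC ib ic 0 p h = 0) : h = 0 := by
  have g1 := congrArg Prod.fst hk
  have g2 := congrArg (fun x => x.2.1) hk
  have g3 := congrArg (fun x => x.2.2.1) hk
  have g4 := congrArg (fun x => x.2.2.2) hk
  have k1 : ∀ a ∈ SA, c1 T (scl b0 0 1 h.1) p.2 a + c1 T (scl b0 0 1 p.1) h.2 a +
      (if a = a0 then (s : ℂ) * (h.1 b0 * p.2 c0 + p.1 b0 * h.2 c0) else 0) = 0 := by
    intro a ha'
    have := congrFun g1 a
    simpa [dvloc, ha'] using this
  have k2 : ∀ b, b ∉ SB → h.1 b = 0 := by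
    intro b hb'
    have := congrFun g2 b
    simpa [dvloc, hb'] using this
  have k3 : ∀ c, c ∉ SC → h.2 c = 0 := by
    intro c hc'
    have := congrFun g3 c
    simpa [dvloc, hc'] using this
  have k4 : h.1 ib = 0 := by
    have := congrFun g4 0
    simpa [dvloc] using this
  have k5 : h.2 ic = 0 := by
    have := congrFun g4 1
    simpa [dvloc] using this
  have hsc : ∀ (v : B → ℂ) (b : B), b ≠ b0 → scl b0 0 1 v b = v b := by
    intro v b hb'
    simp [scl, hb']
  have n1 : scl b0 0 1 p.1 ≠ 0 := by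
    intro h'
    have h4 := congrFun h' ib
    rw [hsc _ _ hib, hb1] at h4
    exact one_ne_zero h4
  have n2 : p.2 ≠ 0 := by
    intro h'
    have h4 := congrFun h' ic
    rw [hc1] at h4
    exact one_ne_zero h4
  obtain ⟨-, -, hv3⟩ := hv (scl b0 0 1 p.1) p.2 h1 h2 h3 n1 n2
  have s1 : Sup (SB.erase b0) (scl b0 0 1 h.1) := by
    intro b hb'
    by_cases h0 : b = b0
    · simp [scl, h0]
    · rw [hsc _ _ h0]
      exact k2 b fun h5 => hb' (Finset.mem_erase.2 ⟨h0, h5⟩)
  obtain ⟨⟨r, hr⟩, ⟨t, ht⟩⟩ := hv3 (scl b0 0 1 h.1) h.2 s1 k3 (by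
    intro a ha'
    have h5 := k1 a (Finset.mem_of_mem_erase ha')
    rw [if_neg (Finset.ne_of_mem_erase ha'), add_zero] at h5
    exact h5)
  have r0 : r = 0 := by
    have h5 := congrFun hr ib
    rw [hsc _ _ hib, k4, Pi.smul_apply, hsc _ _ hib, hb1, smul_eq_mul, mul_one] at h5
    exact h5.symm
  have t0 : t = 0 := by
    have h5 := congrFun ht ic
    rw [k5, Pi.smul_apply, hc1, smul_eq_mul, mul_one] at h5
    exact h5.symm
  rw [r0, zero_smul] at hr
  rw [t0, zero_smul] at ht
  have h6 := k1 a0 ha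
  rw [if_pos rfl, hr, ht, c1_zero_left, c1_zero_right, Pi.zero_apply, mul_zero, add_zero,
    add_zero, zero_add] at h6
  have h7 : h.1 b0 = 0 := by
    rcases mul_eq_zero.1 h6 with h8 | h8
    · exact absurd (Complex.ofReal_eq_zero.1 h8) hs
    · exact (mul_eq_zero.1 h8).resolve_right hc0
  refine Prod.ext (funext fun b => ?_) ht
  by_cases h0 : b = b0
  · rw [h0, h7]
    rfl
  · rw [← hsc h.1 b h0, hr]
    rfl

end

end Pool.Agent.MPb0eR
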