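import Mathlib
import Pool.Agent.Lib.MP_b0e20b_ag_R.VLd
import Pool.Agent.Lib.MP_b0e20b_ag_R.Perm

/-!
# MP_b0e20b_ag, project R: a large corner entry and the zeros of `c1`
-/

set_option autoImplicit false

open scoped BigOperators Topology
open Filter

namespace Pool.Agent.MPb0eR

section

variable {A B C : Type} [Fintype A] [Fintype B] [Fintype C] [DecidableEq A] [DecidableEq B]
  [DecidableEq C] {T : A → B → C → ℝ} {a0 : A} {b0 : B} {c0 : C} {s : ℝ} {SA : Finset A}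
  {SB : Finset B} {SC : Finset C}

private theorem bcv_nz (hs : s = 1 ∨ s = -1) : s ≠ 0 := by
  rcases hs with h | h
  · rw [h]; exact one_ne_zero
  · rw [h]; exact neg_ne_zero.2 one_ne_zero

private theorem bcv_ss (hs : s = 1 ∨ s = -1) : (s : ℂ) * (s : ℂ) = 1 := by
  rcases hs with h | h
  · rw [h]; norm_num
  · rw [h]; norm_num

omit [Fintype B] in
private theorem bcv_scl (ε l : ℝ) (h : ε * l = 1) (x : B → ℂ) :
    scl b0 ε 1 (Function.update x b0 ((l : ℂ) * x b0)) = x := by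
  funext b
  by_cases hb : b = b0
  · subst hb
    simp only [scl, if_true, Function.update_self]
    rw [← mul_assoc, ← Complex.ofReal_mul, h, Complex.ofReal_one, one_mul]
  · simp only [scl, if_neg hb, Function.update_of_ne hb, Complex.ofReal_one, one_mul]

omit [Fintype B] in
private theorem bcv_scl0 (y : ℂ) (x : B → ℂ) (h : x b0 = 0) :
    scl b0 0 1 (Function.update x b0 y) = x := by
  funext b
  by_cases hb : b = b0
  · subst hb
    simp only [scl, if_true, Complex.ofReal_zero, zero_mul]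
    exact h.symm
  · simp only [scl, if_neg hb, Function.update_of_ne hb, Complex.ofReal_one, one_mul]

omit [Fintype B] in
private theorem bcv_sup {x : B → ℂ} (h : Sup SB x) (hx : x b0 = 0) : Sup (SB.erase b0) x := by
  intro b hb
  by_cases hb0 : b = b0
  · rw [hb0]; exact hx
  · exact h b fun h' => hb (Finset.mem_erase.2 ⟨hb0, h'⟩)

/-- The equations outside of the corner pass to the limit. -/
private theorem bcv_lim0 {L : ℕ → ℝ} {v : ℕ → B → ℂ} {w : ℕ → C → ℂ} {v0 : B → ℂ} {w0 : C → ℂ}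
    (hz : ∀ n, ∀ a ∈ SA, c1 (ad T a0 b0 c0 (s * L n)) (v n) (w n) a = 0)
    (hv : Tendsto v uf (𝓝 v0)) (hw : Tendsto w uf (𝓝 w0)) :
    ∀ a ∈ SA.erase a0, c1 T v0 w0 a = 0 := by
  intro a ha
  obtain ⟨h1, h2⟩ := Finset.mem_erase.1 ha
  have h3 := lim_c1 (T := T) hv hw a
  have h4 : (fun n => c1 T (v n) (w n) a) = fun _ => 0 := by
    funext n
    have h5 := hz n a h2
    rw [c1_ad, if_neg h1, add_zero] at h5
    exact h5
  rw [h4] at h3
  exact tendsto_nhds_unique h3 tendsto_const_nhds |>.symm ▸ rfl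

private theorem bcv_eq0 {l : ℝ} {v : B → ℂ} {w : C → ℂ} (ha : a0 ∈ SA)
    (hz : ∀ a ∈ SA, c1 (ad T a0 b0 c0 (s * l)) v w a = 0) :
    c1 T v w a0 + (s : ℂ) * ((l : ℂ) * v b0 * w c0) = 0 := by
  have h5 := hz a0 ha
  rw [c1_ad, if_pos rfl, Complex.ofReal_mul] at h5
  rw [← h5]
  ring

/-- Zeros of `c1` for the tensors with the large entry `s * L n` which converge to a zero of the
mask without the corners `a0`, `b0`, with `w0 c0 ≠ 0`, are eventually real and nondegenerate.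

Proof. Let `Y n = L n * v n b0`. The equation at `a0` is `c1 T v w a0 + s (Y n) (w n c0) = 0`, so
`Y n → - s * c1 T v0 w0 a0 / w0 c0`. Let `p n = (v n with b0-coordinate Y n, w n)`,
`ε n = 1 / L n`; then `scl b0 (ε n) 1 (p n).1 = v n` and `vloc (ε n) (p n) = 0`; `ib ≠ b0` as
`v0 ib = 1`, `v0 b0 = 0`. The limit `p0` is real: by `h12` the limit vectors are real up to a factor,
and they are normalised (`Rl.rea`). `vker` and `vloc_fin`: eventually `p n` is real and the kernel of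
`dvloc (ε n) (p n)` is trivial. If `(dv, dw)` is in the kernel of the linearised equations
of `VR` at `(v n, w n)`, subtract multiples of `v n`, `w n` such that `dv ib = 0`, `dw ic = 0`; then
`(dv with b0-coordinate multiplied by L n, dw)` is in the kernel of `dvloc (ε n) (p n)`, so it
is zero. -/
theorem bcv_rig (hs : s = 1 ∨ s = -1) (ha : a0 ∈ SA) (hb : b0 ∈ SB) (hc : c0 ∈ SC)
    (h12 : VR T (SA.erase a0) (SB.erase b0) SC) (L : ℕ → ℝ) (hL : Tendsto L uf atTop)
    (hpos : ∀ n, 0 < L n) (ib : B) (ic : C) (v : ℕ → B → ℂ) (w : ℕ → C → ℂ) (v0 : B → ℂ)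
    (w0 : C → ℂ) (nv : ∀ n, Nrm (v n) ib) (nw : ∀ n, Nrm (w n) ic) (sv : ∀ n, Sup SB (v n))
    (sw : ∀ n, Sup SC (w n)) (hz : ∀ n, ∀ a ∈ SA, c1 (ad T a0 b0 c0 (s * L n)) (v n) (w n) a = 0)
    (hv : Tendsto v uf (𝓝 v0)) (hw : Tendsto w uf (𝓝 w0)) (h0 : v0 b0 = 0) (hc0 : w0 c0 ≠ 0) :
    ∀ᶠ n in uf, Rea (v n) ∧ Rea (w n) ∧ ∀ dv dw, Sup SB dv → Sup SC dw →
      (∀ a ∈ SA, c1 (ad T a0 b0 c0 (s * L n)) dv (w n) a
        + c1 (ad T a0 b0 c0 (s * L n)) (v n) dw a = 0) →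
      (∃ r : ℂ, dv = r • v n) ∧ ∃ r : ℂ, dw = r • w n := by
  have hs0 := bcv_nz hs
  have hss := bcv_ss hs
  have nv0 : Nrm v0 ib := Nrm.lim nv hv
  have nw0 : Nrm w0 ic := Nrm.lim nw hw
  have sv0 : Sup SB v0 := Sup.lim sv hv
  have sw0 : Sup SC w0 := Sup.lim sw hw
  have hib : ib ≠ b0 := by
    intro h
    have h1 := nv0.1
    rw [h, h0] at h1
    exact zero_ne_one h1
  have hz0 := bcv_lim0 hz hv hw
  have sv0' : Sup (SB.erase b0) v0 := bcv_sup sv0 h0
  obtain ⟨rv0, rw0, -⟩ := h12 v0 w0 sv0' sw0 hz0 nv0.ne nw0.ne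
  have Rv0 : Rea v0 := rv0.rea nv0.1
  have Rw0 : Rea w0 := rw0.rea nw0.1
  -- the scaled coordinate
  have hvb : Tendsto (fun n => v n b0) uf (𝓝 (v0 b0)) := (tendsto_pi_nhds.1 hv) b0
  have hwc : Tendsto (fun n => w n c0) uf (𝓝 (w0 c0)) := (tendsto_pi_nhds.1 hw) c0
  have hY : Tendsto (fun n => (L n : ℂ) * v n b0) uf (𝓝 (-(s : ℂ) * c1 T v0 w0 a0 / w0 c0)) := by
    have h3 := lim_c1 (T := T) hv hw a0
    have h4 : Tendsto (fun n => -(s : ℂ) * c1 T (v n) (w n) a0 / w n c0) uf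
        (𝓝 (-(s : ℂ) * c1 T v0 w0 a0 / w0 c0)) :=
      (tendsto_const_nhds.mul h3).div hwc hc0
    refine h4.congr' ?_
    filter_upwards [hwc.eventually_ne hc0] with n hn
    have h5 := bcv_eq0 ha (hz n)
    rw [div_eq_iff hn]
    linear_combination (-(s : ℂ)) * h5 + ((L n : ℂ) * v n b0 * w n c0) * hss
  have hεl : Tendsto (fun n => 1 / L n) uf (𝓝 0) := by
    simp only [one_div]
    exact hL.inv_tendsto_atTop
  have hεL : ∀ n, 1 / L n * L n = 1 := fun n => one_div_mul_cancel (hpos n).ne'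
  have hp : Tendsto (fun n => ((Function.update (v n) b0 ((L n : ℂ) * v n b0), w n) :
      (B → ℂ) × (C → ℂ))) uf
      (𝓝 (Function.update v0 b0 (-(s : ℂ) * c1 T v0 w0 a0 / w0 c0), w0)) := by
    refine Tendsto.prodMk_nhds ?_ hw
    refine tendsto_pi_nhds.2 fun b => ?_
    by_cases hb' : b = b0
    · subst hb'
      simp only [Function.update_self]
      exact hY
    · simp only [Function.update_of_ne hb']
      exact (tendsto_pi_nhds.1 hv) b
  have hvl : ∀ n, vloc T a0 b0 c0 s SA SB SC ib ic (1 / L n)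
      (Function.update (v n) b0 ((L n : ℂ) * v n b0), w n) = 0 := by
    intro n
    simp only [vloc]
    rw [bcv_scl (b0 := b0) _ _ (hεL n)]
    refine Prod.ext ?_ (Prod.ext ?_ (Prod.ext ?_ ?_))
    · funext a
      by_cases ha' : a ∈ SA
      · simp only [if_pos ha', Function.update_self]
        have h5 := hz n a ha'
        rw [c1_ad, Complex.ofReal_mul] at h5
        refine Eq.trans ?_ h5
        congr 1
        by_cases h6 : a = a0
        · rw [if_pos h6, if_pos h6]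
          ring
        · rw [if_neg h6, if_neg h6]
      · simp only [if_neg ha']
        rfl
    · funext b
      by_cases hb' : b ∈ SB
      · simp only [if_pos hb']
        rfl
      · simp only [if_neg hb']
        rw [Function.update_of_ne (fun h => hb' (by rw [h]; exact hb))]
        exact sv n b hb'
    · funext c
      by_cases hc' : c ∈ SC
      · simp only [if_pos hc']
        rfl
      · simp only [if_neg hc']
        exact sw n c hc'
    · funext i
      simp only [Function.update_of_ne hib, (nv n).1, (nw n).1, sub_self]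
      fin_cases i <;> rfl
  have hY0 : (-(s : ℂ) * c1 T v0 w0 a0 / w0 c0).im = 0 := by
    have h1 := c1_re T v0 w0 Rv0 Rw0 a0
    have h2 := Rw0 c0
    rw [← Complex.conj_eq_iff_im] at h1 h2 ⊢
    rw [map_div₀, map_mul, map_neg, h1, h2, Complex.conj_ofReal]
  have hr : Rea (Function.update v0 b0 (-(s : ℂ) * c1 T v0 w0 a0 / w0 c0)) ∧ Rea w0 := by
    refine ⟨fun b => ?_, Rw0⟩
    by_cases hb' : b = b0
    · subst hb'
      rw [Function.update_self]
      exact hY0
    · rw [Function.update_of_ne hb']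
      exact Rv0 b
  have hs1 := bcv_scl0 (b0 := b0) (-(s : ℂ) * c1 T v0 w0 a0 / w0 c0) v0 h0
  have hk : ∀ h, dvloc T a0 b0 c0 s SA SB SC ib ic 0
      (Function.update v0 b0 (-(s : ℂ) * c1 T v0 w0 a0 / w0 c0), w0) h = 0 → h = 0 := by
    refine vker hs0 ha hb hc h12 ?_ sw0 ?_ hib ?_ nw0.1 hc0
    · simp only [hs1]
      exact sv0'
    · simp only [hs1]
      exact hz0
    · simp only [Function.update_of_ne hib]
      exact nv0.1
  have key := vloc_fin T a0 b0 c0 s SA SB SC ib ic (fun n => 1 / L n) _ _ hεl hp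
    (Eventually.of_forall hvl) hr hk
  filter_upwards [key] with n hn
  obtain ⟨⟨hn1, hn2⟩, hn3⟩ := hn
  have hL0 : (L n : ℂ) ≠ 0 := Complex.ofReal_ne_zero.2 (hpos n).ne'
  refine ⟨?_, hn2, ?_⟩
  · intro b
    by_cases hb' : b = b0
    · subst hb'
      have h1 := hn1 b
      simp only [Function.update_self, Complex.mul_im, Complex.ofReal_re, Complex.ofReal_im,
        zero_mul, add_zero] at h1
      exact (mul_eq_zero.1 h1).resolve_left (hpos n).ne'
    · have h1 := hn1 b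
      simp only [Function.update_of_ne hb'] at h1
      exact h1
  · intro dv dw sdv sdw hd
    have e1 : dv - dv ib • v n = dv + (-dv ib) • v n := by rw [neg_smul, sub_eq_add_neg]
    have e2 : dw - dw ic • w n = dw + (-dw ic) • w n := by rw [neg_smul, sub_eq_add_neg]
    have hd' : ∀ a ∈ SA, c1 (ad T a0 b0 c0 (s * L n)) (dv - dv ib • v n) (w n) a
        + c1 (ad T a0 b0 c0 (s * L n)) (v n) (dw - dw ic • w n) a = 0 := by
      intro a ha'
      have h1 := hd a ha'
      have h2 := hz n a ha'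
      rw [e1, e2, c1_add_left, c1_add_right, c1_smul_left, c1_smul_right, h2]
      linear_combination h1
    have sx : Sup SB (dv - dv ib • v n) := by
      intro b hb'
      rw [Pi.sub_apply, Pi.smul_apply, sdv b hb', sv n b hb', smul_zero, sub_zero]
    have sy : Sup SC (dw - dw ic • w n) := by
      intro c hc'
      rw [Pi.sub_apply, Pi.smul_apply, sdw c hc', sw n c hc', smul_zero, sub_zero]
    have x1 : (dv - dv ib • v n) ib = 0 := by
      rw [Pi.sub_apply, Pi.smul_apply, (nv n).1, smul_eq_mul, mul_one, sub_self]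
    have y1 : (dw - dw ic • w n) ic = 0 := by
      rw [Pi.sub_apply, Pi.smul_apply, (nw n).1, smul_eq_mul, mul_one, sub_self]
    generalize hx : dv - dv ib • v n = x at *
    generalize hy : dw - dw ic • w n = y at *
    have h7 := hn3 (Function.update x b0 ((L n : ℂ) * x b0), y) (by
      simp only [dvloc]
      rw [bcv_scl (b0 := b0) _ _ (hεL n), bcv_scl (b0 := b0) _ _ (hεL n)]
      refine Prod.ext ?_ (Prod.ext ?_ (Prod.ext ?_ ?_))
      · funext a
        by_cases ha' : a ∈ SA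
        · simp only [if_pos ha', Function.update_self]
          have h5 := hd' a ha'
          rw [c1_ad, c1_ad, Complex.ofReal_mul] at h5
          refine Eq.trans ?_ h5
          by_cases h6 : a = a0
          · rw [if_pos h6, if_pos h6, if_pos h6]
            ring
          · rw [if_neg h6, if_neg h6, if_neg h6]
            ring
        · simp only [if_neg ha']
          rfl
      · funext b
        by_cases hb' : b ∈ SB
        · simp only [if_pos hb']
          rfl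
        · simp only [if_neg hb']
          rw [Function.update_of_ne (fun h => hb' (by rw [h]; exact hb))]
          exact sx b hb'
      · funext c
        by_cases hc' : c ∈ SC
        · simp only [if_pos hc']
          rfl
        · simp only [if_neg hc']
          exact sy c hc'
      · funext i
        simp only [Function.update_of_ne hib, x1, y1]
        fin_cases i <;> rfl)
    have h8 := congrArg Prod.fst h7
    have h9 := congrArg Prod.snd h7
    simp only [Prod.fst_zero, Prod.snd_zero] at h8 h9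
    have h10 : x = 0 := by
      rw [← bcv_scl (b0 := b0) _ _ (hεL n) x, h8]
      funext b
      simp [scl]
    refine ⟨⟨dv ib, ?_⟩, ⟨dw ic, ?_⟩⟩
    · exact sub_eq_zero.1 (hx.trans h10)
    · exact sub_eq_zero.1 (hy.trans h9)

private def BcvG (T : A → B → C → ℝ) (SA : Finset A) (SB : Finset B) (SC : Finset C)
    (v : B → ℂ) (w : C → ℂ) : Prop :=
  Rea v ∧ Rea w ∧ ∀ dv dw, Sup SB dv → Sup SC dw →
    (∀ a ∈ SA, c1 T dv w a + c1 T v dw a = 0) → (∃ r : ℂ, dv = r • v) ∧ ∃ r : ℂ, dw = r • w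

omit [Fintype B] [DecidableEq B] in
private theorem bcv_cancel {r ρ : ℂ} (hr : r ≠ 0) {x v : B → ℂ} (h : r • x = ρ • (r • v)) :
    x = ρ • v := by
  funext a
  have h1 := congrFun h a
  rw [Pi.smul_apply, Pi.smul_apply, Pi.smul_apply, smul_eq_mul, smul_eq_mul, smul_eq_mul] at h1
  rw [Pi.smul_apply, smul_eq_mul]
  refine mul_left_cancel₀ hr ?_
  rw [h1]
  ring

omit [Fintype B] [DecidableEq B] in
private theorem bcv_ssm {x : B → ℂ} (h : Sup SB x) (r : ℂ) : Sup SB (r • x) := by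
  intro b hb
  rw [Pi.smul_apply, h b hb, smul_zero]

omit [DecidableEq A] [DecidableEq B] [DecidableEq C] in
/-- It suffices to check normalised zeros. -/
private theorem bcv_vr (h : ∀ ib ic v w, Nrm v ib → Nrm w ic → Sup SB v → Sup SC w →
    (∀ a ∈ SA, c1 T v w a = 0) → BcvG T SA SB SC v w) : VR T SA SB SC := by
  intro v w sv sw hz nv nw
  obtain ⟨r, ib, hr, h1⟩ := exists_nrm nv
  obtain ⟨t, ic, ht, h2⟩ := exists_nrm nw
  obtain ⟨h3, h4, h5⟩ := h ib ic (r • v) (t • w) h1 h2 (bcv_ssm sv r) (bcv_ssm sw t) (by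
    intro a ha
    rw [c1_smul_left, c1_smul_right, hz a ha, mul_zero, mul_zero])
  refine ⟨(Rl_smul hr).1 h3.rl, (Rl_smul ht).1 h4.rl, fun dv dw sdv sdw hd => ?_⟩
  obtain ⟨⟨ρ, h6⟩, ⟨σ, h7⟩⟩ := h5 (r • dv) (t • dw) (bcv_ssm sdv r) (bcv_ssm sdw t) (by
    intro a ha
    rw [c1_smul_left, c1_smul_right, c1_smul_left, c1_smul_right]
    linear_combination (r * t) * hd a ha)
  exact ⟨⟨ρ, bcv_cancel hr h6⟩, ⟨σ, bcv_cancel ht h7⟩⟩

private theorem bcv_s23 {l : ℝ} {v : B → ℂ} {w : C → ℂ}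
    (h : BcvG (ad (s23 T) a0 c0 b0 (s * l)) SA SC SB w v) :
    BcvG (ad T a0 b0 c0 (s * l)) SA SB SC v w := by
  obtain ⟨h1, h2, h3⟩ := h
  refine ⟨h2, h1, fun dv dw sdv sdw hd => ?_⟩
  obtain ⟨h4, h5⟩ := h3 dw dv sdw sdv (by
    intro a ha
    rw [← s23_ad, c1_s23, c1_s23, add_comm]
    exact hd a ha)
  exact ⟨h5, h4⟩

/-- The contradiction for a sequence. -/
private theorem bcv_seq (hs : s = 1 ∨ s = -1) (ha : a0 ∈ SA) (hb : b0 ∈ SB) (hc : c0 ∈ SC)
    (h12 : VR T (SA.erase a0) (SB.erase b0) SC) (h13 : VR T (SA.erase a0) SB (SC.erase c0))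
    (h123 : VE T (SA.erase a0) (SB.erase b0) (SC.erase c0))
    (K : Set ((B → ℂ) × (C → ℂ))) (hK : IsClosed K)
    (hL : ∀ v w, v ≠ 0 → w ≠ 0 → (∀ a ∈ SA.erase a0, c1 T v w a = 0) →
      ((Sup (SB.erase b0) v ∧ Sup SC w) ∨ (Sup SB v ∧ Sup (SC.erase c0) w)) → (v, w) ∉ K)
    (L : ℕ → ℝ) (hLt : Tendsto L uf atTop)
    (hpos : ∀ n, 0 < L n) (ib : B) (ic : C) (v : ℕ → B → ℂ) (w : ℕ → C → ℂ)
    (nv : ∀ n, Nrm (v n) ib) (nw : ∀ n, Nrm (w n) ic) (sv : ∀ n, Sup SB (v n))
    (sw : ∀ n, Sup SC (w n)) (hz : ∀ n, ∀ a ∈ SA, c1 (ad T a0 b0 c0 (s * L n)) (v n) (w n) a = 0)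
    (hbad : ∀ n, ¬ (BcvG (ad T a0 b0 c0 (s * L n)) SA SB SC (v n) (w n) ∧ (v n, w n) ∉ K)) :
    False := by
  obtain ⟨v0, hv⟩ := ulim_vec v 1 fun n a => (nv n).2 a
  obtain ⟨w0, hw⟩ := ulim_vec w 1 fun n a => (nw n).2 a
  have nv0 : Nrm v0 ib := Nrm.lim nv hv
  have nw0 : Nrm w0 ic := Nrm.lim nw hw
  have sv0 : Sup SB v0 := Sup.lim sv hv
  have sw0 : Sup SC w0 := Sup.lim sw hw
  have hz0 := bcv_lim0 hz hv hw
  have hss := bcv_ss hs
  have hvb : Tendsto (fun n => v n b0) uf (𝓝 (v0 b0)) := (tendsto_pi_nhds.1 hv) b0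
  have hwc : Tendsto (fun n => w n c0) uf (𝓝 (w0 c0)) := (tendsto_pi_nhds.1 hw) c0
  have hprod : v0 b0 * w0 c0 = 0 := by
    have h1 : Tendsto (fun n => v n b0 * w n c0) uf (𝓝 (v0 b0 * w0 c0)) := hvb.mul hwc
    have h2 : Tendsto (fun n => (((L n)⁻¹ : ℝ) : ℂ) * (-(s : ℂ) * c1 T (v n) (w n) a0)) uf
        (𝓝 (((0 : ℝ) : ℂ) * (-(s : ℂ) * c1 T v0 w0 a0))) := by
      refine Tendsto.mul ?_ (tendsto_const_nhds.mul (lim_c1 (T := T) hv hw a0))
      exact (Complex.continuous_ofReal.tendsto 0).comp hLt.inv_tendsto_atTop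
    have h3 : (fun n => (((L n)⁻¹ : ℝ) : ℂ) * (-(s : ℂ) * c1 T (v n) (w n) a0))
        = fun n => v n b0 * w n c0 := by
      funext n
      have h5 := bcv_eq0 ha (hz n)
      have h6 : (L n : ℂ) ≠ 0 := Complex.ofReal_ne_zero.2 (hpos n).ne'
      rw [Complex.ofReal_inv, inv_mul_eq_iff_eq_mul₀ h6]
      linear_combination (-(s : ℂ)) * h5 + ((L n : ℂ) * v n b0 * w n c0) * hss
    rw [h3] at h2
    have h4 := tendsto_nhds_unique h1 h2
    rw [h4, Complex.ofReal_zero, zero_mul]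
  have hnK : (v0, w0) ∉ K → ∀ᶠ n in uf, (v n, w n) ∉ K := by
    intro h
    have h1 : Tendsto (fun n => (v n, w n)) uf (𝓝 (v0, w0)) := Tendsto.prodMk_nhds hv hw
    exact h1.eventually (hK.isOpen_compl.mem_nhds h)
  by_cases c1' : v0 b0 = 0
  · have sv1 : Sup (SB.erase b0) v0 := bcv_sup sv0 c1'
    by_cases c2' : w0 c0 = 0
    · have sw1 : Sup (SC.erase c0) w0 := bcv_sup sw0 c2'
      rcases h123 v0 w0 sv1 sw1 hz0 with h | h
      · exact nv0.ne h
      · exact nw0.ne h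
    · have h1 := bcv_rig hs ha hb hc h12 L hLt hpos ib ic v w v0 w0 nv nw sv sw hz hv hw c1' c2'
      have h2 := hnK (hL v0 w0 nv0.ne nw0.ne hz0 (Or.inl ⟨sv1, sw0⟩))
      obtain ⟨n, hn1, hn2⟩ := (h1.and h2).exists
      exact hbad n ⟨hn1, hn2⟩
  · have c2' : w0 c0 = 0 := (mul_eq_zero.1 hprod).resolve_left c1'
    have sw1 : Sup (SC.erase c0) w0 := bcv_sup sw0 c2'
    have h1 := bcv_rig (T := s23 T) hs ha hc hb (VR_s23.2 h13) L hLt hpos ic ib w v w0 v0 nw nv
      sw sv (fun n a ha' => by rw [← s23_ad, c1_s23]; exact hz n a ha') hw hv c2' c1'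
    have h2 := hnK (hL v0 w0 nv0.ne nw0.ne hz0 (Or.inr ⟨sv0, sw1⟩))
    obtain ⟨n, hn1, hn2⟩ := (h1.and h2).exists
    exact hbad n ⟨bcv_s23 hn1, hn2⟩

/-- A large corner entry and the zeros of `c1`.

Proof. Suppose that the conclusion fails for arbitrarily large `L`; as in `by_seq` take a sequence
of normalised zeros `(v n, w n)` with `L n → ∞`, fixed indices `ib`, `ic`, and limits `v0`, `w0`, such
that (for all `n`) the conclusion of `VR` fails at `(v n, w n)` or `(v n, w n) ∈ K`. The equations for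
`a ≠ a0` pass to the limit, and the equation at `a0`, `c1 T v w a0 + s L v(b0) w(c0) = 0`, gives
`v(b0) w(c0) → 0`. If `v0 b0 = 0` and `w0 c0 ≠ 0`: `bcv_rig` excludes the first alternative, and
`hL`, with `K` closed, the second. If `v0 b0 ≠ 0` and `w0 c0 = 0`: the same for `s23 T` (`VR_s23`,
`c1_s23`, `s23_ad`). If `v0 b0 = w0 c0 = 0`: `(v0, w0)` contradicts `h123`. -/
theorem bcv (hs : s = 1 ∨ s = -1) (ha : a0 ∈ SA) (hb : b0 ∈ SB) (hc : c0 ∈ SC)
    (h12 : VR T (SA.erase a0) (SB.erase b0) SC) (h13 : VR T (SA.erase a0) SB (SC.erase c0))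
    (h123 : VE T (SA.erase a0) (SB.erase b0) (SC.erase c0))
    (K : Set ((B → ℂ) × (C → ℂ))) (hK : IsClosed K)
    (hL : ∀ v w, v ≠ 0 → w ≠ 0 → (∀ a ∈ SA.erase a0, c1 T v w a = 0) →
      ((Sup (SB.erase b0) v ∧ Sup SC w) ∨ (Sup SB v ∧ Sup (SC.erase c0) w)) → (v, w) ∉ K) :
    ∃ L0 : ℝ, ∀ L ≥ L0, VR (ad T a0 b0 c0 (s * L)) SA SB SC ∧
      ∀ ib ic v w, Nrm v ib → Nrm w ic → Sup SB v → Sup SC w →
        (∀ a ∈ SA, c1 (ad T a0 b0 c0 (s * L)) v w a = 0) → (v, w) ∉ K := by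
  by_contra hcon
  have hex : ∀ n : ℕ, ∃ (l : ℝ) (ib : B) (ic : C) (v : B → ℂ) (w : C → ℂ), (n : ℝ) ≤ l ∧ 0 < l ∧
      Nrm v ib ∧ Nrm w ic ∧ Sup SB v ∧ Sup SC w ∧
      (∀ a ∈ SA, c1 (ad T a0 b0 c0 (s * l)) v w a = 0) ∧
      ¬ (BcvG (ad T a0 b0 c0 (s * l)) SA SB SC v w ∧ (v, w) ∉ K) := by
    intro n
    by_contra hn
    have hg : ∀ (l : ℝ) (ib : B) (ic : C) (v : B → ℂ) (w : C → ℂ), (n : ℝ) + 1 ≤ l →
        Nrm v ib → Nrm w ic → Sup SB v → Sup SC w →
        (∀ a ∈ SA, c1 (ad T a0 b0 c0 (s * l)) v w a = 0) →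
        BcvG (ad T a0 b0 c0 (s * l)) SA SB SC v w ∧ (v, w) ∉ K := by
      intro l ib ic v w h1 h2 h3 h4 h5 h6
      by_contra h7
      have h8 : (0 : ℝ) ≤ n := Nat.cast_nonneg n
      exact hn ⟨l, ib, ic, v, w, by linarith, by linarith, h2, h3, h4, h5, h6, h7⟩
    refine hcon ⟨(n : ℝ) + 1, fun l hl => ⟨bcv_vr ?_, ?_⟩⟩
    · intro ib ic v w h2 h3 h4 h5 h6
      exact (hg l ib ic v w hl h2 h3 h4 h5 h6).1
    · intro ib ic v w h2 h3 h4 h5 h6
      exact (hg l ib ic v w hl h2 h3 h4 h5 h6).2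
  choose l jb jc v w h1 h2 h3 h4 h5 h6 h7 h8 using hex
  obtain ⟨⟨ib, ic⟩, hi⟩ := uconst fun n => (jb n, jc n)
  obtain ⟨n0, hn0⟩ := hi.exists
  classical
  let φ : ℕ → ℕ := fun n => if (jb n, jc n) = (ib, ic) then n else n0
  have hφ : ∀ n, (jb (φ n), jc (φ n)) = (ib, ic) := by
    intro n
    simp only [φ]
    split_ifs with h
    · exact h
    · exact hn0
  have hφe : ∀ᶠ n in uf, φ n = n := by
    filter_upwards [hi] with n hn
    simp only [φ]
    rw [if_pos hn]
  have hlt : Tendsto (fun n => l (φ n)) uf atTop := by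
    have h9 : Tendsto l uf atTop := tendsto_atTop_mono h1 uf_atTop
    refine h9.congr' ?_
    filter_upwards [hφe] with n hn
    rw [hn]
  refine bcv_seq hs ha hb hc h12 h13 h123 K hK hL (fun n => l (φ n)) hlt (fun n => h2 _) ib ic
    (fun n => v (φ n)) (fun n => w (φ n)) ?_ ?_ (fun n => h5 _) (fun n => h6 _)
    (fun n => h7 _) (fun n => h8 _)
  · intro n
    have h9 := h3 (φ n)
    have h10 := congrArg Prod.fst (hφ n)
    simp only at h10
    rwa [h10] at h9
  · intro n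
    have h9 := h4 (φ n)
    have h10 := congrArg Prod.snd (hφ n)
    simp only at h10
    rwa [h10] at h9

end

end Pool.Agent.MPb0eR
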