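import Mathlib
import Pool.Agent.Lib.MP_b0e20b_ag_R.Alg2

/-!
# MP_b0e20b_ag, project R: no zeros of `c1`
-/

set_option autoImplicit false

open scoped BigOperators Topology
open Filter

namespace Pool.Agent.MPb0eR

section

variable {A B C : Type} [Fintype A] [Fintype B] [Fintype C] {T : A → B → C → ℝ} {SA : Finset A}
  {SB : Finset B} {SC : Finset C}

open Classical in
/-- Extension by zero. -/
private noncomputable def vemExt (SA : Finset A) : (SA → ℂ) →ₗ[ℂ] (A → ℂ) where
  toFun x a := if h : a ∈ SA then x ⟨a, h⟩ else 0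
  map_add' x y := by
    funext a
    by_cases h : a ∈ SA <;> simp [h]
  map_smul' r x := by
    funext a
    by_cases h : a ∈ SA <;> simp [h]

open Classical in
/-- The linear map of the proof of `vempty`. -/
private noncomputable def vemMap (T : A → B → C → ℝ) (SA : Finset A) (SB : Finset B)
    (SC : Finset C) (v : B → ℂ) (w : C → ℂ) (b0 : B) (c0 : C) :
    (SA → ℂ) →ₗ[ℂ] (↥(SB.erase b0) → ℂ) × (↥(SC.erase c0) → ℂ) where
  toFun x := (fun b => c2 T (vemExt SA x) w b, fun c => c3 T (vemExt SA x) v c)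
  map_add' x y := by
    ext i
    · simp only [map_add, Prod.fst_add, Pi.add_apply]
      exact c2_add_left _ _ _ _ _
    · simp only [map_add, Prod.snd_add, Pi.add_apply]
      exact c3_add_left _ _ _ _ _
  map_smul' r x := by
    ext i
    · simp only [map_smul, Prod.smul_fst, Pi.smul_apply, smul_eq_mul, RingHom.id_apply]
      exact c2_smul_left _ _ _ _ _
    · simp only [map_smul, Prod.smul_snd, Pi.smul_apply, smul_eq_mul, RingHom.id_apply]
      exact c3_smul_left _ _ _ _ _

/-- If the masked tensor is fully real, then a multiplier cannot be zero, so `c1` has no zeros.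

Proof. Suppose `v, w ≠ 0` are supported in the masks and `c1 T v w a = 0` for `a ∈ SA`. Consider the
linear map `u ↦ ((c2 T u w b)_(b ∈ SB), (c3 T u v c)_(c ∈ SC))` on the space of the vectors `u`
supported in `SA`, of dimension `SA.card`. For all such `u`, `∑ b, v b * c2 T u w b =
tr T u v w = ∑ a, u a * c1 T v w a = 0` and `∑ c, w c * c3 T u v c = 0`, so the image lies in a
subspace of dimension `SB.card + SC.card - 2` (the two functionals `(p, q) ↦ ∑ v b * p b` and
`∑ w c * q c` are linearly independent as `v ≠ 0`, `w ≠ 0`), which is smaller than `SA.card`. So some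
`u ≠ 0` satisfies `c2 T u w b = 0` on `SB` and `c3 T u v c = 0` on `SC`:
`Tup T SA SB SC u v w 0 0 0`, which contradicts `Ok.hα`. -/
theorem vempty (hf : FR T SA SB SC) (hc : SB.card + SC.card ≤ SA.card + 1) : VE T SA SB SC := by
  classical
  intro v w hv hw h0
  by_contra hne
  push Not at hne
  obtain ⟨hv0, hw0⟩ := hne
  obtain ⟨b0, hb0⟩ := Function.ne_iff.1 hv0
  obtain ⟨c0, hc0⟩ := Function.ne_iff.1 hw0
  rw [Pi.zero_apply] at hb0 hc0
  have hbS : b0 ∈ SB := by
    by_contra h
    exact hb0 (hv b0 h)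
  have hcS : c0 ∈ SC := by
    by_contra h
    exact hc0 (hw c0 h)
  have hdim : Module.finrank ℂ ((↥(SB.erase b0) → ℂ) × (↥(SC.erase c0) → ℂ)) <
      Module.finrank ℂ (SA → ℂ) := by
    rw [Module.finrank_prod, Module.finrank_fintype_fun_eq_card, Module.finrank_fintype_fun_eq_card,
      Module.finrank_fintype_fun_eq_card, Fintype.card_coe, Fintype.card_coe, Fintype.card_coe,
      Finset.card_erase_of_mem hbS, Finset.card_erase_of_mem hcS]
    have h1 : 0 < SB.card := Finset.card_pos.2 ⟨b0, hbS⟩
    have h2 : 0 < SC.card := Finset.card_pos.2 ⟨c0, hcS⟩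
    omega
  have hker := LinearMap.ker_ne_bot_of_finrank_lt (f := vemMap T SA SB SC v w b0 c0) hdim
  obtain ⟨x, hx, hx0⟩ := Submodule.exists_mem_ne_zero_of_ne_bot hker
  rw [LinearMap.mem_ker] at hx
  set u : A → ℂ := vemExt SA x with hu
  have hsu : Sup SA u := by
    intro a ha
    rw [hu]
    simp [vemExt, ha]
  have hu0 : u ≠ 0 := by
    intro h
    apply hx0
    funext a
    have h1 := congrFun h a.1
    rw [hu] at h1
    simpa [vemExt, a.2] using h1
  have h2 : ∀ b ∈ SB, b ≠ b0 → c2 T u w b = 0 := by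
    intro b hb hbb
    have h1 := congrFun (congrArg Prod.fst hx) ⟨b, Finset.mem_erase.2 ⟨hbb, hb⟩⟩
    exact h1
  have h3 : ∀ c ∈ SC, c ≠ c0 → c3 T u v c = 0 := by
    intro c hc hcc
    have h1 := congrFun (congrArg Prod.snd hx) ⟨c, Finset.mem_erase.2 ⟨hcc, hc⟩⟩
    exact h1
  have htr : tr T u v w = 0 := by
    rw [tr_c1]
    refine Finset.sum_eq_zero fun a _ => ?_
    by_cases ha : a ∈ SA
    · rw [h0 a ha, mul_zero]
    · rw [hsu a ha, zero_mul]
  have h2' : c2 T u w b0 = 0 := by
    have h1 : ∑ b, v b * c2 T u w b = v b0 * c2 T u w b0 := by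
      refine Finset.sum_eq_single b0 (fun b _ hbb => ?_) (fun h => absurd (Finset.mem_univ _) h)
      by_cases hb : b ∈ SB
      · rw [h2 b hb hbb, mul_zero]
      · rw [hv b hb, zero_mul]
    rw [tr_c2, h1] at htr
    exact (mul_eq_zero.1 htr).resolve_left hb0
  have h3' : c3 T u v c0 = 0 := by
    have h1 : ∑ c, w c * c3 T u v c = w c0 * c3 T u v c0 := by
      refine Finset.sum_eq_single c0 (fun c _ hcc => ?_) (fun h => absurd (Finset.mem_univ _) h)
      by_cases hc : c ∈ SC
      · rw [h3 c hc hcc, mul_zero]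
      · rw [hw c hc, zero_mul]
    rw [tr_c3, h1] at htr
    exact (mul_eq_zero.1 htr).resolve_left hc0
  have htup : Tup T SA SB SC u v w 0 0 0 := by
    refine ⟨hsu, hv, hw, ?_, ?_, ?_⟩
    · intro a ha
      rw [h0 a ha, zero_mul]
    · intro b hb
      rw [zero_mul]
      by_cases hbb : b = b0
      · rw [hbb]
        exact h2'
      · exact h2 b hb hbb
    · intro c hc
      rw [zero_mul]
      by_cases hcc : c = c0
      · rw [hcc]
        exact h3'
      · exact h3 c hc hcc
  exact (hf u v w 0 0 0 htup hu0 hv0 hw0).hα rfl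

end

end Pool.Agent.MPb0eR
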