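import Mathlib
import Pool.Agent.Lib.MP_b0e20b_ag_R.Bcv
import Pool.Agent.Lib.MP_b0e20b_ag_R.Vem
import Pool.Agent.Lib.MP_b0e20b_ag_R.GTc

/-!
# MP_b0e20b_ag, project R: the step for `VG`
-/

set_option autoImplicit false

open scoped BigOperators Topology
open Filter

namespace Pool.Agent.MPb0eR

variable {n1 n2 n3 : ℕ}

private theorem StV_ad (F : FT n1 n2 n3) (a0 : Fin n1) (b0 : Fin (n2 + 1)) (c0 : Fin (n3 + 1))
    (y : ℝ) : up F a0 b0 c0 y = ad (up F a0 b0 c0 0) a0 b0 c0 y := by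
  funext a b c
  by_cases h : a = a0 ∧ b = b0 ∧ c = c0
  · rw [up, ad, up, if_pos h, if_pos h, if_pos h, zero_add]
  · rw [up, ad, up, if_neg h, if_neg h, if_neg h, add_zero]

private theorem StV_congr {F F' : FT n1 n2 n3} {p q r : ℕ}
    (h : ∀ (a : Fin n1) (b : Fin (n2 + 1)) (c : Fin (n3 + 1)), p ≤ a.val → q ≤ b.val →
      r ≤ c.val → F a b c = F' a b c) (hF : VG F p q r) : VG F' p q r := by
  intro he
  obtain ⟨h1, h2⟩ := hF he
  have hag : ∀ a ∈ mk n1 p n1, ∀ b ∈ mk (n2 + 1) q (n2 + 1), ∀ c ∈ mk (n3 + 1) r (n3 + 1),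
      F a b c = F' a b c := by
    intro a ha b hb c hc
    exact h a b c (mem_mk.1 ha).1 (mem_mk.1 hb).1 (mem_mk.1 hc).1
  refine ⟨(VR_congr hag).1 h1, fun v w sv sw hz hv hw => h2 v w sv sw (fun a ha => ?_) hv hw⟩
  rw [c1_congr sv sw (hag a ha)]
  exact hz a ha

private theorem StV_up (h2 : 1 ≤ n2) (h3 : 1 ≤ n3) {F : FT n1 n2 n3} {a0 : Fin n1}
    {b0 : Fin (n2 + 1)} {c0 : Fin (n3 + 1)} (hG : ∀ a' b' c', a0 ≤ a' → b0 ≤ b' → c0 ≤ c' →
      (a', b', c') ≠ (a0, b0, c0) → Gd F a' b' c') (x : ℝ) {p q r : ℕ} (hp : a0.val < p)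
    (hq : b0.val ≤ q) (hr : c0.val ≤ r) (hp' : p ≤ n1) (hq' : q ≤ n2 + 1) (hr' : r ≤ n3 + 1) :
    VG (up F a0 b0 c0 x) p q r := by
  by_cases h1 : n1 ≤ p
  · exact VG_base h2 h3 h1 hp' hq' hr'
  by_cases h4 : n2 + 1 ≤ q ∨ n3 + 1 ≤ r
  · exact VG_triv h4
  push Not at h1 h4
  obtain ⟨h4, h5⟩ := h4
  have hg := (hG ⟨p, h1⟩ ⟨q, h4⟩ ⟨r, h5⟩ (Fin.le_def.2 hp.le) (Fin.le_def.2 hq)
    (Fin.le_def.2 hr) (by
      intro he
      rw [Prod.mk.injEq, Prod.mk.injEq] at he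
      have ea' := congrArg Fin.val he.1
      simp only at ea'
      omega)).vg
  refine StV_congr (fun a b c ha hb hc => ?_) hg
  rw [up, if_neg]
  rintro ⟨e1, -, -⟩
  rw [e1] at ha
  omega

private theorem StV_fr {F : FT n1 n2 n3} {a0 : Fin n1}
    {b0 : Fin (n2 + 1)} {c0 : Fin (n3 + 1)} (hG : ∀ a' b' c', a0 ≤ a' → b0 ≤ b' → c0 ≤ c' →
      (a', b', c') ≠ (a0, b0, c0) → Gd F a' b' c') (x : ℝ) :
    FR (up F a0 b0 c0 x) (mk n1 (a0.val + 1) n1) (mk (n2 + 1) (b0.val + 1) (n2 + 1))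
      (mk (n3 + 1) (c0.val + 1) (n3 + 1)) := by
  by_cases h1 : a0.val + 1 < n1 ∧ b0.val + 1 < n2 + 1 ∧ c0.val + 1 < n3 + 1
  · obtain ⟨h1, h4, h5⟩ := h1
    have hg := ((hG ⟨a0.val + 1, h1⟩ ⟨b0.val + 1, h4⟩ ⟨c0.val + 1, h5⟩
      (Fin.le_def.2 (Nat.le_succ _)) (Fin.le_def.2 (Nat.le_succ _))
      (Fin.le_def.2 (Nat.le_succ _)) (by
        intro he
        rw [Prod.mk.injEq, Prod.mk.injEq] at he
        have ea' := congrArg Fin.val he.1
        simp only at ea'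
        omega)).gt 0 (by norm_num) 0 (by norm_num)).fr
    have hg' : FR F (mk n1 (a0.val + 1) n1) (mk (n2 + 1) (b0.val + 1) (n2 + 1))
      (mk (n3 + 1) (c0.val + 1) (n3 + 1)) := hg
    refine (FR_congr fun a ha b hb c hc => ?_).1 hg'
    rw [up, if_neg]
    rintro ⟨e1, -, -⟩
    rw [mem_mk, e1] at ha
    omega
  · by_cases h4 : a0.val + 1 < n1
    · by_cases h5 : b0.val + 1 < n2 + 1
      · exact FR_empty (Or.inr (Or.inr (mk_empty (Or.inl (by
          by_contra h6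
          exact h1 ⟨h4, h5, by omega⟩)))))
      · exact FR_empty (Or.inr (Or.inl (mk_empty (Or.inl (by omega)))))
    · exact FR_empty (Or.inl (mk_empty (Or.inl (by omega))))

/-- The step for `VG`.

Proof. Assume `p + n2 + n3 = n1 + q + r` (`p, q, r` the values of `a0, b0, c0`), otherwise nothing
is
claimed. Let `F0 = up F a0 b0 c0 0`; `up F a0 b0 c0 y = ad F0 a0 b0 c0 y`. Apply `bcv` to `T = F0`,
`SA = mk n1 p n1`, `SB = mk (n2 + 1) q (n2 + 1)`, `SC = mk (n3 + 1) r (n3 + 1)`,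
`K = {(3 * v (pb n2) + 4 * v (po n2)) * (3 * w (pb n3) + 4 * w (po n3)) = 0}`. `h12` and the first
half
of `hL`: `VG F` at the corner `(p + 1, q + 1, r)`, which has the same expected dimension (`hG` if it
is in the range; `VG_base` if `p + 1 = n1`; `VG_triv` or `VR_empty` if `q = n2`), transferred to
`F0`
(`VR_congr`, `c1_congr`). `h13` similarly with `(p + 1, q, r + 1)`. `h123`: `vempty`, because
`(n2 - q) + (n3 - r) ≤ (n1 - p - 1) + 1` (`mk_card`), with `FR` from `Gd.gt` (modes `0`, `0`) at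
`(p + 1, q + 1, r + 1)`, or `GT_triv`. The conclusion of `bcv` is about normalised zeros; the
conditions
in `VG` are invariant under rescaling (`exists_nrm`). -/
theorem st_vg (h2 : 1 ≤ n2) (h3 : 1 ≤ n3) (F : FT n1 n2 n3) (a0 : Fin n1) (b0 : Fin (n2 + 1))
    (c0 : Fin (n3 + 1)) (hG : ∀ a' b' c', a0 ≤ a' → b0 ≤ b' → c0 ≤ c' →
      (a', b', c') ≠ (a0, b0, c0) → Gd F a' b' c') :
    ∃ X0 : ℝ, ∀ x ≥ X0, VG (up F a0 b0 c0 (sg a0.val b0.val c0.val * x))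
      a0.val b0.val c0.val := by
  by_cases he : a0.val + n2 + n3 = n1 + b0.val + c0.val
  swap
  · exact ⟨0, fun x _ h => absurd h he⟩
  have hs := sg_cases a0.val b0.val c0.val
  have hSA : a0 ∈ mk n1 a0.val n1 := mem_mk.2 ⟨le_rfl, a0.isLt⟩
  have hSB : b0 ∈ mk (n2 + 1) b0.val (n2 + 1) := mem_mk.2 ⟨le_rfl, b0.isLt⟩
  have hSC : c0 ∈ mk (n3 + 1) c0.val (n3 + 1) := mem_mk.2 ⟨le_rfl, c0.isLt⟩
  have ia := a0.isLt
  have ib := b0.isLt
  have ic := c0.isLt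
  have g12 := StV_up h2 h3 hG 0 (p := a0.val + 1) (q := b0.val + 1) (r := c0.val)
    (Nat.lt_succ_self _) (Nat.le_succ _) le_rfl (by omega) (by omega) (by omega) (by omega)
  have g13 := StV_up h2 h3 hG 0 (p := a0.val + 1) (q := b0.val) (r := c0.val + 1)
    (Nat.lt_succ_self _) le_rfl (Nat.le_succ _) (by omega) (by omega) (by omega) (by omega)
  have e12 : VR (up F a0 b0 c0 0) ((mk n1 a0.val n1).erase a0)
      ((mk (n2 + 1) b0.val (n2 + 1)).erase b0) (mk (n3 + 1) c0.val (n3 + 1)) := by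
    rw [mk_erase rfl, mk_erase rfl]
    exact g12.1
  have e13 : VR (up F a0 b0 c0 0) ((mk n1 a0.val n1).erase a0)
      (mk (n2 + 1) b0.val (n2 + 1)) ((mk (n3 + 1) c0.val (n3 + 1)).erase c0) := by
    rw [mk_erase rfl, mk_erase rfl]
    exact g13.1
  have e123 : VE (up F a0 b0 c0 0) ((mk n1 a0.val n1).erase a0)
      ((mk (n2 + 1) b0.val (n2 + 1)).erase b0) ((mk (n3 + 1) c0.val (n3 + 1)).erase c0) := by
    rw [mk_erase rfl, mk_erase rfl, mk_erase rfl]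
    refine vempty (StV_fr hG 0) ?_
    rw [mk_card le_rfl, mk_card le_rfl, mk_card le_rfl]
    omega
  have hK : IsClosed {z : (Fin (n2 + 1) → ℂ) × (Fin (n3 + 1) → ℂ) |
      (3 * z.1 (pb n2) + 4 * z.1 (po n2)) * (3 * z.2 (pb n3) + 4 * z.2 (po n3)) = 0} := by
    refine isClosed_eq ?_ continuous_const
    have k1 : ∀ b, Continuous fun z : (Fin (n2 + 1) → ℂ) × (Fin (n3 + 1) → ℂ) => z.1 b :=
      fun b => (continuous_apply b).comp continuous_fst
    have k2 : ∀ c, Continuous fun z : (Fin (n2 + 1) → ℂ) × (Fin (n3 + 1) → ℂ) => z.2 c :=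
      fun c => (continuous_apply c).comp continuous_snd
    exact ((continuous_const.mul (k1 _)).add (continuous_const.mul (k1 _))).mul
      ((continuous_const.mul (k2 _)).add (continuous_const.mul (k2 _)))
  obtain ⟨L0, hL⟩ := bcv (T := up F a0 b0 c0 0) hs hSA hSB hSC e12 e13 e123 _ hK (by
    intro v w hv hw hz hsup
    rw [Set.mem_ofPred_eq]
    rw [mk_erase rfl] at hz
    rw [mk_erase rfl, mk_erase rfl] at hsup
    rcases hsup with ⟨sv, sw⟩ | ⟨sv, sw⟩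
    · have h := g12.2 v w sv sw hz hv hw
      exact mul_ne_zero h.1 h.2
    · have h := g13.2 v w sv sw hz hv hw
      exact mul_ne_zero h.1 h.2)
  refine ⟨L0, fun x hx _ => ?_⟩
  obtain ⟨hv1, hv2⟩ := hL x hx
  rw [StV_ad]
  refine ⟨hv1, fun v w sv sw hz hv hw => ?_⟩
  obtain ⟨r, jb, hr, m1⟩ := exists_nrm hv
  obtain ⟨t, jc, ht, m2⟩ := exists_nrm hw
  have h := hv2 jb jc (r • v) (t • w) m1 m2
    (fun b hb => by rw [Pi.smul_apply, sv b hb, smul_zero])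
    (fun c hc => by rw [Pi.smul_apply, sw c hc, smul_zero])
    (fun a ha => by rw [c1_smul_left, c1_smul_right, hz a ha, mul_zero, mul_zero])
  rw [Set.mem_ofPred_eq] at h
  refine ⟨fun h0 => h ?_, fun h0 => h ?_⟩
  · have e : 3 * (r • v) (pb n2) + 4 * (r • v) (po n2) =
        r * (3 * v (pb n2) + 4 * v (po n2)) := by
      rw [Pi.smul_apply, Pi.smul_apply, smul_eq_mul, smul_eq_mul]
      ring
    show (3 * (r • v) (pb n2) + 4 * (r • v) (po n2)) * _ = 0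
    rw [e, h0, mul_zero, zero_mul]
  · have e : 3 * (t • w) (pb n3) + 4 * (t • w) (po n3) =
        t * (3 * w (pb n3) + 4 * w (po n3)) := by
      rw [Pi.smul_apply, Pi.smul_apply, smul_eq_mul, smul_eq_mul]
      ring
    show _ * (3 * (t • w) (pb n3) + 4 * (t • w) (po n3)) = 0
    rw [e, h0, mul_zero, mul_zero]

end Pool.Agent.MPb0eR
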