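import Mathlib
import Pool.Agent.Lib.MP_b0e20b_ag_R.BC
import Pool.Agent.Lib.MP_b0e20b_ag_R.GTc

/-!
# MP_b0e20b_ag, project R: the step for `ZW`
-/

set_option autoImplicit false

open scoped BigOperators Topology
open Filter

namespace Pool.Agent.MPb0eR

variable {n1 n2 n3 : ℕ}

private theorem StZ_fin {P : ℕ → ℝ → Prop} (h : ∀ m ≤ 2, ∃ X0 : ℝ, ∀ x ≥ X0, P m x) :
    ∃ X0 : ℝ, ∀ x ≥ X0, ∀ m ≤ 2, P m x := by
  obtain ⟨x0, h0⟩ := h 0 (by norm_num)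
  obtain ⟨x1, h1⟩ := h 1 (by norm_num)
  obtain ⟨x2, h2⟩ := h 2 le_rfl
  refine ⟨max x0 (max x1 x2), fun x hx m hm => ?_⟩
  have hx0 : x0 ≤ x := le_trans (le_max_left _ _) hx
  have hx1 : x1 ≤ x := le_trans (le_trans (le_max_left _ _) (le_max_right _ _)) hx
  have hx2 : x2 ≤ x := le_trans (le_trans (le_max_right _ _) (le_max_right _ _)) hx
  interval_cases m
  · exact h0 x hx0
  · exact h1 x hx1
  · exact h2 x hx2

private theorem StZ_congr {F F' : FT n1 n2 n3} {p q r : ℕ}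
    (h : ∀ (a : Fin n1) (b : Fin (n2 + 1)) (c : Fin (n3 + 1)), p ≤ a.val → q ≤ b.val →
      r ≤ c.val → F a b c = F' a b c) (hF : ZW F p q r) : ZW F' p q r := by
  intro m hm u v w α β γ ht hu hv hw
  refine hF m hm u v w α β γ ((Tup.congr fun a ha b hb c hc => ?_).2 ht) hu hv hw
  rw [mem_mk] at ha hb hc
  exact vt_congr m 0 F F' p q r h a b c ha.1 hb.1 hb.2 hc.1 (by omega)

private theorem StZ_agree {F : FT n1 n2 n3} {a0 : Fin n1} {b0 : Fin (n2 + 1)}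
    {c0 : Fin (n3 + 1)} (x : ℝ) {p q r : ℕ} (hne : a0.val < p ∨ b0.val < q ∨ c0.val < r)
    (a : Fin n1) (b : Fin (n2 + 1)) (c : Fin (n3 + 1)) (ha : p ≤ a.val) (hb : q ≤ b.val)
    (hc : r ≤ c.val) : F a b c = up F a0 b0 c0 x a b c := by
  rw [up, if_neg]
  rintro ⟨e1, e2, e3⟩
  rw [e1] at ha
  rw [e2] at hb
  rw [e3] at hc
  omega

private theorem StZ_ne {a0 : Fin n1} {b0 : Fin (n2 + 1)} {c0 : Fin (n3 + 1)} {p q r : ℕ}
    {h1 : p < n1} {h2 : q < n2 + 1} {h3 : r < n3 + 1}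
    (hne : a0.val < p ∨ b0.val < q ∨ c0.val < r) :
    ((⟨p, h1⟩, ⟨q, h2⟩, ⟨r, h3⟩) : Fin n1 × Fin (n2 + 1) × Fin (n3 + 1)) ≠ (a0, b0, c0) := by
  intro he
  rw [Prod.mk.injEq, Prod.mk.injEq] at he
  obtain ⟨ea, eb, ec⟩ := he
  have ea' := congrArg Fin.val ea
  have eb' := congrArg Fin.val eb
  have ec' := congrArg Fin.val ec
  simp only at ea' eb' ec'
  omega

private theorem StZ_up (h3 : 1 ≤ n3) {F : FT n1 n2 n3} {a0 : Fin n1} {b0 : Fin (n2 + 1)}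
    {c0 : Fin (n3 + 1)} (hG : ∀ a' b' c', a0 ≤ a' → b0 ≤ b' → c0 ≤ c' →
      (a', b', c') ≠ (a0, b0, c0) → Gd F a' b' c') (x : ℝ) {p q r : ℕ} (hp : a0.val ≤ p)
    (hq : b0.val ≤ q) (hr : c0.val ≤ r) (hne : a0.val < p ∨ b0.val < q ∨ c0.val < r) :
    ZW (up F a0 b0 c0 x) p q r := by
  by_cases h1 : n1 ≤ p ∨ n2 + 1 ≤ q ∨ n3 ≤ r
  · exact ZW_triv h3 h1
  push Not at h1
  obtain ⟨h1, h2, h4⟩ := h1
  exact StZ_congr (StZ_agree x hne) ((hG ⟨p, h1⟩ ⟨q, h2⟩ ⟨r, by omega⟩ (Fin.le_def.2 hp)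
    (Fin.le_def.2 hq) (Fin.le_def.2 hr) (StZ_ne hne)).z3 h4)

private theorem StZ_fr {F : FT n1 n2 n3} {a0 : Fin n1} {b0 : Fin (n2 + 1)}
    {c0 : Fin (n3 + 1)} (hG : ∀ a' b' c', a0 ≤ a' → b0 ≤ b' → c0 ≤ c' →
      (a', b', c') ≠ (a0, b0, c0) → Gd F a' b' c') (x : ℝ) {m : ℕ} (hm : m ≤ 2) {p q r : ℕ}
    (hp : a0.val ≤ p) (hq : b0.val ≤ q) (hr : c0.val ≤ r)
    (hne : a0.val < p ∨ b0.val < q ∨ c0.val < r) :
    FR (vt m 0 (up F a0 b0 c0 x)) (mk n1 p n1) (mk (n2 + 1) q (n2 + 1 - m))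
      (mk (n3 + 1) r (n3 + 1)) := by
  by_cases h1 : n1 ≤ p ∨ n2 + 1 ≤ q ∨ n3 + 1 ≤ r
  · refine FR_empty ?_
    rcases h1 with h1 | h1 | h1
    · exact Or.inl (mk_empty (Or.inl h1))
    · exact Or.inr (Or.inl (mk_empty (Or.inl h1)))
    · exact Or.inr (Or.inr (mk_empty (Or.inl h1)))
  push Not at h1
  obtain ⟨h1, h2, h4⟩ := h1
  have hg := ((hG ⟨p, h1⟩ ⟨q, h2⟩ ⟨r, h4⟩ (Fin.le_def.2 hp)
    (Fin.le_def.2 hq) (Fin.le_def.2 hr) (StZ_ne hne)).gt m hm 0 (Nat.zero_le _)).fr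
  refine (FR_congr fun a ha b hb c hc => ?_).1 hg
  rw [mem_mk] at ha hb hc
  exact vt_congr m 0 F _ p q r (StZ_agree x hne) a b c ha.1 hb.1 hb.2 hc.1 hc.2

/-- The case of a corner below `pb n3`. -/
private theorem StZ_a (h3 : 1 ≤ n3) (F : FT n1 n2 n3) (a0 : Fin n1) (b0 : Fin (n2 + 1))
    (c0 : Fin (n3 + 1)) (hG : ∀ a' b' c', a0 ≤ a' → b0 ≤ b' → c0 ≤ c' →
      (a', b', c') ≠ (a0, b0, c0) → Gd F a' b' c') {m : ℕ} (hm : m ≤ 2)
    (hb : b0.val < n2 + 1 - m) (hcp : c0.val < n3 - 1) {s : ℝ} (hs : s = 1 ∨ s = -1) :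
    ∃ L0 : ℝ, ∀ L ≥ L0, ∀ ia ib ic u v w α β γ,
      Tup (ad (vt m 0 (up F a0 b0 c0 0)) a0 b0 c0 (s * L)) (mk n1 a0.val n1)
        (mk (n2 + 1) b0.val (n2 + 1 - m)) (mk (n3 + 1) c0.val (n3 + 1)) u v w α β γ →
      Nrm u ia → Nrm v ib → Nrm w ic → 3 * w (pb n3) + 4 * w (po n3) ≠ 0 := by
  have hSA : a0 ∈ mk n1 a0.val n1 := mem_mk.2 ⟨le_rfl, a0.isLt⟩
  have hSB : b0 ∈ mk (n2 + 1) b0.val (n2 + 1 - m) := mem_mk.2 ⟨le_rfl, hb⟩
  have hSC : c0 ∈ mk (n3 + 1) c0.val (n3 + 1) := mem_mk.2 ⟨le_rfl, c0.isLt⟩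
  have vb : (pb n3).val = n3 - 1 := rfl
  have vo : (po n3).val = n3 := rfl
  have hc3 : ∀ (S : FT n1 n2 n3) (c : Fin (n3 + 1)), Continuous
      fun z : (Fin n1 → ℂ) × (Fin (n2 + 1) → ℂ) × (Fin (n3 + 1) → ℂ) => c3 S z.1 z.2.1 c := by
    intro S c
    have h2 := (continuous_c3 S).comp
      (continuous_fst.prodMk (continuous_fst.comp continuous_snd) :
        Continuous fun z : (Fin n1 → ℂ) × (Fin (n2 + 1) → ℂ) × (Fin (n3 + 1) → ℂ) =>
          (z.1, z.2.1))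
    exact (continuous_apply c).comp h2
  have hK : IsClosed {z : (Fin n1 → ℂ) × (Fin (n2 + 1) → ℂ) × (Fin (n3 + 1) → ℂ) |
      3 * c3 (vt m 0 (up F a0 b0 c0 0)) z.1 z.2.1 (pb n3) +
        4 * c3 (vt m 0 (up F a0 b0 c0 0)) z.1 z.2.1 (po n3) = 0} :=
    isClosed_eq ((continuous_const.mul (hc3 _ _)).add (continuous_const.mul (hc3 _ _)))
      continuous_const
  have hsm : ∀ {p q r : ℕ}, a0.val ≤ p → b0.val ≤ q → c0.val ≤ r →
      (a0.val < p ∨ b0.val < q ∨ c0.val < r) → r ≤ n3 - 1 → ∀ u v w α β γ,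
      u ≠ 0 → v ≠ 0 → w ≠ 0 → Tup (vt m 0 (up F a0 b0 c0 0)) (mk n1 p n1)
        (mk (n2 + 1) q (n2 + 1 - m)) (mk (n3 + 1) r (n3 + 1)) u v w α β γ →
      ¬ (3 * c3 (vt m 0 (up F a0 b0 c0 0)) u v (pb n3) +
        4 * c3 (vt m 0 (up F a0 b0 c0 0)) u v (po n3) = 0) := by
    intro p q r hp hq hr hne hr' u v w α β γ hu hv hw ht he
    rw [ht.e3 (pb n3) (mem_mk.2 ⟨by omega, by omega⟩),
      ht.e3 (po n3) (mem_mk.2 ⟨by omega, by omega⟩)] at he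
    have hγ := (StZ_fr hG 0 hm hp hq hr hne u v w α β γ ht hu hv hw).hγ
    refine StZ_up h3 hG 0 hp hq hr hne m hm u v w α β γ ht hu hv hw ?_
    refine (mul_eq_zero.1 ?_).resolve_left hγ
    rw [← he]
    ring
  obtain ⟨L0, hL⟩ := bcp (T := vt m 0 (up F a0 b0 c0 0)) hs hSA hSB hSC _ hK (by
    rw [Set.mem_ofPred_eq, c3_single, c3_single]
    have hlt : c0 < pb n3 := Fin.lt_def.2 hcp
    have he := (hG a0 b0 (pb n3) le_rfl le_rfl hlt.le (by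
      intro he
      rw [Prod.mk.injEq, Prod.mk.injEq] at he
      exact hlt.ne' he.2.2)).e3 rfl m hm hb
    have hag : ∀ (a : Fin n1) (b : Fin (n2 + 1)) (c : Fin (n3 + 1)), a0.val ≤ a.val →
        b0.val ≤ b.val → n3 - 1 ≤ c.val → F a b c = up F a0 b0 c0 0 a b c := by
      intro a b c _ _ h6
      rw [up, if_neg]
      rintro ⟨-, -, e3⟩
      rw [e3] at h6
      omega
    rw [← vt_congr m 0 F (up F a0 b0 c0 0) a0.val b0.val (n3 - 1) hag a0 b0 (po n3) le_rfl le_rfl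
        hb (by omega) (by omega),
      ← vt_congr m 0 F (up F a0 b0 c0 0) a0.val b0.val (n3 - 1) hag a0 b0 (pb n3) le_rfl le_rfl
        hb (by omega) (by omega)]
    rw [vt_r3, r3, if_pos rfl] at he
    generalize vt m 0 F a0 b0 (po n3) = X at he ⊢
    generalize vt m 0 F a0 b0 (pb n3) = Y at he ⊢
    intro h0
    have h1 : 3 * Y + 4 * X = 0 := by exact_mod_cast h0
    have h2 : (4 * Y - 3 * X) / 5 = -(5 / 3 * X) := by linarith
    rw [h2, abs_neg, abs_mul, abs_of_pos (by norm_num : (0 : ℝ) < 5 / 3)] at he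
    linarith) (by
    intro u v w α β γ hu hv hw ht
    rw [Set.mem_ofPred_eq]
    rw [mk_erase rfl, mk_erase rfl, mk_erase rfl] at ht
    rcases ht with ht | ht | ht | ht
    · exact hsm (Nat.le_succ _) (Nat.le_succ _) le_rfl (Or.inl (Nat.lt_succ_self _)) (by omega)
        u v w α β γ hu hv hw ht
    · exact hsm (Nat.le_succ _) le_rfl (Nat.le_succ _) (Or.inl (Nat.lt_succ_self _)) (by omega)
        u v w α β γ hu hv hw ht
    · exact hsm le_rfl (Nat.le_succ _) (Nat.le_succ _) (Or.inr (Or.inl (Nat.lt_succ_self _)))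
        (by omega) u v w α β γ hu hv hw ht
    · exact hsm (Nat.le_succ _) (Nat.le_succ _) (Nat.le_succ _) (Or.inl (Nat.lt_succ_self _))
        (by omega) u v w α β γ hu hv hw ht)
  refine ⟨L0, fun L hL0 ia ib ic u v w α β γ ht n1' n2' n3' h0 => ?_⟩
  have hh := hL L hL0 ia ib ic u v w α β γ ht n1' n2' n3'
  rw [Set.mem_ofPred_eq] at hh
  apply hh
  have hpb : pb n3 ≠ c0 := by
    intro he
    have he' := congrArg Fin.val he
    omega
  have hpo : po n3 ≠ c0 := by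
    intro he
    have he' := congrArg Fin.val he
    omega
  have e1 := ht.e3 (pb n3) (mem_mk.2 ⟨by omega, by omega⟩)
  have e2 := ht.e3 (po n3) (mem_mk.2 ⟨by omega, by omega⟩)
  rw [c3_ad, if_neg hpb, add_zero] at e1
  rw [c3_ad, if_neg hpo, add_zero] at e2
  rw [e1, e2]
  linear_combination γ * h0

/-- The case of the corner `pb n3`. -/
private theorem StZ_b (h3 : 1 ≤ n3) (F : FT n1 n2 n3) (a0 : Fin n1) (b0 : Fin (n2 + 1))
    (hG : ∀ a' b' c', a0 ≤ a' → b0 ≤ b' → pb n3 ≤ c' →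
      (a', b', c') ≠ (a0, b0, pb n3) → Gd F a' b' c') {m : ℕ} (hm : m ≤ 2)
    (hb : b0.val < n2 + 1 - m) {s : ℝ} (hs : s = 1 ∨ s = -1) :
    ∃ L0 : ℝ, ∀ L ≥ L0, ∀ ia ib ic u v w α β γ,
      Tup (ad (vt m 0 (up F a0 b0 (pb n3) 0)) a0 b0 (pb n3) (s * L)) (mk n1 a0.val n1)
        (mk (n2 + 1) b0.val (n2 + 1 - m)) (mk (n3 + 1) (pb n3).val (n3 + 1)) u v w α β γ →
      Nrm u ia → Nrm v ib → Nrm w ic → 3 * w (pb n3) + 4 * w (po n3) ≠ 0 := by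
  have hSA : a0 ∈ mk n1 a0.val n1 := mem_mk.2 ⟨le_rfl, a0.isLt⟩
  have hSB : b0 ∈ mk (n2 + 1) b0.val (n2 + 1 - m) := mem_mk.2 ⟨le_rfl, hb⟩
  have hSC : pb n3 ∈ mk (n3 + 1) (pb n3).val (n3 + 1) := mem_mk.2 ⟨le_rfl, (pb n3).isLt⟩
  have hw3 : ∀ (c : Fin (n3 + 1)), Continuous
      fun z : (Fin n1 → ℂ) × (Fin (n2 + 1) → ℂ) × (Fin (n3 + 1) → ℂ) => z.2.2 c := by
    intro c
    exact (continuous_apply c).comp (continuous_snd.comp continuous_snd)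
  have hK : IsClosed {z : (Fin n1 → ℂ) × (Fin (n2 + 1) → ℂ) × (Fin (n3 + 1) → ℂ) |
      3 * z.2.2 (pb n3) + 4 * z.2.2 (po n3) = 0} :=
    isClosed_eq ((continuous_const.mul (hw3 _)).add (continuous_const.mul (hw3 _)))
      continuous_const
  obtain ⟨L0, hL⟩ := bcp (T := vt m 0 (up F a0 b0 (pb n3) 0)) hs hSA hSB hSC _ hK (by
    rw [Set.mem_ofPred_eq]
    show ¬ (3 * (Pi.single (pb n3) 1 : Fin (n3 + 1) → ℂ) (pb n3) +
      4 * (Pi.single (pb n3) 1 : Fin (n3 + 1) → ℂ) (po n3) = 0)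
    rw [Pi.single_eq_same, Pi.single_eq_of_ne (pb_ne_po h3).symm]
    norm_num) (by
    intro u v w α β γ hu hv hw ht
    rw [Set.mem_ofPred_eq]
    rw [mk_erase rfl, mk_erase rfl, mk_erase rfl] at ht
    rcases ht with ht | ht | ht | ht
    · exact StZ_up h3 hG 0 (Nat.le_succ _) (Nat.le_succ _) le_rfl (Or.inl (Nat.lt_succ_self _))
        m hm u v w α β γ ht hu hv hw
    · exact StZ_up h3 hG 0 (Nat.le_succ _) le_rfl (Nat.le_succ _) (Or.inl (Nat.lt_succ_self _))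
        m hm u v w α β γ ht hu hv hw
    · exact StZ_up h3 hG 0 le_rfl (Nat.le_succ _) (Nat.le_succ _)
        (Or.inr (Or.inl (Nat.lt_succ_self _))) m hm u v w α β γ ht hu hv hw
    · exact StZ_up h3 hG 0 (Nat.le_succ _) (Nat.le_succ _) (Nat.le_succ _)
        (Or.inl (Nat.lt_succ_self _)) m hm u v w α β γ ht hu hv hw)
  refine ⟨L0, fun L hL0 ia ib ic u v w α β γ ht n1' n2' n3' => ?_⟩
  have hh := hL L hL0 ia ib ic u v w α β γ ht n1' n2' n3'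
  rw [Set.mem_ofPred_eq] at hh
  exact hh

/-- The step for `ZW`.

Proof. Fix `m ≤ 2`. If `b0.val ≥ n2 + 1 - m` the mask is empty. Otherwise let
`F0 = up F a0 b0 c0 0`, `F_x = up F a0 b0 c0 (sg * x)`, `T = vt m 0 F0`; the masks are
`SA = mk n1 p n1`, `SB = mk (n2 + 1) q (n2 + 1 - m)`, `SC = mk (n3 + 1) r (n3 + 1)`; in the masks
`vt m 0 F_x = ad T a0 b0 c0 (sg * (κ * x))` (`vt_up`).

Case `c0 = pb n3`: `bcp` for `K = {3 * w (pb n3) + 4 * w (po n3) = 0}`, closed. `hM`: `3 ≠ 0`.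
`hL`: for the first smaller mask `ZW F` at `(p+1, q+1, r)` (`hG`, or `ZW_triv`); for the other three
masks `w` is supported in `SC.erase (pb n3) = {po n3}`, so the expression is `4 * w (po n3) ≠ 0`.

Case `c0 < pb n3`: the slices `pb n3` and `po n3` of `vt m 0 F_x` do not depend on `x`
(`vt_up_slice`). `bcp` for `K = {3 * c3 T u v (pb n3) + 4 * c3 T u v (po n3) = 0}`, closed. `hM`:
let
`X = vt m 0 F a0 b0 (po n3)`, `Y = vt m 0 F a0 b0 (pb n3)`; `(hG a0 b0 (pb n3)).e3` says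
`5 |X| < 3 |(4 Y - 3 X) / 5|` (`vt_r3`), which excludes `3 Y + 4 X = 0`. `hL`: for a tuple of a
smaller
mask with multiplier `γ`, the expression is `γ * (3 * w (pb n3) + 4 * w (po n3))` (both indices
are in the masks, as `r + 1 ≤ pb n3`), `γ ≠ 0` by `Ok.hγ` (`FR` from `Gd.gt` with mode `m' = 0`, or
`GT_triv`), and the factor is not zero by `ZW F` at the smaller corner (`hG`, `ZW_triv`).
Conclusion:
for the tuples of `vt m 0 F_x`, `γ * (3 * w (pb n3) + 4 * w (po n3)) ≠ 0` for normalised tuples, and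
`ZW` is invariant under rescaling (`exists_nrm`, `Tup.smul`). -/
theorem st_zw (h2 : 1 ≤ n2) (h3 : 1 ≤ n3) (F : FT n1 n2 n3) (a0 : Fin n1) (b0 : Fin (n2 + 1))
    (c0 : Fin (n3 + 1)) (hc : c0.val < n3)
    (hG : ∀ a' b' c', a0 ≤ a' → b0 ≤ b' → c0 ≤ c' →
      (a', b', c') ≠ (a0, b0, c0) → Gd F a' b' c') :
    ∃ X0 : ℝ, ∀ x ≥ X0, ZW (up F a0 b0 c0 (sg a0.val b0.val c0.val * x))
      a0.val b0.val c0.val := by
  refine StZ_fin fun m hm => ?_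
  by_cases hb : b0.val < n2 + 1 - m
  · have hs := sg_cases a0.val b0.val c0.val
    obtain ⟨κ, hκ, hvt⟩ := vt_up h2 h3 m 0 F a0 b0 c0 hb c0.isLt
    obtain ⟨L0, hL⟩ : ∃ L0 : ℝ, ∀ L ≥ L0, ∀ ia ib ic u v w α β γ,
        Tup (ad (vt m 0 (up F a0 b0 c0 0)) a0 b0 c0 (sg a0.val b0.val c0.val * L))
          (mk n1 a0.val n1) (mk (n2 + 1) b0.val (n2 + 1 - m)) (mk (n3 + 1) c0.val (n3 + 1))
          u v w α β γ →
        Nrm u ia → Nrm v ib → Nrm w ic → 3 * w (pb n3) + 4 * w (po n3) ≠ 0 := by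
      by_cases hcp : c0.val < n3 - 1
      · exact StZ_a h3 F a0 b0 c0 hG hm hb hcp hs
      · have hce : c0 = pb n3 := by
          apply Fin.ext
          show c0.val = n3 - 1
          omega
        subst hce
        exact StZ_b h3 F a0 b0 hG hm hb hs
    refine ⟨L0 / κ, fun x hx u v w α β γ ht hu hv hw => ?_⟩
    have hx' : κ * x ≥ L0 := by
      rw [ge_iff_le, div_le_iff₀ hκ] at hx
      linarith
    have ht1 : Tup (ad (vt m 0 (up F a0 b0 c0 0)) a0 b0 c0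
        (sg a0.val b0.val c0.val * (κ * x))) (mk n1 a0.val n1)
        (mk (n2 + 1) b0.val (n2 + 1 - m)) (mk (n3 + 1) c0.val (n3 + 1)) u v w α β γ := by
      refine (Tup.congr fun a ha b hb' c hc' => ?_).1 ht
      rw [mem_mk] at ha hb' hc'
      rw [hvt _ a b c hb'.2 (by omega), mul_left_comm]
    obtain ⟨r, ia, hr, n1'⟩ := exists_nrm hu
    obtain ⟨t, ib, ht', n2'⟩ := exists_nrm hv
    obtain ⟨y, ic, hy, n3'⟩ := exists_nrm hw
    have hh := hL (κ * x) hx' ia ib ic _ _ _ _ _ _ (ht1.smul hr ht' hy) n1' n2' n3'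
    intro h0
    apply hh
    rw [Pi.smul_apply, Pi.smul_apply, smul_eq_mul, smul_eq_mul]
    linear_combination y * h0
  · refine ⟨0, fun x _ u v w α β γ ht hu hv hw => ?_⟩
    exfalso
    apply hv
    funext b
    refine ht.sv b ?_
    rw [mk_empty (Or.inr (by omega))]
    exact Finset.notMem_empty b

end Pool.Agent.MPb0eR
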