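import Mathlib
import Pool.Agent.Lib.MP_b0e20b_ag_R.FDefs
import Pool.Agent.Lib.MP_b0e20b_ag_R.Sel
import Pool.Agent.Lib.MP_b0e20b_ag_R.StT
import Pool.Agent.Lib.MP_b0e20b_ag_R.StP
import Pool.Agent.Lib.MP_b0e20b_ag_R.StZ
import Pool.Agent.Lib.MP_b0e20b_ag_R.StV

/-!
# MP_b0e20b_ag, project R: existence of the first order tensor
-/

set_option autoImplicit false

open scoped BigOperators Topology
open Filter

namespace Pool.Agent.MPb0eR

variable {n1 n2 n3 : ℕ}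

/-- Finitely many modes: a common bound. -/
private theorem FOX_fin {P : ℕ → ℝ → Prop} (h : ∀ m ≤ 2, ∀ᶠ x in (atTop : Filter ℝ), P m x) :
    ∀ᶠ x in (atTop : Filter ℝ), ∀ m ≤ 2, P m x := by
  have h0 := h 0 (by norm_num)
  have h1 := h 1 (by norm_num)
  have h2 := h 2 le_rfl
  filter_upwards [h0, h1, h2] with x e0 e1 e2 m hm
  interval_cases m
  · exact e0
  · exact e1
  · exact e2

private theorem FOX_ev {P : ℝ → Prop} (h : ∃ X0 : ℝ, ∀ x ≥ X0, P x) :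
    ∀ᶠ x in (atTop : Filter ℝ), P x := eventually_atTop.2 h

/-- The step for `Gd`: the maximum of the bounds of `st_gt` (nine modes), `st_e` (if
`c0 = pb n3`), `st_pw`, `st_zw` (if `c0.val < n3`), `st_vg` for `F`, and of `st_e`, `st_pw`, `st_zw`
for `s23 F` at `(a0, c0, b0)` (`up_s23`, `sg_swap`, `Gd_s23`). -/
theorem st_gd (h2 : 1 ≤ n2) (h3 : 1 ≤ n3) (F : FT n1 n2 n3) (a0 : Fin n1) (b0 : Fin (n2 + 1))
    (c0 : Fin (n3 + 1)) (hG : ∀ a' b' c', a0 ≤ a' → b0 ≤ b' → c0 ≤ c' →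
      (a', b', c') ≠ (a0, b0, c0) → Gd F a' b' c') :
    ∃ X0 : ℝ, ∀ x ≥ X0, Gd (up F a0 b0 c0 (sg a0.val b0.val c0.val * x)) a0 b0 c0 := by
  have hG' : ∀ a' c' b', a0 ≤ a' → c0 ≤ c' → b0 ≤ b' → (a', c', b') ≠ (a0, c0, b0) →
      Gd (s23 F) a' c' b' := by
    intro a' c' b' ha hc hb hne
    refine Gd_s23 (hG a' b' c' ha hb hc ?_)
    intro he
    apply hne
    simp only [Prod.mk.injEq] at he ⊢
    exact ⟨he.1, he.2.2, he.2.1⟩
  have hup : ∀ x : ℝ, s23 (up F a0 b0 c0 (sg a0.val b0.val c0.val * x)) =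
      up (s23 F) a0 c0 b0 (sg a0.val c0.val b0.val * x) := by
    intro x
    rw [up_s23, sg_swap]
  have e1 := FOX_fin fun m hm => FOX_fin fun m' hm' =>
    FOX_ev (st_gt h2 h3 F a0 b0 c0 hG m m' hm hm')
  have e2 : ∀ᶠ x in (atTop : Filter ℝ), c0 = pb n3 →
      Ee (up F a0 b0 c0 (sg a0.val b0.val c0.val * x)) a0 b0 := by
    by_cases hc : c0 = pb n3
    · subst hc
      filter_upwards [FOX_ev (st_e h2 h3 F a0 b0)] with x hx _
      exact hx
    · exact Eventually.of_forall fun x h => absurd h hc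
  have e3 : ∀ᶠ x in (atTop : Filter ℝ), b0 = pb n2 →
      Ee (s23 (up F a0 b0 c0 (sg a0.val b0.val c0.val * x))) a0 c0 := by
    by_cases hb : b0 = pb n2
    · subst hb
      filter_upwards [FOX_ev (st_e h3 h2 (s23 F) a0 c0)] with x hx _
      rw [hup]
      exact hx
    · exact Eventually.of_forall fun x h => absurd h hb
  have e4 := FOX_ev (st_pw h2 h3 F a0 b0 c0 hG)
  have e5 := FOX_ev (st_pw h3 h2 (s23 F) a0 c0 b0 hG')
  have e6 : ∀ᶠ x in (atTop : Filter ℝ), c0.val < n3 →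
      ZW (up F a0 b0 c0 (sg a0.val b0.val c0.val * x)) a0.val b0.val c0.val := by
    by_cases hc : c0.val < n3
    · filter_upwards [FOX_ev (st_zw h2 h3 F a0 b0 c0 hc hG)] with x hx _
      exact hx
    · exact Eventually.of_forall fun x h => absurd h hc
  have e7 : ∀ᶠ x in (atTop : Filter ℝ), b0.val < n2 →
      ZW (s23 (up F a0 b0 c0 (sg a0.val b0.val c0.val * x))) a0.val c0.val b0.val := by
    by_cases hb : b0.val < n2
    · filter_upwards [FOX_ev (st_zw h3 h2 (s23 F) a0 c0 b0 hb hG')] with x hx _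
      rw [hup]
      exact hx
    · exact Eventually.of_forall fun x h => absurd h hb
  have e8 := FOX_ev (st_vg h2 h3 F a0 b0 c0 hG)
  refine eventually_atTop.1 ?_
  filter_upwards [e1, e2, e3, e4, e5, e6, e7, e8] with x f1 f2 f3 f4 f5 f6 f7 f8
  exact ⟨f1, f2, f3, f4, by rw [hup]; exact f5, f6, f7, f8⟩

/-- Proof: `sel`, `Gd_loc`, `st_gd`. -/
theorem exists_gd (h2 : 1 ≤ n2) (h3 : 1 ≤ n3) : ∃ F : FT n1 n2 n3, ∀ a b c, Gd F a b c := by
  exact sel (fun F a b c => Gd F a b c) (Gd_loc h2 h3) (st_gd h2 h3)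

/-- From dominance for the unrotated slice to the ratio of the rotated slices: if `x, y : ℂ` have a
real ratio, `5 ‖(4 x - 3 y) / 5‖ < 3 ‖y‖`, then `y ≠ 0` and `x = ρ y` with `ρ > 0`. (Here `y` is the
contraction with the rotated slice `pb`, `x` with the rotated slice `po`, and `(4 x - 3 y) / 5` with
the unrotated slice `po`.) Proof: `x = ρ y`, `|4 ρ - 3| < 3`. -/
theorem ratio_pos {x y : ℂ} (h : 5 * ‖(4 * x - 3 * y) / 5‖ < 3 * ‖y‖)
    (hr : ∃ r : ℂ, r ≠ 0 ∧ (r * x).im = 0 ∧ (r * y).im = 0) :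
    y ≠ 0 ∧ ∃ ρ : ℝ, 0 < ρ ∧ x = ρ * y := by
  have hy : y ≠ 0 := by
    rintro rfl
    rw [norm_zero] at h
    have h0 : 0 ≤ 5 * ‖(4 * x - 3 * (0 : ℂ)) / 5‖ := by positivity
    linarith
  obtain ⟨r, hr0, hx, hy'⟩ := hr
  refine ⟨hy, (r * x).re / (r * y).re, ?_, ?_⟩
  all_goals
    have e1 : r * x = ((r * x).re : ℂ) := Complex.ext (by simp) (by simpa using hx)
    have e2 : r * y = ((r * y).re : ℂ) := Complex.ext (by simp) (by simpa using hy')
    have e3 : ((r * y).re : ℂ) ≠ 0 := by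
      rw [← e2]
      exact mul_ne_zero hr0 hy
    have e4 : x = (((r * x).re / (r * y).re : ℝ) : ℂ) * y := by
      refine mul_left_cancel₀ hr0 ?_
      calc r * x = ((r * x).re : ℂ) := e1
        _ = ((r * x).re : ℂ) / ((r * y).re : ℂ) * ((r * y).re : ℂ) := by
          rw [div_mul_cancel₀ _ e3]
        _ = ((r * x).re : ℂ) / ((r * y).re : ℂ) * (r * y) := by rw [← e2]
        _ = r * ((((r * x).re / (r * y).re : ℝ) : ℂ) * y) := by
          push_cast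
          ring
  · have e5 : (4 * x - 3 * y) / 5 =
        (((4 * ((r * x).re / (r * y).re) - 3) / 5 : ℝ) : ℂ) * y := by
      nth_rewrite 1 [e4]
      push_cast
      ring
    rw [e5, norm_mul, Complex.norm_real, Real.norm_eq_abs] at h
    have h6 : 0 < ‖y‖ := norm_pos_iff.2 hy
    have h7 : |(4 * ((r * x).re / (r * y).re) - 3) / 5| < 3 / 5 := by
      refine lt_of_mul_lt_mul_right ?_ h6.le
      linarith
    have h8 := (abs_lt.1 h7).1
    linarith
  · exact e4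

/-! ### The masks -/

private theorem FOX_mk0 (n : ℕ) : mk (n + 1) 0 (n + 1 - 0) = Finset.univ := mk_zero le_rfl

private theorem FOX_mk1 (n : ℕ) : mk (n + 1) 0 (n + 1 - 1) = Finset.univ.erase (po n) := by
  ext j
  have hj := j.isLt
  rw [mem_mk, Finset.mem_erase, Ne, Fin.ext_iff]
  simp only [po, Finset.mem_univ, and_true]
  omega

private theorem FOX_mk2 {n : ℕ} (h : 1 ≤ n) :
    mk (n + 1) 0 (n + 1 - 2) = (Finset.univ.erase (po n)).erase (pb n) := by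
  ext j
  have hj := j.isLt
  rw [mem_mk, Finset.mem_erase, Finset.mem_erase, Ne, Ne, Fin.ext_iff, Fin.ext_iff]
  simp only [po, pb, Finset.mem_univ, and_true]
  omega

/-- The modes of the masks of the second factor. -/
private theorem FOX_MB (n : ℕ) (x : Bool) :
    ∃ m ≤ 2, MB (po n) x = mk (n + 1) 0 (n + 1 - m) := by
  cases x
  · exact ⟨0, by norm_num, by rw [FOX_mk0]; rfl⟩
  · exact ⟨1, by norm_num, by rw [FOX_mk1]; rfl⟩

/-- The modes of the masks of the last factor. -/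
private theorem FOX_MC {n : ℕ} (h : 1 ≤ n) (y : Fin 3) :
    ∃ m ≤ 2, MC (pb n) (po n) y = mk (n + 1) 0 (n + 1 - m) ∧ (y ≠ 0 → 1 ≤ m) := by
  by_cases h0 : y = 0
  · refine ⟨0, by norm_num, ?_, fun h' => absurd h0 h'⟩
    rw [FOX_mk0, MC, if_pos h0]
  · by_cases h1 : y = 1
    · refine ⟨1, by norm_num, ?_, fun _ => le_rfl⟩
      rw [FOX_mk1, MC, if_neg h0, if_pos h1]
    · refine ⟨2, le_rfl, ?_, fun _ => by norm_num⟩
      rw [FOX_mk2 h, MC, if_neg h0, if_neg h1]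

/-! ### The modes -/

private theorem FOX_vt_r2 (m : ℕ) (F : FT n1 n2 n3) :
    vt 1 m F = r2 (vt 0 m F) (pb n2) (po n2) := by
  have h1 : s23 (vt 1 m F) = r3 (s23 (vt 0 m F)) (pb n2) (po n2) := by
    rw [← vt_s23, ← vt_s23, vt_r3]
  have h2 : vt 1 m F = s23 (s23 (vt 1 m F)) := rfl
  rw [h2, h1]
  rfl

/-- The full mask contains the two last indices. -/
private theorem FOX_mem (n : ℕ) (k : Fin (n + 1)) : k ∈ mk (n + 1) 0 (n + 1 - 0) := by
  rw [FOX_mk0]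
  exact Finset.mem_univ k

/-- The last factor: from the mode `1` to the mode `m'` of the mask. -/
private theorem FOX_c (h3 : 1 ≤ n3) {F : FT n1 n2 n3} {m m' : ℕ} {SA : Finset (Fin n1)}
    {SB : Finset (Fin (n2 + 1))} {u : Fin n1 → ℂ} {v : Fin (n2 + 1) → ℂ}
    {w : Fin (n3 + 1) → ℂ} {α β γ : ℂ}
    (h : Tup (vt m 1 F) SA SB (mk (n3 + 1) 0 (n3 + 1 - m')) u v w α β γ) (hw : w ≠ 0) :
    ∃ w', w' ≠ 0 ∧ Tup (vt m m' F) SA SB (mk (n3 + 1) 0 (n3 + 1 - m')) u v w' α β γ ∧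
      (m' = 0 → w = rv (pb n3) (po n3) w') ∧ c2 (vt m 1 F) u w = c2 (vt m m' F) u w' := by
  have hne := pb_ne_po h3
  by_cases hm : m' = 0
  · subst hm
    have e : w = rv (pb n3) (po n3) (rv (po n3) (pb n3) w) := (rv_rv hne.symm w).symm
    have h' := h
    rw [e, vt_r3, Tup_r3 hne (FOX_mem _ _) (FOX_mem _ _)] at h'
    refine ⟨rv (po n3) (pb n3) w, ?_, h', fun _ => e, ?_⟩
    · intro h0
      rw [h0] at e
      apply hw
      rw [e]
      funext k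
      simp [rv]
    · funext b
      conv_lhs => rw [e, vt_r3]
      exact r3_c2 hne _ _ _
  · have h1 : 1 ≤ m' := Nat.one_le_iff_ne_zero.2 hm
    refine ⟨w, hw, ?_, fun h0 => absurd h0 hm, ?_⟩
    · rw [vt_mode m m' h1]
      exact h
    · rw [vt_mode m m' h1]

/-- The second factor: from the mode `1` to the mode `m` of the mask. -/
private theorem FOX_b (h2 : 1 ≤ n2) {F : FT n1 n2 n3} {m m' : ℕ} {SA : Finset (Fin n1)}
    {SC : Finset (Fin (n3 + 1))} {u : Fin n1 → ℂ} {v : Fin (n2 + 1) → ℂ}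
    {w : Fin (n3 + 1) → ℂ} {α β γ : ℂ}
    (h : Tup (vt 1 m' F) SA (mk (n2 + 1) 0 (n2 + 1 - m)) SC u v w α β γ) (hv : v ≠ 0) :
    ∃ v', v' ≠ 0 ∧ Tup (vt m m' F) SA (mk (n2 + 1) 0 (n2 + 1 - m)) SC u v' w α β γ ∧
      (m = 0 → v = rv (pb n2) (po n2) v') ∧ c3 (vt 1 m' F) u v = c3 (vt m m' F) u v' := by
  have h' : Tup (vt m' 1 (s23 F)) SA SC (mk (n2 + 1) 0 (n2 + 1 - m)) u w v α γ β := by
    rw [vt_s23]
    exact Tup_s23.2 h
  obtain ⟨v', e1, e2, e3, e4⟩ := FOX_c h2 h' hv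
  rw [vt_s23] at e2
  rw [vt_s23, vt_s23] at e4
  exact ⟨v', e1, Tup_s23.1 e2, e3, e4⟩

/-- Both factors are fully real. -/
private theorem FOX_fr (h2 : 1 ≤ n2) (h3 : 1 ≤ n3) {F : FT n1 n2 n3} {a0 : Fin n1}
    (ha : a0.val = 0) (hF : Gd F a0 0 0) {m m' : ℕ} (hm : m ≤ 2) (hm' : m' ≤ 2) :
    FR (vt 1 1 F) (mk n1 0 n1) (mk (n2 + 1) 0 (n2 + 1 - m)) (mk (n3 + 1) 0 (n3 + 1 - m')) := by
  have h0 := (hF.gt m hm m' hm').fr
  rw [ha] at h0
  have h1 : FR (vt 1 m' F) (mk n1 0 n1) (mk (n2 + 1) 0 (n2 + 1 - m))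
      (mk (n3 + 1) 0 (n3 + 1 - m')) := by
    by_cases q : m = 0
    · subst q
      rw [FOX_vt_r2, FR_r2 (pb_ne_po h2) (FOX_mem _ _) (FOX_mem _ _)]
      exact h0
    · rw [← vt_mode' m m' (Nat.one_le_iff_ne_zero.2 q)]
      exact h0
  by_cases q : m' = 0
  · subst q
    rw [vt_r3, FR_r3 (pb_ne_po h3) (FOX_mem _ _) (FOX_mem _ _)]
    exact h1
  · rw [← vt_mode 1 m' (Nat.one_le_iff_ne_zero.2 q)]
    exact h1

/-- Nonvanishing of the coordinate `po n3` for the full last mask. -/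
private theorem FOX_wo (h2 : 1 ≤ n2) (h3 : 1 ≤ n3) {F : FT n1 n2 n3} {a0 : Fin n1}
    (ha : a0.val = 0) (hF : Gd F a0 0 0) {m : ℕ} (hm : m ≤ 2) {u : Fin n1 → ℂ}
    {v : Fin (n2 + 1) → ℂ} {w : Fin (n3 + 1) → ℂ} {α β γ : ℂ}
    (h : Tup (vt 1 1 F) (mk n1 0 n1) (mk (n2 + 1) 0 (n2 + 1 - m)) (mk (n3 + 1) 0 (n3 + 1 - 0))
      u v w α β γ) (hu : u ≠ 0) (hv : v ≠ 0) (hw : w ≠ 0) : w (po n3) ≠ 0 := by
  obtain ⟨w', hw', h1, e1, -⟩ := FOX_c h3 h hw
  obtain ⟨v', hv', h4, -, -⟩ := FOX_b h2 h1 hv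
  have h5 := hF.z3 (by rw [Fin.val_zero]; exact h3) m hm u v' w' α β γ
  rw [ha] at h5
  have h6 := h5 h4 hu hv' hw'
  rw [e1 rfl]
  have h7 : rv (pb n3) (po n3) w' (po n3) = (3 * w' (pb n3) + 4 * w' (po n3)) / 5 := by
    simp [rv, (pb_ne_po h3).symm]
  rw [h7]
  exact div_ne_zero h6 (by norm_num)

/-- Real ratios of the contractions. -/
private theorem FOX_re {T : FT n1 n2 n3} {u : Fin n1 → ℂ} {v : Fin (n2 + 1) → ℂ} (hu : Rl u)
    (hv : Rl v) : ∃ r : ℂ, r ≠ 0 ∧ ∀ c, (r * c3 T u v c).im = 0 := by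
  obtain ⟨r, hr, h1⟩ := hu
  obtain ⟨s, hs, h2⟩ := hv
  refine ⟨r * s, mul_ne_zero hr hs, fun c => ?_⟩
  have h3 : r * s * c3 T u v c = c3 T (r • u) (s • v) c := by
    rw [c3_smul_left, c3_smul_right, mul_assoc]
  rw [h3]
  exact c3_re _ _ _ h1 h2 _

/-- Domination of the slice `po n3` by the slice `pb n3`. -/
private theorem FOX_dc (h2 : 1 ≤ n2) (h3 : 1 ≤ n3) {F : FT n1 n2 n3} {a0 : Fin n1}
    (ha : a0.val = 0) (hF : Gd F a0 0 0) {m m' : ℕ} (hm : m ≤ 2) (hm' : m' ≤ 2) (h1 : 1 ≤ m')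
    {u : Fin n1 → ℂ} {v : Fin (n2 + 1) → ℂ} {w : Fin (n3 + 1) → ℂ} {α β γ : ℂ}
    (h : Tup (vt 1 1 F) (mk n1 0 n1) (mk (n2 + 1) 0 (n2 + 1 - m)) (mk (n3 + 1) 0 (n3 + 1 - m'))
      u v w α β γ) (hu : u ≠ 0) (hv : v ≠ 0) (hw : w ≠ 0) :
    c3 (vt 1 1 F) u v (pb n3) ≠ 0 ∧
      ∃ ρ : ℝ, 0 < ρ ∧ c3 (vt 1 1 F) u v (po n3) = ρ * c3 (vt 1 1 F) u v (pb n3) := by
  have hok := FOX_fr h2 h3 ha hF hm hm' u v w α β γ h hu hv hw
  obtain ⟨r, hr, hre⟩ := FOX_re (T := vt 1 1 F) hok.ru hok.rv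
  obtain ⟨v', hv', h4, -, e4⟩ := FOX_b h2 h hv
  have h5 := hF.p3 m hm m' hm' h1 u v' w α β γ
  rw [ha] at h5
  have h6 := h5 h4 hu hv' hw
  have h7 : c3 (vt m 0 F) u v' (po n3) =
      (4 * c3 (vt 1 1 F) u v (po n3) - 3 * c3 (vt 1 1 F) u v (pb n3)) / 5 := by
    have e5 : c3 (vt m 1 F) u v' = rv (pb n3) (po n3) (c3 (vt m 0 F) u v') := by
      rw [vt_r3, r3_c3]
    rw [e4, e5]
    have e6 : rv (pb n3) (po n3) (c3 (vt m 0 F) u v') (pb n3) =
        (4 * c3 (vt m 0 F) u v' (pb n3) - 3 * c3 (vt m 0 F) u v' (po n3)) / 5 := by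
      simp [rv]
    have e7 : rv (pb n3) (po n3) (c3 (vt m 0 F) u v') (po n3) =
        (3 * c3 (vt m 0 F) u v' (pb n3) + 4 * c3 (vt m 0 F) u v' (po n3)) / 5 := by
      simp [rv, (pb_ne_po h3).symm]
    rw [e6, e7]
    ring
  rw [h7, ← e4] at h6
  exact ratio_pos h6 ⟨r, hr, hre _, hre _⟩

/-- The first order tensor.

Proof. Let `F` be as in `exists_gd` and `T = vt 1 1 F = r3 (r2 F)`. With the corner `(0, 0, 0)`
(`n1 ≥ 1`), the masks of the modes `0, 1, 2` are everything, everything without `po`, everything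
without `po` and `pb` (`MB`, `MC`; `mk_zero`). For the masks without rotation: `T = r2 (vt 0 1 F)`
(`r2_r3`), so the tuples of `T` with the full mask in the second factor are the tuples of `vt 0 1 F`
with the second vector rotated (`Tup_r2`, `rv_rv`), similarly for the last factor (`Tup_r3`), and
`vt 1 m' F = vt 1 1 F` for `m' ≥ 1` (`vt_mode`).
`fr`: `Gd.gt` and `FR_r2`, `FR_r3`. `vo`: `z2` (`ZW (s23 F)`), in the mode `0` of the second
factor: the rotated coordinate is `(3 v pb + 4 v po) / 5`. `wo`: `z3`. `db`: `p2` and `ratio_pos`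
(contractions of real vectors up to factors, `FR`), `dc`: `p3` and `ratio_pos`; `vt_r3`, `r3_c3`.
`vr`, `vz`: if `n1 = n2 + n3` this is `vg` with `VR_r2`, `VR_r3`; if `n1 > n2 + n3` then `vempty`
for `vt 0 0 F` (`n2 + 1 + n3 + 1 ≤ n1 + 1`) and `VE_r2`, `VE_r3`, `VE.vr`. `ve`: `vempty` for the
mask without `po n2` (`n2 + n3 + 1 ≤ n1 + 1`). -/
theorem FOX (h1 : n2 + n3 ≤ n1) (h2 : 1 ≤ n2) (h3 : 1 ≤ n3) :
    ∃ T : FT n1 n2 n3, FO T (pb n2) (po n2) (pb n3) (po n3) := by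
  obtain ⟨F, hF⟩ := exists_gd (n1 := n1) h2 h3
  have hn1 : 0 < n1 := by omega
  obtain ⟨a0, ha⟩ : ∃ a0 : Fin n1, a0.val = 0 := ⟨⟨0, hn1⟩, rfl⟩
  have hg := hF a0 0 0
  have hg' : Gd (s23 F) a0 0 0 := Gd_s23 hg
  have hA : mk n1 0 n1 = Finset.univ := mk_zero le_rfl
  have hB : mk (n2 + 1) 0 (n2 + 1 - 0) = Finset.univ := FOX_mk0 n2
  have hC : mk (n3 + 1) 0 (n3 + 1 - 0) = Finset.univ := FOX_mk0 n3
  have hs : vt 1 1 (s23 F) = s23 (vt 1 1 F) := vt_s23 1 1 F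
  have fr : ∀ m m', m ≤ 2 → m' ≤ 2 → FR (vt 1 1 F) Finset.univ (mk (n2 + 1) 0 (n2 + 1 - m))
      (mk (n3 + 1) 0 (n3 + 1 - m')) := by
    intro m m' hm hm'
    have h := FOX_fr h2 h3 ha hg hm hm'
    rwa [hA] at h
  have frF : FR F Finset.univ Finset.univ Finset.univ := by
    have h := (hg.gt 0 (by norm_num) 0 (by norm_num)).fr
    rw [ha] at h
    have h' : FR (vt 0 0 F) (mk n1 0 n1) (mk (n2 + 1) 0 (n2 + 1 - 0))
        (mk (n3 + 1) 0 (n3 + 1 - 0)) := h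
    rw [hA, hB, hC] at h'
    exact h'
  have hVE : n2 + n3 < n1 → VE (vt 1 1 F) Finset.univ Finset.univ Finset.univ := by
    intro hlt
    have h := fr 0 0 (by norm_num) (by norm_num)
    rw [hB, hC] at h
    refine vempty h ?_
    rw [Finset.card_univ, Finset.card_univ, Finset.card_univ, Fintype.card_fin,
      Fintype.card_fin, Fintype.card_fin]
    omega
  have hT : vt 1 1 F = r3 (r2 F (pb n2) (po n2)) (pb n3) (po n3) := rfl
  have hVG : n1 = n2 + n3 → VR F Finset.univ Finset.univ Finset.univ ∧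
      ∀ v w, (∀ a, c1 F v w a = 0) → v ≠ 0 → w ≠ 0 →
      3 * v (pb n2) + 4 * v (po n2) ≠ 0 ∧ 3 * w (pb n3) + 4 * w (po n3) ≠ 0 := by
    intro he
    have h := hg.vg
    rw [ha] at h
    obtain ⟨e1, e2⟩ := h (by simp; omega)
    have hB' : mk (n2 + 1) 0 (n2 + 1) = Finset.univ := hB
    have hC' : mk (n3 + 1) 0 (n3 + 1) = Finset.univ := hC
    simp only [Fin.val_zero, hA, hB', hC'] at e1 e2
    refine ⟨e1, fun v w hz hv hw => ?_⟩
    exact e2 v w (fun b hb => absurd (Finset.mem_univ b) hb)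
      (fun c hc => absurd (Finset.mem_univ c) hc) (fun a _ => hz a) hv hw
  refine ⟨vt 1 1 F, ⟨pb_ne_po h2, pb_ne_po h3, ?_, ?_, ?_, ?_, ?_, ?_, ?_, ?_⟩⟩
  · intro x y
    obtain ⟨m, hm, e⟩ := FOX_MB n2 x
    obtain ⟨m', hm', e', -⟩ := FOX_MC h3 y
    rw [e, e']
    exact fr m m' hm hm'
  · intro y u v w α β γ ht hu hv hw
    obtain ⟨m', hm', e', -⟩ := FOX_MC h3 y
    rw [e', ← hA, ← hB] at ht
    have ht' : Tup (vt 1 1 (s23 F)) (mk n1 0 n1) (mk (n3 + 1) 0 (n3 + 1 - m'))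
        (mk (n2 + 1) 0 (n2 + 1 - 0)) u w v α γ β := by
      rw [hs]
      exact Tup_s23.2 ht
    exact FOX_wo h3 h2 ha hg' hm' ht' hu hw hv
  · intro x u v w α β γ ht hu hv hw
    obtain ⟨m, hm, e⟩ := FOX_MB n2 x
    rw [e, ← hA, ← hC] at ht
    exact FOX_wo h2 h3 ha hg hm ht hu hv hw
  · intro y u v w α β γ ht hu hv hw
    obtain ⟨m', hm', e', -⟩ := FOX_MC h3 y
    rw [e', ← hA, ← FOX_mk1] at ht
    have ht' : Tup (vt 1 1 (s23 F)) (mk n1 0 n1) (mk (n3 + 1) 0 (n3 + 1 - m'))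
        (mk (n2 + 1) 0 (n2 + 1 - 1)) u w v α γ β := by
      rw [hs]
      exact Tup_s23.2 ht
    have h := FOX_dc h3 h2 ha hg' hm' (by norm_num) le_rfl ht' hu hw hv
    rw [hs] at h
    exact h
  · intro x y u v w α β γ hy ht hu hv hw
    obtain ⟨m, hm, e⟩ := FOX_MB n2 x
    obtain ⟨m', hm', e', h1'⟩ := FOX_MC h3 y
    rw [e, e', ← hA] at ht
    exact FOX_dc h2 h3 ha hg hm hm' (h1' hy) ht hu hv hw
  · by_cases hlt : n2 + n3 < n1
    · exact (hVE hlt).vr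
    · have he : n1 = n2 + n3 := by omega
      rw [hT, VR_r3 (pb_ne_po h3) (Finset.mem_univ _) (Finset.mem_univ _),
        VR_r2 (pb_ne_po h2) (Finset.mem_univ _) (Finset.mem_univ _)]
      exact (hVG he).1
  · intro v w hv hw hz
    by_cases hlt : n2 + n3 < n1
    · rcases hVE hlt v w (fun b hb => absurd (Finset.mem_univ b) hb)
        (fun c hc => absurd (Finset.mem_univ c) hc) (fun a _ => hz a) with h | h
      · exact absurd h hv
      · exact absurd h hw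
    · have he : n1 = n2 + n3 := by omega
      have ev : v = rv (pb n2) (po n2) (rv (po n2) (pb n2) v) :=
        (rv_rv (pb_ne_po h2).symm v).symm
      have ew : w = rv (pb n3) (po n3) (rv (po n3) (pb n3) w) :=
        (rv_rv (pb_ne_po h3).symm w).symm
      generalize hv' : rv (po n2) (pb n2) v = v' at ev
      generalize hw' : rv (po n3) (pb n3) w = w' at ew
      have nv : v' ≠ 0 := by
        rintro rfl
        apply hv
        rw [ev]
        funext k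
        simp [rv]
      have nw : w' ≠ 0 := by
        rintro rfl
        apply hw
        rw [ew]
        funext k
        simp [rv]
      have hz' : ∀ a, c1 F v' w' a = 0 := by
        intro a
        rw [← hz a, hT, ev, ew, r3_c1 (pb_ne_po h3), r2_c1 (pb_ne_po h2)]
      obtain ⟨k1, k2⟩ := (hVG he).2 v' w' hz' nv nw
      constructor
      · rw [ev]
        have h7 : rv (pb n2) (po n2) v' (po n2) = (3 * v' (pb n2) + 4 * v' (po n2)) / 5 := by
          simp [rv, (pb_ne_po h2).symm]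
        rw [h7]
        exact div_ne_zero k1 (by norm_num)
      · rw [ew]
        have h7 : rv (pb n3) (po n3) w' (po n3) = (3 * w' (pb n3) + 4 * w' (po n3)) / 5 := by
          simp [rv, (pb_ne_po h3).symm]
        rw [h7]
        exact div_ne_zero k2 (by norm_num)
  · have h := fr 1 0 (by norm_num) (by norm_num)
    have h' := vempty h (by
      rw [mk_card (Nat.sub_le _ _), mk_card (Nat.sub_le _ _), Finset.card_univ,
        Fintype.card_fin]
      omega)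
    rw [FOX_mk1, hC] at h'
    exact h'

end Pool.Agent.MPb0eR
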