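import Mathlib
import Pool.Agent.Lib.MP_b0e20b_ag_R.BAlg

/-!
# MP_b0e20b_ag, project R: the possible limits of the second level
-/

set_option autoImplicit false

open scoped BigOperators Topology
open Filter

namespace Pool.Agent.MPb0eR

section

variable {A B C : Type} [Fintype A] [Fintype B] [Fintype C] [DecidableEq A] [DecidableEq B]
  [DecidableEq C] {T : A → B → C → ℝ} {SA : Finset A} {SB : Finset B} {c o : C} {s : ℕ → ℝ}
  {ia : A} {ib : B} {ic : C} {u : ℕ → A → ℂ} {v : ℕ → B → ℂ} {w : ℕ → C → ℂ}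
  {α β γ θ ν : ℕ → ℂ}

private theorem clsB_zero {k a b : ℕ → ℂ} {k0 : ℂ} (hk : Tendsto k uf (𝓝 k0))
    (ha : Tendsto (fun n => ‖a n‖) uf atTop) (he : ∀ n, k n = a n * b n) :
    Tendsto b uf (𝓝 0) := by
  rw [tendsto_zero_iff_norm_tendsto_zero]
  have h3 : Tendsto (fun n => ‖k n‖ / ‖a n‖) uf (𝓝 0) := hk.norm.div_atTop ha
  refine h3.congr' ?_
  filter_upwards [ha.eventually_gt_atTop 0] with n hn
  rw [he n, norm_mul, mul_div_cancel_left₀ _ hn.ne']

private theorem clsB_nc {k : ℕ → ℂ} {k0 : ℂ} (hk : Tendsto k uf (𝓝 k0))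
    (h : Tendsto (fun n => ‖k n‖) uf atTop) : False :=
  not_tendsto_nhds_of_tendsto_atTop h _ hk.norm

private theorem clsB_mul {x y : ℕ → ℂ} {x0 : ℂ} (hx : Tendsto x uf (𝓝 x0)) (hx0 : x0 ≠ 0)
    (hy : Tendsto (fun n => ‖y n‖) uf atTop) : Tendsto (fun n => ‖x n * y n‖) uf atTop := by
  simp only [norm_mul]
  exact hx.norm.pos_mul_atTop (norm_pos_iff.2 hx0) hy

omit [Fintype A] [Fintype B] [DecidableEq A] [DecidableEq B] in
private theorem clsB_MC (c o : C) :
    MC c o 0 = Finset.univ ∧ MC c o 1 = Finset.univ.erase o ∧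
      MC c o 2 = (Finset.univ.erase o).erase c := by
  refine ⟨?_, ?_, ?_⟩
  · simp [MC]
  · simp [MC]
  · rw [MC, if_neg (by decide), if_neg (by decide)]

/-- The possible limits.

Proof. The normalised vectors converge to normalised vectors (`ulim_vec`, `Nrm.lim`).
`α n = c1 T v w ia` (`ia ∈ SA`) and `β n` converge. Let `Q n = tr T u v w = α q(u) = β q(v) = γ
q(w)`
(`BT.trace`), it converges.

(I) Suppose `‖ν‖ → ∞` (`ualt`). `e3` at `c`: `c3 T u v c + ν = γ * w c` with bounded first term and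
`‖w c‖ ≤ 1`, so `‖γ‖ → ∞` and `γ w c / ν → 1`; `e3` at `k ≠ o, c`: `γ w k` is bounded, so `w0 k =
0`;
`γ q(w) = Q` is bounded, so `q w0 = w0 o ^ 2 + w0 c ^ 2 = 0`; as `w0 ≠ 0`, `w0 o = ± i w0 c ≠ 0`.
`θ = w o * ν / s`, so `‖θ‖ → ∞`, and `e4` gives `α → 0`: `c1 T v0 w0 a = 0` on `SA`. By `hV`
`w0` is real up to a factor, but `w0 o / w0 c = ± i`, contradiction.

(II) Otherwise `ν → ν0`. Then `γ` converges: `γ = c3 T u v ic + (ν or 0)` if `ic ≠ o`, and
`γ = c3 T u v o - ν * w c` (`e8`) if `ic = o` (`w o = 1`).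

(II a) `‖θ‖ → ∞`: then `α, β, γ → 0` by `e4`, `e5`, `e6`. So `c1 T v0 w0 a = 0` on `SA`,
`c2 T u0 w0 b = 0` on `SB`, `c3 T u0 v0 k = 0` for `k ≠ o, c`, `c3 T u0 v0 c = - ν0`. `w0 o ≠ 0` by
`hVw`. If `ν0 = 0`, then `e8` in the limit is `0 = w0 o * c3 T u0 v0 o`, so `(u0, v0, w0)` is a
singular tuple of the full mask with multipliers `0`, which contradicts `Ok.hα` (`hF 0`): so
`ν0 ≠ 0`: last case.

(II b) `θ → θ0`. Then `w0 o * ν0 = lim s θ = 0`. The limit satisfies `e1`, `e2`, `e3`, `e8`: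
 - `ν0 = 0`, `w0 o ≠ 0`: `e8` says `γ0 * w0 o = c3 T u0 v0 o`: a singular tuple of the full mask;
 - `ν0 = 0`, `w0 o = 0`: a singular tuple of the mask without `o`;
 - `ν0 ≠ 0`: then `w0 o = 0` and `e8` says `ν0 * w0 c = 0`, so `w0 c = 0`: a singular tuple of the
   mask without `o` and `c`.
In all three cases the vectors are real up to factors (`hF`), so `q u0`, `q v0`, `q w0` are nonzero
(`q_ne`), and `e4` in the limit, `θ0 * α0 = q v0 * q w0`, shows `θ0 ≠ 0`. -/
theorem clsB (hco : c ≠ o) (hF : ∀ y, FR T SA SB (MC c o y)) (hV : VR T SA SB Finset.univ)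
    (hVw : ∀ v w, Sup SB v → (∀ a ∈ SA, c1 T v w a = 0) → v ≠ 0 → w ≠ 0 → w o ≠ 0)
    (h : SqB T SA SB c o s ia ib ic u v w α β γ θ ν) :
    ∃ u0 v0 w0, Lv u v w u0 v0 w0 ∧ Nrm u0 ia ∧ Nrm v0 ib ∧ Nrm w0 ic ∧
      ((∃ α0 β0 γ0 θ0, Lc α β γ α0 β0 γ0 ∧ Tendsto θ uf (𝓝 θ0) ∧ θ0 ≠ 0 ∧
          ((Tup T SA SB Finset.univ u0 v0 w0 α0 β0 γ0 ∧ w0 o ≠ 0 ∧ Tendsto ν uf (𝓝 0)) ∨
            (Tup T SA SB (Finset.univ.erase o) u0 v0 w0 α0 β0 γ0 ∧ Tendsto ν uf (𝓝 0)) ∨
            (Tup T SA SB ((Finset.univ.erase o).erase c) u0 v0 w0 α0 β0 γ0 ∧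
              ∃ ν0, ν0 ≠ 0 ∧ Tendsto ν uf (𝓝 ν0)))) ∨
        (Tendsto (fun n => ‖θ n‖) uf atTop ∧ (∃ ν0, ν0 ≠ 0 ∧ Tendsto ν uf (𝓝 ν0)) ∧
          w0 o ≠ 0 ∧ Sup SB v0 ∧ ∀ a ∈ SA, c1 T v0 w0 a = 0)) := by
  obtain ⟨hs, hpos, hsol, nu, nv, nw⟩ := h
  obtain ⟨u0, hu⟩ := ulim_vec u 1 fun n a => (nu n).2 a
  obtain ⟨v0, hv⟩ := ulim_vec v 1 fun n a => (nv n).2 a
  obtain ⟨w0, hw⟩ := ulim_vec w 1 fun n a => (nw n).2 a
  have nu0 := Nrm.lim nu hu
  have nv0 := Nrm.lim nv hv
  have nw0 := Nrm.lim nw hw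
  have su : Sup SA u0 := Sup.lim (fun n => (hsol n).su) hu
  have sv : Sup SB v0 := Sup.lim (fun n => (hsol n).sv) hv
  refine ⟨u0, v0, w0, ⟨hu, hv, hw⟩, nu0, nv0, nw0, ?_⟩
  have k1 : ∀ a, Tendsto (fun n => c1 T (v n) (w n) a) uf (𝓝 (c1 T v0 w0 a)) :=
    fun a => lim_c1 hv hw a
  have k2 : ∀ b, Tendsto (fun n => c2 T (u n) (w n) b) uf (𝓝 (c2 T u0 w0 b)) :=
    fun b => lim_c2 hu hw b
  have k3 : ∀ k, Tendsto (fun n => c3 T (u n) (v n) k) uf (𝓝 (c3 T u0 v0 k)) :=
    fun k => lim_c3 hu hv k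
  have hu' : ∀ a, Tendsto (fun n => u n a) uf (𝓝 (u0 a)) := tendsto_pi_nhds.1 hu
  have hv' : ∀ b, Tendsto (fun n => v n b) uf (𝓝 (v0 b)) := tendsto_pi_nhds.1 hv
  have hw' : ∀ k, Tendsto (fun n => w n k) uf (𝓝 (w0 k)) := tendsto_pi_nhds.1 hw
  have lqu := lim_q hu
  have lqv := lim_q hv
  have lqw := lim_q hw
  obtain ⟨α0, hα⟩ : ∃ α0, Tendsto α uf (𝓝 α0) := by
    refine ⟨_, (k1 ia).congr fun n => ?_⟩
    rw [(hsol n).e1 ia ((nu n).mem (hsol n).su), (nu n).1, mul_one]
  obtain ⟨β0, hβ⟩ : ∃ β0, Tendsto β uf (𝓝 β0) := by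
    refine ⟨_, (k2 ib).congr fun n => ?_⟩
    rw [(hsol n).e2 ib ((nv n).mem (hsol n).sv), (nv n).1, mul_one]
  have E1 : ∀ a ∈ SA, c1 T v0 w0 a = α0 * u0 a := fun a ha =>
    tendsto_nhds_unique ((k1 a).congr fun n => (hsol n).e1 a ha) (hα.mul (hu' a))
  have E2 : ∀ b ∈ SB, c2 T u0 w0 b = β0 * v0 b := fun b hb =>
    tendsto_nhds_unique ((k2 b).congr fun n => (hsol n).e2 b hb) (hβ.mul (hv' b))
  have hsC : Tendsto (fun n => (s n : ℂ)) uf (𝓝 0) := by
    have h1 := (Complex.continuous_ofReal.tendsto 0).comp hs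
    rw [Complex.ofReal_zero] at h1
    exact h1
  have big4 : Tendsto (fun n => ‖θ n‖) uf atTop → α0 = 0 := fun hθ =>
    tendsto_nhds_unique hα (clsB_zero (lqv.mul lqw) hθ fun n => ((hsol n).e4).symm)
  rcases ualt ν with ⟨ν0, hν⟩ | hν
  · have hγ' : ∃ γ0, Tendsto γ uf (𝓝 γ0) := by
      by_cases hic : ic = o
      · refine ⟨_, ((k3 o).sub (hν.mul (hw' c))).congr fun n => ?_⟩
        have h1 := (hsol n).e8
        have h2 : w n o = 1 := by
          rw [← hic]
          exact (nw n).1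
        rw [h2] at h1
        rw [one_pow, mul_one, one_mul] at h1
        exact h1.symm
      · have h3 : Tendsto (fun n => if ic = c then ν n else 0) uf
            (𝓝 (if ic = c then ν0 else 0)) := by
          by_cases h4 : ic = c
          · simp only [if_pos h4]
            exact hν
          · simp only [if_neg h4]
            exact tendsto_const_nhds
        refine ⟨_, ((k3 ic).add h3).congr fun n => ?_⟩
        rw [(hsol n).e3 ic hic, (nw n).1, mul_one]
    obtain ⟨γ0, hγ⟩ := hγ'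
    have E3 : ∀ k, k ≠ o → c3 T u0 v0 k + (if k = c then ν0 else 0) = γ0 * w0 k := by
      intro k hk
      have h3 : Tendsto (fun n => if k = c then ν n else 0) uf
          (𝓝 (if k = c then ν0 else 0)) := by
        by_cases h4 : k = c
        · simp only [if_pos h4]
          exact hν
        · simp only [if_neg h4]
          exact tendsto_const_nhds
      exact tendsto_nhds_unique (((k3 k).add h3).congr fun n => (hsol n).e3 k hk)
        (hγ.mul (hw' k))
    have E8 : γ0 * w0 o ^ 2 = w0 o * c3 T u0 v0 o - ν0 * w0 c :=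
      tendsto_nhds_unique ((hγ.mul ((hw' o).pow 2)).congr fun n => (hsol n).e8)
        (((hw' o).mul (k3 o)).sub (hν.mul (hw' c)))
    rcases ualt θ with ⟨θ0, hθ⟩ | hθ
    · left
      have E7 : w0 o * ν0 = 0 := by
        have h1 := hsC.mul hθ
        rw [zero_mul] at h1
        exact tendsto_nhds_unique (((hw' o).mul hν).congr fun n => (hsol n).e7) h1
      have E4 : θ0 * α0 = q v0 * q w0 :=
        tendsto_nhds_unique ((hθ.mul hα).congr fun n => (hsol n).e4) (lqv.mul lqw)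
      have key : ∀ y, Tup T SA SB (MC c o y) u0 v0 w0 α0 β0 γ0 → θ0 ≠ 0 := by
        intro y ht h0
        have hok := hF y u0 v0 w0 α0 β0 γ0 ht nu0.ne nv0.ne nw0.ne
        rw [h0, zero_mul] at E4
        exact mul_ne_zero (q_ne hok.rv nv0.ne) (q_ne hok.rw' nw0.ne) E4.symm
      by_cases hν0 : ν0 = 0
      · subst hν0
        have E3' : ∀ k, k ≠ o → c3 T u0 v0 k = γ0 * w0 k := by
          intro k hk
          have h1 := E3 k hk
          rwa [ite_self, add_zero] at h1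
        by_cases hwo : w0 o = 0
        · have ht : Tup T SA SB (Finset.univ.erase o) u0 v0 w0 α0 β0 γ0 := by
            refine ⟨su, sv, ?_, E1, E2, fun k hk => E3' k (Finset.ne_of_mem_erase hk)⟩
            intro k hk
            by_cases h1 : k = o
            · rw [h1, hwo]
            · exact absurd (Finset.mem_erase.2 ⟨h1, Finset.mem_univ k⟩) hk
          refine ⟨α0, β0, γ0, θ0, ⟨hα, hβ, hγ⟩, hθ, key 1 ?_, Or.inr (Or.inl ⟨ht, hν⟩)⟩
          rw [(clsB_MC c o).2.1]
          exact ht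
        · have ht : Tup T SA SB Finset.univ u0 v0 w0 α0 β0 γ0 := by
            refine ⟨su, sv, fun k hk => absurd (Finset.mem_univ k) hk, E1, E2, fun k _ => ?_⟩
            by_cases h1 : k = o
            · rw [h1]
              rw [zero_mul, sub_zero, pow_two, ← mul_assoc] at E8
              refine mul_left_cancel₀ hwo ?_
              rw [← E8]
              ring
            · exact E3' k h1
          refine ⟨α0, β0, γ0, θ0, ⟨hα, hβ, hγ⟩, hθ, key 0 ?_, Or.inl ⟨ht, hwo, hν⟩⟩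
          rw [(clsB_MC c o).1]
          exact ht
      · have hwo : w0 o = 0 := (mul_eq_zero.1 E7).resolve_right hν0
        have hwc : w0 c = 0 := by
          rw [hwo] at E8
          have h1 : ν0 * w0 c = 0 := by linear_combination E8
          exact (mul_eq_zero.1 h1).resolve_left hν0
        have ht : Tup T SA SB ((Finset.univ.erase o).erase c) u0 v0 w0 α0 β0 γ0 := by
          refine ⟨su, sv, ?_, E1, E2, fun k hk => ?_⟩
          · intro k hk
            by_cases h1 : k = o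
            · rw [h1, hwo]
            · by_cases h2 : k = c
              · rw [h2, hwc]
              · exact absurd (Finset.mem_erase.2 ⟨h2, Finset.mem_erase.2
                  ⟨h1, Finset.mem_univ k⟩⟩) hk
          · have h1 := E3 k (Finset.ne_of_mem_erase (Finset.mem_of_mem_erase hk))
            rwa [if_neg (Finset.ne_of_mem_erase hk), add_zero] at h1
        refine ⟨α0, β0, γ0, θ0, ⟨hα, hβ, hγ⟩, hθ, key 2 ?_,
          Or.inr (Or.inr ⟨ht, ν0, hν0, hν⟩)⟩
        rw [(clsB_MC c o).2.2]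
        exact ht
    · right
      have hα0 := big4 hθ
      have hβ0 : β0 = 0 :=
        tendsto_nhds_unique hβ (clsB_zero (lqu.mul lqw) hθ fun n => ((hsol n).e5).symm)
      have hγ0 : γ0 = 0 :=
        tendsto_nhds_unique hγ (clsB_zero (lqu.mul lqv) hθ fun n => ((hsol n).e6).symm)
      have hz : ∀ a ∈ SA, c1 T v0 w0 a = 0 := by
        intro a ha
        rw [E1 a ha, hα0, zero_mul]
      have hwo := hVw v0 w0 sv hz nv0.ne nw0.ne
      refine ⟨hθ, ⟨ν0, ?_, hν⟩, hwo, sv, hz⟩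
      intro hν0
      subst hν0
      have ht : Tup T SA SB (MC c o 0) u0 v0 w0 α0 β0 γ0 := by
        rw [(clsB_MC c o).1]
        refine ⟨su, sv, fun k hk => absurd (Finset.mem_univ k) hk, E1, E2, fun k _ => ?_⟩
        by_cases h1 : k = o
        · rw [h1]
          rw [zero_mul, sub_zero, pow_two, ← mul_assoc] at E8
          refine mul_left_cancel₀ hwo ?_
          rw [← E8]
          ring
        · have h1 := E3 k h1
          rwa [ite_self, add_zero] at h1
      exact (hF 0 u0 v0 w0 α0 β0 γ0 ht nu0.ne nv0.ne nw0.ne).hα hα0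
  · exfalso
    have hγ : Tendsto (fun n => ‖γ n‖) uf atTop := by
      rcases ualt γ with ⟨γ0, hγ⟩ | hγ
      · exfalso
        have h1 := (hγ.mul (hw' c)).sub (k3 c)
        refine clsB_nc (h1.congr fun n => ?_) hν
        have h2 := (hsol n).e3 c hco
        rw [if_pos rfl] at h2
        rw [← h2]
        ring
      · exact hγ
    have hk0 : ∀ k, k ≠ o → k ≠ c → w0 k = 0 := by
      intro k h1 h2
      refine tendsto_nhds_unique (hw' k) (clsB_zero (k3 k) hγ fun n => ?_)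
      have h3 := (hsol n).e3 k h1
      rwa [if_neg h2, add_zero] at h3
    have hq0 : q w0 = 0 :=
      tendsto_nhds_unique lqw (clsB_zero (hα.mul lqu) hγ fun n =>
        ((hsol n).trace hco).1.symm.trans ((hsol n).trace hco).2.2)
    have hwo : w0 o ≠ 0 := by
      intro h0
      have h1 : q w0 = w0 c ^ 2 := by
        rw [q, Finset.sum_eq_single c]
        · intro k _ hk
          by_cases h2 : k = o
          · rw [h2, h0]
            ring
          · rw [hk0 k h2 hk]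
            ring
        · intro h2
          exact absurd (Finset.mem_univ c) h2
      rw [hq0] at h1
      have h2 : w0 c = 0 := pow_eq_zero_iff (two_ne_zero) |>.1 h1.symm
      apply nw0.ne
      funext k
      by_cases h3 : k = o
      · rw [h3, h0]
        rfl
      · by_cases h4 : k = c
        · rw [h4, h2]
          rfl
        · rw [hk0 k h3 h4]
          rfl
    have hθ : Tendsto (fun n => ‖θ n‖) uf atTop := by
      rcases ualt θ with ⟨θ0, hθ⟩ | hθ
      · exfalso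
        exact clsB_nc ((hsC.mul hθ).congr fun n => ((hsol n).e7).symm) (clsB_mul (hw' o) hwo hν)
      · exact hθ
    have hα0 := big4 hθ
    have hz : ∀ a ∈ SA, c1 T v0 w0 a = 0 := by
      intro a ha
      rw [E1 a ha, hα0, zero_mul]
    have hr := (hV v0 w0 sv (fun k hk => absurd (Finset.mem_univ k) hk) hz nv0.ne nw0.ne).2.1
    exact q_ne hr nw0.ne hq0

end

end Pool.Agent.MPb0eR
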