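import Mathlib
import Pool.Agent.Lib.MP_b0e20b_ag_R.Alg2
import Pool.Agent.Lib.MP_b0e20b_ag_R.ADefs

/-!
# MP_b0e20b_ag, project R: the local system of the second level is a quadratic system
-/

set_option autoImplicit false

open scoped BigOperators Topology
open Filter

namespace Pool.Agent.MPb0eR

section

variable {A B C : Type} [Fintype A] [Fintype B] [Fintype C] [DecidableEq A] [DecidableEq B]
  [DecidableEq C] (T : A → B → C → ℝ) (SA : Finset A) (SB : Finset B) (c o : C) (ia : A) (ib : B)
  (ic : C)

private theorem bq_real {X : Type} (t : ℝ) (u : X → ℂ) : t • u = (t : ℂ) • u := by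
  funext a
  simp only [Pi.smul_apply, Complex.real_smul, smul_eq_mul]

omit [Fintype C] in
private theorem bq_hw_add (x y : ℝ) (w w' : C → ℂ) :
    hw c o x y (w + w') = hw c o x y w + hw c o x y w' := by
  funext k
  simp only [hw, Pi.add_apply, mul_add]

omit [Fintype C] in
private theorem bq_hw_smul (x y : ℝ) (t : ℂ) (w : C → ℂ) :
    hw c o x y (t • w) = t • hw c o x y w := by
  funext k
  simp only [hw, Pi.smul_apply, smul_eq_mul]
  ring

omit [Fintype C] in
private theorem bq_hw_cj (x y : ℝ) (w : C → ℂ) :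
    hw c o x y (cj w) = cj (hw c o x y w) := by
  funext k
  simp only [hw, cj, map_mul, Complex.conj_ofReal]

omit [Fintype C] in
private theorem bq_hw_cont {Z : Type} [TopologicalSpace Z] {f g : Z → ℝ} {h : Z → C → ℂ}
    (hf : Continuous f) (hg : Continuous g) (hh : Continuous h) :
    Continuous fun x => hw c o (f x) (g x) (h x) := by
  refine continuous_pi fun k => ?_
  have h1 : Continuous fun x => h x k := (continuous_apply k).comp hh
  have h2 : Continuous fun x => (if k = o then f x else if k = c then g x else 1 : ℝ) := by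
    split_ifs
    · exact hf
    · exact hg
    · exact continuous_const
  exact (Complex.continuous_ofReal.comp h2).mul h1

private theorem bq_al (z : Fin 5 → ℝ) (p p' r : PB A B C) :
    bB T SA SB c o z (p + p') r = bB T SA SB c o z p r + bB T SA SB c o z p' r := by
  obtain ⟨u, v, w, x⟩ := p
  obtain ⟨u', v', w', x'⟩ := p'
  obtain ⟨a, b, d, y⟩ := r
  refine Prod.ext (funext fun i => ?_) (Prod.ext (funext fun i => ?_) (Prod.ext (funext fun i => ?_)
    (funext fun i => ?_)))
  · simp only [bB, Prod.mk_add_mk, Pi.add_apply, c1_add_left]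
    split_ifs <;> ring
  · simp only [bB, Prod.mk_add_mk, Pi.add_apply, c2_add_left]
    split_ifs <;> ring
  · simp only [bB, Prod.mk_add_mk, Pi.add_apply, c3_add_left]
    split_ifs <;> ring
  · fin_cases i <;>
      simp [bB, bq_hw_add, add_mul, Finset.sum_add_distrib] <;> ring

private theorem bq_ar (z : Fin 5 → ℝ) (p r r' : PB A B C) :
    bB T SA SB c o z p (r + r') = bB T SA SB c o z p r + bB T SA SB c o z p r' := by
  obtain ⟨u, v, w, x⟩ := p
  obtain ⟨u', v', w', x'⟩ := r'
  obtain ⟨a, b, d, y⟩ := r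
  refine Prod.ext (funext fun i => ?_) (Prod.ext (funext fun i => ?_) (Prod.ext (funext fun i => ?_)
    (funext fun i => ?_)))
  · simp only [bB, Prod.mk_add_mk, Pi.add_apply, bq_hw_add, c1_add_right]
    split_ifs <;> ring
  · simp only [bB, Prod.mk_add_mk, Pi.add_apply, bq_hw_add, c2_add_right]
    split_ifs <;> ring
  · simp only [bB, Prod.mk_add_mk, Pi.add_apply, c3_add_right]
    split_ifs <;> ring
  · fin_cases i <;>
      simp [bB, bq_hw_add, mul_add, Finset.sum_add_distrib] <;> ring

private theorem bq_sl (z : Fin 5 → ℝ) (t : ℝ) (p r : PB A B C) :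
    bB T SA SB c o z (t • p) r = t • bB T SA SB c o z p r := by
  obtain ⟨u, v, w, x⟩ := p
  obtain ⟨a, b, d, y⟩ := r
  refine Prod.ext (funext fun i => ?_) (Prod.ext (funext fun i => ?_) (Prod.ext (funext fun i => ?_)
    (funext fun i => ?_)))
  · simp only [bB, Prod.smul_mk, bq_real, Pi.smul_apply, smul_eq_mul, c1_smul_left]
    split_ifs <;> ring
  · simp only [bB, Prod.smul_mk, bq_real, Pi.smul_apply, smul_eq_mul, c2_smul_left]
    split_ifs <;> ring
  · simp only [bB, Prod.smul_mk, bq_real, Pi.smul_apply, smul_eq_mul, c3_smul_left]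
    split_ifs <;> ring
  · simp only [bB, Prod.smul_mk, bq_real, Pi.smul_apply, smul_eq_mul, bq_hw_smul]
    fin_cases i <;> simp [mul_assoc, Finset.mul_sum] <;> ring

private theorem bq_sr (z : Fin 5 → ℝ) (t : ℝ) (p r : PB A B C) :
    bB T SA SB c o z p (t • r) = t • bB T SA SB c o z p r := by
  obtain ⟨u, v, w, x⟩ := p
  obtain ⟨a, b, d, y⟩ := r
  refine Prod.ext (funext fun i => ?_) (Prod.ext (funext fun i => ?_) (Prod.ext (funext fun i => ?_)
    (funext fun i => ?_)))
  · simp only [bB, Prod.smul_mk, bq_real, Pi.smul_apply, smul_eq_mul, bq_hw_smul, c1_smul_right]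
    split_ifs <;> ring
  · simp only [bB, Prod.smul_mk, bq_real, Pi.smul_apply, smul_eq_mul, bq_hw_smul, c2_smul_right]
    split_ifs <;> ring
  · simp only [bB, Prod.smul_mk, bq_real, Pi.smul_apply, smul_eq_mul, c3_smul_right]
    split_ifs <;> ring
  · simp only [bB, Prod.smul_mk, bq_real, Pi.smul_apply, smul_eq_mul, bq_hw_smul]
    fin_cases i <;> simp [mul_left_comm, Finset.mul_sum] <;> ring

private theorem bq_la (z : Fin 5 → ℝ) (p r : PB A B C) :
    lB SA SB c o ia ib ic z (p + r) = lB SA SB c o ia ib ic z p + lB SA SB c o ia ib ic z r := by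
  obtain ⟨u, v, w, x⟩ := p
  obtain ⟨a, b, d, y⟩ := r
  refine Prod.ext (funext fun i => ?_) (Prod.ext (funext fun i => ?_) (Prod.ext (funext fun i => ?_)
    (funext fun i => ?_)))
  · simp only [lB, Prod.mk_add_mk, Pi.add_apply]
    split_ifs <;> ring
  · simp only [lB, Prod.mk_add_mk, Pi.add_apply]
    split_ifs <;> ring
  · simp only [lB, Prod.mk_add_mk, Pi.add_apply]
    split_ifs <;> ring
  · simp only [lB, Prod.mk_add_mk, Pi.add_apply]
    fin_cases i <;> simp <;> ring

private theorem bq_ls (z : Fin 5 → ℝ) (t : ℝ) (p : PB A B C) :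
    lB SA SB c o ia ib ic z (t • p) = t • lB SA SB c o ia ib ic z p := by
  obtain ⟨u, v, w, x⟩ := p
  refine Prod.ext (funext fun i => ?_) (Prod.ext (funext fun i => ?_) (Prod.ext (funext fun i => ?_)
    (funext fun i => ?_)))
  · simp only [lB, Prod.smul_mk, bq_real, Pi.smul_apply, smul_eq_mul]
    split_ifs <;> ring
  · simp only [lB, Prod.smul_mk, bq_real, Pi.smul_apply, smul_eq_mul]
    split_ifs <;> ring
  · simp only [lB, Prod.smul_mk, bq_real, Pi.smul_apply, smul_eq_mul]
    split_ifs <;> ring
  · simp only [lB, Prod.smul_mk, bq_real, Pi.smul_apply, smul_eq_mul]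
    fin_cases i <;> simp

private theorem bq_cb :
    Continuous fun x : (Fin 5 → ℝ) × PB A B C × PB A B C => bB T SA SB c o x.1 x.2.1 x.2.2 := by
  have hz : ∀ i, Continuous fun x : (Fin 5 → ℝ) × PB A B C × PB A B C => x.1 i := fun i => by
    fun_prop
  have hw1 : Continuous fun x : (Fin 5 → ℝ) × PB A B C × PB A B C =>
      hw c o (x.1 0) (x.1 1) x.2.1.2.2.1 := bq_hw_cont c o (hz 0) (hz 1) (by fun_prop)
  have hw2 : Continuous fun x : (Fin 5 → ℝ) × PB A B C × PB A B C =>
      hw c o (x.1 0) (x.1 1) x.2.2.2.2.1 := bq_hw_cont c o (hz 0) (hz 1) (by fun_prop)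
  have hu1 : Continuous fun x : (Fin 5 → ℝ) × PB A B C × PB A B C => x.2.1.1 := by fun_prop
  have hv1 : Continuous fun x : (Fin 5 → ℝ) × PB A B C × PB A B C => x.2.1.2.1 := by fun_prop
  have hv2 : Continuous fun x : (Fin 5 → ℝ) × PB A B C × PB A B C => x.2.2.2.1 := by fun_prop
  have h1 : Continuous fun x : (Fin 5 → ℝ) × PB A B C × PB A B C =>
      c1 T x.2.1.2.1 (hw c o (x.1 0) (x.1 1) x.2.2.2.2.1) := by
    have h0 := (continuous_c1 T).comp (hv1.prodMk hw2)
    exact h0
  have h2 : Continuous fun x : (Fin 5 → ℝ) × PB A B C × PB A B C =>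
      c2 T x.2.1.1 (hw c o (x.1 0) (x.1 1) x.2.2.2.2.1) := by
    have h0 := (continuous_c2 T).comp (hu1.prodMk hw2)
    exact h0
  have h3 : Continuous fun x : (Fin 5 → ℝ) × PB A B C × PB A B C =>
      c3 T x.2.1.1 x.2.2.2.1 := by
    have h0 := (continuous_c3 T).comp (hu1.prodMk hv2)
    exact h0
  have g1 := fun a => (continuous_apply a).comp h1
  have g2 := fun a => (continuous_apply a).comp h2
  have g3 := fun a => (continuous_apply a).comp h3
  have k1 := fun a => (continuous_apply a).comp hw1
  have k2 := fun a => (continuous_apply a).comp hw2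
  simp only [Function.comp_def] at g1 g2 g3 k1 k2
  refine Continuous.prodMk (continuous_pi fun a => ?_) (Continuous.prodMk
    (continuous_pi fun b => ?_) (Continuous.prodMk (continuous_pi fun k => ?_)
    (continuous_pi fun i => ?_)))
  · split_ifs
    · exact (g1 a).sub (by fun_prop)
    · exact continuous_const
  · split_ifs
    · exact (g2 b).sub (by fun_prop)
    · exact continuous_const
  · split_ifs
    · exact g3 o
    · exact (g3 c).sub (by fun_prop)
    · exact (g3 k).sub (by fun_prop)
  · fin_cases i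
    · simp
      fun_prop
    · simp
      fun_prop
    · simp
      fun_prop
    · simp
      fun_prop
    · simp
      fun_prop
    · simp
      exact continuous_finset_sum _ fun a _ => (k1 a).mul (k2 a)
    · simp
      fun_prop
    · simp
      fun_prop
    · simp
      fun_prop
    · simp
      exact continuous_const
    · simp
      exact continuous_const
    · simp
      exact continuous_const

private theorem bq_cl :
    Continuous fun x : (Fin 5 → ℝ) × PB A B C => lB SA SB c o ia ib ic x.1 x.2 := by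
  refine Continuous.prodMk (continuous_pi fun a => ?_) (Continuous.prodMk
    (continuous_pi fun b => ?_) (Continuous.prodMk (continuous_pi fun k => ?_)
    (continuous_pi fun i => ?_)))
  · split_ifs
    · exact continuous_const
    · fun_prop
  · split_ifs
    · exact continuous_const
    · fun_prop
  · split_ifs
    · fun_prop
    · fun_prop
    · exact continuous_const
  · fin_cases i <;> simp <;> fun_prop

theorem isQ_B : IsQ (bB T SA SB c o) (lB SA SB c o ia ib ic) where
  al := bq_al T SA SB c o
  ar := bq_ar T SA SB c o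
  sl := bq_sl T SA SB c o
  sr := bq_sr T SA SB c o
  la := bq_la SA SB c o ia ib ic
  ls := bq_ls SA SB c o ia ib ic
  cb := bq_cb T SA SB c o
  cl := bq_cl SA SB c o ia ib ic

private theorem bq_cj {X : Type} : Continuous (cj : (X → ℂ) → X → ℂ) :=
  continuous_pi fun a => Complex.continuous_conj.comp (continuous_apply a)

theorem cjB_continuous : Continuous (cjB : PB A B C → PB A B C) := by
  refine Continuous.prodMk (bq_cj.comp continuous_fst) (Continuous.prodMk
    (bq_cj.comp (continuous_fst.comp continuous_snd)) (Continuous.prodMk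
    (bq_cj.comp (continuous_fst.comp (continuous_snd.comp continuous_snd)))
    (bq_cj.comp (continuous_snd.comp (continuous_snd.comp continuous_snd)))))

/-- The conjugate value. -/
private def bqQ (p : QB A B C) : QB A B C := (cj p.1, cj p.2.1, cj p.2.2.1, cj p.2.2.2)

private theorem bq_bcj (z : Fin 5 → ℝ) (p : PB A B C) :
    bB T SA SB c o z (cjB p) (cjB p) = bqQ (bB T SA SB c o z p p) := by
  obtain ⟨u, v, w, x⟩ := p
  refine Prod.ext (funext fun i => ?_) (Prod.ext (funext fun i => ?_) (Prod.ext (funext fun i => ?_)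
    (funext fun i => ?_)))
  · simp only [bB, cjB, bqQ, bq_hw_cj, c1_cj]
    simp only [cj]
    split_ifs <;> simp
  · simp only [bB, cjB, bqQ, bq_hw_cj, c2_cj]
    simp only [cj]
    split_ifs <;> simp
  · simp only [bB, cjB, bqQ, c3_cj]
    simp only [cj]
    split_ifs <;> simp
  · simp only [bB, cjB, bqQ, bq_hw_cj]
    simp only [cj]
    fin_cases i <;> simp

private theorem bq_lcj (z : Fin 5 → ℝ) (p : PB A B C) :
    lB SA SB c o ia ib ic z (cjB p) = bqQ (lB SA SB c o ia ib ic z p) := by
  obtain ⟨u, v, w, x⟩ := p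
  refine Prod.ext (funext fun i => ?_) (Prod.ext (funext fun i => ?_) (Prod.ext (funext fun i => ?_)
    (funext fun i => ?_)))
  · simp only [lB, cjB, bqQ, cj]
    split_ifs <;> simp
  · simp only [lB, cjB, bqQ, cj]
    split_ifs <;> simp
  · simp only [lB, cjB, bqQ, cj]
    split_ifs <;> simp
  · simp only [lB, cjB, bqQ, cj]
    fin_cases i <;> simp

private theorem bq_kcj : (kB : QB A B C) = bqQ kB := by
  refine Prod.ext (funext fun i => ?_) (Prod.ext (funext fun i => ?_) (Prod.ext (funext fun i => ?_)
    (funext fun i => ?_)))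
  · simp [kB, bqQ, cj]
  · simp [kB, bqQ, cj]
  · simp [kB, bqQ, cj]
  · simp only [kB, bqQ, cj]
    fin_cases i <;> simp

private theorem bq_qadd (p r : QB A B C) : bqQ (p + r) = bqQ p + bqQ r := by
  refine Prod.ext (funext fun i => ?_) (Prod.ext (funext fun i => ?_) (Prod.ext (funext fun i => ?_)
    (funext fun i => ?_))) <;> simp [bqQ, cj]

private theorem bq_qzero : bqQ (0 : QB A B C) = 0 := by
  refine Prod.ext (funext fun i => ?_) (Prod.ext (funext fun i => ?_) (Prod.ext (funext fun i => ?_)
    (funext fun i => ?_))) <;> simp [bqQ, cj]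

/-- The system is real. -/
theorem cjB_sol (z : Fin 5 → ℝ) (p : PB A B C)
    (h : bB T SA SB c o z p p + lB SA SB c o ia ib ic z p + kB = 0) :
    bB T SA SB c o z (cjB p) (cjB p) + lB SA SB c o ia ib ic z (cjB p) + kB = 0 := by
  rw [bq_bcj, bq_lcj, bq_kcj, ← bq_qadd, ← bq_qadd, h, bq_qzero]

end

end Pool.Agent.MPb0eR
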