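import Mathlib
import Pool.Agent.Lib.MP_b0e20b_ag_R.BAlg

/-!
# MP_b0e20b_ag, project R: solutions of the second level and the local system
-/

set_option autoImplicit false

open scoped BigOperators Topology
open Filter

namespace Pool.Agent.MPb0eR

section

variable {A B C : Type} [Fintype A] [Fintype B] [Fintype C] [DecidableEq A] [DecidableEq B]
  [DecidableEq C] {T : A → B → C → ℝ} {SA : Finset A} {SB : Finset B} {c o : C} {s : ℝ} {ia : A}
  {ib : B} {ic : C} {z : Fin 5 → ℝ}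

/-- The point of the local system which belongs to a solution, for the scale parameters `z`:
`w` is divided by `z 0` at `o` and by `z 1` at `c`; `α, β, γ` are divided by `z 3`, `θ` is multiplied
by `z 3`, `ν` is divided by `z 2`. -/
noncomputable def ptB (T : A → B → C → ℝ) (c o : C) (z : Fin 5 → ℝ) (u : A → ℂ) (v : B → ℂ)
    (w : C → ℂ) (α β γ θ ν : ℂ) : PB A B C :=
  (u, v, hw c o (1 / z 0) (1 / z 1) w,
    ![α / z 3, β / z 3, γ / z 3, z 3 * θ, ν / z 2, q u, q v, q w,
      γ / z 3 * (w o / z 0), c3 T u v o])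

omit [Fintype C] in
private theorem BTrn_hw_o (x y : ℝ) (w : C → ℂ) : hw c o x y w o = (x : ℂ) * w o := by
  simp only [hw, if_true]

omit [Fintype C] in
private theorem BTrn_hw_c (hco : c ≠ o) (x y : ℝ) (w : C → ℂ) :
    hw c o x y w c = (y : ℂ) * w c := by
  simp only [hw, if_neg hco, if_true]

omit [Fintype C] in
private theorem BTrn_hw_n {k : C} (ho : k ≠ o) (hc : k ≠ c) (x y : ℝ) (w : C → ℂ) :
    hw c o x y w k = w k := by
  simp only [hw, if_neg ho, if_neg hc, Complex.ofReal_one, one_mul]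

theorem hw_inv (hco : c ≠ o) {x y : ℝ} (hx : x ≠ 0) (hy : y ≠ 0) (w : C → ℂ) :
    hw c o x y (hw c o (1 / x) (1 / y) w) = w := by
  have hx' : (x : ℂ) ≠ 0 := Complex.ofReal_ne_zero.2 hx
  have hy' : (y : ℂ) ≠ 0 := Complex.ofReal_ne_zero.2 hy
  funext k
  by_cases ho : k = o
  · subst ho
    rw [BTrn_hw_o, BTrn_hw_o]
    push_cast
    field_simp
  · by_cases hc : k = c
    · subst hc
      rw [BTrn_hw_c hco, BTrn_hw_c hco]
      push_cast
      field_simp
    · rw [BTrn_hw_n ho hc, BTrn_hw_n ho hc]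

/-- A solution gives a solution of the local system.

Proof. `hw c o (z 0) (z 1)` of the third vector is `w` (`hw_inv`). The equations `e1`, `e2`, `e3`,
`e4`, `e5`, `e6` are immediate. `e7`: `w o * ν = s * θ` with `w o = ρo W`, `ν = lam N`, `θ = Θ / μ`,
`s = ρo lam μ` (`hs`) is `W N = Θ`. `e8` divided by `ρo = z 0`, with
`η ρo = lam ρc` (`h4`). The normalisation of the third vector needs `ic = o → z 0 = 1`,
`ic = c → z 1 = 1`. -/
theorem ptB_sol (hco : c ≠ o) (hs : s ≠ 0) (hz : ScB s z) {u : A → ℂ} {v : B → ℂ} {w : C → ℂ}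
    {α β γ θ ν : ℂ} (h : BT T SA SB c o s u v w α β γ θ ν) (hu : u ia = 1) (hv : v ib = 1)
    (hw' : w ic = 1) (h1 : ic = o → z 0 = 1) (h2 : ic = c → z 1 = 1) :
    bB T SA SB c o z (ptB T c o z u v w α β γ θ ν) (ptB T c o z u v w α β γ θ ν)
      + lB SA SB c o ia ib ic z (ptB T c o z u v w α β γ θ ν) + kB = 0 := by
  have z0 : ((z 0 : ℝ) : ℂ) ≠ 0 := Complex.ofReal_ne_zero.2 hz.h0
  have z1 : ((z 1 : ℝ) : ℂ) ≠ 0 := Complex.ofReal_ne_zero.2 hz.h1
  have z2 : ((z 2 : ℝ) : ℂ) ≠ 0 := Complex.ofReal_ne_zero.2 hz.h2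
  have z3 : ((z 3 : ℝ) : ℂ) ≠ 0 := Complex.ofReal_ne_zero.2 hz.h3
  have h4 : ((z 4 : ℝ) : ℂ) * (z 0 : ℝ) = (z 2 : ℝ) * (z 1 : ℝ) := by
    rw [← Complex.ofReal_mul, hz.h4, Complex.ofReal_mul]
  have hs' : (s : ℂ) = (z 0 : ℝ) * (z 2 : ℝ) * (z 3 : ℝ) := by
    rw [← hz.hs]
    push_cast
    ring
  have hi : hw c o (z 0) (z 1) (hw c o (1 / z 0) (1 / z 1) w) = w :=
    hw_inv hco hz.h0 hz.h1 w
  have ho : hw c o (1 / z 0) (1 / z 1) w o = w o / (z 0 : ℝ) := by
    rw [BTrn_hw_o]
    push_cast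
    ring
  have hc : hw c o (1 / z 0) (1 / z 1) w c = w c / (z 1 : ℝ) := by
    rw [BTrn_hw_c hco]
    push_cast
    ring
  have c1' : ∀ a, (if a ∈ SA then c1 T v (hw c o (z 0) (z 1) (hw c o (1 / z 0) (1 / z 1) w)) a
      - (z 3 : ℂ) * (α / z 3 * u a) else 0) + (if a ∈ SA then 0 else u a) + 0 = 0 := by
    intro a
    by_cases ha : a ∈ SA
    · rw [if_pos ha, if_pos ha, hi, h.e1 a ha]
      field_simp
      ring
    · rw [if_neg ha, if_neg ha, h.su a ha]
      ring
  have c2' : ∀ b, (if b ∈ SB then c2 T u (hw c o (z 0) (z 1) (hw c o (1 / z 0) (1 / z 1) w)) b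
      - (z 3 : ℂ) * (β / z 3 * v b) else 0) + (if b ∈ SB then 0 else v b) + 0 = 0 := by
    intro b
    by_cases hb : b ∈ SB
    · rw [if_pos hb, if_pos hb, hi, h.e2 b hb]
      field_simp
      ring
    · rw [if_neg hb, if_neg hb, h.sv b hb]
      ring
  have c3' : ∀ k, (if k = o then c3 T u v o
      else if k = c then c3 T u v c
        - (z 3 : ℂ) * (z 1 : ℂ) * (γ / z 3 * hw c o (1 / z 0) (1 / z 1) w c)
      else c3 T u v k - (z 3 : ℂ) * (γ / z 3 * hw c o (1 / z 0) (1 / z 1) w k))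
      + (if k = o then - c3 T u v o else if k = c then (z 2 : ℂ) * (ν / z 2) else 0)
      + 0 = 0 := by
    intro k
    by_cases hko : k = o
    · rw [if_pos hko, if_pos hko]
      ring
    · by_cases hkc : k = c
      · subst hkc
        have h5 := h.e3 k hco
        rw [if_pos rfl] at h5
        rw [if_neg hco, if_neg hco, if_pos rfl, if_pos rfl, hc]
        field_simp
        linear_combination h5
      · have h5 := h.e3 k hko
        rw [if_neg hkc] at h5
        rw [if_neg hko, if_neg hko, if_neg hkc, if_neg hkc, BTrn_hw_n hko hkc]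
        field_simp
        linear_combination h5
  have c4' : ∀ i : Fin 12, (bB T SA SB c o z (ptB T c o z u v w α β γ θ ν)
      (ptB T c o z u v w α β γ θ ν) + lB SA SB c o ia ib ic z (ptB T c o z u v w α β γ θ ν)
      + kB).2.2.2 i = 0 := by
    intro i
    fin_cases i
    · change (z 3 : ℂ) * θ * (α / z 3) - q v * q w + 0 + 0 = 0
      rw [← h.e4]
      field_simp
      ring
    · change (z 3 : ℂ) * θ * (β / z 3) - q u * q w + 0 + 0 = 0
      rw [← h.e5]
      field_simp
      ring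
    · change (z 3 : ℂ) * θ * (γ / z 3) - q u * q v + 0 + 0 = 0
      rw [← h.e6]
      field_simp
      ring
    · change ∑ a, u a * u a + - q u + 0 = 0
      simp only [q, pow_two]
      ring
    · change ∑ b, v b * v b + - q v + 0 = 0
      simp only [q, pow_two]
      ring
    · change ∑ k, hw c o (z 0) (z 1) (hw c o (1 / z 0) (1 / z 1) w) k *
        hw c o (z 0) (z 1) (hw c o (1 / z 0) (1 / z 1) w) k + - q w + 0 = 0
      rw [hi]
      simp only [q, pow_two]
      ring
    · change γ / z 3 * hw c o (1 / z 0) (1 / z 1) w o + - (γ / z 3 * (w o / z 0)) + 0 = 0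
      rw [ho]
      ring
    · change hw c o (1 / z 0) (1 / z 1) w o * (ν / z 2) + - ((z 3 : ℂ) * θ) + 0 = 0
      have h7 := h.e7
      rw [hs'] at h7
      rw [ho]
      field_simp
      linear_combination h7
    · change (z 3 : ℂ) * (z 0 : ℂ) * (γ / z 3 * (w o / z 0) * hw c o (1 / z 0) (1 / z 1) w o)
        - hw c o (1 / z 0) (1 / z 1) w o * c3 T u v o
        + (z 4 : ℂ) * (ν / z 2 * hw c o (1 / z 0) (1 / z 1) w c) + 0 + 0 = 0
      have h8 := h.e8
      rw [ho, hc]
      have e : (z 4 : ℂ) * (ν / z 2 * (w c / z 1)) = ν * w c / z 0 := by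
        have e1 : (z 4 : ℂ) = z 2 * z 1 / z 0 := by
          rw [eq_div_iff z0]
          exact h4
        rw [e1]
        field_simp
      rw [e]
      field_simp
      linear_combination h8
    · change 0 + u ia + -1 = 0
      rw [hu]
      ring
    · change 0 + v ib + -1 = 0
      rw [hv]
      ring
    · change 0 + hw c o (1 / z 0) (1 / z 1) w ic + -1 = 0
      have e : hw c o (1 / z 0) (1 / z 1) w ic = 1 := by
        by_cases hio : ic = o
        · rw [h1 hio]
          subst hio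
          rw [BTrn_hw_o, hw']
          norm_num
        · by_cases hic : ic = c
          · rw [h2 hic]
            subst hic
            rw [BTrn_hw_c hco, hw']
            norm_num
          · rw [BTrn_hw_n hio hic, hw']
      rw [e]
      ring
  exact Prod.ext (funext c1') (Prod.ext (funext c2') (Prod.ext (funext c3') (funext c4')))

/-- The kernel elements with vanishing normalised coordinates are trivial. -/
private theorem BTrn_ker (hco : c ≠ o) (hz : ScB s z) {u : A → ℂ} {v : B → ℂ}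
    {w : C → ℂ} {α β γ θ ν : ℂ}
    (hk : ∀ h', bB T SA SB c o z (ptB T c o z u v w α β γ θ ν) h'
      + bB T SA SB c o z h' (ptB T c o z u v w α β γ θ ν) + lB SA SB c o ia ib ic z h' = 0 →
      h' = 0) {du : A → ℂ} {dv : B → ℂ} {dw : C → ℂ} {dα dβ dγ dθ dν : ℂ}
    (h : KerB T SA SB c o s u v w α β γ θ ν du dv dw dα dβ dγ dθ dν)
    (hui : du ia = 0) (hvi : dv ib = 0) (hwi : dw ic = 0) : du = 0 ∧ dv = 0 ∧ dw = 0 := by
  have z0 : ((z 0 : ℝ) : ℂ) ≠ 0 := Complex.ofReal_ne_zero.2 hz.h0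
  have z1 : ((z 1 : ℝ) : ℂ) ≠ 0 := Complex.ofReal_ne_zero.2 hz.h1
  have z2 : ((z 2 : ℝ) : ℂ) ≠ 0 := Complex.ofReal_ne_zero.2 hz.h2
  have z3 : ((z 3 : ℝ) : ℂ) ≠ 0 := Complex.ofReal_ne_zero.2 hz.h3
  have h4 : ((z 4 : ℝ) : ℂ) * (z 0 : ℝ) = (z 2 : ℝ) * (z 1 : ℝ) := by
    rw [← Complex.ofReal_mul, hz.h4, Complex.ofReal_mul]
  have hs' : (s : ℂ) = (z 0 : ℝ) * (z 2 : ℝ) * (z 3 : ℝ) := by
    rw [← hz.hs]
    push_cast
    ring
  have hiw : hw c o (z 0) (z 1) (hw c o (1 / z 0) (1 / z 1) w) = w :=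
    hw_inv hco hz.h0 hz.h1 w
  have hid : hw c o (z 0) (z 1) (hw c o (1 / z 0) (1 / z 1) dw) = dw :=
    hw_inv hco hz.h0 hz.h1 dw
  have ho : ∀ x : C → ℂ, hw c o (1 / z 0) (1 / z 1) x o = x o / (z 0 : ℝ) := by
    intro x
    rw [BTrn_hw_o]
    push_cast
    ring
  have hc : ∀ x : C → ℂ, hw c o (1 / z 0) (1 / z 1) x c = x c / (z 1 : ℝ) := by
    intro x
    rw [BTrn_hw_c hco]
    push_cast
    ring
  have c1' : ∀ a, (if a ∈ SA then c1 T v (hw c o (z 0) (z 1) (hw c o (1 / z 0) (1 / z 1) dw)) a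
      - (z 3 : ℂ) * (α / z 3 * du a) else 0) +
      (if a ∈ SA then c1 T dv (hw c o (z 0) (z 1) (hw c o (1 / z 0) (1 / z 1) w)) a
      - (z 3 : ℂ) * (dα / z 3 * u a) else 0) + (if a ∈ SA then 0 else du a) = 0 := by
    intro a
    by_cases ha : a ∈ SA
    · have h5 := h.e1 a ha
      rw [if_pos ha, if_pos ha, if_pos ha, hiw, hid]
      field_simp
      linear_combination h5
    · rw [if_neg ha, if_neg ha, if_neg ha, h.su a ha]
      ring
  have c2' : ∀ b, (if b ∈ SB then c2 T u (hw c o (z 0) (z 1) (hw c o (1 / z 0) (1 / z 1) dw)) b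
      - (z 3 : ℂ) * (β / z 3 * dv b) else 0) +
      (if b ∈ SB then c2 T du (hw c o (z 0) (z 1) (hw c o (1 / z 0) (1 / z 1) w)) b
      - (z 3 : ℂ) * (dβ / z 3 * v b) else 0) + (if b ∈ SB then 0 else dv b) = 0 := by
    intro b
    by_cases hb : b ∈ SB
    · have h5 := h.e2 b hb
      rw [if_pos hb, if_pos hb, if_pos hb, hiw, hid]
      field_simp
      linear_combination h5
    · rw [if_neg hb, if_neg hb, if_neg hb, h.sv b hb]
      ring
  have c3' : ∀ k, (if k = o then c3 T u dv o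
      else if k = c then c3 T u dv c
        - (z 3 : ℂ) * (z 1 : ℂ) * (γ / z 3 * hw c o (1 / z 0) (1 / z 1) dw c)
      else c3 T u dv k - (z 3 : ℂ) * (γ / z 3 * hw c o (1 / z 0) (1 / z 1) dw k))
      + (if k = o then c3 T du v o
      else if k = c then c3 T du v c
        - (z 3 : ℂ) * (z 1 : ℂ) * (dγ / z 3 * hw c o (1 / z 0) (1 / z 1) w c)
      else c3 T du v k - (z 3 : ℂ) * (dγ / z 3 * hw c o (1 / z 0) (1 / z 1) w k))
      + (if k = o then - (c3 T du v o + c3 T u dv o)
        else if k = c then (z 2 : ℂ) * (dν / z 2) else 0) = 0 := by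
    intro k
    by_cases hko : k = o
    · rw [if_pos hko, if_pos hko, if_pos hko]
      ring
    · by_cases hkc : k = c
      · subst hkc
        have h5 := h.e3 k hco
        rw [if_pos rfl] at h5
        rw [if_neg hco, if_neg hco, if_neg hco, if_pos rfl, if_pos rfl, if_pos rfl, hc, hc]
        field_simp
        linear_combination h5
      · have h5 := h.e3 k hko
        rw [if_neg hkc] at h5
        rw [if_neg hko, if_neg hko, if_neg hko, if_neg hkc, if_neg hkc, if_neg hkc,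
          BTrn_hw_n hko hkc, BTrn_hw_n hko hkc]
        field_simp
        linear_combination h5
  obtain ⟨h', eh⟩ : ∃ h' : PB A B C, h' = (du, dv, hw c o (1 / z 0) (1 / z 1) dw,
    ![dα / z 3, dβ / z 3, dγ / z 3, (z 3 : ℂ) * dθ, dν / z 2, dq u du, dq v dv, dq w dw,
      (dγ * w o + γ * dw o) / ((z 3 : ℂ) * z 0), c3 T du v o + c3 T u dv o]) := ⟨_, rfl⟩
  have c4' : ∀ i : Fin 12, (bB T SA SB c o z (ptB T c o z u v w α β γ θ ν) h'
      + bB T SA SB c o z h' (ptB T c o z u v w α β γ θ ν)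
      + lB SA SB c o ia ib ic z h').2.2.2 i = 0 := by
    subst eh
    intro i
    fin_cases i
    · change (z 3 : ℂ) * θ * (dα / z 3) - q v * dq w dw
        + ((z 3 : ℂ) * dθ * (α / z 3) - dq v dv * q w) + 0 = 0
      have h5 := h.e4
      field_simp
      linear_combination h5
    · change (z 3 : ℂ) * θ * (dβ / z 3) - q u * dq w dw
        + ((z 3 : ℂ) * dθ * (β / z 3) - dq u du * q w) + 0 = 0
      have h5 := h.e5
      field_simp
      linear_combination h5
    · change (z 3 : ℂ) * θ * (dγ / z 3) - q u * dq v dv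
        + ((z 3 : ℂ) * dθ * (γ / z 3) - dq u du * q v) + 0 = 0
      have h5 := h.e6
      field_simp
      linear_combination h5
    · change ∑ a, u a * du a + ∑ a, du a * u a + - dq u du = 0
      have e : ∑ a, du a * u a = ∑ a, u a * du a :=
        Finset.sum_congr rfl fun a _ => mul_comm _ _
      rw [e, dq]
      ring
    · change ∑ b, v b * dv b + ∑ b, dv b * v b + - dq v dv = 0
      have e : ∑ b, dv b * v b = ∑ b, v b * dv b :=
        Finset.sum_congr rfl fun b _ => mul_comm _ _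
      rw [e, dq]
      ring
    · change ∑ k, hw c o (z 0) (z 1) (hw c o (1 / z 0) (1 / z 1) w) k *
        hw c o (z 0) (z 1) (hw c o (1 / z 0) (1 / z 1) dw) k +
        ∑ k, hw c o (z 0) (z 1) (hw c o (1 / z 0) (1 / z 1) dw) k *
        hw c o (z 0) (z 1) (hw c o (1 / z 0) (1 / z 1) w) k + - dq w dw = 0
      rw [hiw, hid]
      have e : ∑ k, dw k * w k = ∑ k, w k * dw k :=
        Finset.sum_congr rfl fun k _ => mul_comm _ _
      rw [e, dq]
      ring
    · change γ / z 3 * hw c o (1 / z 0) (1 / z 1) dw o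
        + dγ / z 3 * hw c o (1 / z 0) (1 / z 1) w o
        + - ((dγ * w o + γ * dw o) / ((z 3 : ℂ) * z 0)) = 0
      rw [ho, ho]
      field_simp
      ring
    · change hw c o (1 / z 0) (1 / z 1) w o * (dν / z 2)
        + hw c o (1 / z 0) (1 / z 1) dw o * (ν / z 2) + - ((z 3 : ℂ) * dθ) = 0
      have h7 := h.e7
      rw [hs'] at h7
      rw [ho, ho]
      field_simp
      linear_combination h7
    · change (z 3 : ℂ) * (z 0 : ℂ) * (γ / z 3 * (w o / z 0) * hw c o (1 / z 0) (1 / z 1) dw o)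
        - hw c o (1 / z 0) (1 / z 1) w o * (c3 T du v o + c3 T u dv o)
        + (z 4 : ℂ) * (ν / z 2 * hw c o (1 / z 0) (1 / z 1) dw c)
        + ((z 3 : ℂ) * (z 0 : ℂ) * ((dγ * w o + γ * dw o) / ((z 3 : ℂ) * z 0)
            * hw c o (1 / z 0) (1 / z 1) w o)
        - hw c o (1 / z 0) (1 / z 1) dw o * c3 T u v o
        + (z 4 : ℂ) * (dν / z 2 * hw c o (1 / z 0) (1 / z 1) w c)) + 0 = 0
      have h8 := h.e8
      rw [ho, ho, hc, hc]
      have e1 : (z 4 : ℂ) = z 2 * z 1 / z 0 := by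
        rw [eq_div_iff z0]
        exact h4
      have e2 : (z 4 : ℂ) * (ν / z 2 * (dw c / z 1)) = ν * dw c / z 0 := by
        rw [e1]
        field_simp
      have e3 : (z 4 : ℂ) * (dν / z 2 * (w c / z 1)) = dν * w c / z 0 := by
        rw [e1]
        field_simp
      rw [e2, e3]
      field_simp
      linear_combination h8
    · change (0 : ℂ) + 0 + du ia = 0
      rw [hui]
      ring
    · change (0 : ℂ) + 0 + dv ib = 0
      rw [hvi]
      ring
    · change (0 : ℂ) + 0 + hw c o (1 / z 0) (1 / z 1) dw ic = 0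
      have e : hw c o (1 / z 0) (1 / z 1) dw ic = 0 := by
        simp only [hw, hwi, mul_zero]
      rw [e]
      ring
  have h5 := hk h' (by
    refine Prod.ext (funext fun a => ?_) (Prod.ext (funext fun b => ?_)
      (Prod.ext (funext fun k => ?_) (funext c4')))
    · subst eh
      exact c1' a
    · subst eh
      exact c2' b
    · subst eh
      exact c3' k)
  rw [eh] at h5
  have eu : du = 0 := congrArg (fun t : PB A B C => t.1) h5
  have ev : dv = 0 := congrArg (fun t : PB A B C => t.2.1) h5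
  have ew : hw c o (1 / z 0) (1 / z 1) dw = 0 := congrArg (fun t : PB A B C => t.2.2.1) h5
  refine ⟨eu, ev, ?_⟩
  rw [← hid, ew]
  funext k
  simp only [hw, Pi.zero_apply, mul_zero]

/-- If the kernel of the local system is trivial, then the solution is nondegenerate.

Proof. Let `(du, dv, dw, dα, ..)` be in `KerB`. By `KerB.sub` we may assume `du ia = dv ib =
dw ic = 0`. Then
`(du, dv, hw c o (1 / z 0) (1 / z 1) dw, ![dα / μ, dβ / μ, dγ / μ, μ dθ, dν / lam, dq u du, dq v dv,
dq w dw, (dγ w o + γ dw o) / (μ ρo), c3 T du v o + c3 T u dv o])` is in the kernel of the local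
system at `ptB` (linearise the computation of `ptB_sol`), so it is zero. -/
theorem ptB_nd (hco : c ≠ o) (hs : s ≠ 0) (hz : ScB s z) {u : A → ℂ} {v : B → ℂ} {w : C → ℂ}
    {α β γ θ ν : ℂ} (h : BT T SA SB c o s u v w α β γ θ ν) (hu : u ia = 1) (hv : v ib = 1)
    (hw' : w ic = 1) (h1 : ic = o → z 0 = 1) (h2 : ic = c → z 1 = 1)
    (hk : ∀ h', bB T SA SB c o z (ptB T c o z u v w α β γ θ ν) h'
      + bB T SA SB c o z h' (ptB T c o z u v w α β γ θ ν) + lB SA SB c o ia ib ic z h' = 0 →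
      h' = 0) : NdB T SA SB c o s u v w α β γ θ ν := by
  intro du dv dw dα dβ dγ dθ dν hker
  have hker2 := KerB.sub h hker (du ia) (dv ib) (dw ic)
  have hfin := BTrn_ker hco hz hk hker2
    (by rw [Pi.sub_apply, Pi.smul_apply, smul_eq_mul, hu, mul_one, sub_self])
    (by rw [Pi.sub_apply, Pi.smul_apply, smul_eq_mul, hv, mul_one, sub_self])
    (by rw [Pi.sub_apply, Pi.smul_apply, smul_eq_mul, hw', mul_one, sub_self])
  exact ⟨⟨_, sub_eq_zero.1 hfin.1⟩, ⟨_, sub_eq_zero.1 hfin.2.1⟩, ⟨_, sub_eq_zero.1 hfin.2.2⟩⟩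

end

end Pool.Agent.MPb0eR
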