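import Mathlib
import Pool.Agent.Lib.MP_b0e20b_ag_R.BTrn

/-!
# MP_b0e20b_ag, project R: the limit kernels of the second level
-/

set_option autoImplicit false

open scoped BigOperators Topology
open Filter

namespace Pool.Agent.MPb0eR

section

variable {A B C : Type} [Fintype A] [Fintype B] [Fintype C] [DecidableEq A] [DecidableEq B]
  [DecidableEq C] {T : A → B → C → ℝ} {SA : Finset A} {SB : Finset B} {c o : C} {ia : A}
  {ib : B} {ic : C} {p : PB A B C}

/-- The equations of the linearised system. -/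
private structure KB1L (T : A → B → C → ℝ) (SA : Finset A) (SB : Finset B) (c o : C) (ia : A)
    (ib : B) (ic : C) (z : Fin 5 → ℝ) (u : A → ℂ) (v : B → ℂ) (w : C → ℂ) (l : Fin 10 → ℂ)
    (du : A → ℂ) (dv : B → ℂ) (dw : C → ℂ) (dl : Fin 10 → ℂ) : Prop where
  a1 : ∀ a ∈ SA, c1 T v (hw c o (z 0) (z 1) dw) a - (z 3 : ℂ) * (l 0 * du a) +
    (c1 T dv (hw c o (z 0) (z 1) w) a - (z 3 : ℂ) * (dl 0 * u a)) = 0
  a0 : ∀ a ∉ SA, du a = 0
  b1 : ∀ b ∈ SB, c2 T u (hw c o (z 0) (z 1) dw) b - (z 3 : ℂ) * (l 1 * dv b) +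
    (c2 T du (hw c o (z 0) (z 1) w) b - (z 3 : ℂ) * (dl 1 * v b)) = 0
  b0 : ∀ b ∉ SB, dv b = 0
  k0 : c3 T u dv o + c3 T du v o + - dl 9 = 0
  kc : c3 T u dv c - (z 3 : ℂ) * (z 1 : ℂ) * (l 2 * dw c) +
    (c3 T du v c - (z 3 : ℂ) * (z 1 : ℂ) * (dl 2 * w c)) + (z 2 : ℂ) * dl 4 = 0
  kn : ∀ k, k ≠ o → k ≠ c → c3 T u dv k - (z 3 : ℂ) * (l 2 * dw k) +
    (c3 T du v k - (z 3 : ℂ) * (dl 2 * w k)) + 0 = 0
  f0 : l 3 * dl 0 - l 6 * dl 7 + (dl 3 * l 0 - dl 6 * l 7) + 0 = 0
  f3 : ∑ a, u a * du a + ∑ a, du a * u a + - dl 5 = 0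
  f4 : ∑ b, v b * dv b + ∑ b, dv b * v b + - dl 6 = 0
  f5 : ∑ k, hw c o (z 0) (z 1) w k * hw c o (z 0) (z 1) dw k +
    ∑ k, hw c o (z 0) (z 1) dw k * hw c o (z 0) (z 1) w k + - dl 7 = 0
  f6 : l 2 * dw o + dl 2 * w o + - dl 8 = 0
  f7 : w o * dl 4 + dw o * l 4 + - dl 3 = 0
  f8 : (z 3 : ℂ) * (z 0 : ℂ) * (l 8 * dw o) - w o * dl 9 + (z 4 : ℂ) * (l 4 * dw c) +
    ((z 3 : ℂ) * (z 0 : ℂ) * (dl 8 * w o) - dw o * l 9 + (z 4 : ℂ) * (dl 4 * w c)) + 0 = 0
  f9 : du ia = 0
  f10 : dv ib = 0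
  f11 : dw ic = 0

private theorem KB1_lin (hco : c ≠ o) {z : Fin 5 → ℝ} {u : A → ℂ} {v : B → ℂ} {w : C → ℂ}
    {l : Fin 10 → ℂ} {du : A → ℂ} {dv : B → ℂ} {dw : C → ℂ} {dl : Fin 10 → ℂ}
    (hk : bB T SA SB c o z (u, v, w, l) (du, dv, dw, dl) +
      bB T SA SB c o z (du, dv, dw, dl) (u, v, w, l) +
      lB SA SB c o ia ib ic z (du, dv, dw, dl) = 0) :
    KB1L T SA SB c o ia ib ic z u v w l du dv dw dl := by
  have E1 : ∀ a, (if a ∈ SA then c1 T v (hw c o (z 0) (z 1) dw) a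
      - (z 3 : ℂ) * (l 0 * du a) else 0) + (if a ∈ SA then c1 T dv (hw c o (z 0) (z 1) w) a
      - (z 3 : ℂ) * (dl 0 * u a) else 0) + (if a ∈ SA then 0 else du a) = 0 :=
    fun a => congrFun (congrArg (fun x : QB A B C => x.1) hk) a
  have E2 : ∀ b, (if b ∈ SB then c2 T u (hw c o (z 0) (z 1) dw) b
      - (z 3 : ℂ) * (l 1 * dv b) else 0) + (if b ∈ SB then c2 T du (hw c o (z 0) (z 1) w) b
      - (z 3 : ℂ) * (dl 1 * v b) else 0) + (if b ∈ SB then 0 else dv b) = 0 :=
    fun b => congrFun (congrArg (fun x : QB A B C => x.2.1) hk) b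
  have E3 : ∀ k, (if k = o then c3 T u dv o
      else if k = c then c3 T u dv c - (z 3 : ℂ) * (z 1 : ℂ) * (l 2 * dw c)
      else c3 T u dv k - (z 3 : ℂ) * (l 2 * dw k)) + (if k = o then c3 T du v o
      else if k = c then c3 T du v c - (z 3 : ℂ) * (z 1 : ℂ) * (dl 2 * w c)
      else c3 T du v k - (z 3 : ℂ) * (dl 2 * w k)) +
      (if k = o then - dl 9 else if k = c then (z 2 : ℂ) * dl 4 else 0) = 0 :=
    fun k => congrFun (congrArg (fun x : QB A B C => x.2.2.1) hk) k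
  have E4 := congrArg (fun x : QB A B C => x.2.2.2) hk
  refine ⟨fun a ha => ?_, fun a ha => ?_, fun b hb => ?_, fun b hb => ?_, ?_, ?_,
    fun k h1 h2 => ?_, congrFun E4 0, congrFun E4 3, congrFun E4 4, congrFun E4 5,
    congrFun E4 6, congrFun E4 7, congrFun E4 8, ?_, ?_, ?_⟩
  · have h1 := E1 a
    rw [if_pos ha, if_pos ha, if_pos ha, add_zero] at h1
    exact h1
  · have h1 := E1 a
    rw [if_neg ha, if_neg ha, if_neg ha, add_zero, zero_add] at h1
    exact h1
  · have h1 := E2 b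
    rw [if_pos hb, if_pos hb, if_pos hb, add_zero] at h1
    exact h1
  · have h1 := E2 b
    rw [if_neg hb, if_neg hb, if_neg hb, add_zero, zero_add] at h1
    exact h1
  · have h1 := E3 o
    rw [if_pos rfl, if_pos rfl, if_pos rfl] at h1
    exact h1
  · have h1 := E3 c
    rw [if_neg hco, if_neg hco, if_neg hco, if_pos rfl, if_pos rfl, if_pos rfl] at h1
    exact h1
  · have h3 := E3 k
    rw [if_neg h1, if_neg h1, if_neg h1, if_neg h2, if_neg h2, if_neg h2] at h3
    exact h3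
  · have h1 : (0 : ℂ) + 0 + du ia = 0 := congrFun E4 9
    rw [add_zero, zero_add] at h1
    exact h1
  · have h1 : (0 : ℂ) + 0 + dv ib = 0 := congrFun E4 10
    rw [add_zero, zero_add] at h1
    exact h1
  · have h1 : (0 : ℂ) + 0 + dw ic = 0 := congrFun E4 11
    rw [add_zero, zero_add] at h1
    exact h1

/-- Some equations of the system. -/
private theorem KB1_sol {z : Fin 5 → ℝ} {u : A → ℂ} {v : B → ℂ} {w : C → ℂ} {l : Fin 10 → ℂ}
    (hk : bB T SA SB c o z (u, v, w, l) (u, v, w, l) + lB SA SB c o ia ib ic z (u, v, w, l) + kB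
      = 0) : ia ∈ SA ∧ ib ∈ SB ∧ u ia = 1 ∧ v ib = 1 ∧ w ic = 1 ∧
      (z 3 : ℂ) * (z 0 : ℂ) * (l 8 * w o) - w o * l 9 + (z 4 : ℂ) * (l 4 * w c) = 0 := by
  have E1 : ∀ a, (if a ∈ SA then c1 T v (hw c o (z 0) (z 1) w) a
      - (z 3 : ℂ) * (l 0 * u a) else 0) + (if a ∈ SA then 0 else u a) + 0 = 0 :=
    fun a => congrFun (congrArg (fun x : QB A B C => x.1) hk) a
  have E2 : ∀ b, (if b ∈ SB then c2 T u (hw c o (z 0) (z 1) w) b
      - (z 3 : ℂ) * (l 1 * v b) else 0) + (if b ∈ SB then 0 else v b) + 0 = 0 :=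
    fun b => congrFun (congrArg (fun x : QB A B C => x.2.1) hk) b
  have E4 := congrArg (fun x : QB A B C => x.2.2.2) hk
  have h9 : (0 : ℂ) + u ia + -1 = 0 := congrFun E4 9
  have h10 : (0 : ℂ) + v ib + -1 = 0 := congrFun E4 10
  have h11 : (0 : ℂ) + w ic + -1 = 0 := congrFun E4 11
  have h8 : (z 3 : ℂ) * (z 0 : ℂ) * (l 8 * w o) - w o * l 9 + (z 4 : ℂ) * (l 4 * w c) + 0 + 0
    = 0 := congrFun E4 8
  have hu : u ia = 1 := by linear_combination h9
  have hv : v ib = 1 := by linear_combination h10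
  have hw' : w ic = 1 := by linear_combination h11
  refine ⟨?_, ?_, hu, hv, hw', by linear_combination h8⟩
  · by_contra h
    have h1 := E1 ia
    rw [if_neg h, if_neg h, hu, zero_add, add_zero] at h1
    exact one_ne_zero h1
  · by_contra h
    have h1 := E2 ib
    rw [if_neg h, if_neg h, hv, zero_add, add_zero] at h1
    exact one_ne_zero h1

omit [Fintype C] in
private theorem KB1_hw11 (x : C → ℂ) : hw c o 1 1 x = x := by
  funext k
  unfold hw
  by_cases h1 : k = o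
  · rw [if_pos h1, Complex.ofReal_one, one_mul]
  · by_cases h2 : k = c
    · rw [if_neg h1, if_pos h2, Complex.ofReal_one, one_mul]
    · rw [if_neg h1, if_neg h2, Complex.ofReal_one, one_mul]

omit [Fintype C] in
private theorem KB1_hw01 (x : C → ℂ) {k : C} (h1 : k ≠ o) : hw c o 0 1 x k = x k := by
  unfold hw
  by_cases h2 : k = c
  · rw [if_neg h1, if_pos h2, Complex.ofReal_one, one_mul]
  · rw [if_neg h1, if_neg h2, Complex.ofReal_one, one_mul]

omit [Fintype C] in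
private theorem KB1_hw01o (x : C → ℂ) : hw c o 0 1 x o = 0 := by
  unfold hw
  rw [if_pos rfl, Complex.ofReal_zero, zero_mul]

/-- The kernel at `zA1 = ![1, 1, 0, 1, 0]`.

Proof. `hw c o 1 1` is the identity. Let `h = (du, dv, dw, dl)` be in the kernel. Then `du`, `dv`
are supported in the masks, and `du ia = dv ib = dw ic = 0`. The equations of the local system at
`zA1` for `p`: `κ = γ W_o` and `κ W_o - W_o g = 0`, so `g = κ`. The linearised ones:
`dκ = dγ W_o + γ dW_o` and `dκ W_o + κ dW_o - dW_o g - W_o dg = 0`, so `dg = dκ`; as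
`dg = c3 T du v o + c3 T u dv o`, this is the linearised equation `e3` at `o`; so
`(du, dv, dw, dα, dβ, dγ)` is in `Ker T SA SB univ`. By `nd` and the normalisation
`du = dv = dw = 0`; then `dα = dβ = dγ = 0` (equations at `ia ∈ SA`, `ib ∈ SB`, `ic`). So
`dg = dκ = 0`, `dqu = dqv = dqw = 0`. `Θ α = qv qw` gives `dΘ α = 0`, `dΘ = 0`; `W_o N = Θ` gives
`W_o dN = 0`, `dN = 0`. -/
theorem KA1 (hco : c ≠ o) (hsol : bB T SA SB c o zA1 p p + lB SA SB c o ia ib ic zA1 p + kB = 0)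
    (nd : Nd T SA SB Finset.univ p.1 p.2.1 p.2.2.1 (p.2.2.2 0) (p.2.2.2 1) (p.2.2.2 2))
    (hα : p.2.2.2 0 ≠ 0) (ho : p.2.2.1 o ≠ 0) (h : PB A B C)
    (hk : bB T SA SB c o zA1 p h + bB T SA SB c o zA1 h p + lB SA SB c o ia ib ic zA1 h = 0) :
    h = 0 := by
  obtain ⟨u, v, w, l⟩ := p
  obtain ⟨du, dv, dw, dl⟩ := h
  simp only at nd hα ho
  obtain ⟨hia, hib, hu, hv, hw', h8⟩ := KB1_sol hsol
  obtain ⟨a1, a0, b1, b0, k0, kc, kn, f0, f3, f4, f5, f6, f7, f8, f9, f10, f11⟩ := KB1_lin hco hk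
  have z0 : zA1 0 = 1 := rfl
  have z1 : zA1 1 = 1 := rfl
  have z2 : zA1 2 = 0 := rfl
  have z3 : zA1 3 = 1 := rfl
  have z4 : zA1 4 = 0 := rfl
  simp only [z0, z1, z2, z3, z4, KB1_hw11, Complex.ofReal_one, Complex.ofReal_zero, one_mul,
    zero_mul, add_zero] at a1 b1 kc kn f5 f8 h8
  have hg : l 9 = l 8 := by
    have h1 : w o * (l 8 - l 9) = 0 := by linear_combination h8
    have h2 := (mul_eq_zero.1 h1).resolve_left ho
    linear_combination -h2
  have hdg : dl 9 = dl 8 := by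
    have h1 : w o * (dl 8 - dl 9) = 0 := by
      rw [hg] at f8
      linear_combination f8
    have h2 := (mul_eq_zero.1 h1).resolve_left ho
    linear_combination -h2
  have hker : Ker T SA SB Finset.univ u v w (l 0) (l 1) (l 2) du dv dw (dl 0) (dl 1) (dl 2) := by
    refine ⟨a0, b0, fun k hk => absurd (Finset.mem_univ k) hk, fun a ha => ?_, fun b hb => ?_,
      fun k _ => ?_⟩
    · linear_combination a1 a ha
    · linear_combination b1 b hb
    · by_cases h1 : k = o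
      · rw [h1]
        linear_combination k0 - f6 + hdg
      · by_cases h2 : k = c
        · rw [h2]
          linear_combination kc
        · linear_combination kn k h1 h2
  obtain ⟨⟨r1, h1⟩, ⟨r2, h2⟩, ⟨r3, h3⟩⟩ := nd _ _ _ _ _ _ hker
  have g1 : du = 0 := by
    have h := congrFun h1 ia
    rw [Pi.smul_apply, f9, hu, smul_eq_mul, mul_one] at h
    rw [h1, ← h, zero_smul]
  have g2 : dv = 0 := by
    have h := congrFun h2 ib
    rw [Pi.smul_apply, f10, hv, smul_eq_mul, mul_one] at h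
    rw [h2, ← h, zero_smul]
  have g3 : dw = 0 := by
    have h := congrFun h3 ic
    rw [Pi.smul_apply, f11, hw', smul_eq_mul, mul_one] at h
    rw [h3, ← h, zero_smul]
  subst g1 g2 g3
  have n0 : dl 0 = 0 := by
    have h := hker.e1 ia hia
    rw [c1_zero_left, c1_zero_right, hu] at h
    simpa using h.symm
  have n1 : dl 1 = 0 := by
    have h := hker.e2 ib hib
    rw [c2_zero_left, c2_zero_right, hv] at h
    simpa using h.symm
  have n2 : dl 2 = 0 := by
    have h := hker.e3 ic (Finset.mem_univ _)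
    rw [c3_zero_left, c3_zero_right, hw'] at h
    simpa using h.symm
  have n9 : dl 9 = 0 := by
    rw [c3_zero_left, c3_zero_right] at k0
    simpa using k0
  have n8 : dl 8 = 0 := by rw [← hdg, n9]
  have n5 : dl 5 = 0 := by simpa using f3
  have n6 : dl 6 = 0 := by simpa using f4
  have n7 : dl 7 = 0 := by simpa using f5
  have n3 : dl 3 = 0 := by
    rw [n0, n6, n7] at f0
    have h : dl 3 * l 0 = 0 := by linear_combination f0
    exact (mul_eq_zero.1 h).resolve_right hα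
  have n4 : dl 4 = 0 := by
    have h : w o * dl 4 = 0 := by
      rw [n3, Pi.zero_apply] at f7
      linear_combination f7
    exact (mul_eq_zero.1 h).resolve_left ho
  have n : dl = 0 := by
    funext i
    fin_cases i
    · exact n0
    · exact n1
    · exact n2
    · exact n3
    · exact n4
    · exact n5
    · exact n6
    · exact n7
    · exact n8
    · exact n9
  rw [n]
  rfl

/-- The kernel at `zA2 = ![0, 1, 0, 1, 1]`.

Proof. Let `W = p.2.2.1` and `w = hw c o 0 1 W` (`W` with the coordinate `o` replaced by `0`). Let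
`h = (du, dv, dW, dl)` be in the kernel, `dw = hw c o 0 1 dW`. The equations with index `k ≠ o`
say that `(du, dv, dw, dα, dβ, dγ)` is in `Ker T SA SB (univ.erase o)`, so by `nd` and the
normalisation (`ic ≠ o`) `du = dv = dw = 0`, and `dα = dβ = dγ = 0`. So `dg = 0`,
`dqu = dqv = dqw = 0`, `dΘ = 0` (`α ≠ 0`). `W_o N = Θ` and `- W_o g + N W_c = 0` linearised
(`dW_c = 0`): `dW_o N + W_o dN = 0`, `- dW_o g + dN W_c = 0`. Multiply the first by `W_c` and use
the second and `W_o g = N W_c`: `dW_o N W_c + W_o dW_o g = 2 dW_o N W_c = 0`, so `dW_o = 0` and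
`dN = 0`. -/
theorem KA2 (hco : c ≠ o) (hsol : bB T SA SB c o zA2 p p + lB SA SB c o ia ib ic zA2 p + kB = 0)
    (nd : Nd T SA SB (Finset.univ.erase o) p.1 p.2.1 (hw c o 0 1 p.2.2.1) (p.2.2.2 0)
      (p.2.2.2 1) (p.2.2.2 2))
    (hα : p.2.2.2 0 ≠ 0) (hic : ic ≠ o) (hN : p.2.2.2 4 ≠ 0) (hc : p.2.2.1 c ≠ 0)
    (h : PB A B C)
    (hk : bB T SA SB c o zA2 p h + bB T SA SB c o zA2 h p + lB SA SB c o ia ib ic zA2 h = 0) :
    h = 0 := by
  obtain ⟨u, v, w, l⟩ := p
  obtain ⟨du, dv, dw, dl⟩ := h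
  simp only at nd hα hN hc
  obtain ⟨hia, hib, hu, hv, hw', h8⟩ := KB1_sol hsol
  obtain ⟨a1, a0, b1, b0, k0, kc, kn, f0, f3, f4, f5, f6, f7, f8, f9, f10, f11⟩ := KB1_lin hco hk
  have z0 : zA2 0 = 0 := rfl
  have z1 : zA2 1 = 1 := rfl
  have z2 : zA2 2 = 0 := rfl
  have z3 : zA2 3 = 1 := rfl
  have z4 : zA2 4 = 1 := rfl
  simp only [z0, z1, z2, z3, z4, Complex.ofReal_one, Complex.ofReal_zero, one_mul, mul_zero,
    zero_mul, add_zero, zero_sub] at a1 b1 kc kn f5 f8 h8
  have hker : Ker T SA SB (Finset.univ.erase o) u v (hw c o 0 1 w) (l 0) (l 1) (l 2) du dv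
      (hw c o 0 1 dw) (dl 0) (dl 1) (dl 2) := by
    refine ⟨a0, b0, fun k hk => ?_, fun a ha => ?_, fun b hb => ?_, fun k hk => ?_⟩
    · have h1 : k = o := by
        by_contra h
        exact hk (Finset.mem_erase.2 ⟨h, Finset.mem_univ _⟩)
      rw [h1, KB1_hw01o]
    · linear_combination a1 a ha
    · linear_combination b1 b hb
    · have h1 : k ≠ o := (Finset.mem_erase.1 hk).1
      rw [KB1_hw01 w h1, KB1_hw01 dw h1]
      by_cases h2 : k = c
      · rw [h2]
        linear_combination kc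
      · linear_combination kn k h1 h2
  obtain ⟨⟨r1, h1⟩, ⟨r2, h2⟩, ⟨r3, h3⟩⟩ := nd _ _ _ _ _ _ hker
  have g1 : du = 0 := by
    have h := congrFun h1 ia
    rw [Pi.smul_apply, f9, hu, smul_eq_mul, mul_one] at h
    rw [h1, ← h, zero_smul]
  have g2 : dv = 0 := by
    have h := congrFun h2 ib
    rw [Pi.smul_apply, f10, hv, smul_eq_mul, mul_one] at h
    rw [h2, ← h, zero_smul]
  have g3 : hw c o 0 1 dw = 0 := by
    have h := congrFun h3 ic
    rw [Pi.smul_apply, KB1_hw01 w hic, KB1_hw01 dw hic, f11, hw', smul_eq_mul, mul_one] at h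
    rw [h3, ← h, zero_smul]
  have g3' : ∀ k, k ≠ o → dw k = 0 := by
    intro k hk
    rw [← KB1_hw01 (c := c) dw hk, g3]
    rfl
  subst g1 g2
  have n0 : dl 0 = 0 := by
    have h := hker.e1 ia hia
    rw [g3, c1_zero_left, c1_zero_right, hu] at h
    simpa using h.symm
  have n1 : dl 1 = 0 := by
    have h := hker.e2 ib hib
    rw [g3, c2_zero_left, c2_zero_right, hv] at h
    simpa using h.symm
  have n2 : dl 2 = 0 := by
    have h := hker.e3 ic (Finset.mem_erase.2 ⟨hic, Finset.mem_univ _⟩)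
    rw [g3, c3_zero_left, c3_zero_right, KB1_hw01 w hic, hw'] at h
    simpa using h.symm
  have n9 : dl 9 = 0 := by
    rw [c3_zero_left, c3_zero_right] at k0
    simpa using k0
  have n5 : dl 5 = 0 := by simpa using f3
  have n6 : dl 6 = 0 := by simpa using f4
  have n7 : dl 7 = 0 := by
    rw [g3] at f5
    simpa using f5
  have n3 : dl 3 = 0 := by
    rw [n0, n6, n7] at f0
    have h : dl 3 * l 0 = 0 := by linear_combination f0
    exact (mul_eq_zero.1 h).resolve_right hα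
  have m : dw o = 0 := by
    rw [n3] at f7
    rw [n9, g3' c hco] at f8
    have h : 2 * (dw o * (l 4 * w c)) = 0 := by
      linear_combination w c * f7 - w o * f8 + dw o * h8
    have h' := (mul_eq_zero.1 h).resolve_left two_ne_zero
    exact (mul_eq_zero.1 h').resolve_right (mul_ne_zero hN hc)
  have n4 : dl 4 = 0 := by
    rw [n9, g3' c hco, m] at f8
    have h : dl 4 * w c = 0 := by linear_combination f8
    exact (mul_eq_zero.1 h).resolve_right hc
  have n8 : dl 8 = 0 := by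
    rw [m, n2] at f6
    linear_combination -f6
  have g4 : dw = 0 := by
    funext k
    by_cases hk : k = o
    · rw [hk, m]
      rfl
    · exact g3' k hk
  have n : dl = 0 := by
    funext i
    fin_cases i
    · exact n0
    · exact n1
    · exact n2
    · exact n3
    · exact n4
    · exact n5
    · exact n6
    · exact n7
    · exact n8
    · exact n9
  rw [n, g4]
  rfl

end

end Pool.Agent.MPb0eR
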