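import Mathlib
import Pool.Agent.Lib.MP_b0e20b_ag_R.QFin
import Pool.Agent.Lib.MP_b0e20b_ag_R.BQ
import Pool.Agent.Lib.MP_b0e20b_ag_R.KB1
import Pool.Agent.Lib.MP_b0e20b_ag_R.Cpt

/-!
# MP_b0e20b_ag, project R: limits of the second level with `ν → 0`
-/

set_option autoImplicit false

open scoped BigOperators Topology
open Filter

namespace Pool.Agent.MPb0eR

section

variable {A B C : Type} [Fintype A] [Fintype B] [Fintype C] [DecidableEq A] [DecidableEq B]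
  [DecidableEq C] {T : A → B → C → ℝ} {SA : Finset A} {SB : Finset B} {c o : C} {s : ℕ → ℝ}
  {ia : A} {ib : B} {ic : C} {u : ℕ → A → ℂ} {v : ℕ → B → ℂ} {w : ℕ → C → ℂ}
  {α β γ θ ν : ℕ → ℂ} {u0 : A → ℂ} {v0 : B → ℂ} {w0 : C → ℂ} {α0 β0 γ0 θ0 : ℂ}

private theorem RA1_mul {x y : ℂ} (hx : x.im = 0) (hy : y.im = 0) : (x * y).im = 0 := by
  rw [Complex.mul_im, hx, hy, mul_zero, zero_mul, add_zero]

private theorem RA1_div {x y : ℂ} (hx : x.im = 0) (hy : y.im = 0) : (x / y).im = 0 := by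
  have h1 : x = ((x.re : ℝ) : ℂ) := Complex.ext (Complex.ofReal_re _).symm
    (by rw [Complex.ofReal_im]; exact hx)
  have h2 : y = ((y.re : ℝ) : ℂ) := Complex.ext (Complex.ofReal_re _).symm
    (by rw [Complex.ofReal_im]; exact hy)
  rw [h1, h2, ← Complex.ofReal_div, Complex.ofReal_im]

private theorem RA1_q {A : Type} [Fintype A] {u : A → ℂ} (h : Rea u) : (q u).im = 0 := by
  rw [← Complex.conj_eq_iff_im, ← q_cj, (rea_iff u).1 h]

/-- A complex number with positive real square is real and not zero. -/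
private theorem RA1_real {x : ℂ} {r : ℝ} (hr : 0 < r) (h : x ^ 2 = (r : ℂ)) :
    x.im = 0 ∧ x ≠ 0 := by
  have h1 : x.re * x.re - x.im * x.im = r := by
    have h2 := congrArg Complex.re h
    rwa [pow_two, Complex.mul_re, Complex.ofReal_re] at h2
  have h3 : x.re * x.im + x.im * x.re = 0 := by
    have h2 := congrArg Complex.im h
    rwa [pow_two, Complex.mul_im, Complex.ofReal_im] at h2
  have h4 : x.im = 0 := by
    by_contra h5
    have h6 : x.re * x.im = 0 := by linarith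
    have h7 : x.re = 0 := (mul_eq_zero.1 h6).resolve_right h5
    rw [h7] at h1
    nlinarith [mul_self_nonneg x.im]
  refine ⟨h4, fun h5 => ?_⟩
  rw [h5, Complex.zero_re, Complex.zero_im] at h1
  linarith

omit [DecidableEq A] [DecidableEq B] in
/-- Limit of the points. -/
private theorem RA1_pt {z : ℕ → Fin 5 → ℝ} {W0 : C → ℂ} {m κ : ℂ} (hz : ∀ n, z n 3 = 1)
    (lv : Lv u v w u0 v0 w0) (lc : Lc α β γ α0 β0 γ0) (hθ : Tendsto θ uf (𝓝 θ0))
    (hW : Tendsto (fun n => hw c o (1 / z n 0) (1 / z n 1) (w n)) uf (𝓝 W0))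
    (hm : Tendsto (fun n => ν n / z n 2) uf (𝓝 m))
    (hκ : Tendsto (fun n => w n o / z n 0) uf (𝓝 κ)) :
    Tendsto (fun n => ptB T c o (z n) (u n) (v n) (w n) (α n) (β n) (γ n) (θ n) (ν n)) uf
      (𝓝 (u0, v0, W0, ![α0, β0, γ0, θ0, m, q u0, q v0, q w0, γ0 * κ, c3 T u0 v0 o])) := by
  refine lv.hu.prodMk_nhds (lv.hv.prodMk_nhds (hW.prodMk_nhds ?_))
  refine tendsto_pi_nhds.2 fun i => ?_
  fin_cases i
  · change Tendsto (fun n => α n / z n 3) uf (𝓝 α0)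
    simpa only [hz, Complex.ofReal_one, div_one] using lc.hα
  · change Tendsto (fun n => β n / z n 3) uf (𝓝 β0)
    simpa only [hz, Complex.ofReal_one, div_one] using lc.hβ
  · change Tendsto (fun n => γ n / z n 3) uf (𝓝 γ0)
    simpa only [hz, Complex.ofReal_one, div_one] using lc.hγ
  · change Tendsto (fun n => z n 3 * θ n) uf (𝓝 θ0)
    simpa only [hz, Complex.ofReal_one, one_mul] using hθ
  · exact hm
  · exact lim_q lv.hu
  · exact lim_q lv.hv
  · exact lim_q lv.hw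
  · change Tendsto (fun n => γ n / z n 3 * (w n o / z n 0)) uf (𝓝 (γ0 * κ))
    simpa only [hz, Complex.ofReal_one, div_one] using lc.hγ.mul hκ
  · exact lim_c3 lv.hu lv.hv o

/-- The common end of both proofs. -/
private theorem RA1_fin (hco : c ≠ o) (h : SqB T SA SB c o s ia ib ic u v w α β γ θ ν)
    {z : ℕ → Fin 5 → ℝ} {z0 : Fin 5 → ℝ} {p0 : PB A B C} (hz : ∀ n, ScB (s n) (z n))
    (hzl : Tendsto z uf (𝓝 z0))
    (hp : Tendsto (fun n => ptB T c o (z n) (u n) (v n) (w n) (α n) (β n) (γ n) (θ n) (ν n)) uf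
      (𝓝 p0)) (hr : cjB p0 = p0) (h1 : ∀ n, ic = o → z n 0 = 1) (h2 : ∀ n, ic = c → z n 1 = 1)
    (hk : bB T SA SB c o z0 p0 p0 + lB SA SB c o ia ib ic z0 p0 + kB = 0 → ∀ h',
      bB T SA SB c o z0 p0 h' + bB T SA SB c o z0 h' p0 + lB SA SB c o ia ib ic z0 h' = 0 →
      h' = 0) :
    ∀ᶠ n in uf, OkB T SA SB c o (s n) (u n) (v n) (w n) (α n) (β n) (γ n) (θ n) (ν n) := by
  have hQ := isQ_B T SA SB c o ia ib ic
  have hs : ∀ n, s n ≠ 0 := fun n => (h.pos n).ne'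
  have hsol := fun n => ptB_sol hco (hs n) (hz n) (h.sol n) (h.nu n).1 (h.nv n).1 (h.nw n).1
    (h1 n) (h2 n)
  have hlim : bB T SA SB c o z0 p0 p0 + lB SA SB c o ia ib ic z0 p0 + kB = 0 := by
    have e1 := (hQ.cb.tendsto (z0, p0, p0)).comp (hzl.prodMk_nhds (hp.prodMk_nhds hp))
    have e2 := (hQ.cl.tendsto (z0, p0)).comp (hzl.prodMk_nhds hp)
    have e3 := (e1.add e2).add_const kB
    refine tendsto_nhds_unique e3 ?_
    exact tendsto_const_nhds.congr fun n => (hsol n).symm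
  have hfin := IsQ.fin hQ kB cjB cjB_continuous
    (fun z p hp => cjB_sol T SA SB c o ia ib ic z p hp) z z0 _ p0 hzl hp
    (Eventually.of_forall hsol) hr (hk hlim)
  filter_upwards [hfin] with n hn
  obtain ⟨hc, hker⟩ := hn
  have ru : Rea (u n) := (rea_iff _).2 (congrArg (fun p : PB A B C => p.1) hc)
  have rv : Rea (v n) := (rea_iff _).2 (congrArg (fun p : PB A B C => p.2.1) hc)
  have rw0 : Rea (hw c o (1 / z n 0) (1 / z n 1) (w n)) :=
    (rea_iff _).2 (congrArg (fun p : PB A B C => p.2.2.1) hc)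
  have rw' : Rea (w n) := by
    rw [← hw_inv hco (hz n).h0 (hz n).h1 (w n)]
    intro k
    rw [hw, Complex.im_ofReal_mul, rw0 k, mul_zero]
  exact ⟨ru.rl, rv.rl, rw'.rl, ptB_nd hco (hs n) (hz n) (h.sol n) (h.nu n).1 (h.nv n).1
    (h.nw n).1 (h1 n) (h2 n) hker⟩

omit [DecidableEq A] [DecidableEq B] [DecidableEq C] in
/-- The limit point is real. -/
private theorem RA1_cj {W0 : C → ℂ} {m κ : ℂ} (ru : Rea u0) (rv : Rea v0) (rw' : Rea w0)
    (rW : Rea W0) (rα : α0.im = 0) (rβ : β0.im = 0) (rγ : γ0.im = 0) (rθ : θ0.im = 0)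
    (rm : m.im = 0) (rκ : κ.im = 0) :
    cjB ((u0, v0, W0, ![α0, β0, γ0, θ0, m, q u0, q v0, q w0, γ0 * κ, c3 T u0 v0 o]) : PB A B C)
      = (u0, v0, W0, ![α0, β0, γ0, θ0, m, q u0, q v0, q w0, γ0 * κ, c3 T u0 v0 o]) := by
  have h1 : Rea ![α0, β0, γ0, θ0, m, q u0, q v0, q w0, γ0 * κ, c3 T u0 v0 o] := by
    intro i
    fin_cases i
    · exact rα
    · exact rβ
    · exact rγ
    · exact rθ
    · exact rm
    · exact RA1_q ru
    · exact RA1_q rv
    · exact RA1_q rw'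
    · exact RA1_mul rγ rκ
    · exact c3_re T u0 v0 ru rv o
  rw [cjB]
  exact Prod.ext ((rea_iff _).1 ru) (Prod.ext ((rea_iff _).1 rv) (Prod.ext ((rea_iff _).1 rW)
    ((rea_iff _).1 h1)))

omit [DecidableEq A] [DecidableEq B] in
/-- The relations of the multipliers in the limit. -/
private theorem RA1_rel (h : SqB T SA SB c o s ia ib ic u v w α β γ θ ν)
    (lv : Lv u v w u0 v0 w0) (lc : Lc α β γ α0 β0 γ0) (hθ : Tendsto θ uf (𝓝 θ0)) :
    θ0 * α0 = q v0 * q w0 ∧ θ0 * γ0 = q u0 * q v0 := by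
  refine ⟨tendsto_nhds_unique (hθ.mul lc.hα) ?_, tendsto_nhds_unique (hθ.mul lc.hγ) ?_⟩
  · exact ((lim_q lv.hv).mul (lim_q lv.hw)).congr fun n => (h.sol n).e4.symm
  · exact ((lim_q lv.hu).mul (lim_q lv.hv)).congr fun n => (h.sol n).e6.symm

/-- Limits of the vectors of parameters. -/
private theorem RA1_z {a b c' : ℕ → ℝ} {a0 b0 c0 x y : ℝ} (ha : Tendsto a uf (𝓝 a0))
    (hb : Tendsto b uf (𝓝 b0)) (hc : Tendsto c' uf (𝓝 c0)) :
    Tendsto (fun n => ![a n, x, b n, y, c' n]) uf (𝓝 ![a0, x, b0, y, c0]) := by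
  refine tendsto_pi_nhds.2 fun i => ?_
  fin_cases i
  · exact ha
  · exact tendsto_const_nhds
  · exact hb
  · exact tendsto_const_nhds
  · exact hc

/-- Solutions with `ν → 0`, `θ → θ0 ≠ 0`, which converge to a singular tuple with `w0 o ≠ 0`.

Proof. Let `z n = ![1, 1, s n, 1, s n]`, so `ScB (s n) (z n)` and `z n → zA1`. `ν n / s n = θ n / w n o`
(`e7`) converges to `θ0 / w0 o`. So `p n = ptB T c o (z n) ..` converges to
`p0 = (u0, v0, w0, ![α0, β0, γ0, θ0, θ0 / w0 o, q u0, q v0, q w0, γ0 * w0 o, c3 T u0 v0 o])`, and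
`ptB_sol` holds for all `n`, so `p0` is a solution for `zA1` (limit; continuity from `isQ_B`). The
limit is real: `hf` and `Rl.rea` (normalised), `Tup.re`, `θ0 = q v0 * q w0 / α0` (`e4` in the limit).
`KA1` and `IsQ.fin` (with `cjB`): eventually `p n` is real and the kernel is trivial; so the vectors
are real (`Rea.rl`) and `ptB_nd` applies. -/
theorem RA1 (hco : c ≠ o) (h : SqB T SA SB c o s ia ib ic u v w α β γ θ ν)
    (lv : Lv u v w u0 v0 w0) (lc : Lc α β γ α0 β0 γ0) (hθ : Tendsto θ uf (𝓝 θ0)) (hθ0 : θ0 ≠ 0)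
    (ht : Tup T SA SB Finset.univ u0 v0 w0 α0 β0 γ0) (hf : FR T SA SB Finset.univ)
    (ho : w0 o ≠ 0) :
    ∀ᶠ n in uf, OkB T SA SB c o (s n) (u n) (v n) (w n) (α n) (β n) (γ n) (θ n) (ν n) := by
  have nu0 := Nrm.lim h.nu lv.hu
  have nv0 := Nrm.lim h.nv lv.hv
  have nw0 := Nrm.lim h.nw lv.hw
  have ok := hf u0 v0 w0 α0 β0 γ0 ht nu0.ne nv0.ne nw0.ne
  have ru := ok.ru.rea nu0.1
  have rv := ok.rv.rea nv0.1
  have rw' := ok.rw'.rea nw0.1
  obtain ⟨rα, rβ, rγ⟩ := ht.re nu0.1 nv0.1 nw0.1 ru rv rw'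
  obtain ⟨r1, -⟩ := RA1_rel h lv lc hθ
  have rθ : θ0.im = 0 := by
    rw [eq_div_of_mul_eq ok.hα r1]
    exact RA1_div (RA1_mul (RA1_q rv) (RA1_q rw')) rα
  have hwo : Tendsto (fun n => w n o) uf (𝓝 (w0 o)) := tendsto_pi_nhds.1 lv.hw o
  have hs : ∀ n, s n ≠ 0 := fun n => (h.pos n).ne'
  have hm : Tendsto (fun n => ν n / ((s n : ℝ) : ℂ)) uf (𝓝 (θ0 / w0 o)) := by
    refine (hθ.div hwo ho).congr fun n => ?_
    have e1 := (h.sol n).e7
    have e2 := ((h.sol n).ne (hs n)).1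
    have e3 : ((s n : ℝ) : ℂ) ≠ 0 := Complex.ofReal_ne_zero.2 (hs n)
    change θ n / w n o = _
    rw [div_eq_div_iff e2 e3, mul_comm (ν n), e1, mul_comm]
  have hhw : ∀ n, hw c o (1 / (1 : ℝ)) (1 / (1 : ℝ)) (w n) = w n := by
    intro n
    funext k
    simp [hw]
  have hpt : Tendsto (fun n => ptB T c o (![1, 1, s n, 1, s n] : Fin 5 → ℝ) (u n) (v n) (w n)
      (α n) (β n) (γ n) (θ n) (ν n)) uf
      (𝓝 (u0, v0, w0, ![α0, β0, γ0, θ0, θ0 / w0 o, q u0, q v0, q w0, γ0 * w0 o,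
        c3 T u0 v0 o])) := by
    refine RA1_pt (fun _ => rfl) lv lc hθ ?_ hm ?_
    · change Tendsto (fun n => hw c o (1 / (1 : ℝ)) (1 / (1 : ℝ)) (w n)) uf (𝓝 w0)
      simp only [hhw]
      exact lv.hw
    · change Tendsto (fun n => w n o / ((1 : ℝ) : ℂ)) uf (𝓝 (w0 o))
      simpa only [Complex.ofReal_one, div_one] using hwo
  have hz : Tendsto (fun n => (![1, 1, s n, 1, s n] : Fin 5 → ℝ)) uf (𝓝 zA1) :=
    RA1_z tendsto_const_nhds h.hs h.hs
  refine RA1_fin hco h (fun n => ⟨one_ne_zero, one_ne_zero, hs n, one_ne_zero, rfl, ?_⟩) hz hpt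
    (RA1_cj ru rv rw' rw' rα rβ rγ rθ (RA1_div rθ (rw' o)) (rw' o)) (fun _ _ => rfl)
    (fun _ _ => rfl) fun hsol => KA1 hco hsol ok.nd ok.hα ho
  change 1 * s n * 1 = s n
  rw [one_mul, mul_one]

/-- Solutions with `ν → 0`, `θ → θ0 ≠ 0`, which converge to a singular tuple of the mask without `o`.

Proof. Let `σ n = √(s n)`, `z n = ![σ n, 1, σ n, 1, 1]`, so `ScB (s n) (z n)` and `z n → zA2`.
`ic ≠ o` as `w0 ic = 1`, `w0 o = 0`. Let `W n = w n o / σ n`, `N n = ν n / σ n`, so `W N = θ` (`e7`).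
`e8` divided by `σ n`: `W * (c3 T u v o - γ * w o) = N * w c`; multiplied by `W`:
`W ^ 2 * (c3 T u v o - γ * w o) = θ * w c`. With `g0 = c3 T u0 v0 o = ρ * c3 T u0 v0 c =
ρ γ0 w0 c ≠ 0`, `ρ > 0` (`hdc`, `e3` at `c`), `W n ^ 2 → θ0 * w0 c / g0 = θ0 / (ρ γ0)`, and this
is a positive real number, because `θ0 * γ0 = q u0 * q v0 > 0` (`e6` in the limit; the vectors are
real by `hf`, `Rl.rea`; `q_pos`). So `W n` is bounded and converges (`ulim_c`) to a real nonzero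
number, `N n = θ / W` too. So `p n = ptB T c o (z n) ..` converges to a real solution `p0` for
`zA2`. `KA2` (`w0 c ≠ 0`, `hw c o 0 1` of the third vector is `w0`) and `IsQ.fin`, `ptB_nd` as
in `RA1`. -/
theorem RA2 (hco : c ≠ o) (h : SqB T SA SB c o s ia ib ic u v w α β γ θ ν)
    (lv : Lv u v w u0 v0 w0) (lc : Lc α β γ α0 β0 γ0) (hθ : Tendsto θ uf (𝓝 θ0)) (hθ0 : θ0 ≠ 0)
    (ht : Tup T SA SB (Finset.univ.erase o) u0 v0 w0 α0 β0 γ0)
    (hf : FR T SA SB (Finset.univ.erase o))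
    (hdc : c3 T u0 v0 c ≠ 0 ∧ ∃ ρ : ℝ, 0 < ρ ∧ c3 T u0 v0 o = ρ * c3 T u0 v0 c) :
    ∀ᶠ n in uf, OkB T SA SB c o (s n) (u n) (v n) (w n) (α n) (β n) (γ n) (θ n) (ν n) := by
  have nu0 := Nrm.lim h.nu lv.hu
  have nv0 := Nrm.lim h.nv lv.hv
  have nw0 := Nrm.lim h.nw lv.hw
  have ok := hf u0 v0 w0 α0 β0 γ0 ht nu0.ne nv0.ne nw0.ne
  have ru := ok.ru.rea nu0.1
  have rv := ok.rv.rea nv0.1
  have rw' := ok.rw'.rea nw0.1
  obtain ⟨rα, rβ, rγ⟩ := ht.re nu0.1 nv0.1 nw0.1 ru rv rw'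
  obtain ⟨r1, r2⟩ := RA1_rel h lv lc hθ
  have rθ : θ0.im = 0 := by
    rw [eq_div_of_mul_eq ok.hα r1]
    exact RA1_div (RA1_mul (RA1_q rv) (RA1_q rw')) rα
  have w0o : w0 o = 0 := ht.sw o (Finset.notMem_erase o Finset.univ)
  have hic : ic ≠ o := by
    rintro rfl
    exact zero_ne_one (w0o.symm.trans nw0.1)
  have hs : ∀ n, s n ≠ 0 := fun n => (h.pos n).ne'
  obtain ⟨hc0, ρ, hρ, hgρ⟩ := hdc
  have hec : c3 T u0 v0 c = γ0 * w0 c :=
    ht.e3 c (Finset.mem_erase.2 ⟨hco, Finset.mem_univ c⟩)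
  have hwc0 : w0 c ≠ 0 := by
    intro h0
    rw [hec, h0, mul_zero] at hc0
    exact hc0 rfl
  have hρ' : (ρ : ℂ) ≠ 0 := Complex.ofReal_ne_zero.2 hρ.ne'
  -- the square roots
  have hσ0 : ∀ n, Real.sqrt (s n) ≠ 0 := fun n => (Real.sqrt_pos.2 (h.pos n)).ne'
  have hσσ : ∀ n, Real.sqrt (s n) * Real.sqrt (s n) = s n := fun n =>
    Real.mul_self_sqrt (h.pos n).le
  have hσl : Tendsto (fun n => Real.sqrt (s n)) uf (𝓝 0) := by
    have e1 := (Real.continuous_sqrt.tendsto 0).comp h.hs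
    rwa [Real.sqrt_zero] at e1
  have hσc : ∀ n, ((Real.sqrt (s n) : ℝ) : ℂ) ≠ 0 := fun n =>
    Complex.ofReal_ne_zero.2 (hσ0 n)
  have hσs : ∀ n, ((Real.sqrt (s n) : ℝ) : ℂ) * ((Real.sqrt (s n) : ℝ) : ℂ) = ((s n : ℝ) : ℂ) :=
    fun n => by rw [← Complex.ofReal_mul, hσσ n]
  -- the scaled quantities
  have hWN : ∀ n, (w n o / ((Real.sqrt (s n) : ℝ) : ℂ)) * (ν n / ((Real.sqrt (s n) : ℝ) : ℂ))
      = θ n := by
    intro n
    rw [div_mul_div_comm, hσs n, (h.sol n).e7, mul_div_cancel_left₀]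
    exact Complex.ofReal_ne_zero.2 (hs n)
  have hW2 : ∀ n, (w n o / ((Real.sqrt (s n) : ℝ) : ℂ)) ^ 2
      * (c3 T (u n) (v n) o - γ n * w n o) = θ n * w n c := by
    intro n
    have e1 := (h.sol n).e8
    have e2 := (h.sol n).e7
    have e3 : ((s n : ℝ) : ℂ) ≠ 0 := Complex.ofReal_ne_zero.2 (hs n)
    rw [div_pow, pow_two ((Real.sqrt (s n) : ℝ) : ℂ), hσs n, div_mul_eq_mul_div,
      div_eq_iff e3]
    linear_combination -(w n o) * e1 + w n c * e2
  have hwo : Tendsto (fun n => w n o) uf (𝓝 0) := by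
    have e1 := tendsto_pi_nhds.1 lv.hw o
    rwa [w0o] at e1
  have hwc : Tendsto (fun n => w n c) uf (𝓝 (w0 c)) := tendsto_pi_nhds.1 lv.hw c
  have hg : Tendsto (fun n => c3 T (u n) (v n) o - γ n * w n o) uf
      (𝓝 ((ρ : ℂ) * (γ0 * w0 c))) := by
    have e1 := (lim_c3 (T := T) lv.hu lv.hv o).sub (lc.hγ.mul hwo)
    rw [mul_zero, sub_zero, hgρ, hec] at e1
    exact e1
  have hg0 : (ρ : ℂ) * (γ0 * w0 c) ≠ 0 := mul_ne_zero hρ' (mul_ne_zero ok.hγ hwc0)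
  obtain ⟨x, hx, hxq⟩ := q_pos ru nu0.ne
  obtain ⟨y, hy, hyq⟩ := q_pos rv nv0.ne
  have hγr : γ0 = ((γ0.re : ℝ) : ℂ) := Complex.ext (Complex.ofReal_re _).symm
    (by rw [Complex.ofReal_im]; exact rγ)
  have hγ' : γ0.re ≠ 0 := by
    intro h0
    rw [h0, Complex.ofReal_zero] at hγr
    exact ok.hγ hγr
  have hP : 0 < x * y / (ρ * (γ0.re * γ0.re)) :=
    div_pos (mul_pos hx hy) (mul_pos hρ (mul_self_pos.2 hγ'))
  have hPe : θ0 * w0 c / ((ρ : ℂ) * (γ0 * w0 c)) = ((x * y / (ρ * (γ0.re * γ0.re)) : ℝ) : ℂ) := by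
    rw [Complex.ofReal_div, Complex.ofReal_mul, Complex.ofReal_mul, Complex.ofReal_mul, ← hγr,
      ← hxq, ← hyq, ← r2, div_eq_div_iff hg0 (mul_ne_zero hρ' (mul_ne_zero ok.hγ ok.hγ))]
    ring
  have hWl : Tendsto (fun n => (w n o / ((Real.sqrt (s n) : ℝ) : ℂ)) ^ 2) uf
      (𝓝 ((x * y / (ρ * (γ0.re * γ0.re)) : ℝ) : ℂ)) := by
    rw [← hPe]
    refine ((hθ.mul hwc).div hg hg0).congr' ?_
    filter_upwards [hg.eventually_ne hg0] with n hn
    change θ n * w n c / (c3 T (u n) (v n) o - γ n * w n o) = _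
    rw [div_eq_iff hn, hW2 n]
  obtain ⟨W0, hW0⟩ := ulim_c (fun n => w n o / ((Real.sqrt (s n) : ℝ) : ℂ))
    (x * y / (ρ * (γ0.re * γ0.re)) + 2) (by
    have e1 := hWl.norm
    rw [Complex.norm_real, Real.norm_eq_abs, abs_of_pos hP] at e1
    filter_upwards [e1.eventually (gt_mem_nhds (lt_add_one _))] with n hn
    rw [norm_pow] at hn
    nlinarith [sq_nonneg (‖w n o / ((Real.sqrt (s n) : ℝ) : ℂ)‖ - 1),
      norm_nonneg (w n o / ((Real.sqrt (s n) : ℝ) : ℂ))])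
  have hWP : W0 ^ 2 = ((x * y / (ρ * (γ0.re * γ0.re)) : ℝ) : ℂ) :=
    tendsto_nhds_unique (hW0.pow 2) hWl
  obtain ⟨hWi, hWn⟩ := RA1_real hP hWP
  have hN : Tendsto (fun n => ν n / ((Real.sqrt (s n) : ℝ) : ℂ)) uf (𝓝 (θ0 / W0)) := by
    refine (hθ.div hW0 hWn).congr fun n => ?_
    have e1 : w n o / ((Real.sqrt (s n) : ℝ) : ℂ) ≠ 0 :=
      div_ne_zero ((h.sol n).ne (hs n)).1 (hσc n)
    change θ n / (w n o / ((Real.sqrt (s n) : ℝ) : ℂ)) = _
    rw [div_eq_iff e1, mul_comm, hWN n]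
  have hhw : ∀ n, hw c o (1 / Real.sqrt (s n)) (1 / (1 : ℝ)) (w n)
      = Function.update (w n) o (w n o / ((Real.sqrt (s n) : ℝ) : ℂ)) := by
    intro n
    funext k
    by_cases hk : k = o
    · subst hk
      rw [Function.update_self, hw, if_pos rfl, Complex.ofReal_div, Complex.ofReal_one,
        div_mul_eq_mul_div, one_mul]
    · rw [Function.update_of_ne hk, hw, if_neg hk, div_one, ite_self, Complex.ofReal_one,
        one_mul]
  have hpt : Tendsto (fun n => ptB T c o (![Real.sqrt (s n), 1, Real.sqrt (s n), 1, 1] :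
      Fin 5 → ℝ) (u n) (v n) (w n) (α n) (β n) (γ n) (θ n) (ν n)) uf
      (𝓝 (u0, v0, Function.update w0 o W0, ![α0, β0, γ0, θ0, θ0 / W0, q u0, q v0, q w0,
        γ0 * W0, c3 T u0 v0 o])) := by
    refine RA1_pt (fun _ => rfl) lv lc hθ ?_ hN hW0
    change Tendsto (fun n => hw c o (1 / Real.sqrt (s n)) (1 / (1 : ℝ)) (w n)) uf
      (𝓝 (Function.update w0 o W0))
    simp only [hhw]
    refine tendsto_pi_nhds.2 fun k => ?_
    by_cases hk : k = o
    · subst hk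
      simpa only [Function.update_self] using hW0
    · simpa only [Function.update_of_ne hk] using tendsto_pi_nhds.1 lv.hw k
  have hz : Tendsto (fun n => (![Real.sqrt (s n), 1, Real.sqrt (s n), 1, 1] : Fin 5 → ℝ)) uf
      (𝓝 zA2) := RA1_z hσl hσl tendsto_const_nhds
  have rW : Rea (Function.update w0 o W0) := by
    intro k
    by_cases hk : k = o
    · subst hk
      rw [Function.update_self]
      exact hWi
    · rw [Function.update_of_ne hk]
      exact rw' k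
  have hw0 : hw c o 0 1 (Function.update w0 o W0) = w0 := by
    funext k
    by_cases hk : k = o
    · subst hk
      rw [hw, if_pos rfl, Complex.ofReal_zero, zero_mul, w0o]
    · rw [hw, if_neg hk, ite_self, Complex.ofReal_one, one_mul, Function.update_of_ne hk]
  refine RA1_fin hco h (fun n => ⟨hσ0 n, one_ne_zero, hσ0 n, one_ne_zero, ?_, ?_⟩) hz hpt
    (RA1_cj ru rv rw' rW rα rβ rγ rθ (RA1_div rθ hWi) hWi) (fun _ h1 => absurd h1 hic)
    (fun _ _ => rfl) fun hsol => KA2 hco hsol ?_ ok.hα hic (div_ne_zero hθ0 hWn) ?_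
  · change 1 * Real.sqrt (s n) = Real.sqrt (s n) * 1
    rw [one_mul, mul_one]
  · change Real.sqrt (s n) * Real.sqrt (s n) * 1 = s n
    rw [mul_one, hσσ n]
  · change Nd T SA SB (Finset.univ.erase o) u0 v0 (hw c o 0 1 (Function.update w0 o W0)) α0 β0 γ0
    rw [hw0]
    exact ok.nd
  · change Function.update w0 o W0 c ≠ 0
    rw [Function.update_of_ne hco]
    exact hwc0

end

end Pool.Agent.MPb0eR
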