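import Mathlib
import Pool.Agent.Lib.MP_b0e20b_ag_R.BTrn

/-!
# MP_b0e20b_ag, project R: the limit kernels of the second level
-/

set_option autoImplicit false

open scoped BigOperators Topology
open Filter

namespace Pool.Agent.MPb0eR

section

variable {A B C : Type} [Fintype A] [Fintype B] [Fintype C] [DecidableEq A] [DecidableEq B]
  [DecidableEq C] {T : A → B → C → ℝ} {SA : Finset A} {SB : Finset B} {c o : C} {ia : A}
  {ib : B} {ic : C} {p : PB A B C}

omit [Fintype C] in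
private theorem KB2_o (x y : ℝ) (w : C → ℂ) : hw c o x y w o = (x : ℂ) * w o := by
  simp only [hw, if_true]

omit [Fintype C] in
private theorem KB2_c (hco : c ≠ o) (x y : ℝ) (w : C → ℂ) :
    hw c o x y w c = (y : ℂ) * w c := by
  simp only [hw, if_neg hco, if_true]

omit [Fintype C] in
private theorem KB2_n {k : C} (ho : k ≠ o) (hc : k ≠ c) (x y : ℝ) (w : C → ℂ) :
    hw c o x y w k = w k := by
  simp only [hw, if_neg ho, if_neg hc, Complex.ofReal_one, one_mul]

omit [Fintype C] in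
private theorem KB2_id (w : C → ℂ) : hw c o 1 1 w = w := by
  funext k
  simp [hw]

/-- A multiple of a vector which is one at an index, and which vanishes there, is zero. -/
private theorem KB2_z {A : Type} {u du : A → ℂ} {ia : A} (h : ∃ r : ℂ, du = r • u)
    (h1 : u ia = 1) (h0 : du ia = 0) : du = 0 := by
  obtain ⟨r, hr⟩ := h
  have h2 := congrFun hr ia
  rw [Pi.smul_apply, h0, h1, smul_eq_mul, mul_one] at h2
  rw [hr, ← h2, zero_smul]

private theorem KB2_mem {A : Type} {SA : Finset A} {u : A → ℂ} {ia : A} (h1 : u ia = 1)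
    (h : ∀ a, a ∉ SA → u a = 0) : ia ∈ SA := by
  by_contra hn
  rw [h ia hn] at h1
  exact zero_ne_one h1

/-- The kernel at `zBp = ![0, 0, 1, 1, 1]`.

Proof. Let `w = hw c o 0 0 W`, `W = p.2.2.1`. Let `h = (du, dv, dW, dl)` be in the kernel,
`dw = hw c o 0 0 dW`. The equations with index `k ≠ o, c` say that `(du, dv, dw, dα, dβ, dγ)` is in
`Ker T SA SB ((univ.erase o).erase c)`, so by `nd` and the normalisation (`ic ≠ o, c`)
`du = dv = dw = 0`, and `dα = dβ = dγ = 0`. So `dg = 0`, `dqu = dqv = dqw = 0`, `dΘ = 0` (`α ≠ 0`).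
The equation at `c` is `c3 T u v c + N = 0`, so `dN = 0`. `W_o N = Θ` gives `dW_o N = 0`, so
`dW_o = 0`; `- W_o g + N W_c = 0` gives `N dW_c = 0`, so `dW_c = 0`. -/
theorem KBp (hco : c ≠ o) (hsol : bB T SA SB c o zBp p p + lB SA SB c o ia ib ic zBp p + kB = 0)
    (nd : Nd T SA SB ((Finset.univ.erase o).erase c) p.1 p.2.1 (hw c o 0 0 p.2.2.1) (p.2.2.2 0)
      (p.2.2.2 1) (p.2.2.2 2))
    (hα : p.2.2.2 0 ≠ 0) (hic : ic ≠ o) (hic' : ic ≠ c) (hN : p.2.2.2 4 ≠ 0) (h : PB A B C)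
    (hk : bB T SA SB c o zBp p h + bB T SA SB c o zBp h p + lB SA SB c o ia ib ic zBp h = 0) :
    h = 0 := by
  obtain ⟨u, v, W, l⟩ := p
  obtain ⟨du, dv, dW, dl⟩ := h
  simp only at nd hα hN
  have z0 : zBp 0 = 0 := rfl
  have z1 : zBp 1 = 0 := rfl
  have z2 : zBp 2 = 1 := rfl
  have z3 : zBp 3 = 1 := rfl
  have z4 : zBp 4 = 1 := rfl
  -- the solution
  have S1 : ∀ a, a ∉ SA → u a = 0 := by
    intro a ha
    have h1 := congrFun (congrArg (fun x : QB A B C => x.1) hsol) a
    change (if a ∈ SA then _ else (0 : ℂ)) + (if a ∈ SA then 0 else u a) + 0 = 0 at h1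
    rw [if_neg ha, if_neg ha] at h1
    simpa using h1
  have S2 : ∀ b, b ∉ SB → v b = 0 := by
    intro b hb
    have h1 := congrFun (congrArg (fun x : QB A B C => x.2.1) hsol) b
    change (if b ∈ SB then _ else (0 : ℂ)) + (if b ∈ SB then 0 else v b) + 0 = 0 at h1
    rw [if_neg hb, if_neg hb] at h1
    simpa using h1
  have S9 : u ia = 1 := by
    have h1 := congrFun (congrArg (fun x : QB A B C => x.2.2.2) hsol) 9
    change (0 : ℂ) + u ia + -1 = 0 at h1
    linear_combination h1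
  have S10 : v ib = 1 := by
    have h1 := congrFun (congrArg (fun x : QB A B C => x.2.2.2) hsol) 10
    change (0 : ℂ) + v ib + -1 = 0 at h1
    linear_combination h1
  have S11 : W ic = 1 := by
    have h1 := congrFun (congrArg (fun x : QB A B C => x.2.2.2) hsol) 11
    change (0 : ℂ) + W ic + -1 = 0 at h1
    linear_combination h1
  -- the kernel
  have E1 : ∀ a, (if a ∈ SA then c1 T v (hw c o (zBp 0) (zBp 1) dW) a
      - (zBp 3 : ℂ) * (l 0 * du a) else 0) + (if a ∈ SA then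
      c1 T dv (hw c o (zBp 0) (zBp 1) W) a - (zBp 3 : ℂ) * (dl 0 * u a) else 0)
      + (if a ∈ SA then 0 else du a) = 0 :=
    fun a => congrFun (congrArg (fun x : QB A B C => x.1) hk) a
  have E2 : ∀ b, (if b ∈ SB then c2 T u (hw c o (zBp 0) (zBp 1) dW) b
      - (zBp 3 : ℂ) * (l 1 * dv b) else 0) + (if b ∈ SB then
      c2 T du (hw c o (zBp 0) (zBp 1) W) b - (zBp 3 : ℂ) * (dl 1 * v b) else 0)
      + (if b ∈ SB then 0 else dv b) = 0 :=
    fun b => congrFun (congrArg (fun x : QB A B C => x.2.1) hk) b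
  have E3 : ∀ k, (if k = o then c3 T u dv o
      else if k = c then c3 T u dv c - (zBp 3 : ℂ) * (zBp 1 : ℂ) * (l 2 * dW c)
      else c3 T u dv k - (zBp 3 : ℂ) * (l 2 * dW k)) +
      (if k = o then c3 T du v o
      else if k = c then c3 T du v c - (zBp 3 : ℂ) * (zBp 1 : ℂ) * (dl 2 * W c)
      else c3 T du v k - (zBp 3 : ℂ) * (dl 2 * W k)) +
      (if k = o then - dl 9 else if k = c then (zBp 2 : ℂ) * dl 4 else 0) = 0 :=
    fun k => congrFun (congrArg (fun x : QB A B C => x.2.2.1) hk) k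
  have E4 := congrArg (fun x : QB A B C => x.2.2.2) hk
  have L0 : l 3 * dl 0 - l 6 * dl 7 + (dl 3 * l 0 - dl 6 * l 7) + 0 = 0 := congrFun E4 0
  have L3 : ∑ a, u a * du a + ∑ a, du a * u a + - dl 5 = 0 := congrFun E4 3
  have L4 : ∑ b, v b * dv b + ∑ b, dv b * v b + - dl 6 = 0 := congrFun E4 4
  have L5 : ∑ k, hw c o (zBp 0) (zBp 1) W k * hw c o (zBp 0) (zBp 1) dW k
      + ∑ k, hw c o (zBp 0) (zBp 1) dW k * hw c o (zBp 0) (zBp 1) W k + - dl 7 = 0 :=
    congrFun E4 5
  have L6 : l 2 * dW o + dl 2 * W o + - dl 8 = 0 := congrFun E4 6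
  have L7 : W o * dl 4 + dW o * l 4 + - dl 3 = 0 := congrFun E4 7
  have L8 : (zBp 3 : ℂ) * (zBp 0 : ℂ) * (l 8 * dW o) - W o * dl 9 + (zBp 4 : ℂ) * (l 4 * dW c)
      + ((zBp 3 : ℂ) * (zBp 0 : ℂ) * (dl 8 * W o) - dW o * l 9 + (zBp 4 : ℂ) * (dl 4 * W c))
      + 0 = 0 := congrFun E4 8
  have L9 : (0 : ℂ) + 0 + du ia = 0 := congrFun E4 9
  have L10 : (0 : ℂ) + 0 + dv ib = 0 := congrFun E4 10
  have L11 : (0 : ℂ) + 0 + dW ic = 0 := congrFun E4 11
  rw [zero_add, zero_add] at L9 L10 L11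
  rw [z0, z1] at L5
  rw [z3, z0, z4] at L8
  have F1 : ∀ a ∈ SA, c1 T v (hw c o 0 0 dW) a - l 0 * du a +
      (c1 T dv (hw c o 0 0 W) a - dl 0 * u a) = 0 := by
    intro a ha
    have h1 := E1 a
    rw [if_pos ha, if_pos ha, if_pos ha, z0, z1, z3] at h1
    simpa using h1
  have F1' : ∀ a ∉ SA, du a = 0 := by
    intro a ha
    have h1 := E1 a
    rw [if_neg ha, if_neg ha, if_neg ha] at h1
    simpa using h1
  have F2 : ∀ b ∈ SB, c2 T u (hw c o 0 0 dW) b - l 1 * dv b +
      (c2 T du (hw c o 0 0 W) b - dl 1 * v b) = 0 := by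
    intro b hb
    have h1 := E2 b
    rw [if_pos hb, if_pos hb, if_pos hb, z0, z1, z3] at h1
    simpa using h1
  have F2' : ∀ b ∉ SB, dv b = 0 := by
    intro b hb
    have h1 := E2 b
    rw [if_neg hb, if_neg hb, if_neg hb] at h1
    simpa using h1
  have F3 : ∀ k, k ≠ o → k ≠ c → c3 T u dv k - l 2 * dW k + (c3 T du v k - dl 2 * W k) = 0 := by
    intro k h2 h3
    have h1 := E3 k
    rw [if_neg h2, if_neg h3, if_neg h2, if_neg h3, if_neg h2, if_neg h3, z3] at h1
    simpa using h1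
  have F3c : c3 T u dv c + c3 T du v c + dl 4 = 0 := by
    have h1 := E3 c
    rw [if_neg hco, if_pos rfl, if_neg hco, if_pos rfl, if_neg hco, if_pos rfl, z1, z2] at h1
    simpa using h1
  have F3o : c3 T u dv o + c3 T du v o + - dl 9 = 0 := by
    have h1 := E3 o
    rw [if_pos rfl, if_pos rfl, if_pos rfl] at h1
    exact h1
  have hker : Ker T SA SB ((Finset.univ.erase o).erase c) u v (hw c o 0 0 W) (l 0) (l 1) (l 2)
      du dv (hw c o 0 0 dW) (dl 0) (dl 1) (dl 2) := by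
    refine ⟨F1', F2', ?_, ?_, ?_, ?_⟩
    · intro k h1
      by_cases h2 : k = o
      · rw [h2, KB2_o, Complex.ofReal_zero, zero_mul]
      · by_cases h3 : k = c
        · rw [h3, KB2_c hco, Complex.ofReal_zero, zero_mul]
        · exact absurd (Finset.mem_erase.2 ⟨h3, Finset.mem_erase.2 ⟨h2, Finset.mem_univ _⟩⟩) h1
    · intro a ha
      linear_combination F1 a ha
    · intro b hb
      linear_combination F2 b hb
    · intro k h1
      rw [Finset.mem_erase, Finset.mem_erase] at h1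
      rw [KB2_n h1.2.1 h1.1, KB2_n h1.2.1 h1.1]
      linear_combination F3 k h1.2.1 h1.1
  obtain ⟨k1, k2, k3⟩ := nd _ _ _ _ _ _ hker
  have hdu : du = 0 := KB2_z k1 S9 L9
  have hdv : dv = 0 := KB2_z k2 S10 L10
  have hdw : hw c o 0 0 dW = 0 :=
    KB2_z k3 (by rw [KB2_n hic hic']; exact S11) (by rw [KB2_n hic hic']; exact L11)
  subst hdu hdv
  have n0 : dl 0 = 0 := by
    have h1 := F1 ia (KB2_mem S9 S1)
    rw [hdw, c1_zero_right, c1_zero_left, S9] at h1
    simpa using h1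
  have n1 : dl 1 = 0 := by
    have h1 := F2 ib (KB2_mem S10 S2)
    rw [hdw, c2_zero_right, c2_zero_left, S10] at h1
    simpa using h1
  have n2 : dl 2 = 0 := by
    have h1 := F3 ic hic hic'
    rw [c3_zero_right, c3_zero_left, L11, S11] at h1
    simpa using h1
  have n4 : dl 4 = 0 := by
    rw [c3_zero_right, c3_zero_left] at F3c
    simpa using F3c
  have n9 : dl 9 = 0 := by
    rw [c3_zero_right, c3_zero_left] at F3o
    simpa using F3o
  have n5 : dl 5 = 0 := by simpa using L3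
  have n6 : dl 6 = 0 := by simpa using L4
  have n7 : dl 7 = 0 := by
    rw [hdw] at L5
    simpa using L5
  have n3 : dl 3 = 0 := by
    rw [n0, n7, n6] at L0
    have h1 : dl 3 * l 0 = 0 := by linear_combination L0
    exact (mul_eq_zero.1 h1).resolve_right hα
  have m0 : dW o = 0 := by
    rw [n4, n3] at L7
    have h1 : dW o * l 4 = 0 := by linear_combination L7
    exact (mul_eq_zero.1 h1).resolve_right hN
  have mc : dW c = 0 := by
    rw [n9, m0, n4] at L8
    have h1 : l 4 * dW c = 0 := by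
      rw [Complex.ofReal_one, Complex.ofReal_zero] at L8
      linear_combination L8
    exact (mul_eq_zero.1 h1).resolve_left hN
  have n8 : dl 8 = 0 := by
    rw [m0, n2] at L6
    linear_combination - L6
  have m : dW = 0 := by
    funext k
    by_cases h2 : k = o
    · rw [h2, m0]
      rfl
    · by_cases h3 : k = c
      · rw [h3, mc]
        rfl
      · rw [← KB2_n (c := c) (o := o) h2 h3 0 0 dW, hdw]
  have n : dl = 0 := by
    funext i
    fin_cases i
    · exact n0
    · exact n1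
    · exact n2
    · exact n3
    · exact n4
    · exact n5
    · exact n6
    · exact n7
    · exact n8
    · exact n9
  rw [m, n]
  rfl

/-- Uniqueness of the first vector in the case `θ → ∞`.

Proof. Let `x = c3 T u v c ≠ 0`, `r = c3 T u' v c / x` and `u'' = u' - r u`. Then
`c3 T u'' v c = 0`. As `tr T u'' v w = ∑ a, u'' a * c1 T v w a = 0` (`tr_c1`) and also
`= ∑ k, w k * c3 T u'' v k = w o * c3 T u'' v o` (`tr_c3`), also `c3 T u'' v o = 0`. So
`Tup T SA SB univ u'' v w 0 0 0`, and `u'' = 0`, because otherwise `hf` gives `Ok.hα : 0 ≠ 0`. -/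
theorem uniqD (hf : FR T SA SB Finset.univ) {u u' : A → ℂ} {v : B → ℂ} {w : C → ℂ}
    (su : Sup SA u) (su' : Sup SA u') (sv : Sup SB v) (hv : v ≠ 0) (hw : w ≠ 0) (ho : w o ≠ 0)
    (h1 : ∀ a ∈ SA, c1 T v w a = 0) (h2 : ∀ b ∈ SB, c2 T u w b = 0)
    (h2' : ∀ b ∈ SB, c2 T u' w b = 0) (h3 : ∀ k, k ≠ o → k ≠ c → c3 T u v k = 0)
    (h3' : ∀ k, k ≠ o → k ≠ c → c3 T u' v k = 0) (hx : c3 T u v c ≠ 0) :
    ∃ r : ℂ, u' = r • u := by
  have hr : c3 T (u' + (-(c3 T u' v c / c3 T u v c)) • u) v c = 0 := by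
    rw [c3_add_left, c3_smul_left]
    field_simp
    ring
  have hk : ∀ k, k ≠ o → c3 T (u' + (-(c3 T u' v c / c3 T u v c)) • u) v k = 0 := by
    intro k h4
    by_cases h5 : k = c
    · rw [h5]
      exact hr
    · rw [c3_add_left, c3_smul_left, h3 k h4 h5, h3' k h4 h5, mul_zero, add_zero]
  have hs : Sup SA (u' + (-(c3 T u' v c / c3 T u v c)) • u) := by
    intro a ha
    rw [Pi.add_apply, Pi.smul_apply, su a ha, su' a ha, smul_zero, add_zero]
  have ht1 : tr T (u' + (-(c3 T u' v c / c3 T u v c)) • u) v w = 0 := by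
    rw [tr_c1]
    refine Finset.sum_eq_zero fun a _ => ?_
    by_cases ha : a ∈ SA
    · rw [h1 a ha, mul_zero]
    · rw [hs a ha, zero_mul]
  have ht2 : w o * c3 T (u' + (-(c3 T u' v c / c3 T u v c)) • u) v o = 0 := by
    rw [← ht1, tr_c3, Finset.sum_eq_single o]
    · intro k _ h4
      rw [hk k h4, mul_zero]
    · intro h4
      exact absurd (Finset.mem_univ _) h4
  have ho' := (mul_eq_zero.1 ht2).resolve_left ho
  have ht : Tup T SA SB Finset.univ (u' + (-(c3 T u' v c / c3 T u v c)) • u) v w 0 0 0 := by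
    refine ⟨hs, sv, fun k h4 => absurd (Finset.mem_univ _) h4, ?_, ?_, ?_⟩
    · intro a ha
      rw [h1 a ha, zero_mul]
    · intro b hb
      rw [c2_add_left, c2_smul_left, h2 b hb, h2' b hb, mul_zero, add_zero, zero_mul]
    · intro k _
      rw [zero_mul]
      by_cases h4 : k = o
      · rw [h4]
        exact ho'
      · exact hk k h4
  have h0 : u' + (-(c3 T u' v c / c3 T u v c)) • u = 0 := by
    by_contra hne
    exact (hf _ _ _ _ _ _ ht hne hv hw).hα rfl
  refine ⟨c3 T u' v c / c3 T u v c, ?_⟩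
  rw [neg_smul, ← sub_eq_add_neg] at h0
  exact sub_eq_zero.1 h0

/-- The kernel at `zDt = ![1, 1, 1, 0, 1]`.

Proof. `hw c o 1 1` is the identity; let `u, v, w, α, ..` be the components of `p`. The equations
for
`p` say `c1 T v w a = 0` on `SA`, `c2 T u w b = 0` on `SB`, `c3 T u v k = 0` for `k ≠ o, c`,
`c3 T u v c + N = 0`. Let `h = (du, dv, dw, dl)` be in the kernel. `c1 T dv w a + c1 T v dw a = 0`
on
`SA`: by `hV` `dv`, `dw` are multiples of `v`, `w`, so zero by the normalisation. So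
`c2 T du w b = 0` on `SB` and `c3 T du v k = 0` for `k ≠ o, c`, and `du` is a multiple of `u`
by `uniqD` (`c3 T u v c = - N ≠ 0`), so zero (`du ia = 0`). Then `dN = 0`, `dg = 0`,
`dqu = dqv = dqw = 0`, `W_o N = Θ`: `dΘ = 0`; `Θ dα = 0` and so on, so `dα = dβ = dγ = 0` (`Θ ≠ 0`),
and `dκ = 0`. -/
theorem KDt (hco : c ≠ o) (hsol : bB T SA SB c o zDt p p + lB SA SB c o ia ib ic zDt p + kB = 0)
    (hf : FR T SA SB Finset.univ) (hV : VR T SA SB Finset.univ) (ho : p.2.2.1 o ≠ 0)
    (hN : p.2.2.2 4 ≠ 0) (h : PB A B C)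
    (hk : bB T SA SB c o zDt p h + bB T SA SB c o zDt h p + lB SA SB c o ia ib ic zDt h = 0) :
    h = 0 := by
  obtain ⟨u, v, w, l⟩ := p
  obtain ⟨du, dv, dw, dl⟩ := h
  simp only at ho hN
  have z0 : zDt 0 = 1 := rfl
  have z1 : zDt 1 = 1 := rfl
  have z2 : zDt 2 = 1 := rfl
  have z3 : zDt 3 = 0 := rfl
  -- the solution
  have T1 : ∀ a, (if a ∈ SA then c1 T v (hw c o (zDt 0) (zDt 1) w) a
      - (zDt 3 : ℂ) * (l 0 * u a) else 0) + (if a ∈ SA then 0 else u a) + 0 = 0 :=
    fun a => congrFun (congrArg (fun x : QB A B C => x.1) hsol) a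
  have T2 : ∀ b, (if b ∈ SB then c2 T u (hw c o (zDt 0) (zDt 1) w) b
      - (zDt 3 : ℂ) * (l 1 * v b) else 0) + (if b ∈ SB then 0 else v b) + 0 = 0 :=
    fun b => congrFun (congrArg (fun x : QB A B C => x.2.1) hsol) b
  have T3 : ∀ k, (if k = o then c3 T u v o
      else if k = c then c3 T u v c - (zDt 3 : ℂ) * (zDt 1 : ℂ) * (l 2 * w c)
      else c3 T u v k - (zDt 3 : ℂ) * (l 2 * w k)) +
      (if k = o then - l 9 else if k = c then (zDt 2 : ℂ) * l 4 else 0) + 0 = 0 :=
    fun k => congrFun (congrArg (fun x : QB A B C => x.2.2.1) hsol) k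
  have S1 : ∀ a ∈ SA, c1 T v w a = 0 := by
    intro a ha
    have h1 := T1 a
    rw [if_pos ha, if_pos ha, z0, z1, z3, KB2_id] at h1
    simpa using h1
  have S1' : ∀ a, a ∉ SA → u a = 0 := by
    intro a ha
    have h1 := T1 a
    rw [if_neg ha, if_neg ha] at h1
    simpa using h1
  have S2 : ∀ b ∈ SB, c2 T u w b = 0 := by
    intro b hb
    have h1 := T2 b
    rw [if_pos hb, if_pos hb, z0, z1, z3, KB2_id] at h1
    simpa using h1
  have S2' : ∀ b, b ∉ SB → v b = 0 := by
    intro b hb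
    have h1 := T2 b
    rw [if_neg hb, if_neg hb] at h1
    simpa using h1
  have S3 : ∀ k, k ≠ o → k ≠ c → c3 T u v k = 0 := by
    intro k h2 h3
    have h1 := T3 k
    rw [if_neg h2, if_neg h3, if_neg h2, if_neg h3, z3] at h1
    simpa using h1
  have S3c : c3 T u v c + l 4 = 0 := by
    have h1 := T3 c
    rw [if_neg hco, if_pos rfl, if_neg hco, if_pos rfl, z3, z2] at h1
    simpa using h1
  have U4 := congrArg (fun x : QB A B C => x.2.2.2) hsol
  have S7 : w o * l 4 + - l 3 + 0 = 0 := congrFun U4 7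
  have S9 : u ia = 1 := by
    have h1 : (0 : ℂ) + u ia + -1 = 0 := congrFun U4 9
    linear_combination h1
  have S10 : v ib = 1 := by
    have h1 : (0 : ℂ) + v ib + -1 = 0 := congrFun U4 10
    linear_combination h1
  have S11 : w ic = 1 := by
    have h1 : (0 : ℂ) + w ic + -1 = 0 := congrFun U4 11
    linear_combination h1
  have hΘ : l 3 ≠ 0 := by
    have h1 : l 3 = w o * l 4 := by linear_combination - S7
    rw [h1]
    exact mul_ne_zero ho hN
  have hv : v ≠ 0 := by
    intro h1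
    rw [h1] at S10
    exact zero_ne_one S10
  have hw0 : w ≠ 0 := by
    intro h1
    rw [h1] at S11
    exact zero_ne_one S11
  -- the kernel
  have E1 : ∀ a, (if a ∈ SA then c1 T v (hw c o (zDt 0) (zDt 1) dw) a
      - (zDt 3 : ℂ) * (l 0 * du a) else 0) + (if a ∈ SA then
      c1 T dv (hw c o (zDt 0) (zDt 1) w) a - (zDt 3 : ℂ) * (dl 0 * u a) else 0)
      + (if a ∈ SA then 0 else du a) = 0 :=
    fun a => congrFun (congrArg (fun x : QB A B C => x.1) hk) a
  have E2 : ∀ b, (if b ∈ SB then c2 T u (hw c o (zDt 0) (zDt 1) dw) b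
      - (zDt 3 : ℂ) * (l 1 * dv b) else 0) + (if b ∈ SB then
      c2 T du (hw c o (zDt 0) (zDt 1) w) b - (zDt 3 : ℂ) * (dl 1 * v b) else 0)
      + (if b ∈ SB then 0 else dv b) = 0 :=
    fun b => congrFun (congrArg (fun x : QB A B C => x.2.1) hk) b
  have E3 : ∀ k, (if k = o then c3 T u dv o
      else if k = c then c3 T u dv c - (zDt 3 : ℂ) * (zDt 1 : ℂ) * (l 2 * dw c)
      else c3 T u dv k - (zDt 3 : ℂ) * (l 2 * dw k)) +
      (if k = o then c3 T du v o
      else if k = c then c3 T du v c - (zDt 3 : ℂ) * (zDt 1 : ℂ) * (dl 2 * w c)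
      else c3 T du v k - (zDt 3 : ℂ) * (dl 2 * w k)) +
      (if k = o then - dl 9 else if k = c then (zDt 2 : ℂ) * dl 4 else 0) = 0 :=
    fun k => congrFun (congrArg (fun x : QB A B C => x.2.2.1) hk) k
  have E4 := congrArg (fun x : QB A B C => x.2.2.2) hk
  have L0 : l 3 * dl 0 - l 6 * dl 7 + (dl 3 * l 0 - dl 6 * l 7) + 0 = 0 := congrFun E4 0
  have L1 : l 3 * dl 1 - l 5 * dl 7 + (dl 3 * l 1 - dl 5 * l 7) + 0 = 0 := congrFun E4 1
  have L2 : l 3 * dl 2 - l 5 * dl 6 + (dl 3 * l 2 - dl 5 * l 6) + 0 = 0 := congrFun E4 2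
  have L3 : ∑ a, u a * du a + ∑ a, du a * u a + - dl 5 = 0 := congrFun E4 3
  have L4 : ∑ b, v b * dv b + ∑ b, dv b * v b + - dl 6 = 0 := congrFun E4 4
  have L5 : ∑ k, hw c o (zDt 0) (zDt 1) w k * hw c o (zDt 0) (zDt 1) dw k
      + ∑ k, hw c o (zDt 0) (zDt 1) dw k * hw c o (zDt 0) (zDt 1) w k + - dl 7 = 0 :=
    congrFun E4 5
  have L6 : l 2 * dw o + dl 2 * w o + - dl 8 = 0 := congrFun E4 6
  have L7 : w o * dl 4 + dw o * l 4 + - dl 3 = 0 := congrFun E4 7
  have L9 : (0 : ℂ) + 0 + du ia = 0 := congrFun E4 9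
  have L10 : (0 : ℂ) + 0 + dv ib = 0 := congrFun E4 10
  have L11 : (0 : ℂ) + 0 + dw ic = 0 := congrFun E4 11
  rw [zero_add, zero_add] at L9 L10 L11
  rw [z0, z1] at L5
  have F1 : ∀ a ∈ SA, c1 T dv w a + c1 T v dw a = 0 := by
    intro a ha
    have h1 := E1 a
    rw [if_pos ha, if_pos ha, if_pos ha, z0, z1, z3, KB2_id, KB2_id] at h1
    rw [Complex.ofReal_zero, zero_mul, zero_mul] at h1
    linear_combination h1
  have F1' : ∀ a ∉ SA, du a = 0 := by
    intro a ha
    have h1 := E1 a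
    rw [if_neg ha, if_neg ha, if_neg ha] at h1
    simpa using h1
  have F2 : ∀ b ∈ SB, c2 T du w b + c2 T u dw b = 0 := by
    intro b hb
    have h1 := E2 b
    rw [if_pos hb, if_pos hb, if_pos hb, z0, z1, z3, KB2_id, KB2_id] at h1
    rw [Complex.ofReal_zero, zero_mul, zero_mul] at h1
    linear_combination h1
  have F2' : ∀ b ∉ SB, dv b = 0 := by
    intro b hb
    have h1 := E2 b
    rw [if_neg hb, if_neg hb, if_neg hb] at h1
    simpa using h1
  have F3 : ∀ k, k ≠ o → k ≠ c → c3 T u dv k + c3 T du v k = 0 := by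
    intro k h2 h3
    have h1 := E3 k
    rw [if_neg h2, if_neg h3, if_neg h2, if_neg h3, if_neg h2, if_neg h3, z3] at h1
    rw [Complex.ofReal_zero, zero_mul, zero_mul] at h1
    linear_combination h1
  have F3c : c3 T u dv c + c3 T du v c + dl 4 = 0 := by
    have h1 := E3 c
    rw [if_neg hco, if_pos rfl, if_neg hco, if_pos rfl, if_neg hco, if_pos rfl, z3, z2] at h1
    simpa using h1
  have F3o : c3 T u dv o + c3 T du v o + - dl 9 = 0 := by
    have h1 := E3 o
    rw [if_pos rfl, if_pos rfl, if_pos rfl] at h1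
    exact h1
  obtain ⟨-, -, hrig⟩ := hV v w S2' (fun k h1 => absurd (Finset.mem_univ _) h1) S1 hv hw0
  obtain ⟨k2, k3⟩ := hrig dv dw F2' (fun k h1 => absurd (Finset.mem_univ _) h1) F1
  have hdv : dv = 0 := KB2_z k2 S10 L10
  have hdw : dw = 0 := KB2_z k3 S11 L11
  subst hdv hdw
  have hx : c3 T u v c ≠ 0 := by
    have h1 : c3 T u v c = - l 4 := by linear_combination S3c
    rw [h1]
    exact neg_ne_zero.2 hN
  have k1 := uniqD (c := c) (o := o) hf S1' F1' S2' hv hw0 ho S1 S2 (fun b hb => by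
    have h1 := F2 b hb
    rw [c2_zero_right, add_zero] at h1
    exact h1) S3 (fun k h2 h3 => by
    have h1 := F3 k h2 h3
    rw [c3_zero_right, zero_add] at h1
    exact h1) hx
  have hdu : du = 0 := KB2_z k1 S9 L9
  subst hdu
  have n4 : dl 4 = 0 := by
    rw [c3_zero_right, c3_zero_left] at F3c
    simpa using F3c
  have n9 : dl 9 = 0 := by
    rw [c3_zero_right, c3_zero_left] at F3o
    simpa using F3o
  have n5 : dl 5 = 0 := by simpa using L3
  have n6 : dl 6 = 0 := by simpa using L4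
  have n7 : dl 7 = 0 := by
    rw [KB2_id, KB2_id] at L5
    simpa using L5
  have n3 : dl 3 = 0 := by
    rw [n4, Pi.zero_apply] at L7
    linear_combination - L7
  have n0 : dl 0 = 0 := by
    rw [n3, n7, n6] at L0
    have h1 : l 3 * dl 0 = 0 := by linear_combination L0
    exact (mul_eq_zero.1 h1).resolve_left hΘ
  have n1 : dl 1 = 0 := by
    rw [n3, n7, n5] at L1
    have h1 : l 3 * dl 1 = 0 := by linear_combination L1
    exact (mul_eq_zero.1 h1).resolve_left hΘ
  have n2 : dl 2 = 0 := by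
    rw [n3, n6, n5] at L2
    have h1 : l 3 * dl 2 = 0 := by linear_combination L2
    exact (mul_eq_zero.1 h1).resolve_left hΘ
  have n8 : dl 8 = 0 := by
    rw [n2, Pi.zero_apply] at L6
    linear_combination - L6
  have n : dl = 0 := by
    funext i
    fin_cases i
    · exact n0
    · exact n1
    · exact n2
    · exact n3
    · exact n4
    · exact n5
    · exact n6
    · exact n7
    · exact n8
    · exact n9
  rw [n]
  rfl

end

end Pool.Agent.MPb0eR
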