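import Mathlib
import Pool.Agent.Lib.MP_b0e20b_ag_R.QFin
import Pool.Agent.Lib.MP_b0e20b_ag_R.BQ
import Pool.Agent.Lib.MP_b0e20b_ag_R.KB2

/-!
# MP_b0e20b_ag, project R: limits of the second level, the other cases
-/

set_option autoImplicit false

open scoped BigOperators Topology
open Filter

namespace Pool.Agent.MPb0eR

section

variable {A B C : Type} [Fintype A] [Fintype B] [Fintype C] [DecidableEq A] [DecidableEq B]
  [DecidableEq C] {T : A → B → C → ℝ} {SA : Finset A} {SB : Finset B} {c o : C} {s : ℕ → ℝ}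
  {ia : A} {ib : B} {ic : C} {u : ℕ → A → ℂ} {v : ℕ → B → ℂ} {w : ℕ → C → ℂ}
  {α β γ θ ν : ℕ → ℂ} {u0 : A → ℂ} {v0 : B → ℂ} {w0 : C → ℂ} {α0 β0 γ0 θ0 ν0 : ℂ}

/-- The common part of the proofs: a sequence of points of the local system which converges to a
real point with trivial kernel. -/
private theorem RB1_gen (hco : c ≠ o) (h : SqB T SA SB c o s ia ib ic u v w α β γ θ ν)
    {z : ℕ → Fin 5 → ℝ} {z0 : Fin 5 → ℝ} {p0 : PB A B C} (hz : Tendsto z uf (𝓝 z0))
    (hSc : ∀ n, ScB (s n) (z n))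
    (hp : Tendsto (fun n => ptB T c o (z n) (u n) (v n) (w n) (α n) (β n) (γ n) (θ n) (ν n)) uf
      (𝓝 p0)) (h1 : ic = o → ∀ n, z n 0 = 1) (h2 : ic = c → ∀ n, z n 1 = 1)
    (hr : cjB p0 = p0)
    (hk : bB T SA SB c o z0 p0 p0 + lB SA SB c o ia ib ic z0 p0 + kB = 0 → ∀ h',
      bB T SA SB c o z0 p0 h' + bB T SA SB c o z0 h' p0 + lB SA SB c o ia ib ic z0 h' = 0 →
      h' = 0) :
    ∀ᶠ n in uf, OkB T SA SB c o (s n) (u n) (v n) (w n) (α n) (β n) (γ n) (θ n) (ν n) := by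
  have hQ : IsQ (bB T SA SB c o) (lB SA SB c o ia ib ic) := isQ_B T SA SB c o ia ib ic
  have hs0 : ∀ n, s n ≠ 0 := fun n => (h.pos n).ne'
  have hsol : ∀ n, bB T SA SB c o (z n)
      (ptB T c o (z n) (u n) (v n) (w n) (α n) (β n) (γ n) (θ n) (ν n))
      (ptB T c o (z n) (u n) (v n) (w n) (α n) (β n) (γ n) (θ n) (ν n))
      + lB SA SB c o ia ib ic (z n)
        (ptB T c o (z n) (u n) (v n) (w n) (α n) (β n) (γ n) (θ n) (ν n)) + kB = 0 := fun n =>
    ptB_sol hco (hs0 n) (hSc n) (h.sol n) (h.nu n).1 (h.nv n).1 (h.nw n).1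
      (fun e => h1 e n) (fun e => h2 e n)
  have hlim : bB T SA SB c o z0 p0 p0 + lB SA SB c o ia ib ic z0 p0 + kB = 0 := by
    have e1 := (hQ.cb.tendsto (z0, p0, p0)).comp (hz.prodMk_nhds (hp.prodMk_nhds hp))
    have e2 := (hQ.cl.tendsto (z0, p0)).comp (hz.prodMk_nhds hp)
    have e3 := (e1.add e2).add_const (kB : QB A B C)
    refine tendsto_nhds_unique e3 ?_
    refine Tendsto.congr (fun n => ?_) tendsto_const_nhds
    exact (hsol n).symm
  have hfin := IsQ.fin hQ kB cjB cjB_continuous (cjB_sol T SA SB c o ia ib ic) z z0 _ p0 hz hp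
    (Eventually.of_forall hsol) hr (hk hlim)
  filter_upwards [hfin] with n hn
  obtain ⟨hc, hkn⟩ := hn
  have eu : cj (u n) = u n := congrArg (fun t : PB A B C => t.1) hc
  have ev : cj (v n) = v n := congrArg (fun t : PB A B C => t.2.1) hc
  have ew : cj (hw c o (1 / z n 0) (1 / z n 1) (w n)) = hw c o (1 / z n 0) (1 / z n 1) (w n) :=
    congrArg (fun t : PB A B C => t.2.2.1) hc
  have rw1 : Rea (hw c o (1 / z n 0) (1 / z n 1) (w n)) := (rea_iff _).2 ew
  have rw2 : Rea (w n) := by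
    intro k
    have e1 := congrFun (hw_inv hco (hSc n).h0 (hSc n).h1 (w n)) k
    rw [← e1]
    simp only [hw]
    rw [Complex.im_ofReal_mul]
    have e2 := rw1 k
    simp only [hw] at e2
    rw [e2, mul_zero]
  exact ⟨((rea_iff _).2 eu).rl, ((rea_iff _).2 ev).rl, rw2.rl,
    ptB_nd hco (hs0 n) (hSc n) (h.sol n) (h.nu n).1 (h.nv n).1 (h.nw n).1
      (fun e => h1 e n) (fun e => h2 e n) hkn⟩

private theorem RB1_cj {A : Type} [Fintype A] {u : A → ℂ} (h : Rea u) : cj u = u :=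
  (rea_iff u).1 h

private theorem RB1_qre {A : Type} [Fintype A] {u : A → ℂ} (h : Rea u) : (q u).im = 0 := by
  have e : starRingEnd ℂ (q u) = q u := by
    rw [← q_cj, (rea_iff u).1 h]
  exact Complex.conj_eq_iff_im.1 e

private theorem RB1_mul {x y : ℂ} (hx : x.im = 0) (hy : y.im = 0) : (x * y).im = 0 := by
  rw [Complex.mul_im, hx, hy]
  ring

private theorem RB1_div {x y : ℂ} (hx : x.im = 0) (hy : y.im = 0) : (x / y).im = 0 := by
  rw [Complex.div_im, hx, hy]
  ring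

private theorem RB1_sub {x y : ℂ} (hx : x.im = 0) (hy : y.im = 0) : (x - y).im = 0 := by
  rw [Complex.sub_im, hx, hy]
  ring

/-- Solutions with `ν → ν0 ≠ 0`, `θ → θ0 ≠ 0`, which converge to a singular tuple of the mask
without `o` and `c`.

Proof. Let `z n = ![s n, s n, 1, 1, 1]`, so `ScB (s n) (z n)` and `z n → zBp`. `ic ≠ o, c` as
`w0 ic = 1`. `w n o / s n = θ / ν` (`e7`) converges to `θ0 / ν0`. `e8` divided by `s n`:
`γ * w o * (w o / s) = (w o / s) * c3 T u v o - ν * (w c / s)`, so `w n c / s n` converges to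
`(θ0 / ν0) * c3 T u0 v0 o / ν0`. So `p n = ptB T c o (z n) ..` converges to a solution `p0` for
`zBp`; in particular `c3 T u0 v0 c + ν0 = 0`. It is real: `hf`, `Rl.rea`, `Tup.re`,
`ν0 = - c3 T u0 v0 c`, `θ0 = q v0 * q w0 / α0`. `KBp` and `IsQ.fin`, `ptB_nd` as in `RA1`. -/
theorem RBp (hco : c ≠ o) (h : SqB T SA SB c o s ia ib ic u v w α β γ θ ν)
    (lv : Lv u v w u0 v0 w0) (lc : Lc α β γ α0 β0 γ0) (hθ : Tendsto θ uf (𝓝 θ0)) (hθ0 : θ0 ≠ 0)
    (hν : Tendsto ν uf (𝓝 ν0)) (hν0 : ν0 ≠ 0)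
    (ht : Tup T SA SB ((Finset.univ.erase o).erase c) u0 v0 w0 α0 β0 γ0)
    (hf : FR T SA SB ((Finset.univ.erase o).erase c)) :
    ∀ᶠ n in uf, OkB T SA SB c o (s n) (u n) (v n) (w n) (α n) (β n) (γ n) (θ n) (ν n) := by
  have nu : Nrm u0 ia := Nrm.lim h.nu lv.hu
  have nv : Nrm v0 ib := Nrm.lim h.nv lv.hv
  have nw : Nrm w0 ic := Nrm.lim h.nw lv.hw
  have w0o : w0 o = 0 := ht.sw o (by simp)
  have w0c : w0 c = 0 := ht.sw c (by simp)
  have hic : ic ≠ o := by
    rintro rfl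
    exact one_ne_zero (nw.1.symm.trans w0o)
  have hic' : ic ≠ c := by
    rintro rfl
    exact one_ne_zero (nw.1.symm.trans w0c)
  have ok := hf _ _ _ _ _ _ ht nu.ne nv.ne nw.ne
  have ru : Rea u0 := ok.ru.rea nu.1
  have rv : Rea v0 := ok.rv.rea nv.1
  have rw' : Rea w0 := ok.rw'.rea nw.1
  obtain ⟨rα, rβ, rγ⟩ := ht.re nu.1 nv.1 nw.1 ru rv rw'
  have hs0 : ∀ n, (s n : ℂ) ≠ 0 := fun n => Complex.ofReal_ne_zero.2 (h.pos n).ne'
  have lo : Tendsto (fun n => w n o) uf (𝓝 (w0 o)) := (tendsto_pi_nhds.1 lv.hw) o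
  have lcc : Tendsto (fun n => w n c) uf (𝓝 (w0 c)) := (tendsto_pi_nhds.1 lv.hw) c
  have l3o : Tendsto (fun n => c3 T (u n) (v n) o) uf (𝓝 (c3 T u0 v0 o)) :=
    lim_c3 lv.hu lv.hv o
  have l3c : Tendsto (fun n => c3 T (u n) (v n) c) uf (𝓝 (c3 T u0 v0 c)) :=
    lim_c3 lv.hu lv.hv c
  have lqu : Tendsto (fun n => q (u n)) uf (𝓝 (q u0)) := lim_q lv.hu
  have lqv : Tendsto (fun n => q (v n)) uf (𝓝 (q v0)) := lim_q lv.hv
  have lqw : Tendsto (fun n => q (w n)) uf (𝓝 (q w0)) := lim_q lv.hw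
  have hne := hν.eventually_ne hν0
  -- the scaled coordinates
  have lWo : Tendsto (fun n => w n o / (s n : ℂ)) uf (𝓝 (θ0 / ν0)) := by
    refine (hθ.div hν hν0).congr' ?_
    filter_upwards [hne] with n hn
    change θ n / ν n = w n o / s n
    rw [div_eq_div_iff hn (hs0 n)]
    linear_combination (-1 : ℂ) * (h.sol n).e7
  have lWc : Tendsto (fun n => w n c / (s n : ℂ)) uf
      (𝓝 (θ0 / ν0 * (c3 T u0 v0 o - γ0 * w0 o) / ν0)) := by
    refine ((lWo.mul (l3o.sub (lc.hγ.mul lo))).div hν hν0).congr' ?_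
    filter_upwards [hne] with n hn
    change w n o / s n * (c3 T (u n) (v n) o - γ n * w n o) / ν n = w n c / s n
    have h8 := (h.sol n).e8
    have hsn := hs0 n
    rw [div_mul_eq_mul_div, div_div, div_eq_div_iff (mul_ne_zero hsn hn) hsn]
    linear_combination (-(s n : ℂ)) * h8
  -- the equation for ν0
  have hν3 : ν0 = 0 - c3 T u0 v0 c := by
    have e1 : Tendsto (fun n => c3 T (u n) (v n) c + ν n) uf (𝓝 (c3 T u0 v0 c + ν0)) :=
      l3c.add hν
    have e2 : Tendsto (fun n => c3 T (u n) (v n) c + ν n) uf (𝓝 (γ0 * w0 c)) := by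
      refine (lc.hγ.mul lcc).congr fun n => ?_
      have e3 := (h.sol n).e3 c hco
      rw [if_pos rfl] at e3
      exact e3.symm
    have e4 := tendsto_nhds_unique e1 e2
    rw [w0c, mul_zero] at e4
    linear_combination e4
  have r3c : (c3 T u0 v0 c).im = 0 := c3_re T u0 v0 ru rv c
  have r3o : (c3 T u0 v0 o).im = 0 := c3_re T u0 v0 ru rv o
  have rν : ν0.im = 0 := by
    rw [hν3]
    exact RB1_sub Complex.zero_im r3c
  have hθα : θ0 * α0 = q v0 * q w0 := by
    have e1 : Tendsto (fun n => θ n * α n) uf (𝓝 (θ0 * α0)) := hθ.mul lc.hα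
    have e2 : Tendsto (fun n => θ n * α n) uf (𝓝 (q v0 * q w0)) :=
      (lqv.mul lqw).congr fun n => ((h.sol n).e4).symm
    exact tendsto_nhds_unique e1 e2
  have rθ : θ0.im = 0 := by
    have e1 : θ0 = q v0 * q w0 / α0 := by
      rw [eq_div_iff ok.hα]
      exact hθα
    rw [e1]
    exact RB1_div (RB1_mul (RB1_qre rv) (RB1_qre rw')) rα
  -- the limit
  obtain ⟨Wc, hWc⟩ : ∃ Wc : ℂ, Wc = θ0 / ν0 * (c3 T u0 v0 o - γ0 * w0 o) / ν0 := ⟨_, rfl⟩
  have rWc : Wc.im = 0 := by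
    rw [hWc]
    exact RB1_div (RB1_mul (RB1_div rθ rν) (RB1_sub r3o (RB1_mul rγ (rw' o)))) rν
  obtain ⟨W0, hW0⟩ : ∃ W0 : C → ℂ, W0 = fun k => if k = o then θ0 / ν0 else
    if k = c then Wc else w0 k := ⟨_, rfl⟩
  have rW0 : Rea W0 := by
    intro k
    rw [hW0]
    change (if k = o then θ0 / ν0 else if k = c then Wc else w0 k).im = 0
    split_ifs
    · exact RB1_div rθ rν
    · exact rWc
    · exact rw' k
  have hWw : hw c o 0 0 W0 = w0 := by
    funext k
    rw [hW0]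
    simp only [hw]
    by_cases hko : k = o
    · rw [if_pos hko, hko, w0o, Complex.ofReal_zero, zero_mul]
    · by_cases hkc : k = c
      · rw [if_neg hko, if_pos hkc, hkc, w0c, Complex.ofReal_zero, zero_mul]
      · rw [if_neg hko, if_neg hkc, if_neg hko, if_neg hkc, Complex.ofReal_one, one_mul]
  have lz : Tendsto (fun n => (![s n, s n, 1, 1, 1] : Fin 5 → ℝ)) uf (𝓝 zBp) := by
    rw [tendsto_pi_nhds]
    intro i
    fin_cases i
    · exact h.hs
    · exact h.hs
    · exact tendsto_const_nhds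
    · exact tendsto_const_nhds
    · exact tendsto_const_nhds
  have lp : Tendsto (fun n => ptB T c o ![s n, s n, 1, 1, 1] (u n) (v n) (w n) (α n) (β n) (γ n)
      (θ n) (ν n)) uf (𝓝 ((u0, v0, W0, ![α0, β0, γ0, θ0, ν0, q u0, q v0, q w0,
        γ0 * (θ0 / ν0), c3 T u0 v0 o]) : PB A B C)) := by
    refine lv.hu.prodMk_nhds (lv.hv.prodMk_nhds (Tendsto.prodMk_nhds ?_ ?_))
    · rw [tendsto_pi_nhds]
      intro k
      by_cases hko : k = o
      · subst hko
        have e1 : W0 k = θ0 / ν0 := by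
          rw [hW0]
          exact if_pos rfl
        rw [e1]
        refine lWo.congr fun n => ?_
        simp only [hw, if_true]
        change w n k / (s n : ℂ) = ((1 / s n : ℝ) : ℂ) * w n k
        push_cast
        ring
      · by_cases hkc : k = c
        · subst hkc
          have e1 : W0 k = Wc := by
            rw [hW0]
            change (if k = o then θ0 / ν0 else if k = k then Wc else w0 k) = Wc
            rw [if_neg hko, if_pos rfl]
          rw [e1, hWc]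
          refine lWc.congr fun n => ?_
          simp only [hw, if_neg hko, if_true]
          change w n k / (s n : ℂ) = ((1 / s n : ℝ) : ℂ) * w n k
          push_cast
          ring
        · have e1 : W0 k = w0 k := by
            rw [hW0]
            change (if k = o then θ0 / ν0 else if k = c then Wc else w0 k) = w0 k
            rw [if_neg hko, if_neg hkc]
          rw [e1]
          refine ((tendsto_pi_nhds.1 lv.hw) k).congr fun n => ?_
          simp only [hw, if_neg hko, if_neg hkc, Complex.ofReal_one, one_mul]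
    · rw [tendsto_pi_nhds]
      intro i
      fin_cases i
      · refine lc.hα.congr fun n => ?_
        change α n = α n / ((1 : ℝ) : ℂ)
        rw [Complex.ofReal_one, div_one]
      · refine lc.hβ.congr fun n => ?_
        change β n = β n / ((1 : ℝ) : ℂ)
        rw [Complex.ofReal_one, div_one]
      · refine lc.hγ.congr fun n => ?_
        change γ n = γ n / ((1 : ℝ) : ℂ)
        rw [Complex.ofReal_one, div_one]
      · refine hθ.congr fun n => ?_
        change θ n = ((1 : ℝ) : ℂ) * θ n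
        rw [Complex.ofReal_one, one_mul]
      · refine hν.congr fun n => ?_
        change ν n = ν n / ((1 : ℝ) : ℂ)
        rw [Complex.ofReal_one, div_one]
      · exact lqu
      · exact lqv
      · exact lqw
      · refine (lc.hγ.mul lWo).congr fun n => ?_
        change γ n * (w n o / (s n : ℂ)) = γ n / ((1 : ℝ) : ℂ) * (w n o / ((s n : ℝ) : ℂ))
        rw [Complex.ofReal_one, div_one]
      · exact l3o
  refine RB1_gen hco h lz
    (fun n => ⟨(h.pos n).ne', (h.pos n).ne', one_ne_zero, one_ne_zero, ?_, ?_⟩) lp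
    (fun e => absurd e hic) (fun e => absurd e hic') ?_ ?_
  · change (1 : ℝ) * s n = 1 * s n
    rfl
  · change s n * 1 * 1 = s n
    ring
  · refine Prod.ext (RB1_cj ru) (Prod.ext (RB1_cj rv) (Prod.ext (RB1_cj rW0) ?_))
    refine RB1_cj (u := (![α0, β0, γ0, θ0, ν0, q u0, q v0, q w0,
        γ0 * (θ0 / ν0), c3 T u0 v0 o] : Fin 10 → ℂ)) fun i => ?_
    fin_cases i
    · exact rα
    · exact rβ
    · exact rγ
    · exact rθ
    · exact rν
    · exact RB1_qre ru
    · exact RB1_qre rv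
    · exact RB1_qre rw'
    · exact RB1_mul rγ (RB1_div rθ rν)
    · exact r3o
  · intro hsol h' hk
    refine KBp hco hsol ?_ ok.hα hic hic' hν0 h' hk
    change Nd T SA SB ((Finset.univ.erase o).erase c) u0 v0 (hw c o 0 0 W0) α0 β0 γ0
    rw [hWw]
    exact ok.nd

/-- Solutions with `‖θ‖ → ∞`, `ν → ν0 ≠ 0`, `w0 o ≠ 0`.

Proof. Let `z n = ![1, 1, 1, s n, 1]`, so `ScB (s n) (z n)` and `z n → zDt`.
`s n * θ n = w n o * ν n` (`e7`) converges to `Θ0 = w0 o * ν0 ≠ 0`;
`α n / s n = q v * q w / (s θ)` (`e4`) converges, and so do `β n / s n`, `γ n / s n`. So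
`p n = ptB T c o (z n) ..` converges to a solution `p0` for
`zDt`. So `c1 T v0 w0 a = 0` on `SA` etc. (the equations of the local system at `zDt`), and
`c3 T u0 v0 c = - ν0`. It is real: `v0`, `w0` by `hV` (and the normalisation); `cj u0` satisfies
the same equations as `u0`, so `cj u0 = r • u0` by `uniqD`, and `r = 1` because `u0 ia = 1`; `ν0`,
`Θ0` and the other scalars are then real. `KDt` and `IsQ.fin`, `ptB_nd` as in `RA1`. -/
theorem RDt (hco : c ≠ o) (h : SqB T SA SB c o s ia ib ic u v w α β γ θ ν)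
    (lv : Lv u v w u0 v0 w0) (hθ : Tendsto (fun n => ‖θ n‖) uf atTop)
    (hν : Tendsto ν uf (𝓝 ν0)) (hν0 : ν0 ≠ 0) (ho : w0 o ≠ 0)
    (hf : FR T SA SB Finset.univ) (hV : VR T SA SB Finset.univ) :
    ∀ᶠ n in uf, OkB T SA SB c o (s n) (u n) (v n) (w n) (α n) (β n) (γ n) (θ n) (ν n) := by
  have nu : Nrm u0 ia := Nrm.lim h.nu lv.hu
  have nv : Nrm v0 ib := Nrm.lim h.nv lv.hv
  have nw : Nrm w0 ic := Nrm.lim h.nw lv.hw
  have su : Sup SA u0 := Sup.lim (fun n => (h.sol n).su) lv.hu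
  have sv : Sup SB v0 := Sup.lim (fun n => (h.sol n).sv) lv.hv
  have hs0 : ∀ n, (s n : ℂ) ≠ 0 := fun n => Complex.ofReal_ne_zero.2 (h.pos n).ne'
  have lsc : Tendsto (fun n => (s n : ℂ)) uf (𝓝 0) := by
    have e := (Complex.continuous_ofReal.tendsto 0).comp h.hs
    rwa [Complex.ofReal_zero] at e
  have lo : Tendsto (fun n => w n o) uf (𝓝 (w0 o)) := (tendsto_pi_nhds.1 lv.hw) o
  have l3o : Tendsto (fun n => c3 T (u n) (v n) o) uf (𝓝 (c3 T u0 v0 o)) :=
    lim_c3 lv.hu lv.hv o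
  have lqu : Tendsto (fun n => q (u n)) uf (𝓝 (q u0)) := lim_q lv.hu
  have lqv : Tendsto (fun n => q (v n)) uf (𝓝 (q v0)) := lim_q lv.hv
  have lqw : Tendsto (fun n => q (w n)) uf (𝓝 (q w0)) := lim_q lv.hw
  have hΘ : w0 o * ν0 ≠ 0 := mul_ne_zero ho hν0
  have lΘ : Tendsto (fun n => (s n : ℂ) * θ n) uf (𝓝 (w0 o * ν0)) :=
    (lo.mul hν).congr fun n => (h.sol n).e7
  have lα : Tendsto (fun n => α n / (s n : ℂ)) uf (𝓝 (q v0 * q w0 / (w0 o * ν0))) := by
    refine ((lqv.mul lqw).div lΘ hΘ).congr fun n => ?_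
    change q (v n) * q (w n) / ((s n : ℂ) * θ n) = α n / s n
    rw [← (h.sol n).e4, div_eq_div_iff (mul_ne_zero (hs0 n) (h.sol n).hθ) (hs0 n)]
    ring
  have lβ : Tendsto (fun n => β n / (s n : ℂ)) uf (𝓝 (q u0 * q w0 / (w0 o * ν0))) := by
    refine ((lqu.mul lqw).div lΘ hΘ).congr fun n => ?_
    change q (u n) * q (w n) / ((s n : ℂ) * θ n) = β n / s n
    rw [← (h.sol n).e5, div_eq_div_iff (mul_ne_zero (hs0 n) (h.sol n).hθ) (hs0 n)]
    ring
  have lγ : Tendsto (fun n => γ n / (s n : ℂ)) uf (𝓝 (q u0 * q v0 / (w0 o * ν0))) := by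
    refine ((lqu.mul lqv).div lΘ hΘ).congr fun n => ?_
    change q (u n) * q (v n) / ((s n : ℂ) * θ n) = γ n / s n
    rw [← (h.sol n).e6, div_eq_div_iff (mul_ne_zero (hs0 n) (h.sol n).hθ) (hs0 n)]
    ring
  have zα : Tendsto α uf (𝓝 0) := by
    have e := lα.mul lsc
    rw [mul_zero] at e
    exact e.congr fun n => div_mul_cancel₀ _ (hs0 n)
  have zβ : Tendsto β uf (𝓝 0) := by
    have e := lβ.mul lsc
    rw [mul_zero] at e
    exact e.congr fun n => div_mul_cancel₀ _ (hs0 n)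
  have zγ : Tendsto γ uf (𝓝 0) := by
    have e := lγ.mul lsc
    rw [mul_zero] at e
    exact e.congr fun n => div_mul_cancel₀ _ (hs0 n)
  have g1 : ∀ a ∈ SA, c1 T v0 w0 a = 0 := by
    intro a ha
    have e1 : Tendsto (fun n => c1 T (v n) (w n) a) uf (𝓝 (c1 T v0 w0 a)) :=
      lim_c1 lv.hv lv.hw a
    have e2 : Tendsto (fun n => c1 T (v n) (w n) a) uf (𝓝 (0 * u0 a)) :=
      (zα.mul ((tendsto_pi_nhds.1 lv.hu) a)).congr fun n => ((h.sol n).e1 a ha).symm
    rw [tendsto_nhds_unique e1 e2, zero_mul]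
  have g2 : ∀ b ∈ SB, c2 T u0 w0 b = 0 := by
    intro b hb
    have e1 : Tendsto (fun n => c2 T (u n) (w n) b) uf (𝓝 (c2 T u0 w0 b)) :=
      lim_c2 lv.hu lv.hw b
    have e2 : Tendsto (fun n => c2 T (u n) (w n) b) uf (𝓝 (0 * v0 b)) :=
      (zβ.mul ((tendsto_pi_nhds.1 lv.hv) b)).congr fun n => ((h.sol n).e2 b hb).symm
    rw [tendsto_nhds_unique e1 e2, zero_mul]
  have g3 : ∀ k, k ≠ o → k ≠ c → c3 T u0 v0 k = 0 := by
    intro k hko hkc
    have e1 : Tendsto (fun n => c3 T (u n) (v n) k) uf (𝓝 (c3 T u0 v0 k)) :=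
      lim_c3 lv.hu lv.hv k
    have e2 : Tendsto (fun n => c3 T (u n) (v n) k) uf (𝓝 (0 * w0 k)) := by
      refine (zγ.mul ((tendsto_pi_nhds.1 lv.hw) k)).congr fun n => ?_
      have e3 := (h.sol n).e3 k hko
      rw [if_neg hkc, add_zero] at e3
      exact e3.symm
    rw [tendsto_nhds_unique e1 e2, zero_mul]
  have hν3 : ν0 = 0 - c3 T u0 v0 c := by
    have e1 : Tendsto (fun n => c3 T (u n) (v n) c + ν n) uf (𝓝 (c3 T u0 v0 c + ν0)) :=
      (lim_c3 lv.hu lv.hv c).add hν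
    have e2 : Tendsto (fun n => c3 T (u n) (v n) c + ν n) uf (𝓝 (0 * w0 c)) := by
      refine (zγ.mul ((tendsto_pi_nhds.1 lv.hw) c)).congr fun n => ?_
      have e3 := (h.sol n).e3 c hco
      rw [if_pos rfl] at e3
      exact e3.symm
    have e4 := tendsto_nhds_unique e1 e2
    rw [zero_mul] at e4
    linear_combination e4
  have hx : c3 T u0 v0 c ≠ 0 := by
    intro e
    rw [e, sub_zero] at hν3
    exact hν0 hν3
  obtain ⟨rv1, rw1, -⟩ := hV v0 w0 sv (fun k hk => absurd (Finset.mem_univ k) hk) g1 nv.ne nw.ne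
  have rv : Rea v0 := rv1.rea nv.1
  have rw' : Rea w0 := rw1.rea nw.1
  have ru : Rea u0 := by
    have su' : Sup SA (cj u0) := by
      intro a ha
      change starRingEnd ℂ (u0 a) = 0
      rw [su a ha, map_zero]
    have g2' : ∀ b ∈ SB, c2 T (cj u0) w0 b = 0 := by
      intro b hb
      have e := c2_cj T u0 w0 b
      rw [RB1_cj rw'] at e
      rw [e, g2 b hb, map_zero]
    have g3' : ∀ k, k ≠ o → k ≠ c → c3 T (cj u0) v0 k = 0 := by
      intro k hko hkc
      have e := c3_cj T u0 v0 k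
      rw [RB1_cj rv] at e
      rw [e, g3 k hko hkc, map_zero]
    obtain ⟨r, hr⟩ := uniqD hf su su' sv nv.ne nw.ne ho g1 g2 g2' g3 g3' hx
    have e1 := congrFun hr ia
    rw [Pi.smul_apply, smul_eq_mul, nu.1, mul_one] at e1
    have e2 : cj u0 ia = 1 := by
      change starRingEnd ℂ (u0 ia) = 1
      rw [nu.1, map_one]
    rw [e2] at e1
    rw [rea_iff, hr, ← e1, one_smul]
  have r3c : (c3 T u0 v0 c).im = 0 := c3_re T u0 v0 ru rv c
  have r3o : (c3 T u0 v0 o).im = 0 := c3_re T u0 v0 ru rv o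
  have rν : ν0.im = 0 := by
    rw [hν3]
    exact RB1_sub Complex.zero_im r3c
  have rΘ : (w0 o * ν0).im = 0 := RB1_mul (rw' o) rν
  have lz : Tendsto (fun n => (![1, 1, 1, s n, 1] : Fin 5 → ℝ)) uf (𝓝 zDt) := by
    rw [tendsto_pi_nhds]
    intro i
    fin_cases i
    · exact tendsto_const_nhds
    · exact tendsto_const_nhds
    · exact tendsto_const_nhds
    · exact h.hs
    · exact tendsto_const_nhds
  have lp : Tendsto (fun n => ptB T c o ![1, 1, 1, s n, 1] (u n) (v n) (w n) (α n) (β n) (γ n)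
      (θ n) (ν n)) uf (𝓝 ((u0, v0, w0, ![q v0 * q w0 / (w0 o * ν0), q u0 * q w0 / (w0 o * ν0),
        q u0 * q v0 / (w0 o * ν0), w0 o * ν0, ν0, q u0, q v0, q w0,
        q u0 * q v0 / (w0 o * ν0) * w0 o, c3 T u0 v0 o]) : PB A B C)) := by
    refine lv.hu.prodMk_nhds (lv.hv.prodMk_nhds (Tendsto.prodMk_nhds ?_ ?_))
    · rw [tendsto_pi_nhds]
      intro k
      refine ((tendsto_pi_nhds.1 lv.hw) k).congr fun n => ?_
      simp only [hw]
      change w n k = ((if k = o then 1 / (1 : ℝ) else if k = c then 1 / (1 : ℝ) else 1 : ℝ) : ℂ)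
        * w n k
      have e : (if k = o then 1 / (1 : ℝ) else if k = c then 1 / (1 : ℝ) else 1) = 1 := by
        split_ifs <;> norm_num
      rw [e, Complex.ofReal_one, one_mul]
    · rw [tendsto_pi_nhds]
      intro i
      fin_cases i
      · exact lα
      · exact lβ
      · exact lγ
      · exact lΘ
      · refine hν.congr fun n => ?_
        change ν n = ν n / ((1 : ℝ) : ℂ)
        rw [Complex.ofReal_one, div_one]
      · exact lqu
      · exact lqv
      · exact lqw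
      · refine (lγ.mul lo).congr fun n => ?_
        change γ n / (s n : ℂ) * w n o = γ n / (s n : ℂ) * (w n o / ((1 : ℝ) : ℂ))
        rw [Complex.ofReal_one, div_one]
      · exact l3o
  refine RB1_gen hco h lz (fun n => ⟨one_ne_zero, one_ne_zero, one_ne_zero, (h.pos n).ne', ?_, ?_⟩)
    lp (fun _ n => rfl) (fun _ n => rfl) ?_ ?_
  · change (1 : ℝ) * 1 = 1 * 1
    rfl
  · change 1 * 1 * s n = s n
    ring
  · refine Prod.ext (RB1_cj ru) (Prod.ext (RB1_cj rv) (Prod.ext (RB1_cj rw') ?_))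
    refine RB1_cj (u := (![q v0 * q w0 / (w0 o * ν0), q u0 * q w0 / (w0 o * ν0),
        q u0 * q v0 / (w0 o * ν0), w0 o * ν0, ν0, q u0, q v0, q w0,
        q u0 * q v0 / (w0 o * ν0) * w0 o, c3 T u0 v0 o] : Fin 10 → ℂ)) fun i => ?_
    fin_cases i
    · exact RB1_div (RB1_mul (RB1_qre rv) (RB1_qre rw')) rΘ
    · exact RB1_div (RB1_mul (RB1_qre ru) (RB1_qre rw')) rΘ
    · exact RB1_div (RB1_mul (RB1_qre ru) (RB1_qre rv)) rΘ
    · exact rΘ
    · exact rν
    · exact RB1_qre ru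
    · exact RB1_qre rv
    · exact RB1_qre rw'
    · exact RB1_mul (RB1_div (RB1_mul (RB1_qre ru) (RB1_qre rv)) rΘ) (rw' o)
    · exact r3o
  · intro hsol h' hk
    exact KDt hco hsol hf hV ho hν0 h' hk

end

end Pool.Agent.MPb0eR
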