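import Mathlib
import Pool.Agent.Lib.MP_b0e20b_ag_R.RA1
import Pool.Agent.Lib.MP_b0e20b_ag_R.RB1
import Pool.Agent.Lib.MP_b0e20b_ag_R.ClsB

/-!
# MP_b0e20b_ag, project R: the second level
-/

set_option autoImplicit false

open scoped BigOperators Topology
open Filter

namespace Pool.Agent.MPb0eR

section

variable {A B C : Type} [Fintype A] [Fintype B] [Fintype C] [DecidableEq A] [DecidableEq B]
  [DecidableEq C] {T : A → B → C → ℝ} {SA : Finset A} {SB : Finset B} {c o : C}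

/-- For small `s` the second level is fully real.

Proof. `by_seqB` for `Q s = OkB T SA SB c o s ∧ (u, v, w) ∉ K`. For a `SqB` take the limits of
`clsB`.
First claim: `RA1`, `RA2` (with `hdc`), `RBp`, `RDt`. Second claim: the limit vectors are not in
`K`,
by `hL` with `MC c o 0 = univ`, `MC c o 1 = univ.erase o`, `MC c o 2 = (univ.erase o).erase c`, or
by
`hD`, and `K` is closed, so the vectors are eventually not in `K`. Finally `FRB_of_nrm`. -/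
theorem stepB (hco : c ≠ o) (hF : ∀ y, FR T SA SB (MC c o y))
    (hdc : ∀ u v w α β γ, Tup T SA SB (Finset.univ.erase o) u v w α β γ → u ≠ 0 → v ≠ 0 →
      w ≠ 0 → c3 T u v c ≠ 0 ∧ ∃ ρ : ℝ, 0 < ρ ∧ c3 T u v o = ρ * c3 T u v c)
    (hV : VR T SA SB Finset.univ)
    (hVw : ∀ v w, Sup SB v → (∀ a ∈ SA, c1 T v w a = 0) → v ≠ 0 → w ≠ 0 → w o ≠ 0)
    (K : Set ((A → ℂ) × (B → ℂ) × (C → ℂ))) (hK : IsClosed K)
    (hL : ∀ y u v w α β γ, Tup T SA SB (MC c o y) u v w α β γ → u ≠ 0 → v ≠ 0 → w ≠ 0 →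
      (u, v, w) ∉ K)
    (hD : ∀ u v w, Sup SB v → (∀ a ∈ SA, c1 T v w a = 0) → u ≠ 0 → v ≠ 0 → w ≠ 0 →
      (u, v, w) ∉ K) :
    ∃ s0 : ℝ, 0 < s0 ∧ ∀ s, 0 < s → s < s0 → FRB T SA SB c o s ∧
      ∀ ia ib ic u v w α β γ θ ν, BT T SA SB c o s u v w α β γ θ ν → Nrm u ia → Nrm v ib →
        Nrm w ic → (u, v, w) ∉ K := by
  have m0 : MC c o 0 = Finset.univ := by simp [MC]
  have m1 : MC c o 1 = Finset.univ.erase o := by simp [MC]
  have m2 : MC c o 2 = (Finset.univ.erase o).erase c := by simp [MC]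
  have f0 : FR T SA SB Finset.univ := by
    rw [← m0]
    exact hF 0
  have f1 : FR T SA SB (Finset.univ.erase o) := by
    rw [← m1]
    exact hF 1
  have f2 : FR T SA SB ((Finset.univ.erase o).erase c) := by
    rw [← m2]
    exact hF 2
  have l0 := hL 0
  have l1 := hL 1
  have l2 := hL 2
  rw [m0] at l0
  rw [m1] at l1
  rw [m2] at l2
  obtain ⟨s0, hs0, hs⟩ := by_seqB (T := T) (SA := SA) (SB := SB) (c := c) (o := o)
    (fun s u v w α β γ θ ν => OkB T SA SB c o s u v w α β γ θ ν ∧ (u, v, w) ∉ K) (by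
    intro s ia ib ic u v w α β γ θ ν h
    obtain ⟨u0, v0, w0, lv, nu, nv, nw, hcase⟩ := clsB hco hF hV hVw h
    have hlim : Tendsto (fun n => (u n, v n, w n)) uf (𝓝 (u0, v0, w0)) :=
      lv.hu.prodMk_nhds (lv.hv.prodMk_nhds lv.hw)
    have hK' : (u0, v0, w0) ∉ K → ∀ᶠ n in uf, (u n, v n, w n) ∉ K := fun h1 =>
      hlim.eventually (hK.isOpen_compl.mem_nhds h1)
    rcases hcase with ⟨α0, β0, γ0, θ0, lc, hθ, hθ0, hA1 | hA2 | hB⟩ |
      ⟨hθ, ⟨ν0, hν0, hν⟩, ho, sv, hz⟩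
    · obtain ⟨ht, ho, -⟩ := hA1
      exact (RA1 hco h lv lc hθ hθ0 ht f0 ho).and
        (hK' (l0 _ _ _ _ _ _ ht nu.ne nv.ne nw.ne))
    · obtain ⟨ht, -⟩ := hA2
      exact (RA2 hco h lv lc hθ hθ0 ht f1 (hdc _ _ _ _ _ _ ht nu.ne nv.ne nw.ne)).and
        (hK' (l1 _ _ _ _ _ _ ht nu.ne nv.ne nw.ne))
    · obtain ⟨ht, ν0, hν0, hν⟩ := hB
      exact (RBp hco h lv lc hθ hθ0 hν hν0 ht f2).and
        (hK' (l2 _ _ _ _ _ _ ht nu.ne nv.ne nw.ne))
    · exact (RDt hco h lv hθ hν hν0 ho f0 hV).and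
        (hK' (hD u0 v0 w0 sv hz nu.ne nv.ne nw.ne)))
  exact ⟨s0, hs0, fun s h1 h2 => ⟨FRB_of_nrm fun ia ib ic u v w α β γ θ ν ht n1 n2 n3 =>
    (hs s h1 h2 ia ib ic u v w α β γ θ ν ht n1 n2 n3).1,
    fun ia ib ic u v w α β γ θ ν ht n1 n2 n3 =>
      (hs s h1 h2 ia ib ic u v w α β γ θ ν ht n1 n2 n3).2⟩⟩

end

end Pool.Agent.MPb0eR
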