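import Mathlib
import Pool.Agent.Lib.MP_b0e20b_ag_R.QFin
import Pool.Agent.Lib.MP_b0e20b_ag_R.Cpt
import Pool.Agent.Lib.MP_b0e20b_ag_R.DDs

/-!
# MP_b0e20b_ag, project R: being fully real is an open condition
-/

set_option autoImplicit false

open scoped BigOperators Topology
open Filter

namespace Pool.Agent.MPb0eR

section

variable {A B C : Type} [Fintype A] [Fintype B] [Fintype C] [DecidableEq A] [DecidableEq B]
  [DecidableEq C] {SA : Finset A} {SB : Finset B} {SC : Finset C}

/-- The bilinear part of the system for singular tuples; the parameter is the tensor. -/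
def bF (SA : Finset A) (SB : Finset B) (SC : Finset C) (T : A → B → C → ℝ) (p r : Pt A B C) :
    Pt A B C :=
  (fun a => if a ∈ SA then c1 T p.2.1 r.2.2.1 a - p.2.2.2 0 * r.1 a else 0,
    fun b => if b ∈ SB then c2 T p.1 r.2.2.1 b - p.2.2.2 1 * r.2.1 b else 0,
    fun c => if c ∈ SC then c3 T p.1 r.2.1 c - p.2.2.2 2 * r.2.2.1 c else 0, 0)

/-- The linear part. -/
def lF (SA : Finset A) (SB : Finset B) (SC : Finset C) (ia : A) (ib : B) (ic : C)
    (_T : A → B → C → ℝ) (p : Pt A B C) : Pt A B C :=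
  (fun a => if a ∈ SA then 0 else p.1 a, fun b => if b ∈ SB then 0 else p.2.1 b,
    fun c => if c ∈ SC then 0 else p.2.2.1 c, ![p.1 ia, p.2.1 ib, p.2.2.1 ic])

private theorem fop_real {X : Type} (t : ℝ) (u : X → ℂ) : t • u = (t : ℂ) • u := by
  funext a
  simp only [Pi.smul_apply, Complex.real_smul, smul_eq_mul]

private theorem fop_al (T : A → B → C → ℝ) (p p' r : Pt A B C) :
    bF SA SB SC T (p + p') r = bF SA SB SC T p r + bF SA SB SC T p' r := by
  obtain ⟨u, v, w, x⟩ := p
  obtain ⟨u', v', w', x'⟩ := p'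
  obtain ⟨a, b, d, y⟩ := r
  refine Prod.ext (funext fun i => ?_) (Prod.ext (funext fun i => ?_) (Prod.ext (funext fun i => ?_)
    (funext fun i => ?_)))
  · simp only [bF, Prod.mk_add_mk, Pi.add_apply, c1_add_left]
    split_ifs <;> ring
  · simp only [bF, Prod.mk_add_mk, Pi.add_apply, c2_add_left]
    split_ifs <;> ring
  · simp only [bF, Prod.mk_add_mk, Pi.add_apply, c3_add_left]
    split_ifs <;> ring
  · simp [bF]

private theorem fop_ar (T : A → B → C → ℝ) (p r r' : Pt A B C) :
    bF SA SB SC T p (r + r') = bF SA SB SC T p r + bF SA SB SC T p r' := by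
  obtain ⟨u, v, w, x⟩ := p
  obtain ⟨u', v', w', x'⟩ := r'
  obtain ⟨a, b, d, y⟩ := r
  refine Prod.ext (funext fun i => ?_) (Prod.ext (funext fun i => ?_) (Prod.ext (funext fun i => ?_)
    (funext fun i => ?_)))
  · simp only [bF, Prod.mk_add_mk, Pi.add_apply, c1_add_right]
    split_ifs <;> ring
  · simp only [bF, Prod.mk_add_mk, Pi.add_apply, c2_add_right]
    split_ifs <;> ring
  · simp only [bF, Prod.mk_add_mk, Pi.add_apply, c3_add_right]
    split_ifs <;> ring
  · simp [bF]

private theorem fop_sl (T : A → B → C → ℝ) (t : ℝ) (p r : Pt A B C) :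
    bF SA SB SC T (t • p) r = t • bF SA SB SC T p r := by
  obtain ⟨u, v, w, x⟩ := p
  obtain ⟨a, b, d, y⟩ := r
  refine Prod.ext (funext fun i => ?_) (Prod.ext (funext fun i => ?_) (Prod.ext (funext fun i => ?_)
    (funext fun i => ?_)))
  · simp only [bF, Prod.smul_mk, fop_real, Pi.smul_apply, smul_eq_mul, c1_smul_left]
    split_ifs <;> ring
  · simp only [bF, Prod.smul_mk, fop_real, Pi.smul_apply, smul_eq_mul, c2_smul_left]
    split_ifs <;> ring
  · simp only [bF, Prod.smul_mk, fop_real, Pi.smul_apply, smul_eq_mul, c3_smul_left]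
    split_ifs <;> ring
  · simp [bF]

private theorem fop_sr (T : A → B → C → ℝ) (t : ℝ) (p r : Pt A B C) :
    bF SA SB SC T p (t • r) = t • bF SA SB SC T p r := by
  obtain ⟨u, v, w, x⟩ := p
  obtain ⟨a, b, d, y⟩ := r
  refine Prod.ext (funext fun i => ?_) (Prod.ext (funext fun i => ?_) (Prod.ext (funext fun i => ?_)
    (funext fun i => ?_)))
  · simp only [bF, Prod.smul_mk, fop_real, Pi.smul_apply, smul_eq_mul, c1_smul_right]
    split_ifs <;> ring
  · simp only [bF, Prod.smul_mk, fop_real, Pi.smul_apply, smul_eq_mul, c2_smul_right]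
    split_ifs <;> ring
  · simp only [bF, Prod.smul_mk, fop_real, Pi.smul_apply, smul_eq_mul, c3_smul_right]
    split_ifs <;> ring
  · simp [bF]

private theorem fop_la (ia : A) (ib : B) (ic : C) (T : A → B → C → ℝ) (p r : Pt A B C) :
    lF SA SB SC ia ib ic T (p + r) = lF SA SB SC ia ib ic T p + lF SA SB SC ia ib ic T r := by
  obtain ⟨u, v, w, x⟩ := p
  obtain ⟨a, b, d, y⟩ := r
  refine Prod.ext (funext fun i => ?_) (Prod.ext (funext fun i => ?_) (Prod.ext (funext fun i => ?_)
    (funext fun i => ?_)))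
  · simp only [lF, Prod.mk_add_mk, Pi.add_apply]
    split_ifs <;> ring
  · simp only [lF, Prod.mk_add_mk, Pi.add_apply]
    split_ifs <;> ring
  · simp only [lF, Prod.mk_add_mk, Pi.add_apply]
    split_ifs <;> ring
  · simp only [lF, Prod.mk_add_mk, Pi.add_apply]
    fin_cases i <;> simp

private theorem fop_ls (ia : A) (ib : B) (ic : C) (T : A → B → C → ℝ) (t : ℝ) (p : Pt A B C) :
    lF SA SB SC ia ib ic T (t • p) = t • lF SA SB SC ia ib ic T p := by
  obtain ⟨u, v, w, x⟩ := p
  refine Prod.ext (funext fun i => ?_) (Prod.ext (funext fun i => ?_) (Prod.ext (funext fun i => ?_)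
    (funext fun i => ?_)))
  · simp only [lF, Prod.smul_mk, fop_real, Pi.smul_apply, smul_eq_mul]
    split_ifs <;> ring
  · simp only [lF, Prod.smul_mk, fop_real, Pi.smul_apply, smul_eq_mul]
    split_ifs <;> ring
  · simp only [lF, Prod.smul_mk, fop_real, Pi.smul_apply, smul_eq_mul]
    split_ifs <;> ring
  · simp only [lF, Prod.smul_mk, fop_real, Pi.smul_apply, smul_eq_mul]
    fin_cases i <;> simp

private theorem fop_cb :
    Continuous fun x : (A → B → C → ℝ) × Pt A B C × Pt A B C =>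
      bF SA SB SC x.1 x.2.1 x.2.2 := by
  have h1 : Continuous fun x : (A → B → C → ℝ) × Pt A B C × Pt A B C =>
      c1 x.1 x.2.1.2.1 x.2.2.2.2.1 := by
    have h0 := (continuous_c1T (A := A) (B := B) (C := C)).comp
      (f := fun x : (A → B → C → ℝ) × Pt A B C × Pt A B C => (x.1, x.2.1.2.1, x.2.2.2.2.1))
      (by fun_prop)
    exact h0
  have h2 : Continuous fun x : (A → B → C → ℝ) × Pt A B C × Pt A B C =>
      c2 x.1 x.2.1.1 x.2.2.2.2.1 := by
    have h0 := (continuous_c2T (A := A) (B := B) (C := C)).comp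
      (f := fun x : (A → B → C → ℝ) × Pt A B C × Pt A B C => (x.1, x.2.1.1, x.2.2.2.2.1))
      (by fun_prop)
    exact h0
  have h3 : Continuous fun x : (A → B → C → ℝ) × Pt A B C × Pt A B C =>
      c3 x.1 x.2.1.1 x.2.2.2.1 := by
    have h0 := (continuous_c3T (A := A) (B := B) (C := C)).comp
      (f := fun x : (A → B → C → ℝ) × Pt A B C × Pt A B C => (x.1, x.2.1.1, x.2.2.2.1))
      (by fun_prop)
    exact h0
  have g1 := fun a => (continuous_apply a).comp h1
  have g2 := fun a => (continuous_apply a).comp h2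
  have g3 := fun a => (continuous_apply a).comp h3
  simp only [Function.comp_def] at g1 g2 g3
  refine Continuous.prodMk (continuous_pi fun a => ?_) (Continuous.prodMk
    (continuous_pi fun b => ?_) (Continuous.prodMk (continuous_pi fun k => ?_)
    continuous_const))
  · split_ifs
    · exact (g1 a).sub (by fun_prop)
    · exact continuous_const
  · split_ifs
    · exact (g2 b).sub (by fun_prop)
    · exact continuous_const
  · split_ifs
    · exact (g3 k).sub (by fun_prop)
    · exact continuous_const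

private theorem fop_cl (ia : A) (ib : B) (ic : C) :
    Continuous fun x : (A → B → C → ℝ) × Pt A B C => lF SA SB SC ia ib ic x.1 x.2 := by
  refine Continuous.prodMk (continuous_pi fun a => ?_) (Continuous.prodMk
    (continuous_pi fun b => ?_) (Continuous.prodMk (continuous_pi fun k => ?_)
    (continuous_pi fun i => ?_)))
  · split_ifs
    · exact continuous_const
    · fun_prop
  · split_ifs
    · exact continuous_const
    · fun_prop
  · split_ifs
    · exact continuous_const
    · fun_prop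
  · fin_cases i <;> simp <;> fun_prop

theorem isQ_F (ia : A) (ib : B) (ic : C) : IsQ (bF SA SB SC) (lF SA SB SC ia ib ic) where
  al := fop_al
  ar := fop_ar
  sl := fop_sl
  sr := fop_sr
  la := fop_la ia ib ic
  ls := fop_ls ia ib ic
  cb := fop_cb
  cl := fop_cl ia ib ic

/-- The system is real. -/
private theorem fop_cj (ia : A) (ib : B) (ic : C) (T : A → B → C → ℝ) (p : Pt A B C)
    (h : bF SA SB SC T p p + lF SA SB SC ia ib ic T p + (0, 0, 0, fun _ => -1) = 0) :
    bF SA SB SC T (cjP p) (cjP p) + lF SA SB SC ia ib ic T (cjP p) + (0, 0, 0, fun _ => -1)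
      = 0 := by
  obtain ⟨u, v, w, x⟩ := p
  have h1 := congrArg (fun t : Pt A B C => t.1) h
  have h2 := congrArg (fun t : Pt A B C => t.2.1) h
  have h3 := congrArg (fun t : Pt A B C => t.2.2.1) h
  have h4 := congrArg (fun t : Pt A B C => t.2.2.2) h
  refine Prod.ext (funext fun i => ?_) (Prod.ext (funext fun i => ?_) (Prod.ext (funext fun i => ?_)
    (funext fun i => ?_)))
  · have h5 := congrArg (starRingEnd ℂ) (congrFun h1 i)
    simp only [bF, lF, cjP, Prod.fst_add, Pi.add_apply, c1_cj, cj] at h5 ⊢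
    split_ifs at h5 ⊢
    · simpa using h5
    · simpa using h5
  · have h5 := congrArg (starRingEnd ℂ) (congrFun h2 i)
    simp only [bF, lF, cjP, Prod.fst_add, Prod.snd_add, Pi.add_apply, c2_cj, cj] at h5 ⊢
    split_ifs at h5 ⊢
    · simpa using h5
    · simpa using h5
  · have h5 := congrArg (starRingEnd ℂ) (congrFun h3 i)
    simp only [bF, lF, cjP, Prod.fst_add, Prod.snd_add, Pi.add_apply, c3_cj, cj] at h5 ⊢
    split_ifs at h5 ⊢
    · simpa using h5
    · simpa using h5
  · have h5 := congrArg (starRingEnd ℂ) (congrFun h4 i)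
    simp only [bF, lF, cjP, Prod.snd_add, Pi.add_apply, cj] at h5 ⊢
    fin_cases i
    · simpa using h5
    · simpa using h5
    · simpa using h5

/-- The point of a tuple. -/
private def fopP (u : A → ℂ) (v : B → ℂ) (w : C → ℂ) (α β γ : ℂ) : Pt A B C :=
  (u, v, w, ![α, β, γ])

private theorem fop_sol {T : A → B → C → ℝ} {ia : A} {ib : B} {ic : C} {u : A → ℂ} {v : B → ℂ}
    {w : C → ℂ} {α β γ : ℂ} (h : Tup T SA SB SC u v w α β γ) (hu : u ia = 1) (hv : v ib = 1)
    (hw : w ic = 1) :
    bF SA SB SC T (fopP u v w α β γ) (fopP u v w α β γ)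
      + lF SA SB SC ia ib ic T (fopP u v w α β γ) + (0, 0, 0, fun _ => -1) = 0 := by
  refine Prod.ext (funext fun i => ?_) (Prod.ext (funext fun i => ?_) (Prod.ext (funext fun i => ?_)
    (funext fun i => ?_)))
  · by_cases hi : i ∈ SA
    · simp [bF, lF, fopP, hi, h.e1 i hi]
    · simp [bF, lF, fopP, hi, h.su i hi]
  · by_cases hi : i ∈ SB
    · simp [bF, lF, fopP, hi, h.e2 i hi]
    · simp [bF, lF, fopP, hi, h.sv i hi]
  · by_cases hi : i ∈ SC
    · simp [bF, lF, fopP, hi, h.e3 i hi]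
    · simp [bF, lF, fopP, hi, h.sw i hi]
  · fin_cases i
    · show (0 : ℂ) + u ia + -1 = 0
      rw [hu]
      ring
    · show (0 : ℂ) + v ib + -1 = 0
      rw [hv]
      ring
    · show (0 : ℂ) + w ic + -1 = 0
      rw [hw]
      ring

/-- Elements of the kernel of the linearised system are elements of `Ker` with vanishing
entries at the normalised coordinates. -/
private theorem fop_ker {T : A → B → C → ℝ} {ia : A} {ib : B} {ic : C} {u : A → ℂ} {v : B → ℂ}
    {w : C → ℂ} {α β γ : ℂ} (h : Pt A B C) :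
    bF SA SB SC T (fopP u v w α β γ) h + bF SA SB SC T h (fopP u v w α β γ)
      + lF SA SB SC ia ib ic T h = 0 ↔
    Ker T SA SB SC u v w α β γ h.1 h.2.1 h.2.2.1 (h.2.2.2 0) (h.2.2.2 1) (h.2.2.2 2) ∧
      h.1 ia = 0 ∧ h.2.1 ib = 0 ∧ h.2.2.1 ic = 0 := by
  obtain ⟨du, dv, dw, x⟩ := h
  constructor
  · intro h
    have h1 := congrArg (fun t : Pt A B C => t.1) h
    have h2 := congrArg (fun t : Pt A B C => t.2.1) h
    have h3 := congrArg (fun t : Pt A B C => t.2.2.1) h
    have h4 := congrArg (fun t : Pt A B C => t.2.2.2) h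
    refine ⟨⟨fun a ha => ?_, fun b hb => ?_, fun c hc => ?_, fun a ha => ?_, fun b hb => ?_,
      fun c hc => ?_⟩, ?_, ?_, ?_⟩
    · have h5 := congrFun h1 a
      simpa [bF, lF, fopP, ha] using h5
    · have h5 := congrFun h2 b
      simpa [bF, lF, fopP, hb] using h5
    · have h5 := congrFun h3 c
      simpa [bF, lF, fopP, hc] using h5
    · have h5 := congrFun h1 a
      simp [bF, lF, fopP, ha] at h5
      show c1 T dv w a + c1 T v dw a = α * du a + x 0 * u a
      linear_combination h5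
    · have h5 := congrFun h2 b
      simp [bF, lF, fopP, hb] at h5
      show c2 T du w b + c2 T u dw b = β * dv b + x 1 * v b
      linear_combination h5
    · have h5 := congrFun h3 c
      simp [bF, lF, fopP, hc] at h5
      show c3 T du v c + c3 T u dv c = γ * dw c + x 2 * w c
      linear_combination h5
    · have h5 := congrFun h4 0
      simpa [bF, lF, fopP] using h5
    · have h5 := congrFun h4 1
      simpa [bF, lF, fopP] using h5
    · have h5 := congrFun h4 2
      simpa [bF, lF, fopP] using h5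
  · rintro ⟨h, h1, h2, h3⟩
    simp only at h1 h2 h3
    refine Prod.ext (funext fun i => ?_) (Prod.ext (funext fun i => ?_)
      (Prod.ext (funext fun i => ?_) (funext fun i => ?_)))
    · by_cases hi : i ∈ SA
      · have h4 := h.e1 i hi
        simp only at h4
        simp [bF, lF, fopP, hi]
        linear_combination h4
      · have h4 := h.su i hi
        simp only at h4
        simp [bF, lF, fopP, hi, h4]
    · by_cases hi : i ∈ SB
      · have h4 := h.e2 i hi
        simp only at h4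
        simp [bF, lF, fopP, hi]
        linear_combination h4
      · have h4 := h.sv i hi
        simp only at h4
        simp [bF, lF, fopP, hi, h4]
    · by_cases hi : i ∈ SC
      · have h4 := h.e3 i hi
        simp only at h4
        simp [bF, lF, fopP, hi]
        linear_combination h4
      · have h4 := h.sw i hi
        simp only at h4
        simp [bF, lF, fopP, hi, h4]
    · fin_cases i
      · simp [bF, lF, fopP, h1]
      · simp [bF, lF, fopP, h2]
      · simp [bF, lF, fopP, h3]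

/-- Sequences of normalised tuples of tensors converging to a fully real tensor are eventually
good.

Proof. As `Tup.exists_lim` (with `continuous_c1T` etc.): the vectors and the multipliers
(`α n = c1 (T n) (v n) (w n) ia`) converge to a singular tuple of `T0`, which is real
(normalised) and nondegenerate with nonzero multipliers. `p n = (u n, v n, w n, ![α n, β n, γ n])`
solves the system `bF`, `lF` with the constant `(0, 0, 0, fun _ => -1)`. The kernel at the limit is
trivial: it consists of the vectors of `Ker` with vanishing entries at `ia, ib, ic`. `IsQ.fin`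
(conjugation `cjP`): eventually `p n` is real and the kernel is trivial, so `Nd` holds
(`Ker.sub_u`); the multipliers are eventually nonzero. -/
theorem seq_F {T : ℕ → A → B → C → ℝ} {T0 : A → B → C → ℝ} (hT : Tendsto T uf (𝓝 T0))
    (hf : FR T0 SA SB SC) {ia : A} {ib : B} {ic : C} {u : ℕ → A → ℂ} {v : ℕ → B → ℂ}
    {w : ℕ → C → ℂ} {α β γ : ℕ → ℂ}
    (h : ∀ n, Tup (T n) SA SB SC (u n) (v n) (w n) (α n) (β n) (γ n))
    (nu : ∀ n, Nrm (u n) ia) (nv : ∀ n, Nrm (v n) ib) (nw : ∀ n, Nrm (w n) ic) :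
    ∀ᶠ n in uf, Ok (T n) SA SB SC (u n) (v n) (w n) (α n) (β n) (γ n) := by
  obtain ⟨u0, hu0⟩ := ulim_vec u 1 fun n a => (nu n).2 a
  obtain ⟨v0, hv0⟩ := ulim_vec v 1 fun n b => (nv n).2 b
  obtain ⟨w0, hw0⟩ := ulim_vec w 1 fun n c => (nw n).2 c
  have l1 : ∀ a, Tendsto (fun n => c1 (T n) (v n) (w n) a) uf (𝓝 (c1 T0 v0 w0 a)) :=
    fun a => tendsto_pi_nhds.1 ((continuous_c1T.tendsto (T0, v0, w0)).comp
      (hT.prodMk_nhds (hv0.prodMk_nhds hw0))) a
  have l2 : ∀ b, Tendsto (fun n => c2 (T n) (u n) (w n) b) uf (𝓝 (c2 T0 u0 w0 b)) :=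
    fun b => tendsto_pi_nhds.1 ((continuous_c2T.tendsto (T0, u0, w0)).comp
      (hT.prodMk_nhds (hu0.prodMk_nhds hw0))) b
  have l3 : ∀ c, Tendsto (fun n => c3 (T n) (u n) (v n) c) uf (𝓝 (c3 T0 u0 v0 c)) :=
    fun c => tendsto_pi_nhds.1 ((continuous_c3T.tendsto (T0, u0, v0)).comp
      (hT.prodMk_nhds (hu0.prodMk_nhds hv0))) c
  have hα : ∀ n, α n = c1 (T n) (v n) (w n) ia := by
    intro n
    rw [(h n).e1 ia ((nu n).mem (h n).su), (nu n).1, mul_one]
  have hβ : ∀ n, β n = c2 (T n) (u n) (w n) ib := by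
    intro n
    rw [(h n).e2 ib ((nv n).mem (h n).sv), (nv n).1, mul_one]
  have hγ : ∀ n, γ n = c3 (T n) (u n) (v n) ic := by
    intro n
    rw [(h n).e3 ic ((nw n).mem (h n).sw), (nw n).1, mul_one]
  obtain ⟨α0, hα0⟩ : ∃ α0, α0 = c1 T0 v0 w0 ia := ⟨_, rfl⟩
  obtain ⟨β0, hβ0⟩ : ∃ β0, β0 = c2 T0 u0 w0 ib := ⟨_, rfl⟩
  obtain ⟨γ0, hγ0⟩ : ∃ γ0, γ0 = c3 T0 u0 v0 ic := ⟨_, rfl⟩
  have tα : Tendsto α uf (𝓝 α0) := by
    rw [hα0, funext hα]
    exact l1 ia
  have tβ : Tendsto β uf (𝓝 β0) := by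
    rw [hβ0, funext hβ]
    exact l2 ib
  have tγ : Tendsto γ uf (𝓝 γ0) := by
    rw [hγ0, funext hγ]
    exact l3 ic
  have t0 : Tup T0 SA SB SC u0 v0 w0 α0 β0 γ0 := by
    refine ⟨Sup.lim (fun n => (h n).su) hu0, Sup.lim (fun n => (h n).sv) hv0,
      Sup.lim (fun n => (h n).sw) hw0, fun a ha => ?_, fun b hb => ?_, fun c hc => ?_⟩
    · refine tendsto_nhds_unique (l1 a) ?_
      simp only [fun n => (h n).e1 a ha]
      exact tα.mul ((tendsto_pi_nhds.1 hu0) a)
    · refine tendsto_nhds_unique (l2 b) ?_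
      simp only [fun n => (h n).e2 b hb]
      exact tβ.mul ((tendsto_pi_nhds.1 hv0) b)
    · refine tendsto_nhds_unique (l3 c) ?_
      simp only [fun n => (h n).e3 c hc]
      exact tγ.mul ((tendsto_pi_nhds.1 hw0) c)
  have nu0 := Nrm.lim nu hu0
  have nv0 := Nrm.lim nv hv0
  have nw0 := Nrm.lim nw hw0
  have ok := hf u0 v0 w0 α0 β0 γ0 t0 nu0.ne nv0.ne nw0.ne
  have ru := ok.ru.rea nu0.1
  have rv := ok.rv.rea nv0.1
  have rw' := ok.rw'.rea nw0.1
  obtain ⟨ra, rb, rc⟩ := t0.re nu0.1 nv0.1 nw0.1 ru rv rw'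
  have hp : Tendsto (fun n => fopP (u n) (v n) (w n) (α n) (β n) (γ n)) uf
      (𝓝 (fopP u0 v0 w0 α0 β0 γ0)) := by
    refine hu0.prodMk_nhds (hv0.prodMk_nhds (hw0.prodMk_nhds (tendsto_pi_nhds.2 fun i => ?_)))
    fin_cases i
    · exact tα
    · exact tβ
    · exact tγ
  have hr : cjP (fopP u0 v0 w0 α0 β0 γ0) = fopP u0 v0 w0 α0 β0 γ0 := by
    rw [← reP_iff]
    refine ⟨ru, rv, rw', fun i => ?_⟩
    fin_cases i
    · exact ra
    · exact rb
    · exact rc
  have hk : ∀ x : Pt A B C, bF SA SB SC T0 (fopP u0 v0 w0 α0 β0 γ0) x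
      + bF SA SB SC T0 x (fopP u0 v0 w0 α0 β0 γ0) + lF SA SB SC ia ib ic T0 x = 0 → x = 0 := by
    intro x hx
    obtain ⟨k, k1, k2, k3⟩ := (fop_ker x).1 hx
    obtain ⟨⟨r, hr⟩, ⟨s, hs⟩, ⟨t, ht⟩⟩ := ok.nd _ _ _ _ _ _ k
    have e1 : x.1 = 0 := by
      rw [hr] at k1 ⊢
      rw [Pi.smul_apply, nu0.1, smul_eq_mul, mul_one] at k1
      rw [k1, zero_smul]
    have e2 : x.2.1 = 0 := by
      rw [hs] at k2 ⊢
      rw [Pi.smul_apply, nv0.1, smul_eq_mul, mul_one] at k2
      rw [k2, zero_smul]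
    have e3 : x.2.2.1 = 0 := by
      rw [ht] at k3 ⊢
      rw [Pi.smul_apply, nw0.1, smul_eq_mul, mul_one] at k3
      rw [k3, zero_smul]
    have e4 : ∀ i, x.2.2.2 i = 0 := by
      intro i
      fin_cases i
      · have h1 := k.e1 ia (nu0.mem t0.su)
        rw [e1, e2, e3, c1_zero_left, c1_zero_right, nu0.1, Pi.zero_apply, mul_zero, zero_add,
          zero_add, mul_one] at h1
        exact h1.symm
      · have h1 := k.e2 ib (nv0.mem t0.sv)
        rw [e1, e2, e3, c2_zero_left, c2_zero_right, nv0.1, Pi.zero_apply, mul_zero, zero_add,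
          zero_add, mul_one] at h1
        exact h1.symm
      · have h1 := k.e3 ic (nw0.mem t0.sw)
        rw [e1, e2, e3, c3_zero_left, c3_zero_right, nw0.1, Pi.zero_apply, mul_zero, zero_add,
          zero_add, mul_one] at h1
        exact h1.symm
    exact Prod.ext e1 (Prod.ext e2 (Prod.ext e3 (funext e4)))
  have hfin := (isQ_F (SA := SA) (SB := SB) (SC := SC) ia ib ic).fin
    ((0, 0, 0, fun _ => -1) : Pt A B C) cjP cjP_continuous (fop_cj ia ib ic) T T0
    (fun n => fopP (u n) (v n) (w n) (α n) (β n) (γ n)) (fopP u0 v0 w0 α0 β0 γ0) hT hp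
    (Eventually.of_forall fun n => fop_sol (h n) (nu n).1 (nv n).1 (nw n).1) hr hk
  filter_upwards [hfin, tα.eventually_ne ok.hα, tβ.eventually_ne ok.hβ,
    tγ.eventually_ne ok.hγ] with n h1 h2 h3 h4
  obtain ⟨h5, h6⟩ := h1
  rw [← reP_iff] at h5
  refine ⟨h5.1.rl, h5.2.1.rl, h5.2.2.1.rl, h2, h3, h4, ?_⟩
  intro du dv dw dα dβ dγ k
  have k1 := Ker.sub_u (h n) k (du ia) (dv ib) (dw ic)
  have h7 := h6 (du - du ia • u n, dv - dv ib • v n, dw - dw ic • w n,
    ![dα - (dv ib + dw ic - du ia) * α n, dβ - (du ia + dw ic - dv ib) * β n,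
      dγ - (du ia + dv ib - dw ic) * γ n]) ((fop_ker _).2 ⟨k1, by simp [(nu n).1],
        by simp [(nv n).1], by simp [(nw n).1]⟩)
  have e1 := congrArg (fun t : Pt A B C => t.1) h7
  have e2 := congrArg (fun t : Pt A B C => t.2.1) h7
  have e3 := congrArg (fun t : Pt A B C => t.2.2.1) h7
  exact ⟨⟨_, sub_eq_zero.1 e1⟩, ⟨_, sub_eq_zero.1 e2⟩, ⟨_, sub_eq_zero.1 e3⟩⟩

/-- Being fully real is an open condition.

Proof. Otherwise there are tensors `T n` with `‖T n - T0‖ < 1 / (n + 1)` and normalised tuples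
(`FR_of_nrm`) which violate `Ok`; make the indices constant as in `by_seq` and use `seq_F`. -/
theorem FR_open {T0 : A → B → C → ℝ} (hf : FR T0 SA SB SC) : ∀ᶠ T in 𝓝 T0, FR T SA SB SC := by
  by_contra hcon
  have h1 : ∀ n : ℕ, ∃ T : A → B → C → ℝ, dist T T0 < 1 / ((n : ℝ) + 1) ∧
      ¬ FR T SA SB SC := by
    intro n
    by_contra h
    push Not at h
    apply hcon
    rw [Metric.eventually_nhds_iff]
    exact ⟨1 / ((n : ℝ) + 1), by positivity, fun T hT => h T hT⟩
  choose T hT1 hT2 using h1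
  have h2 : ∀ n, ∃ ia ib ic u v w α β γ, Tup (T n) SA SB SC u v w α β γ ∧ Nrm u ia ∧
      Nrm v ib ∧ Nrm w ic ∧ ¬ Ok (T n) SA SB SC u v w α β γ := by
    intro n
    by_contra h
    push Not at h
    exact hT2 n (FR_of_nrm fun ia ib ic u v w α β γ h3 h4 h5 h6 =>
      h ia ib ic u v w α β γ h3 h4 h5 h6)
  choose ia ib ic u v w α β γ h3 h4 h5 h6 h7 using h2
  obtain ⟨i, hi⟩ := uconst (fun n => (ia n, ib n, ic n))
  obtain ⟨n0, hn0⟩ := hi.exists
  classical
  obtain ⟨f, hf0⟩ : ∃ f : ℕ → ℕ, f = fun n => if (ia n, ib n, ic n) = i then n else n0 :=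
    ⟨_, rfl⟩
  have hf1 : ∀ n, (ia (f n), ib (f n), ic (f n)) = i := by
    intro n
    rw [hf0]
    show (ia (if (ia n, ib n, ic n) = i then n else n0),
      ib (if (ia n, ib n, ic n) = i then n else n0),
      ic (if (ia n, ib n, ic n) = i then n else n0)) = i
    split_ifs with h
    · exact h
    · exact hn0
  have hf2 : ∀ᶠ n in uf, f n = n := by
    filter_upwards [hi] with n hn
    rw [hf0]
    exact if_pos hn
  have hTT : Tendsto T uf (𝓝 T0) := by
    rw [tendsto_iff_dist_tendsto_zero]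
    refine squeeze_zero (fun n => dist_nonneg) (fun n => (hT1 n).le) ?_
    exact tendsto_one_div_add_atTop_nhds_zero_nat.mono_left Nat.hyperfilter_le_atTop
  have hTf : Tendsto (fun n => T (f n)) uf (𝓝 T0) := by
    refine hTT.congr' ?_
    filter_upwards [hf2] with n hn
    rw [hn]
  have hfin := seq_F (T := fun n => T (f n)) (u := fun n => u (f n)) (v := fun n => v (f n))
    (w := fun n => w (f n)) (α := fun n => α (f n)) (β := fun n => β (f n))
    (γ := fun n => γ (f n)) hTf hf (ia := i.1) (ib := i.2.1) (ic := i.2.2)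
    (fun n => h3 (f n)) (fun n => by
      have h8 := h4 (f n)
      rwa [show ia (f n) = i.1 from congrArg Prod.fst (hf1 n)] at h8)
    (fun n => by
      have h8 := h5 (f n)
      rwa [show ib (f n) = i.2.1 from congrArg (fun t => t.2.1) (hf1 n)] at h8)
    (fun n => by
      have h8 := h6 (f n)
      rwa [show ic (f n) = i.2.2 from congrArg (fun t => t.2.2) (hf1 n)] at h8)
  obtain ⟨n, hn⟩ := hfin.exists
  exact h7 (f n) hn

end

end Pool.Agent.MPb0eR
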