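import Mathlib
import Pool.Agent.Lib.MP_b0e20b_ag_R.FOp
import Pool.Agent.Lib.MP_b0e20b_ag_R.BAlg

/-!
# MP_b0e20b_ag, project R: the tensor with an additional slice
-/

set_option autoImplicit false

open scoped BigOperators Topology
open Filter

namespace Pool.Agent.MPb0eR

section

variable {A B C : Type} [Fintype A] [Fintype B] [Fintype C] [DecidableEq A] [DecidableEq B]
  [DecidableEq C] {T : A → B → C → ℝ} {b : B} {o : C} {ω : ℝ} {SB : Finset B} {SC : Finset C}

theorem T2_c1_some (v : B → ℂ) (w : C → ℂ) (a : A) :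
    c1 (T2 T b o ω) v w (some a) = c1 T v w a := by
  rfl

theorem T2_c1_none (v : B → ℂ) (w : C → ℂ) : c1 (T2 T b o ω) v w none = ω * (v b * w o) := by
  have h1 : c1 (T2 T b o ω) v w none =
      ∑ b', ∑ k, ((if b' = b ∧ k = o then ω else 0 : ℝ) : ℂ) * (v b' * w k) := rfl
  rw [h1, Finset.sum_eq_single b, Finset.sum_eq_single o]
  · rw [if_pos ⟨rfl, rfl⟩]
  · intro k _ hk
    rw [if_neg (fun h => hk h.2), Complex.ofReal_zero, zero_mul]
  · intro h
    exact absurd (Finset.mem_univ _) h
  · intro b' _ hb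
    refine Finset.sum_eq_zero fun k _ => ?_
    rw [if_neg (fun h => hb h.1), Complex.ofReal_zero, zero_mul]
  · intro h
    exact absurd (Finset.mem_univ _) h

/-- Contractions with a vector which vanishes at `none`. -/
theorem T2_c2 (u : Option A → ℂ) (hu : u none = 0) (w : C → ℂ) (b' : B) :
    c2 (T2 T b o ω) u w b' = c2 T (fun a => u (some a)) w b' := by
  rw [c2, Fintype.sum_option]
  have h1 : (∑ k, ((T2 T b o ω none b' k : ℝ) : ℂ) * (u none * w k)) = 0 := by
    refine Finset.sum_eq_zero fun k _ => ?_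
    rw [hu, zero_mul, mul_zero]
  rw [h1, zero_add]
  rfl

theorem T2_c3 (u : Option A → ℂ) (hu : u none = 0) (v : B → ℂ) (k : C) :
    c3 (T2 T b o ω) u v k = c3 T (fun a => u (some a)) v k := by
  rw [c3, Fintype.sum_option]
  have h1 : (∑ b', ((T2 T b o ω none b' k : ℝ) : ℂ) * (u none * v b')) = 0 := by
    refine Finset.sum_eq_zero fun k _ => ?_
    rw [hu, zero_mul, mul_zero]
  rw [h1, zero_add]
  rfl

/-- Restriction of a tuple which vanishes at `none`. -/
private theorem T2m_res {S : Finset (Option A)} (hS : ∀ a : A, some a ∈ S) {u : Option A → ℂ}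
    {v : B → ℂ} {w : C → ℂ} {α β γ : ℂ} (hu : u none = 0)
    (h : Tup (T2 T b o ω) S SB SC u v w α β γ) :
    Tup T Finset.univ SB SC (fun a => u (some a)) v w α β γ where
  su := fun a ha => absurd (Finset.mem_univ a) ha
  sv := h.sv
  sw := h.sw
  e1 := fun a _ => h.e1 (some a) (hS a)
  e2 := fun b' hb => by
    rw [← T2_c2 (b := b) (o := o) (ω := ω) u hu w b']
    exact h.e2 b' hb
  e3 := fun k hk => by
    rw [← T2_c3 (b := b) (o := o) (ω := ω) u hu v k]
    exact h.e3 k hk

/-- Restriction of a vector in the kernel. -/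
private theorem T2m_ker {S : Finset (Option A)} (hS : ∀ a : A, some a ∈ S) {u : Option A → ℂ}
    {v : B → ℂ} {w : C → ℂ} {α β γ : ℂ} (hu : u none = 0) {du : Option A → ℂ} {dv : B → ℂ}
    {dw : C → ℂ} {dα dβ dγ : ℂ} (hdu : du none = 0)
    (h : Ker (T2 T b o ω) S SB SC u v w α β γ du dv dw dα dβ dγ) :
    Ker T Finset.univ SB SC (fun a => u (some a)) v w α β γ (fun a => du (some a)) dv dw
      dα dβ dγ where
  su := fun a ha => absurd (Finset.mem_univ a) ha
  sv := h.sv
  sw := h.sw
  e1 := fun a _ => h.e1 (some a) (hS a)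
  e2 := fun b' hb => by
    rw [← T2_c2 (b := b) (o := o) (ω := ω) u hu dw b',
      ← T2_c2 (b := b) (o := o) (ω := ω) du hdu w b']
    exact h.e2 b' hb
  e3 := fun k hk => by
    rw [← T2_c3 (b := b) (o := o) (ω := ω) u hu dv k,
      ← T2_c3 (b := b) (o := o) (ω := ω) du hdu v k]
    exact h.e3 k hk

/-- Extension of the conclusion. -/
private theorem T2m_ok {S : Finset (Option A)} (hS : ∀ a : A, some a ∈ S) {u : Option A → ℂ}
    {v : B → ℂ} {w : C → ℂ} {α β γ : ℂ} (hu : u none = 0)
    (hdu : ∀ du dv dw dα dβ dγ, Ker (T2 T b o ω) S SB SC u v w α β γ du dv dw dα dβ dγ →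
      du none = 0)
    (h : Ok T Finset.univ SB SC (fun a => u (some a)) v w α β γ) :
    Ok (T2 T b o ω) S SB SC u v w α β γ where
  ru := by
    obtain ⟨r, hr, hr'⟩ := h.ru
    refine ⟨r, hr, fun a => ?_⟩
    cases a with
    | none => rw [hu, mul_zero, Complex.zero_im]
    | some a => exact hr' a
  rv := h.rv
  rw' := h.rw'
  hα := h.hα
  hβ := h.hβ
  hγ := h.hγ
  nd := by
    intro du dv dw dα dβ dγ hk
    have h0 := hdu du dv dw dα dβ dγ hk
    obtain ⟨⟨r, hr⟩, h2, h3⟩ := h.nd _ _ _ _ _ _ (T2m_ker hS hu h0 hk)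
    refine ⟨⟨r, ?_⟩, h2, h3⟩
    funext a
    cases a with
    | none => rw [Pi.smul_apply, h0, hu, smul_zero]
    | some a => exact congrFun hr a

private theorem T2m_ne {u : Option A → ℂ} (hu : u none = 0) (h : u ≠ 0) :
    (fun a => u (some a)) ≠ 0 := by
  intro h1
  apply h
  funext a
  cases a with
  | none => exact hu
  | some a => exact congrFun h1 a

private theorem T2m_mem (a : A) : some a ∈ (Finset.univ : Finset (Option A)).erase none := by
  simp

/-- Tuples of the mask without `none` are tuples of `T`. -/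
theorem T2_tup {u : Option A → ℂ} {v : B → ℂ} {w : C → ℂ} {α β γ : ℂ}
    (h : Tup (T2 T b o ω) (Finset.univ.erase none) SB SC u v w α β γ) :
    u none = 0 ∧ Tup T Finset.univ SB SC (fun a => u (some a)) v w α β γ := by
  have h0 : u none = 0 := h.su none (Finset.notMem_erase _ _)
  exact ⟨h0, T2m_res T2m_mem h0 h⟩

theorem T2_FR (hf : FR T Finset.univ SB SC) :
    FR (T2 T b o ω) (Finset.univ.erase none) SB SC := by
  intro u v w α β γ h hu hv hw
  obtain ⟨h0, h1⟩ := T2_tup h
  exact T2m_ok T2m_mem h0 (fun du dv dw dα dβ dγ hk => hk.su none (Finset.notMem_erase _ _))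
    (hf _ _ _ _ _ _ h1 (T2m_ne h0 hu) hv hw)

theorem T2_VR (hf : VR T Finset.univ SB SC) :
    VR (T2 T b o ω) (Finset.univ.erase none) SB SC := by
  intro v w hv hw h hv0 hw0
  obtain ⟨h1, h2, h3⟩ := hf v w hv hw (fun a _ => h (some a) (T2m_mem a)) hv0 hw0
  exact ⟨h1, h2, fun dv dw hdv hdw hk => h3 dv dw hdv hdw fun a _ => hk (some a) (T2m_mem a)⟩

/-- If the additional slice vanishes on the mask and `c1` has no zeros, then a singular tuple of the
full mask vanishes at `none`, and the full mask is fully real.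

Proof. Let `Tup (T2 ..) univ SB SC u v w α β γ`, nonzero. `e1` at `none`: `0 = α * u none`, because
`w o = 0` or `ω = 0` (`T2_c1_none`). If `α = 0` then `c1 T v w a = 0` for all `a`, which contradicts
`hV`. So `u none = 0`. -/
theorem T2_none (hV : VE T Finset.univ SB SC) (ho : o ∉ SC ∨ ω = 0) {u : Option A → ℂ} {v : B → ℂ}
    {w : C → ℂ} {α β γ : ℂ} (h : Tup (T2 T b o ω) Finset.univ SB SC u v w α β γ) (hv : v ≠ 0)
    (hw : w ≠ 0) : u none = 0 ∧ Tup T Finset.univ SB SC (fun a => u (some a)) v w α β γ := by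
  have h1 := h.e1 none (Finset.mem_univ _)
  rw [T2_c1_none] at h1
  have h2 : (ω : ℂ) * (v b * w o) = 0 := by
    rcases ho with ho | ho
    · rw [h.sw o ho, mul_zero, mul_zero]
    · rw [ho, Complex.ofReal_zero, zero_mul]
  rw [h2] at h1
  have h3 : α ≠ 0 := by
    intro h4
    rcases hV v w h.sv h.sw (fun a _ => by
      have h5 := h.e1 (some a) (Finset.mem_univ _)
      rw [h4, zero_mul] at h5
      exact h5) with h6 | h6
    · exact hv h6
    · exact hw h6
  have h0 : u none = 0 := (mul_eq_zero.1 h1.symm).resolve_left h3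
  exact ⟨h0, T2m_res (fun a => Finset.mem_univ _) h0 h⟩

/-- Proof. By `T2_none` a tuple `(u, v, w)` comes from a tuple `(u', v, w)` of `T`, which is `Ok`.
`Nd`: in the equations of the kernel at `none`, `ω * (dv b * w o + v b * dw o) = 0 =
α * du none + dα * 0`, so `du none = 0` as `α ≠ 0`, and `(du', dv, dw)` is in the kernel for
`(u', v, w)`. -/
theorem T2_FR0 (hf : FR T Finset.univ SB SC) (hV : VE T Finset.univ SB SC)
    (ho : o ∉ SC ∨ ω = 0) : FR (T2 T b o ω) Finset.univ SB SC := by
  intro u v w α β γ h hu hv hw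
  obtain ⟨h0, h1⟩ := T2_none hV ho h hv hw
  have hok := hf _ _ _ _ _ _ h1 (T2m_ne h0 hu) hv hw
  refine T2m_ok (fun a => Finset.mem_univ _) h0 (fun du dv dw dα dβ dγ hk => ?_) hok
  have h2 := hk.e1 none (Finset.mem_univ _)
  rw [T2_c1_none, T2_c1_none, h0, mul_zero, add_zero] at h2
  have h3 : (ω : ℂ) * (dv b * w o) + ω * (v b * dw o) = 0 := by
    rcases ho with ho | ho
    · simp only [h.sw o ho, hk.sw o ho, mul_zero, add_zero]
    · rw [ho, Complex.ofReal_zero, zero_mul, zero_mul, add_zero]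
  rw [h3] at h2
  exact (mul_eq_zero.1 h2.symm).resolve_left hok.hα

/-- Proof: `T2_FR0` with `ω = 0`, `FR_open`, and continuity of `ω ↦ T2 T b o ω`. -/
theorem T2_small (hf : FR T Finset.univ SB SC) (hV : VE T Finset.univ SB SC) :
    ∀ᶠ ω in 𝓝 (0 : ℝ), FR (T2 T b o ω) Finset.univ SB SC := by
  have h0 : FR (T2 T b o 0) Finset.univ SB SC := T2_FR0 hf hV (Or.inr rfl)
  have hc : Continuous fun ω : ℝ => T2 T b o ω := by
    refine continuous_pi fun a => continuous_pi fun b' => continuous_pi fun k => ?_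
    cases a with
    | none =>
      have h1 : (fun ω : ℝ => T2 T b o ω none b' k) =
          fun ω : ℝ => if b' = b ∧ k = o then ω else 0 := rfl
      rw [h1]
      by_cases h2 : b' = b ∧ k = o
      · simp only [if_pos h2]
        exact continuous_id
      · simp only [if_neg h2]
        exact continuous_const
    | some a => exact continuous_const
  exact (hc.tendsto 0).eventually (FR_open h0)

/-- Proof: restriction to fewer equations. -/
theorem T2_VE (hV : VE T Finset.univ SB SC) : VE (T2 T b o ω) Finset.univ SB SC ∧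
    VE (T2 T b o ω) (Finset.univ.erase none) SB SC := by
  refine ⟨fun v w hv hw h => hV v w hv hw fun a _ => h (some a) (Finset.mem_univ _),
    fun v w hv hw h => hV v w hv hw fun a _ => h (some a) (T2m_mem a)⟩

end

end Pool.Agent.MPb0eR
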