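import Mathlib
import Pool.Agent.Lib.MP_b0e20b_ag_R.StepB
import Pool.Agent.Lib.MP_b0e20b_ag_R.T2m

/-!
# MP_b0e20b_ag, project R: the hypotheses of the third level
-/

set_option autoImplicit false

open scoped BigOperators Topology
open Filter

namespace Pool.Agent.MPb0eR

section

variable {A B C : Type} [Fintype A] [Fintype B] [Fintype C] [DecidableEq A] [DecidableEq B]
  [DecidableEq C] {T : A → B → C → ℝ} {b oB : B} {c oC : C}

omit [Fintype A] [DecidableEq A] in
private theorem Hyp_ne {u : Option A → ℂ} (h0 : u none = 0) (hu : u ≠ 0) :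
    (fun a => u (some a)) ≠ 0 := by
  intro h
  refine hu (funext fun a => ?_)
  cases a with
  | none => exact h0
  | some a => exact congrFun h a

private theorem Hyp_MB (x : Bool) :
    MB oB x = if x then Finset.univ.erase oB else Finset.univ := rfl

private theorem Hyp_frt (hO : FO T b oB c oC) (y : Fin 3) :
    FR T Finset.univ (Finset.univ.erase oB) (MC c oC y) := by
  have h := hO.fr true y
  rwa [Hyp_MB, if_pos rfl] at h

private theorem Hyp_frf (hO : FO T b oB c oC) (y : Fin 3) :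
    FR T Finset.univ Finset.univ (MC c oC y) := by
  have h := hO.fr false y
  rwa [Hyp_MB, if_neg Bool.false_ne_true] at h

private theorem Hyp_MC1 : MC c oC 1 = Finset.univ.erase oC := by
  simp [MC]

private theorem Hyp_MC0 : MC c oC 0 = Finset.univ := by
  simp [MC]

private theorem Hyp_MCn {y : Fin 3} (hy : y ≠ 0) : oC ∉ MC c oC y := by
  unfold MC
  rw [if_neg hy]
  split_ifs
  · simp
  · simp

private theorem Hyp_sup {D : Type} [Fintype D] (w : D → ℂ) : Sup (Finset.univ : Finset D) w :=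
  fun a ha => absurd (Finset.mem_univ a) ha

private theorem Hyp_f2 (hO : FO T b oB c oC) (ω : ℝ)
    (hω : FR (T2 T b oC ω) Finset.univ (Finset.univ.erase oB) Finset.univ) (y : Fin 3) :
    FR (T2 T b oC ω) Finset.univ (Finset.univ.erase oB) (MC c oC y) := by
  by_cases hy : y = 0
  · subst hy
    rw [Hyp_MC0]
    exact hω
  · exact T2_FR0 (Hyp_frt hO y)
      (hO.ve.mono (Finset.Subset.refl _) (Finset.Subset.refl _) (Finset.subset_univ _))
      (Or.inl (Hyp_MCn hy))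

/-- The second level for the masks without `none`.

Proof. `stepB` for `T' = T2 T b oC ω`, `SA = univ.erase none`, `SB = univ`, `K = ∅`. `hF`: `T2_FR` with
`hO.fr false y` (`MB oB false = univ`). `hdc`: `T2_tup` and `hO.dc false 1`, `T2_c3`. `hV`: `T2_VR`,
`hO.vr`. `hVw`: `hO.vz` (`T2_c1_some`). -/
theorem hyp1 (hO : FO T b oB c oC) (ω : ℝ) :
    ∃ s0 : ℝ, 0 < s0 ∧ ∀ s, 0 < s → s < s0 →
      FRB (T2 T b oC ω) (Finset.univ.erase none) Finset.univ c oC s := by
  obtain ⟨s0, h0, h⟩ := stepB (T := T2 T b oC ω) (SA := Finset.univ.erase none)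
    (SB := Finset.univ) hO.hc (fun y => T2_FR (Hyp_frf hO y))
    (by
      intro u v w α β γ ht hu hv hw
      obtain ⟨hn, ht'⟩ := T2_tup ht
      have h1 := hO.dc false 1 (fun a => u (some a)) v w α β γ (by decide)
        (by rw [Hyp_MB, if_neg Bool.false_ne_true, Hyp_MC1]; exact ht') (Hyp_ne hn hu) hv hw
      rw [T2_c3 u hn, T2_c3 u hn]
      exact h1)
    (T2_VR hO.vr)
    (by
      intro v w _ he hv hw
      refine (hO.vz v w hv hw fun a => ?_).2
      rw [← T2_c1_some (T := T) (b := b) (o := oC) (ω := ω) v w a]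
      exact he (some a) (by simp))
    ∅ isClosed_empty (fun _ _ _ _ _ _ _ _ _ _ _ => Set.notMem_empty _)
    (fun _ _ _ _ _ _ _ _ => Set.notMem_empty _)
  exact ⟨s0, h0, fun s hs hs' => (h s hs hs').1⟩

/-- The second level for the masks without `none` and `oB`, with the sign condition.

Proof. `stepB` for `T' = T2 T b oC ω`, `SA = univ.erase none`, `SB = univ.erase oB`,
`K = {(u, v, w) | (conj (c2 T' u w b) * c2 T' u w oB).re ≤ 0}`, which is closed. `hF`: `T2_FR` with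
`hO.fr true y`. `hdc`: `hO.dc true 1`. `hV`, `hVw`, `hD`: there are no zeros, `hO.ve`
(`T2_VE`, `VE.vr`). `hL`: `T2_tup` and `hO.db y`: `c2 T u w oB = ρ * c2 T u w b`, so the number is
`ρ ‖c2 T u w b‖² > 0` (`T2_c2`). -/
theorem hyp12 (hO : FO T b oB c oC) (ω : ℝ) :
    ∃ s0 : ℝ, 0 < s0 ∧ ∀ s, 0 < s → s < s0 →
      FRB (T2 T b oC ω) (Finset.univ.erase none) (Finset.univ.erase oB) c oC s ∧
      ∀ ia ib ic u v w α β γ θ ν,
        BT (T2 T b oC ω) (Finset.univ.erase none) (Finset.univ.erase oB) c oC s u v w α β γ θ ν →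
        Nrm u ia → Nrm v ib → Nrm w ic →
        0 < (starRingEnd ℂ (c2 (T2 T b oC ω) u w b) * c2 (T2 T b oC ω) u w oB).re := by
  have hVE := (T2_VE (b := b) (o := oC) (ω := ω) hO.ve).2
  obtain ⟨s0, h0, h⟩ := stepB (T := T2 T b oC ω) (SA := Finset.univ.erase none)
    (SB := Finset.univ.erase oB) hO.hc (fun y => T2_FR (Hyp_frt hO y))
    (by
      intro u v w α β γ ht hu hv hw
      obtain ⟨hn, ht'⟩ := T2_tup ht
      have h1 := hO.dc true 1 (fun a => u (some a)) v w α β γ (by decide)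
        (by rw [Hyp_MB, if_pos rfl, Hyp_MC1]; exact ht') (Hyp_ne hn hu) hv hw
      rw [T2_c3 u hn, T2_c3 u hn]
      exact h1)
    hVE.vr
    (by
      intro v w hsv he hv hw
      rcases hVE v w hsv (Hyp_sup w) he with h1 | h1
      · exact absurd h1 hv
      · exact absurd h1 hw)
    {p | (starRingEnd ℂ (c2 (T2 T b oC ω) p.1 p.2.2 b) * c2 (T2 T b oC ω) p.1 p.2.2 oB).re ≤ 0}
    (by
      have hc : ∀ b', Continuous fun p : (Option A → ℂ) × (B → ℂ) × (C → ℂ) =>
          c2 (T2 T b oC ω) p.1 p.2.2 b' := by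
        intro b'
        unfold c2
        fun_prop
      exact isClosed_le (Complex.continuous_re.comp
        ((Complex.continuous_conj.comp (hc b)).mul (hc oB))) continuous_const)
    (by
      intro y u v w α β γ ht hu hv hw hK
      obtain ⟨hn, ht'⟩ := T2_tup ht
      obtain ⟨h1, ρ, hρ, h2⟩ := hO.db y (fun a => u (some a)) v w α β γ ht' (Hyp_ne hn hu) hv hw
      have hK' : (starRingEnd ℂ (c2 (T2 T b oC ω) u w b) *
        c2 (T2 T b oC ω) u w oB).re ≤ 0 := hK
      rw [T2_c2 u hn, T2_c2 u hn, h2] at hK'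
      have h3 : starRingEnd ℂ (c2 T (fun a => u (some a)) w b) *
          ((ρ : ℂ) * c2 T (fun a => u (some a)) w b) =
          ((ρ * Complex.normSq (c2 T (fun a => u (some a)) w b) : ℝ) : ℂ) := by
        rw [Complex.ofReal_mul, ← Complex.mul_conj]
        ring
      rw [h3, Complex.ofReal_re] at hK'
      exact absurd hK' (not_le.2 (mul_pos hρ (Complex.normSq_pos.2 h1))))
    (by
      intro u v w hsv he _ hv hw
      rcases hVE v w hsv (Hyp_sup w) he with h1 | h1
      · exact absurd h1 hv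
      · exact absurd h1 hw)
  refine ⟨s0, h0, fun s hs hs' => ⟨(h s hs hs').1, ?_⟩⟩
  intro ia ib ic u v w α β γ θ ν hb nu nv nw
  exact not_le.1 ((h s hs hs').2 ia ib ic u v w α β γ θ ν hb nu nv nw)

/-- The second level for the masks without `oB`.

Proof. `stepB` for `T' = T2 T b oC ω`, `SA = univ`, `SB = univ.erase oB`, `K = ∅`. `hF 0`: the
hypothesis `hω`; `hF y` for `y ≠ 0`: `T2_FR0`, because `oC ∉ MC c oC y`, with `hO.ve` (`VE.mono`).
`hdc`: `T2_none`, `hO.dc true 1`, `T2_c3`. `hV`, `hVw`: no zeros (`T2_VE`). -/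
theorem hyp2 (hO : FO T b oB c oC) (ω : ℝ)
    (hω : FR (T2 T b oC ω) Finset.univ (Finset.univ.erase oB) Finset.univ) :
    ∃ s0 : ℝ, 0 < s0 ∧ ∀ s, 0 < s → s < s0 →
      FRB (T2 T b oC ω) Finset.univ (Finset.univ.erase oB) c oC s := by
  have hVE := (T2_VE (b := b) (o := oC) (ω := ω) hO.ve).1
  obtain ⟨s0, h0, h⟩ := stepB (T := T2 T b oC ω) (SA := Finset.univ)
    (SB := Finset.univ.erase oB) hO.hc (Hyp_f2 hO ω hω)
    (by
      intro u v w α β γ ht hu hv hw
      obtain ⟨hn, ht'⟩ := T2_none (hO.ve.mono (Finset.Subset.refl _) (Finset.Subset.refl _)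
        (Finset.subset_univ (Finset.univ.erase oC))) (Or.inl (by simp)) ht hv hw
      have h1 := hO.dc true 1 (fun a => u (some a)) v w α β γ (by decide)
        (by rw [Hyp_MB, if_pos rfl, Hyp_MC1]; exact ht') (Hyp_ne hn hu) hv hw
      rw [T2_c3 u hn, T2_c3 u hn]
      exact h1)
    hVE.vr
    (by
      intro v w hsv he hv hw
      rcases hVE v w hsv (Hyp_sup w) he with h1 | h1
      · exact absurd h1 hv
      · exact absurd h1 hw)
    ∅ isClosed_empty (fun _ _ _ _ _ _ _ _ _ _ _ => Set.notMem_empty _)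
    (fun _ _ _ _ _ _ _ _ => Set.notMem_empty _)
  exact ⟨s0, h0, fun s hs hs' => (h s hs hs').1⟩

/-- Proof of the sign condition: for a real nonzero solution of the second level for the masks without
`none` and `oB`: `c1 T' v w none = ω v(b) w(oC)`, `c2 T' u w b = β v(b)` (`b ≠ oB`), and by the
condition of `hyp12` (invariant under rescaling: multiply by `‖r t‖ ^ 2` and so on)
`c2 T' u w oB * c2 T' u w b > 0` (real numbers). So, multiplying by the positive number
`(c2 T' u w b) ^ 2 = (β v b) ^ 2` or directly: `c1 * c2(oB) * ν = ω v(b) w(oC) c2(oB) ν =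
ω v(b) c2(oB) s θ = (ω s θ / β) * (β v(b) c2(oB))` with `ω, s > 0`, `θ β = q u q w > 0`, and
`β v(b) c2(oB) = c2(b) c2(oB) > 0`. -/
theorem hyp_sign (hb : b ≠ oB) {ω s : ℝ} (hω : 0 < ω) (hs : 0 < s)
    (hK : ∀ ia ib ic u v w α β γ θ ν,
      BT (T2 T b oC ω) (Finset.univ.erase none) (Finset.univ.erase oB) c oC s u v w α β γ θ ν →
      Nrm u ia → Nrm v ib → Nrm w ic →
      0 < (starRingEnd ℂ (c2 (T2 T b oC ω) u w b) * c2 (T2 T b oC ω) u w oB).re)
    {u : Option A → ℂ} {v : B → ℂ} {w : C → ℂ} {α β γ θ ν : ℂ}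
    (h : BT (T2 T b oC ω) (Finset.univ.erase none) (Finset.univ.erase oB) c oC s
      u v w α β γ θ ν) (hu : u ≠ 0) (hv : v ≠ 0) (hw : w ≠ 0) (ru : Rea u) (rv : Rea v)
    (rw' : Rea w) :
    0 < (c1 (T2 T b oC ω) v w none * c2 (T2 T b oC ω) u w oB * ν).re := by
  obtain ⟨r, ia, hr, h1⟩ := exists_nrm hu
  obtain ⟨t, ib, ht, h2⟩ := exists_nrm hv
  obtain ⟨k, ic, hk, h3⟩ := exists_nrm hw
  have h4 := hK ia ib ic _ _ _ _ _ _ _ _ (h.smul hr ht hk) h1 h2 h3
  rw [c2_smul_left, c2_smul_right, c2_smul_left, c2_smul_right] at h4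
  obtain ⟨x, hx⟩ : ∃ x : ℝ, c2 (T2 T b oC ω) u w b = x :=
    ⟨_, (Complex.ext rfl (by rw [c2_re _ u w ru rw', Complex.ofReal_im]))⟩
  obtain ⟨y, hy⟩ : ∃ y : ℝ, c2 (T2 T b oC ω) u w oB = y :=
    ⟨_, (Complex.ext rfl (by rw [c2_re _ u w ru rw', Complex.ofReal_im]))⟩
  have hxy : 0 < x * y := by
    rw [hx, hy] at h4
    have h5 : starRingEnd ℂ (r * (k * (x : ℂ))) * (r * (k * (y : ℂ))) =
        ((Complex.normSq r * Complex.normSq k * (x * y) : ℝ) : ℂ) := by
      simp only [map_mul, Complex.conj_ofReal, Complex.ofReal_mul, ← Complex.mul_conj]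
      ring
    rw [h5, Complex.ofReal_re] at h4
    exact (mul_pos_iff_of_pos_left
      (mul_pos (Complex.normSq_pos.2 hr) (Complex.normSq_pos.2 hk))).1 h4
  obtain ⟨-, hβ, -, -, -⟩ := h.re hs.ne' hu hv hw ru rv rw'
  obtain ⟨β', hβ'⟩ : ∃ β' : ℝ, β = β' := ⟨β.re, Complex.ext rfl (by rw [hβ, Complex.ofReal_im])⟩
  obtain ⟨qu, hqu, equ⟩ := q_pos ru hu
  obtain ⟨qw, hqw, eqw⟩ := q_pos rw' hw
  have e5 := h.e5
  have e2 := h.e2 b (by simp [hb])
  have e7 := h.e7
  rw [equ, eqw] at e5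
  have hβ0 : β ≠ 0 := by
    intro h0
    rw [h0, mul_zero] at e5
    have h6 : ((qu * qw : ℝ) : ℂ) = 0 := by
      rw [Complex.ofReal_mul]
      exact e5.symm
    exact (mul_pos hqu hqw).ne' (Complex.ofReal_eq_zero.1 h6)
  have hβ1 : β' ≠ 0 := by
    intro h0
    rw [h0] at hβ'
    exact hβ0 hβ'
  have hfin : c1 (T2 T b oC ω) v w none * c2 (T2 T b oC ω) u w oB * ν =
      ((ω * s * (qu * qw) * (x * y) / β' ^ 2 : ℝ) : ℂ) := by
    have hvb : v b = (x : ℂ) / β := by
      rw [eq_div_iff hβ0, mul_comm, ← e2, hx]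
    have hθ : θ = (qu : ℂ) * qw / β := by
      rw [eq_div_iff hβ0, e5]
    rw [T2_c1_none, hy]
    have h7 : (ω : ℂ) * (v b * w oC) * (y : ℂ) * ν = ω * v b * y * (w oC * ν) := by ring
    rw [h7, e7, hvb, hθ, hβ']
    push_cast
    have hβ2 : (β' : ℂ) ≠ 0 := Complex.ofReal_ne_zero.2 hβ1
    field_simp
  rw [hfin, Complex.ofReal_re]
  positivity

/-- The hypotheses of the third level hold for a suitable extension of the first order tensor.

Proof. `ω > 0` small by `T2_small` (for `SB = univ.erase oB`, `SC = univ`, with `hO.fr true 0` and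
`hO.ve`); then `s > 0` smaller than the bounds of `hyp1`, `hyp12`, `hyp2`. `f12`, `f1`: `T2_FR`;
`f2 0`: the choice of `ω`; `f2 y`, `y ≠ 0`: `T2_FR0`; `hv`: `T2_VR`; `sg'`: `hyp_sign`. -/
theorem hyp (hO : FO T b oB c oC) : ∃ ω s : ℝ, HY (T2 T b oC ω) none oB c oC s := by
  have h1 := T2_small (b := b) (o := oC) (SB := Finset.univ.erase oB) (SC := Finset.univ)
    (by have h := Hyp_frt hO 0; rwa [Hyp_MC0] at h) hO.ve
  obtain ⟨ω, hω, hωp⟩ := ((h1.filter_mono nhdsWithin_le_nhds).and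
    (self_mem_nhdsWithin : ∀ᶠ ω in 𝓝[>] (0 : ℝ), ω ∈ Set.Ioi (0 : ℝ))).exists
  obtain ⟨s1, hs1, g1⟩ := hyp1 hO ω
  obtain ⟨s2, hs2, g2⟩ := hyp12 hO ω
  obtain ⟨s3, hs3, g3⟩ := hyp2 hO ω hω
  have hm : 0 < min s1 (min s2 s3) := lt_min hs1 (lt_min hs2 hs3)
  have hs : 0 < min s1 (min s2 s3) / 2 := half_pos hm
  have hl : min s1 (min s2 s3) / 2 < min s1 (min s2 s3) := half_lt_self hm
  have l1 : min s1 (min s2 s3) / 2 < s1 := hl.trans_le (min_le_left _ _)
  have l2 : min s1 (min s2 s3) / 2 < s2 := hl.trans_le ((min_le_right _ _).trans (min_le_left _ _))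
  have l3 : min s1 (min s2 s3) / 2 < s3 :=
    hl.trans_le ((min_le_right _ _).trans (min_le_right _ _))
  refine ⟨ω, min s1 (min s2 s3) / 2, ⟨hs, hO.hc, (g2 _ hs l2).1, g3 _ hs l3, g1 _ hs l1,
    fun y => T2_FR (Hyp_frt hO y), Hyp_f2 hO ω hω, fun y => T2_FR (Hyp_frf hO y),
    T2_VR hO.vr, ?_⟩⟩
  intro u v w α β γ θ ν hbt hu hv hw ru rv rw'
  exact hyp_sign hO.hb hωp hs (g2 _ hs l2).2 hbt hu hv hw ru rv rw'

end

end Pool.Agent.MPb0eR
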