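import Mathlib
import Pool.Agent.Lib.MP_b0e20b_ag_Q.CDefs
import Pool.Agent.Lib.MP_b0e20b_ag_R.Alg2
import Pool.Agent.Lib.MP_b0e20b_ag_R.ADefs

/-!
# MP_b0e20b_ag, project R: the critical system and the tensor equations
-/

set_option autoImplicit false

open scoped BigOperators Topology
open Filter

namespace Pool.Agent.MPb0eR

open MPb0eQ (Sct blk Kx toC)

/-- The section which consists of the given coordinates. -/
def sc3 {n : Fin 3 → ℕ} (i j k : Fin 3) (a : Option (Fin (n i))) (b : Option (Fin (n j)))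
    (c : Option (Fin (n k))) : Finset (Kx n) :=
  (a.elim ∅ fun x => {⟨i, x⟩}) ∪ (b.elim ∅ fun x => {⟨j, x⟩}) ∪ (c.elim ∅ fun x => {⟨k, x⟩})

private theorem Lnk_op {n : Fin 3 → ℕ} {l : Fin 3} (a : Option (Fin (n l))) (p : Kx n) :
    p ∈ (a.elim ∅ fun x => {⟨l, x⟩} : Finset (Kx n)) ↔ ∃ x, a = some x ∧ p = ⟨l, x⟩ := by
  cases a <;> simp

private theorem Lnk_mem {n : Fin 3 → ℕ} {i j k : Fin 3} {a : Option (Fin (n i))}
    {b : Option (Fin (n j))} {c : Option (Fin (n k))} {p : Kx n} : p ∈ sc3 i j k a b c ↔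
      (∃ x, a = some x ∧ p = ⟨i, x⟩) ∨ (∃ x, b = some x ∧ p = ⟨j, x⟩) ∨
        ∃ x, c = some x ∧ p = ⟨k, x⟩ := by
  unfold sc3
  rw [Finset.mem_union, Finset.mem_union, Lnk_op, Lnk_op, Lnk_op, or_assoc]

private theorem Lnk_swap {n : Fin 3 → ℕ} {i j k : Fin 3} (a : Option (Fin (n i)))
    (b : Option (Fin (n j))) (c : Option (Fin (n k))) : sc3 i j k a b c = sc3 j i k b a c := by
  ext p
  rw [Lnk_mem, Lnk_mem]
  exact or_left_comm

private theorem Lnk_rot {n : Fin 3 → ℕ} {i j k : Fin 3} (a : Option (Fin (n i)))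
    (b : Option (Fin (n j))) (c : Option (Fin (n k))) : sc3 k i j c a b = sc3 i j k a b c := by
  ext p
  rw [Lnk_mem, Lnk_mem]
  exact or_rotate

private theorem Lnk_mi {n : Fin 3 → ℕ} {i j k : Fin 3} (hij : i ≠ j) (hik : i ≠ k)
    {a : Option (Fin (n i))} {b : Option (Fin (n j))} {c : Option (Fin (n k))} {x : Fin (n i)} :
    (⟨i, x⟩ : Kx n) ∈ sc3 i j k a b c ↔ a = some x := by
  rw [Lnk_mem]
  constructor
  · rintro (⟨y, h, e⟩ | ⟨y, h, e⟩ | ⟨y, h, e⟩)
    · rw [h, sigma_mk_injective e]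
    · exact absurd (congrArg Sigma.fst e) hij
    · exact absurd (congrArg Sigma.fst e) hik
  · intro h
    exact Or.inl ⟨x, h, rfl⟩

private theorem Lnk_ex (i j k l : Fin 3) (hij : i ≠ j) (hik : i ≠ k) (hjk : j ≠ k) :
    l = i ∨ l = j ∨ l = k := by
  revert i j k l
  decide

/-- It is a section. -/
theorem sc3_sct {n : Fin 3 → ℕ} {i j k : Fin 3} (hij : i ≠ j) (hik : i ≠ k) (hjk : j ≠ k)
    (a : Option (Fin (n i))) (b : Option (Fin (n j))) (c : Option (Fin (n k))) :
    ∀ x ∈ sc3 i j k a b c, ∀ y ∈ sc3 i j k a b c, blk n x = blk n y → x = y := by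
  intro p hp r hr h
  rw [Lnk_mem] at hp hr
  rcases hp with ⟨x, h1, rfl⟩ | ⟨x, h1, rfl⟩ | ⟨x, h1, rfl⟩ <;>
    rcases hr with ⟨y, h2, rfl⟩ | ⟨y, h2, rfl⟩ | ⟨y, h2, rfl⟩
  · rw [Option.some_injective _ (h1.symm.trans h2)]
  · exact absurd h hij
  · exact absurd h hik
  · exact absurd h hij.symm
  · rw [Option.some_injective _ (h1.symm.trans h2)]
  · exact absurd h hjk
  · exact absurd h hik.symm
  · exact absurd h hjk.symm
  · rw [Option.some_injective _ (h1.symm.trans h2)]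

private theorem Lnk_opt {n : Fin 3 → ℕ} (s : Sct (blk n)) (i : Fin 3) :
    ∃ a : Option (Fin (n i)), ∀ x, a = some x ↔ (⟨i, x⟩ : Kx n) ∈ s.1 := by
  by_cases h : ∃ x : Fin (n i), (⟨i, x⟩ : Kx n) ∈ s.1
  · obtain ⟨x, hx⟩ := h
    refine ⟨some x, fun y => ?_⟩
    constructor
    · intro e
      rw [← Option.some_injective _ e]
      exact hx
    · intro hy
      rw [sigma_mk_injective (s.2 _ hx _ hy rfl)]
  · refine ⟨none, fun y => ?_⟩
    constructor
    · intro e
      exact absurd e (by simp)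
    · intro hy
      exact absurd ⟨y, hy⟩ h

/-- Every section is of this form, for unique `a, b, c`. -/
theorem sc3_bij {n : Fin 3 → ℕ} {i j k : Fin 3} (hij : i ≠ j) (hik : i ≠ k) (hjk : j ≠ k) :
    Function.Bijective
      (fun t : Option (Fin (n i)) × Option (Fin (n j)) × Option (Fin (n k)) =>
        (⟨sc3 i j k t.1 t.2.1 t.2.2, sc3_sct hij hik hjk t.1 t.2.1 t.2.2⟩ : Sct (blk n))) := by
  constructor
  · rintro ⟨a, b, c⟩ ⟨a', b', c'⟩ h
    have h1 : sc3 i j k a b c = sc3 i j k a' b' c' := congrArg Subtype.val h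
    have e1 : a = a' := by
      refine Option.ext fun x => ?_
      rw [← Lnk_mi hij hik (b := b) (c := c), h1, Lnk_mi hij hik]
    have e2 : b = b' := by
      refine Option.ext fun x => ?_
      rw [← Lnk_mi hij.symm hjk (b := a) (c := c), ← Lnk_swap, h1, Lnk_swap,
        Lnk_mi hij.symm hjk]
    have e3 : c = c' := by
      refine Option.ext fun x => ?_
      rw [← Lnk_mi hik.symm hjk.symm (b := a) (c := b), Lnk_rot, h1, ← Lnk_rot,
        Lnk_mi hik.symm hjk.symm]
    rw [e1, e2, e3]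
  · intro s
    obtain ⟨a, ha⟩ := Lnk_opt s i
    obtain ⟨b, hb⟩ := Lnk_opt s j
    obtain ⟨c, hc⟩ := Lnk_opt s k
    refine ⟨(a, b, c), Subtype.ext ?_⟩
    ext ⟨l, y⟩
    change (⟨l, y⟩ : Kx n) ∈ sc3 i j k a b c ↔ _
    rcases Lnk_ex i j k l hij hik hjk with rfl | rfl | rfl
    · rw [Lnk_mi hij hik, ha]
    · rw [Lnk_swap, Lnk_mi hij.symm hjk, hb]
    · rw [← Lnk_rot, Lnk_mi hik.symm hjk.symm, hc]

/-- The vector `(1, x)`. -/
private def Lnk_V {n : Fin 3 → ℕ} (x : Kx n → ℂ) (l : Fin 3) (b : Option (Fin (n l))) : ℂ :=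
  b.elim 1 fun y => x ⟨l, y⟩

private theorem Lnk_sq {n : Fin 3 → ℕ} (x : Kx n → ℂ) (l : Fin 3) :
    MPb0eQ.sq (blk n) x l = ∑ b, Lnk_V x l b ^ 2 := by
  unfold MPb0eQ.sq
  rw [Fintype.sum_option, Fintype.sum_sigma, Finset.sum_eq_single l]
  · simp [Lnk_V, blk]
  · intro m _ hm
    refine Finset.sum_eq_zero fun y _ => ?_
    rw [if_neg]
    exact hm
  · intro h
    exact absurd (Finset.mem_univ _) h

private theorem Lnk_prod {n : Fin 3 → ℕ} {i j k : Fin 3} (hij : i ≠ j) (hik : i ≠ k)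
    (hjk : j ≠ k) (x : Kx n → ℂ) (y : Fin (n i)) (b : Option (Fin (n j)))
    (c : Option (Fin (n k))) :
    ∏ l ∈ sc3 i j k (some y) b c \ {⟨i, y⟩}, x l = Lnk_V x j b * Lnk_V x k c := by
  have h1 : sc3 i j k (some y) b c \ {⟨i, y⟩} =
      (b.elim ∅ fun x => {⟨j, x⟩}) ∪ (c.elim ∅ fun x => {⟨k, x⟩}) := by
    ext p
    rw [Finset.mem_sdiff, Finset.mem_singleton, Lnk_mem, Finset.mem_union, Lnk_op, Lnk_op]
    constructor
    · rintro ⟨h | h | h, h2⟩
      · obtain ⟨z, e1, e2⟩ := h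
        rw [← Option.some_injective _ e1] at e2
        exact absurd e2 h2
      · exact Or.inl h
      · exact Or.inr h
    · rintro (h | h)
      · refine ⟨Or.inr (Or.inl h), ?_⟩
        obtain ⟨z, e1, e2⟩ := h
        intro e3
        rw [e2] at e3
        exact hij (congrArg Sigma.fst e3).symm
      · refine ⟨Or.inr (Or.inr h), ?_⟩
        obtain ⟨z, e1, e2⟩ := h
        intro e3
        rw [e2] at e3
        exact hik (congrArg Sigma.fst e3).symm
  rw [h1, Finset.prod_union]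
  · congr 1
    · cases b <;> simp [Lnk_V]
    · cases c <;> simp [Lnk_V]
  · rw [Finset.disjoint_left]
    intro p h2 h3
    rw [Lnk_op] at h2 h3
    obtain ⟨z, -, e1⟩ := h2
    obtain ⟨z', -, e2⟩ := h3
    rw [e1] at e2
    exact hjk (congrArg Sigma.fst e2)

private theorem Lnk_key {n : Fin 3 → ℕ} {i j k : Fin 3} (hij : i ≠ j) (hik : i ≠ k)
    (hjk : j ≠ k) (c : Sct (blk n) → ℝ) (x : Kx n → ℂ)
    (hx : MPb0eQ.G (blk n) (toC (blk n) c) x = 0) (y : Fin (n i)) :
    (∑ b, ∑ g, (c ⟨sc3 i j k (some y) b g, sc3_sct hij hik hjk _ _ _⟩ : ℂ) *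
      (Lnk_V x j b * Lnk_V x k g)) =
      (∑ b, Lnk_V x j b ^ 2) * (∑ g, Lnk_V x k g ^ 2) * x ⟨i, y⟩ := by
  have h1 : MPb0eQ.G (blk n) (toC (blk n) c) x ⟨i, y⟩ = 0 := by
    rw [hx]
    rfl
  have h2 : MPb0eQ.PA (blk n) x {blk n ⟨i, y⟩} =
      (∑ b, Lnk_V x j b ^ 2) * (∑ g, Lnk_V x k g ^ 2) := by
    have e : ({blk n ⟨i, y⟩}ᶜ : Finset (Fin 3)) = {j, k} := by
      ext l
      rw [Finset.mem_compl, Finset.mem_singleton, Finset.mem_insert, Finset.mem_singleton]
      change ¬ l = i ↔ _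
      constructor
      · intro h
        exact (Lnk_ex i j k l hij hik hjk).resolve_left h
      · rintro (rfl | rfl)
        · exact hij.symm
        · exact hik.symm
    unfold MPb0eQ.PA
    rw [e, Finset.prod_pair hjk, Lnk_sq, Lnk_sq]
  have h3 : MPb0eQ.dS (blk n) (toC (blk n) c) x {⟨i, y⟩} =
      ∑ b, ∑ g, (c ⟨sc3 i j k (some y) b g, sc3_sct hij hik hjk _ _ _⟩ : ℂ) *
        (Lnk_V x j b * Lnk_V x k g) := by
    unfold MPb0eQ.dS
    rw [← (Equiv.ofBijective _ (sc3_bij (n := n) hij hik hjk)).sum_comp,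
      Fintype.sum_prod_type, Finset.sum_eq_single (some y)]
    · rw [Fintype.sum_prod_type]
      refine Finset.sum_congr rfl fun b _ => Finset.sum_congr rfl fun g _ => ?_
      change (if {⟨i, y⟩} ⊆ sc3 i j k (some y) b g then
        (c ⟨sc3 i j k (some y) b g, sc3_sct hij hik hjk _ _ _⟩ : ℂ) *
          ∏ l ∈ sc3 i j k (some y) b g \ {⟨i, y⟩}, x l else 0) = _
      rw [if_pos, Lnk_prod hij hik hjk]
      rw [Finset.singleton_subset_iff, Lnk_mi hij hik]
    · intro a _ ha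
      refine Finset.sum_eq_zero fun p _ => ?_
      rw [if_neg]
      change ¬ {⟨i, y⟩} ⊆ sc3 i j k a p.1 p.2
      rw [Finset.singleton_subset_iff, Lnk_mi hij hik]
      exact ha
    · intro h
      exact absurd (Finset.mem_univ _) h
  rw [← h3, ← h2]
  unfold MPb0eQ.G at h1
  rw [mul_comm]
  exact (sub_eq_zero.1 h1).symm

/-- From open sets of tensors to open sets of coefficients.

Proof. For `c : Sct (blk n) → ℝ` let `M c` be the tensor with
`M c (eA a) (eB b) (eC g) = c (sc3 i j k a b g)`; this is continuous in `c`, and `M c0 = M0` for a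
suitable `c0` (`sc3_bij`). Let `x` solve `G (blk n) (toC c) x = 0`. Let `u (eA none) = 1`,
`u (eA (some a)) = x ⟨i, a⟩` and so on. Then `(u, v, w)` satisfies `AF (M c) oA oB oC`: for
`a : Fin (n i)` the equation `G .. ⟨i, a⟩ = 0` is `x ⟨i, a⟩ * PA x {i} = dS c x {⟨i, a⟩}`, where
`PA x {i} = sq x j * sq x k = q v * q w` (`q v = 1 + ∑ b, x ⟨j, b⟩ ^ 2`), and
`dS c x {⟨i, a⟩} = ∑ over the sections s containing ⟨i, a⟩ = ∑ b g, c (sc3 (some a) b g) *
(v (eB b)) * (w (eC g)) = c1 (M c) v w (eA (some a))` (`sc3_bij`). So for `c` near `c0` the vectors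
are real, so `x` is real. -/
theorem lnk {n : Fin 3 → ℕ} {i j k : Fin 3} (hij : i ≠ j) (hik : i ≠ k) (hjk : j ≠ k)
    {A B C : Type} [Fintype A] [Fintype B] [Fintype C] {oA : A} {oB : B} {oC : C}
    (eA : Option (Fin (n i)) ≃ A) (hA : eA none = oA) (eB : Option (Fin (n j)) ≃ B)
    (hB : eB none = oB) (eC : Option (Fin (n k)) ≃ C) (hC : eC none = oC) {M0 : A → B → C → ℝ}
    (hM : ∀ᶠ M in 𝓝 M0, ∀ u v w, AF M oA oB oC u v w → Rea u ∧ Rea v ∧ Rea w) :
    ∃ c0 : Sct (blk n) → ℝ, ∀ᶠ c in 𝓝 c0, ∀ x : Kx n → ℂ,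
      MPb0eQ.G (blk n) (toC (blk n) c) x = 0 → ∀ l, (x l).im = 0 := by
  set E := Equiv.ofBijective _ (sc3_bij (n := n) hij hik hjk) with hE
  let Φ : (Sct (blk n) → ℝ) → A → B → C → ℝ := fun c a b g =>
    c ⟨sc3 i j k (eA.symm a) (eB.symm b) (eC.symm g), sc3_sct hij hik hjk _ _ _⟩
  have hΦ : Continuous Φ :=
    continuous_pi fun a => continuous_pi fun b => continuous_pi fun g => continuous_apply _
  let c0 : Sct (blk n) → ℝ := fun s =>
    M0 (eA (E.symm s).1) (eB (E.symm s).2.1) (eC (E.symm s).2.2)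
  have h0 : Φ c0 = M0 := by
    funext a b g
    have e : E.symm ⟨sc3 i j k (eA.symm a) (eB.symm b) (eC.symm g),
        sc3_sct hij hik hjk _ _ _⟩ = (eA.symm a, eB.symm b, eC.symm g) :=
      E.symm_apply_apply (eA.symm a, eB.symm b, eC.symm g)
    change M0 (eA (E.symm _).1) (eB (E.symm _).2.1) (eC (E.symm _).2.2) = _
    rw [e, Equiv.apply_symm_apply, Equiv.apply_symm_apply, Equiv.apply_symm_apply]
  have hM' : ∀ᶠ c in 𝓝 c0, ∀ u v w, AF (Φ c) oA oB oC u v w → Rea u ∧ Rea v ∧ Rea w := by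
    have ht : Tendsto Φ (𝓝 c0) (𝓝 M0) := by
      rw [← h0]
      exact hΦ.tendsto c0
    exact ht.eventually hM
  refine ⟨c0, ?_⟩
  filter_upwards [hM'] with c hc x hx
  have sA : eA.symm oA = none := by rw [← hA, Equiv.symm_apply_apply]
  have sB : eB.symm oB = none := by rw [← hB, Equiv.symm_apply_apply]
  have sC : eC.symm oC = none := by rw [← hC, Equiv.symm_apply_apply]
  have qA : q (fun a => Lnk_V x i (eA.symm a)) = ∑ a, Lnk_V x i a ^ 2 :=
    eA.symm.sum_comp fun a => Lnk_V x i a ^ 2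
  have qB : q (fun b => Lnk_V x j (eB.symm b)) = ∑ b, Lnk_V x j b ^ 2 :=
    eB.symm.sum_comp fun b => Lnk_V x j b ^ 2
  have qC : q (fun g => Lnk_V x k (eC.symm g)) = ∑ g, Lnk_V x k g ^ 2 :=
    eC.symm.sum_comp fun g => Lnk_V x k g ^ 2
  have hAF : AF (Φ c) oA oB oC (fun a => Lnk_V x i (eA.symm a))
      (fun b => Lnk_V x j (eB.symm b)) (fun g => Lnk_V x k (eC.symm g)) := by
    refine ⟨by rw [sA]; rfl, by rw [sB]; rfl, by rw [sC]; rfl, ?_, ?_, ?_⟩
    · intro a ha
      obtain ⟨a, rfl⟩ := eA.surjective a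
      cases a with
      | none => exact absurd hA ha
      | some y =>
        rw [qB, qC]
        simp only [Equiv.symm_apply_apply]
        change _ = _ * x ⟨i, y⟩
        rw [← Lnk_key hij hik hjk c x hx y]
        unfold c1
        rw [← eB.symm.sum_comp]
        refine Finset.sum_congr rfl fun b _ => ?_
        rw [← eC.symm.sum_comp]
        refine Finset.sum_congr rfl fun g _ => ?_
        simp only [Φ, Equiv.symm_apply_apply]
    · intro b hb
      obtain ⟨b, rfl⟩ := eB.surjective b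
      cases b with
      | none => exact absurd hB hb
      | some y =>
        rw [qA, qC]
        simp only [Equiv.symm_apply_apply]
        change _ = _ * x ⟨j, y⟩
        rw [← Lnk_key hij.symm hjk hik c x hx y]
        unfold c2
        rw [← eA.symm.sum_comp]
        refine Finset.sum_congr rfl fun a _ => ?_
        rw [← eC.symm.sum_comp]
        refine Finset.sum_congr rfl fun g _ => ?_
        simp only [Φ, Equiv.symm_apply_apply, Lnk_swap (eA.symm a)]
    · intro g hg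
      obtain ⟨g, rfl⟩ := eC.surjective g
      cases g with
      | none => exact absurd hC hg
      | some y =>
        rw [qA, qB]
        simp only [Equiv.symm_apply_apply]
        change _ = _ * x ⟨k, y⟩
        rw [← Lnk_key hik.symm hjk.symm hij c x hx y]
        unfold c3
        rw [← eA.symm.sum_comp]
        refine Finset.sum_congr rfl fun a _ => ?_
        rw [← eB.symm.sum_comp]
        refine Finset.sum_congr rfl fun b _ => ?_
        simp only [Φ, Equiv.symm_apply_apply, Lnk_rot]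
  obtain ⟨r1, r2, r3⟩ := hc _ _ _ hAF
  rintro ⟨l, y⟩
  rcases Lnk_ex i j k l hij hik hjk with rfl | rfl | rfl
  · have h := r1 (eA (some y))
    simp only [Equiv.symm_apply_apply] at h
    exact h
  · have h := r2 (eB (some y))
    simp only [Equiv.symm_apply_apply] at h
    exact h
  · have h := r3 (eC (some y))
    simp only [Equiv.symm_apply_apply] at h
    exact h

end Pool.Agent.MPb0eR
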