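import Mathlib
import Pool.Agent.Lib.MP_b0e20b_ag_Q.Fin

/-!
# MP_b0e20b_ag: an open set of coefficients with real solutions is enough, for every number of
factors
-/

set_option autoImplicit false

open scoped BigOperators Topology
open Filter

namespace Pool.Agent.MPb0eR

open MPb0eQ (Sct blk Kx toC Tensor total IsReal crit realCrit IsGenericNumber)

/-- If all solutions are real for an open set of coefficients, then all odd numbers up to the
generic number are attained. Any number of factors `d ≥ 3`. -/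
theorem attained_all_d {d : ℕ} (hd : 3 ≤ d) (n : Fin d → ℕ) (hn : ∀ i, 1 ≤ n i)
    (h : ∃ c0 : Sct (blk n) → ℝ, ∀ᶠ c in 𝓝 c0, ∀ x : Kx n → ℂ,
      MPb0eQ.G (blk n) (toC (blk n) c) x = 0 → ∀ l, (x l).im = 0) :
    ∃ N : ℕ, IsGenericNumber n N ∧ Odd N ∧
      ∀ k : ℕ, (∃ T : Tensor n, total T = 1 ∧ IsReal T ∧ (crit T).encard = N ∧
        (realCrit T).encard = k) ↔ Odd k ∧ k ≤ N := by
  obtain ⟨N, K, P, hP, hN, hNo, hKo, hKN, hk, -⟩ :=
    MPb0eQ.coords (blk n) hd (fun i => ⟨⟨i, ⟨0, hn i⟩⟩, rfl⟩)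
  obtain ⟨c0, hc0⟩ := h
  obtain ⟨c, hc, hcP⟩ := MPb0eP.dense_ne_real P hP c0 _ hc0
  have hcN : {x | MPb0eQ.G (blk n) (toC (blk n) c) x = 0}.encard = N := hN _ hcP
  have hre : {x | MPb0eQ.G (blk n) (toC (blk n) c) x = 0} =
      (fun x : Kx n → ℝ => fun k => (x k : ℂ)) '' {x | MPb0eQ.G (blk n) c x = 0} := by
    ext x
    constructor
    · intro hx
      have h1 : MPb0eQ.G (blk n) (toC (blk n) c) x = 0 := hx
      have h2 := hc x h1
      have h3 : (fun k => (((x k).re : ℝ) : ℂ)) = x := by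
        funext k
        exact Complex.ext (by simp) (by simp [h2 k])
      refine ⟨fun k => (x k).re, ?_, h3⟩
      change MPb0eQ.G (blk n) c (fun k => (x k).re) = 0
      funext k
      have h4 := MPb0eQ.G_toC (blk n) c (fun k => (x k).re) k
      rw [h3, h1] at h4
      exact Complex.ofReal_injective (by simpa using h4.symm)
    · rintro ⟨y, hy, rfl⟩
      have h1 : MPb0eQ.G (blk n) c y = 0 := hy
      change MPb0eQ.G (blk n) (toC (blk n) c) (fun k => (y k : ℂ)) = 0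
      funext k
      rw [MPb0eQ.G_toC, h1]
      simp
  have hinj : Function.Injective (fun x : Kx n → ℝ => fun k => (x k : ℂ)) := by
    intro x y hxy
    funext k
    exact Complex.ofReal_injective (congrFun hxy k)
  have hcR : {x | MPb0eQ.G (blk n) c x = 0}.encard = N := by
    rw [← hinj.encard_image, ← hre, hcN]
  have hNK : N ≤ K := ((hk N).1 ⟨c, hcN, hcR⟩).2
  have hKN' : K = N := le_antisymm hKN hNK
  rw [hKN'] at hk
  refine ⟨N, MPb0eQ.generic_of P hP hN, hNo, ?_⟩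
  intro k
  rw [← hk k]
  constructor
  · rintro ⟨T, _, hr, h1, h2⟩
    obtain ⟨c, hc⟩ := MPb0eQ.par_real T hr
    refine ⟨c, ?_, ?_⟩
    · rw [← hc, ← MPb0eQ.crit_encard, h1]
    · rw [← MPb0eQ.realCrit_encard T c hc, h2]
  · rintro ⟨c, h1, h2⟩
    classical
    set c' : Sct (blk n) → ℝ := fun s => if s.1 = ∅ then 1 else c s with hc'
    have e1 : ∀ x, MPb0eQ.G (blk n) (toC (blk n) c') x = MPb0eQ.G (blk n) (toC (blk n) c) x := by
      intro x
      apply MPb0eQ.G_empty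
      intro s hs
      simp [toC, hc', hs]
    have e2 : ∀ x, MPb0eQ.G (blk n) c' x = MPb0eQ.G (blk n) c x := by
      intro x
      apply MPb0eQ.G_empty
      intro s hs
      simp [hc', hs]
    refine ⟨MPb0eQ.ten (toC (blk n) c'), ?_, MPb0eQ.ten_real c', ?_, ?_⟩
    · rw [← MPb0eQ.par_empty _ (by simp), MPb0eQ.par_ten]
      simp [toC, hc']
    · rw [MPb0eQ.crit_encard, MPb0eQ.par_ten]
      simp only [e1]
      exact h1
    · rw [MPb0eQ.realCrit_encard (MPb0eQ.ten (toC (blk n) c')) c' (MPb0eQ.par_ten _)]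
      simp only [e2]
      exact h2

/-- Sequences: if for all sequences of coefficients `c' m` in the neighbourhoods `V m` of `c m` and
all sequences of complex solutions `x m` the solution `x m` is real for some `m`, then there is an
open set of coefficients with real solutions. -/
theorem open_of_seq {d : ℕ} (n : Fin d → ℕ) (c : ℕ → Sct (blk n) → ℝ)
    (V : ℕ → Set (Sct (blk n) → ℝ)) (hV : ∀ m, V m ∈ 𝓝 (c m))
    (h : ∀ (c' : ℕ → Sct (blk n) → ℝ) (x : ℕ → Kx n → ℂ), (∀ m, c' m ∈ V m) →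
      (∀ m, MPb0eQ.G (blk n) (toC (blk n) (c' m)) (x m) = 0) →
        ∃ m, ∀ l, (x m l).im = 0) :
    ∃ c0 : Sct (blk n) → ℝ, ∀ᶠ c in 𝓝 c0, ∀ x : Kx n → ℂ,
      MPb0eQ.G (blk n) (toC (blk n) c) x = 0 → ∀ l, (x l).im = 0 := by
  by_contra hc
  have h1 : ∀ m, ∃ c' ∈ V m, ∃ x : Kx n → ℂ,
      MPb0eQ.G (blk n) (toC (blk n) c') x = 0 ∧ ¬ ∀ l, (x l).im = 0 := by
    intro m
    by_contra h2
    refine hc ⟨c m, ?_⟩
    filter_upwards [hV m] with c' hc' x hx
    by_contra h3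
    exact h2 ⟨c', hc', x, hx, h3⟩
  choose c' hc' x hx hn using h1
  obtain ⟨m, hm⟩ := h c' x hc' hx
  exact hn m hm

/-- The sequence form of `attained_all_d`, with an ultrafilter (or any nontrivial filter) and balls
of positive radii. -/
theorem attained_all_seq {d : ℕ} (hd : 3 ≤ d) (n : Fin d → ℕ) (hn : ∀ i, 1 ≤ n i)
    (F : Filter ℕ) [F.NeBot] (c : ℕ → Sct (blk n) → ℝ) (r : ℕ → ℝ) (hr : ∀ m, 0 < r m)
    (h : ∀ (c' : ℕ → Sct (blk n) → ℝ) (x : ℕ → Kx n → ℂ), (∀ m s, |c' m s - c m s| ≤ r m) →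
      (∀ m, MPb0eQ.G (blk n) (toC (blk n) (c' m)) (x m) = 0) →
        ∀ᶠ m in F, ∀ l, (x m l).im = 0) :
    ∃ N : ℕ, IsGenericNumber n N ∧ Odd N ∧
      ∀ k : ℕ, (∃ T : Tensor n, total T = 1 ∧ IsReal T ∧ (crit T).encard = N ∧
        (realCrit T).encard = k) ↔ Odd k ∧ k ≤ N := by
  refine attained_all_d hd n hn (open_of_seq n c (fun m => Metric.closedBall (c m) (r m))
    (fun m => Metric.closedBall_mem_nhds _ (hr m)) fun c' x hc' hx => ?_)
  refine (h c' x (fun m s => ?_) hx).exists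
  have h1 := hc' m
  rw [Metric.mem_closedBall] at h1
  rw [← Real.dist_eq]
  exact (dist_le_pi_dist (c' m) (c m) s).trans h1

/-- The same with relative perturbations of nonzero coefficients. -/
theorem attained_all_rel {d : ℕ} (hd : 3 ≤ d) (n : Fin d → ℕ) (hn : ∀ i, 1 ≤ n i)
    (F : Filter ℕ) [F.NeBot] (c : ℕ → Sct (blk n) → ℝ) (hc : ∀ m s, c m s ≠ 0) (r : ℕ → ℝ)
    (hr : ∀ m, 0 < r m)
    (h : ∀ (c' : ℕ → Sct (blk n) → ℝ) (x : ℕ → Kx n → ℂ),
      (∀ m s, |c' m s - c m s| ≤ r m * |c m s|) →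
      (∀ m, MPb0eQ.G (blk n) (toC (blk n) (c' m)) (x m) = 0) →
        ∀ᶠ m in F, ∀ l, (x m l).im = 0) :
    ∃ N : ℕ, IsGenericNumber n N ∧ Odd N ∧
      ∀ k : ℕ, (∃ T : Tensor n, total T = 1 ∧ IsReal T ∧ (crit T).encard = N ∧
        (realCrit T).encard = k) ↔ Odd k ∧ k ≤ N := by
  refine attained_all_d hd n hn (open_of_seq n c
    (fun m => {c' | ∀ s, |c' s - c m s| ≤ r m * |c m s|}) (fun m => ?_) fun c' x hc' hx =>
      (h c' x hc' hx).exists)
  have h1 : ∀ s, ∀ᶠ c' in 𝓝 (c m), |c' s - c m s| ≤ r m * |c m s| := by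
    intro s
    have h2 : Tendsto (fun c' : Sct (blk n) → ℝ => |c' s - c m s|) (𝓝 (c m)) (𝓝 0) := by
      have h3 : Continuous fun c' : Sct (blk n) → ℝ => |c' s - c m s| :=
        ((continuous_apply s).sub continuous_const).abs
      have h4 := h3.tendsto (c m)
      rwa [sub_self, abs_zero] at h4
    exact (h2.eventually_lt_const (mul_pos (hr m) (abs_pos.2 (hc m s)))).mono fun _ h => h.le
  exact eventually_all.2 h1

end Pool.Agent.MPb0eR
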